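import Pool.Agent.Lib.MP_1a91b9_ntDV.T20

/-!
# MP_1a91b9_nt (random multiquadratic fields): the relative conjecture is transitive
-/

set_option autoImplicit false

namespace Pool.Agent.Lib.MP_1a91b9_ntDV.Fin

open NumberField IsDedekindDomain Pool.Agent.Lib.MP_1a91b9_nuT.S9 Pool.Agent.Lib.MP_1a91b9_nuT3.S9

/-- The product of two `q`-adic units. -/
theorem unit_mul {q : ℕ} [Fact q.Prime] {r r' : ℚ} (h : IsCoprime r.num (q : ℤ) ∧ r.den.Coprime q)
    (h' : IsCoprime r'.num (q : ℤ) ∧ r'.den.Coprime q) :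
    IsCoprime (r * r').num (q : ℤ) ∧ (r * r').den.Coprime q := by
  constructor
  · have h1 : (r * r').num ∣ r.num * r'.num := by
      rw [Rat.mul_num]
      exact Int.ediv_dvd_of_dvd (Int.natAbs_dvd_natAbs.1 (by
        rw [Int.natAbs_natCast]
        exact Nat.gcd_dvd_left _ _))
    exact (h.1.mul_left h'.1).of_isCoprime_of_dvd_left h1
  · exact Nat.Coprime.coprime_dvd_left (Rat.mul_den_dvd r r') (Nat.Coprime.mul_left h.2 h'.2)

open Classical in
/-- **The relative conjecture is transitive**, if the upper field gives no new points. -/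
theorem RelBSD.trans {q : ℕ} [Fact q.Prime] {L L' L'' : Type} [Field L] [NumberField L] [Field L']
    [NumberField L'] [Field L''] [NumberField L''] [Algebra L L'] [Algebra L' L''] [Algebra L L'']
    {W : WeierstrassCurve L} {W' : WeierstrassCurve L'} {W'' : WeierstrassCurve L''}
    (h1 : RelBSD q W W') (h2 : RelBSD q W' W'')
    (hp : ∀ x' y' : L'', W''.toAffine.Equation x' y' →
      ∃ x y : L, algebraMap L L'' x = x' ∧ algebraMap L L'' y = y') : RelBSD q W W'' := by
  obtain ⟨⟨g, hg, hg1, hg2, r, hr, hr2⟩, a1, a2, a3, a4, ⟨a5⟩⟩ := h1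
  obtain ⟨⟨g', hg', hg1', hg2', r', hr', hr2'⟩, b1, b2, b3, b4, ⟨b5⟩⟩ := h2
  refine ⟨⟨fun s => g s * g' s, hg.mul hg', mul_ne_zero hg1 hg1', fun s hs => ?_, r * r',
    unit_mul hr hr', ?_⟩, b1.trans a1, ?_, a3, b4, ⟨b5.trans a5⟩⟩
  · rw [hg2' s hs, hg2 s hs, mul_assoc]
  · have e : ((r * r' : ℚ) : ℂ) = (r : ℂ) * r' := by push_cast; rfl
    rw [e, mul_assoc, hr2', mul_left_comm, hr2]
    ring
  · have h : AddSubgroup.closure {P : W''.toAffine.Point | ∃ (x y : L)
        (h : W''.toAffine.Nonsingular (algebraMap L L'' x) (algebraMap L L'' y)),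
        P = WeierstrassCurve.Affine.Point.some _ _ h} = ⊤ := by
      rw [eq_top_iff]
      intro P _
      cases P with
      | zero => exact AddSubgroup.zero_mem _
      | some x' y' h =>
        obtain ⟨x, y, rfl, rfl⟩ := hp x' y' h.1
        exact AddSubgroup.subset_closure ⟨x, y, h, rfl⟩
    rw [h, AddSubgroup.index_top]
    exact Nat.coprime_one_left q

end Pool.Agent.Lib.MP_1a91b9_ntDV.Fin
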