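import Pool.Agent.Lib.MP_1a91b9_ntMQ.RT16

/-!
# MP_1a91b9_nt (random multiquadratic fields): the fields between `F` and a multiquadratic extension
-/

set_option autoImplicit false

namespace Pool.Agent.Lib.MP_1a91b9_ntMQ

open NumberField

noncomputable section

/-- **The fields between `F` and `N = F(√α₁, …, √αᵣ)`** are generated over `F` by square roots of products of
the `αᵢ`. -/
theorem MQx.inter {F N F' : Type} [Field F] [NumberField F] [Field N] [NumberField N] [Algebra F N]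
    [Field F'] [Algebra F F'] [Algebra F' N] [IsScalarTower F F' N] {r : ℕ}
    {α : Fin r → F} {x : Fin r → N} {s : Finset (Fin r)} (h : MQx α x s) (hα : ∀ i ∈ s, α i ≠ 0) :
    IntermediateField.adjoin F
      {y : F' | ∃ J ⊆ s, y ^ 2 = algebraMap F F' (∏ i ∈ J, α i)} = ⊤ := by
  have hg := h.galois
  rw [eq_top_iff]
  intro z' _
  obtain ⟨A, hA⟩ : ∃ A : IntermediateField F F', A = IntermediateField.adjoin F
      {y : F' | ∃ J ⊆ s, y ^ 2 = algebraMap F F' (∏ i ∈ J, α i)} := ⟨_, rfl⟩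
  rw [← hA]
  obtain ⟨M, hM⟩ : ∃ M : IntermediateField F N, M = (IsScalarTower.toAlgHom F F' N).fieldRange :=
    ⟨_, rfl⟩
  have hMm : ∀ z : N, z ∈ M ↔ ∃ w : F', algebraMap F' N w = z := by
    intro z
    rw [hM]
    exact Iff.rfl
  obtain ⟨z, hz⟩ : ∃ z : N, z = algebraMap F' N z' := ⟨_, rfl⟩
  have hzM : z ∈ M := (hMm z).2 ⟨z', hz.symm⟩
  obtain ⟨S, hS⟩ : ∃ S : (N ≃ₐ[F] N) → N →+ N, ∀ σ z, S σ z = σ z :=
    ⟨fun σ => (σ : N →+* N).toAddMonoidHom, fun σ z => rfl⟩
  have hm : ∀ σ τ P, S (σ * τ) P = S σ (S τ P) := fun σ τ P => by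
    rw [hS, hS, hS, AlgEquiv.mul_apply]
  have hact : ∀ J ⊆ s, ∀ σ : N ≃ₐ[F] N, σ (prJ x S J z) = (chi x σ J : N) * prJ x S J z := by
    intro J hJ σ
    have h1 := h.act_prJ hα S hm hJ σ z
    rw [hS, zsmul_eq_mul] at h1
    exact h1
  have hmem : ∀ J, prJ x S J z ∈ M := by
    intro J
    rw [← IsGalois.fixedField_fixingSubgroup M, IntermediateField.mem_fixedField_iff]
    intro τ hτ
    have hτz : τ z = z := (IntermediateField.mem_fixingSubgroup_iff _ _).1 hτ z hzM
    unfold prJ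
    rw [map_sum]
    refine Finset.sum_congr rfl fun σ _ => ?_
    rw [map_zsmul, hS, ← h.comm σ τ z, hτz]
  have key : ∀ J ∈ s.powerset, ∃ w ∈ A, algebraMap F' N w = prJ x S J z := by
    intro J hJ
    rw [Finset.mem_powerset] at hJ
    by_cases h0 : prJ x S J z = 0
    · exact ⟨0, zero_mem A, by rw [map_zero, h0]⟩
    obtain ⟨c, hc⟩ := h.mem_chi hα hJ (hact J hJ)
    have hc0 : algebraMap F N c ≠ 0 := by
      intro h1
      rw [h1, zero_mul] at hc
      exact h0 hc
    have h1 : ∏ i ∈ J, x i ∈ M := by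
      have h2 : ∏ i ∈ J, x i = prJ x S J z / algebraMap F N c := by
        rw [hc, mul_div_cancel_left₀ _ hc0]
      rw [h2]
      exact div_mem (hmem J) (IntermediateField.algebraMap_mem _ c)
    obtain ⟨y, hy⟩ := (hMm _).1 h1
    have hyA : y ∈ A := by
      rw [hA]
      refine IntermediateField.subset_adjoin F _ ⟨J, hJ, ?_⟩
      refine (algebraMap F' N).injective ?_
      rw [map_pow, hy, ← IsScalarTower.algebraMap_apply F F' N, map_prod, ← Finset.prod_pow]
      exact Finset.prod_congr rfl fun i hi => h.sq i (hJ hi)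
    refine ⟨algebraMap F F' c * y, mul_mem (IntermediateField.algebraMap_mem A c) hyA, ?_⟩
    rw [map_mul, hy, ← IsScalarTower.algebraMap_apply F F' N, hc]
  choose! w hwA hw using key
  have h1 : algebraMap F' N (∑ J ∈ s.powerset, w J) = algebraMap F' N ((2 ^ s.card : ℕ) * z') := by
    rw [map_sum, Finset.sum_congr rfl hw, h.sum_prJ S (fun P => by rw [hS]; rfl) z, map_mul,
      map_natCast, ← hz, zsmul_eq_mul]
    push_cast
    rfl
  have h2 : ∑ J ∈ s.powerset, w J = (2 ^ s.card : ℕ) * z' := (algebraMap F' N).injective h1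
  have h3 : ((2 ^ s.card : ℕ) : F') ≠ 0 := by
    intro h4
    have h5 : ((2 ^ s.card : ℕ) : N) = 0 := by
      rw [← map_natCast (algebraMap F' N), h4, map_zero]
    exact pow_ne_zero s.card (two_ne_zero (α := ℕ)) (Nat.cast_eq_zero.1 h5)
  have h4 : z' = (∑ J ∈ s.powerset, w J) / ((2 ^ s.card : ℕ) : F') := by
    rw [h2, mul_div_cancel_left₀ _ h3]
  rw [h4]
  exact div_mem (sum_mem hwA) (natCast_mem A _)

end

end Pool.Agent.Lib.MP_1a91b9_ntMQ
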