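import Pool.Agent.Lib.MP_1a91b9_ntMQ.RU12
import Pool.Agent.Lib.MP_1a91b9_ntMQ.UW3
import Pool.Agent.Lib.MP_1a91b9_ntMQ.UW6

/-!
# MP_1a91b9_nt (random multiquadratic fields): the relative conjecture between all the intermediate fields
-/

set_option autoImplicit false

namespace Pool.Agent.Lib.MP_1a91b9_ntMQ.Fin

open NumberField IsDedekindDomain WeierstrassCurve
open Pool.Agent.Lib.MP_1a91b9_ntDV.Fin (PropR RamOK RelBSD RelBSD.trans)

noncomputable section

/-- There is no condition on the ramification for the trivial extension. -/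
theorem ramOK_self (K : Type) [Field K] [NumberField K] {F : Type} [Field F] [NumberField F]
    [Algebra K F] (V : WeierstrassCurve F) (q : ℕ) : RamOK K V q F := by
  intro v w h
  exfalso
  have h1 : v.asIdeal ≤ w.asIdeal ^ 2 := fun z hz => h (Ideal.mem_map_of_mem _ hz)
  have h2 : v.asIdeal = w.asIdeal := by
    refine (v.isMaximal.eq_of_le w.isPrime.ne_top ?_)
    exact h1.trans (Ideal.pow_le_self two_ne_zero)
  rw [h2] at h1
  have h3 : w.asIdeal ^ 2 = w.asIdeal := le_antisymm (Ideal.pow_le_self two_ne_zero) h1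
  have h4 : w.asIdeal * w.asIdeal = w.asIdeal * 1 := by
    rw [mul_one, ← sq, h3]
  have h5 := mul_left_cancel₀ w.ne_bot h4
  exact w.isPrime.ne_top (by rw [h5, Ideal.one_eq_top])

/-- The relative conjecture for one quadratic step. -/
theorem rel_step {K : Type} [Field K] [NumberField K] (E : WeierstrassCurve K) (F : Type) [Field F]
    [NumberField F] [Algebra K F] {e : K} (h : PropR E F e) (F₁ : Type) [Field F₁] [NumberField F₁]
    [Algebra F F₁] (y : F₁) (hy : y ^ 2 = algebraMap F F₁ (algebraMap K F e))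
    (hg : IntermediateField.adjoin F {y} = ⊤) :
    ∃ S : Finset ℕ, ∀ (q : ℕ) [Fact q.Prime], q ∉ S →
      RelBSD q (E.baseChange F) ((E.baseChange F).baseChange F₁) := by
  obtain ⟨S, hS⟩ := h.2 _ rfl
  refine ⟨S, fun q _ hq => ?_⟩
  have h1 := (hS q hq 0 F F (by rw [Module.finrank_self, pow_zero]) (ramOK_self K _ q)).2 F₁ y hy hg
    _ _ rfl rfl
  have h2 : (E.baseChange F).baseChange F = E.baseChange F := WeierstrassCurve.map_id _
  rw [h2] at h1
  exact h1

theorem adj_up {F F' N : Type} [Field F] [Field F'] [Field N] [Algebra F F'] [Algebra F N]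
    [Algebra F' N] [IsScalarTower F F' N] {s : Set N} (h : IntermediateField.adjoin F s = ⊤) :
    IntermediateField.adjoin F' s = ⊤ := by
  rw [eq_top_iff]
  intro z _
  have h1 : IntermediateField.adjoin F s ≤
      (IntermediateField.adjoin F' s).restrictScalars F := by
    rw [IntermediateField.adjoin_le_iff]
    exact IntermediateField.subset_adjoin F' s
  rw [h] at h1
  exact h1 (IntermediateField.mem_top (x := z))

/-- **The relative conjecture between all the intermediate fields** of a multiquadratic extension. -/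
theorem rel_chain {K : Type} [Field K] [NumberField K] (E : WeierstrassCurve K) (F : Type) [Field F]
    [NumberField F] [Algebra K F] {r : ℕ} (e : Fin r → K) (he : ∀ i, e i ≠ 0) (N : Type) [Field N]
    [NumberField N] [Algebra F N] (x : Fin r → N)
    (hx : ∀ i, x i ^ 2 = algebraMap F N (algebraMap K F (e i)))
    (hg : IntermediateField.adjoin F (Set.range x) = ⊤)
    (hD : ∀ (F' : Type) [Field F'] [NumberField F'] [Algebra K F'] [Algebra F F']
      [IsScalarTower K F F'] [Algebra F' N] [IsScalarTower F F' N],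
      (∀ x' y' : F', (E.baseChange F').toAffine.Equation x' y' →
        ∃ x y : F, algebraMap F F' x = x' ∧ algebraMap F F' y = y') ∧
      ∀ J : Finset (Fin r), ¬ IsSquare (algebraMap K F' (∏ i ∈ J, e i)) →
        PropR E F' (∏ i ∈ J, e i)) (n : ℕ) :
    ∀ (F' : Type) [Field F'] [NumberField F'] [Algebra K F'] [Algebra F F'] [IsScalarTower K F F']
      [Algebra F' N] [IsScalarTower F F' N]
      (F'' : Type) [Field F''] [NumberField F''] [Algebra F F''] [Algebra F' F'']
      [IsScalarTower F F' F''] [Algebra F'' N] [IsScalarTower F' F'' N],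
      Module.finrank F' F'' = n → n ≠ 1 →
      ∃ S : Finset ℕ, ∀ (q : ℕ) [Fact q.Prime], q ∉ S →
        RelBSD q (E.baseChange F') ((E.baseChange F').baseChange F'') := by
  induction n using Nat.strong_induction_on with
  | _ n ih =>
  intro F' _ _ _ _ _ _ _ F'' _ _ _ _ _ _ _ hn hn1
  have hKF : ∀ z : K, algebraMap K F' z = algebraMap F F' (algebraMap K F z) := fun z =>
    IsScalarTower.algebraMap_apply K F F' z
  have hMQ : MQx (fun i => algebraMap K F' (e i)) x Finset.univ := by
    refine ⟨fun i _ => ?_, ?_⟩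
    · rw [hx i, hKF, ← IsScalarTower.algebraMap_apply F F' N]
    · rw [Finset.coe_univ, Set.image_univ]
      exact adj_up hg
  have hgen := hMQ.inter (F' := F'') (fun i _ => (map_ne_zero _).2 (he i))
  -- a generator
  obtain ⟨y, J, hy, hyb⟩ : ∃ (y : F'') (J : Finset (Fin r)),
      y ^ 2 = algebraMap F' F'' (algebraMap K F' (∏ i ∈ J, e i)) ∧
      y ∉ (⊥ : IntermediateField F' F'') := by
    by_contra hcon
    push Not at hcon
    have h1 : (⊤ : IntermediateField F' F'') ≤ ⊥ := by
      rw [← hgen, IntermediateField.adjoin_le_iff]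
      rintro y ⟨J, -, hy⟩
      exact hcon y J (by rw [hy, map_prod (algebraMap K F')])
    have h2 : (⊥ : IntermediateField F' F'') = ⊤ := le_antisymm bot_le h1
    refine hn1 ?_
    rw [← hn, ← IntermediateField.finrank_top', ← h2, IntermediateField.finrank_bot]
  have hns : ¬ IsSquare (algebraMap K F' (∏ i ∈ J, e i)) := by
    rintro ⟨w, hw⟩
    rw [hw, map_mul, ← sq] at hy
    rcases sq_eq_sq_iff_eq_or_eq_neg.1 hy with h1 | h1
    · exact hyb (by rw [h1]; exact IntermediateField.algebraMap_mem _ w)
    · exact hyb (by rw [h1]; exact neg_mem (IntermediateField.algebraMap_mem _ w))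
  obtain ⟨-, hR⟩ := hD F'
  obtain ⟨F₁, hF₁⟩ : ∃ F₁ : IntermediateField F' F'', F₁ = IntermediateField.adjoin F' {y} :=
    ⟨_, rfl⟩
  have hyF : y ∈ F₁ := by
    rw [hF₁]
    exact IntermediateField.mem_adjoin_simple_self F' y
  by_cases h1 : Module.finrank F₁ F'' = 1
  · refine rel_step E F' (hR J hns) F'' y hy ?_
    rw [← hF₁]
    exact IntermediateField.finrank_eq_one_iff_eq_top.1 h1
  have hgy : IntermediateField.adjoin F' {(⟨y, hyF⟩ : F₁)} = ⊤ := by
    apply IntermediateField.lift_injective F₁
    rw [IntermediateField.lift_adjoin_simple, IntermediateField.lift_top]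
    exact hF₁.symm
  obtain ⟨S₁, hS₁⟩ := rel_step E F' (hR J hns) F₁ ⟨y, hyF⟩ (Subtype.ext hy) hgy
  let _ : Algebra K F'' := ((algebraMap F' F'').comp (algebraMap K F')).toAlgebra
  have t1 : IsScalarTower K F' F'' := IsScalarTower.of_algebraMap_eq fun _ => rfl
  have hFN : ∀ z : F, algebraMap F N z = algebraMap F'' N (algebraMap F F'' z) := fun z => by
    rw [IsScalarTower.algebraMap_apply F F' N, IsScalarTower.algebraMap_apply F' F'' N,
      ← IsScalarTower.algebraMap_apply F F' F'']
  have t2 : IsScalarTower F F'' N := IsScalarTower.of_algebraMap_eq hFN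
  have t3 : IsScalarTower K F F'' := IsScalarTower.of_algebraMap_eq fun z => by
    rw [IsScalarTower.algebraMap_apply K F' F'', hKF, ← IsScalarTower.algebraMap_apply F F' F'']
  have t4 : IsScalarTower K F F₁ := IsScalarTower.of_algebraMap_eq fun z => Subtype.ext
    (IsScalarTower.algebraMap_apply K F F'' z)
  have t5 : IsScalarTower F F₁ N := IsScalarTower.of_algebraMap_eq hFN
  have t6 : IsScalarTower F F₁ F'' := IsScalarTower.of_algebraMap_eq fun _ => rfl
  have hmul : Module.finrank F' F₁ * Module.finrank F₁ F'' = n := by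
    rw [← hn]
    exact Module.finrank_mul_finrank F' F₁ F''
  have h2 : Module.finrank F' F₁ ≠ 1 := by
    intro h3
    rw [IntermediateField.finrank_eq_one_iff] at h3
    rw [h3] at hyF
    exact hyb hyF
  have h3 : 0 < Module.finrank F₁ F'' := Module.finrank_pos
  have h4 : 0 < Module.finrank F' F₁ := Module.finrank_pos
  have hlt : Module.finrank F₁ F'' < n := by
    rw [← hmul]
    nlinarith [Nat.lt_of_le_of_ne (Nat.succ_le_of_lt h4) (Ne.symm h2)]
  obtain ⟨S₂, hS₂⟩ := ih _ hlt F₁ F'' rfl h1
  refine ⟨S₁ ∪ S₂, fun q _ hq => ?_⟩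
  have r1 := hS₁ q fun h => hq (Finset.mem_union_left _ h)
  have r2 := hS₂ q fun h => hq (Finset.mem_union_right _ h)
  have e1 : (E.baseChange F').baseChange F₁ = E.baseChange F₁ := by
    show (E.map (algebraMap K F')).map (algebraMap F' F₁) = E.map (algebraMap K F₁)
    rw [WeierstrassCurve.map_map]
    exact congrArg E.map (RingHom.ext fun z => Subtype.ext rfl)
  have e2 : (E.baseChange F₁).baseChange F'' = (E.baseChange F').baseChange F'' := by
    rw [← e1]
    show ((E.baseChange F').map (algebraMap F' F₁)).map (algebraMap F₁ F'') =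
      (E.baseChange F').map (algebraMap F' F'')
    rw [WeierstrassCurve.map_map]
    exact congrArg (E.baseChange F').map (RingHom.ext fun z => rfl)
  rw [e1] at r1
  rw [e2] at r2
  refine RelBSD.trans r1 r2 fun x' y' hxy => ?_
  obtain ⟨x, y, rfl, rfl⟩ := (hD F'').1 x' y' hxy
  exact ⟨algebraMap F F' x, algebraMap F F' y, (IsScalarTower.algebraMap_apply F F' F'' x).symm,
    (IsScalarTower.algebraMap_apply F F' F'' y).symm⟩

end

end Pool.Agent.Lib.MP_1a91b9_ntMQ.Fin
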