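import Pool.Agent.Lib.MP_1a91b9_ntMQ.UW4
import Pool.Agent.Lib.MP_1a91b9_ntMQ.UW7

/-!
# MP_1a91b9_nt (random multiquadratic fields): the property of the tuple, all the intermediate fields
-/

set_option autoImplicit false

namespace Pool.Agent.Lib.MP_1a91b9_ntMQ.Fin

open NumberField IsDedekindDomain WeierstrassCurve
open Pool.Agent.Lib.MP_1a91b9_ntL (crv)
open Pool.Agent.Lib.MP_1a91b9_ntDV.Fin (PropR propR_of RelBSD NoNewPoints)
open Pool.Agent.Lib.MP_1a91b9_ntC (Stb NoNew E0 E0_map s2_of R2_K r2_K8)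

noncomputable section

/-- The property of the tuple `e`, for all the fields between `F` and the field generated by the square roots. -/
def PropMF {K : Type} [Field K] [NumberField K] (E : WeierstrassCurve K) (F : Type) [Field F]
    [NumberField F] [Algebra K F] {r : ℕ} (e : Fin r → K) : Prop :=
  ∀ (N : Type) [Field N] [NumberField N] [Algebra F N] (x : Fin r → N),
    (∀ i, x i ^ 2 = algebraMap F N (algebraMap K F (e i))) →
    IntermediateField.adjoin F (Set.range x) = ⊤ →
    Module.finrank F N = 2 ^ r ∧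
    ∀ (F' : Type) [Field F'] [NumberField F'] [Algebra K F'] [Algebra F F'] [IsScalarTower K F F']
      [Algebra F' N] [IsScalarTower F F' N],
      NoNewPoints E F F' ∧
      (∃ g : ℂ → ℂ, Differentiable ℂ g ∧ g 1 ≠ 0 ∧ ∀ s : ℂ, 3 / 2 < s.re →
        (E.baseChange F').LSeries s = (E.baseChange F).LSeries s * g s) ∧
      (∀ (F'' : Type) [Field F''] [NumberField F''] [Algebra F F''] [Algebra F' F'']
        [IsScalarTower F F' F''] [Algebra F'' N] [IsScalarTower F' F'' N],
        Module.finrank F' F'' ≠ 1 →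
        ∃ S : Finset ℕ, ∀ (q : ℕ) [Fact q.Prime], q ∉ S →
          RelBSD q (E.baseChange F') ((E.baseChange F').baseChange F'')) ∧
      ∀ J : Finset (Fin r), ¬ IsSquare (algebraMap K F' (∏ i ∈ J, e i)) →
        PropR E F' (∏ i ∈ J, e i)

/-- From the properties for the model. -/
theorem propMF_of {K : Type} [Field K] [NumberField K] (hK : Module.finrank ℚ K = 2)
    (E : WeierstrassCurve K) (a b : K) (hE : E = crv a b) (j D : ℤ)
    (hjD : (j, D) ∈ [(0, -3), (54000, -3), (-12288000, -3), (1728, -4), (287496, -4), (-3375, -7),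
      (16581375, -7), (8000, -8), (-32768, -11), (-884736, -19), (-884736000, -43),
      (-147197952000, -67), (-262537412640768000, -163)])
    (hj : E.c₄ ^ 3 = j * E.Δ) (hD : ∃ s : K, s ^ 2 = D)
    (F : Type) [Field F] [NumberField F] [Algebra K F] {r : ℕ} (e : Fin r → K)
    (h : PMF a b F e) : PropMF E F e := by
  obtain ⟨he, hdeg, hmain⟩ := h
  intro N _ _ _ x hx hg
  have hMQ : MQx (fun i => algebraMap K F (e i)) x Finset.univ := by
    refine ⟨fun i _ => hx i, ?_⟩
    rw [Finset.coe_univ, Set.image_univ]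
    exact hg
  refine ⟨?_, ?_⟩
  · let _ : Algebra K N := ((algebraMap F N).comp (algebraMap K F)).toAlgebra
    have t1 : IsScalarTower K F N := IsScalarTower.of_algebraMap_eq fun _ => rfl
    exact hdeg N x hx hg
  have hall : ∀ (F' : Type) [Field F'] [NumberField F'] [Algebra K F'] [Algebra F F']
      [IsScalarTower K F F'] [Algebra F' N] [IsScalarTower F F' N],
      NoNew F (E.baseChange F') ∧ Stb (E.baseChange F) (E.baseChange F') ∧
      ∀ J : Finset (Fin r), ¬ IsSquare (algebraMap K F' (∏ i ∈ J, e i)) →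
        PropR E F' (∏ i ∈ J, e i) := by
    intro F' _ _ _ _ _ _ _
    have hgen := hMQ.inter (F' := F') (fun i _ => (map_ne_zero _).2 (he i))
    have hset : {y : F' | ∃ J ⊆ (Finset.univ : Finset (Fin r)),
        y ^ 2 = algebraMap F F' (∏ i ∈ J, algebraMap K F (e i))} =
        {y : F' | ∃ J : Finset (Fin r), y ^ 2 = algebraMap K F' (∏ i ∈ J, e i)} := by
      ext y
      constructor
      · rintro ⟨J, -, hy⟩
        exact ⟨J, by rw [hy, IsScalarTower.algebraMap_apply K F F', map_prod (algebraMap K F)]⟩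
      · rintro ⟨J, hy⟩
        exact ⟨J, Finset.subset_univ J, by
          rw [hy, IsScalarTower.algebraMap_apply K F F', map_prod (algebraMap K F)]⟩
    rw [hset] at hgen
    obtain ⟨h1, h2, h3, -⟩ := hmain F' hgen
    subst hE
    exact ⟨h1, h2, fun J hJ => propR_of hK (crv a b) a b rfl j D hjD hj hD F' _ (h3 J hJ)⟩
  intro F' _ _ _ _ _ _ _
  obtain ⟨h1, h2, h3⟩ := hall F'
  have hbc : (E.baseChange F).baseChange F' = E.baseChange F' := by
    show (E.map (algebraMap K F)).map (algebraMap F F') = E.map (algebraMap K F')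
    rw [WeierstrassCurve.map_map, ← IsScalarTower.algebraMap_eq K F F']
  refine ⟨⟨?_, ?_⟩, h2.1, ?_, h3⟩
  · rw [hbc]
    exact h1
  · intro hE0 hF1
    obtain ⟨s, hs⟩ := s2_of hjD (by rw [← hE0]; exact hj) hD
    have h5 : E.baseChange F = E0 F := by
      rw [hE0]
      exact E0_map (algebraMap K F)
    rw [hbc]
    exact ((R2_K r2_K8 hK hs).of_one hF1).up h5 h2
  · intro F'' _ _ _ _ _ _ _ hn
    exact rel_chain E F e he N x hx hg (fun F' _ _ _ _ _ _ _ => ⟨(hall F').1, (hall F').2.2⟩) _
      F' F'' rfl hn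

end

end Pool.Agent.Lib.MP_1a91b9_ntMQ.Fin
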