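import Pool.Agent.Lib.MP_1a91b9_ntDV.T0

/-!
# MP_1a91b9_nt (random multiquadratic fields), block R: definitions

`SubLI r B c P`: for almost all the finite sets `S` of primes outside `B` at least the share `c` of the
`r`-tuples of subsets of `S` has the property `P`. `DivGI R r m u P c`: for almost all the squarefree `D` in the
class of `u` modulo `m` at least the share `c` of the `r`-tuples of divisors of `D` has the property `P`, and the
number of the divisors is large.
-/

set_option autoImplicit false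
set_option linter.unusedSectionVars false

namespace Pool.Agent.Lib.MP_1a91b9_ntMQ

open Finset
open Pool.Agent.Lib.MP_1a91b9_ntH (PS nm Sx)

noncomputable section

/-- The `r`-tuples of subsets of `S`. -/
def tup {ι : Type} [DecidableEq ι] (r : ℕ) (S : Finset ι) : Finset (Fin r → Finset ι) :=
  Fintype.piFinset fun _ : Fin r => S.powerset

theorem mem_tup {ι : Type} [DecidableEq ι] {r : ℕ} {S : Finset ι} {T : Fin r → Finset ι} :
    T ∈ tup r S ↔ ∀ i, T i ⊆ S := by
  unfold tup
  rw [Fintype.mem_piFinset]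
  exact forall_congr' fun i => mem_powerset

theorem card_tup {ι : Type} [DecidableEq ι] (r : ℕ) (S : Finset ι) :
    (tup r S).card = (2 ^ S.card) ^ r := by
  unfold tup
  rw [Fintype.card_piFinset_const, card_powerset]

/-- The points which lie in an odd number of the sets `T i`, `i ∈ J`. -/
def sdJ {ι : Type} [DecidableEq ι] {r : ℕ} (J : Finset (Fin r)) (T : Fin r → Finset ι) : Finset ι :=
  (univ.biUnion T).filter fun x => Odd (J.filter fun i => x ∈ T i).card

theorem mem_sdJ {ι : Type} [DecidableEq ι] {r : ℕ} {J : Finset (Fin r)} {T : Fin r → Finset ι} {x : ι} :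
    x ∈ sdJ J T ↔ Odd (J.filter fun i => x ∈ T i).card := by
  unfold sdJ
  rw [mem_filter, mem_biUnion]
  refine ⟨fun h => h.2, fun h => ⟨?_, h⟩⟩
  obtain ⟨i, hi⟩ := card_pos.1 h.pos
  exact ⟨i, mem_univ i, (mem_filter.1 hi).2⟩

open Classical in
/-- For almost all the finite sets `S` of primes outside `B` at least the share `c` of the `r`-tuples of
subsets of `S` has the property `P`. -/
def SubLI {ι : Type} [DecidableEq ι] [PS ι] (r : ℕ) (B : Finset ι) (c : ℝ)
    (P : (Fin r → Finset ι) → Prop) : Prop :=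
  ∀ ε : ℝ, 0 < ε → ∃ X₀ : ℕ, ∀ X : ℕ, X₀ ≤ X →
    (((Sx ι X).filter fun S => Disjoint S B ∧
      (((tup r S).filter P).card : ℝ) < (c - ε) * (2 ^ S.card) ^ r).card : ℝ) ≤ ε * X

/-- For almost all the squarefree `D` in the class of `u` modulo `m` there are at least `M` divisors, and at
least the share `c` of the `r`-tuples of the divisors has the property `P`. -/
def DivGI (R : Type) [CommRing R] (r : ℕ) (m u : R) (P : (Fin r → R) → Prop) (c : ℝ) : Prop :=
  ∀ (M : ℕ) (ε : ℝ), 0 < ε → ∀ᶠ X : ℝ in Filter.atTop, 1 - ε ≤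
    (Nat.card {D : R // Squarefree D ∧ m ∣ D - u ∧ |Algebra.norm ℤ D| ≤ X ∧
      M ≤ Nat.card {d : R // d ∣ D} ∧
      (c - ε) * (Nat.card {d : R // d ∣ D} : ℝ) ^ r ≤
        Nat.card {d : Fin r → R // (∀ i, d i ∣ D) ∧ P d}} : ℝ) /
    (Nat.card {D : R // Squarefree D ∧ m ∣ D - u ∧ |Algebra.norm ℤ D| ≤ X} : ℝ)

/-- The property `P` for all the products of the entries of the tuple, with the factors `δ J`. -/
def DivJ (R : Type) [CommRing R] (r : ℕ) (m u : R) (δ : Finset (Fin r) → R) (P : R → Prop)
    (c : ℝ) : Prop :=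
  DivGI R r m u (fun d => ∀ J : Finset (Fin r), J.Nonempty → P (δ J * ∏ i ∈ J, d i)) c

end

end Pool.Agent.Lib.MP_1a91b9_ntMQ
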