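import Pool.Agent.Lib.MP_1a91b9_ntDV.T9
import Pool.Agent.Lib.MP_1a91b9_ntMQ.RT0

/-!
# MP_1a91b9_nt (random multiquadratic fields), block R: the joint laws
-/

set_option autoImplicit false
set_option linter.unusedSectionVars false

namespace Pool.Agent.Lib.MP_1a91b9_ntMQ

open Finset
open Pool.Agent.Lib.MP_1a91b9_ntR (Qi Pri Pg)

noncomputable section

/-- The joint law for the labels `i J n`: for different `J` there is no condition. -/
def DLRI {R : Type} [CommRing R] [IsDomain R] [IsPrincipalIdealRing R] [Qi R] [Pri R] {A : Type}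
    (Good : ZMod 2 × (A → ZMod 2) → Finset (Pg R) → Prop) (c : ℝ) (r N : ℕ) : Prop :=
  ∀ (i : Finset (Fin r) → Fin N → ZMod 2 × (A → ZMod 2))
    (T₀ : Finset (Fin r) → Fin N → Finset (Pg R)) (B : Finset (Pg R)),
    (∀ J n, T₀ J n ⊆ B) →
    (∀ J : Finset (Fin r), J.Nonempty → Function.Injective fun n => (i J n, T₀ J n)) →
    SubLI r B (c ^ ((2 ^ r - 1) * N)) fun T => ∀ J : Finset (Fin r), J.Nonempty → ∀ n,
      Good (i J n) (sdJ J T ∪ T₀ J n)

section Seven

open Pool.Agent.Lib.MP_1a91b9_nuT Pool.Agent.Lib.MP_1a91b9_ntV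
open Pool.Agent.Lib.MP_1a91b9_ntV.DS (cinfV)

variable [CD] [hv : V7]

/-- The joint law over `ℚ(√-7)`, with `N` labels for every nonempty `J`. -/
def JLI7 (r N : ℕ) : Prop :=
  ∀ (d0 d1 d2 : Finset (Fin r) → Fin N → ZMod 2) (T₀ : Finset (Fin r) → Fin N → Finset Pg7)
    (B : Finset Pg7), (∀ J n, T₀ J n ⊆ B) →
    (∀ J : Finset (Fin r), J.Nonempty →
      Function.Injective fun n => (d0 J n, d1 J n, d2 J n, T₀ J n)) →
    SubLI r B (cinfV ^ ((2 ^ r - 1) * N)) fun T => ∀ J : Finset (Fin r), J.Nonempty → ∀ n,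
      Good7 D7 (sdJ J T ∪ T₀ J n) (d0 J n) (d1 J n) (d2 J n)

end Seven

end

end Pool.Agent.Lib.MP_1a91b9_ntMQ
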