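import Pool.Agent.Lib.MP_1a91b9_ntDV.P1
import Pool.Agent.Lib.MP_1a91b9_ntMQ.RT0b
import Pool.Agent.Lib.MP_1a91b9_ntZ.Bin

/-!
B0: blocks of labels, definitions
-/

set_option autoImplicit false
set_option linter.unusedSectionVars false

namespace Pool.Agent.Lib.MP_1a91b9_ntMQ

open Finset Pool.Agent.Lib.MP_1a91b9_ntH Pool.Agent.Lib.MP_1a91b9_ntQ
open Pool.Agent.Lib.MP_1a91b9_ntQ.Da Pool.Agent.Lib.MP_1a91b9_ntV Pool.Agent.Lib.MP_1a91b9_ntM
open Pool.Agent.Lib.MP_1a91b9_ntDV

noncomputable section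

open Pool.Agent.Lib.MP_1a91b9_ntZ (Atl bn bts bts_zero bts_empty_succ bts_insert_succ)

/-- The mean values of `bts`, for any notion of mean value. -/
theorem mean_bts {β : Type} {P : (β → ℝ) → ℝ → Prop} (hP : LimP P) {I : Type}
    [DecidableEq I] {F : I → β → ℝ} {v : I → ℝ} (s : Finset I) :
    ∀ (K : Finset I), Disjoint K s →
      (∀ J : Finset I, J ⊆ K ∪ s → P (fun b => ∏ i ∈ J, F i b) (∏ i ∈ J, v i)) → ∀ t : ℕ,
      P (fun b => (∏ i ∈ K, F i b) * bts s t fun i => F i b) ((∏ i ∈ K, v i) * bts s t v) := by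
  have hcongr : ∀ {f h : β → ℝ} {x y : ℝ}, P f x → (∀ b, h b = f b) → y = x → P h y := by
    intro f h x y h1 h2 h3
    rw [show h = f from funext h2, h3]
    exact h1
  induction s using Finset.induction_on with
  | empty =>
    intro K _ hM t
    rcases t with _ | t
    · refine hcongr (hM K subset_union_left) (fun b => ?_) ?_
      · rw [bts_zero, mul_one]
      · rw [bts_zero, mul_one]
    · have h0 := hP.smul _ _ 0 (hM K subset_union_left)
      refine hcongr h0 (fun b => ?_) ?_
      · rw [bts_empty_succ]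
        ring
      · rw [bts_empty_succ]
        ring
  | insert a s ha ih =>
    intro K hK hM t
    have haK : a ∉ K := fun h => disjoint_left.1 hK h (mem_insert_self _ _)
    have hKs : Disjoint K s := disjoint_of_subset_right (subset_insert _ _) hK
    have hKs' : Disjoint (insert a K) s := by
      rw [disjoint_insert_left]
      exact ⟨ha, hKs⟩
    rcases t with _ | t
    · refine hcongr (hM K subset_union_left) (fun b => ?_) ?_
      · rw [bts_zero, mul_one]
      · rw [bts_zero, mul_one]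
    · have m1 := ih (insert a K) hKs' (fun J hJ => hM J (hJ.trans (by
        intro i hi
        simp only [mem_union, mem_insert] at hi ⊢
        tauto))) t
      have m2 := ih K hKs (fun J hJ => hM J (hJ.trans (union_subset_union_right
        (subset_insert _ _)))) (t + 1)
      have m3 := ih (insert a K) hKs' (fun J hJ => hM J (hJ.trans (by
        intro i hi
        simp only [mem_union, mem_insert] at hi ⊢
        tauto))) (t + 1)
      refine hcongr (hP.add _ _ _ _ (hP.add _ _ _ _ m1 m2) (hP.smul _ _ (-1) m3))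
        (fun b => ?_) ?_
      · rw [bts_insert_succ ha, prod_insert haK]
        ring
      · rw [bts_insert_succ ha, prod_insert haK]
        ring

section Seven

open Pool.Agent.Lib.MP_1a91b9_nuT
open Pool.Agent.Lib.MP_1a91b9_ntV.DS (cinfV)

variable [CD] [hv : V7]

/-- The joint law for blocks of labels over `ℚ(√-7)`, for the `r`-tuples of divisors. -/
def JBI7 : Prop :=
  ∀ (r k N : ℕ), 0 < N → ∀ (d0 d1 d2 : Fin k → Finset (Fin r) → Fin N → ZMod 2)
    (T₀ : Fin k → Finset (Fin r) → Fin N → Finset Pg7) (B : Finset Pg7),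
    (∀ b J n, T₀ b J n ⊆ B) →
    (∀ b, ∀ J : Finset (Fin r), J.Nonempty →
      Function.Injective fun n => (d0 b J n, d1 b J n, d2 b J n, T₀ b J n)) →
    (∀ b b', b ≠ b' → ∀ J : Finset (Fin r), J.Nonempty → ∀ n n',
      ¬ (d1 b J n = d1 b' J n' ∧ d2 b J n = d2 b' J n' ∧ T₀ b J n = T₀ b' J n')) →
    ∀ t : ℕ, SubLI r B (bn k t (cinfV ^ ((2 ^ r - 1) * N))) fun T => Atl t fun b =>
      ∀ J : Finset (Fin r), J.Nonempty → ∀ n,
        Good7 D7 (sdJ J T ∪ T₀ b J n) (d0 b J n) (d1 b J n) (d2 b J n)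

end Seven

end

end Pool.Agent.Lib.MP_1a91b9_ntMQ
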