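import Pool.Agent.Lib.MP_1a91b9_ntMQ.X10

set_option autoImplicit false
set_option linter.unusedSectionVars false

namespace Pool.Agent.Lib.MP_1a91b9_ntMQ.G4

open Finset Pool.Agent.Lib.MP_1a91b9_ntH Pool.Agent.Lib.MP_1a91b9_ntQ Pool.Agent.Lib.MP_1a91b9_ntQ.Da
  Pool.Agent.Lib.MP_1a91b9_ntQ.M Pool.Agent.Lib.MP_1a91b9_ntM Pool.Agent.Lib.MP_1a91b9_ntM.E
open Pool.Agent.Lib.MP_1a91b9_ntDV Pool.Agent.Lib.MP_1a91b9_ntDV.G4 Pool.Agent.Lib.MP_1a91b9_ntMQ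

noncomputable section


variable {I A : Type} [Fintype I] [DecidableEq I] [Fintype A] [DecidableEq A]
  {phi : A → I → ZMod 2} {Bt : A → Type} [∀ a, Fintype (Bt a)] [∀ a, DecidableEq (Bt a)]
  {k : ∀ a, Bt a → ℕ} {E : ∀ a, Bt a → Type} [∀ a b, Fintype (E a b)]
  [∀ a b, DecidableEq (E a b)] {ι : Type} [DecidableEq ι] {κ : Type} [Fintype κ] [DecidableEq κ]

private theorem X11_max {V : Type} (F : Finset V) (p : V → ℕ → Prop)
    (h : ∀ v ∈ F, ∃ X₀ : ℕ, ∀ X : ℕ, X₀ ≤ X → p v X) :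
    ∃ X₀ : ℕ, ∀ X : ℕ, X₀ ≤ X → ∀ v ∈ F, p v X := by
  choose! f hf using h
  exact ⟨F.sup f, fun X hX v hv => hf v hv X ((Finset.le_sup hv).trans hX)⟩

private theorem X11_sub (F G : (I → Finset ι) → ℂ) (S : Finset ι) :
    avI (fun c => F c - G c) S = avI F S - avI G S := by
  unfold avI
  rw [sum_sub_distrib, sub_div]

private theorem X11_lin {M : Type} [Fintype M] (c : M → ℂ) (F : M → (I → Finset ι) → ℂ) (S : Finset ι) :
    avI (fun T => ∑ m, c m * F m T) S = ∑ m, c m * avI (F m) S := by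
  unfold avI
  rw [sum_comm, sum_div]
  refine sum_congr rfl fun m _ => ?_
  rw [← mul_sum, mul_div_assoc]

/-- The mean value of a product over the sets `TT phi c a`. -/
private theorem X11_one (t : A → ι → ℂ) (S : Finset ι) :
    (∑ c ∈ Fintype.piFinset (fun _ : I => S.powerset), ∏ a, ∏ q ∈ TT phi c a, t a q) /
      2 ^ (Fintype.card I * S.card) =
      ∏ q ∈ S, (((2 : ℂ) ^ Fintype.card I)⁻¹ * ∑ v : I → ZMod 2, ∏ a, if phi a ⬝ᵥ v = 1 then t a q else 1) := by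
  rw [sum_col fun c => ∏ a, ∏ q ∈ TT phi c a, t a q]
  have h1 : ∀ f : S → I → ZMod 2, ∏ a, ∏ q ∈ TT phi (colF S f) a, t a q =
      ∏ j : S, ∏ a, if phi a ⬝ᵥ f j = 1 then t a j else 1 := by
    intro f
    rw [prod_comm]
    refine prod_congr rfl fun a _ => ?_
    rw [TT_cf, prod_map, prod_filter]
    rfl
  rw [sum_congr rfl fun f _ => h1 f]
  have h2 : ∑ f : S → I → ZMod 2, ∏ j : S, ∏ a, (if phi a ⬝ᵥ f j = 1 then t a j else 1) =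
      ∏ j : S, ∑ v : I → ZMod 2, ∏ a, if phi a ⬝ᵥ v = 1 then t a j else 1 := by
    rw [Finset.prod_univ_sum, Fintype.piFinset_univ]
  rw [h2, ← prod_coe_sort S fun q => ((2 : ℂ) ^ Fintype.card I)⁻¹ * ∑ v : I → ZMod 2, ∏ a, if phi a ⬝ᵥ v = 1 then t a q else 1,
    prod_mul_distrib, prod_const, card_univ, Fintype.card_coe, pow_mul, inv_pow, div_eq_mul_inv, mul_comm]

/-- The algebra of `de_pairI`. -/
private theorem X11_alg {σ V V' : Type} (s : Finset σ) (a a' : σ → ℂ) (F : Finset V) (F' : Finset V')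
    (p : V → σ → ℂ) (p' : V' → σ → ℂ) {δ : ℝ}
    (e1 : ‖∑ S ∈ s, a S * a' S - ∑ u ∈ F, ∑ v ∈ F', ∑ S ∈ s, p u S * p' v S‖ ≤ δ)
    (e2 : ∀ v ∈ F', ‖∑ S ∈ s, a S * p' v S - ∑ u ∈ F, ∑ S ∈ s, p u S * p' v S‖ ≤ δ)
    (e3 : ∀ u ∈ F, ‖∑ S ∈ s, a' S * p u S - ∑ v ∈ F', ∑ S ∈ s, p' v S * p u S‖ ≤ δ) :
    ‖∑ S ∈ s, (a S - ∑ u ∈ F, p u S) * (a' S - ∑ v ∈ F', p' v S)‖ ≤ (1 + F.card + F'.card) * δ := by
  obtain ⟨N, hN⟩ : ∃ N : ℂ, N = ∑ u ∈ F, ∑ v ∈ F', ∑ S ∈ s, p u S * p' v S := ⟨_, rfl⟩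
  rw [← hN] at e1
  have k2 : ‖∑ S ∈ s, a S * ∑ v ∈ F', p' v S - N‖ ≤ F'.card * δ := by
    have h4 : ∑ S ∈ s, a S * ∑ v ∈ F', p' v S - N =
        ∑ v ∈ F', (∑ S ∈ s, a S * p' v S - ∑ u ∈ F, ∑ S ∈ s, p u S * p' v S) := by
      rw [sum_sub_distrib, hN]
      congr 1
      · rw [sum_comm]
        exact sum_congr rfl fun S _ => mul_sum _ _ _
      · exact sum_comm
    rw [h4]
    refine (norm_sum_le _ _).trans ((sum_le_sum e2).trans (le_of_eq ?_))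
    rw [sum_const, nsmul_eq_mul]
  have k3 : ‖∑ S ∈ s, (∑ u ∈ F, p u S) * a' S - N‖ ≤ F.card * δ := by
    have h4 : ∑ S ∈ s, (∑ u ∈ F, p u S) * a' S - N =
        ∑ u ∈ F, (∑ S ∈ s, a' S * p u S - ∑ v ∈ F', ∑ S ∈ s, p' v S * p u S) := by
      rw [sum_sub_distrib, hN]
      congr 1
      · rw [sum_comm]
        refine sum_congr rfl fun S _ => ?_
        rw [mul_comm, mul_sum]
      · exact sum_congr rfl fun u _ => sum_congr rfl fun v _ => sum_congr rfl fun S _ => mul_comm _ _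
    rw [h4]
    refine (norm_sum_le _ _).trans ((sum_le_sum e3).trans (le_of_eq ?_))
    rw [sum_const, nsmul_eq_mul]
  have k4 : ∑ S ∈ s, (∑ u ∈ F, p u S) * ∑ v ∈ F', p' v S = N := by
    rw [hN, sum_congr rfl fun S _ => sum_mul_sum F F' (fun u => p u S) fun v => p' v S, sum_comm]
    exact sum_congr rfl fun u _ => sum_comm
  have hsplit : ∑ S ∈ s, (a S - ∑ u ∈ F, p u S) * (a' S - ∑ v ∈ F', p' v S) =
      (∑ S ∈ s, a S * a' S - N) - (∑ S ∈ s, a S * ∑ v ∈ F', p' v S - N) -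
      (∑ S ∈ s, (∑ u ∈ F, p u S) * a' S - N) := by
    have h6 : ∑ S ∈ s, (a S - ∑ u ∈ F, p u S) * (a' S - ∑ v ∈ F', p' v S) =
        ∑ S ∈ s, a S * a' S - ∑ S ∈ s, a S * ∑ v ∈ F', p' v S -
        ∑ S ∈ s, (∑ u ∈ F, p u S) * a' S + ∑ S ∈ s, (∑ u ∈ F, p u S) * ∑ v ∈ F', p' v S := by
      rw [← sum_sub_distrib, ← sum_sub_distrib, ← sum_add_distrib]
      exact sum_congr rfl fun S _ => by ring
    rw [h6, k4]
    ring
  rw [hsplit]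
  refine (norm_sub_le _ _).trans ((add_le_add (norm_sub_le _ _) k3).trans ?_)
  refine (add_le_add (add_le_add e1 k2) le_rfl).trans (le_of_eq ?_)
  ring

/-- The algebra of `de_allI`. -/
private theorem X11_alg2 {σ M : Type} [Fintype M] (s : Finset σ) (c : M → ℂ) (hc : ∀ m, ‖c m‖ = 1)
    (u u' : M → σ → ℂ) {δ : ℝ} (h : ∀ m m', ‖∑ S ∈ s, u m S * u' m' S‖ ≤ δ) :
    ‖∑ S ∈ s, (∑ m, c m * u m S) * ∑ m, c m * u' m S‖ ≤ (Fintype.card M : ℝ) * (Fintype.card M * δ) := by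
  have h3 : ∑ S ∈ s, (∑ m, c m * u m S) * ∑ m, c m * u' m S =
      ∑ m, ∑ m', c m * c m' * ∑ S ∈ s, u m S * u' m' S := by
    have h4 : ∀ S, (∑ m, c m * u m S) * ∑ m, c m * u' m S =
        ∑ m, ∑ m', c m * c m' * (u m S * u' m' S) := by
      intro S
      rw [sum_mul_sum]
      exact sum_congr rfl fun m _ => sum_congr rfl fun m' _ => by ring
    rw [sum_congr rfl fun S _ => h4 S, sum_comm]
    refine sum_congr rfl fun m _ => ?_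
    rw [sum_comm]
    exact sum_congr rfl fun m' _ => (mul_sum _ _ _).symm
  rw [h3]
  have h5 : ∀ m m', ‖c m * c m' * ∑ S ∈ s, u m S * u' m' S‖ ≤ δ := by
    intro m m'
    rw [norm_mul, norm_mul, hc, hc, one_mul, one_mul]
    exact h m m'
  refine (norm_sum_le _ _).trans ?_
  refine (sum_le_sum fun m _ => (norm_sum_le _ _).trans (sum_le_sum fun m' _ => h5 m m')).trans ?_
  rw [sum_const, sum_const, card_univ, nsmul_eq_mul, nsmul_eq_mul]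

/-- **X11a** (medium-). The mean value of the main term. Proof: `PsI` is a product over `a` of sums over the `U ∈ FullW ..`, so it is the
sum over `V ∈ FuI ι cA σ P m` (`Finset.prod_univ_sum`) of `∏ a, ∏ q ∈ TT phi c a, t a q`, `t a q = g a q * TotW .. (V a) (D.a q)`; `avI` is linear.
For one `V`: `sum_col` (A1), `TT_cf` (A1): `∏ q ∈ TT phi (colF S f) a, t a q = ∏ j : S, if phi a ⬝ᵥ f j = 1 then t a j else 1`
(`prod_map`, `prod_filter`), `Finset.prod_comm`, and `∑ f : S → I → ZMod 2, ∏ j : S, x j (f j) = ∏ j : S, ∑ v, x j v`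
(`Finset.prod_univ_sum` with `Fintype.piFinset_univ`); `2 ^ (#I * #S) = ∏ j : S, 2 ^ #I`, `prod_coe_sort`. -/
theorem avI_PsI (D : Dat2 ι κ) (cA σ : ∀ a, Bt a → κ → ZMod 2)
    (P : ∀ a b, κ → E a b → ZMod 2) (m : ∀ a b, E a b → Lab2 (k a b)) (g : A → ι → ℂ)
    (S : Finset ι) : avI (PsI D phi cA σ P m g) S =
      ∑ V ∈ FuI ι cA σ P m, ∏ q ∈ S, hI D phi cA σ P m g V q := by
  have h1 : ∀ c : I → Finset ι, PsI D phi cA σ P m g c = ∑ V ∈ FuI ι cA σ P m, ∏ a, ∏ q ∈ TT phi c a,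
      g a q * TotW (LSP ι (k a) (σ a) (P a) (m a)) (wX (k a) (cA a)) (V a) (D.a q) := by
    intro c
    unfold PsI PsX FuI
    rw [Finset.prod_univ_sum]
  unfold avI
  rw [sum_congr rfl fun c _ => h1 c, sum_comm, sum_div]
  refine sum_congr rfl fun V _ => ?_
  exact X11_one (fun a q => g a q * TotW (LSP ι (k a) (σ a) (P a) (m a)) (wX (k a) (cA a)) (V a) (D.a q)) S

/-- **X11b** (medium-, a copy). **The difference, for fixed labels of the border.** Proof: as `de_pair` (K4_10 of MP_1a91b9_ntDV, PROVED)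
line by line: `avI` for `avg`, `PhI`, `PsI`, `hI`, `FuI`, `avI_PsI`, `norm_hI`, `sq_I`, `cross_I` for `PhX`, `PsX`, `hT`, `FullW`, `avg_PsX`,
`norm_hT`, `sq_X`, `cross_X`. -/
theorem de_pairI [Nonempty I] [PS ι] (hs : Sp phi) {D : Dat2 ι κ} (hD : D.OK) (hN : D.NV1)
    {ρ : (κ → ZMod 2) → ι → ZMod 2} (h0 : ρ 0 = 0) (cA σ : ∀ a, Bt a → κ → ZMod 2)
    (P : ∀ a b, κ → E a b → ZMod 2) (m m' : ∀ a b, E a b → Lab2 (k a b)) {g g' : A → ι → ℂ}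
    (hg : ∀ a q, ‖g a q‖ ≤ 1) (hg' : ∀ a q, ‖g' a q‖ ≤ 1) (ε : ℝ) (hε : 0 < ε) :
    ∃ X₀ : ℕ, ∀ X : ℕ, X₀ ≤ X →
      ‖∑ S ∈ Sx ι X, avI (fun c => PhI D ρ phi cA σ P m g c - PsI D phi cA σ P m g c) S *
        avI (fun c => PhI D ρ phi cA σ P m' g' c - PsI D phi cA σ P m' g' c) S‖ ≤ ε * X := by
  obtain ⟨F, hF⟩ : ∃ F, F = FuI ι cA σ P m := ⟨_, rfl⟩
  obtain ⟨F', hF'⟩ : ∃ F', F' = FuI ι cA σ P m' := ⟨_, rfl⟩
  obtain ⟨η, hη⟩ : ∃ η : ℝ, η = ε / (1 + F.card + F'.card) := ⟨_, rfl⟩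
  have hpos : (0 : ℝ) < 1 + F.card + F'.card := by positivity
  have hη0 : 0 < η := by
    rw [hη]
    exact div_pos hε hpos
  obtain ⟨a, ha⟩ : ∃ a : Finset ι → ℂ, a = fun S => avI (PhI D ρ phi cA σ P m g) S := ⟨_, rfl⟩
  obtain ⟨a', ha'⟩ : ∃ a' : Finset ι → ℂ, a' = fun S => avI (PhI D ρ phi cA σ P m' g') S := ⟨_, rfl⟩
  obtain ⟨p, hp⟩ : ∃ p : (∀ a, Finset (LabP (k a))) → Finset ι → ℂ, p = fun V S => ∏ q ∈ S, hI D phi cA σ P m g V q :=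
    ⟨_, rfl⟩
  obtain ⟨p', hp'⟩ : ∃ p' : (∀ a, Finset (LabP (k a))) → Finset ι → ℂ,
    p' = fun V S => ∏ q ∈ S, hI D phi cA σ P m' g' V q := ⟨_, rfl⟩
  obtain ⟨X₁, h1⟩ := sq_I hs hD hN h0 cA σ P m m' hg hg' η hη0
  have h1' : ∀ X : ℕ, X₁ ≤ X → ‖∑ S ∈ Sx ι X, a S * a' S - ∑ u ∈ F, ∑ v ∈ F', ∑ S ∈ Sx ι X, p u S * p' v S‖ ≤
      η * X := by
    intro X hX
    rw [ha, ha', hp, hp', hF, hF']
    simp only [← prod_mul_distrib]
    exact h1 X hX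
  obtain ⟨X₂, h2⟩ := X11_max F' (fun v X => ‖∑ S ∈ Sx ι X, a S * p' v S - ∑ u ∈ F, ∑ S ∈ Sx ι X, p u S * p' v S‖ ≤
      η * X) (by
    intro V hV
    rw [hF'] at hV
    rw [ha, hp, hp', hF]
    simp only [← prod_mul_distrib]
    exact cross_I hs hD hN h0 cA σ P m hg (fun q => norm_hI D hg' hV q) η hη0)
  obtain ⟨X₃, h3⟩ := X11_max F (fun u X => ‖∑ S ∈ Sx ι X, a' S * p u S - ∑ v ∈ F', ∑ S ∈ Sx ι X, p' v S * p u S‖ ≤
      η * X) (by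
    intro V hV
    rw [hF] at hV
    rw [ha', hp, hp', hF']
    simp only [← prod_mul_distrib]
    exact cross_I hs hD hN h0 cA σ P m' hg' (fun q => norm_hI D hg hV q) η hη0)
  refine ⟨X₁ + X₂ + X₃, fun X hX => ?_⟩
  have e := X11_alg (Sx ι X) a a' F F' p p' (h1' X (by omega)) (h2 X (by omega)) (h3 X (by omega))
  have hb : ∀ S, avI (fun c => PhI D ρ phi cA σ P m g c - PsI D phi cA σ P m g c) S = a S - ∑ u ∈ F, p u S := by
    intro S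
    rw [X11_sub, avI_PsI, ha, hp, hF]
  have hb' : ∀ S, avI (fun c => PhI D ρ phi cA σ P m' g' c - PsI D phi cA σ P m' g' c) S =
      a' S - ∑ v ∈ F', p' v S := by
    intro S
    rw [X11_sub, avI_PsI, ha', hp', hF']
  rw [sum_congr rfl fun S _ => by rw [hb S, hb' S]]
  refine e.trans (le_of_eq ?_)
  have h7 : (1 + F.card + F'.card) * η = ε := by
    rw [hη]
    exact mul_div_cancel₀ _ hpos.ne'
  rw [← mul_assoc, h7]

/-- **X11c** (easy+, a copy). Proof: as `de_all` (K4_10 of MP_1a91b9_ntDV, PROVED), with `de_pairI`. -/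
theorem de_allI [Nonempty I] [PS ι] (hs : Sp phi) {D : Dat2 ι κ} (hD : D.OK) (hN : D.NV1)
    {ρ : (κ → ZMod 2) → ι → ZMod 2} (h0 : ρ 0 = 0) (cA σ : ∀ a, Bt a → κ → ZMod 2)
    (P : ∀ a b, κ → E a b → ZMod 2) (R : ∀ a b, Matrix (E a b) (E a b) (ZMod 2))
    (k : ∀ a, Bt a → ℕ) {g g' : A → ι → ℂ} (hg : ∀ a q, ‖g a q‖ ≤ 1)
    (hg' : ∀ a q, ‖g' a q‖ ≤ 1) (ε : ℝ) (hε : 0 < ε) :
    ∃ X₀ : ℕ, ∀ X : ℕ, X₀ ≤ X →
      ‖∑ S ∈ Sx ι X, avI (DeI D ρ phi cA σ P R k g) S * avI (DeI D ρ phi cA σ P R k g') S‖ ≤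
        ε * X := by
  obtain ⟨c, hc⟩ : ∃ c : (∀ a b, E a b → Lab2 (k a b)) → ℂ, c = fun m => ∏ a, ∏ b, e2 (RF (R a b) (m a b)) :=
    ⟨_, rfl⟩
  have hc1 : ∀ m, ‖c m‖ = 1 := by
    intro m
    rw [hc, norm_prod]
    refine prod_eq_one fun a _ => ?_
    rw [norm_prod]
    exact prod_eq_one fun b _ => norm_e2 _
  obtain ⟨n, hn⟩ : ∃ n : ℕ, n = Fintype.card (∀ a b, E a b → Lab2 (k a b)) := ⟨_, rfl⟩
  obtain ⟨η, hη⟩ : ∃ η : ℝ, η = ε / ((n : ℝ) * n + 1) := ⟨_, rfl⟩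
  have hpos : (0 : ℝ) < (n : ℝ) * n + 1 := by positivity
  have hη0 : 0 < η := by
    rw [hη]
    exact div_pos hε hpos
  obtain ⟨u, hu⟩ : ∃ u : (∀ a b, E a b → Lab2 (k a b)) → Finset ι → ℂ,
    u = fun m S => avI (fun c => PhI D ρ phi cA σ P m g c - PsI D phi cA σ P m g c) S := ⟨_, rfl⟩
  obtain ⟨u', hu'⟩ : ∃ u' : (∀ a b, E a b → Lab2 (k a b)) → Finset ι → ℂ,
    u' = fun m S => avI (fun c => PhI D ρ phi cA σ P m g' c - PsI D phi cA σ P m g' c) S := ⟨_, rfl⟩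
  obtain ⟨X₀, h1⟩ := X11_max (univ : Finset ((∀ a b, E a b → Lab2 (k a b)) × (∀ a b, E a b → Lab2 (k a b))))
    (fun x X => ‖∑ S ∈ Sx ι X, u x.1 S * u' x.2 S‖ ≤ η * X) (by
    intro x _
    rw [hu, hu']
    exact de_pairI hs hD hN h0 cA σ P x.1 x.2 hg hg' η hη0)
  refine ⟨X₀, fun X hX => ?_⟩
  have h2 := h1 X hX
  have e := X11_alg2 (Sx ι X) c hc1 u u' fun m m' => h2 (m, m') (mem_univ _)
  have hexp : ∀ S : Finset ι, avI (DeI D ρ phi cA σ P R k g) S = ∑ m, c m * u m S := by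
    intro S
    rw [hc, hu]
    exact X11_lin (fun m : (∀ a b, E a b → Lab2 (k a b)) => ∏ a, ∏ b, e2 (RF (R a b) (m a b)))
      (fun m c => PhI D ρ phi cA σ P m g c - PsI D phi cA σ P m g c) S
  have hexp' : ∀ S : Finset ι, avI (DeI D ρ phi cA σ P R k g') S = ∑ m, c m * u' m S := by
    intro S
    rw [hc, hu']
    exact X11_lin (fun m : (∀ a b, E a b → Lab2 (k a b)) => ∏ a, ∏ b, e2 (RF (R a b) (m a b)))
      (fun m c => PhI D ρ phi cA σ P m g' c - PsI D phi cA σ P m g' c) S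
  rw [sum_congr rfl fun S _ => by rw [hexp S, hexp' S]]
  refine e.trans ?_
  rw [← hn]
  have h7 : ((n : ℝ) * n + 1) * η = ε := by
    rw [hη]
    exact mul_div_cancel₀ _ hpos.ne'
  rw [← h7]
  have h8 : 0 ≤ η * (X : ℝ) := by positivity
  nlinarith

end

end Pool.Agent.Lib.MP_1a91b9_ntMQ.G4
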