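import Pool.Agent.Lib.MP_1a91b9_ntMQ.Q0

/-!
P0: mean values in a class, definitions
-/

set_option autoImplicit false
set_option linter.unusedSectionVars false

namespace Pool.Agent.Lib.MP_1a91b9_ntMQ

open Finset Pool.Agent.Lib.MP_1a91b9_ntH Pool.Agent.Lib.MP_1a91b9_ntQ
open Pool.Agent.Lib.MP_1a91b9_ntQ.Da Pool.Agent.Lib.MP_1a91b9_ntV Pool.Agent.Lib.MP_1a91b9_ntM
open Pool.Agent.Lib.MP_1a91b9_ntDV

noncomputable section

section P0

variable {I : Type} [Fintype I] [DecidableEq I] {ι : Type} [DecidableEq ι] {κ : Type} [Fintype κ]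
  [DecidableEq κ] [PS ι]

open Classical in
/-- The mean value of `f` over the families `c` of subsets of `S` with the classes `γ i` is `v`, for almost all
`S`. -/
def PclI (D : Dat2 ι κ) (γ : I → κ → ZMod 2) (f : (I → Finset ι) → ℝ) (v : ℝ) : Prop :=
  AVrI (fun c => if ∀ i, clN D (c i) = γ i then f c else 0)
    (v / 2 ^ (Fintype.card κ * Fintype.card I))

end P0

section P0a

variable {I A : Type} [Fintype I] {ι : Type} [DecidableEq ι] {κ : Type}

/-- The class of the product `a`. -/
def ga (phi : A → I → ZMod 2) (γ : I → κ → ZMod 2) (a : A) : κ → ZMod 2 := ∑ i, phi a i • γ i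

/-- One of the products is empty. -/
def EE (phi : A → I → ZMod 2) (c : I → Finset ι) : Prop := ∃ a, TT phi c a = ∅

end P0a

end

end Pool.Agent.Lib.MP_1a91b9_ntMQ
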