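import Pool.Agent.Lib.MP_1a91b9_ntDV.K4_0
import Pool.Agent.Lib.MP_1a91b9_ntMQ.P0

/-!
# MP_1a91b9_nt (random multiquadratic fields), `ℚ(i)`: definitions

`LC phi L`: the labels of a prime: its colour `w` and labels `x a ∈ L a` for the products `a` which contain the prime
(`phi a ⬝ᵥ w = 1`; `x a = 0` for the others). `LSC phi Λ` is the label system, `wC w` its weights, `uC u G` its factors.
`PhI` is the product of the sums over the labellings of the products `TT phi c a`, `PsI` its main term, `DeI` the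
difference, summed over the labels of the borders. `PGI phi cl γ f v`: the mean value of `f` over the families `c` for
which all the products have the classes `γ a` is `v`, relative to the number of all the families.
-/

set_option autoImplicit false
set_option linter.unusedSectionVars false

namespace Pool.Agent.Lib.MP_1a91b9_ntMQ.G4

open Finset Pool.Agent.Lib.MP_1a91b9_ntH Pool.Agent.Lib.MP_1a91b9_ntQ Pool.Agent.Lib.MP_1a91b9_ntQ.Da
  Pool.Agent.Lib.MP_1a91b9_ntQ.M Pool.Agent.Lib.MP_1a91b9_ntM Pool.Agent.Lib.MP_1a91b9_ntM.E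
open Pool.Agent.Lib.MP_1a91b9_ntDV Pool.Agent.Lib.MP_1a91b9_ntDV.G4 Pool.Agent.Lib.MP_1a91b9_ntMQ

noncomputable section

/-! ### Coloured label systems -/

section Col

variable {I A : Type} [Fintype I] [Fintype A]

/-- The labels: a colour `w` and labels `x a` for the `a` with `phi a ⬝ᵥ w = 1` (`x a = 0` for the others). -/
def LC (phi : A → I → ZMod 2) (L : A → Type) [∀ a, Zero (L a)] : Type :=
  {z : (I → ZMod 2) × (∀ a, L a) // ∀ a, phi a ⬝ᵥ z.1 = 0 → z.2 a = 0}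

variable [DecidableEq I] [DecidableEq A] {L : A → Type} [∀ a, Zero (L a)]
  [∀ a, Fintype (L a)] [∀ a, DecidableEq (L a)]

instance decLC (phi : A → I → ZMod 2) : DecidableEq (LC phi L) := Classical.decEq _

open Classical in
instance finLC (phi : A → I → ZMod 2) : Fintype (LC phi L) :=
  Fintype.ofFinite {z : (I → ZMod 2) × (∀ a, L a) // ∀ a, phi a ⬝ᵥ z.1 = 0 → z.2 a = 0}

variable {phi : A → I → ZMod 2} {ι : Type} {κ : Type}

/-- The exponents. -/
def PC (phi : A → I → ZMod 2) (Phi : ∀ a, L a → L a → ZMod 2) (z y : LC phi L) : ZMod 2 :=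
  ∑ a, (phi a ⬝ᵥ z.1.1) * (phi a ⬝ᵥ y.1.1) * Phi a (z.1.2 a) (y.1.2 a)

/-- The coloured label system. -/
def LSC (phi : A → I → ZMod 2) (Λ : ∀ a, LS2 (L a) ι κ) : LS2 (LC phi L) ι κ where
  Phi := PC phi fun a => (Λ a).Phi
  c := fun z => ∑ a, (phi a ⬝ᵥ z.1.1) • (Λ a).c (z.1.2 a)
  t := fun _ _ => 0
  B := ∅
  m := ∑ v : I → ZMod 2, ∏ a, if phi a ⬝ᵥ v = 1 then (Λ a).m else 1

/-- Its weights. -/
def wC (w : ∀ a, L a → (κ → ZMod 2) → ℝ) (z : LC phi L) (φ : κ → ZMod 2) : ℝ :=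
  ((2 : ℝ) ^ Fintype.card I)⁻¹ * ∏ a, if phi a ⬝ᵥ z.1.1 = 1 then w a (z.1.2 a) φ else 1

/-- Its factors. -/
def uC (u : ∀ a, L a → ι → ℂ) (G : ι → ℂ) (z : LC phi L) (q : ι) : ℂ :=
  G q * ∏ a, if phi a ⬝ᵥ z.1.1 = 1 then u a (z.1.2 a) q else 1

open Classical in
/-- The labels whose components are in the sets `U a`. -/
def UC (phi : A → I → ZMod 2) (U : ∀ a, Finset (L a)) : Finset (LC phi L) :=
  univ.filter fun z => ∀ a, phi a ⬝ᵥ z.1.1 = 1 → z.1.2 a ∈ U a

theorem mem_UC {U : ∀ a, Finset (L a)} {z : LC phi L} :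
    z ∈ UC phi U ↔ ∀ a, phi a ⬝ᵥ z.1.1 = 1 → z.1.2 a ∈ U a := by
  classical
  unfold UC
  rw [mem_filter]
  exact ⟨fun h => h.2, fun h => ⟨mem_univ _, h⟩⟩

/-- What is used about the label systems together. -/
structure CS (phi : A → I → ZMod 2) (Λ : ∀ a, LS2 (L a) ι κ)
    (w : ∀ a, L a → (κ → ZMod 2) → ℝ) : Prop where
  lay : ∀ Z : Finset (LC phi L), (LSC phi Λ).Unl Z → ∀ v : I → ZMod 2,
    (Z.filter fun z => z.1.1 = v).card ≤ ∏ a, if phi a ⬝ᵥ v = 1 then (Λ a).m else 1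
  full : ∀ Z : Finset (LC phi L), (LSC phi Λ).Unl Z → Z.card = (LSC phi Λ).m →
    ∃ U : ∀ a, Finset (L a), (∀ a, (Λ a).Unl (U a) ∧ (U a).card = (Λ a).m) ∧ UC phi U = Z
  wU : ∀ Z : Finset (LC phi L), (LSC phi Λ).Unl Z → ∀ φ : κ → ZMod 2, ∑ z ∈ Z, wC w z φ ≤ 1

variable [DecidableEq ι] [Fintype κ]

/-- The product of the sums over the labellings of the products. -/
def PB (D : Dat2 ι κ) (phi : A → I → ZMod 2) (Λ : ∀ a, LS2 (L a) ι κ)
    (w : ∀ a, L a → (κ → ZMod 2) → ℝ) (u : ∀ a, L a → ι → ℂ) (c : I → Finset ι) : ℂ :=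
  ∏ a, BF D (Λ a).Phi (wu D (Λ a).c (w a) (u a)) (TT phi c a)

/-- The local factor. -/
def fC (D : Dat2 ι κ) (phi : A → I → ZMod 2) (Λ : ∀ a, LS2 (L a) ι κ)
    (w : ∀ a, L a → (κ → ZMod 2) → ℝ) (u : ∀ a, L a → ι → ℂ) (U : ∀ a, Finset (L a)) (q : ι) : ℂ :=
  ((2 : ℂ) ^ Fintype.card I)⁻¹ * ∑ v : I → ZMod 2,
    ∏ a, if phi a ⬝ᵥ v = 1 then ∑ l ∈ U a, wu D (Λ a).c (w a) (u a) l q else 1

end Col

/-! ### The families of matrices -/

section Fam

variable {I A : Type} [Fintype I] [DecidableEq I] [Fintype A] [DecidableEq A]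
  {Bt : A → Type} [∀ a, Fintype (Bt a)] [∀ a, DecidableEq (Bt a)] {k : ∀ a, Bt a → ℕ}
  {E : ∀ a, Bt a → Type} [∀ a b, Fintype (E a b)] [∀ a b, DecidableEq (E a b)]
  {ι : Type} [DecidableEq ι] {κ : Type} [Fintype κ] [DecidableEq κ]

/-- The product of the sums over the labellings, with the factors `g a q` for the primes `q` of the product `a`. -/
def PhI (D : Dat2 ι κ) (ρ : (κ → ZMod 2) → ι → ZMod 2) (phi : A → I → ZMod 2)
    (cA σ : ∀ a, Bt a → κ → ZMod 2) (P : ∀ a b, κ → E a b → ZMod 2)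
    (m : ∀ a b, E a b → Lab2 (k a b)) (g : A → ι → ℂ) (c : I → Finset ι) : ℂ :=
  ∏ a, PhX D ρ (cA a) (σ a) (P a) (m a) (g a) (TT phi c a)

/-- Its main term. -/
def PsI (D : Dat2 ι κ) (phi : A → I → ZMod 2)
    (cA σ : ∀ a, Bt a → κ → ZMod 2) (P : ∀ a b, κ → E a b → ZMod 2)
    (m : ∀ a b, E a b → Lab2 (k a b)) (g : A → ι → ℂ) (c : I → Finset ι) : ℂ :=
  ∏ a, PsX D (cA a) (σ a) (P a) (m a) (g a) (TT phi c a)

/-- The difference, summed over the labels of the borders. -/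
def DeI (D : Dat2 ι κ) (ρ : (κ → ZMod 2) → ι → ZMod 2) (phi : A → I → ZMod 2)
    (cA σ : ∀ a, Bt a → κ → ZMod 2) (P : ∀ a b, κ → E a b → ZMod 2)
    (R : ∀ a b, Matrix (E a b) (E a b) (ZMod 2)) (k : ∀ a, Bt a → ℕ) (g : A → ι → ℂ)
    (c : I → Finset ι) : ℂ :=
  ∑ m : (∀ a b, E a b → Lab2 (k a b)), (∏ a, ∏ b, e2 (RF (R a b) (m a b))) *
    (PhI D ρ phi cA σ P m g c - PsI D phi cA σ P m g c)

/-- The sets of labels of the main terms. -/
def FuI (ι : Type) [DecidableEq ι] (cA σ : ∀ a, Bt a → κ → ZMod 2)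
    (P : ∀ a b, κ → E a b → ZMod 2) (m : ∀ a b, E a b → Lab2 (k a b)) :
    Finset (∀ a, Finset (LabP (k a))) :=
  Fintype.piFinset fun a => FullW (LSP ι (k a) (σ a) (P a) (m a)) (wX (k a) (cA a))

/-- The local factor of a main term. -/
def hI (D : Dat2 ι κ) (phi : A → I → ZMod 2) (cA σ : ∀ a, Bt a → κ → ZMod 2)
    (P : ∀ a b, κ → E a b → ZMod 2) (m : ∀ a b, E a b → Lab2 (k a b)) (g : A → ι → ℂ)
    (V : ∀ a, Finset (LabP (k a))) (q : ι) : ℂ :=
  ((2 : ℂ) ^ Fintype.card I)⁻¹ * ∑ v : I → ZMod 2, ∏ a, if phi a ⬝ᵥ v = 1 then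
    g a q * TotW (LSP ι (k a) (σ a) (P a) (m a)) (wX (k a) (cA a)) (V a) (D.a q) else 1

end Fam

/-! ### Two copies -/

section Two

variable {A : Type}

/-- The product of an index of two copies. -/
def pr (s : A ⊕ A) : A := Sum.elim id id s

/-- The labels of the borders of two copies. -/
def mm {Bt : A → Type} {k : ∀ a, Bt a → ℕ} {E : ∀ a, Bt a → Type}
    (m m' : ∀ a b, E a b → Lab2 (k a b)) : ∀ (s : A ⊕ A) (b : Bt (pr s)), E (pr s) b → Lab2 (k (pr s) b)
  | .inl a => m a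
  | .inr a => m' a

/-- The sets of labels of two copies. -/
def VV {Bt : A → Type} {k : ∀ a, Bt a → ℕ} (V V' : ∀ a, Finset (LabP (k a))) :
    ∀ s : A ⊕ A, Finset (LabP (k (pr s)))
  | .inl a => V a
  | .inr a => V' a

end Two

/-! ### Mean values in the classes of the products -/

section Cls

variable {I A : Type} [Fintype I] [DecidableEq I] [Fintype A] {ι : Type} [DecidableEq ι] [PS ι]
  {G : Type} [AddCommGroup G]

open Classical in
/-- The mean value of `f` over the families `c` for which all the products have the classes `γ a` is `v`, for almost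
all sets (relative to the number of all the families). -/
def PGI (phi : A → I → ZMod 2) (cl : ι → G) (γ : A → G) (f : (I → Finset ι) → ℝ) (v : ℝ) : Prop :=
  AVrI (fun c => if ∀ a, ∑ q ∈ TT phi c a, cl q = γ a then f c - v else 0) 0

end Cls

end

end Pool.Agent.Lib.MP_1a91b9_ntMQ.G4
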