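import Pool.Agent.Lib.MP_1a91b9_ntDV.K4_11
import Pool.Agent.Lib.MP_1a91b9_ntMQ.X0

set_option autoImplicit false
set_option linter.unusedSectionVars false

namespace Pool.Agent.Lib.MP_1a91b9_ntMQ.G4

open Finset Pool.Agent.Lib.MP_1a91b9_ntH Pool.Agent.Lib.MP_1a91b9_ntQ Pool.Agent.Lib.MP_1a91b9_ntQ.Da
  Pool.Agent.Lib.MP_1a91b9_ntQ.M Pool.Agent.Lib.MP_1a91b9_ntM Pool.Agent.Lib.MP_1a91b9_ntM.E
open Pool.Agent.Lib.MP_1a91b9_ntDV Pool.Agent.Lib.MP_1a91b9_ntDV.G4 Pool.Agent.Lib.MP_1a91b9_ntMQ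

noncomputable section


variable {I A : Type} [Fintype I] [DecidableEq I] [Fintype A] [DecidableEq A]
  {phi : A → I → ZMod 2} {Bt : A → Type} [∀ a, Fintype (Bt a)] [∀ a, DecidableEq (Bt a)]
  {E : ∀ a, Bt a → Type} [∀ a b, Fintype (E a b)]
  [∀ a b, DecidableEq (E a b)] {ι : Type} [DecidableEq ι] {κ : Type} [Fintype κ] [DecidableEq κ]

/-- **X12a** (easy). Proof: `PhX_mul`, `PsX_mul` (K4_11 of MP_1a91b9_ntDV) for every `a`, `prod_mul_distrib`, `mul_sub`, `mul_sum`. -/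
theorem DeI_mul (D : Dat2 ι κ) (ρ : (κ → ZMod 2) → ι → ZMod 2)
    (cA σ : ∀ a, Bt a → κ → ZMod 2) (P : ∀ a b, κ → E a b → ZMod 2)
    (R : ∀ a b, Matrix (E a b) (E a b) (ZMod 2)) (k : ∀ a, Bt a → ℕ) (g : A → ι → ℂ)
    (c : I → Finset ι) : DeI D ρ phi cA σ P R k g c =
      (∏ a, ∏ q ∈ TT phi c a, g a q) * DeI D ρ phi cA σ P R k (fun _ _ => 1) c := by
  unfold DeI
  rw [mul_sum]
  refine sum_congr rfl fun m _ => ?_
  have h1 : PhI D ρ phi cA σ P m g c =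
      (∏ a, ∏ q ∈ TT phi c a, g a q) * PhI D ρ phi cA σ P m (fun _ _ => 1) c := by
    unfold PhI
    rw [← prod_mul_distrib]
    exact prod_congr rfl fun a _ => PhX_mul D ρ (cA a) (σ a) (P a) (m a) (g a) (TT phi c a)
  have h2 : PsI D phi cA σ P m g c =
      (∏ a, ∏ q ∈ TT phi c a, g a q) * PsI D phi cA σ P m (fun _ _ => 1) c := by
    unfold PsI
    rw [← prod_mul_distrib]
    exact prod_congr rfl fun a _ => PsX_mul D (cA a) (σ a) (P a) (m a) (g a) (TT phi c a)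
  rw [h1, h2]
  ring

/-- **X12b** (easy+). Proof: `mul_sub`, `sum_sub_distrib`; the sum over `m : ∀ a b, ..` of a product over `a` of functions of `m a` is the product
of the sums (`Finset.prod_univ_sum`, `Fintype.piFinset_univ`; first `prod_mul_distrib` to join the two products over `a`). For every
`a` and `T = TT phi c a`: `∑ m, (∏ b, e2 (RF (R a b) (m b))) * PhX D ρ (cA a) (σ a) (P a) m (fun _ => 1) T
= (∏ b, kX .. ^ k a b) * ∏ b, (2 ^ k a b) ^ card (E a b)`: it is `DeX_kX hs` (K4_11 of MP_1a91b9_ntDV) with `DeX` unfolded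
(`mul_sub`, `sum_sub_distrib`, the main terms cancel). -/
theorem DeI_kX {D : Dat2 ι κ} (hs : D.Sym) (ρ : (κ → ZMod 2) → ι → ZMod 2)
    (cA σ : ∀ a, Bt a → κ → ZMod 2) (P : ∀ a b, κ → E a b → ZMod 2)
    (R : ∀ a b, Matrix (E a b) (E a b) (ZMod 2)) (k : ∀ a, Bt a → ℕ) (c : I → Finset ι) :
    DeI D ρ phi cA σ P R k (fun _ _ => 1) c =
      (∏ a, ∏ b, (kX D ρ (cA a) (σ a) (P a) (R a) b (TT phi c a) : ℂ) ^ k a b) *
          (∏ a, ∏ b, ((2 : ℂ) ^ k a b) ^ Fintype.card (E a b)) -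
        ∏ a, ∑ m : (∀ b, E a b → Lab2 (k a b)), (∏ b, e2 (RF (R a b) (m b))) *
          PsX D (cA a) (σ a) (P a) m (fun _ => 1) (TT phi c a) := by
  have key : ∀ F : ∀ a, (∀ b, E a b → Lab2 (k a b)) → ℂ,
      ∑ m : (∀ a b, E a b → Lab2 (k a b)), ∏ a, F a (m a) = ∏ a, ∑ x, F a x := fun F => by
    rw [Finset.prod_univ_sum, Fintype.piFinset_univ]
  have h1 : ∀ a, ∑ m : (∀ b, E a b → Lab2 (k a b)), (∏ b, e2 (RF (R a b) (m b))) *
      PhX D ρ (cA a) (σ a) (P a) m (fun _ => 1) (TT phi c a) =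
      (∏ b, (kX D ρ (cA a) (σ a) (P a) (R a) b (TT phi c a) : ℂ) ^ k a b) *
        ∏ b, ((2 : ℂ) ^ k a b) ^ Fintype.card (E a b) := by
    intro a
    have h2 := DeX_kX hs ρ (cA a) (σ a) (P a) (R a) (k a) (TT phi c a)
    unfold DeX at h2
    rw [sum_congr rfl fun m _ => mul_sub _ _ _, sum_sub_distrib] at h2
    exact sub_left_inj.1 h2
  unfold DeI PhI PsI
  rw [sum_congr rfl fun m _ => mul_sub _ _ _, sum_sub_distrib, ← prod_mul_distrib]
  refine congrArg₂ (· - ·) ?_ ?_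
  · rw [← prod_congr rfl fun a _ => h1 a, ← key]
    exact sum_congr rfl fun m _ => (prod_mul_distrib (s := univ)).symm
  · rw [← key]
    exact sum_congr rfl fun m _ => (prod_mul_distrib (s := univ)).symm

/-- **X12c** (easy+). The value is real. Proof: for every `a` `(DeX D ρ (cA a) (σ a) (P a) (R a) (k a) (fun _ => 1) T).im = 0` (`DeX_im hs`,
K4_11 of MP_1a91b9_ntDV), so by `DeX_kX hs` the sum `∑ m, (∏ b, e2 ..) * PsX ..` is real: it is the cast of its real part (`Complex.ext`); a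
product of casts is a cast (`Complex.ofReal_prod`); then `DeI_kX hs`, `Complex.ofReal_im` after `push_cast` (`norm_cast`). -/
theorem DeI_im {D : Dat2 ι κ} (hs : D.Sym) (ρ : (κ → ZMod 2) → ι → ZMod 2)
    (cA σ : ∀ a, Bt a → κ → ZMod 2) (P : ∀ a b, κ → E a b → ZMod 2)
    (R : ∀ a b, Matrix (E a b) (E a b) (ZMod 2)) (k : ∀ a, Bt a → ℕ) (c : I → Finset ι) :
    (DeI D ρ phi cA σ P R k (fun _ _ => 1) c).im = 0 := by
  rw [← Complex.conj_eq_iff_im, DeI_kX hs]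
  have h1 : ∀ x : ZMod 2, (starRingEnd ℂ) (e2 x) = e2 x := fun x => Complex.conj_ofReal _
  unfold PsX TotW
  simp only [map_sub, map_mul, map_prod, map_sum, map_pow, Complex.conj_natCast, map_one, h1, Complex.conj_ofReal,
    Complex.conj_ofNat]

end

end Pool.Agent.Lib.MP_1a91b9_ntMQ.G4
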