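import Pool.Agent.Lib.MP_1a91b9_ntMQ.X0
import Pool.Agent.Lib.MP_1a91b9_ntDV.K4_12

set_option autoImplicit false
set_option linter.unusedSectionVars false

namespace Pool.Agent.Lib.MP_1a91b9_ntMQ.G4

open Finset Pool.Agent.Lib.MP_1a91b9_ntH Pool.Agent.Lib.MP_1a91b9_ntQ Pool.Agent.Lib.MP_1a91b9_ntQ.Da
  Pool.Agent.Lib.MP_1a91b9_ntQ.M Pool.Agent.Lib.MP_1a91b9_ntM Pool.Agent.Lib.MP_1a91b9_ntM.E
open Pool.Agent.Lib.MP_1a91b9_ntDV Pool.Agent.Lib.MP_1a91b9_ntDV.G4 Pool.Agent.Lib.MP_1a91b9_ntMQ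

noncomputable section


variable {I A : Type} [Fintype I] [DecidableEq I] [Fintype A] [DecidableEq A] {ι : Type}
  [DecidableEq ι] [PS ι] {G : Type} [AddCommGroup G] [Fintype G]

open Classical in
/-- One product. -/
private theorem X13_one (cl : ι → G) (g : G) (T : Finset ι) :
    ((if ∑ q ∈ T, cl q = g then 1 else 0 : ℂ)) * (Fintype.card G : ℂ) =
      ∑ ψ : AddChar G ℂ, ψ (-g) * ∏ q ∈ T, ψ (cl q) := by
  have h1 : ∀ ψ : AddChar G ℂ, ψ (-g) * ∏ q ∈ T, ψ (cl q) = ψ (∑ q ∈ T, cl q - g) := by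
    intro ψ
    rw [sub_eq_add_neg, AddChar.map_add_eq_mul, ch_sum]
    ring
  rw [sum_congr rfl fun ψ _ => h1 ψ, AddChar.sum_apply_eq_ite]
  by_cases h : ∑ q ∈ T, cl q = g
  · rw [if_pos h, if_pos (sub_eq_zero.2 h), one_mul]
  · rw [if_neg h, if_neg fun h' => h (sub_eq_zero.1 h'), zero_mul]

open Classical in
/-- One family. -/
private theorem X13_pt (phi : A → I → ZMod 2) (cl : ι → G) (γ : A → G) (F : (I → Finset ι) → ℝ)
    (c : I → Finset ι) :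
    (((if ∀ a, ∑ q ∈ TT phi c a, cl q = γ a then F c - 0 else 0 : ℝ)) : ℂ) *
        (Fintype.card G : ℂ) ^ Fintype.card A =
      ∑ ψ : A → AddChar G ℂ, (∏ a, ψ a (-γ a)) *
        ((∏ a, ∏ q ∈ TT phi c a, ψ a (cl q)) * (F c : ℂ)) := by
  have h1 : ∀ ψ : A → AddChar G ℂ, (∏ a, ψ a (-γ a)) *
      ((∏ a, ∏ q ∈ TT phi c a, ψ a (cl q)) * (F c : ℂ)) =
      (∏ a, (ψ a (-γ a) * ∏ q ∈ TT phi c a, ψ a (cl q))) * (F c : ℂ) := by
    intro ψ
    rw [prod_mul_distrib, mul_assoc]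
  have h2 : ∑ ψ : A → AddChar G ℂ, ∏ a, (ψ a (-γ a) * ∏ q ∈ TT phi c a, ψ a (cl q)) =
      ∏ a, ∑ ψ : AddChar G ℂ, ψ (-γ a) * ∏ q ∈ TT phi c a, ψ (cl q) := by
    rw [prod_univ_sum, Fintype.piFinset_univ]
  rw [sum_congr rfl fun ψ _ => h1 ψ, ← sum_mul, h2, prod_congr rfl fun a _ => (X13_one cl (γ a) _).symm,
    prod_mul_distrib, prod_const, card_univ]
  by_cases h : ∀ a, ∑ q ∈ TT phi c a, cl q = γ a
  · rw [if_pos h, prod_congr rfl fun a _ => if_pos (h a), prod_const_one, sub_zero, one_mul, mul_comm]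
  · obtain ⟨a, ha⟩ := not_forall.1 h
    rw [if_neg h, prod_eq_zero (mem_univ a) (if_neg ha), zero_mul, zero_mul, Complex.ofReal_zero,
      zero_mul]

open Classical in
/-- The mean value. -/
private theorem X13_avr (phi : A → I → ZMod 2) (cl : ι → G) (γ : A → G) (F : (I → Finset ι) → ℝ)
    (S : Finset ι) :
    ((avrI (fun c => if ∀ a, ∑ q ∈ TT phi c a, cl q = γ a then F c - 0 else 0) S : ℝ) : ℂ) *
        (Fintype.card G : ℂ) ^ Fintype.card A =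
      ∑ ψ : A → AddChar G ℂ, (∏ a, ψ a (-γ a)) *
        avI (fun c => (∏ a, ∏ q ∈ TT phi c a, ψ a (cl q)) * (F c : ℂ)) S := by
  have h1 : ∀ ψ : A → AddChar G ℂ, (∏ a, ψ a (-γ a)) *
      avI (fun c => (∏ a, ∏ q ∈ TT phi c a, ψ a (cl q)) * (F c : ℂ)) S =
      (∑ c ∈ Fintype.piFinset fun _ : I => S.powerset, (∏ a, ψ a (-γ a)) *
        ((∏ a, ∏ q ∈ TT phi c a, ψ a (cl q)) * (F c : ℂ))) / 2 ^ (Fintype.card I * S.card) := by
    intro ψ
    unfold avI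
    rw [← mul_div_assoc, mul_sum]
  rw [sum_congr rfl fun ψ _ => h1 ψ, ← sum_div, sum_comm,
    ← sum_congr rfl fun c _ => X13_pt phi cl γ F c, ← sum_mul]
  unfold avrI
  rw [Complex.ofReal_div, Complex.ofReal_sum, div_mul_eq_mul_div, Complex.ofReal_pow, Complex.ofReal_ofNat]

/-- The coefficients have norm one. -/
private theorem X13_norm (γ : A → G) (ψ : A → AddChar G ℂ) : ‖∏ a, ψ a (-γ a)‖ = 1 := by
  rw [norm_prod]
  exact prod_eq_one fun a _ => AddChar.norm_apply _ _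

/-- **X13** (medium-, a copy). **From the characters to the classes of the products.** Proof: as `pg_pairs` (K4_12 of MP_1a91b9_ntDV, PROVED),
with `A → AddChar G ℂ` in place of `AddChar G ℂ`: with `N = card G`, for every `c`
`((if ∀ a, ∑ q ∈ TT phi c a, cl q = γ a then F c else 0 : ℝ) : ℂ) * N ^ card A = ∑ ψ : A → AddChar G ℂ,
(∏ a, ψ a (-γ a)) * ((∏ a, ∏ q ∈ TT phi c a, ψ a (cl q)) * F c)`: the product over `a` of the identities for one `a`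
(`Finset.prod_univ_sum`, `Fintype.piFinset_univ`, `AddChar.sum_apply_eq_ite`), and a product of indicators is the indicator of `∀ a`
(`Finset.prod_ite_zero` or cases). The norms of the coefficients are `1` (`norm_prod`, `AddChar.norm_apply`); the number of the
`ψ` is `N ^ card A` (`Fintype.card_fun` / `Fintype.card_pi_const`, `AddChar.card_eq`). -/
theorem pgi_pairs (phi : A → I → ZMod 2) (cl : ι → G) (γ : A → G) (F : (I → Finset ι) → ℝ)
    (h : ∀ (ψ ψ' : A → AddChar G ℂ) (ε : ℝ), 0 < ε → ∃ X₀ : ℕ, ∀ X : ℕ, X₀ ≤ X →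
      ‖∑ S ∈ Sx ι X, avI (fun c => (∏ a, ∏ q ∈ TT phi c a, ψ a (cl q)) * (F c : ℂ)) S *
        avI (fun c => (∏ a, ∏ q ∈ TT phi c a, ψ' a (cl q)) * (F c : ℂ)) S‖ ≤ ε * X) :
    PGI phi cl γ F 0 := by
  classical
  intro ε hε
  choose X1 h1 using fun p : (A → AddChar G ℂ) × (A → AddChar G ℂ) => h p.1 p.2 ε hε
  refine ⟨∑ p, X1 p, fun X hX => ?_⟩
  have hX1 : ∀ p, X1 p ≤ X := fun p =>
    (single_le_sum (fun _ _ => Nat.zero_le _) (mem_univ p)).trans hX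
  have hN : (0 : ℝ) < (Fintype.card G : ℝ) ^ Fintype.card A := pow_pos (Nat.cast_pos.2 Fintype.card_pos) _
  set r : Finset ι → ℝ :=
    avrI (fun c => if ∀ a, ∑ q ∈ TT phi c a, cl q = γ a then F c - 0 else 0) with hr
  set b : (A → AddChar G ℂ) → Finset ι → ℂ := fun ψ S =>
    avI (fun c => (∏ a, ∏ q ∈ TT phi c a, ψ a (cl q)) * (F c : ℂ)) S with hb
  have hra : ∀ S, ((r S : ℝ) : ℂ) * (Fintype.card G : ℂ) ^ Fintype.card A =
      ∑ ψ : A → AddChar G ℂ, (∏ a, ψ a (-γ a)) * b ψ S :=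
    fun S => X13_avr phi cl γ F S
  have hsq : ((∑ S ∈ Sx ι X, r S ^ 2 : ℝ) : ℂ) * ((Fintype.card G : ℂ) ^ Fintype.card A) ^ 2 =
      ∑ p : (A → AddChar G ℂ) × (A → AddChar G ℂ), ((∏ a, p.1 a (-γ a)) * (∏ a, p.2 a (-γ a))) *
        ∑ S ∈ Sx ι X, b p.1 S * b p.2 S := by
    have h2 : ∀ S, ((r S ^ 2 : ℝ) : ℂ) * ((Fintype.card G : ℂ) ^ Fintype.card A) ^ 2 =
        ∑ p : (A → AddChar G ℂ) × (A → AddChar G ℂ), ((∏ a, p.1 a (-γ a)) * (∏ a, p.2 a (-γ a))) *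
          (b p.1 S * b p.2 S) := by
      intro S
      rw [Complex.ofReal_pow, ← mul_pow, hra, sq, sum_mul_sum, Fintype.sum_prod_type]
      exact sum_congr rfl fun ψ _ => sum_congr rfl fun ψ' _ => by ring
    rw [Complex.ofReal_sum, sum_mul, sum_congr rfl fun S _ => h2 S, sum_comm]
    exact sum_congr rfl fun p _ => by rw [mul_sum]
  have hnn : 0 ≤ ∑ S ∈ Sx ι X, r S ^ 2 := sum_nonneg fun S _ => sq_nonneg _
  have hbd : (∑ S ∈ Sx ι X, r S ^ 2) * ((Fintype.card G : ℝ) ^ Fintype.card A) ^ 2 ≤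
      ((Fintype.card G : ℝ) ^ Fintype.card A) ^ 2 * (ε * X) := by
    have h3 : (∑ S ∈ Sx ι X, r S ^ 2) * ((Fintype.card G : ℝ) ^ Fintype.card A) ^ 2 =
        ‖((∑ S ∈ Sx ι X, r S ^ 2 : ℝ) : ℂ) * ((Fintype.card G : ℂ) ^ Fintype.card A) ^ 2‖ := by
      rw [norm_mul, Complex.norm_real, Real.norm_of_nonneg hnn, norm_pow, norm_pow, Complex.norm_natCast]
    rw [h3, hsq]
    refine (norm_sum_le _ _).trans ((sum_le_sum fun p _ => (?_ : _ ≤ ε * (X : ℝ))).trans ?_)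
    · rw [norm_mul, norm_mul, X13_norm, X13_norm, one_mul, one_mul]
      exact h1 p X (hX1 p)
    · rw [sum_const, card_univ, Fintype.card_prod, nsmul_eq_mul, Fintype.card_fun, AddChar.card_eq,
        Nat.cast_mul, Nat.cast_pow, ← sq]
  have hfin : ∑ S ∈ Sx ι X, r S ^ 2 ≤ ε * X := by
    rw [mul_comm] at hbd
    exact le_of_mul_le_mul_left hbd (by positivity)
  have hsub : ∑ S ∈ Sx ι X, (r S - 0) ^ 2 = ∑ S ∈ Sx ι X, r S ^ 2 :=
    sum_congr rfl fun S _ => by rw [sub_zero]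
  change ∑ S ∈ Sx ι X, (r S - 0) ^ 2 ≤ ε * ((Sx ι X).card + X)
  rw [hsub]
  refine hfin.trans (mul_le_mul_of_nonneg_left ?_ hε.le)
  have : (0 : ℝ) ≤ (Sx ι X).card := Nat.cast_nonneg _
  linarith

end

end Pool.Agent.Lib.MP_1a91b9_ntMQ.G4
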