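import Pool.Agent.Lib.MP_1a91b9_ntDV.K4_14
import Pool.Agent.Lib.MP_1a91b9_ntMQ.X11
import Pool.Agent.Lib.MP_1a91b9_ntMQ.X12
import Pool.Agent.Lib.MP_1a91b9_ntMQ.X13

set_option autoImplicit false
set_option linter.unusedSectionVars false

namespace Pool.Agent.Lib.MP_1a91b9_ntMQ.G4

open Finset Pool.Agent.Lib.MP_1a91b9_ntH Pool.Agent.Lib.MP_1a91b9_ntQ Pool.Agent.Lib.MP_1a91b9_ntQ.Da
  Pool.Agent.Lib.MP_1a91b9_ntQ.M Pool.Agent.Lib.MP_1a91b9_ntM Pool.Agent.Lib.MP_1a91b9_ntM.E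
open Pool.Agent.Lib.MP_1a91b9_ntDV Pool.Agent.Lib.MP_1a91b9_ntDV.G4 Pool.Agent.Lib.MP_1a91b9_ntMQ

noncomputable section


/-- **X17a** (medium-, a copy). **The main terms of one family in a class.** They are a constant and a finite sum of small products.
Proof. The index type is `J = {p : (∀ b, E b → Lab2 (k b)) × Finset (LabP k) // p.2 ∈ FullW (LSP ι k σ P p.1) (wX k cA) ∧ ¬ gd p.1 p.2}`, where
`gd m U` is `∃ c, ∀ φ, TotW (LSP ι k σ P m) (wX k cA) U φ = e2 (∑ j, c j * φ j)`, and `η p φ = ‖TotW (LSP ι k σ P p.1) (wX k cA) p.2 φ‖`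
(`norm_TotW_le (hC.wt m) hU φ`; `hC.dich m U hU` gives `∃ φ, ‖..‖ < 1`, with `hC := cntXI k ι hF`). For `T` in the class `γ` the
computation of `hPs` and `h5` in the proof of the private `K414_exact` (K4_14 of MP_1a91b9_ntDV, PROVED) with `hC.cnt` gives
`∑ m, (∏ b, e2 ..) * PsX .. = (constant) + ∑ m, ∑ U ∈ FullW .., (∏ b, e2 ..) * (if gd m U then 0 else ∏ q ∈ T, TotW .. U (D.a q))`; take
norms (`norm_sum_le`, `‖e2 x‖ = 1`, `norm_prod`), and the double sum over the bad `(m, U)` is the sum over `J`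
(`Finset.sum_sigma'`, `Finset.sum_subtype` or `Finset.sum_coe_sort`; only `≤` is needed). -/
theorem psX_cls {B : Type} [Fintype B] [DecidableEq B] {ι : Type} [DecidableEq ι] {κ : Type}
    [Fintype κ] [DecidableEq κ] {E : B → Type} [∀ b, Fintype (E b)] [∀ b, DecidableEq (E b)]
    {G : Type} [AddCommGroup G] [Fintype G] {D : Dat2 ι κ} {cA σ : B → κ → ZMod 2}
    {P : ∀ b, κ → E b → ZMod 2} {R : ∀ b, Matrix (E b) (E b) (ZMod 2)} (hF : FamX cA σ P R)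
    (k : B → ℕ) (C : Cl2 D G) (γ : G) :
    ∃ (J : Type) (_ : Fintype J) (η : J → (κ → ZMod 2) → ℝ), (∀ j φ, 0 ≤ η j φ) ∧
      (∀ j φ, η j φ ≤ 1) ∧ (∀ j, ∃ φ, η j φ < 1) ∧
      ∀ T : Finset ι, ∑ q ∈ T, C.cl q = γ →
        ‖(∑ m : (∀ b, E b → Lab2 (k b)), (∏ b, e2 (RF (R b) (m b))) *
            PsX D cA σ P m (fun _ => 1) T) -
          ∏ b, ((Nk2 (k b) : ℂ) * (tX cA σ P R (fun j => C.A j γ) b : ℂ) ^ k b *
            ((2 : ℂ) ^ k b) ^ Fintype.card (E b))‖ ≤ ∑ j, ∏ q ∈ T, η j (D.a q) := by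
  classical
  have hC := cntXI k ι hF
  obtain ⟨gd, hgd⟩ : ∃ gd : (∀ b, E b → Lab2 (k b)) → Finset (LabP k) → Prop,
      ∀ m U, gd m U ↔ ∃ c : κ → ZMod 2, ∀ φ, TotW (LSP ι k σ P m) (wX k cA) U φ = e2 (∑ j, c j * φ j) :=
    ⟨_, fun _ _ => Iff.rfl⟩
  obtain ⟨η, hη⟩ : ∃ η : (∀ b, E b → Lab2 (k b)) × Finset (LabP k) → (κ → ZMod 2) → ℝ, ∀ p φ, η p φ =
      if p.2 ∈ FullW (LSP ι k σ P p.1) (wX k cA) ∧ ¬ gd p.1 p.2 then
        ‖TotW (LSP ι k σ P p.1) (wX k cA) p.2 φ‖ else 0 := ⟨_, fun _ _ => rfl⟩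
  have hη0 : ∀ p φ, 0 ≤ η p φ := by
    intro p φ
    rw [hη]
    split_ifs
    · exact norm_nonneg _
    · exact le_rfl
  refine ⟨(∀ b, E b → Lab2 (k b)) × Finset (LabP k), inferInstance, η, hη0, fun p φ => ?_, fun p => ?_,
    fun T hT => ?_⟩
  · rw [hη]
    split_ifs with h
    · exact norm_TotW_le (hC.wt p.1) h.1 φ
    · exact zero_le_one
  · by_cases h : p.2 ∈ FullW (LSP ι k σ P p.1) (wX k cA) ∧ ¬ gd p.1 p.2
    · obtain ⟨φ, hφ⟩ := (hC.dich p.1 p.2 h.1).resolve_left fun h1 => h.2 ((hgd _ _).2 h1)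
      refine ⟨φ, ?_⟩
      rw [hη, if_pos h]
      exact hφ
    · refine ⟨0, ?_⟩
      rw [hη, if_neg h]
      exact zero_lt_one
  have hPs : ∀ m : (∀ b, E b → Lab2 (k b)), PsX D cA σ P m (fun _ => 1) T =
      (∑ U ∈ FullW (LSP ι k σ P m) (wX k cA), ∑ c ∈ GcX (TotW (LSP ι k σ P m) (wX k cA) U),
        e2 (∑ j, c j * C.A j γ)) +
      ∑ U ∈ FullW (LSP ι k σ P m) (wX k cA), (if gd m U then 0 else
        ∏ q ∈ T, TotW (LSP ι k σ P m) (wX k cA) U (D.a q)) := by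
    intro m
    unfold PsX
    rw [← sum_add_distrib]
    refine sum_congr rfl fun U _ => ?_
    rw [prod_congr rfl fun q _ => one_mul (TotW (LSP ι k σ P m) (wX k cA) U (D.a q))]
    by_cases hg : gd m U
    · obtain ⟨c, hc⟩ := (hgd m U).1 hg
      have h3 : GcX (TotW (LSP ι k σ P m) (wX k cA) U) = {c} := by
        ext c'
        rw [mem_GcX, mem_singleton]
        constructor
        · intro h4
          exact e2_ext fun φ => by rw [← h4 φ, hc φ]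
        · rintro rfl
          exact hc
      rw [if_pos hg, add_zero, h3, sum_singleton, prod_congr rfl fun q _ => hc (D.a q), ← e2_sum, sum_comm]
      congr 1
      refine sum_congr rfl fun j _ => ?_
      rw [← mul_sum, ← hT, map_sum]
      congr 1
      exact sum_congr rfl fun q _ => C.ha q j
    · have h3 : GcX (TotW (LSP ι k σ P m) (wX k cA) U) = ∅ := by
        rw [eq_empty_iff_forall_notMem]
        exact fun c hc => hg ((hgd m U).2 ⟨c, mem_GcX.1 hc⟩)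
      rw [if_neg hg, h3, sum_empty, zero_add]
  have h5 : ∑ m : (∀ b, E b → Lab2 (k b)), (∏ b, e2 (RF (R b) (m b))) * PsX D cA σ P m (fun _ => 1) T =
      (∑ m : (∀ b, E b → Lab2 (k b)), (∏ b, e2 (RF (R b) (m b))) *
        ∑ U ∈ FullW (LSP ι k σ P m) (wX k cA), ∑ c ∈ GcX (TotW (LSP ι k σ P m) (wX k cA) U),
          e2 (∑ j, c j * C.A j γ)) +
      ∑ m : (∀ b, E b → Lab2 (k b)), ∑ U ∈ FullW (LSP ι k σ P m) (wX k cA),
          (∏ b, e2 (RF (R b) (m b))) * (if gd m U then 0 else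
            ∏ q ∈ T, TotW (LSP ι k σ P m) (wX k cA) U (D.a q)) := by
    rw [← sum_add_distrib]
    refine sum_congr rfl fun m _ => ?_
    rw [hPs m, mul_add, mul_sum (s := FullW (LSP ι k σ P m) (wX k cA))
      (f := fun U => if gd m U then (0 : ℂ) else ∏ q ∈ T, TotW (LSP ι k σ P m) (wX k cA) U (D.a q))]
  rw [h5, hC.cnt, add_sub_cancel_left]
  have hprod0 : ∀ p, 0 ≤ ∏ q ∈ T, η p (D.a q) := fun p => prod_nonneg fun q _ => hη0 p (D.a q)
  have h6 : ∀ m : (∀ b, E b → Lab2 (k b)), ‖∏ b, e2 (RF (R b) (m b))‖ = 1 := by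
    intro m
    rw [norm_prod]
    exact prod_eq_one fun b _ => norm_e2 _
  calc ‖∑ m : (∀ b, E b → Lab2 (k b)), ∑ U ∈ FullW (LSP ι k σ P m) (wX k cA),
          (∏ b, e2 (RF (R b) (m b))) * (if gd m U then 0 else
            ∏ q ∈ T, TotW (LSP ι k σ P m) (wX k cA) U (D.a q))‖
      ≤ ∑ m : (∀ b, E b → Lab2 (k b)), ∑ U ∈ FullW (LSP ι k σ P m) (wX k cA), ∏ q ∈ T, η (m, U) (D.a q) := by
        refine (norm_sum_le _ _).trans (sum_le_sum fun m _ => (norm_sum_le _ _).trans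
          (sum_le_sum fun U hU => ?_))
        rw [norm_mul, h6, one_mul]
        by_cases hg : gd m U
        · rw [if_pos hg, norm_zero]
          exact hprod0 (m, U)
        · rw [if_neg hg, norm_prod]
          refine le_of_eq (prod_congr rfl fun q _ => ?_)
          rw [hη, if_pos ⟨hU, hg⟩]
    _ ≤ ∑ m : (∀ b, E b → Lab2 (k b)), ∑ U : Finset (LabP k), ∏ q ∈ T, η (m, U) (D.a q) :=
        sum_le_sum fun m _ => sum_le_sum_of_subset_of_nonneg (subset_univ _) fun U _ _ => hprod0 (m, U)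
    _ = ∑ j : (∀ b, E b → Lab2 (k b)) × Finset (LabP k), ∏ q ∈ T, η j (D.a q) :=
        (Fintype.sum_prod_type fun j : (∀ b, E b → Lab2 (k b)) × Finset (LabP k) => ∏ q ∈ T, η j (D.a q)).symm

variable {I A : Type} [Fintype I] [DecidableEq I] [Fintype A] [DecidableEq A]
  {phi : A → I → ZMod 2} {Bt : A → Type} [∀ a, Fintype (Bt a)] [∀ a, DecidableEq (Bt a)]
  {E : ∀ a, Bt a → Type} [∀ a b, Fintype (E a b)]
  [∀ a b, DecidableEq (E a b)] {ι : Type} [DecidableEq ι] [PS ι] {κ : Type} [Fintype κ]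
  [DecidableEq κ] {G : Type} [AddCommGroup G] [Fintype G]

/-- **X17b** (easy+, a copy). The difference, in the classes. Proof: as `pg_DeX` (K4_14a of MP_1a91b9_ntDV, PROVED): `pgi_pairs` (X13) for
`F c = (DeI .. (fun _ _ => 1) c).re`: by `DeI_im` (X12) `(F c : ℂ) = DeI .. (fun _ _ => 1) c`, so
`(∏ a, ∏ q ∈ TT phi c a, ψ a (C.cl q)) * (F c : ℂ) = DeI .. (fun a q => ψ a (C.cl q)) c` (`DeI_mul`, X12), and `de_allI` (X11) with
`g = fun a q => ψ a (C.cl q)`, `g' = fun a q => ψ' a (C.cl q)` (`AddChar.norm_apply`). -/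
theorem pgI_DeI [Nonempty I] (hs : Sp phi) {D : Dat2 ι κ} (hD : D.OK) (hN : D.NV1)
    {ρ : (κ → ZMod 2) → ι → ZMod 2} (h0 : ρ 0 = 0) (cA σ : ∀ a, Bt a → κ → ZMod 2)
    (P : ∀ a b, κ → E a b → ZMod 2) (R : ∀ a b, Matrix (E a b) (E a b) (ZMod 2))
    (k : ∀ a, Bt a → ℕ) (C : Cl2 D G) (γ : A → G) :
    PGI phi C.cl γ (fun c => (DeI D ρ phi cA σ P R k (fun _ _ => 1) c).re) 0 := by
  refine pgi_pairs phi C.cl γ _ fun ψ ψ' ε hε => ?_
  have hre : ∀ c, (((DeI D ρ phi cA σ P R k (fun _ _ => 1) c).re : ℝ) : ℂ) =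
      DeI D ρ phi cA σ P R k (fun _ _ => 1) c := by
    intro c
    refine Complex.ext (Complex.ofReal_re _) ?_
    rw [Complex.ofReal_im, DeI_im hD.sym]
  have h1 : ∀ χ : A → AddChar G ℂ, (fun c : I → Finset ι => (∏ a, ∏ q ∈ TT phi c a, χ a (C.cl q)) *
      (((DeI D ρ phi cA σ P R k (fun _ _ => 1) c).re : ℝ) : ℂ)) =
        DeI D ρ phi cA σ P R k (fun a q => χ a (C.cl q)) := by
    intro χ
    funext c
    rw [hre, ← DeI_mul]
  obtain ⟨X₀, h⟩ := de_allI (k := k) hs hD hN h0 cA σ P R (g := fun a q => ψ a (C.cl q))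
    (g' := fun a q => ψ' a (C.cl q))
    (fun a q => (AddChar.norm_apply (ψ a) _).le) (fun a q => (AddChar.norm_apply (ψ' a) _).le) ε hε
  refine ⟨X₀, fun X hX => ?_⟩
  rw [h1, h1]
  exact h X hX

end

end Pool.Agent.Lib.MP_1a91b9_ntMQ.G4
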