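import Pool.Agent.Lib.MP_1a91b9_ntMQ.X16
import Pool.Agent.Lib.MP_1a91b9_ntMQ.X17

set_option autoImplicit false
set_option linter.unusedSectionVars false

namespace Pool.Agent.Lib.MP_1a91b9_ntMQ.G4

open Finset Pool.Agent.Lib.MP_1a91b9_ntH Pool.Agent.Lib.MP_1a91b9_ntQ Pool.Agent.Lib.MP_1a91b9_ntQ.Da
  Pool.Agent.Lib.MP_1a91b9_ntQ.M Pool.Agent.Lib.MP_1a91b9_ntM Pool.Agent.Lib.MP_1a91b9_ntM.E
open Pool.Agent.Lib.MP_1a91b9_ntDV Pool.Agent.Lib.MP_1a91b9_ntDV.G4 Pool.Agent.Lib.MP_1a91b9_ntMQ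

noncomputable section


variable {I A : Type} [Fintype I] [DecidableEq I] [Fintype A] [DecidableEq A]
  {phi : A → I → ZMod 2} {Bt : A → Type} [∀ a, Fintype (Bt a)] [∀ a, DecidableEq (Bt a)]
  {E : ∀ a, Bt a → Type} [∀ a b, Fintype (E a b)]
  [∀ a b, DecidableEq (E a b)] {ι : Type} [DecidableEq ι] [PS ι] {κ : Type} [Fintype κ]
  [DecidableEq κ] {G : Type} [AddCommGroup G] [Fintype G]

/-- **X18** (medium-). **The joint moments of the sizes of the kernels, in the classes of the products.**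
Proof. For every `a` `psX_cls (hF a) (k a) C (γ a)` (X17; `choose J fJ η ..`). Let `x c a = ∑ m, (∏ b, e2 (RF (R a b) (m b))) * PsX D (cA a) (σ a) (P a) m
(fun _ => 1) (TT phi c a)`, `y a = ∏ b, (Nk2 (k a b) * tX .. b ^ k a b * (2 ^ k a b) ^ card (E a b))` (a real number),
`W = ∏ a, ∏ b, (2 ^ k a b) ^ card (E a b)` (real, not zero), `v` the value. Then `∏ a, y a = W * v` (`prod_mul_distrib`), and in the classes
`‖x c a - y a‖ ≤ ∑ j, ∏ q ∈ TT phi c a, η a j (D.a q) ≤ card (J a)`, so with a `K ≥ 1`, `K ≥ ‖y a‖ + card (J a)` for all `a`,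
`‖∏ a, x c a - ∏ a, y a‖ ≤ K ^ card A * ∑ a, ∑ j, ∏ q ∈ TT phi c a, η a j (D.a q)` (`norm_prod_sub`, X16). So `pgI_small hs (badX hD hN)` (X16)
gives the mean value `0` of `c ↦ (∏ a, x c a - ∏ a, y a).re`, `pgI_DeI` (X17) of `(DeI .. c).re`, and by `DeI_kX hD.sym` (X12)
`W * ∏ a, ∏ b, kX .. ^ k a b = (DeI .. c).re + (∏ a, x c a - ∏ a, y a).re + W * v` (real parts). `(limP_PGI ..).add`, `pgI_const`, `smul` with
`W⁻¹`. Compare `pg_kX` (K4_14b of MP_1a91b9_ntDV, PROVED). -/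
theorem pgI_kX [Nonempty I] (hs : Sp phi) {D : Dat2 ι κ} (hD : D.OK) (hN : D.NV1)
    {ρ : (κ → ZMod 2) → ι → ZMod 2} (h0 : ρ 0 = 0) {cA σ : ∀ a, Bt a → κ → ZMod 2}
    {P : ∀ a b, κ → E a b → ZMod 2} {R : ∀ a b, Matrix (E a b) (E a b) (ZMod 2)}
    (hF : ∀ a, FamX (cA a) (σ a) (P a) (R a)) (k : ∀ a, Bt a → ℕ) (C : Cl2 D G) (γ : A → G) :
    PGI phi C.cl γ
      (fun c => ∏ a, ∏ b, (kX D ρ (cA a) (σ a) (P a) (R a) b (TT phi c a) : ℝ) ^ k a b)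
      (∏ a, ∏ b, ((tX (cA a) (σ a) (P a) (R a) (fun j => C.A j (γ a)) b : ℝ) ^ k a b *
        (Nk2 (k a b) : ℝ))) := by
  classical
  choose J fJ η hη0 hη1 hη2 hb using fun a => psX_cls (D := D) (hF a) (k a) C (γ a)
  obtain ⟨x, hx⟩ : ∃ x : (I → Finset ι) → A → ℂ, ∀ c a, x c a =
      ∑ m : (∀ b, E a b → Lab2 (k a b)), (∏ b, e2 (RF (R a b) (m b))) *
        PsX D (cA a) (σ a) (P a) m (fun _ => 1) (TT phi c a) := ⟨_, fun _ _ => rfl⟩
  obtain ⟨y, hy⟩ : ∃ y : A → ℂ, ∀ a, y a =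
      ∏ b, ((Nk2 (k a b) : ℂ) * (tX (cA a) (σ a) (P a) (R a) (fun j => C.A j (γ a)) b : ℂ) ^ k a b *
        ((2 : ℂ) ^ k a b) ^ Fintype.card (E a b)) := ⟨_, fun _ => rfl⟩
  obtain ⟨v, hv⟩ : ∃ v : ℝ, v = ∏ a, ∏ b,
      ((tX (cA a) (σ a) (P a) (R a) (fun j => C.A j (γ a)) b : ℝ) ^ k a b * (Nk2 (k a b) : ℝ)) :=
    ⟨_, rfl⟩
  obtain ⟨W, hW⟩ : ∃ W : ℝ, W = ∏ a, ∏ b, ((2 : ℝ) ^ k a b) ^ Fintype.card (E a b) := ⟨_, rfl⟩
  have hW0 : W ≠ 0 := by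
    rw [hW]
    exact prod_ne_zero_iff.2 fun a _ => prod_ne_zero_iff.2 fun b _ =>
      pow_ne_zero _ (pow_ne_zero _ two_ne_zero)
  have hWc : ((W : ℝ) : ℂ) = ∏ a, ∏ b, ((2 : ℂ) ^ k a b) ^ Fintype.card (E a b) := by
    rw [hW]
    push_cast
    rfl
  have hyv : ∏ a, y a = ((W * v : ℝ) : ℂ) := by
    rw [Complex.ofReal_mul, hWc, hv]
    push_cast
    rw [← prod_mul_distrib]
    refine prod_congr rfl fun a _ => ?_
    rw [hy, ← prod_mul_distrib]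
    refine prod_congr rfl fun b _ => ?_
    ring
  -- the bound of the difference
  have hxy : ∀ c : I → Finset ι, (∀ a, ∑ q ∈ TT phi c a, C.cl q = γ a) → ∀ a,
      ‖x c a - y a‖ ≤ ∑ j, ∏ q ∈ TT phi c a, η a j (D.a q) := by
    intro c hc a
    rw [hx, hy]
    exact hb a _ (hc a)
  have hcard : ∀ c : I → Finset ι, ∀ a, ∑ j, ∏ q ∈ TT phi c a, η a j (D.a q) ≤ (Fintype.card (J a) : ℝ) := by
    intro c a
    have e1 : ∑ j : J a, ∏ q ∈ TT phi c a, η a j (D.a q) ≤ ∑ _j : J a, (1 : ℝ) :=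
      sum_le_sum fun j _ => prod_le_one (fun q _ => hη0 a j _) fun q _ => hη1 a j _
    refine e1.trans (le_of_eq ?_)
    rw [sum_const, card_univ, nsmul_eq_mul, mul_one]
  obtain ⟨K, hK⟩ : ∃ K : ℝ, K = 1 + ∑ a, (‖y a‖ + (Fintype.card (J a) : ℝ)) := ⟨_, rfl⟩
  have hterm : ∀ a, 0 ≤ ‖y a‖ + (Fintype.card (J a) : ℝ) := fun a => by positivity
  have hK1 : 1 ≤ K := by
    rw [hK]
    have := sum_nonneg fun a (_ : a ∈ (univ : Finset A)) => hterm a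
    linarith
  have hKa : ∀ a, ‖y a‖ + (Fintype.card (J a) : ℝ) ≤ K := by
    intro a
    rw [hK]
    have := single_le_sum (fun a (_ : a ∈ (univ : Finset A)) => hterm a) (mem_univ a)
    linarith
  have hyK : ∀ a, ‖y a‖ ≤ K := fun a =>
    (le_add_of_nonneg_right (Nat.cast_nonneg _)).trans (hKa a)
  have hxK : ∀ c : I → Finset ι, (∀ a, ∑ q ∈ TT phi c a, C.cl q = γ a) → ∀ a, ‖x c a‖ ≤ K := by
    intro c hc a
    have e1 : ‖x c a‖ ≤ ‖y a‖ + ‖x c a - y a‖ := by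
      have g2 := norm_add_le (y a) (x c a - y a)
      rwa [add_sub_cancel] at g2
    have e3 := (hxy c hc a).trans (hcard c a)
    linarith [hKa a]
  have h1 : PGI phi C.cl γ (fun c => (∏ a, x c a - ∏ a, y a).re) 0 := by
    refine pgI_small hs (badX hD hN) C.cl γ η hη0 hη1 hη2 (K ^ Fintype.card A) fun c hc => ?_
    refine (Complex.abs_re_le_norm _).trans ((norm_prod_sub (x c) y hK1 (hxK c hc) hyK).trans ?_)
    exact mul_le_mul_of_nonneg_left (sum_le_sum fun a _ => hxy c hc a)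
      (pow_nonneg (zero_le_one.trans hK1) _)
  have h2 := pgI_DeI hs hD hN h0 cA σ P R k C γ
  have h3 := (limP_PGI phi C.cl γ).add _ _ _ _ ((limP_PGI phi C.cl γ).add _ _ _ _ h2 h1)
    (pgI_const phi C.cl γ (W * v))
  rw [add_zero, zero_add] at h3
  have h4 := (limP_PGI phi C.cl γ).smul _ _ W⁻¹ h3
  have h5 : (fun c : I → Finset ι => W⁻¹ * ((DeI D ρ phi cA σ P R k (fun _ _ => 1) c).re +
      (∏ a, x c a - ∏ a, y a).re + W * v)) =
      fun c => ∏ a, ∏ b, (kX D ρ (cA a) (σ a) (P a) (R a) b (TT phi c a) : ℝ) ^ k a b := by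
    funext c
    have g1 := DeI_kX hD.sym ρ cA σ P R k c (phi := phi)
    have g2 : (∏ a, ∏ b, (kX D ρ (cA a) (σ a) (P a) (R a) b (TT phi c a) : ℂ) ^ k a b) *
        (∏ a, ∏ b, ((2 : ℂ) ^ k a b) ^ Fintype.card (E a b)) =
        ((W * ∏ a, ∏ b, (kX D ρ (cA a) (σ a) (P a) (R a) b (TT phi c a) : ℝ) ^ k a b : ℝ) : ℂ) := by
      rw [← hWc]
      push_cast
      ring
    have g3 : (∏ a, ∑ m : (∀ b, E a b → Lab2 (k a b)), (∏ b, e2 (RF (R a b) (m b))) *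
        PsX D (cA a) (σ a) (P a) m (fun _ => 1) (TT phi c a)) = ∏ a, x c a :=
      prod_congr rfl fun a _ => (hx c a).symm
    rw [g2, g3] at g1
    have g4 := congrArg Complex.re g1
    rw [Complex.sub_re, Complex.ofReal_re] at g4
    have g5 : (∏ a, x c a - ∏ a, y a).re = (∏ a, x c a).re - W * v := by
      rw [Complex.sub_re, hyv, Complex.ofReal_re]
    rw [g4, g5]
    have g6 : (W * ∏ a, ∏ b, (kX D ρ (cA a) (σ a) (P a) (R a) b (TT phi c a) : ℝ) ^ k a b -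
        (∏ a, x c a).re + ((∏ a, x c a).re - W * v) + W * v) =
        W * ∏ a, ∏ b, (kX D ρ (cA a) (σ a) (P a) (R a) b (TT phi c a) : ℝ) ^ k a b := by ring
    rw [g6, inv_mul_cancel_left₀ hW0]
  rw [h5, inv_mul_cancel_left₀ hW0, hv] at h4
  exact h4

end

end Pool.Agent.Lib.MP_1a91b9_ntMQ.G4
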