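import Pool.Agent.Lib.MP_1a91b9_ntMQ.X15
import Pool.Agent.Lib.MP_1a91b9_ntMQ.X18

set_option autoImplicit false
set_option linter.unusedSectionVars false

namespace Pool.Agent.Lib.MP_1a91b9_ntMQ.G4

open Finset Pool.Agent.Lib.MP_1a91b9_ntH Pool.Agent.Lib.MP_1a91b9_ntQ Pool.Agent.Lib.MP_1a91b9_ntQ.Da
  Pool.Agent.Lib.MP_1a91b9_ntQ.M Pool.Agent.Lib.MP_1a91b9_ntM Pool.Agent.Lib.MP_1a91b9_ntM.E
open Pool.Agent.Lib.MP_1a91b9_ntDV Pool.Agent.Lib.MP_1a91b9_ntDV.G4 Pool.Agent.Lib.MP_1a91b9_ntMQ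

noncomputable section


variable {I A : Type} [Fintype I] [DecidableEq I] [Fintype A] [DecidableEq A]
  {phi : A → I → ZMod 2} {Bt : A → Type} [∀ a, Fintype (Bt a)] [∀ a, DecidableEq (Bt a)]
  {E : ∀ a, Bt a → Type} [∀ a b, Fintype (E a b)]
  [∀ a b, DecidableEq (E a b)] {ι : Type} [DecidableEq ι] [PS ι] {κ : Type} [Fintype κ]
  [DecidableEq κ] {G : Type} [AddCommGroup G] [Fintype G]

/-- **X19a** (medium-). **The normalised sizes.** Proof. Let `t = ∏ a, ∏ b, tX .. b ^ k a b ≥ 1` (`tX_cases`), `F c = ∏ a, ∏ b, kX .. ^ k a b`,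
`f c = t⁻¹ * F c`, `h c = ∏ a, ∏ b, nX .. ^ k a b`. `pgI_kX` (X18) for `k` gives the mean value of `f` (`smul`), for `2 * k` the mean value
of `f ^ 2` (some value). In the classes and for `¬ EE phi c` (all `TT phi c a` are not empty) `kX = tX * nX` (`kX_mul h0 .. b hT hα`, with
`hα` as in the proof of `pg_nX`, K4_14c of MP_1a91b9_ntDV, PROVED), so `h c = f c`. Always `0 ≤ h c ≤ F c = t * f c` because `nX ≤ kX`
(by definition `nX` is `1 = kX` or `kX / tX`), so `|h c - f c| ≤ (t + 1) * f c`. `PGI.rareM` (X15) with `hD.cheb`, `hD.zt`. -/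
theorem pgI_nX [Nonempty I] (hs : Sp phi) {D : Dat2 ι κ} (hD : D.OK) (hN : D.NV1)
    {ρ : (κ → ZMod 2) → ι → ZMod 2} (h0 : ρ 0 = 0) {cA σ : ∀ a, Bt a → κ → ZMod 2}
    {P : ∀ a b, κ → E a b → ZMod 2} {R : ∀ a b, Matrix (E a b) (E a b) (ZMod 2)}
    (hF : ∀ a, FamX (cA a) (σ a) (P a) (R a)) (k : ∀ a, Bt a → ℕ) (C : Cl2 D G) (γ : A → G) :
    PGI phi C.cl γ
      (fun c => ∏ a, ∏ b, (nX D ρ (cA a) (σ a) (P a) (R a) (fun j => C.A j (γ a)) b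
        (TT phi c a) : ℝ) ^ k a b)
      (∏ a, ∏ b, (Nk2 (k a b) : ℝ)) := by
  classical
  obtain ⟨C1, hC1⟩ := hD.cheb
  obtain ⟨C2, hC2⟩ := hD.zt
  obtain ⟨t, ht⟩ : ∃ t : ℝ, t = ∏ a, ∏ b, (tX (cA a) (σ a) (P a) (R a) (fun j => C.A j (γ a)) b : ℝ) ^ k a b :=
    ⟨_, rfl⟩
  have ht1 : 1 ≤ t := by
    rw [ht]
    have h1p : ∀ (s : Finset A) (g : A → ℝ), (∀ a ∈ s, 1 ≤ g a) → 1 ≤ ∏ a ∈ s, g a := fun s g hg =>
      Finset.prod_induction g (fun x => 1 ≤ x) (fun _ _ => one_le_mul_of_one_le_of_one_le) le_rfl hg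
    refine h1p _ _ fun a _ => ?_
    refine Finset.prod_induction _ (fun x : ℝ => 1 ≤ x) (fun _ _ => one_le_mul_of_one_le_of_one_le) le_rfl
      fun b _ => one_le_pow₀ ?_
    rcases tX_cases (cA a) (σ a) (P a) (R a) (fun j => C.A j (γ a)) b with h | h <;> rw [h] <;> norm_num
  have ht0 : 0 < t := lt_of_lt_of_le one_pos ht1
  obtain ⟨F, hF'⟩ : ∃ F : (I → Finset ι) → ℝ, ∀ c, F c = ∏ a, ∏ b,
      (kX D ρ (cA a) (σ a) (P a) (R a) b (TT phi c a) : ℝ) ^ k a b := ⟨_, fun _ => rfl⟩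
  obtain ⟨N, hNN⟩ : ∃ N : ℝ, N = ∏ a, ∏ b, (Nk2 (k a b) : ℝ) := ⟨_, rfl⟩
  have hF0 : ∀ c, 0 ≤ F c := by
    intro c
    rw [hF']
    exact prod_nonneg fun a _ => prod_nonneg fun b _ => pow_nonneg (Nat.cast_nonneg _) _
  have h1 : PGI phi C.cl γ F (t * N) := by
    have h2 := pgI_kX hs hD hN h0 hF k C γ
    have h3 : (∏ a, ∏ b, ((tX (cA a) (σ a) (P a) (R a) (fun j => C.A j (γ a)) b : ℝ) ^ k a b *
        (Nk2 (k a b) : ℝ))) = t * N := by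
      rw [ht, hNN, ← prod_mul_distrib]
      exact prod_congr rfl fun a _ => prod_mul_distrib
    have h4 : F = fun c => ∏ a, ∏ b, (kX D ρ (cA a) (σ a) (P a) (R a) b (TT phi c a) : ℝ) ^ k a b :=
      funext hF'
    rw [h3, ← h4] at h2
    exact h2
  obtain ⟨v2, h2⟩ : ∃ v2 : ℝ, PGI phi C.cl γ (fun c => F c ^ 2) v2 := by
    refine ⟨_, PGI.congr (pgI_kX hs hD hN h0 hF (fun a b => k a b * 2) C γ) (fun c _ => ?_) rfl⟩
    rw [hF', ← prod_pow]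
    refine prod_congr rfl fun a _ => ?_
    rw [← prod_pow]
    exact prod_congr rfl fun b _ => (pow_mul _ _ _).symm
  have hf : PGI phi C.cl γ (fun c => t⁻¹ * F c) N := by
    have h3 := (limP_PGI phi C.cl γ).smul _ _ t⁻¹ h1
    rwa [inv_mul_cancel_left₀ ht0.ne'] at h3
  have hf2 : PGI phi C.cl γ (fun c => (t⁻¹ * F c) ^ 2) ((t⁻¹) ^ 2 * v2) := by
    have h3 := (limP_PGI phi C.cl γ).smul _ _ ((t⁻¹) ^ 2) h2
    have h4 : (fun c => (t⁻¹) ^ 2 * F c ^ 2) = fun c => (t⁻¹ * F c) ^ 2 := by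
      funext c
      rw [mul_pow]
    rwa [h4] at h3
  rw [← hNN]
  refine PGI.rareM hC1 hC2 hs (C := t + 1) hf hf2 (fun c => mul_nonneg (inv_nonneg.2 ht0.le) (hF0 c))
    (fun c hc hE => ?_) fun c => ?_
  · have h3 : F c = t * ∏ a, ∏ b, (Pool.Agent.Lib.MP_1a91b9_ntM.E.nX D ρ (cA a) (σ a) (P a) (R a)
        (fun j => C.A j (γ a)) b (TT phi c a) : ℝ) ^ k a b := by
      rw [hF', ht, ← prod_mul_distrib]
      refine prod_congr rfl fun a _ => ?_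
      rw [← prod_mul_distrib]
      refine prod_congr rfl fun b _ => ?_
      have hα : ∀ j, ∑ q ∈ TT phi c a, D.a q j = C.A j (γ a) := by
        intro j
        rw [← hc a, map_sum]
        exact sum_congr rfl fun q _ => C.ha q j
      have hT : TT phi c a ≠ ∅ := fun h => hE ⟨a, h⟩
      rw [kX_mul h0 (cA a) (σ a) (P a) (R a) (α := fun j => C.A j (γ a)) b hT hα]
      push_cast
      rw [mul_pow]
    show _ = t⁻¹ * F c
    rw [h3, inv_mul_cancel_left₀ ht0.ne']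
  · have hle : (∏ a, ∏ b, (Pool.Agent.Lib.MP_1a91b9_ntM.E.nX D ρ (cA a) (σ a) (P a) (R a)
        (fun j => C.A j (γ a)) b (TT phi c a) : ℝ) ^ k a b) ≤ F c := by
      rw [hF']
      refine prod_le_prod (fun a _ => prod_nonneg fun b _ => pow_nonneg (Nat.cast_nonneg _) _) fun a _ => ?_
      refine prod_le_prod (fun b _ => pow_nonneg (Nat.cast_nonneg _) _) fun b _ => ?_
      refine pow_le_pow_left₀ (Nat.cast_nonneg _) ?_ _
      have h3 : Pool.Agent.Lib.MP_1a91b9_ntM.E.nX D ρ (cA a) (σ a) (P a) (R a)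
          (fun j => C.A j (γ a)) b (TT phi c a) ≤ kX D ρ (cA a) (σ a) (P a) (R a) b (TT phi c a) := by
        unfold Pool.Agent.Lib.MP_1a91b9_ntM.E.nX
        split_ifs with h
        · exact h.ge
        · exact Nat.div_le_self _ _
      exact_mod_cast h3
    have hge : 0 ≤ (∏ a, ∏ b, (Pool.Agent.Lib.MP_1a91b9_ntM.E.nX D ρ (cA a) (σ a) (P a) (R a)
        (fun j => C.A j (γ a)) b (TT phi c a) : ℝ) ^ k a b) :=
      prod_nonneg fun a _ => prod_nonneg fun b _ => pow_nonneg (Nat.cast_nonneg _) _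
    obtain ⟨y, hy⟩ : ∃ y : ℝ, y = (∏ a, ∏ b, (Pool.Agent.Lib.MP_1a91b9_ntM.E.nX D ρ (cA a) (σ a) (P a) (R a)
        (fun j => C.A j (γ a)) b (TT phi c a) : ℝ) ^ k a b) := ⟨_, rfl⟩
    rw [← hy] at hle hge
    show |(∏ a, ∏ b, (Pool.Agent.Lib.MP_1a91b9_ntM.E.nX D ρ (cA a) (σ a) (P a) (R a)
        (fun j => C.A j (γ a)) b (TT phi c a) : ℝ) ^ k a b) - t⁻¹ * F c| ≤ (t + 1) * (t⁻¹ * F c)
    rw [← hy]
    have h5 : 0 ≤ t⁻¹ * F c := mul_nonneg (inv_nonneg.2 ht0.le) (hF0 c)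
    have h6 : (t + 1) * (t⁻¹ * F c) = F c + t⁻¹ * F c := by
      rw [add_mul, mul_inv_cancel_left₀ ht0.ne', one_mul]
    rw [h6, abs_le]
    constructor <;> linarith [hF0 c]

/-- **X19b** (easy). **The probability that all the matrices are nonsingular.** Proof: `(limP_PGI _ _ _).Nk` (P1 of MP_1a91b9_ntDV)
for the index type `Σ a, Bt a`, `x s c = nX D ρ (cA s.1) .. s.2 (TT phi c s.1)`, `nX_pow` and `pgI_nX`; `Fintype.prod_sigma`,
`Fintype.card_sigma`, `Finset.prod_pow_eq_pow_sum`. -/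
theorem pgI_one [Nonempty I] (hs : Sp phi) {D : Dat2 ι κ} (hD : D.OK) (hN : D.NV1)
    {ρ : (κ → ZMod 2) → ι → ZMod 2} (h0 : ρ 0 = 0) {cA σ : ∀ a, Bt a → κ → ZMod 2}
    {P : ∀ a b, κ → E a b → ZMod 2} {R : ∀ a b, Matrix (E a b) (E a b) (ZMod 2)}
    (hF : ∀ a, FamX (cA a) (σ a) (P a) (R a)) (C : Cl2 D G) (γ : A → G) :
    PGI phi C.cl γ
      (fun c => ∏ a, ∏ b, if nX D ρ (cA a) (σ a) (P a) (R a) (fun j => C.A j (γ a)) b
        (TT phi c a) = 1 then (1 : ℝ) else 0)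
      (∏ a, cinf2 ^ Fintype.card (Bt a)) := by
  classical
  have h1 := (limP_PGI phi C.cl γ).Nk (A := Σ a, Bt a)
    (x := fun s c => Pool.Agent.Lib.MP_1a91b9_ntM.E.nX D ρ (cA s.1) (σ s.1) (P s.1) (R s.1)
      (fun j => C.A j (γ s.1)) s.2 (TT phi c s.1))
    (fun s c => nX_pow D ρ (cA s.1) (σ s.1) (P s.1) (R s.1) (fun j => C.A j (γ s.1)) s.2 (TT phi c s.1))
    (fun k => by
      have h2 := pgI_nX hs hD hN h0 hF (fun a b => k ⟨a, b⟩) C γ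
      rw [Fintype.prod_sigma]
      have h3 : (fun c : I → Finset ι => ∏ s : (Σ a, Bt a), (Pool.Agent.Lib.MP_1a91b9_ntM.E.nX D ρ (cA s.1) (σ s.1)
          (P s.1) (R s.1) (fun j => C.A j (γ s.1)) s.2 (TT phi c s.1) : ℝ) ^ k s) =
          fun c => ∏ a, ∏ b, (Pool.Agent.Lib.MP_1a91b9_ntM.E.nX D ρ (cA a) (σ a) (P a) (R a)
            (fun j => C.A j (γ a)) b (TT phi c a) : ℝ) ^ k ⟨a, b⟩ := by
        funext c
        rw [Fintype.prod_sigma]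
      rw [h3]
      exact h2)
  have h4 : (fun c : I → Finset ι => ∏ s : (Σ a, Bt a), if Pool.Agent.Lib.MP_1a91b9_ntM.E.nX D ρ (cA s.1) (σ s.1)
      (P s.1) (R s.1) (fun j => C.A j (γ s.1)) s.2 (TT phi c s.1) = 1 then (1 : ℝ) else 0) =
      fun c => ∏ a, ∏ b, if Pool.Agent.Lib.MP_1a91b9_ntM.E.nX D ρ (cA a) (σ a) (P a) (R a)
        (fun j => C.A j (γ a)) b (TT phi c a) = 1 then (1 : ℝ) else 0 := by
    funext c
    rw [Fintype.prod_sigma]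
  have h5 : cinf2 ^ Fintype.card (Σ a, Bt a) = ∏ a, cinf2 ^ Fintype.card (Bt a) := by
    rw [Fintype.card_sigma, prod_pow_eq_pow_sum]
  rw [h5, h4] at h1
  exact h1

end

end Pool.Agent.Lib.MP_1a91b9_ntMQ.G4
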