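import Pool.Agent.Lib.MP_1a91b9_ntDV.K4_18
import Pool.Agent.Lib.MP_1a91b9_ntMQ.X20

set_option autoImplicit false
set_option linter.unusedSectionVars false

namespace Pool.Agent.Lib.MP_1a91b9_ntMQ.G4

open Finset Pool.Agent.Lib.MP_1a91b9_ntH Pool.Agent.Lib.MP_1a91b9_ntQ Pool.Agent.Lib.MP_1a91b9_ntQ.Da
  Pool.Agent.Lib.MP_1a91b9_ntQ.M Pool.Agent.Lib.MP_1a91b9_ntM Pool.Agent.Lib.MP_1a91b9_ntM.E
open Pool.Agent.Lib.MP_1a91b9_ntDV Pool.Agent.Lib.MP_1a91b9_ntDV.G4 Pool.Agent.Lib.MP_1a91b9_ntMQ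

open Pool.Agent.Lib.MP_1a91b9_ntZ (Atl bn bts bts_zero bts_empty_succ bts_insert_succ bts_mono
  bts_ind bts_const)
open Pool.Agent.Lib.MP_1a91b9_ntZ.J4 (indX indX_nonneg indX_le_one)

noncomputable section


variable {I A : Type} [Fintype I] [DecidableEq I] [Fintype A] [DecidableEq A]
  {phi : A → I → ZMod 2} {Bt : A → Type} [∀ a, Fintype (Bt a)] [∀ a, DecidableEq (Bt a)]
  {E : ∀ a, Bt a → Type} [∀ a b, Fintype (E a b)]
  [∀ a b, DecidableEq (E a b)] {ι : Type} [DecidableEq ι] [PS ι] {κ : Type} [Fintype κ]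
  [DecidableEq κ] {G : Type} [AddCommGroup G] [Fintype G]

open Classical in
/-- **X22a** (easy+, a copy). The mean value of the indicator of the events of a set of blocks. Proof: as `pg_blocks` (K4_18 of
MP_1a91b9_ntDV, PROVED), with `pgI_dens` (X20) for the families `fun b : {b // bl a b ∈ J} => ..` of the products `a`;
`∏ i ∈ J, ∏ a, ∏ b ∈ univ.filter (fun b => bl a b = i), w a b = ∏ a, ∏ b : {b // bl a b ∈ J}, w a b.1` (`Finset.prod_comm`, then `hfib` as there
for every `a`). -/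
theorem pgI_blocks [Nonempty I] (hs : Sp phi) {D : Dat2 ι κ} (hD : D.OK) (hN : D.NV1)
    {ρ : (κ → ZMod 2) → ι → ZMod 2} (h0 : ρ 0 = 0) {cA σ : ∀ a, Bt a → κ → ZMod 2}
    {P : ∀ a b, κ → E a b → ZMod 2} {R : ∀ a b, Matrix (E a b) (E a b) (ZMod 2)}
    (hF : ∀ a, FamX (cA a) (σ a) (P a) (R a)) (z : ∀ a b, Option (E a b))
    (bo : ∀ a, Bt a → Bool) (hz : ∀ a b, (z a b).isSome = true → cA a b ≠ 0) (C : Cl2 D G)
    (γ : A → G) {β : Type} [DecidableEq β] (bl : ∀ a, Bt a → β) (J : Finset β) :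
    PGI phi C.cl γ
      (fun c => ∏ i ∈ J, ∏ a, ∏ b ∈ univ.filter (fun b => bl a b = i),
        indX D ρ (cA a) (σ a) (P a) (R a) (z a) (bo a) (fun j => C.A j (γ a)) b (TT phi c a))
      (∏ i ∈ J, ∏ a, ∏ b ∈ univ.filter (fun b => bl a b = i),
        if (z a b).isSome = true then cinf2 / 2 else cinf2) := by
  have hfib : ∀ (a : A) (w : Bt a → ℝ), ∏ i ∈ J, ∏ b ∈ univ.filter (fun b => bl a b = i), w b =
      ∏ b : {b // bl a b ∈ J}, w b.1 := by
    intro a w
    rw [← Finset.prod_subtype (univ.filter fun b => bl a b ∈ J) (p := fun b => bl a b ∈ J)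
      (fun b => by simp) w]
    rw [← Finset.prod_fiberwise_of_maps_to (s := univ.filter fun b => bl a b ∈ J) (t := J)
      (g := bl a) (fun b hb => (mem_filter.1 hb).2) w]
    refine prod_congr rfl fun i hi => prod_congr ?_ fun b _ => rfl
    ext b
    simp only [mem_filter, mem_univ, true_and]
    constructor
    · rintro rfl
      exact ⟨hi, rfl⟩
    · exact fun h => h.2
  have hfib2 : ∀ w : ∀ a, Bt a → ℝ, ∏ i ∈ J, ∏ a, ∏ b ∈ univ.filter (fun b => bl a b = i), w a b =
      ∏ a, ∏ b : {b // bl a b ∈ J}, w a b.1 := by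
    intro w
    rw [prod_comm]
    exact prod_congr rfl fun a _ => hfib a (w a)
  have h1 := pgI_dens hs hD hN h0 (Bt := fun a => {b // bl a b ∈ J}) (E := fun a b => E a b.1)
    (cA := fun a b => cA a b.1) (σ := fun a b => σ a b.1) (P := fun a b => P a b.1)
    (R := fun a b => R a b.1)
    (fun a => ⟨fun b b' h => (hF a).sg b.1 b'.1 fun h' => h (Subtype.ext h'),
      fun b => (hF a).bd b.1, fun b => (hF a).sym b.1⟩)
    (fun a b => z a b.1) (fun a b => bo a b.1) (fun a b => hz a b.1) C γ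
  rw [hfib2]
  have h2 : (fun c => ∏ i ∈ J, ∏ a, ∏ b ∈ univ.filter (fun b => bl a b = i),
      indX D ρ (cA a) (σ a) (P a) (R a) (z a) (bo a) (fun j => C.A j (γ a)) b (TT phi c a)) =
      fun c => if ∀ (a : A) (b : {b // bl a b ∈ J}),
        nX D ρ (fun b : {b // bl a b ∈ J} => cA a b.1) (fun b => σ a b.1)
          (fun b => P a b.1) (fun b => R a b.1) (fun j => C.A j (γ a)) b (TT phi c a) = 1 ∧
        ∀ e, z a b.1 = some e → k2X D ρ (fun b : {b // bl a b ∈ J} => cA a b.1)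
          (fun b => σ a b.1) (fun b => P a b.1) (fun b => R a b.1) (fun b => bo a b.1) b e
          (TT phi c a) = 1 then (1 : ℝ) else 0 := by
    funext c
    rw [hfib2 fun a b => indX D ρ (cA a) (σ a) (P a) (R a) (z a) (bo a) (fun j => C.A j (γ a)) b
      (TT phi c a)]
    split_ifs with h
    · exact prod_eq_one fun a _ => prod_eq_one fun b _ => if_pos (h a b)
    · push Not at h
      obtain ⟨a, b, hb⟩ := h
      refine prod_eq_zero (mem_univ a) (prod_eq_zero (mem_univ b) (if_neg fun h9 => ?_))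
      obtain ⟨e, he, he2⟩ := hb h9.1
      exact he2 (h9.2 e he)
  rw [h2]
  exact h1

open Classical in
/-- **X22b** (easy+, a copy). **At least `t` of the blocks of labels, over the families of subsets.** Proof: as `pg_atl` (K4_18 of
MP_1a91b9_ntDV, PROVED): `mean_bts` (K4_18 or B0) with `limP_PGI`, `pgI_blocks`, and the same estimates with the products
`∏ a, ∏ b ∈ univ.filter (fun b => bl a b = i), ..` (`prod_nonneg`, `prod_le_one` twice; `prod_eq_zero` twice). -/
theorem pgI_atl [Nonempty I] (hs : Sp phi) {D : Dat2 ι κ} (hD : D.OK) (hN : D.NV1)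
    {ρ : (κ → ZMod 2) → ι → ZMod 2} (h0 : ρ 0 = 0) {cA σ : ∀ a, Bt a → κ → ZMod 2}
    {P : ∀ a b, κ → E a b → ZMod 2} {R : ∀ a b, Matrix (E a b) (E a b) (ZMod 2)}
    (hF : ∀ a, FamX (cA a) (σ a) (P a) (R a)) (z : ∀ a b, Option (E a b))
    (bo : ∀ a, Bt a → Bool) (hz : ∀ a b, (z a b).isSome = true → cA a b ≠ 0) (C : Cl2 D G)
    (γ : A → G) (hc1 : cinf2 ≤ 1) {β : Type} [Fintype β] [DecidableEq β] (bl : ∀ a, Bt a → β)
    (t : ℕ) {v : ℝ} (hv0 : 0 ≤ v)
    (hv : ∀ i, v ≤ ∏ a, ∏ b ∈ univ.filter (fun b => bl a b = i),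
      (if (z a b).isSome = true then cinf2 / 2 else cinf2)) :
    ∃ (F : (I → Finset ι) → ℝ) (w : ℝ), PGI phi C.cl γ F w ∧ bn (Fintype.card β) t v ≤ w ∧
      ∀ c, F c ≤ if Atl t (fun i => ∀ a b, bl a b = i →
        (nX D ρ (cA a) (σ a) (P a) (R a) (fun j => C.A j (γ a)) b (TT phi c a) = 1 ∧
          ∀ e, z a b = some e →
            k2X D ρ (cA a) (σ a) (P a) (R a) (bo a) b e (TT phi c a) = 1)) then 1 else 0 := by
  have hc0 : 0 ≤ cinf2 := cinf2_posX.le
  have hw0 : ∀ a b, 0 ≤ (if (z a b).isSome = true then cinf2 / 2 else cinf2) := fun a b => by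
    split_ifs <;> linarith
  have hw1 : ∀ a b, (if (z a b).isSome = true then cinf2 / 2 else cinf2) ≤ 1 := fun a b => by
    split_ifs <;> linarith
  have hm := mean_bts (limP_PGI phi C.cl γ) (F := fun i c => ∏ a,
      ∏ b ∈ univ.filter (fun b => bl a b = i),
        indX D ρ (cA a) (σ a) (P a) (R a) (z a) (bo a) (fun j => C.A j (γ a)) b (TT phi c a))
    (v := fun i => ∏ a, ∏ b ∈ univ.filter (fun b => bl a b = i),
      (if (z a b).isSome = true then cinf2 / 2 else cinf2)) (univ : Finset β) ∅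
    (disjoint_empty_left _) (fun J _ => pgI_blocks hs hD hN h0 hF z bo hz C γ bl J) t
  simp only [prod_empty, one_mul] at hm
  refine ⟨_, _, hm, ?_, fun c => ?_⟩
  · rw [← card_univ, ← bts_const univ t v]
    exact bts_mono univ t (fun _ _ => hv0) (fun i _ => hv i) fun i _ =>
      prod_le_one (fun a _ => prod_nonneg fun b _ => hw0 a b) fun a _ =>
        prod_le_one (fun b _ => hw0 a b) fun b _ => hw1 a b
  · have h8 : (bts univ t fun i => ∏ a, ∏ b ∈ univ.filter (fun b => bl a b = i),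
        indX D ρ (cA a) (σ a) (P a) (R a) (z a) (bo a) (fun j => C.A j (γ a)) b (TT phi c a)) ≤
        bts univ t fun i => if ∀ a b, bl a b = i →
          (nX D ρ (cA a) (σ a) (P a) (R a) (fun j => C.A j (γ a)) b (TT phi c a) = 1 ∧
          ∀ e, z a b = some e →
            k2X D ρ (cA a) (σ a) (P a) (R a) (bo a) b e (TT phi c a) = 1) then (1 : ℝ) else 0 := by
      refine bts_mono univ t (fun i _ => prod_nonneg fun a _ => prod_nonneg fun b _ =>
        indX_nonneg _ _ _ _ _ _ _ _ _ _ _) (fun i _ => ?_) fun i _ => ?_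
      · by_cases h : ∀ a b, bl a b = i →
          (nX D ρ (cA a) (σ a) (P a) (R a) (fun j => C.A j (γ a)) b (TT phi c a) = 1 ∧
          ∀ e, z a b = some e →
            k2X D ρ (cA a) (σ a) (P a) (R a) (bo a) b e (TT phi c a) = 1)
        · rw [if_pos h]
          exact prod_le_one (fun a _ => prod_nonneg fun b _ => indX_nonneg _ _ _ _ _ _ _ _ _ _ _)
            fun a _ => prod_le_one (fun b _ => indX_nonneg _ _ _ _ _ _ _ _ _ _ _)
              fun b _ => indX_le_one _ _ _ _ _ _ _ _ _ _ _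
        · rw [if_neg h]
          push Not at h
          obtain ⟨a, b, hb, h1⟩ := h
          refine le_of_eq (prod_eq_zero (mem_univ a)
            (prod_eq_zero (mem_filter.2 ⟨mem_univ b, hb⟩) (if_neg fun h2 => ?_)))
          obtain ⟨e, he, he2⟩ := h1 h2.1
          exact he2 (h2.2 e he)
      · split_ifs
        · exact le_rfl
        · exact zero_le_one
    refine le_trans h8 (le_of_eq ?_)
    have e := bts_ind (fun i => ∀ a b, bl a b = i →
          (nX D ρ (cA a) (σ a) (P a) (R a) (fun j => C.A j (γ a)) b (TT phi c a) = 1 ∧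
          ∀ e, z a b = some e →
            k2X D ρ (cA a) (σ a) (P a) (R a) (bo a) b e (TT phi c a) = 1)) univ t
    refine Eq.trans ?_ (e.trans ?_)
    · refine congrArg (bts univ t) (funext fun i => ?_)
      split_ifs <;> rfl
    · by_cases h : Atl t fun i => ∀ a b, bl a b = i →
          (nX D ρ (cA a) (σ a) (P a) (R a) (fun j => C.A j (γ a)) b (TT phi c a) = 1 ∧
          ∀ e, z a b = some e →
            k2X D ρ (cA a) (σ a) (P a) (R a) (bo a) b e (TT phi c a) = 1)
      · exact (if_pos h).trans (if_pos h).symm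
      · exact (if_neg h).trans (if_neg h).symm

end

end Pool.Agent.Lib.MP_1a91b9_ntMQ.G4
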