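import Pool.Agent.Lib.MP_1a91b9_ntDV.U0
import Pool.Agent.Lib.MP_1a91b9_ntMQ.RT0b

/-!
# MP_1a91b9_nt (random multiquadratic fields, binomial form): the forms of the joint laws

`Atl t P`: at least `t` of the `P b` hold. `bn k t g`: the probability of at least `t` successes in `k`
independent trials with the probability `g` (MP_1a91b9_ntZ/Bin.lean).
-/

set_option autoImplicit false
set_option linter.unusedSectionVars false

namespace Pool.Agent.Lib.MP_1a91b9_ntMQ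

open NumberField Finset
open Pool.Agent.Lib.MP_1a91b9_ntZ (Atl bn)

noncomputable section

section Ring

open Pool.Agent.Lib.MP_1a91b9_ntR (Qi Pri Pg)

variable {R : Type} [CommRing R] [IsDomain R] [IsPrincipalIdealRing R] [Qi R] [Pri R]
  {A : Type} [Fintype A] [DecidableEq A]

/-- The joint law for blocks of labels, for the `r`-tuples of divisors. -/
def DLBI (Good : ZMod 2 × (A → ZMod 2) → Finset (Pg R) → Prop) (c : ℝ) : Prop :=
  ∀ (r k N : ℕ), 0 < N → ∀ (i : Fin k → Finset (Fin r) → Fin N → ZMod 2 × (A → ZMod 2))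
    (T₀ : Fin k → Finset (Fin r) → Fin N → Finset (Pg R)) (B : Finset (Pg R)),
    (∀ b J n, T₀ b J n ⊆ B) →
    (∀ b, ∀ J : Finset (Fin r), J.Nonempty → Function.Injective fun n => (i b J n, T₀ b J n)) →
    (∀ b b', b ≠ b' → ∀ J : Finset (Fin r), J.Nonempty → ∀ n n',
      ((i b J n).2, T₀ b J n) ≠ ((i b' J n').2, T₀ b' J n')) →
    ∀ t : ℕ, SubLI r B (bn k t (c ^ ((2 ^ r - 1) * N))) fun T => Atl t fun b =>
      ∀ J : Finset (Fin r), J.Nonempty → ∀ n, Good (i b J n) (sdJ J T ∪ T₀ b J n)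

end Ring

section Eight

open Pool.Agent.Lib.MP_1a91b9_ntW
open Pool.Agent.Lib.MP_1a91b9_ntQ.Da (cinf2)

/-- The joint law for blocks of labels over `ℚ(√-2)`, for the `r`-tuples of divisors. -/
def JBI8 : Prop :=
  ∀ (r k N : ℕ), 0 < N → ∀ (i j : Fin k → Finset (Fin r) → Fin N → ZMod 2)
    (T₀ : Fin k → Finset (Fin r) → Fin N → Finset Pg) (B : Finset Pg), (∀ b J n, T₀ b J n ⊆ B) →
    (∀ b, ∀ J : Finset (Fin r), J.Nonempty →
      Function.Injective fun n => (i b J n, j b J n, T₀ b J n)) →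
    (∀ b b', b ≠ b' → ∀ J : Finset (Fin r), J.Nonempty → ∀ n n',
      (j b J n, T₀ b J n) ≠ (j b' J n', T₀ b' J n')) →
    ∀ t : ℕ, SubLI r B (bn k t (cinf2 ^ ((2 ^ r - 1) * N))) fun T => Atl t fun b =>
      ∀ J : Finset (Fin r), J.Nonempty → ∀ n, GW (i b J n) (j b J n) (sdJ J T ∪ T₀ b J n) ≠ 0

end Eight

section Three

open Pool.Agent.Lib.MP_1a91b9_ntT Pool.Agent.Lib.MP_1a91b9_ntH
  Pool.Agent.Lib.MP_1a91b9_ntH2 Pool.Agent.Lib.MP_1a91b9_ntE
open Pool.Agent.Lib.MP_1a91b9_ntP (GdE)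

/-- The joint law for blocks of labels over `ℚ(√-3)`, different up to the sign, for the `r`-tuples of
divisors: for every nonempty `J` the labels `A i J` of the block `i`. -/
def JBI3 : Prop :=
  ∀ (r k : ℕ) (A : Fin k → Finset (Fin r) → Type) [∀ i J, Fintype (A i J)]
    [∀ i J, Nonempty (A i J)] (f : ∀ i J, A i J → Bool) (c : ∀ i J, A i J → F4)
    (T₀ : ∀ i J, A i J → Finset Pq) (B : Finset Pq), (∀ i J a, T₀ i J a ⊆ B) →
    (∀ J : Finset (Fin r), J.Nonempty → Function.Injective (fun p : (Σ i, A i J) =>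
      (f p.1 J p.2, F4.tr (c p.1 J p.2), T₀ p.1 J p.2))) →
    ∀ g : ℝ, 0 ≤ g → (∀ i, g ≤ ∏ J ∈ (univ : Finset (Finset (Fin r))).filter Finset.Nonempty,
      Da.cinf ^ Fintype.card (A i J)) → ∀ t : ℕ,
    SubLI r B (bn k t g) fun T => Atl t fun i => ∀ J : Finset (Fin r), J.Nonempty → ∀ a,
      GdE (f i J a) (c i J a + qd.A (sdJ J T)) (sdJ J T ∪ T₀ i J a)

/-- The joint law for blocks of pairs of labels over `ℚ(√-3)`, for the `r`-tuples of divisors. -/
def JPI3 : Prop :=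
  ∀ (r k : ℕ) (A : Fin k → Finset (Fin r) → Type) [∀ i J, Fintype (A i J)]
    [∀ i J, Nonempty (A i J)] (f : ∀ i J, A i J → Bool) (c : ∀ i J, A i J → F4)
    (T₀ : ∀ i J, A i J → Finset Pq) (B : Finset Pq), (∀ i J a, T₀ i J a ⊆ B) →
    (∀ J : Finset (Fin r), J.Nonempty → Function.Injective (fun p : (Σ i, A i J) =>
      (f p.1 J p.2, F4.tr (c p.1 J p.2), T₀ p.1 J p.2))) →
    ∀ g : ℝ, 0 ≤ g → (∀ i, g ≤ ∏ J ∈ (univ : Finset (Finset (Fin r))).filter Finset.Nonempty,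
      ∏ a, (if f i J a = true then Da.cinf / 2 else Da.cinf)) → ∀ t : ℕ,
    SubLI r B (bn k t g) fun T => Atl t fun i => ∀ J : Finset (Fin r), J.Nonempty → ∀ a,
      GdE (f i J a) (c i J a + qd.A (sdJ J T)) (sdJ J T ∪ T₀ i J a) ∧
      GdE (f i J a) (c i J a + 1 + qd.A (sdJ J T)) (sdJ J T ∪ T₀ i J a)

end Three

section Four

open Pool.Agent.Lib.MP_1a91b9_ntQ Pool.Agent.Lib.MP_1a91b9_ntM
  Pool.Agent.Lib.MP_1a91b9_ntM.E Pool.Agent.Lib.MP_1a91b9_ntM.E.RX
open Pool.Agent.Lib.MP_1a91b9_ntQ.Da (cinf2)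

/-- The joint law for blocks of labels over `ℚ(i)`, for the `r`-tuples of divisors: for every nonempty `J` the
labels `A J`, and `bl J a` is the block of the label `a`. -/
def JBI4 : Prop :=
  ∀ (r : ℕ) (A : Finset (Fin r) → Type) [∀ J, Fintype (A J)] [∀ J, DecidableEq (A J)] (I : Type)
    [Fintype I] [DecidableEq I] (bl : ∀ J, A J → I) (x : ∀ J, A J → DD8) (f : ∀ J, A J → Bool)
    (P : Finset Pg), (∀ J i, Dj (x J i).S (x J i).T (x J i).B) →
    (∀ J i, (x J i).S ⊆ P ∧ (x J i).T ⊆ P ∧ (x J i).B ⊆ P) →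
    (∀ J i, f J i = true → ¬ (x J i).Sq) →
    (∀ J : Finset (Fin r), J.Nonempty → ∀ i i', i ≠ i' → x J i ≠ x J i' ∧ x J i ≠ (x J i').inv) →
    ∀ (t : ℕ) (v : ℝ), 0 ≤ v →
      (∀ b, v ≤ ∏ J ∈ (univ : Finset (Finset (Fin r))).filter Finset.Nonempty,
        ∏ a ∈ univ.filter (fun a => bl J a = b), (if f J a = true then cinf2 / 2 else cinf2)) →
    SubLI r P (bn (Fintype.card I) t v) fun T => Atl t fun b =>
      ∀ J : Finset (Fin r), J.Nonempty → ∀ i, bl J i = b →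
        GdX (x J i) (sdJ J T) ∧ (f J i = true → GdX (x J i).inv (sdJ J T))

end Four

end

end Pool.Agent.Lib.MP_1a91b9_ntMQ
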