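import Pool.Agent.Lib.MP_1a91b9_ntMQ.R1
import Pool.Agent.Lib.MP_1a91b9_ntMQ.RT0
import Pool.Agent.Lib.MP_1a91b9_ntDV.P5
import Pool.Agent.Lib.MP_1a91b9_ntZ.J7.Cls

/-!
P10: from the mean square outside `B` to the tuples of subsets
-/

set_option autoImplicit false
set_option linter.unusedSectionVars false

namespace Pool.Agent.Lib.MP_1a91b9_ntMQ

open Finset Pool.Agent.Lib.MP_1a91b9_ntH Pool.Agent.Lib.MP_1a91b9_ntQ
open Pool.Agent.Lib.MP_1a91b9_ntQ.Da Pool.Agent.Lib.MP_1a91b9_ntV Pool.Agent.Lib.MP_1a91b9_ntM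
open Pool.Agent.Lib.MP_1a91b9_ntDV

noncomputable section

open Pool.Agent.Lib.MP_1a91b9_ntV.DJ

open Classical in
/-- **P10** (medium-). Proof: copy the proof of `AVr.subL` (P6a of MP_1a91b9_ntDV, PROVED in the store file DV_P6.lean) for tuples. The
sets `S ∈ Sx ι X` disjoint from `B` are the `up S₀` with `S₀ ∈ Sx (Off B) X`, with the same number of elements, and
`c ↦ fun i => up (c i)` is a bijection from the families of subsets of `S₀` (`Fintype.piFinset fun _ => S₀.powerset`) to `tup r (up S₀)`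
(inverse: `fun i => dn B (T i)`, `up_dn`; `mem_tup`), so `avrI f S₀ = #((tup r (up S₀)).filter Q) / 2 ^ (r * #S₀)` by `hf`
(`Fintype.card_fin`) and `2 ^ (r * #S₀) = (2 ^ #S₀) ^ r`. So the number in `SubLI r B c Q` for `ε` is at most the number of the
`S₀ ∈ Sx (Off B) X` with `avrI f S₀ < c - ε`, and `c - ε < v`: `AVrI.rare` for `ε / (C + 1)`, and `card (Sx (Off B) X) ≤
card (Sx ι X) ≤ C * X` (`card_Sx_le h1 h2`, MP_1a91b9_ntDV/P5.lean, for `X ≥ 2`). -/
theorem AVrI.subLI {ι : Type} [DecidableEq ι] [PS ι] {C1 C2 : ℝ} (h1 : Cheb ι C1) (h2 : Zt ι C2)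
    {r : ℕ} {B : Finset ι} {Q : (Fin r → Finset ι) → Prop} {c v : ℝ} (hcv : c ≤ v)
    {f : (Fin r → Finset (Off B)) → ℝ}
    (hf : ∀ S, f S = if Q (fun i => up (S i)) then 1 else 0) (h : AVrI f v) : SubLI r B c Q := by
  obtain ⟨C, hC, hcard⟩ := card_Sx_le h1 h2
  have hup : ∀ S₀ : Finset (Off B), (up S₀).card = S₀.card := fun S₀ => card_map _
  have hcnt : ∀ S₀ : Finset (Off B), ∑ T ∈ Fintype.piFinset (fun _ : Fin r => S₀.powerset), f T =
      (((tup r (up S₀)).filter Q).card : ℝ) := by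
    intro S₀
    have e1 : ∑ T ∈ Fintype.piFinset (fun _ : Fin r => S₀.powerset), f T =
        (((Fintype.piFinset (fun _ : Fin r => S₀.powerset)).filter fun T =>
          Q (fun i => up (T i))).card : ℝ) := by
      rw [sum_congr rfl fun T _ => hf T, ← sum_filter, sum_const, nsmul_eq_mul, mul_one]
    rw [e1]
    refine congrArg (fun n : ℕ => (n : ℝ)) ?_
    refine card_bij (fun T _ => fun i => up (T i)) ?_ ?_ ?_
    · intro T hT
      obtain ⟨hT1, hT2⟩ := mem_filter.1 hT
      refine mem_filter.2 ⟨mem_tup.2 fun i => ?_, hT2⟩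
      intro q hq
      obtain ⟨hq1, hq2⟩ := mem_up.1 hq
      exact mem_up.2 ⟨hq1, mem_powerset.1 (Fintype.mem_piFinset.1 hT1 i) hq2⟩
    · intro T _ T' _ hTT
      funext i
      exact up_injective (congrFun hTT i)
    · intro U hU
      obtain ⟨hU1, hU2⟩ := mem_filter.1 hU
      have hU3 : ∀ i, U i ⊆ up S₀ := mem_tup.1 hU1
      have hU4 : ∀ i, Disjoint (U i) B := fun i => disjoint_of_subset_left (hU3 i) (disj_up S₀)
      have hU5 : (fun i => up (dn B (U i))) = U := funext fun i => up_dn (hU4 i)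
      refine ⟨fun i => dn B (U i), mem_filter.2 ⟨Fintype.mem_piFinset.2 fun i => mem_powerset.2 ?_, ?_⟩, hU5⟩
      · intro q hq
        obtain ⟨_, hq2⟩ := mem_up.1 (hU3 i (mem_dn.1 hq))
        exact hq2
      · rw [hU5]
        exact hU2
  intro ε hε
  obtain ⟨X1, hX1⟩ := AVrI.rare h (v' := c - ε) (by linarith) (ε / (C + 1)) (by positivity)
  refine ⟨max X1 2, fun X hX => ?_⟩
  have hX2 : 2 ≤ X := (le_max_right _ _).trans hX
  have h3 := hX1 X ((le_max_left _ _).trans hX)
  have h4 : (((Sx ι X).filter fun S => Disjoint S B ∧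
      (((tup r S).filter Q).card : ℝ) < (c - ε) * (2 ^ S.card) ^ r).card : ℝ) ≤
      (((Sx (Off B) X).filter fun S => avrI f S < c - ε).card : ℝ) := by
    refine Nat.cast_le.2 ?_
    refine le_trans (card_le_card (t := ((Sx (Off B) X).filter fun S => avrI f S < c - ε).image
      fun S => up S) ?_) card_image_le
    intro S hS
    obtain ⟨hS1, hS2, hS3⟩ := mem_filter.1 hS
    refine mem_image.2 ⟨dn B S, mem_filter.2 ⟨?_, ?_⟩, up_dn hS2⟩
    · rw [← up_mem_Sx, up_dn hS2]
      exact hS1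
    · unfold avrI
      rw [hcnt, ← hup, up_dn hS2, div_lt_iff₀ (by positivity), Fintype.card_fin, mul_comm r, pow_mul]
      exact hS3
  have h5 : ((Sx (Off B) X).card : ℝ) ≤ (Sx ι X).card := by
    refine Nat.cast_le.2 ?_
    refine card_le_card_of_injOn (fun S => up S) ?_ (up_injective.injOn)
    intro S hS
    exact up_mem_Sx.2 hS
  have h6 := hcard X hX2
  have hX0 : (0 : ℝ) ≤ X := Nat.cast_nonneg X
  refine h4.trans (h3.trans ?_)
  calc ε / (C + 1) * ((Sx (Off B) X).card + X) ≤ ε / (C + 1) * (C * X + X) := by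
        refine mul_le_mul_of_nonneg_left ?_ (by positivity)
        linarith
    _ = ε * X := by
        field_simp

end

end Pool.Agent.Lib.MP_1a91b9_ntMQ
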