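import Pool.Agent.Lib.MP_1a91b9_ntMQ.P9
import Pool.Agent.Lib.MP_1a91b9_ntMQ.P10
import Pool.Agent.Lib.MP_1a91b9_ntMQ.RT0b
import Pool.Agent.Lib.MP_1a91b9_ntV.DJ.Dsj7

/-!
P11: the joint law for the products of the divisors, `ℚ(√-7)`
-/

set_option autoImplicit false
set_option linter.unusedSectionVars false

namespace Pool.Agent.Lib.MP_1a91b9_ntMQ

open Finset Pool.Agent.Lib.MP_1a91b9_ntH Pool.Agent.Lib.MP_1a91b9_ntQ
open Pool.Agent.Lib.MP_1a91b9_ntQ.Da Pool.Agent.Lib.MP_1a91b9_ntV Pool.Agent.Lib.MP_1a91b9_ntM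
open Pool.Agent.Lib.MP_1a91b9_ntDV

noncomputable section

open NumberField Pool.Agent.Lib.MP_1a91b9_nuT
open Pool.Agent.Lib.MP_1a91b9_ntV.DS (cinfV)
open Pool.Agent.Lib.MP_1a91b9_ntV.DJ
open Pool.Agent.Lib.MP_1a91b9_ntZ.J7 (vb fb vb_ge fb_eq)

/-- The vectors of the nonempty sets `J`. -/
def phJ (r : ℕ) (J : {J : Finset (Fin r) // J.Nonempty}) (i : Fin r) : ZMod 2 :=
  if i ∈ J.1 then 1 else 0

/-- **P11a** (easy). Proof: `i ∈ J.1 ↔ phJ r J i = 1`. -/
theorem sp_phJ (r : ℕ) : Sp (phJ r) := by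
  have h1 : ∀ (J : {J : Finset (Fin r) // J.Nonempty}) (i : Fin r), i ∈ J.1 ↔ phJ r J i = 1 := by
    intro J i
    unfold phJ
    by_cases h : i ∈ J.1
    · rw [if_pos h]
      exact ⟨fun _ => rfl, fun _ => h⟩
    · rw [if_neg h]
      exact ⟨fun g => absurd g h, fun g => absurd g (by decide)⟩
  constructor
  · intro J J' h
    refine Subtype.ext (Finset.ext fun i => ?_)
    rw [h1, h1, h]
  · intro J h
    obtain ⟨i, hi⟩ := J.2
    have h2 := (h1 J i).1 hi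
    rw [h] at h2
    exact absurd (show (0 : ZMod 2) = 1 from h2) (by decide)

/-- **P11b** (easy+). Proof: `phJ r J ⬝ᵥ cl c q = ((J.1.filter fun i => q ∈ c i).card : ZMod 2)` (a sum of products of indicators), which
is `1` if and only if the number is odd (`ZMod.natCast_eq_one_iff_odd` or `ZMod.eq_one_iff_odd`). -/
theorem TT_phJ {ι : Type} [DecidableEq ι] {r : ℕ} (c : Fin r → Finset ι)
    (J : {J : Finset (Fin r) // J.Nonempty}) : TT (phJ r) c J = sdJ J.1 c := by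
  unfold TT sdJ
  refine filter_congr fun q _ => ?_
  have h1 : phJ r J ⬝ᵥ cl c q = ((J.1.filter fun i => q ∈ c i).card : ZMod 2) := by
    rw [← sum_boole]
    show ∑ i, phJ r J i * cl c q i = ∑ i ∈ J.1, if q ∈ c i then (1 : ZMod 2) else 0
    have h2 : ∑ i ∈ J.1, (if q ∈ c i then (1 : ZMod 2) else 0) =
        ∑ i, if i ∈ J.1 then (if q ∈ c i then (1 : ZMod 2) else 0) else 0 := by
      rw [sum_ite_mem, univ_inter]
    rw [h2]
    refine sum_congr rfl fun i _ => ?_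
    unfold phJ cl
    by_cases h : i ∈ J.1
    · rw [if_pos h, if_pos h, one_mul]
    · rw [if_neg h, if_neg h, zero_mul]
  rw [h1]
  exact ZMod.natCast_eq_one_iff_odd

/-- **P11c** (easy). Proof: `mem_up`; `q ∈ up (c i) ↔ ..`, a point of `Off B`. -/
theorem up_TT {ι : Type} [DecidableEq ι] {B : Finset ι} {I A : Type} [Fintype I]
    (phi : A → I → ZMod 2) (c : I → Finset (Off B)) (a : A) :
    up (TT phi c a) = TT phi (fun i => up (c i)) a := by
  have h1 : ∀ (q : ι) (hq : q ∉ B), cl (fun i => up (c i)) q = cl c ⟨q, hq⟩ := by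
    intro q hq
    funext i
    have h2 : q ∈ up (c i) ↔ (⟨q, hq⟩ : Off B) ∈ c i := by
      rw [mem_up]
      exact ⟨fun h => h.2, fun h => ⟨hq, h⟩⟩
    show (if q ∈ up (c i) then (1 : ZMod 2) else 0) = if (⟨q, hq⟩ : Off B) ∈ c i then (1 : ZMod 2) else 0
    exact if_congr h2 rfl rfl
  ext q
  rw [mem_up]
  constructor
  · rintro ⟨hq, h⟩
    obtain ⟨h2, h3⟩ := mem_filter.1 h
    obtain ⟨i, _, hi⟩ := mem_biUnion.1 h2
    refine mem_filter.2 ⟨mem_biUnion.2 ⟨i, mem_univ i, mem_up.2 ⟨hq, hi⟩⟩, ?_⟩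
    rw [h1 q hq]
    exact h3
  · intro h
    obtain ⟨h2, h3⟩ := mem_filter.1 h
    obtain ⟨i, _, hi⟩ := mem_biUnion.1 h2
    obtain ⟨hq, hi2⟩ := mem_up.1 hi
    refine ⟨hq, mem_filter.2 ⟨mem_biUnion.2 ⟨i, mem_univ i, hi2⟩, ?_⟩⟩
    rw [← h1 q hq]
    exact h3

private theorem P11_card (r : ℕ) : Fintype.card {J : Finset (Fin r) // J.Nonempty} = 2 ^ r - 1 := by
  rw [Fintype.card_subtype]
  have h1 : (univ.filter fun J : Finset (Fin r) => J.Nonempty) = univ.erase ∅ := by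
    ext J
    rw [mem_filter, mem_erase, nonempty_iff_ne_empty]
    exact ⟨fun h => ⟨h.2, h.1⟩, fun h => ⟨h.2, h.1⟩⟩
  rw [h1, card_erase_of_mem (mem_univ _), card_univ, Fintype.card_finset, Fintype.card_fin]

variable [CD] [hv : V7]

/-- **P11** (easy+). **The joint law for the products of the divisors, `ℚ(√-7)`.** Proof: copy `jl7'` (P6b, proved in the store file DV_P6.lean).
Let `A = {J : Finset (Fin r) // J.Nonempty}`; `AVrI_7 (sp_phJ r) tw7D (okt7B 0 B)` with `d0 a = d0 a.1` etc. gives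
`AVrI f v` with `v = ∏ a, vb (d1 a.1) (d2 a.1) (T₀ a.1) ≥ ∏ a, cinfV ^ N = cinfV ^ ((2 ^ r - 1) * N)` (`vb_ge`, `prod_le_prod`,
`cinfV_nn`; the number of the nonempty `J` is `2 ^ r - 1`: `Fintype.card_subtype`, all subsets but `∅`). By `fb_eq` the function is
the indicator of `∀ a n, Good7 D7 (up (TT (phJ r) c a) ∪ T₀ a.1 n) ..`, and `up (TT (phJ r) c a) = sdJ a.1 (fun i => up (c i))` by
`up_TT` and `TT_phJ`; then `AVrI.subLI` with `Cheb`, `Zt` from `okt7d.an` as in `jl7'`. -/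
theorem jli7 (r N : ℕ) : JLI7 r N := by
  classical
  intro d0 d1 d2 T₀ B hT hinj
  obtain ⟨C1, h1⟩ := okt7d.an.cheb
  obtain ⟨C2, h2⟩ := okt7d.an.zt
  have h3 := AVrI_7 (sp_phJ r) tw7D (okt7B 0 B)
    (d0 := fun a : {J : Finset (Fin r) // J.Nonempty} => d0 a.1) (d1 := fun a => d1 a.1)
    (d2 := fun a => d2 a.1) (T := fun a => T₀ a.1) (fun a n => hT a.1 n) (fun a => hinj a.1 a.2)
  refine AVrI.subLI h1 h2 ?_ (fun S => ?_) h3
  · have h4 : cinfV ^ ((2 ^ r - 1) * N) =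
        ∏ _a : {J : Finset (Fin r) // J.Nonempty}, cinfV ^ N := by
      rw [prod_const, card_univ, P11_card, ← pow_mul, mul_comm]
    rw [h4]
    exact prod_le_prod (fun a _ => pow_nonneg cinfV_nn N) fun a _ => vb_ge (hinj a.1 a.2)
  · have h5 : ∀ a : {J : Finset (Fin r) // J.Nonempty},
        fb D7 (B := B) (d0 a.1) (d1 a.1) (d2 a.1) (T₀ a.1) (TT (phJ r) S a) =
        if (∀ n, Good7 D7 (sdJ a.1 (fun i => up (S i)) ∪ T₀ a.1 n) (d0 a.1 n) (d1 a.1 n) (d2 a.1 n)) then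
          (1 : ℝ) else 0 := by
      intro a
      rw [fb_eq D7 (d0 a.1) (d1 a.1) (d2 a.1) (T₀ a.1) (TT (phJ r) S a), up_TT, TT_phJ]
    rw [prod_congr rfl fun a _ => h5 a, prod_ite_zero, prod_const_one]
    split_ifs with g1 g2 g2
    · rfl
    · exact (g2 fun J hJ n => g1 ⟨J, hJ⟩ (mem_univ _) n).elim
    · exact (g1 fun a _ n => g2 a.1 a.2 n).elim
    · rfl

end

end Pool.Agent.Lib.MP_1a91b9_ntMQ
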