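import Pool.Agent.Lib.MP_1a91b9_ntMQ.Q0
import Pool.Agent.Lib.MP_1a91b9_ntDV.E9

/-!
R1: the rules for the mean squares
-/

set_option autoImplicit false
set_option linter.unusedSectionVars false

namespace Pool.Agent.Lib.MP_1a91b9_ntMQ

open Finset Pool.Agent.Lib.MP_1a91b9_ntH Pool.Agent.Lib.MP_1a91b9_ntQ
open Pool.Agent.Lib.MP_1a91b9_ntQ.Da Pool.Agent.Lib.MP_1a91b9_ntV Pool.Agent.Lib.MP_1a91b9_ntM
open Pool.Agent.Lib.MP_1a91b9_ntDV

noncomputable section

variable {I : Type} [Fintype I] [DecidableEq I] {ι : Type} [DecidableEq ι] [PS ι]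

/-! **R1** (easy+, the whole file). These are the rules of MP_1a91b9_ntDV/E9.lean (PROVED, copy them) for `avI`, `AVI`, `avrI`, `AVrI` in
place of `avg`, `AV`, `avr`, `AVr`: functions of `c : I → Finset ι` in place of `T : Finset ι`, sums over
`Fintype.piFinset fun _ : I => S.powerset` divided by `2 ^ (Fintype.card I * S.card)`. -/

theorem AVI.add {F G : (I → Finset ι) → ℂ} {v w : ℂ} (hF : AVI F v) (hG : AVI G w) :
    AVI (fun T => F T + G T) (v + w) := by
  intro ε hε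
  obtain ⟨X1, h1⟩ := hF (ε / 4) (by positivity)
  obtain ⟨X2, h2⟩ := hG (ε / 4) (by positivity)
  refine ⟨max X1 X2, fun X hX => ?_⟩
  have a1 := h1 X ((le_max_left _ _).trans hX)
  have a2 := h2 X ((le_max_right _ _).trans hX)
  have key : ∑ S ∈ Sx ι X, ‖avI (fun T => F T + G T) S - (v + w)‖ ^ 2 ≤
      ∑ S ∈ Sx ι X, (2 * ‖avI F S - v‖ ^ 2 + 2 * ‖avI G S - w‖ ^ 2) := by
    refine Finset.sum_le_sum fun S _ => ?_
    have e : avI (fun T => F T + G T) S - (v + w) = (avI F S - v) + (avI G S - w) := by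
      unfold avI
      rw [Finset.sum_add_distrib, add_div]
      ring
    rw [e]
    have h3 := norm_add_le (avI F S - v) (avI G S - w)
    have h4 := norm_nonneg ((avI F S - v) + (avI G S - w))
    nlinarith [sq_nonneg (‖avI F S - v‖ - ‖avI G S - w‖), norm_nonneg (avI F S - v), norm_nonneg (avI G S - w)]
  rw [Finset.sum_add_distrib, ← Finset.mul_sum, ← Finset.mul_sum] at key
  linarith

theorem AVI.smul {F : (I → Finset ι) → ℂ} {v : ℂ} (hF : AVI F v) (a : ℂ) :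
    AVI (fun T => a * F T) (a * v) := by
  intro ε hε
  obtain ⟨X1, h1⟩ := hF (ε / (‖a‖ ^ 2 + 1)) (by positivity)
  refine ⟨X1, fun X hX => ?_⟩
  have a1 := h1 X hX
  have key : ∑ S ∈ Sx ι X, ‖avI (fun T => a * F T) S - a * v‖ ^ 2 =
      ‖a‖ ^ 2 * ∑ S ∈ Sx ι X, ‖avI F S - v‖ ^ 2 := by
    rw [Finset.mul_sum]
    refine Finset.sum_congr rfl fun S _ => ?_
    have e : avI (fun T => a * F T) S - a * v = a * (avI F S - v) := by
      unfold avI
      rw [← Finset.mul_sum]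
      ring
    rw [e, norm_mul, mul_pow]
  rw [key]
  have hN : (0 : ℝ) ≤ ((Sx ι X).card + X : ℝ) := by positivity
  calc ‖a‖ ^ 2 * ∑ S ∈ Sx ι X, ‖avI F S - v‖ ^ 2
      ≤ ‖a‖ ^ 2 * (ε / (‖a‖ ^ 2 + 1) * ((Sx ι X).card + X)) := mul_le_mul_of_nonneg_left a1 (by positivity)
    _ = (‖a‖ ^ 2 / (‖a‖ ^ 2 + 1)) * (ε * ((Sx ι X).card + X)) := by ring
    _ ≤ 1 * (ε * ((Sx ι X).card + X)) := by
        refine mul_le_mul_of_nonneg_right ?_ (by positivity)
        rw [div_le_one (by positivity)]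
        linarith
    _ = ε * ((Sx ι X).card + X) := one_mul _

theorem AVI.zero : AVI (fun _ : I → Finset ι => (0 : ℂ)) 0 := by
  intro ε hε
  refine ⟨0, fun X _ => ?_⟩
  have e : ∀ S ∈ Sx ι X, ‖avI (fun _ : I → Finset ι => (0 : ℂ)) S - 0‖ ^ 2 = 0 := by
    intro S _
    unfold avI
    rw [Finset.sum_const_zero, zero_div, sub_zero, norm_zero]
    ring
  rw [Finset.sum_eq_zero e]
  positivity

theorem AVI.congr {F G : (I → Finset ι) → ℂ} {v w : ℂ} (hF : AVI F v) (h : ∀ T, G T = F T)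
    (h2 : w = v) : AVI G w := by
  have e : G = F := funext h
  rw [e, h2]
  exact hF

theorem AVI.sum {α : Type} (s : Finset α) {F : α → (I → Finset ι) → ℂ} {v : α → ℂ}
    (h : ∀ i ∈ s, AVI (F i) (v i)) : AVI (fun T => ∑ i ∈ s, F i T) (∑ i ∈ s, v i) := by
  classical
  induction s using Finset.induction_on with
  | empty => exact AVI.zero.congr (fun T => by rw [Finset.sum_empty]) (by rw [Finset.sum_empty])
  | insert a s ha ih =>
    refine ((h a (Finset.mem_insert_self a s)).add (ih fun i hi => h i (Finset.mem_insert_of_mem hi))).congr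
      (fun T => ?_) ?_
    · rw [Finset.sum_insert ha]
    · rw [Finset.sum_insert ha]

theorem AVrI_iff {F : (I → Finset ι) → ℝ} {v : ℝ} :
    AVrI F v ↔ AVI (fun T => (F T : ℂ)) (v : ℂ) := by
  have e : ∀ S : Finset ι, ‖avI (fun T => (F T : ℂ)) S - (v : ℂ)‖ ^ 2 = (avrI F S - v) ^ 2 := by
    intro S
    have e1 : avI (fun T => (F T : ℂ)) S = ((avrI F S : ℝ) : ℂ) := by
      unfold avI avrI
      push_cast
      rfl
    rw [e1, ← Complex.ofReal_sub, Complex.norm_real, Real.norm_eq_abs, sq_abs]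
  unfold AVrI AVI
  simp only [e]

theorem AVrI.add {F G : (I → Finset ι) → ℝ} {v w : ℝ} (hF : AVrI F v) (hG : AVrI G w) :
    AVrI (fun T => F T + G T) (v + w) := by
  rw [AVrI_iff] at hF hG ⊢
  exact (hF.add hG).congr (fun T => by push_cast; rfl) (by push_cast; rfl)

theorem AVrI.smul {F : (I → Finset ι) → ℝ} {v : ℝ} (hF : AVrI F v) (a : ℝ) :
    AVrI (fun T => a * F T) (a * v) := by
  rw [AVrI_iff] at hF ⊢
  exact (hF.smul (a : ℂ)).congr (fun T => by push_cast; rfl) (by push_cast; rfl)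

theorem AVrI.congr {F G : (I → Finset ι) → ℝ} {v w : ℝ} (hF : AVrI F v) (h : ∀ T, G T = F T)
    (h2 : w = v) : AVrI G w := by
  have e : G = F := funext h
  rw [e, h2]
  exact hF

theorem AVrI.sum {α : Type} (s : Finset α) {F : α → (I → Finset ι) → ℝ} {v : α → ℝ}
    (h : ∀ i ∈ s, AVrI (F i) (v i)) : AVrI (fun T => ∑ i ∈ s, F i T) (∑ i ∈ s, v i) := by
  rw [AVrI_iff]
  exact (AVI.sum s fun i hi => AVrI_iff.1 (h i hi)).congr (fun T => by push_cast; rfl) (by push_cast; rfl)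

theorem AVrI.of_bounds {F : (I → Finset ι) → ℝ} {v : ℝ}
    (h : ∀ δ : ℝ, 0 < δ → ∃ (l u : (I → Finset ι) → ℝ) (vl vu : ℝ), AVrI l vl ∧ AVrI u vu ∧
      v - δ ≤ vl ∧ vu ≤ v + δ ∧ ∀ T, l T ≤ F T ∧ F T ≤ u T) : AVrI F v := by
  intro ε hε
  obtain ⟨δ, hδ, hδ2⟩ : ∃ δ : ℝ, 0 < δ ∧ 4 * δ ^ 2 ≤ ε / 2 := by
    refine ⟨min 1 (ε / 8), lt_min one_pos (by positivity), ?_⟩
    have h1 : min 1 (ε / 8) ≤ 1 := min_le_left _ _
    have h2 : min 1 (ε / 8) ≤ ε / 8 := min_le_right _ _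
    have h3 : 0 < min 1 (ε / 8) := lt_min one_pos (by positivity)
    nlinarith
  obtain ⟨l, u, vl, vu, hl, hu, hvl, hvu, hb⟩ := h δ hδ
  obtain ⟨X1, h1⟩ := hl (ε / 8) (by positivity)
  obtain ⟨X2, h2⟩ := hu (ε / 8) (by positivity)
  refine ⟨max X1 X2, fun X hX => ?_⟩
  have a1 := h1 X ((le_max_left _ _).trans hX)
  have a2 := h2 X ((le_max_right _ _).trans hX)
  have key : ∑ S ∈ Sx ι X, (avrI F S - v) ^ 2 ≤
      ∑ S ∈ Sx ι X, (2 * (avrI l S - vl) ^ 2 + 2 * (avrI u S - vu) ^ 2 + 4 * δ ^ 2) := by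
    refine Finset.sum_le_sum fun S _ => ?_
    have hlo : avrI l S ≤ avrI F S :=
      div_le_div_of_nonneg_right (Finset.sum_le_sum fun T _ => (hb T).1) (by positivity)
    have hup : avrI F S ≤ avrI u S :=
      div_le_div_of_nonneg_right (Finset.sum_le_sum fun T _ => (hb T).2) (by positivity)
    rcases le_total v (avrI F S) with hx | hx
    · have c1 : avrI F S - v ≤ (avrI u S - vu) + δ := by linarith
      have c2 : (avrI F S - v) ^ 2 ≤ ((avrI u S - vu) + δ) ^ 2 := pow_le_pow_left₀ (by linarith) c1 2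
      nlinarith [sq_nonneg ((avrI u S - vu) - δ), sq_nonneg (avrI l S - vl), sq_nonneg δ]
    · have c1 : v - avrI F S ≤ (vl - avrI l S) + δ := by linarith
      have c2 : (v - avrI F S) ^ 2 ≤ ((vl - avrI l S) + δ) ^ 2 := pow_le_pow_left₀ (by linarith) c1 2
      nlinarith [sq_nonneg ((vl - avrI l S) - δ), sq_nonneg (avrI u S - vu), sq_nonneg δ]
  rw [Finset.sum_add_distrib, Finset.sum_add_distrib, ← Finset.mul_sum, ← Finset.mul_sum, Finset.sum_const,
    nsmul_eq_mul] at key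
  have hX0 : (0 : ℝ) ≤ X := Nat.cast_nonneg X
  have hc0 : (0 : ℝ) ≤ (Sx ι X).card := Nat.cast_nonneg _
  have key2 : ((Sx ι X).card : ℝ) * (4 * δ ^ 2) ≤ (Sx ι X).card * (ε / 2) := mul_le_mul_of_nonneg_left hδ2 hc0
  nlinarith

theorem AVrI.rare {F : (I → Finset ι) → ℝ} {v : ℝ} (hF : AVrI F v) {v' : ℝ} (hv : v' < v) (ε : ℝ)
    (hε : 0 < ε) : ∃ X₀ : ℕ, ∀ X : ℕ, X₀ ≤ X →
      (((Sx ι X).filter fun S => avrI F S < v').card : ℝ) ≤ ε * ((Sx ι X).card + X) := by
  have hd : 0 < v - v' := by linarith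
  obtain ⟨X1, h1⟩ := hF (ε * (v - v') ^ 2) (by positivity)
  refine ⟨X1, fun X hX => ?_⟩
  have a1 := h1 X hX
  have key : (((Sx ι X).filter fun S => avrI F S < v').card : ℝ) * (v - v') ^ 2 ≤
      ∑ S ∈ Sx ι X, (avrI F S - v) ^ 2 := by
    calc (((Sx ι X).filter fun S => avrI F S < v').card : ℝ) * (v - v') ^ 2
        = ∑ S ∈ (Sx ι X).filter fun S => avrI F S < v', (v - v') ^ 2 := by
          rw [Finset.sum_const, nsmul_eq_mul]
      _ ≤ ∑ S ∈ (Sx ι X).filter fun S => avrI F S < v', (avrI F S - v) ^ 2 := by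
          refine Finset.sum_le_sum fun S hS => ?_
          have hS2 := (Finset.mem_filter.1 hS).2
          have : v - v' ≤ v - avrI F S := by linarith
          calc (v - v') ^ 2 ≤ (v - avrI F S) ^ 2 := pow_le_pow_left₀ hd.le this 2
            _ = (avrI F S - v) ^ 2 := by ring
      _ ≤ ∑ S ∈ Sx ι X, (avrI F S - v) ^ 2 :=
          Finset.sum_le_sum_of_subset_of_nonneg (Finset.filter_subset _ _) fun S _ _ => sq_nonneg _
  have key2 : (((Sx ι X).filter fun S => avrI F S < v').card : ℝ) * (v - v') ^ 2 ≤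
      (ε * ((Sx ι X).card + X)) * (v - v') ^ 2 := by
    refine key.trans (a1.trans (le_of_eq ?_))
    ring
  exact le_of_mul_le_mul_right key2 (by positivity)

end

end Pool.Agent.Lib.MP_1a91b9_ntMQ
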