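import Pool.Agent.Lib.MP_1a91b9_ntDV.K4_13
import Pool.Agent.Lib.MP_1a91b9_ntMQ.R1
import Pool.Agent.Lib.MP_1a91b9_ntMQ.X0

set_option autoImplicit false
set_option linter.unusedSectionVars false

namespace Pool.Agent.Lib.MP_1a91b9_ntMQ.G4

open Finset Pool.Agent.Lib.MP_1a91b9_ntH Pool.Agent.Lib.MP_1a91b9_ntQ Pool.Agent.Lib.MP_1a91b9_ntQ.Da
  Pool.Agent.Lib.MP_1a91b9_ntQ.M Pool.Agent.Lib.MP_1a91b9_ntM Pool.Agent.Lib.MP_1a91b9_ntM.E
open Pool.Agent.Lib.MP_1a91b9_ntDV Pool.Agent.Lib.MP_1a91b9_ntDV.G4 Pool.Agent.Lib.MP_1a91b9_ntMQ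

noncomputable section


variable {I A : Type} [Fintype I] [DecidableEq I] [Fintype A] [DecidableEq A]
  {phi : A → I → ZMod 2} {ι : Type} [DecidableEq ι] [PS ι] {G : Type} [AddCommGroup G] {cl : ι → G}
  {γ : A → G}

/-- **X14a** (easy). A constant function has its value as the mean value. Proof: `avrI (fun _ => c) S = c`: the number of the
families is `(2 ^ #S) ^ #I = 2 ^ (#I * #S)` (`Fintype.card_piFinset_const`, `card_powerset`, `pow_mul`). -/
theorem AVrI_const (c : ℝ) : AVrI (fun _ : I → Finset ι => c) c := by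
  intro ε hε
  refine ⟨0, fun X _ => ?_⟩
  have h1 : ∀ S : Finset ι, avrI (fun _ : I → Finset ι => c) S = c := by
    intro S
    unfold avrI
    rw [sum_const, Fintype.card_piFinset, prod_const, card_univ, card_powerset, nsmul_eq_mul, ← pow_mul,
      mul_comm S.card]
    push_cast
    rw [mul_comm, mul_div_assoc, div_self (by positivity), mul_one]
  simp only [h1, sub_self]
  rw [sum_eq_zero fun S _ => by norm_num]
  positivity

/-- **X14b** (easy+). The rules. Proof: as `limP_PG` (K4_13a of MP_1a91b9_ntDV, PROVED), with `AVrI.add`, `AVrI.smul`, `AVrI.congr`,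
`AVrI.of_bounds` (R1.lean) and `AVrI_const`. -/
theorem limP_PGI (phi : A → I → ZMod 2) (cl : ι → G) (γ : A → G) : LimP (PGI phi cl γ) := by
  classical
  refine ⟨fun f h v w hf hh => ?_, fun f v a hf => ?_, fun f v H => ?_⟩
  · refine (AVrI.add hf hh).congr (fun T => ?_) (by ring)
    split_ifs <;> ring
  · refine (AVrI.smul hf a).congr (fun T => ?_) (by ring)
    split_ifs <;> ring
  · refine AVrI.of_bounds fun δ hδ => ?_
    obtain ⟨l, u, vl, vu, hl, hu, h1, h2, h3⟩ := H (δ / 2) (by positivity)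
    refine ⟨_, _, _, _, AVrI.add hl (AVrI_const (-(δ / 2))), AVrI.add hu (AVrI_const (δ / 2)), ?_, ?_, fun T => ?_⟩
    · linarith
    · linarith
    · have h4 := h3 T
      constructor
      · split_ifs
        · linarith [h4.1]
        · linarith
      · split_ifs
        · linarith [h4.2]
        · linarith

/-- **X14c** (easy). Proof: as `pg_const`. -/
theorem pgI_const (phi : A → I → ZMod 2) (cl : ι → G) (γ : A → G) (c : ℝ) :
    PGI phi cl γ (fun _ => c) c := by
  refine (AVrI_const (0 : ℝ)).congr (fun T => ?_) rfl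
  rw [sub_self, ite_self]

/-- **X14d** (easy). Only the families with the classes `γ` count. Proof: `AVrI.congr`, cases for the `if`. -/
theorem PGI.congr {f h : (I → Finset ι) → ℝ} {v v' : ℝ} (hf : PGI phi cl γ f v)
    (hh : ∀ c : I → Finset ι, (∀ a, ∑ q ∈ TT phi c a, cl q = γ a) → h c = f c) (hv : v' = v) :
    PGI phi cl γ h v' := by
  subst hv
  refine AVrI.congr hf (fun T => ?_) rfl
  by_cases hc : ∀ a, ∑ q ∈ TT phi T a, cl q = γ a
  · rw [if_pos hc, if_pos hc, hh T hc]
  · rw [if_neg hc, if_neg hc]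

/-- **X14e** (easy). Proof: `(limP_PGI phi cl γ).sum` with `pgI_const`. -/
theorem PGI.sum {α : Type} (s : Finset α) {f : α → (I → Finset ι) → ℝ} {v : α → ℝ}
    (h : ∀ i ∈ s, PGI phi cl γ (f i) (v i)) :
    PGI phi cl γ (fun c => ∑ i ∈ s, f i c) (∑ i ∈ s, v i) := by
  exact (limP_PGI phi cl γ).sum s h (pgI_const phi cl γ 0)

end

end Pool.Agent.Lib.MP_1a91b9_ntMQ.G4
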