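import Pool.Agent.Lib.MP_1a91b9_ntDV.K4_16
import Pool.Agent.Lib.MP_1a91b9_ntMQ.P10
import Pool.Agent.Lib.MP_1a91b9_ntMQ.P11
import Pool.Agent.Lib.MP_1a91b9_ntMQ.X14

set_option autoImplicit false
set_option linter.unusedSectionVars false

namespace Pool.Agent.Lib.MP_1a91b9_ntMQ.G4

open Finset Pool.Agent.Lib.MP_1a91b9_ntH Pool.Agent.Lib.MP_1a91b9_ntQ Pool.Agent.Lib.MP_1a91b9_ntQ.Da
  Pool.Agent.Lib.MP_1a91b9_ntQ.M Pool.Agent.Lib.MP_1a91b9_ntM Pool.Agent.Lib.MP_1a91b9_ntM.E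
open Pool.Agent.Lib.MP_1a91b9_ntDV Pool.Agent.Lib.MP_1a91b9_ntDV.G4 Pool.Agent.Lib.MP_1a91b9_ntMQ

noncomputable section


/-- **X21a** (easy+). The sets with few elements are rare. Proof: a set with `δ < (1 / 2) ^ S.card` contributes more than `δ ^ 2` to the sum in
`sum_quarter h1 h2 (ε * δ ^ 2)` (MP_1a91b9_ntDV/E10.lean). -/
theorem few_rare {ι : Type} [DecidableEq ι] [PS ι] {C1 C2 : ℝ} (h1 : Cheb ι C1) (h2 : Zt ι C2)
    {δ : ℝ} (hδ : 0 < δ) (ε : ℝ) (hε : 0 < ε) : ∃ X₀ : ℕ, ∀ X : ℕ, X₀ ≤ X →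
      (((Sx ι X).filter fun S => δ < (1 / 2 : ℝ) ^ S.card).card : ℝ) ≤ ε * X := by
  obtain ⟨X₀, hX₀⟩ := sum_quarter h1 h2 (ε * δ ^ 2) (by positivity)
  refine ⟨X₀, fun X hX => ?_⟩
  have h3 := hX₀ X hX
  have h4 : (((Sx ι X).filter fun S => δ < (1 / 2 : ℝ) ^ S.card).card : ℝ) * δ ^ 2 ≤ ε * X * δ ^ 2 := by
    calc (((Sx ι X).filter fun S => δ < (1 / 2 : ℝ) ^ S.card).card : ℝ) * δ ^ 2
        = ∑ S ∈ (Sx ι X).filter fun S => δ < (1 / 2 : ℝ) ^ S.card, δ ^ 2 := by
          rw [sum_const, nsmul_eq_mul]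
      _ ≤ ∑ S ∈ (Sx ι X).filter fun S => δ < (1 / 2 : ℝ) ^ S.card, (((1 : ℝ) / 2) ^ S.card) ^ 2 :=
          sum_le_sum fun S hS => pow_le_pow_left₀ hδ.le (mem_filter.1 hS).2.le 2
      _ ≤ ∑ S ∈ Sx ι X, (((1 : ℝ) / 2) ^ S.card) ^ 2 :=
          sum_le_sum_of_subset_of_nonneg (filter_subset _ _) fun S _ _ => sq_nonneg _
      _ ≤ ε * δ ^ 2 * X := h3
      _ = ε * X * δ ^ 2 := by ring
  exact le_of_mul_le_mul_right h4 (by positivity)

open Classical in
private theorem X21_cnt {ι : Type} [DecidableEq ι] {B : Finset ι} {r : ℕ} (Q : (Fin r → Finset ι) → Prop)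
    (S₀ : Finset (Off B)) :
    ∑ T ∈ Fintype.piFinset (fun _ : Fin r => S₀.powerset), (if Q (fun i => up (T i)) then (1 : ℝ) else 0) =
      (((tup r (up S₀)).filter Q).card : ℝ) := by
  have e1 : ∑ T ∈ Fintype.piFinset (fun _ : Fin r => S₀.powerset),
      (if Q (fun i => up (T i)) then (1 : ℝ) else 0) =
      (((Fintype.piFinset (fun _ : Fin r => S₀.powerset)).filter fun T =>
        Q (fun i => up (T i))).card : ℝ) := by
    rw [← sum_filter, sum_const, nsmul_eq_mul, mul_one]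
  rw [e1]
  refine congrArg (fun n : ℕ => (n : ℝ)) ?_
  refine card_bij (fun T _ => fun i => up (T i)) ?_ ?_ ?_
  · intro T hT
    obtain ⟨hT1, hT2⟩ := mem_filter.1 hT
    refine mem_filter.2 ⟨mem_tup.2 fun i => ?_, hT2⟩
    intro q hq
    obtain ⟨hq1, hq2⟩ := mem_up.1 hq
    exact mem_up.2 ⟨hq1, mem_powerset.1 (Fintype.mem_piFinset.1 hT1 i) hq2⟩
  · intro T _ T' _ hTT
    funext i
    exact up_injective (congrFun hTT i)
  · intro U hU
    obtain ⟨hU1, hU2⟩ := mem_filter.1 hU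
    have hU3 : ∀ i, U i ⊆ up S₀ := mem_tup.1 hU1
    have hU4 : ∀ i, Disjoint (U i) B := fun i => disjoint_of_subset_left (hU3 i) (disj_up S₀)
    have hU5 : (fun i => up (dn B (U i))) = U := funext fun i => up_dn (hU4 i)
    refine ⟨fun i => dn B (U i), mem_filter.2 ⟨Fintype.mem_piFinset.2 fun i => mem_powerset.2 ?_, ?_⟩, hU5⟩
    · intro q hq
      obtain ⟨_, hq2⟩ := mem_up.1 (hU3 i (mem_dn.1 hq))
      exact hq2
    · rw [hU5]
      exact hU2

private theorem X21_card {ι : Type} [DecidableEq ι] {r : ℕ} (S : Finset ι) :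
    (((Fintype.piFinset fun _ : Fin r => S.powerset).card : ℕ) : ℝ) =
      2 ^ (Fintype.card (Fin r) * S.card) := by
  rw [Fintype.card_piFinset, prod_const, card_univ, card_powerset, ← pow_mul, mul_comm S.card]
  push_cast
  rfl

open Classical in
/-- **X21b** (medium). **From the classes of the products to the shares.**
Proof. Choose `F γ`, `w γ`. Let `H c = ∑ γ : A → G, if ∀ a, ∑ q ∈ TT phi c a, cl q = γ a then F γ c - w γ else 0`; by `AVrI.sum` (R1) `AVrI H 0`
(unfold `PGI`). For every `c` exactly one `γ` counts (`fun a => ∑ q ∈ TT phi c a, cl q`), so `H c + v = F γ c - w γ + v ≤ F γ c`, and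
`H c + v ≤ (if Q (fun i => up (c i)) then 1 else 0) + (if EE phi c then 1 else 0)`. Mean values over the families of subsets of
`S₀ : Finset (Off B)`, `avrI_EE hs S₀` (P2): `avrI H S₀ + v ≤ #((tup r (up S₀)).filter Q) / (2 ^ #S₀) ^ r + card A * (1 / 2) ^ #S₀` (the
bijection `c ↦ fun i => up (c i)` exactly as in the proof of `AVrI.subLI`, P10, PROVED: `hcnt`). So for an `S = up S₀` counted in
`SubLI r B v Q` for `ε`: `avrI H S₀ < -ε + card A * (1 / 2) ^ #S₀`, hence `ε / (2 * (card A + 1)) < (1 / 2) ^ #S₀` or `avrI H S₀ < -(ε / 2)`. The first is rare by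
`few_rare h1 h2` (`ε / 2`), the second by `AVrI.rare` (R1; `v' = -(ε / 2) < 0`) with `card_Sx_le h1 h2` (K4_16a of MP_1a91b9_ntDV) as in the
PROVED `off_PG`, `subL_PG` (K4_16 of MP_1a91b9_ntDV). -/
theorem subLI_PGI {ι : Type} [DecidableEq ι] [PS ι] {B : Finset ι} {C1 C2 : ℝ}
    (h1 : Cheb (Off B) C1) (h2 : Zt (Off B) C2) {r : ℕ} {A : Type} [Fintype A] [DecidableEq A]
    {phi : A → Fin r → ZMod 2} (hs : Sp phi) {G : Type} [AddCommGroup G] [Fintype G]
    (cl : Off B → G) {v : ℝ} {Q : (Fin r → Finset ι) → Prop}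
    (h : ∀ γ : A → G, ∃ (F : (Fin r → Finset (Off B)) → ℝ) (w : ℝ), PGI phi cl γ F w ∧ v ≤ w ∧
      (∀ c, F c ≤ 1) ∧ ∀ c : Fin r → Finset (Off B), ¬ EE phi c →
        (∀ a, ∑ q ∈ TT phi c a, cl q = γ a) → F c ≤ if Q (fun i => up (c i)) then 1 else 0) :
    SubLI r B v Q := by
  choose F w hPG hv hF1 hF using h
  obtain ⟨H, hHd⟩ : ∃ H : (Fin r → Finset (Off B)) → ℝ, H = fun c => ∑ γ ∈ (univ : Finset (A → G)),
      if ∀ a, ∑ q ∈ TT phi c a, cl q = γ a then F γ c - w γ else 0 := ⟨_, rfl⟩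
  have hH : AVrI H 0 := by
    have h3 := AVrI.sum (univ : Finset (A → G)) (fun γ _ => hPG γ)
    rw [sum_const_zero] at h3
    rw [hHd]
    exact h3
  have hval : ∀ c, H c = F (fun a => ∑ q ∈ TT phi c a, cl q) c -
      w (fun a => ∑ q ∈ TT phi c a, cl q) := by
    intro c
    rw [hHd]
    show (∑ γ ∈ (univ : Finset (A → G)), if ∀ a, ∑ q ∈ TT phi c a, cl q = γ a then
      F γ c - w γ else 0) = _
    rw [sum_eq_single (fun a => ∑ q ∈ TT phi c a, cl q)]
    · exact if_pos fun a => rfl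
    · intro γ _ hγ
      exact if_neg fun h => hγ (funext fun a => (h a).symm)
    · intro h
      exact absurd (mem_univ _) h
  have hpt : ∀ c : Fin r → Finset (Off B), H c + v ≤
      (if Q (fun i => up (c i)) then (1 : ℝ) else 0) + (if EE phi c then (1 : ℝ) else 0) := by
    intro c
    have h5 := hv (fun a => ∑ q ∈ TT phi c a, cl q)
    rw [hval]
    by_cases hE : EE phi c
    · have h6 := hF1 (fun a => ∑ q ∈ TT phi c a, cl q) c
      have h7 : (0 : ℝ) ≤ if Q (fun i => up (c i)) then (1 : ℝ) else 0 := by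
        split_ifs
        · exact zero_le_one
        · exact le_rfl
      rw [if_pos hE]
      linarith
    · have h6 := hF (fun a => ∑ q ∈ TT phi c a, cl q) c hE (fun a => rfl)
      rw [if_neg hE]
      linarith
  have hav : ∀ S₀ : Finset (Off B), (avrI H S₀ + v - Fintype.card A * (1 / 2) ^ S₀.card) *
      2 ^ (Fintype.card (Fin r) * S₀.card) ≤ (((tup r (up S₀)).filter Q).card : ℝ) := by
    intro S₀
    have hp : (0 : ℝ) < 2 ^ (Fintype.card (Fin r) * S₀.card) := by positivity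
    have h8 := avrI_EE hs S₀
    unfold avrI at h8
    rw [div_le_iff₀ hp] at h8
    have h9 : (∑ c ∈ Fintype.piFinset fun _ : Fin r => S₀.powerset, H c) +
        2 ^ (Fintype.card (Fin r) * S₀.card) * v ≤ (((tup r (up S₀)).filter Q).card : ℝ) +
        ∑ c ∈ Fintype.piFinset fun _ : Fin r => S₀.powerset, (if EE phi c then (1 : ℝ) else 0) := by
      rw [← X21_cnt Q S₀, ← sum_add_distrib, ← X21_card S₀, ← nsmul_eq_mul, ← sum_const,
        ← sum_add_distrib]
      exact sum_le_sum fun c _ => hpt c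
    have h10 : avrI H S₀ * 2 ^ (Fintype.card (Fin r) * S₀.card) =
        ∑ c ∈ Fintype.piFinset fun _ : Fin r => S₀.powerset, H c := by
      unfold avrI
      exact div_mul_cancel₀ _ hp.ne'
    have h11 : (avrI H S₀ + v - Fintype.card A * (1 / 2) ^ S₀.card) *
        2 ^ (Fintype.card (Fin r) * S₀.card) = avrI H S₀ * 2 ^ (Fintype.card (Fin r) * S₀.card) +
        2 ^ (Fintype.card (Fin r) * S₀.card) * v -
        Fintype.card A * (1 / 2) ^ S₀.card * 2 ^ (Fintype.card (Fin r) * S₀.card) := by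
      ring
    rw [h11, h10]
    linarith
  intro ε hε
  obtain ⟨C, hC, hcard⟩ := Pool.Agent.Lib.MP_1a91b9_ntDV.G4.card_Sx_le h1 h2
  obtain ⟨X1, hX1⟩ := few_rare h1 h2 (δ := ε / (2 * (Fintype.card A + 1))) (by positivity) (ε / 2)
    (by positivity)
  obtain ⟨X2, hX2⟩ := AVrI.rare hH (v' := -(ε / 2)) (by linarith) (ε / 2 / (C + 1)) (by positivity)
  refine ⟨max X1 X2, fun X hX => ?_⟩
  have h3 := hX1 X ((le_max_left _ _).trans hX)
  have h4 := hX2 X ((le_max_right _ _).trans hX)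
  have h5 : (((Sx ι X).filter fun S => Disjoint S B ∧
      (((tup r S).filter Q).card : ℝ) < (v - ε) * (2 ^ S.card) ^ r).card : ℝ) ≤
      (((Sx (Off B) X).filter fun S => ε / (2 * (Fintype.card A + 1)) < (1 / 2 : ℝ) ^ S.card).card : ℝ) +
      (((Sx (Off B) X).filter fun S => avrI H S < -(ε / 2)).card : ℝ) := by
    rw [← Nat.cast_add]
    refine Nat.cast_le.2 ?_
    refine le_trans (card_le_card_of_injOn (t := ((Sx (Off B) X).filter fun S =>
      ε / (2 * (Fintype.card A + 1)) < (1 / 2 : ℝ) ^ S.card) ∪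
      ((Sx (Off B) X).filter fun S => avrI H S < -(ε / 2))) (dn B) (fun S hS => ?_) ?_)
      (card_union_le _ _)
    · rw [mem_coe, mem_filter] at hS
      obtain ⟨hS1, hS2, hS3⟩ := hS
      have h6 := up_dn hS2
      have h7 : dn B S ∈ Sx (Off B) X := up_mem_Sx.1 (by rw [h6]; exact hS1)
      have h8 : (dn B S).card = S.card := by
        have h9 : (up (dn B S)).card = (dn B S).card := card_map _
        rw [← h9, h6]
      rw [mem_coe, mem_union, mem_filter, mem_filter]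
      by_cases hd : ε / (2 * (Fintype.card A + 1)) < (1 / 2 : ℝ) ^ (dn B S).card
      · exact Or.inl ⟨h7, hd⟩
      · refine Or.inr ⟨h7, ?_⟩
        have h9 := hav (dn B S)
        have hp : (0 : ℝ) < 2 ^ (Fintype.card (Fin r) * (dn B S).card) := by positivity
        have h10 : ((2 : ℝ) ^ S.card) ^ r = 2 ^ (Fintype.card (Fin r) * (dn B S).card) := by
          rw [h8, Fintype.card_fin, mul_comm r, pow_mul]
        rw [h6] at h9
        rw [h10] at hS3
        have h11 := lt_of_mul_lt_mul_right (h9.trans_lt hS3) hp.le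
        have h12 : (Fintype.card A : ℝ) * (1 / 2) ^ (dn B S).card ≤ ε / 2 := by
          have hA : (0 : ℝ) ≤ Fintype.card A := Nat.cast_nonneg _
          calc (Fintype.card A : ℝ) * (1 / 2) ^ (dn B S).card
              ≤ Fintype.card A * (ε / (2 * (Fintype.card A + 1))) :=
                mul_le_mul_of_nonneg_left (not_lt.1 hd) hA
            _ = (Fintype.card A / (Fintype.card A + 1)) * (ε / 2) := by
                field_simp
            _ ≤ 1 * (ε / 2) := by
                refine mul_le_mul_of_nonneg_right ?_ (by positivity)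
                rw [div_le_one (by positivity)]
                linarith
            _ = ε / 2 := one_mul _
        linarith
    · intro S hS S' hS' hSS
      rw [mem_coe, mem_filter] at hS hS'
      rw [← up_dn hS.2.1, ← up_dn hS'.2.1, hSS]
  have h6 := hcard X
  refine h5.trans ?_
  have h7 : ε / 2 / (C + 1) * (((Sx (Off B) X).card : ℝ) + X) ≤ ε / 2 * X := by
    calc ε / 2 / (C + 1) * (((Sx (Off B) X).card : ℝ) + X) ≤ ε / 2 / (C + 1) * ((C + 1) * X) := by
          refine mul_le_mul_of_nonneg_left ?_ (by positivity)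
          linarith
      _ = ε / 2 * X := by
          field_simp
  have h8 : ε * (X : ℝ) = ε / 2 * X + ε / 2 * X := by ring
  rw [h8]
  linarith

end

end Pool.Agent.Lib.MP_1a91b9_ntMQ.G4
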