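import Pool.Agent.Lib.MP_1a91b9_ntM.E.Main8X
import Pool.Agent.Lib.MP_1a91b9_ntMQ.RU0
import Pool.Agent.Lib.MP_1a91b9_ntMQ.X21
import Pool.Agent.Lib.MP_1a91b9_ntMQ.X22

set_option autoImplicit false
set_option linter.unusedSectionVars false

namespace Pool.Agent.Lib.MP_1a91b9_ntMQ.G4

open Finset Pool.Agent.Lib.MP_1a91b9_ntH Pool.Agent.Lib.MP_1a91b9_ntQ Pool.Agent.Lib.MP_1a91b9_ntQ.Da
  Pool.Agent.Lib.MP_1a91b9_ntQ.M Pool.Agent.Lib.MP_1a91b9_ntM Pool.Agent.Lib.MP_1a91b9_ntM.E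
open Pool.Agent.Lib.MP_1a91b9_ntDV Pool.Agent.Lib.MP_1a91b9_ntDV.G4 Pool.Agent.Lib.MP_1a91b9_ntMQ

open Pool.Agent.Lib.MP_1a91b9_ntZ (Atl bn bts bts_zero bts_empty_succ bts_insert_succ bts_mono
  bts_ind bts_const)

noncomputable section


/-- **X23a** (easy). Proof: `bts_const`, `bts_mono` for `v ≤ 1` and the value `1` at the constant `1`, or `bn n t v ≤ bn n 0 v = (v + (1 - v)) ^ n`
(`Finset.sum_le_sum_of_subset_of_nonneg`, `add_pow`, `bts_zero`). -/
theorem bn_le_one {v : ℝ} (h0 : 0 ≤ v) (h1 : v ≤ 1) (n t : ℕ) : bn n t v ≤ 1 := by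
  have h2 : 0 ≤ 1 - v := by linarith
  unfold bn
  calc ∑ j ∈ Finset.Icc t n, (n.choose j : ℝ) * v ^ j * (1 - v) ^ (n - j)
      ≤ ∑ j ∈ range (n + 1), (n.choose j : ℝ) * v ^ j * (1 - v) ^ (n - j) :=
        sum_le_sum_of_subset_of_nonneg
          (fun j hj => mem_range.2 (Nat.lt_succ_of_le (mem_Icc.1 hj).2))
          (fun j _ _ => by positivity)
    _ = (v + (1 - v)) ^ n := by
        rw [add_pow]
        exact sum_congr rfl fun j _ => by ring
    _ = 1 := by rw [add_sub_cancel, one_pow]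

/-- **X23b** (easy+). The case `r = 0`: there are no products. Proof: there is one tuple: `(tup 0 S).card = 1`, `(2 ^ #S) ^ 0 = 1`. If
`t ≤ card I`, the property holds for it and `bn .. - ε < 1` (`bn_le_one`, `v ≤ 1`: take a block `b`, the product over the empty family of
nonempty `J : Finset (Fin 0)` is `1`; if there are no blocks, `t = 0` and `bn 0 0 v = 1` by definition). If `card I < t`, then `bn = 0`
(`Finset.Icc_eq_empty`) and the count is `≥ 0 > (0 - ε) * 1`. In both cases no set is counted. -/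
theorem jbi4_zero {I : Type} [Fintype I] {B : Finset Pool.Agent.Lib.MP_1a91b9_ntQ.Pg} {t : ℕ}
    {v : ℝ} (hv0 : 0 ≤ v) (hv : ∀ _b : I, v ≤ 1)
    {Q : (Fin 0 → Finset Pool.Agent.Lib.MP_1a91b9_ntQ.Pg) → I → Prop} (hQ : ∀ T b, Q T b) :
    SubLI 0 B (bn (Fintype.card I) t v) fun T => Atl t fun b => Q T b := by
  classical
  have hA : ∀ T, Atl t (fun b => Q T b) ↔ t ≤ Fintype.card I := by
    intro T
    unfold Atl
    rw [filter_true_of_mem fun b _ => hQ T b, card_univ]
  intro ε hε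
  refine ⟨0, fun X _ => ?_⟩
  have h1 : ((Sx Pg X).filter fun S => Disjoint S B ∧
      (((tup 0 S).filter fun T => Atl t fun b => Q T b).card : ℝ) <
        (bn (Fintype.card I) t v - ε) * (2 ^ S.card) ^ 0) = ∅ := by
    refine filter_eq_empty_iff.2 ?_
    rintro S _ ⟨_, h2⟩
    rw [pow_zero, mul_one] at h2
    rcases le_or_gt t (Fintype.card I) with h3 | h3
    · rw [filter_true_of_mem fun T _ => (hA T).2 h3, card_tup, pow_zero, Nat.cast_one] at h2
      have h4 : bn (Fintype.card I) t v ≤ 1 := by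
        rcases isEmpty_or_nonempty I with h5 | ⟨⟨b⟩⟩
        · rw [Fintype.card_eq_zero] at h3 ⊢
          rw [Nat.le_zero.1 h3]
          unfold bn
          simp
        · exact bn_le_one hv0 (hv b) _ _
      linarith
    · have h4 : bn (Fintype.card I) t v = 0 := by
        unfold bn
        rw [Icc_eq_empty (not_le.2 h3), sum_empty]
      rw [h4] at h2
      have h5 : (0 : ℝ) ≤ (((tup 0 S).filter fun T => Atl t fun b => Q T b).card : ℝ) := Nat.cast_nonneg _
      linarith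
  have h6 : (0 : ℝ) ≤ ε * X := mul_nonneg hε.le (Nat.cast_nonneg X)
  refine le_trans (le_of_eq ?_) h6
  rw [Nat.cast_eq_zero, card_eq_zero, ← h1]

/-- **X23c** (medium). **The binomial law for the blocks of labels over `ℚ(i)`, for the products of `r` divisors.**
Proof. `r = 0`: `jbi4_zero` (the filter of the nonempty `J : Finset (Fin 0)` is empty, `prod_empty`). For `r ≥ 1` (`Nonempty (Fin r)`), as `jb4`
(K4_19 of MP_1a91b9_ntDV, PROVED): `obtain ⟨m, h0⟩ := oneX trX1 trX2 trSq`; `A = {J : Finset (Fin r) // J.Nonempty}`, `phi = phJ r`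
(`sp_phJ`, P11), `Bt a = A a.1`; `subLI_PGI (B := P) hC1 hC2 (sp_phJ r) (CclB m P).cl fun γ => ?_`; for `γ : A → G` use
`choose .. using fun (a : {J // J.Nonempty}) (i : A a.1) => h0 m le_rfl P (x a.1 i) (f a.1 i) (hdj a.1 i) (hP a.1 i) (hf a.1 i) (γ a)`,
`hF a : FamX ..` for every `a` exactly as there (`hpw a.1 a.2`), `pgI_atl`; the product over `J ∈ univ.filter Finset.Nonempty` is the product
over the subtype (`Finset.prod_subtype`). `F c ≤ 1` because the bound is `0` or `1`. For `c` with `¬ EE (phJ r) c` in the classes the set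
`T = TT (phJ r) c a` is not empty, and `up T = sdJ a.1 (fun i => up (c i))` (`up_TT`, `TT_phJ`, P11); the last block (`kX_mul`, `hX`) is the same
for every `a` and every label. -/
theorem jbi4 : JBI4 := by
  classical
  intro r A _ _ I _ _ bl x f P hdj hP hf hpw t v hv0 hv
  rcases Nat.eq_zero_or_pos r with hr | hr
  · subst hr
    refine jbi4_zero (Q := fun T b => ∀ J : Finset (Fin 0), J.Nonempty → ∀ i, bl J i = b →
      GdX (x J i) (sdJ J T) ∧ (f J i = true → GdX (x J i).inv (sdJ J T))) hv0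
      (fun b => (hv b).trans (le_of_eq (prod_eq_one fun J hJ => ?_))) ?_
    · obtain ⟨i, _⟩ := (mem_filter.1 hJ).2
      exact Fin.elim0 i
    · rintro T b J ⟨i, _⟩
      exact Fin.elim0 i
  have hne : Nonempty (Fin r) := ⟨⟨0, hr⟩⟩
  obtain ⟨m, h0⟩ := oneX trX1 trX2 trSq
  obtain ⟨C1, hC1⟩ := (OK_off d4_OK P).cheb
  obtain ⟨C2, hC2⟩ := (OK_off d4_OK P).zt
  refine subLI_PGI (B := P) hC1 hC2 (sp_phJ r) (CclB m P).cl fun γ => ?_
  choose E i1 i2 Pm R z b hb hR hz hzf hX using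
    fun (a : {J : Finset (Fin r) // J.Nonempty}) (i : A a.1) =>
      h0 m le_rfl P (x a.1 i) (f a.1 i) (hdj a.1 i) (hP a.1 i) (hf a.1 i) (γ a)
  have hF : ∀ a : {J : Finset (Fin r) // J.Nonempty},
      FamX (fun i => cX P (x a.1 i)) (fun i => sX P (x a.1 i)) (Pm a) (R a) := by
    intro a
    refine ⟨fun i i' hii hc => ⟨fun hs => ?_, fun hs => ?_⟩, hb a, hR a⟩
    · refine (hpw a.1 a.2 i i' hii).1 (sX_inj (hdj a.1 i) (hP a.1 i) (hdj a.1 i') (hP a.1 i') hc ?_)
      funext j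
      have h4 := congrFun hs j
      simp only [Pi.add_apply, Pi.zero_apply] at h4
      have h5 := eq_neg_of_add_eq_zero_left h4
      rw [z2_neg] at h5
      exact h5
    · exact (hpw a.1 a.2 i i' hii).2
        (sX_inv (hdj a.1 i) (hP a.1 i) (hdj a.1 i') (hP a.1 i') hc hs)
  have hcp := cinf2_posX
  have hv' : ∀ c, v ≤ ∏ a : {J : Finset (Fin r) // J.Nonempty},
      ∏ i ∈ univ.filter (fun i => bl a.1 i = c),
      (if (z a i).isSome = true then cinf2 / 2 else cinf2) := by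
    intro c
    have h1 : ∏ J ∈ (univ : Finset (Finset (Fin r))).filter Finset.Nonempty,
        ∏ a ∈ univ.filter (fun a => bl J a = c), (if f J a = true then cinf2 / 2 else cinf2) =
        ∏ a : {J : Finset (Fin r) // J.Nonempty}, ∏ i ∈ univ.filter (fun i => bl a.1 i = c),
        (if f a.1 i = true then cinf2 / 2 else cinf2) :=
      prod_subtype _ (fun J => by rw [mem_filter, and_iff_right (mem_univ J)]) fun J =>
        ∏ a ∈ univ.filter (fun a => bl J a = c), (if f J a = true then cinf2 / 2 else cinf2)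
    refine (hv c).trans ((le_of_eq h1).trans ?_)
    refine prod_le_prod (fun a _ => prod_nonneg fun i _ => ?_) fun a _ =>
      prod_le_prod (fun i _ => ?_) fun i _ => ?_
    · split_ifs <;> linarith
    · split_ifs <;> linarith
    · by_cases h5 : (z a i).isSome = true
      · rw [if_pos h5, if_pos (hzf a i h5)]
      · rw [if_neg h5]
        split_ifs <;> linarith
  obtain ⟨F, w, hPG, hw, hle⟩ := pgI_atl (sp_phJ r) (OK_off d4_OK P) (nv_off d4_nv P)
    (ρX_zero P) hF z b hz (CclB m P) γ (cinf2_le_half.trans (by norm_num)) (fun a => bl a.1) t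
    hv0 hv'
  refine ⟨F, w, hPG, hw, fun c => (hle c).trans ?_, fun c hEE hγ => (hle c).trans ?_⟩
  · split_ifs <;> norm_num
  have hα : ∀ (a : {J : Finset (Fin r) // J.Nonempty}) (j),
      ∑ q ∈ TT (phJ r) c a, (d4.off P).a q j = (fun j => (CclB m P).A j (γ a)) j := by
    intro a j
    show _ = (CclB m P).A j (γ a)
    rw [← hγ a, map_sum]
    exact sum_congr rfl fun q _ => (CclB m P).ha q j
  by_cases hev : Atl t (fun β => ∀ (a : {J : Finset (Fin r) // J.Nonempty}) (i : A a.1),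
      bl a.1 i = β →
      (nX (d4.off P) (ρX P) (fun i => cX P (x a.1 i)) (fun i => sX P (x a.1 i)) (Pm a) (R a)
        (fun j => (CclB m P).A j (γ a)) i (TT (phJ r) c a) = 1 ∧
        ∀ e, z a i = some e → k2X (d4.off P) (ρX P) (fun i => cX P (x a.1 i))
          (fun i => sX P (x a.1 i)) (Pm a) (R a) (b a) i e (TT (phJ r) c a) = 1))
  · have hQ : Atl t fun β => ∀ J : Finset (Fin r), J.Nonempty → ∀ i, bl J i = β →
        GdX (x J i) (sdJ J fun i => up (c i)) ∧
          (f J i = true → GdX (x J i).inv (sdJ J fun i => up (c i))) := by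
      refine Atl.mono (fun β hβ J hJ i hi => ?_) hev
      have hup : sdJ J (fun i => up (c i)) = up (TT (phJ r) c ⟨J, hJ⟩) := by
        rw [up_TT, TT_phJ]
      rw [hup]
      have hT : TT (phJ r) c ⟨J, hJ⟩ ≠ ∅ := fun h => hEE ⟨_, h⟩
      obtain ⟨h4, h5⟩ := hβ ⟨J, hJ⟩ i hi
      have h6 := kX_mul (D := d4.off P) (ρ := ρX P) (ρX_zero P) (fun i => cX P (x J i))
        (fun i => sX P (x J i)) (Pm ⟨J, hJ⟩) (R ⟨J, hJ⟩)
        (α := fun j => (CclB m P).A j (γ ⟨J, hJ⟩)) i hT (hα ⟨J, hJ⟩)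
      rw [h4, mul_one] at h6
      refine hX ⟨J, hJ⟩ i (TT (phJ r) c ⟨J, hJ⟩) hT (hγ ⟨J, hJ⟩)
        (tX (fun i => cX P (x J i)) (fun i => sX P (x J i)) (Pm ⟨J, hJ⟩) (R ⟨J, hJ⟩)
        (fun j => (CclB m P).A j (γ ⟨J, hJ⟩)) i) (fun h7 => ?_) (fun h7 => ?_) h6 fun e he => ?_
      · by_contra h8
        unfold tX at h7
        rw [if_neg h8] at h7
        exact absurd h7 (by decide)
      · have h8 := (tX_cases (fun i => cX P (x J i)) (fun i => sX P (x J i)) (Pm ⟨J, hJ⟩)
          (R ⟨J, hJ⟩) (fun j => (CclB m P).A j (γ ⟨J, hJ⟩)) i).resolve_right h7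
        refine ⟨h8, fun h9 => ?_⟩
        unfold tX at h7
        exact h7 (if_pos h9)
      · have h7 := h5 e he
        unfold k2X at h7
        exact h7
    rw [if_pos hQ]
    split_ifs <;> norm_num
  · refine (le_of_eq (if_neg hev)).trans ?_
    split_ifs <;> norm_num

end

end Pool.Agent.Lib.MP_1a91b9_ntMQ.G4
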