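import Pool.Agent.Lib.MP_1a91b9_ntMQ.Q0
import Pool.Agent.Lib.MP_1a91b9_ntDV.E8

/-!
G2: the mean values of the maximal unlinked sets
-/

set_option autoImplicit false
set_option linter.unusedSectionVars false

namespace Pool.Agent.Lib.MP_1a91b9_ntMQ

open Finset Pool.Agent.Lib.MP_1a91b9_ntH Pool.Agent.Lib.MP_1a91b9_ntQ
open Pool.Agent.Lib.MP_1a91b9_ntQ.Da Pool.Agent.Lib.MP_1a91b9_ntV Pool.Agent.Lib.MP_1a91b9_ntM
open Pool.Agent.Lib.MP_1a91b9_ntDV

noncomputable section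

variable {L : Type} [Fintype L] [DecidableEq L] {ι : Type} [DecidableEq ι] {κ : Type} [Fintype κ]
  [DecidableEq κ] [PS ι]

omit [DecidableEq ι] [DecidableEq κ] [PS ι] [Fintype L] [DecidableEq L] [Fintype κ] in
private theorem G2_small (δ K B ε : ℝ) (hδ : 0 < δ) (hK : 0 < K) (hB : 1 ≤ B) (hε : 0 < ε) :
    ∃ X₀ : ℕ, ∀ X : ℕ, X₀ ≤ X → K * X * Real.log X ^ (-δ) * B ^ δ ≤ ε * X := by
  have h1 : Filter.Tendsto (fun X : ℕ => Real.log (X : ℝ) ^ (-δ)) Filter.atTop (nhds 0) :=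
    (tendsto_rpow_neg_atTop hδ).comp
      (Real.tendsto_log_atTop.comp tendsto_natCast_atTop_atTop)
  have hP : 0 < K * B ^ δ := mul_pos hK (Real.rpow_pos_of_pos (by linarith) _)
  have h2 : ∀ᶠ X : ℕ in Filter.atTop, Real.log (X : ℝ) ^ (-δ) < ε / (K * B ^ δ) :=
    h1.eventually (gt_mem_nhds (div_pos hε hP))
  obtain ⟨X₀, h3⟩ := Filter.eventually_atTop.1 h2
  refine ⟨X₀, fun X hX => ?_⟩
  have h4 := h3 X hX
  rw [lt_div_iff₀ hP] at h4
  have h5 : K * X * Real.log X ^ (-δ) * B ^ δ = (Real.log (X : ℝ) ^ (-δ) * (K * B ^ δ)) * X := by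
    ring
  rw [h5]
  exact mul_le_mul_of_nonneg_right h4.le (Nat.cast_nonneg X)

omit [DecidableEq ι] [DecidableEq κ] [PS ι] in
private theorem G2_norm (D : Dat2 ι κ) (Phi : L → L → ZMod 2) (n : L → ℝ) (c : L → κ → ZMod 2) (x : L)
    (hx : 0 < n x) (q : ι) : ‖(LS D Phi n c).g x q‖ = n x := by
  show ‖(n x : ℂ) * e2 (D.dg (c x) q)‖ = _
  rw [norm_mul, norm_e2, mul_one, Complex.norm_real, Real.norm_eq_abs, abs_of_pos hx]

/-- **G2** (easy+ .. medium-). The mean values. Proof: this is `LPs_main` (MP_1a91b9_ntDV/E8.lean, PROVED, copy it with its private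
helpers) with `LS D Phi n c`, `n`, `M`, `Us`, `mS` in place of `LPs D k k' c`, `nP k k'`, `MP k k'`, `UsP k k'`, `mP`. The only
property of `UsP` used there besides `sum_nP` (now `hW.sum U hU`) and `2 / MP ≤ nP x` (now `hW.pos x`) is
`(none, none) ∈ U`: now take any `x₀ ∈ U` (`U` is not empty because the sum over `U` is `1 ≠ 0`) and `c₀ = c x₀`. -/
theorem LS_main {Phi : L → L → ZMod 2} {n : L → ℝ} {M : ℕ} {Us : Finset (Finset L)}
    (hW : WS Phi n M Us) {D : Dat2 ι κ} {w : κ → ZMod 2} (hD : OKt D w) (c : L → κ → ZMod 2) :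
    ∀ U ∈ Us, ∀ ε : ℝ, 0 < ε → ∃ X₀ : ℕ, ∀ X : ℕ, X₀ ≤ X →
      ‖∑ S ∈ Sx ι X, ∏ q ∈ S, ∑ x ∈ U, (LS D Phi n c).g x q - mS c U * ((Sx ι X).card : ℂ)‖ ≤
        ε * X := by
  classical
  intro U hU ε hε
  have hsum := hW.sum U hU
  have hM2 : 2 ≤ M := hW.two
  have hm0 : (0 : ℝ) < (M : ℝ) := by
    exact_mod_cast (by omega : 0 < M)
  have hn0 : ∀ x, 0 < n x := fun x => lt_of_lt_of_le (by positivity) (hW.pos x)
  have hg : ∀ q, ∑ x ∈ U, (LS D Phi n c).g x q =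
      ∑ x ∈ U, (n x : ℂ) * e2 (D.dg (c x) q) := fun q => rfl
  by_cases hB : ∃ l ∈ U, ∃ l' ∈ U, c l ≠ c l'
  · obtain ⟨l, hl, l', hl', hll⟩ := hB
    have hmP : mS c U = 0 := if_neg fun h => hll ((h l hl).trans (h l' hl').symm)
    have hne' : l ≠ l' := fun e => hll (by rw [e])
    set c1 : κ → ZMod 2 := c l + c l' with hc
    have hc0 : c1 ≠ 0 := by
      intro h
      apply hll
      funext j
      have := congrFun h j
      have h5 : ∀ x y : ZMod 2, x + y = 0 → x = y := by decide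
      exact h5 _ _ this
    obtain ⟨C, hC⟩ := hD.cb
    obtain ⟨C1, hC1⟩ := hD.an.cheb
    obtain ⟨C2, hC2⟩ := hD.an.zt
    have hCB := SumB.of (hC ∅ c1 (Or.inr hc0))
    obtain ⟨K, hK, hub⟩ := ub2 hC1 hC2 M hM2
    obtain ⟨X₀, hX₀⟩ := G2_small (1 / (M : ℝ)) K
      (C * (1 + Real.log (nm (∅ : Finset ι)))) ε (by positivity) hK hCB.hB hε
    refine ⟨max X₀ 2, fun X hX => ?_⟩
    rw [hmP, zero_mul, sub_zero]
    have hH : ∀ q, ‖∑ x ∈ U, (LS D Phi n c).g x q‖ ≤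
        (((M : ℝ) - 1) + D.ch ∅ c1 q) / (M : ℝ) := by
      intro q
      rw [hg]
      have hns := norm_wsum U n (fun x => (hn0 x).le) (fun x => D.dg (c x) q)
        (a := 2 / (M : ℝ)) (by positivity) hl hl' hne' (hW.pos l) (hW.pos l')
      have hsg : sg (D.dg (c l) q + D.dg (c l') q) = D.ch ∅ c1 q := by
        unfold Dat2.ch
        rw [if_neg (notMem_empty _), ex1_empty, hc, dg_add]
      rw [hsg, hsum] at hns
      refine hns.trans (le_of_eq ?_)
      field_simp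
      ring
    have hH1 : ∀ q, ‖∑ x ∈ U, (LS D Phi n c).g x q‖ ≤ 1 := by
      intro q
      refine (norm_sum_le _ _).trans ?_
      rw [sum_congr rfl fun x _ => G2_norm D Phi n c x (hn0 x) q]
      exact hsum.le
    have h1 : ‖∑ S ∈ Sx ι X, ∏ q ∈ S, ∑ x ∈ U, (LS D Phi n c).g x q‖ ≤
        ∑ S ∈ Sx ι X, ∏ q ∈ S, ‖∑ x ∈ U, (LS D Phi n c).g x q‖ := by
      refine (norm_sum_le _ _).trans (sum_le_sum fun S _ => ?_)
      rw [norm_prod]
    have h2 := hub (D.ch ∅ c1) _ hCB (fun q => ‖∑ x ∈ U, (LS D Phi n c).g x q‖)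
      (fun q => ⟨norm_nonneg _, hH1 q, hH q⟩) X ((le_max_right _ _).trans hX)
    have h3 := hX₀ X ((le_max_left _ _).trans hX)
    exact h1.trans (h2.trans h3)
  · push Not at hB
    obtain ⟨x₀, h0U⟩ : U.Nonempty := by
      rw [nonempty_iff_ne_empty]
      intro h
      rw [h, sum_empty] at hsum
      exact zero_ne_one hsum
    have hgc : ∀ q, ∑ x ∈ U, (LS D Phi n c).g x q = e2 (D.ex1 ∅ (c x₀) q) := by
      intro q
      rw [hg, ex1_empty]
      have h1 : ∀ x ∈ U, (n x : ℂ) * e2 (D.dg (c x) q) =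
          (n x : ℂ) * e2 (D.dg (c x₀) q) := by
        intro x hx
        rw [hB x hx _ h0U]
      rw [sum_congr rfl h1, ← sum_mul, ← Complex.ofReal_sum, hsum, Complex.ofReal_one, one_mul]
    simp only [hgc]
    by_cases h0 : c x₀ = 0
    · have hmP : mS c U = 1 := if_pos fun x hx => (hB x hx _ h0U).trans h0
      refine ⟨0, fun X _ => ?_⟩
      simp only [h0, ex1_empty, dg_zero, e2_zero, prod_const_one, sum_const, nsmul_eq_mul,
        mul_one, hmP, one_mul, sub_self, norm_zero]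
      positivity
    · have hmP : mS c U = 0 := if_neg fun h => h0 (h _ h0U)
      obtain ⟨X₀, hX₀⟩ := hD.mz (c x₀) h0 ε hε
      refine ⟨X₀, fun X hX => ?_⟩
      have h1 := hX₀ X hX
      rw [filter_true_of_mem fun S _ => disjoint_empty_right S] at h1
      rw [hmP, zero_mul, sub_zero]
      exact h1

end

end Pool.Agent.Lib.MP_1a91b9_ntMQ
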