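import Pool.Agent.Lib.MP_1a91b9_ntMQ.G1
import Pool.Agent.Lib.MP_1a91b9_ntMQ.G2

/-!
G3: the hypotheses of the engine
-/

set_option autoImplicit false
set_option linter.unusedSectionVars false

namespace Pool.Agent.Lib.MP_1a91b9_ntMQ

open Finset Pool.Agent.Lib.MP_1a91b9_ntH Pool.Agent.Lib.MP_1a91b9_ntQ
open Pool.Agent.Lib.MP_1a91b9_ntQ.Da Pool.Agent.Lib.MP_1a91b9_ntV Pool.Agent.Lib.MP_1a91b9_ntM
open Pool.Agent.Lib.MP_1a91b9_ntDV

noncomputable section

variable {L : Type} [Fintype L] [DecidableEq L] {ι : Type} [DecidableEq ι] {κ : Type} [Fintype κ]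
  [DecidableEq κ] [PS ι]

/-- **G3** (easy+). Proof: as `LPs_OK` (MP_1a91b9_ntDV/EA.lean). `diag`: `Phi1_self`; `os`: `Phi1_os`; `‖g x q‖ = n x` (`norm_e2`,
`n x > 0`); `nrm`: `{x}` is unlinked (`hW.self x`), so either `{x} ∈ Us` and `n x = 1` (`hW.sum`) or `n x ≤ 1 - 1 / M ≤ 1`
(`hW.small`); `unl`: `Phi1_lk` and `hW.unl`; `er`: if `U.erase l ∈ Us` then both `∑ x ∈ U, n x = 1` and
`∑ x ∈ U.erase l, n x = 1`, so `n l = 0` (`Finset.add_sum_erase`), against `hW.pos`; `small`: `B = 1`, `ψ = 0` (`SumB.zero`) and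
`hW.small` (`(M - 1) / M = 1 - 1 / M`); `mid`, `main`: `LS_mid`, `LS_main`. -/
theorem LS_OK {Phi : L → L → ZMod 2} {n : L → ℝ} {M : ℕ} {Us : Finset (Finset L)}
    (hW : WS Phi n M Us) {D : Dat2 ι κ} {w : κ → ZMod 2} (hD : OKt D w) (c : L → κ → ZMod 2) :
    (LS D Phi n c).OK D M Us (mS c) fun X => ((Sx ι X).card : ℂ) := by
  have hM : (0 : ℝ) < (M : ℝ) := by
    have := hW.two
    positivity
  have hpos : ∀ x, 0 < n x := fun x => lt_of_lt_of_le (by positivity) (hW.pos x)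
  have hnorm : ∀ x q, ‖(LS D Phi n c).g x q‖ = n x := by
    intro x q
    show ‖(n x : ℂ) * e2 (D.dg (c x) q)‖ = _
    rw [norm_mul, norm_e2, mul_one, Complex.norm_real, Real.norm_eq_abs, abs_of_pos (hpos x)]
  have hlk : ∀ x y, (LS D Phi n c).lk x y = Phi x y + Phi y x := fun x y => Phi1_lk Phi x y
  refine ⟨fun l => Phi1_self _ l, fun l m => Phi1_os _ l m, ?_, hW.two, ?_, ?_, ?_, LS_mid hW hD c, LS_main hW hD c⟩
  · intro x q
    rw [hnorm]
    by_cases hx : ({x} : Finset L) ∈ Us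
    · have h1 := hW.sum _ hx
      rw [sum_singleton] at h1
      exact h1.le
    · have h1 := hW.small {x} (fun a ha b hb => by
        rw [mem_singleton] at ha hb
        rw [ha, hb, hW.self, add_zero]) hx
      rw [sum_singleton] at h1
      have h2 : (0 : ℝ) < 1 / (M : ℝ) := by positivity
      linarith
  · intro U hU x hx y hy
    rw [hlk]
    exact hW.unl U hU x hx y hy
  · intro U hU l hl h
    have h1 := hW.sum U hU
    have h2 := hW.sum _ h
    have h3 := add_sum_erase U n hl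
    have h4 := hpos l
    linarith
  · refine ⟨1, fun Z hZ hZ2 => ⟨fun _ => 0, SumB.zero, fun q => ?_⟩⟩
    have h1 := hW.small Z (fun x hx y hy => by
      have := hZ x hx y hy
      rwa [hlk] at this) hZ2
    have e1 : ∑ l ∈ Z, ‖(LS D Phi n c).g l q‖ = ∑ l ∈ Z, n l := sum_congr rfl fun x _ => hnorm x q
    rw [e1]
    constructor
    · refine h1.trans ?_
      have : 0 ≤ 1 / (M : ℝ) := by positivity
      linarith
    · refine h1.trans (le_of_eq ?_)
      rw [add_zero]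
      field_simp

end

end Pool.Agent.Lib.MP_1a91b9_ntMQ
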