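import Pool.Agent.Lib.MP_1a91b9_ntMQ.K0

/-!
K6: the sum of the weights over the layers
-/

set_option autoImplicit false
set_option linter.unusedSectionVars false

namespace Pool.Agent.Lib.MP_1a91b9_ntMQ

open Finset Pool.Agent.Lib.MP_1a91b9_ntH Pool.Agent.Lib.MP_1a91b9_ntQ
open Pool.Agent.Lib.MP_1a91b9_ntQ.Da Pool.Agent.Lib.MP_1a91b9_ntV Pool.Agent.Lib.MP_1a91b9_ntM
open Pool.Agent.Lib.MP_1a91b9_ntDV

noncomputable section

variable {I A : Type} [Fintype I] [DecidableEq I] [Fintype A] [DecidableEq A] {k : A → ℕ}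
  {phi : A → I → ZMod 2}

/-- The layer of the colour `w`. -/
def lay (Z : Finset (Lb phi k)) (w : I → ZMod 2) : Finset (LabP k) :=
  (Z.filter fun z => z.1.1 = w).image fun z => z.1.2

/-- **K6a** (easy). Proof: `mem_image`, `mem_filter`. -/
theorem mem_lay {Z : Finset (Lb phi k)} {w : I → ZMod 2} {x : LabP k} :
    x ∈ lay Z w ↔ ∃ z ∈ Z, z.1.1 = w ∧ z.1.2 = x := by
  unfold lay
  rw [mem_image]
  constructor
  · rintro ⟨z, hz, h⟩
    rw [mem_filter] at hz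
    exact ⟨z, hz.1, hz.2, h⟩
  · rintro ⟨z, hz, h1, h2⟩
    exact ⟨z, mem_filter.2 ⟨hz, h1⟩, h2⟩

/-- **K6b** (easy). Proof: the condition of the subtype `Lb`. -/
theorem lay_sup {Z : Finset (Lb phi k)} {w : I → ZMod 2} {x : LabP k} (hx : x ∈ lay Z w) :
    Sup (fun a => phi a ⬝ᵥ w) x := by
  obtain ⟨z, -, h1, h2⟩ := mem_lay.1 hx
  subst h1
  subst h2
  exact fun a ha => z.2 a ha

private theorem K6_nL (z : Lb phi k) : (2 : ℝ) ^ (Fintype.card I + ∑ a, k a) * nL z =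
    ((∏ a, if phi a ⬝ᵥ z.1.1 = 1 then 1 else 2 ^ k a : ℕ) : ℝ) := by
  have h1 : ((2 : ℝ) ^ (∑ a, k a)) = ∏ a, (2 : ℝ) ^ k a := (prod_pow_eq_pow_sum univ k (2 : ℝ)).symm
  have h2 : (2 : ℝ) ^ Fintype.card I * ((2 : ℝ) ^ Fintype.card I)⁻¹ = 1 := mul_inv_cancel₀ (by positivity)
  unfold nL
  rw [pow_add, h1]
  calc (2 : ℝ) ^ Fintype.card I * (∏ a, (2 : ℝ) ^ k a) *
      (((2 : ℝ) ^ Fintype.card I)⁻¹ * ∏ a, if phi a ⬝ᵥ z.1.1 = 1 then ((2 : ℝ) ^ k a)⁻¹ else 1) =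
      ((2 : ℝ) ^ Fintype.card I * ((2 : ℝ) ^ Fintype.card I)⁻¹) * ((∏ a, (2 : ℝ) ^ k a) *
        ∏ a, if phi a ⬝ᵥ z.1.1 = 1 then ((2 : ℝ) ^ k a)⁻¹ else 1) := by ring
    _ = ((∏ a, if phi a ⬝ᵥ z.1.1 = 1 then 1 else 2 ^ k a : ℕ) : ℝ) := by
      rw [h2, one_mul, ← prod_mul_distrib]
      push_cast
      refine prod_congr rfl fun a _ => ?_
      split_ifs
      · exact mul_inv_cancel₀ (by positivity)
      · rw [mul_one]

private theorem K6_card (Z : Finset (Lb phi k)) (w : I → ZMod 2) :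
    (lay Z w).card = (Z.filter fun z => z.1.1 = w).card := by
  unfold lay
  refine card_image_of_injOn fun z hz y hy h => ?_
  have hz' := (mem_filter.1 (mem_coe.1 hz)).2
  have hy' := (mem_filter.1 (mem_coe.1 hy)).2
  exact Subtype.ext (Prod.ext (hz'.trans hy'.symm) h)

/-- **K6c** (medium-). The sum of the weights, times `2 ^ (#I + ∑ k)`. Proof: `Finset.sum_fiberwise` by the colour `w`; for `z` of the colour
`w` one has `2 ^ (#I + ∑ k) * nL z = ∏ a, if phi a ⬝ᵥ w = 1 then 1 else 2 ^ k a` (`2 ^ ∑ k = ∏ 2 ^ k a`, `prod_mul_distrib`; the value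
`phi a ⬝ᵥ w` is `0` or `1`), and `z ↦ z.1.2` is injective on the labels of the colour `w` (`card_image_of_injOn`). -/
theorem sum_lay (Z : Finset (Lb phi k)) :
    (2 : ℝ) ^ (Fintype.card I + ∑ a, k a) * ∑ z ∈ Z, nL z =
      ((∑ w, (lay Z w).card * ∏ a, if phi a ⬝ᵥ w = 1 then 1 else 2 ^ k a : ℕ) : ℝ) := by
  rw [mul_sum, sum_congr rfl fun z _ => K6_nL z, ← sum_fiberwise Z (fun z : Lb phi k => z.1.1)]
  push_cast
  refine sum_congr rfl fun w _ => ?_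
  rw [K6_card, card_eq_sum_ones]
  push_cast
  rw [sum_mul]
  refine sum_congr rfl fun z hz => ?_
  rw [(mem_filter.1 hz).2, one_mul]

/-- **K6d** (easy+). The sum over all colours of the bounds. Proof: `(∏ a, if phi a ⬝ᵥ w = 1 then 2 ^ k a else 1) * ∏ a, if .. then 1 else
2 ^ k a = ∏ a, 2 ^ k a = 2 ^ ∑ k` for every `w`, and there are `2 ^ #I` colours. -/
theorem sum_bd : ∑ w : I → ZMod 2, (∏ a, if phi a ⬝ᵥ w = 1 then 2 ^ k a else 1) *
    (∏ a, if phi a ⬝ᵥ w = 1 then 1 else 2 ^ k a) = 2 ^ (Fintype.card I + ∑ a, k a) := by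
  have h1 : ∀ w : I → ZMod 2, (∏ a, if phi a ⬝ᵥ w = 1 then 2 ^ k a else 1) *
      (∏ a, if phi a ⬝ᵥ w = 1 then 1 else 2 ^ k a) = 2 ^ ∑ a, k a := by
    intro w
    rw [← prod_mul_distrib, ← prod_pow_eq_pow_sum]
    refine prod_congr rfl fun a _ => ?_
    split_ifs
    · rw [mul_one]
    · rw [one_mul]
  rw [sum_congr rfl fun w _ => h1 w, sum_const, card_univ, Fintype.card_fun, ZMod.card, smul_eq_mul, pow_add]

end

end Pool.Agent.Lib.MP_1a91b9_ntMQ
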