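import Pool.Agent.Lib.MP_1a91b9_ntMQ.K5
import Pool.Agent.Lib.MP_1a91b9_ntMQ.K6

/-!
K7: the weights of the unlinked sets
-/

set_option autoImplicit false
set_option linter.unusedSectionVars false

namespace Pool.Agent.Lib.MP_1a91b9_ntMQ

open Finset Pool.Agent.Lib.MP_1a91b9_ntH Pool.Agent.Lib.MP_1a91b9_ntQ
open Pool.Agent.Lib.MP_1a91b9_ntQ.Da Pool.Agent.Lib.MP_1a91b9_ntV Pool.Agent.Lib.MP_1a91b9_ntM
open Pool.Agent.Lib.MP_1a91b9_ntDV

noncomputable section

variable {I A : Type} [Fintype I] [DecidableEq I] [Fintype A] [DecidableEq A] {k : A → ℕ}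
  {phi : A → I → ZMod 2}

private theorem K7_ne {x : ZMod 2} (h : ¬ x = 1) : x = 0 := (z2 x).resolve_right h

private theorem K7_lay {V : ∀ a, Finset (Lab2 (k a))} (w : I → ZMod 2) (x : LabP k) :
    x ∈ lay (UL phi k V) w ↔ ∀ a, x a ∈ if phi a ⬝ᵥ w = 1 then V a else {0} := by
  rw [mem_lay]
  constructor
  · rintro ⟨z, hz, rfl, rfl⟩ a
    by_cases h : phi a ⬝ᵥ z.1.1 = 1
    · rw [if_pos h]
      exact mem_UL.1 hz a h
    · rw [if_neg h, mem_singleton]
      exact z.2 a (K7_ne h)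
  · intro h
    refine ⟨⟨(w, x), fun a ha => ?_⟩, mem_UL.2 fun a ha => ?_, rfl, rfl⟩
    · have h1 := h a
      have ha' : phi a ⬝ᵥ w = 0 := ha
      have h2 : ¬ phi a ⬝ᵥ w = 1 := by
        rw [ha']
        exact zero_ne_one
      rw [if_neg h2, mem_singleton] at h1
      exact h1
    · have h1 := h a
      have ha' : phi a ⬝ᵥ w = 1 := ha
      rw [if_pos ha'] at h1
      exact h1

private theorem K7_card {V : ∀ a, Finset (Lab2 (k a))} (hV : ∀ a, V a ∈ UsN (k a)) (w : I → ZMod 2) :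
    (lay (UL phi k V) w).card = ∏ a, if phi a ⬝ᵥ w = 1 then 2 ^ k a else 1 := by
  have h : lay (UL phi k V) w = Fintype.piFinset fun a => if phi a ⬝ᵥ w = 1 then V a else {0} := by
    ext x
    rw [Fintype.mem_piFinset]
    exact K7_lay w x
  rw [h, Fintype.card_piFinset]
  refine prod_congr rfl fun a _ => ?_
  split_ifs
  · exact (mem_UsN.1 (hV a)).2
  · exact card_singleton _

/-- **K7a** (medium-). The weights of a maximal set have the sum `1`. Proof: for every colour `w` the layer of `UL phi k V` is the set of the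
`x` with `Sup _ x` and `x a ∈ V a` on the support, which has `∏ a, if phi a ⬝ᵥ w = 1 then 2 ^ k a else 1` elements (bijection with
`Fintype.piFinset fun a => if phi a ⬝ᵥ w = 1 then V a else {0}`, `Fintype.card_piFinset`, `mem_UsN`). Then `sum_lay`, `sum_bd`
(cast), and divide by `2 ^ (#I + ∑ k)`. -/
theorem sum_nL {V : ∀ a, Finset (Lab2 (k a))} (hV : ∀ a, V a ∈ UsN (k a)) :
    ∑ z ∈ UL phi k V, nL z = 1 := by
  have h1 := sum_lay (UL phi k V)
  have h2 : ∑ w, (lay (UL phi k V) w).card * ∏ a, (if phi a ⬝ᵥ w = 1 then 1 else 2 ^ k a) =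
      2 ^ (Fintype.card I + ∑ a, k a) := by
    rw [← sum_bd (phi := phi) (k := k)]
    exact sum_congr rfl fun w _ => by rw [K7_card hV]
  rw [h2] at h1
  push_cast at h1
  have h3 : (2 : ℝ) ^ (Fintype.card I + ∑ a, k a) ≠ 0 := by positivity
  exact mul_left_cancel₀ h3 (h1.trans (mul_one _).symm)

/-- **K7b** (medium). An unlinked set which is not in `UsL` has a smaller sum. Proof: let `N = 2 ^ (#I + ∑ k)`. For every colour `w` the layer
`lay Z w` satisfies the hypotheses of `K1f` for `f = fun a => phi a ⬝ᵥ w` (`lay_sup`; the links of two labels of the colour `w` are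
`∑ a, f a * f a * Q2 = Qf f (x - y)`, `hZ`), so its number of elements is at most `∏ a, if f a = 1 then 2 ^ k a else 1`. By
`sum_lay` and `sum_bd`: `N * ∑ nL ≤ N`, and `N * ∑ nL` is a natural number. If it is `< N` it is `≤ N - 1`, so
`∑ nL ≤ 1 - 1 / N ≤ 1 - 1 / ML I k` (`ML = 2 N`). If it is `N`, all the layers have the maximal number of elements
(`Finset.sum_lt_sum` for a contradiction; the second factors are positive), so `Fam phi (lay Z)` (the cross condition is `hZ`),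
`Fam.prod` gives `V` and `Z = UL phi k V ∈ UsL` (`mem_lay`; `z ∈ Z` iff `z.1.2 ∈ lay Z z.1.1` because `z` is the only label with these two
components): a contradiction. -/
theorem sum_nL_le (hs : Sp phi) {Z : Finset (Lb phi k)}
    (hZ : ∀ z ∈ Z, ∀ y ∈ Z, QL phi k z y = 0) (hn : Z ∉ UsL phi k) :
    ∑ z ∈ Z, nL z ≤ 1 - 1 / (ML I k : ℝ) := by
  have hcr : ∀ w w', ∀ x ∈ lay Z w, ∀ y ∈ lay Z w',
      ∑ a, (phi a ⬝ᵥ w) * (phi a ⬝ᵥ w') * Q2 (x a - y a) = 0 := by
    intro w w' x hx y hy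
    obtain ⟨z, hz, rfl, rfl⟩ := mem_lay.1 hx
    obtain ⟨z', hz', rfl, rfl⟩ := mem_lay.1 hy
    exact hZ z hz z' hz'
  have hun : ∀ w, ∀ x ∈ lay Z w, ∀ y ∈ lay Z w, Qf (fun a => phi a ⬝ᵥ w) (x - y) = 0 := by
    intro w x hx y hy
    rw [← hcr w w x hx y hy]
    unfold Qf
    refine sum_congr rfl fun a _ => ?_
    show (phi a ⬝ᵥ w) * Q2 (x a - y a) = _
    rcases z2 (phi a ⬝ᵥ w) with h | h
    · rw [h, zero_mul, zero_mul, zero_mul]
    · rw [h, one_mul, one_mul, one_mul]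
  have h1 : ∀ w, (lay Z w).card ≤ ∏ a, if phi a ⬝ᵥ w = 1 then 2 ^ k a else 1 := fun w =>
    K1f (f := fun a => phi a ⬝ᵥ w) (fun x hx => lay_sup hx) (hun w)
  have hD : ∀ w : I → ZMod 2, 0 < ∏ a, (if phi a ⬝ᵥ w = 1 then 1 else 2 ^ k a) := fun w =>
    prod_pos fun a _ => by
      split_ifs
      · exact one_pos
      · positivity
  have h2 : ∀ w ∈ (univ : Finset (I → ZMod 2)), (lay Z w).card * ∏ a, (if phi a ⬝ᵥ w = 1 then 1 else 2 ^ k a) ≤
      (∏ a, if phi a ⬝ᵥ w = 1 then 2 ^ k a else 1) * ∏ a, (if phi a ⬝ᵥ w = 1 then 1 else 2 ^ k a) := fun w _ =>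
    Nat.mul_le_mul_right _ (h1 w)
  have h3 := sum_le_sum h2
  have h4 := sum_lay Z
  rw [sum_bd] at h3
  rcases Nat.lt_or_eq_of_le h3 with h5 | h5
  · have h6 : ((∑ w, (lay Z w).card * ∏ a, (if phi a ⬝ᵥ w = 1 then 1 else 2 ^ k a) : ℕ) : ℝ) ≤
        (2 : ℝ) ^ (Fintype.card I + ∑ a, k a) - 1 := by
      have h7 : (∑ w, (lay Z w).card * ∏ a, (if phi a ⬝ᵥ w = 1 then 1 else 2 ^ k a)) + 1 ≤
          2 ^ (Fintype.card I + ∑ a, k a) := h5
      have h8 : (((∑ w, (lay Z w).card * ∏ a, (if phi a ⬝ᵥ w = 1 then 1 else 2 ^ k a)) + 1 : ℕ) : ℝ) ≤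
          ((2 ^ (Fintype.card I + ∑ a, k a) : ℕ) : ℝ) := Nat.cast_le.2 h7
      rw [Nat.cast_add, Nat.cast_one, Nat.cast_pow, Nat.cast_ofNat] at h8
      linarith
    rw [← h4] at h6
    have h7 : (0 : ℝ) < 2 ^ (Fintype.card I + ∑ a, k a) := by positivity
    have h8 : (ML I k : ℝ) = 2 * 2 ^ (Fintype.card I + ∑ a, k a) := by
      unfold ML
      push_cast
      ring
    rw [h8]
    have h9 : (1 : ℝ) / (2 * 2 ^ (Fintype.card I + ∑ a, k a)) ≤ 1 / 2 ^ (Fintype.card I + ∑ a, k a) :=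
      one_div_le_one_div_of_le h7 (by linarith)
    have h10 : ∑ z ∈ Z, nL z ≤ 1 - 1 / 2 ^ (Fintype.card I + ∑ a, k a) := by
      rw [le_sub_iff_add_le, ← mul_le_mul_iff_right₀ h7, mul_add, mul_one_div_cancel h7.ne', mul_one]
      linarith
    linarith
  · exfalso
    rw [← sum_bd (phi := phi) (k := k)] at h5
    have h6 := (sum_eq_sum_iff_of_le h2).1 h5
    have h7 : ∀ w, (lay Z w).card = ∏ a, if phi a ⬝ᵥ w = 1 then 2 ^ k a else 1 := fun w =>
      Nat.eq_of_mul_eq_mul_right (hD w) (h6 w (mem_univ w))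
    have h8 : Fam phi (lay Z) :=
      ⟨fun w => ⟨fun x hx => lay_sup hx, hun w, h7 w⟩, hcr⟩
    obtain ⟨V, hV, hp⟩ := h8.prod hs
    refine hn (mem_UsL.2 ⟨V, hV, ?_⟩)
    ext z
    rw [mem_UL]
    constructor
    · intro h
      have h9 : z.1.2 ∈ lay Z z.1.1 := (hp z.1.1 z.1.2).2 ⟨fun a ha => z.2 a ha, h⟩
      obtain ⟨z', hz', e1, e2⟩ := mem_lay.1 h9
      have h10 : z' = z := Subtype.ext (Prod.ext e1 e2)
      rw [← h10]
      exact hz'
    · intro h
      exact ((hp z.1.1 z.1.2).1 (mem_lay.2 ⟨z, h, rfl, rfl⟩)).2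

/-- **K7c** (easy+). Two labels with different links. Proof: `mem_UsL`: `U = UL phi k V`. `z ∉ U`: there is `a` with `phi a ⬝ᵥ z.1.1 = 1` and
`z.1.2 a ∉ V a`. By `K2` (contraposition, MP_1a91b9_ntQ; as in `exists_two`, MP_1a91b9_ntDV/E6.lean) there are `l, l' ∈ V a`
with `Q2 (l - z.1.2 a) ≠ Q2 (l' - z.1.2 a)`. Choose `v b ∈ V b` for all `b` (the sets are not empty: `2 ^ k b` elements) and let
`x = mk phi k z.1.1 (Function.update v a l)`, `x'` the same with `l'` (`mk` replaces the components outside of the support by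
zero; on the support the factor is `1`). The terms of `QL` at `b ≠ a` are equal. -/
theorem exists_ne {U : Finset (Lb phi k)} (hU : U ∈ UsL phi k) {z : Lb phi k} (hz : z ∉ U) :
    ∃ x ∈ U, ∃ x' ∈ U, QL phi k x z ≠ QL phi k x' z := by
  obtain ⟨V, hV, rfl⟩ := mem_UsL.1 hU
  have h1 : ∃ a, phi a ⬝ᵥ z.1.1 = 1 ∧ z.1.2 a ∉ V a := by
    by_contra hcon
    push Not at hcon
    exact hz (mem_UL.2 hcon)
  obtain ⟨a, ha, hza⟩ := h1
  have hne : ∀ b, (V b).Nonempty := fun b => by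
    rw [← card_pos, (mem_UsN.1 (hV b)).2]
    positivity
  choose v hv using hne
  have h2 : ∃ l ∈ V a, ∃ l' ∈ V a, Q2 (l - z.1.2 a) ≠ Q2 (l' - z.1.2 a) := by
    by_contra hcon
    push Not at hcon
    exact hza (K2 (mem_UsN.1 (hV a)).1 (mem_UsN.1 (hV a)).2 (Q2 (v a - z.1.2 a))
      fun l hl => hcon l hl (v a) (hv a))
  obtain ⟨l, hl, l', hl', hll⟩ := h2
  have hm : ∀ l ∈ V a, mk phi k z.1.1 (Function.update v a l) ∈ UL phi k V := by
    intro l hl
    refine mem_UL.2 fun b hb => ?_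
    have hb' : phi b ⬝ᵥ z.1.1 = 1 := hb
    show (phi b ⬝ᵥ z.1.1) • Function.update v a l b ∈ V b
    rw [hb', one_smul]
    by_cases hba : b = a
    · subst hba
      rw [Function.update_self]
      exact hl
    · rw [Function.update_of_ne hba]
      exact hv b
  have hq : ∀ l, QL phi k (mk phi k z.1.1 (Function.update v a l)) z =
      Q2 (l - z.1.2 a) + ∑ b ∈ univ.erase a, (phi b ⬝ᵥ z.1.1) * (phi b ⬝ᵥ z.1.1) *
        Q2 ((phi b ⬝ᵥ z.1.1) • v b - z.1.2 b) := by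
    intro l
    unfold QL
    rw [← add_sum_erase univ _ (mem_univ a)]
    refine congrArg₂ (· + ·) ?_ (sum_congr rfl fun b hb => ?_)
    · show (phi a ⬝ᵥ z.1.1) * (phi a ⬝ᵥ z.1.1) *
        Q2 ((phi a ⬝ᵥ z.1.1) • Function.update v a l a - z.1.2 a) = _
      rw [ha, one_mul, one_mul, one_smul, Function.update_self]
    · show (phi b ⬝ᵥ z.1.1) * (phi b ⬝ᵥ z.1.1) *
        Q2 ((phi b ⬝ᵥ z.1.1) • Function.update v a l b - z.1.2 b) = _
      rw [Function.update_of_ne (ne_of_mem_erase hb)]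
  refine ⟨_, hm l hl, _, hm l' hl', ?_⟩
  rw [hq, hq]
  exact fun h => hll (add_right_cancel h)

private theorem K7_WS (hs : Sp phi) : WS (PL phi k) nL (ML I k) (UsL phi k) where
  self := PL_self
  pos := fun x => by
    have h1 : (2 : ℝ) / (ML I k : ℝ) = ((2 : ℝ) ^ Fintype.card I)⁻¹ * ∏ a, ((2 : ℝ) ^ k a)⁻¹ := by
      unfold ML
      push_cast
      rw [prod_inv_distrib, prod_pow_eq_pow_sum, pow_add, pow_add, pow_one, ← mul_inv, div_eq_mul_inv, mul_inv,
        mul_comm, mul_assoc, inv_mul_cancel₀ two_ne_zero, mul_one]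
    rw [h1]
    unfold nL
    refine mul_le_mul_of_nonneg_left (prod_le_prod (fun a _ => by positivity) fun a _ => ?_) (by positivity)
    split_ifs
    · exact le_rfl
    · exact inv_le_one_of_one_le₀ (one_le_pow₀ one_le_two)
  two := by
    unfold ML
    rw [pow_succ]
    have h : 0 < 2 ^ (Fintype.card I + ∑ a, k a) := by positivity
    omega
  unl := fun U hU x hx y hy => by
    rw [PL_lk]
    obtain ⟨V, hV, rfl⟩ := mem_UsL.1 hU
    unfold QL
    refine sum_eq_zero fun a _ => ?_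
    rcases z2 (phi a ⬝ᵥ x.1.1) with h1 | h1
    · rw [h1, zero_mul, zero_mul]
    · rcases z2 (phi a ⬝ᵥ y.1.1) with h2 | h2
      · rw [h2, mul_zero, zero_mul]
      · rw [(mem_UsN.1 (hV a)).1 _ (mem_UL.1 hx a h1) _ (mem_UL.1 hy a h2), mul_zero]
  sum := fun U hU => by
    obtain ⟨V, hV, rfl⟩ := mem_UsL.1 hU
    exact sum_nL hV
  small := fun Z hZ hn => sum_nL_le hs (fun z hz y hy => by
    rw [← PL_lk]
    exact hZ z hz y hy) hn
  ex := fun U hU m hm => by
    obtain ⟨x, hx, x', hx', h⟩ := exists_ne hU hm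
    refine ⟨x, hx, x', hx', ?_⟩
    rw [PL_lk, PL_lk]
    exact h

/-- **K7d** (easy+). The label system of the families satisfies the hypotheses. Proof: `self`: `PL_self`; `pos`:
`nL z ≥ (2 ^ #I)⁻¹ * ∏ (2 ^ k a)⁻¹ = 2 / ML I k`; `two`: `2 ≤ 2 ^ (n + 1)`; `unl`: `PL_lk`, `mem_UsL`: every term of `QL` is zero (if
both factors are `1` the components are in `V a`, which is `Unl2`); `sum`: `sum_nL`; `small`: `sum_nL_le`; `ex`: `exists_ne`. -/
theorem WS_L (hs : Sp phi) : WS (PL phi k) nL (ML I k) (UsL phi k) := by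
  exact K7_WS hs

end

end Pool.Agent.Lib.MP_1a91b9_ntMQ
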