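import Pool.Agent.Lib.MP_1a91b9_ntMQ.A4
import Pool.Agent.Lib.MP_1a91b9_ntMQ.G3
import Pool.Agent.Lib.MP_1a91b9_ntMQ.K7
import Pool.Agent.Lib.MP_1a91b9_ntDV.E3
import Pool.Agent.Lib.MP_1a91b9_ntDV.E4

/-!
A5: the first moment
-/

set_option autoImplicit false
set_option linter.unusedSectionVars false

namespace Pool.Agent.Lib.MP_1a91b9_ntMQ

open Finset Pool.Agent.Lib.MP_1a91b9_ntH Pool.Agent.Lib.MP_1a91b9_ntQ
open Pool.Agent.Lib.MP_1a91b9_ntQ.Da Pool.Agent.Lib.MP_1a91b9_ntV Pool.Agent.Lib.MP_1a91b9_ntM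
open Pool.Agent.Lib.MP_1a91b9_ntDV

noncomputable section

variable {I A : Type} [Fintype I] [DecidableEq I] [Fintype A] [DecidableEq A] {k : A → ℕ}
  {phi : A → I → ZMod 2} {ι : Type} [DecidableEq ι] {κ : Type} [Fintype κ] [DecidableEq κ]

/-- **A5a** (easy+). The exponents are zero on a maximal set. Proof: `mem_UsL`, `mem_UL`; in the term of `a` either a factor `phi a ⬝ᵥ w` is zero
or both components are in `V a`, which is `Unl2`, and `Phi1 PhiQ l m = 0` as in `Po_unl` (MP_1a91b9_ntDV/EA.lean). -/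
theorem PL_unl {U : Finset (Lb phi k)} (hU : U ∈ UsL phi k) : ∀ z ∈ U, ∀ y ∈ U, PL phi k z y = 0 := by
  obtain ⟨V, hV, rfl⟩ := mem_UsL.1 hU
  intro z hz y hy
  rw [mem_UL] at hz hy
  unfold PL
  refine sum_eq_zero fun a _ => ?_
  by_cases h1 : phi a ⬝ᵥ z.1.1 = 0
  · rw [h1, zero_mul, zero_mul]
  by_cases h2 : phi a ⬝ᵥ y.1.1 = 0
  · rw [h2, mul_zero, zero_mul]
  have h3 : Phi1 PhiQ (z.1.2 a) (y.1.2 a) = 0 := by
    unfold Phi1
    rw [PhiQ_add, (mem_UsN.1 (hV a)).1 _ (hz a (z2_ne h1)) _ (hy a (z2_ne h2))]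
    split_ifs <;> rfl
  rw [h3, mul_zero]

/-- **A5b** (easy+). After the reciprocity law. Proof: `avI_FB`, `BF_one D tw (PL phi k) PL_self` (MP_1a91b9_ntDV/E3.lean), and
`(nL z) * e2 (D.dg (cz cc b z) q) * e2 (ce z * D.dg w q) = (LS ..).g z q` (`dg_add`, `dg_smul`, `e2_add`). -/
theorem avI_LS (D : Dat2 ι κ) {w : κ → ZMod 2}
    (tw : ∀ p q, p ≠ q → D.s p q + D.s q p = D.dg w p * D.dg w q)
    (cc : ∀ a, Lab2 (k a) → κ → ZMod 2) (b : I → κ → ZMod 2) (S : Finset ι) :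
    avI (FB D phi k cc b) S = ∑ ce : Lb phi k → ZMod 2, Fh (PL phi k) ce * ∑ f : S → Lb phi k,
      (∏ j : S, (LS D (PL phi k) nL (fun z => cz cc b z + ce z • w)).g (f j) j) *
        e2 (∑ j : S, ∑ l : S, (LS D (PL phi k) nL (fun z => cz cc b z + ce z • w)).Phi (f j) (f l) *
          D.s j l) := by
  rw [avI_FB]
  refine (BF_one D tw (PL phi k) PL_self _ S).trans (sum_congr rfl fun ce _ => ?_)
  congr 1
  unfold BF
  refine sum_congr rfl fun f _ => ?_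
  congr 1
  refine prod_congr rfl fun j _ => ?_
  show (nL (f j) : ℂ) * e2 (D.dg (cz cc b (f j)) j) * e2 (ce (f j) * D.dg w j) =
    (nL (f j) : ℂ) * e2 (D.dg (cz cc b (f j) + ce (f j) • w) j)
  rw [dg_add, dg_smul, e2_add]
  ring

omit [DecidableEq ι] in
private theorem A5_sum (w : κ → ZMod 2) (cc : ∀ a, Lab2 (k a) → κ → ZMod 2) (b : I → κ → ZMod 2) :
    ∑ ce : Lb phi k → ZMod 2, Fh (PL phi k) ce *
      ∑ U ∈ UsL phi k, mS (fun z => cz cc b z + ce z • w) U = vQ phi k cc b := by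
  classical
  simp only [mul_sum]
  rw [sum_comm]
  unfold vQ
  refine sum_congr rfl fun U hU => ?_
  refine Eq.trans (sum_congr rfl fun ce _ => ?_)
    (sum_Fh (PL phi k) U (PL_unl hU) w fun z => cz cc b z)
  refine congrArg (fun t => Fh (PL phi k) ce * t) ?_
  by_cases h : ∀ x ∈ U, cz cc b x + ce x • w = 0
  · rw [if_pos h]
    exact if_pos h
  · rw [if_neg h]
    exact if_neg h

variable [PS ι]

/-- **A5c** (medium-). THE FIRST MOMENT. Proof: `avI_LS`, exchange the sums over `S` and `ce`, `engineG D hD.an _ (LS_OK (WS_L hs) hD _)` for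
every `ce` with `ε / (1 + ∑ ce, ‖Fh (PL phi k) ce‖)`, the triangle inequality as in `pair_mean` (MP_1a91b9_ntDV/EA.lean); the value
`∑ ce, Fh (PL phi k) ce * ∑ U ∈ UsL phi k, mS (fun z => cz cc b z + ce z • w) U` is `vQ phi k cc b`: exchange the sums and
`sum_Fh (PL phi k) U (PL_unl hU) w (cz cc b)` (MP_1a91b9_ntDV/E4.lean), as in `sum_mP`. -/
theorem MVI_FB (hs : Sp phi) {D : Dat2 ι κ} {w : κ → ZMod 2} (hD : OKt D w)
    (cc : ∀ a, Lab2 (k a) → κ → ZMod 2) (b : I → κ → ZMod 2) :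
    MVI (FB D phi k cc b) (vQ phi k cc b) := by
  intro ε hε
  have hN : (0 : ℝ) < 1 + ∑ ce : Lb phi k → ZMod 2, ‖Fh (PL phi k) ce‖ :=
    add_pos_of_pos_of_nonneg one_pos (sum_nonneg fun _ _ => norm_nonneg _)
  have hε0 : 0 < ε / (1 + ∑ ce : Lb phi k → ZMod 2, ‖Fh (PL phi k) ce‖) := div_pos hε hN
  choose X0 h0 using fun ce : Lb phi k → ZMod 2 =>
    engineG D hD.an (LS D (PL phi k) nL (fun z => cz cc b z + ce z • w))
      (LS_OK (WS_L hs) hD (fun z => cz cc b z + ce z • w)) _ hε0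
  refine ⟨∑ p, X0 p, fun X hX => ?_⟩
  have hXt : ∀ p, X0 p ≤ X := fun p =>
    (single_le_sum (fun _ _ => Nat.zero_le _) (mem_univ p)).trans hX
  rw [sum_congr rfl fun S _ => avI_LS D hD.tw cc b S, ← A5_sum w cc b, sum_comm, sum_mul,
    ← sum_sub_distrib]
  have hX0 : (0 : ℝ) ≤ X := Nat.cast_nonneg X
  calc _ ≤ ∑ p : Lb phi k → ZMod 2, ‖Fh (PL phi k) p‖ *
        (ε / (1 + ∑ ce : Lb phi k → ZMod 2, ‖Fh (PL phi k) ce‖) * X) := by
        refine (norm_sum_le _ _).trans (sum_le_sum fun p _ => ?_)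
        have h2 := h0 p X (hXt p)
        rw [← mul_sum, mul_assoc, ← mul_sub, norm_mul]
        exact mul_le_mul_of_nonneg_left h2 (norm_nonneg _)
    _ = (∑ p : Lb phi k → ZMod 2, ‖Fh (PL phi k) p‖) /
        (1 + ∑ ce : Lb phi k → ZMod 2, ‖Fh (PL phi k) ce‖) * (ε * X) := by
        rw [← sum_mul]
        ring
    _ ≤ 1 * (ε * X) := by
        refine mul_le_mul_of_nonneg_right ?_ (mul_nonneg hε.le hX0)
        rw [div_le_one hN]
        linarith
    _ = ε * X := one_mul _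

end

end Pool.Agent.Lib.MP_1a91b9_ntMQ
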