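import Pool.Agent.Lib.MP_1a91b9_ntMQ.Y14

/-!
Y15: the joint law for blocks of labels, `ℚ(√-2)`
-/

set_option autoImplicit false
set_option linter.unusedSectionVars false

namespace Pool.Agent.Lib.MP_1a91b9_ntMQ

open Finset Pool.Agent.Lib.MP_1a91b9_ntH
open Pool.Agent.Lib.MP_1a91b9_ntQ
open Pool.Agent.Lib.MP_1a91b9_ntQ.Da Pool.Agent.Lib.MP_1a91b9_ntV Pool.Agent.Lib.MP_1a91b9_ntM
open Pool.Agent.Lib.MP_1a91b9_ntDV
open Pool.Agent.Lib.MP_1a91b9_ntW
open Pool.Agent.Lib.MP_1a91b9_ntZ (Atl bn bts bts_zero bts_empty_succ bts_insert_succ bts_mono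
  bts_ind bts_const)

noncomputable section

private theorem Y15_card (r : ℕ) : Fintype.card {J : Finset (Fin r) // J.Nonempty} = 2 ^ r - 1 := by
  rw [Fintype.card_subtype]
  have h1 : (univ.filter fun J : Finset (Fin r) => J.Nonempty) = univ.erase ∅ := by
    ext J
    rw [mem_filter, mem_erase, nonempty_iff_ne_empty]
    exact ⟨fun h => ⟨h.2, h.1⟩, fun h => ⟨h.2, h.1⟩⟩
  rw [h1, card_erase_of_mem (mem_univ _), card_univ, Fintype.card_finset, Fintype.card_fin]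

/-- **Y15** (medium-). **The joint law for blocks of labels and tuples of divisors, `ℚ(√-2)`.** Proof: copy `jb8` (MP_1a91b9_ntDV/W11.lean,
PROVED) and `jbi7` (B2.lean; store MQ_B2.lean) / `jli7` (P11.lean, PROVED): `A = {J : Finset (Fin r) // J.Nonempty}`,
`phi = phJ r`, `sp_phJ r`; `choose v hv hP using PclI_GWJ (sp_phJ r) id8 okw8 (fun T c h1 h2 => mz8 B T c h1 h2) ..`; for every
class `γ`: `mean_bts (limP_PclI ..)` (B0.lean) with `F b cf = ∏ a, indicator` and `v γ b = ∏ a, v γ b a`, and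
`bn k t (cinf2 ^ ((2 ^ r - 1) * N)) ≤ bts univ t ..` by `bts_const`, `bts_mono` (`∏ a, cinf2 ^ N ≤ ∏ a, v b a ≤ 1`; the number of
the nonempty `J` is `2 ^ r - 1`, as in P11.lean); `AVrI_of_PclI'`; `AVrI.subLI` (P10.lean) with `Cheb`, `Zt` from
`okw8.toOKt.an`; the indicator by `bts_ind`, `Finset.prod_ite_zero`, `up_TT`, `TT_phJ`. -/
theorem jbi8' (r k N : ℕ) (i j : Fin k → Finset (Fin r) → Fin N → ZMod 2)
    (T₀ : Fin k → Finset (Fin r) → Fin N → Finset Pg) (B : Finset Pg) (hT : ∀ b J n, T₀ b J n ⊆ B)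
    (hinj : ∀ b, ∀ J : Finset (Fin r), J.Nonempty →
      Function.Injective fun n => (i b J n, j b J n, T₀ b J n))
    (hdis : ∀ b b', b ≠ b' → ∀ J : Finset (Fin r), J.Nonempty → ∀ n n',
      (j b J n, T₀ b J n) ≠ (j b' J n', T₀ b' J n')) (t : ℕ) :
    SubLI r B (bn k t (cinf2 ^ ((2 ^ r - 1) * N))) fun T => Atl t fun b =>
      ∀ J : Finset (Fin r), J.Nonempty → ∀ n, GW (i b J n) (j b J n) (sdJ J T ∪ T₀ b J n) ≠ 0 := by
  classical
  choose v hv hP using PclI_GWJ (sp_phJ r) id8 okw8 (fun T c h1 h2 => mz8 B T c h1 h2)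
    (fun b (a : {J : Finset (Fin r) // J.Nonempty}) => i b a.1) (fun b a => j b a.1)
    (fun b a => T₀ b a.1) (fun b a n => hT b a.1 n) (fun b a => hinj b a.1 a.2)
    (fun b b' hb a n n' => hdis b b' hb a.1 a.2 n n')
  obtain ⟨C1, h1⟩ := okw8.toOKt.an.cheb
  obtain ⟨C2, h2⟩ := okw8.toOKt.an.zt
  have hc0 : 0 ≤ cinf2 := cinf2_pos'.le
  have hpow : cinf2 ^ ((2 ^ r - 1) * N) = ∏ _a : {J : Finset (Fin r) // J.Nonempty}, cinf2 ^ N := by
    rw [prod_const, card_univ, Y15_card, ← pow_mul, mul_comm]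
  have h3 : ∀ γ, PclI (D8.off B) γ (fun cf => bts univ t fun b : Fin k =>
      ∏ a : {J : Finset (Fin r) // J.Nonempty},
        if ∀ n, GW (i b a.1 n) (j b a.1 n) (up (TT (phJ r) cf a) ∪ T₀ b a.1 n) ≠ 0
          then (1 : ℝ) else 0)
      (bts univ t fun b => ∏ a, v γ b a) := by
    intro γ
    have h := mean_bts (limP_PclI (D8.off B) γ)
      (F := fun (b : Fin k) (cf : Fin r → Finset (Off B)) =>
        ∏ a : {J : Finset (Fin r) // J.Nonempty},
          if ∀ n, GW (i b a.1 n) (j b a.1 n) (up (TT (phJ r) cf a) ∪ T₀ b a.1 n) ≠ 0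
            then (1 : ℝ) else 0)
      (v := fun b => ∏ a, v γ b a) univ ∅ (disjoint_empty_left _) (fun J _ => hP γ J) t
    simp only [prod_empty, one_mul] at h
    exact h
  have h4 : ∀ γ, bn k t (cinf2 ^ ((2 ^ r - 1) * N)) ≤
      bts univ t fun b : Fin k => ∏ a, v γ b a := by
    intro γ
    have e := bts_const (univ : Finset (Fin k)) t (cinf2 ^ ((2 ^ r - 1) * N))
    rw [card_univ, Fintype.card_fin] at e
    rw [← e]
    refine bts_mono univ t (fun _ _ => pow_nonneg hc0 _) (fun b _ => ?_) fun b _ => ?_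
    · rw [hpow]
      exact prod_le_prod (fun a _ => pow_nonneg hc0 N) fun a _ => (hv γ b a).1
    · exact prod_le_one (fun a _ => (pow_nonneg hc0 N).trans (hv γ b a).1) fun a _ => (hv γ b a).2
  have h5 := AVrI_of_PclI' h3
  have h6 : bn k t (cinf2 ^ ((2 ^ r - 1) * N)) ≤
      (∑ γ, bts univ t fun b : Fin k => ∏ a, v γ b a) /
        2 ^ (Fintype.card (Fin 2 ⊕ B) * Fintype.card (Fin r)) := by
    rw [le_div_iff₀ (by positivity)]
    calc bn k t (cinf2 ^ ((2 ^ r - 1) * N)) *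
        2 ^ (Fintype.card (Fin 2 ⊕ B) * Fintype.card (Fin r)) =
          ∑ _γ : (Fin r → Fin 2 ⊕ B → ZMod 2), bn k t (cinf2 ^ ((2 ^ r - 1) * N)) := by
          rw [sum_const, card_univ, nsmul_eq_mul, Fintype.card_fun, Fintype.card_fun, ZMod.card,
            mul_comm, ← pow_mul]
          push_cast
          rfl
      _ ≤ ∑ γ, bts univ t fun b : Fin k => ∏ a, v γ b a := sum_le_sum fun γ _ => h4 γ
  refine AVrI.subLI h1 h2 h6 (fun S => ?_) h5
  have e := bts_ind (fun b : Fin k => ∀ J : Finset (Fin r), J.Nonempty → ∀ n,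
    GW (i b J n) (j b J n) (sdJ J (fun l => up (S l)) ∪ T₀ b J n) ≠ 0) univ t
  refine Eq.trans ?_ (e.trans ?_)
  · refine congrArg (bts univ t) (funext fun b => ?_)
    have h7 : ∀ a : {J : Finset (Fin r) // J.Nonempty},
        (if ∀ n, GW (i b a.1 n) (j b a.1 n) (up (TT (phJ r) S a) ∪ T₀ b a.1 n) ≠ 0
          then (1 : ℝ) else 0) =
        if ∀ n, GW (i b a.1 n) (j b a.1 n) (sdJ a.1 (fun l => up (S l)) ∪ T₀ b a.1 n) ≠ 0
          then (1 : ℝ) else 0 := by
      intro a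
      rw [up_TT, TT_phJ]
    rw [prod_congr rfl fun a _ => h7 a, prod_ite_zero, prod_const_one]
    split_ifs with g1 g2 g2
    · rfl
    · exact (g2 fun J hJ n => g1 ⟨J, hJ⟩ (mem_univ _) n).elim
    · exact (g1 fun a _ n => g2 a.1 a.2 n).elim
    · rfl
  · by_cases h : Atl t fun b => ∀ J : Finset (Fin r), J.Nonempty → ∀ n,
        GW (i b J n) (j b J n) (sdJ J (fun l => up (S l)) ∪ T₀ b J n) ≠ 0
    · exact (if_pos h).trans (if_pos h).symm
    · exact (if_neg h).trans (if_neg h).symm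

end

end Pool.Agent.Lib.MP_1a91b9_ntMQ
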