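import Pool.Agent.Lib.MP_1a91b9_ntP.J.Mom

/-!
# MP_1a91b9_nt (random multiquadratic fields), `ℚ(√-3)`: the joint moments with all the characters

The main terms of the joint system with a nontrivial additional character are zero.
-/

set_option autoImplicit false
set_option linter.unusedSectionVars false

namespace Pool.Agent.Lib.MP_1a91b9_ntMQ

open Finset Pool.Agent.Lib.MP_1a91b9_ntH Pool.Agent.Lib.MP_1a91b9_ntH.Da
  Pool.Agent.Lib.MP_1a91b9_ntE
open Pool.Agent.Lib.MP_1a91b9_ntQ (Off up dn)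
open Pool.Agent.Lib.MP_1a91b9_ntP

noncomputable section

section Joint

variable {A : Type} [Fintype A] [DecidableEq A] {k : A → ℕ} {κ : Type} [Fintype κ]
  {W : A → Type} {ι : Type} [DecidableEq ι]

/-- The joint system with the characters `y` and `e`. -/
def LJe (P : ∀ a, Loc κ (k a) (W a)) (y : F4) (e : κ → ZMod 2) (w : ∀ a, W a) :
    LSysG (LabJ k) κ where
  toLSys := (LJ P y w).toLSys
  del l := (LJ P y w).del l + e

/-- The exponent of the joint system. -/
theorem eS_LJe (D : DatG ι κ) (P : ∀ a, Loc κ (k a) (W a)) (y : F4) (e : κ → ZMod 2)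
    (w : ∀ a, W a) (S : Finset ι) (f : S → LabJ k) :
    D.eS (LJe P y e w) S f = D.eS (LJ P y w) S f + D.lG e S := by
  show D.toDat.eS (LJ P y w).toLSys S f + ∑ j : S, D.lg ((LJ P y w).del (f j) + e) j =
    D.toDat.eS (LJ P y w).toLSys S f + ∑ j : S, D.lg ((LJ P y w).del (f j)) j + D.lG e S
  have h1 : D.lG e S = ∑ j : S, D.lg e j := (sum_coe_sort S fun q => D.lg e q).symm
  rw [h1, add_assoc, ← sum_add_distrib]
  exact congrArg _ (sum_congr rfl fun j _ => lg_add D _ _ _)

variable {P : ∀ a, Loc κ (k a) (W a)} {y : F4} {w : ∀ a, W a}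

private theorem Z1_4 (x : ZMod 2) : x + x + x + x = 0 := by
  revert x
  decide

private theorem Z1_eq (x z : ZMod 2) (h : x + z = 0) : x = z := by
  revert x z
  decide

/-- The main terms with a nontrivial additional character are zero: `U` is a product of maximal unlinked sets, so the
linear terms of the factors are constant, hence zero. -/
theorem cU_LJe {ρ : A → ZMod 2} {τ : A → κ → ZMod 2} (hP : ∀ a, (P a).Ok (ρ a) (τ a))
    (hd : Function.Injective fun a => (ρ a, τ a)) {e : κ → ZMod 2} (he : e ≠ 0)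
    {U : Finset (LabJ k)} (hU : U ∈ (LJe P y e w).Us) : (LJe P y e w).cU U = 0 := by
  classical
  by_contra hc
  have hU' : U ∈ (LJ P y w).Us := hU
  obtain ⟨hU1, hU2⟩ := (mem_UsJ P y w).1 hU'
  have hdel1 : ∀ l ∈ U, (LJe P y e w).del l = 0 := by
    by_contra h
    exact hc (by rw [LSysG.cU, if_neg h])
  have hdel0 : ∀ l ∈ U, (LJ P y w).del l + e = 0 := hdel1
  have hdel : ∀ l ∈ U, (LJ P y w).del l = e := by
    intro l hl
    funext j
    exact Z1_eq _ _ (congrFun (hdel0 l hl) j)
  have hc' : (LJ P y w).toLSys.cU U ≠ 0 := by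
    rw [LSysG.cU, if_pos hdel1] at hc
    exact hc
  set c : A → Unit ⊕ κ → ZMod 2 := fun a => Sum.elim (fun _ => ρ a) (τ a) with hcd
  have hci : Function.Injective c := by
    intro a b h
    refine hd (Prod.ext ?_ ?_)
    · exact congrFun h (Sum.inl ())
    · exact funext fun j => congrFun h (Sum.inr j)
  have hdec := decJ hci hU1 hU2 fun u hu x z hx hz hxz j => by
    rcases j with j | j
    · have h1 := cU_four (LJ_inj P y w) (LJ_diag P y w) ((LJ_Unl P y w).2 hU1) hu hx hz hxz hc'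
        fun l _ => by
          show ∑ a, Phi (l a) (u a) + ∑ a, Phi (l a) ((u + x) a) + ∑ a, Phi (l a) ((u + z) a) +
            ∑ a, Phi (l a) ((u + x + z) a) = 0
          rw [← sum_add_distrib, ← sum_add_distrib, ← sum_add_distrib]
          exact sum_eq_zero fun a _ => Phi_aff (l a) (u a) (x a) (z a)
      rw [← h1]
      show ∑ a, ρ a * Bf (x a) (z a) = F4.tr ((∑ a, (P a).gam (w a) (u a) + y) +
        (∑ a, (P a).gam (w a) ((u + x) a) + y) + (∑ a, (P a).gam (w a) ((u + z) a) + y) +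
        (∑ a, (P a).gam (w a) ((u + x + z) a) + y))
      have e1 : (∑ a, (P a).gam (w a) (u a) + y) +
        (∑ a, (P a).gam (w a) ((u + x) a) + y) + (∑ a, (P a).gam (w a) ((u + z) a) + y) +
        (∑ a, (P a).gam (w a) ((u + x + z) a) + y) =
        ∑ a, ((P a).gam (w a) (u a) + (P a).gam (w a) (u a + x a) + (P a).gam (w a) (u a + z a) +
          (P a).gam (w a) (u a + x a + z a)) := by
        simp only [sum_add_distrib]
        have h2 : y + y = 0 := F4.add_self y
        linear_combination 2 * h2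
      rw [e1, Da.F4.tr_sum]
      exact sum_congr rfl fun a _ => ((hP a).gam4 (w a) (u a) (x a) (z a)).symm
    · show ∑ a, τ a j * Bf (x a) (z a) = 0
      have e1 : ∀ l ∈ U, ∑ a, (P a).del (w a) (l a) j = e j := by
        intro l hl
        have h2 := congrFun (hdel l hl) j
        rw [← Finset.sum_apply]
        exact h2
      have e2 : ∑ a, τ a j * Bf (x a) (z a) = ∑ a, (P a).del (w a) (u a) j +
          ∑ a, (P a).del (w a) ((u + x) a) j + ∑ a, (P a).del (w a) ((u + z) a) j +
          ∑ a, (P a).del (w a) ((u + x + z) a) j := by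
        rw [← sum_add_distrib, ← sum_add_distrib, ← sum_add_distrib]
        exact sum_congr rfl fun a _ => ((hP a).del4 (w a) (u a) (x a) (z a) j).symm
      rw [e2, e1 _ hu, e1 _ hx, e1 _ hz, e1 _ hxz]
      exact Z1_4 _
  obtain ⟨hpi, hV⟩ := hdec
  set V := pjJ U with hVd
  choose v hv using fun a => Us_nonempty (hV a)
  have hvU : v ∈ U := by
    rw [hpi]
    exact Fintype.mem_piFinset.2 hv
  have hmem : ∀ (a : A) (u : Lab (k a)), u ∈ V a → Function.update v a u ∈ U := by
    intro a u hu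
    rw [hpi, Fintype.mem_piFinset]
    intro b
    by_cases hb : b = a
    · subst hb
      rw [Function.update_self]
      exact hu
    · rw [Function.update_of_ne hb]
      exact hv b
  have hcon : ∀ a j, ∀ u ∈ V a, (P a).del (w a) u j = (P a).del (w a) (v a) j := by
    intro a j u hu
    have h7 : (LJ P y w).del (Function.update v a u) j = (LJ P y w).del v j := by
      rw [hdel _ (hmem a u hu), hdel _ hvU]
    have h8 : (∑ b, (P b).del (w b) (Function.update v a u b)) j =
        (∑ b, (P b).del (w b) (v b)) j := h7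
    rw [Finset.sum_apply, Finset.sum_apply, ← add_sum_erase _ _ (mem_univ a),
      ← add_sum_erase _ _ (mem_univ a), Function.update_self] at h8
    have h9 : ∑ b ∈ univ.erase a, (P b).del (w b) (Function.update v a u b) j =
        ∑ b ∈ univ.erase a, (P b).del (w b) (v b) j :=
      sum_congr rfl fun b hb => by rw [Function.update_of_ne (ne_of_mem_erase hb)]
    rw [h9] at h8
    exact add_right_cancel h8
  apply he
  funext j
  have h1 : ∀ a, (P a).del (w a) (v a) j = 0 := fun a =>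
    (hP a).cst (w a) (V a) (hV a) j (fun l hl l' hl' => by
      rw [hcon a j l hl, hcon a j l' hl']) (v a) (hv a)
  have h2 := congrFun (hdel v hvU) j
  have h3 : (LJ P y w).del v j = ∑ a, (P a).del (w a) (v a) j := Finset.sum_apply _ _ _
  rw [← h2, h3]
  exact sum_eq_zero fun a _ => h1 a

end Joint

variable {ι : Type} [DecidableEq ι] {D : DatE ι} {A : Type} [Fintype A] [DecidableEq A]

/-- The expansion. -/
theorem exp_Je (hD : D.toDat.Rec) (Q : A → Bs D) {B : Finset ι} {T : A → Finset ι}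
    (hT : ∀ a, T a ⊆ B) (k : A → ℕ) (y : F4) (e : Unit ⊕ B → ZMod 2) (S : Finset (Off B)) :
    kJ Q T k S * sg (F4.tr (y * (offG D B).toDat.A S) + (offG D B).lG e S) *
      (bJ Q T k * ((∏ a, 4 ^ k a : ℕ) : ℝ) ^ S.card) =
      ∑ w : ∀ a, WJ Q T k a, sg (∑ a, (PJ Q B T k a).e0 (w a)) *
        ∑ f : S → LabJ k, sg ((offG D B).eS (LJe (PJ Q B T k) y e w) S f) := by
  have h1 := exp_J hD Q hT k y S
  rw [sgD_add]
  have h2 : kJ Q T k S * (sg (F4.tr (y * (offG D B).toDat.A S)) * sg ((offG D B).lG e S)) *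
      (bJ Q T k * ((∏ a, 4 ^ k a : ℕ) : ℝ) ^ S.card) =
      (kJ Q T k S * sg (F4.tr (y * (offG D B).toDat.A S)) *
      (bJ Q T k * ((∏ a, 4 ^ k a : ℕ) : ℝ) ^ S.card)) * sg ((offG D B).lG e S) := by ring
  rw [h2, h1, sum_mul]
  refine sum_congr rfl fun w _ => ?_
  rw [mul_assoc, sum_mul]
  congr 1
  refine sum_congr rfl fun f _ => ?_
  rw [eS_LJe, sgD_add]

variable [PS ι]

/-- The joint moments with the characters `y` and `e`. -/
theorem momE (hD : D.toDat.Rec) (Q : A → Bs D) {B : Finset ι} (hB : (offG D B).OK)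
    {T : A → Finset ι} (hT : ∀ a, T a ⊆ B)
    (hi : Function.Injective fun a => ((Q a).ρ, (Q a).τ, T a)) (k : A → ℕ) (y : F4)
    {e : Unit ⊕ B → ZMod 2} (he : e ≠ 0) (ε : ℝ)
    (hε : 0 < ε) : ∃ X₀ : ℕ, ∀ X : ℕ, X₀ ≤ X →
      |∑ S ∈ Sx (Off B) X, kJ Q T k S *
        sg (F4.tr (y * (offG D B).toDat.A S) + (offG D B).lG e S)| ≤ ε * X := by
  by_cases hk : ∃ a, 1 ≤ k a
  · have h2 : 2 ≤ ∏ a, 4 ^ k a := by
      obtain ⟨a, ha⟩ := hk
      calc 2 ≤ 4 ^ 1 := by norm_num
        _ ≤ 4 ^ k a := Nat.pow_le_pow_right (by norm_num) ha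
        _ ≤ ∏ a, 4 ^ k a := by
          rw [← mul_prod_erase univ _ (mem_univ a)]
          exact Nat.le_mul_of_pos_right _ (prod_pos fun b _ => by positivity)
    set C : ℝ := bJ Q T k with hC
    have hC0 : 0 < C := bJ_pos Q T k
    set Nw : ℝ := (Fintype.card (∀ a, WJ Q T k a) : ℝ) with hNw
    have hNw0 : 0 ≤ Nw := Nat.cast_nonneg _
    have hδ : 0 < ε * C / (Nw + 1) := by positivity
    choose X0 h0 using fun w : ∀ a, WJ Q T k a => engineP (offG D B) hB
      (LJe (PJ Q B T k) y e w) (LJ_OK (PJ Q B T k) y w h2) (ε * C / (Nw + 1)) hδ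
    refine ⟨∑ w, X0 w, fun X hX => ?_⟩
    have hXw : ∀ w, X0 w ≤ X := fun w =>
      (single_le_sum (fun _ _ => Nat.zero_le _) (mem_univ w)).trans hX
    -- the sum over the coordinates
    have e1 : ∑ S ∈ Sx (Off B) X, kJ Q T k S *
          sg (F4.tr (y * (offG D B).toDat.A S) + (offG D B).lG e S) =
        (∑ w : ∀ a, WJ Q T k a, sg (∑ a, (PJ Q B T k a).e0 (w a)) *
          ∑ S ∈ Sx (Off B) X, (((LJe (PJ Q B T k) y e w).m : ℝ)⁻¹) ^ S.card *
            ∑ f : S → LabJ k, sg ((offG D B).eS (LJe (PJ Q B T k) y e w) S f)) / C := by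
      rw [eq_div_iff hC0.ne', sum_mul]
      simp only [mul_sum]
      rw [sum_comm]
      refine sum_congr rfl fun S _ => ?_
      have h3 := exp_Je hD Q hT k y e S
      have h4 : (0 : ℝ) < ((∏ a, 4 ^ k a : ℕ) : ℝ) ^ S.card := by
        have h5 : (0 : ℝ) < ((∏ a, 4 ^ k a : ℕ) : ℝ) := by
          exact_mod_cast (by omega : 0 < ∏ a, 4 ^ k a)
        positivity
      have h6 : kJ Q T k S * sg (F4.tr (y * (offG D B).toDat.A S) + (offG D B).lG e S) * C =
          (((∏ a, 4 ^ k a : ℕ) : ℝ)⁻¹) ^ S.card * ∑ w : ∀ a, WJ Q T k a,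
            sg (∑ a, (PJ Q B T k a).e0 (w a)) *
              ∑ f : S → LabJ k, sg ((offG D B).eS (LJe (PJ Q B T k) y e w) S f) := by
        rw [← h3, inv_pow]
        field_simp
        rfl
      rw [h6, mul_sum]
      refine sum_congr rfl fun w _ => ?_
      show _ * (_ * _) = _
      rw [mul_sum, mul_sum]
      refine sum_congr rfl fun f _ => ?_
      show _ = _ * ((((∏ a, 4 ^ k a : ℕ) : ℝ)⁻¹) ^ S.card * _)
      ring
    have e2 : ∀ w : ∀ a, WJ Q T k a,
        ∑ U ∈ (LJe (PJ Q B T k) y e w).Us, (LJe (PJ Q B T k) y e w).cU U = 0 := fun w =>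
      sum_eq_zero fun U hU => cU_LJe (fun a => PJ_Ok Q B T k a) (tJ_inj hT hi) he hU
    rw [e1, abs_div, abs_of_pos hC0, div_le_iff₀ hC0]
    calc |∑ w : ∀ a, WJ Q T k a, sg (∑ a, (PJ Q B T k a).e0 (w a)) *
          ∑ S ∈ Sx (Off B) X, (((LJe (PJ Q B T k) y e w).m : ℝ)⁻¹) ^ S.card *
            ∑ f : S → LabJ k, sg ((offG D B).eS (LJe (PJ Q B T k) y e w) S f)|
        ≤ ∑ w : ∀ a, WJ Q T k a, |sg (∑ a, (PJ Q B T k a).e0 (w a)) *
          ∑ S ∈ Sx (Off B) X, (((LJe (PJ Q B T k) y e w).m : ℝ)⁻¹) ^ S.card *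
            ∑ f : S → LabJ k, sg ((offG D B).eS (LJe (PJ Q B T k) y e w) S f)| :=
          abs_sum_le_sum_abs _ _
      _ ≤ ∑ _w : ∀ a, WJ Q T k a, ε * C / (Nw + 1) * X := by
        refine sum_le_sum fun w _ => ?_
        rw [abs_mul, sgD_abs, one_mul]
        have h7 := h0 w X (hXw w)
        rw [e2 w, zero_mul, sub_zero] at h7
        exact h7
      _ = Nw / (Nw + 1) * (ε * C * X) := by
        rw [sum_const, card_univ, nsmul_eq_mul]
        field_simp
        rfl
      _ ≤ 1 * (ε * C * X) := by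
        refine mul_le_mul_of_nonneg_right ?_ (by positivity)
        rw [div_le_one (by positivity)]
        linarith
      _ = ε * X * C := by ring
  · push Not at hk
    have hk0 : ∀ a, k a = 0 := fun a => by
      have := hk a
      omega
    have h1 : ∀ S : Finset (Off B), kJ Q T k S = 1 := by
      intro S
      unfold kJ
      exact prod_eq_one fun a _ => by rw [hk0 a, pow_zero]
    simp only [h1, one_mul]
    exact hB.h3 y e (Or.inr he) ε hε

end

end Pool.Agent.Lib.MP_1a91b9_ntMQ
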