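import Pool.Agent.Lib.MP_1a91b9_ntDV.K3_7
import Pool.Agent.Lib.MP_1a91b9_ntMQ.Z1

/-!
# MP_1a91b9_nt (random multiquadratic fields), `ℚ(√-3)`: the values of the joint moments for all the characters
-/

set_option autoImplicit false
set_option linter.unusedSectionVars false

namespace Pool.Agent.Lib.MP_1a91b9_ntMQ

open Finset Pool.Agent.Lib.MP_1a91b9_ntH Pool.Agent.Lib.MP_1a91b9_ntQ
open Pool.Agent.Lib.MP_1a91b9_ntQ.Da Pool.Agent.Lib.MP_1a91b9_ntV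
open Pool.Agent.Lib.MP_1a91b9_ntDV
open Pool.Agent.Lib.MP_1a91b9_ntP (DatG LSysG LabJ Bs kJ offG)

noncomputable section

open Pool.Agent.Lib.MP_1a91b9_ntV.DJ
open Pool.Agent.Lib.MP_1a91b9_ntQ (Off)

/-- The number of the sets is `o(X)` (this does not occur in the applications, but it need not be excluded). -/
def Sm (ι : Type) [DecidableEq ι] [PS ι] : Prop :=
  ∀ ε : ℝ, 0 < ε → ∃ X₀ : ℕ, ∀ X : ℕ, X₀ ≤ X → ((Sx ι X).card : ℝ) ≤ ε * X

section Gen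

variable {ι : Type} [DecidableEq ι] [PS ι]

theorem eq_of_not_Sm (hn : ¬ Sm ι) {v v' : ℂ}
    (h : ∀ ε : ℝ, 0 < ε → ∃ X₀ : ℕ, ∀ X : ℕ, X₀ ≤ X → ‖v - v'‖ * (Sx ι X).card ≤ ε * X) :
    v = v' := by
  by_contra hne
  have hd : 0 < ‖v - v'‖ := norm_pos_iff.2 (sub_ne_zero.2 hne)
  apply hn
  intro ε hε
  obtain ⟨X₀, h0⟩ := h (ε * ‖v - v'‖) (mul_pos hε hd)
  refine ⟨X₀, fun X hX => ?_⟩
  have h1 := h0 X hX
  have h2 : ‖v - v'‖ * ((Sx ι X).card : ℝ) ≤ ‖v - v'‖ * (ε * X) := by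
    rw [show ‖v - v'‖ * (ε * X) = ε * ‖v - v'‖ * X from by ring]
    exact h1
  exact le_of_mul_le_mul_left h2 hd

/-- The mean value is unique, or the number of the sets is `o(X)`. -/
theorem AV.uniq {F : Finset ι → ℂ} {v v' : ℂ} (h : AV F v) (h' : AV F v') (hn : ¬ Sm ι) :
    v = v' := by
  by_contra hne
  obtain ⟨d, hdd⟩ : ∃ d : ℝ, d = ‖v - v'‖ := ⟨_, rfl⟩
  have hd : 0 < d := by
    rw [hdd]
    exact norm_pos_iff.2 (sub_ne_zero.2 hne)
  apply hn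
  intro ε hε
  -- eta with 4 eta <= d^2 / 2 and 8 eta / d^2 <= ε
  obtain ⟨η, hη, h1, h2⟩ : ∃ η : ℝ, 0 < η ∧ 4 * η ≤ d ^ 2 / 2 ∧ 4 * η ≤ ε * (d ^ 2 / 2) := by
    refine ⟨min (d ^ 2 / 8) (ε * (d ^ 2 / 8)), lt_min (by positivity) (by positivity), ?_, ?_⟩
    · have := min_le_left (d ^ 2 / 8) (ε * (d ^ 2 / 8))
      linarith
    · have := min_le_right (d ^ 2 / 8) (ε * (d ^ 2 / 8))
      linarith
  obtain ⟨X1, hX1⟩ := h η hη
  obtain ⟨X2, hX2⟩ := h' η hη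
  refine ⟨X1 + X2, fun X hX => ?_⟩
  have g1 := hX1 X (by omega)
  have g2 := hX2 X (by omega)
  have h3 : ∀ S ∈ Sx ι X, d ^ 2 ≤ 2 * ‖avg F S - v‖ ^ 2 + 2 * ‖avg F S - v'‖ ^ 2 := by
    intro S _
    have h4 : d ≤ ‖avg F S - v‖ + ‖avg F S - v'‖ := by
      have e : v - v' = (avg F S - v') - (avg F S - v) := by ring
      rw [hdd, e]
      refine (norm_sub_le _ _).trans ?_
      rw [add_comm]
    have h5 : d ^ 2 ≤ (‖avg F S - v‖ + ‖avg F S - v'‖) ^ 2 := pow_le_pow_left₀ hd.le h4 2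
    nlinarith [sq_nonneg (‖avg F S - v‖ - ‖avg F S - v'‖)]
  have h6 := sum_le_sum h3
  rw [sum_const, nsmul_eq_mul, sum_add_distrib, ← mul_sum, ← mul_sum] at h6
  have hN : (0 : ℝ) ≤ (Sx ι X).card := Nat.cast_nonneg _
  have hX0 : (0 : ℝ) ≤ X := Nat.cast_nonneg _
  have h7 : ((Sx ι X).card : ℝ) * d ^ 2 ≤ 4 * η * ((Sx ι X).card + X) := by linarith
  have h8 : ((Sx ι X).card : ℝ) * (d ^ 2 / 2) ≤ 4 * η * X := by
    have h9 : 4 * η * ((Sx ι X).card : ℝ) ≤ d ^ 2 / 2 * (Sx ι X).card :=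
      mul_le_mul_of_nonneg_right h1 hN
    nlinarith
  have h9 : ((Sx ι X).card : ℝ) * (d ^ 2 / 2) ≤ (ε * X) * (d ^ 2 / 2) := by
    refine h8.trans ?_
    have := mul_le_mul_of_nonneg_right h2 hX0
    nlinarith
  exact le_of_mul_le_mul_right h9 (by positivity)

end Gen

section Ch

variable {ι : Type} [DecidableEq ι] {κ : Type} [Fintype κ]

/-- The characters of the classes. -/
theorem e2_v4 (E : DatG ι κ) (y : F4) (e : κ → ZMod 2) (S : Finset ι) :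
    e2 (∑ q ∈ S, (D4 E).dg (v4 y e) q) =
      ((sg (F4.tr (y * E.toDat.A S) + E.lG e S) : ℝ) : ℂ) := by
  have h1 : ∀ q, (D4 E).dg (v4 y e) q = F4.tr (y * E.a q) + E.lg e q := fun q => dg_v4 E y e q
  have h2 : ∑ q ∈ S, (D4 E).dg (v4 y e) q = F4.tr (y * E.toDat.A S) + E.lG e S := by
    rw [sum_congr rfl fun q _ => h1 q, sum_add_distrib, ← trD_sum, ← mul_sum]
    rfl
  rw [h2]
  rfl

private theorem Z2_nrm {T W V A N : ℂ} (hW : W ≠ 0) {x y : ℝ} (h1 : ‖A * W - T * N‖ ≤ x)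
    (h2 : ‖A - V * N‖ ≤ y) : ‖T / W - V‖ * ‖N‖ ≤ x / ‖W‖ + y := by
  have e : (T / W - V) * N = (A - V * N) - (A * W - T * N) / W := by
    field_simp
    ring
  rw [← norm_mul, e]
  refine (norm_sub_le _ _).trans ?_
  rw [norm_div, add_comm]
  have hW' : 0 < ‖W‖ := norm_pos_iff.2 hW
  exact add_le_add (div_le_div_of_nonneg_right h1 hW'.le) h2

end Ch

variable {ι : Type} [DecidableEq ι] [PS ι] {D : MP_1a91b9_ntE.DatE ι} {A : Type} [Fintype A]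
  [DecidableEq A]

/-- The moments of the joint system with the character `v4 y e`. -/
private theorem Z2_mom (hD : D.toDat.Rec) (Q : A → Bs D) {B : Finset ι} (hB : (offG D B).OK)
    {T : A → Finset ι} (hT : ∀ a, T a ⊆ B)
    (hi : Function.Injective fun a => ((Q a).ρ, (Q a).τ, T a)) (k : A → ℕ) (y : F4)
    (e : Unit ⊕ B → ZMod 2) (ε : ℝ) (hε : 0 < ε) : ∃ X₀ : ℕ, ∀ X : ℕ, X₀ ≤ X →
      |∑ S ∈ Sx (Off B) X, kJ Q T k S *
        sg (F4.tr (y * (offG D B).toDat.A S) + (offG D B).lG e S) -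
        (if y = 0 ∧ e = 0 then ∏ a, (MP_1a91b9_ntH.Da.Nk (k a) : ℝ) else 0) *
          (Sx (Off B) X).card| ≤ ε * X := by
  by_cases he : e = 0
  · subst he
    have h1 := MP_1a91b9_ntP.momJ hD Q hB hT hi k y ε hε
    simp only [MP_1a91b9_ntP.lG_zero, add_zero, and_true]
    exact h1
  · obtain ⟨X₀, h0⟩ := momE hD Q hB hT hi k y he ε hε
    refine ⟨X₀, fun X hX => ?_⟩
    rw [if_neg fun h => he h.2, zero_mul, sub_zero]
    exact h0 X hX

/-- **The expansion of the joint moments and its values at all the characters.** -/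
theorem exists_K4 (hD : D.toDat.Rec) (Q : A → Bs D) {B : Finset ι} (hB : (offG D B).OK)
    {T : A → Finset ι} (hT : ∀ a, T a ⊆ B)
    (hi : Function.Injective fun a => ((Q a).ρ, (Q a).τ, T a)) (k : A → ℕ) :
    ∃ (M : Type) (_ : Fintype M) (rf : M → ZMod 2)
      (cf : M → Lab2 (K4 k) → Bool ⊕ (Unit ⊕ B) → ZMod 2) (W : ℂ), W ≠ 0 ∧
      (∀ S : Finset (Off B), (kJ Q T k S : ℂ) * (2 ^ K4 k) ^ S.card * W =
        ∑ m : M, e2 (rf m) * ∑ f : S → Lab2 (K4 k),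
          e2 (∑ j : S, (D4 (offG D B)).dg (cf m (f j)) j +
            ∑ i : S, ∑ j : S, PhiQ (f i) (f j) * (D4 (offG D B)).s i j)) ∧
      (¬ Sm (Off B) → ∀ c0, TNG rf cf (w4 _) c0 =
        (if c0 = 0 then ((∏ a, (MP_1a91b9_ntH.Da.Nk (k a) : ℝ) : ℝ) : ℂ) else 0) * W) := by
  have hO : OKt (D4 (offG D B)) (w4 _) := okt_D4 hB
  have hexp : ∀ S : Finset (Off B),
      kJ Q T k S * (MP_1a91b9_ntP.bJ Q T k * ((∏ a, 4 ^ k a : ℕ) : ℝ) ^ S.card) =
      ∑ w : ∀ a, MP_1a91b9_ntP.WJ Q T k a, sg (∑ a, (MP_1a91b9_ntP.PJ Q B T k a).e0 (w a)) *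
        ∑ f : S → LabJ k, sg ((offG D B).eS (MP_1a91b9_ntP.LJ (MP_1a91b9_ntP.PJ Q B T k) 0 w) S f) := by
    intro S
    have h1 := MP_1a91b9_ntP.exp_J hD Q hT k 0 S
    have h2 : sg (F4.tr (0 * (offG D B).toDat.A S)) = 1 := by
      rw [zero_mul]
      exact MP_1a91b9_ntH.Da.sg_zero
    rw [h2, mul_one] at h1
    exact h1
  obtain ⟨M, hM, rf, cf, hK⟩ := exp4 (offG D B) k
    (fun w => MP_1a91b9_ntP.LJ (MP_1a91b9_ntP.PJ Q B T k) 0 w) (fun w l m => rfl)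
    (fun w => ∑ a, (MP_1a91b9_ntP.PJ Q B T k a).e0 (w a)) (fun S => kJ Q T k S)
    (MP_1a91b9_ntP.bJ Q T k) hexp
  have hW0 : ((MP_1a91b9_ntP.bJ Q T k : ℝ) : ℂ) * (Fintype.card (LabJ k → F4) : ℂ) ≠ 0 := by
    refine mul_ne_zero ?_ ?_
    · exact Complex.ofReal_ne_zero.2 (MP_1a91b9_ntP.bJ_pos Q T k).ne'
    · exact Nat.cast_ne_zero.2 Fintype.card_ne_zero
  refine ⟨M, hM, rf, cf, _, hW0, hK, fun hn c0 => ?_⟩
  obtain ⟨y, e, rfl⟩ := exists_v4 c0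
  have hv0 : (v4 y e = 0) ↔ y = 0 ∧ e = 0 := v4_eq_zero
  have hval : TNG rf cf (w4 _) (v4 y e) /
      (((MP_1a91b9_ntP.bJ Q T k : ℝ) : ℂ) * (Fintype.card (LabJ k → F4) : ℂ)) =
      (((if y = 0 ∧ e = 0 then ∏ a, (MP_1a91b9_ntH.Da.Nk (k a) : ℝ) else 0 : ℝ)) : ℂ) := by
    rcases Nat.eq_zero_or_pos (K4 k) with h0 | h0
    · have hk0 : ∀ a, k a = 0 := by
        intro a
        unfold K4 at h0
        have h2 : ∑ a, k a = 0 := by omega
        exact (sum_eq_zero_iff.1 h2) a (mem_univ a)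
      have h1 : ∀ S : Finset (Off B), kJ Q T k S = 1 := fun S =>
        prod_eq_one fun a _ => by rw [hk0 a, pow_zero]
      have h2 : ∏ a, (MP_1a91b9_ntH.Da.Nk (k a) : ℝ) = 1 := prod_eq_one fun a _ => by
        rw [hk0 a]
        simp [MP_1a91b9_ntH.Da.Nk]
      have h3 := AV_gen hO rf cf (fun S => (kJ Q T k S : ℂ)) hW0 hK (v4 y e)
      have h4 : AV (fun S : Finset (Off B) => e2 (∑ q ∈ S, (D4 (offG D B)).dg (v4 y e) q) *
          (kJ Q T k S : ℂ))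
          (((if y = 0 ∧ e = 0 then ∏ a, (MP_1a91b9_ntH.Da.Nk (k a) : ℝ) else 0 : ℝ)) : ℂ) := by
        refine AV.congr (AV_ch hO (v4 y e)) (fun S => ?_) ?_
        · rw [h1, Complex.ofReal_one, mul_one]
        · rw [h2]
          by_cases hy : y = 0 ∧ e = 0
          · rw [if_pos hy, if_pos (hv0.2 hy), Complex.ofReal_one]
          · rw [if_neg hy, if_neg (fun h => hy (hv0.1 h)), Complex.ofReal_zero]
      exact AV.uniq h3 h4 hn
    · refine eq_of_not_Sm hn fun ε hε => ?_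
      have hWp := norm_pos_iff.2 hW0
      obtain ⟨X1, hX1⟩ := genMo_lim hO rf cf (fun S => (kJ Q T k S : ℂ)) _ hK
        (wt_dg hO (v4 y e)) h0 (ε / 2 * ‖((MP_1a91b9_ntP.bJ Q T k : ℝ) : ℂ) *
          (Fintype.card (LabJ k → F4) : ℂ)‖) (by positivity)
      obtain ⟨X2, hX2⟩ := Z2_mom hD Q hB hT hi k y e (ε / 2) (by positivity)
      refine ⟨max X1 X2, fun X hX => ?_⟩
      have g1 := hX1 X ((le_max_left _ _).trans hX)
      have g2 := hX2 X ((le_max_right _ _).trans hX)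
      have e1 : ∑ S ∈ Sx (Off B) X, (∏ q ∈ S, e2 ((D4 (offG D B)).dg (v4 y e) q)) *
          (kJ Q T k S : ℂ) = ((∑ S ∈ Sx (Off B) X, kJ Q T k S *
            sg (F4.tr (y * (offG D B).toDat.A S) + (offG D B).lG e S) : ℝ) : ℂ) := by
        rw [Complex.ofReal_sum]
        refine sum_congr rfl fun S _ => ?_
        rw [← e2_sum, e2_v4, Complex.ofReal_mul, mul_comm]
      have e3 : ∀ s : Finset (Bool ⊕ (Unit ⊕ B) → ZMod 2), (∀ c, c ∈ s ↔ c = v4 y e) →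
          ∑ c0 ∈ s, TNG rf cf (w4 _) c0 = TNG rf cf (w4 _) (v4 y e) := by
        intro s hs
        exact sum_eq_single_of_mem (v4 y e) ((hs _).2 rfl) fun c hc hne =>
          absurd ((hs c).1 hc) hne
      rw [e1, e3] at g1
      swap
      · intro c
        simp only [mem_filter, mem_univ, true_and]
      have g3 : ‖((∑ S ∈ Sx (Off B) X, kJ Q T k S *
            sg (F4.tr (y * (offG D B).toDat.A S) + (offG D B).lG e S) : ℝ) : ℂ) -
            (((if y = 0 ∧ e = 0 then ∏ a, (MP_1a91b9_ntH.Da.Nk (k a) : ℝ) else 0 : ℝ)) : ℂ) *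
              ((Sx (Off B) X).card : ℂ)‖ ≤ ε / 2 * X := by
        rw [← Complex.ofReal_natCast, ← Complex.ofReal_mul, ← Complex.ofReal_sub,
          Complex.norm_real, Real.norm_eq_abs]
        exact g2
      have g4 := Z2_nrm hW0 g1 g3
      rw [Complex.norm_natCast] at g4
      refine g4.trans (le_of_eq ?_)
      field_simp
      ring
  rw [div_eq_iff hW0] at hval
  rw [hval]
  congr 1
  by_cases hy : y = 0 ∧ e = 0
  · rw [if_pos hy, if_pos (hv0.2 hy)]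
  · rw [if_neg hy, if_neg (fun h => hy (hv0.1 h)), Complex.ofReal_zero]

end

end Pool.Agent.Lib.MP_1a91b9_ntMQ
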