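import Pool.Agent.Lib.MP_1a91b9_ntMQ.RT0

/-!
# MP_1a91b9_nt (random multiquadratic fields), block R: the rules for `SubLI`
-/

set_option autoImplicit false
set_option linter.unusedSectionVars false

namespace Pool.Agent.Lib.MP_1a91b9_ntMQ

open Finset
open Pool.Agent.Lib.MP_1a91b9_ntH (PS nm Sx mem_Sx nm_union one_le_nm)

noncomputable section

variable {ι : Type} [DecidableEq ι] [PS ι] {r : ℕ}

/-- **RT1a** (easy). Monotonicity. Proof: as `SubL.mono` (MP_1a91b9_ntDV/T1.lean). If `S` is disjoint from `B` and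
`T ∈ tup r S`, then every `T i` is disjoint from `B` (`mem_tup`), so `(tup r S).filter P ⊆ (tup r S).filter Q`. -/
theorem SubLI.mono {B : Finset ι} {c : ℝ} {P Q : (Fin r → Finset ι) → Prop} (h : SubLI r B c P)
    (hPQ : ∀ T, (∀ i, Disjoint (T i) B) → P T → Q T) : SubLI r B c Q := by
  classical
  intro ε hε
  obtain ⟨X₀, hX₀⟩ := h ε hε
  refine ⟨X₀, fun X hX => le_trans ?_ (hX₀ X hX)⟩
  refine Nat.cast_le.2 (card_le_card fun S hS => ?_)
  rw [mem_filter] at hS ⊢
  refine ⟨hS.1, hS.2.1, lt_of_le_of_lt ?_ hS.2.2⟩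
  refine Nat.cast_le.2 (card_le_card fun T hT => ?_)
  rw [mem_filter] at hT ⊢
  exact ⟨hT.1, hPQ T (fun i => Disjoint.mono_left (mem_tup.1 hT.1 i) hS.2.1) hT.2⟩

/-- **RT1b** (easy). A smaller share. Proof: `(c' - ε) * (2 ^ S.card) ^ r ≤ (c - ε) * (2 ^ S.card) ^ r`. -/
theorem SubLI.anti {B : Finset ι} {c c' : ℝ} {P : (Fin r → Finset ι) → Prop} (h : SubLI r B c P)
    (hc : c' ≤ c) : SubLI r B c' P := by
  classical
  intro ε hε
  obtain ⟨X₀, hX₀⟩ := h ε hε
  refine ⟨X₀, fun X hX => le_trans ?_ (hX₀ X hX)⟩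
  refine Nat.cast_le.2 (card_le_card fun S hS => ?_)
  rw [mem_filter] at hS ⊢
  refine ⟨hS.1, hS.2.1, lt_of_lt_of_le hS.2.2 ?_⟩
  exact mul_le_mul_of_nonneg_right (by linarith) (by positivity)

/-- **RT1** (medium). From the sets outside `B` to all the sets.
Proof: as `SubL.glue` (T1c of MP_1a91b9_ntDV/T1.lean, the complete proof is there). Given `ε > 0`, let
`η = ε / (2 ^ B.card * (2 ^ B.card) ^ r)` (so `0 < η ≤ ε`), and let `X₀` be larger than the `X₀` of `h B'' _ η` for
all `B'' ∈ tup r B`. Let `X₀ ≤ X`. For `S ∈ Sx ι X` let `B' = S ∩ B`, `U = S \ B`: `Disjoint U B`,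
`nm U ≤ nm S ≤ X`. The tuples of subsets of `S = U ∪ B'` contain the different tuples `fun i => V i ∪ B'' i` with
`V ∈ tup r U` and `B'' ∈ tup r B'` (`B'' i = (V i ∪ B'' i) ∩ B`, `V i = (V i ∪ B'' i) \ B`), so
`∑ B'' ∈ tup r B', #{V ∈ tup r U | P (fun i => V i ∪ B'' i)} ≤ #{T ∈ tup r S | P T}` (`card_sigma` and
`card_le_card_of_injOn`). If for every `B'' ∈ tup r B'` one had
`(c - η) * (2 ^ U.card) ^ r ≤ #{V ∈ tup r U | P (V ∪ B'')}` then, summing over the `(2 ^ B'.card) ^ r` tuples `B''`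
(`card_tup`), `(c - ε) * (2 ^ S.card) ^ r ≤ (c - η) * (2 ^ U.card) ^ r * (2 ^ B'.card) ^ r ≤ #{T ∈ tup r S | P T}`
and `S` is not bad. So for a bad `S` there is `B'' ∈ tup r B'` such that `U` is in the bad set of `h B'' _ η`. The map
`S ↦ (S ∩ B, S \ B)` is injective, so the number of the bad `S` is at most
`2 ^ B.card * ∑ B'' ∈ tup r B, #bad B'' ≤ 2 ^ B.card * ((2 ^ B.card) ^ r * (η * X)) = ε * X`
(`card_le_card_of_injOn` into `B.powerset ×ˢ ((tup r B).biUnion bad)`, `card_biUnion_le`, `card_product`). -/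
theorem SubLI.glue {B : Finset ι} {c : ℝ} {P : (Fin r → Finset ι) → Prop}
    (h : ∀ B' : Fin r → Finset ι, (∀ i, B' i ⊆ B) → SubLI r B c fun T => P (fun i => T i ∪ B' i)) :
    SubLI r ∅ c P := by
  classical
  intro ε hε
  obtain ⟨N, hN⟩ : ∃ N : ℝ, N = 2 ^ B.card * (2 ^ B.card) ^ r := ⟨_, rfl⟩
  have hN1 : 1 ≤ N := by
    have h1 : (1 : ℝ) ≤ 2 ^ B.card := one_le_pow₀ (by norm_num)
    have h2 : (1 : ℝ) ≤ (2 ^ B.card) ^ r := one_le_pow₀ h1
    rw [hN]
    nlinarith
  have hN0 : 0 < N := by linarith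
  obtain ⟨η, hη⟩ : ∃ η : ℝ, η = ε / N := ⟨_, rfl⟩
  have hη0 : 0 < η := by
    rw [hη]
    positivity
  have hηε : η ≤ ε := by
    rw [hη]
    exact div_le_self hε.le hN1
  have hη4 : N * η = ε := by
    rw [hη]
    field_simp
  choose X₀ hX₀ using fun (B' : Fin r → Finset ι) (hB' : ∀ i, B' i ⊆ B) => h B' hB' η hη0
  refine ⟨∑ B' ∈ (tup r B).attach, X₀ B'.1 (mem_tup.1 B'.2), fun X hX => ?_⟩
  have hbad : ∀ (B'' : Fin r → Finset ι), (∀ i, B'' i ⊆ B) → (((Sx ι X).filter fun S => Disjoint S B ∧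
      (((tup r S).filter fun T => P (fun i => T i ∪ B'' i)).card : ℝ) <
        (c - η) * (2 ^ S.card) ^ r).card : ℝ) ≤ η * X := by
    intro B'' hB''
    refine hX₀ B'' hB'' X (le_trans ?_ hX)
    exact Finset.single_le_sum (f := fun B' : (tup r B : Finset (Fin r → Finset ι)) =>
      X₀ B'.1 (mem_tup.1 B'.2)) (fun _ _ => Nat.zero_le _) (mem_attach _ ⟨B'', mem_tup.2 hB''⟩)
  obtain ⟨bad, hbad'⟩ : ∃ bad : (Fin r → Finset ι) → Finset (Finset ι), bad = fun B'' =>
      (Sx ι X).filter fun S => Disjoint S B ∧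
      (((tup r S).filter fun T => P (fun i => T i ∪ B'' i)).card : ℝ) <
        (c - η) * (2 ^ S.card) ^ r := ⟨_, rfl⟩
  have hb : ∀ B'' : Fin r → Finset ι, (∀ i, B'' i ⊆ B) → ((bad B'').card : ℝ) ≤ η * X := by
    intro B'' hB''
    rw [hbad']
    exact hbad B'' hB''
  have h1 : (((Sx ι X).filter fun S => Disjoint S ∅ ∧
      (((tup r S).filter P).card : ℝ) < (c - ε) * (2 ^ S.card) ^ r).card) ≤
      (B.powerset ×ˢ ((tup r B).biUnion bad)).card := by
    refine card_le_card_of_injOn (fun S => (S ∩ B, S \ B)) (fun S hS => ?_) fun S _ T _ hST => ?_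
    · obtain ⟨hS1, -, hS2⟩ := mem_filter.1 (mem_coe.1 hS)
      refine mem_coe.2 (mem_product.2 ⟨mem_powerset.2 inter_subset_right, ?_⟩)
      by_contra hcon
      rw [mem_biUnion] at hcon
      push Not at hcon
      have h2 : ∀ B'' ∈ tup r (S ∩ B), (c - η) * (2 ^ (S \ B).card) ^ r ≤
          (((tup r (S \ B)).filter fun V => P (fun i => V i ∪ B'' i)).card : ℝ) := by
        intro B'' hB''
        have h3 := hcon B'' (mem_tup.2 fun i => (mem_tup.1 hB'' i).trans inter_subset_right)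
        rw [hbad', mem_filter] at h3
        by_contra h4
        refine h3 ⟨?_, disjoint_sdiff_self_left, not_le.1 h4⟩
        rw [mem_Sx] at hS1 ⊢
        refine le_trans ?_ hS1
        have h6 : nm S = nm (S \ B) * nm (S ∩ B) := by
          rw [← nm_union (disjoint_sdiff_inter S B), sdiff_union_inter]
        rw [h6]
        exact Nat.le_mul_of_pos_right _ (one_le_nm _)
      have h7 : ∑ B'' ∈ tup r (S ∩ B),
          ((tup r (S \ B)).filter fun V => P (fun i => V i ∪ B'' i)).card ≤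
          ((tup r S).filter P).card := by
        rw [← card_sigma]
        refine card_le_card_of_injOn (fun p i => p.2 i ∪ p.1 i) (fun p hp => ?_)
          fun p hp q hq hpq => ?_
        · obtain ⟨hp1, hp2⟩ := mem_sigma.1 (mem_coe.1 hp)
          rw [mem_filter, mem_tup] at hp2
          rw [mem_tup] at hp1
          exact mem_coe.2 (mem_filter.2 ⟨mem_tup.2 fun i => union_subset
            ((hp2.1 i).trans sdiff_subset) ((hp1 i).trans inter_subset_left), hp2.2⟩)
        · obtain ⟨hp1, hp2⟩ := mem_sigma.1 (mem_coe.1 hp)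
          obtain ⟨hq1, hq2⟩ := mem_sigma.1 (mem_coe.1 hq)
          rw [mem_filter, mem_tup] at hp2 hq2
          rw [mem_tup] at hp1 hq1
          have key : ∀ V W : Finset ι, V ⊆ S \ B → W ⊆ S ∩ B → (V ∪ W) ∩ B = W ∧ (V ∪ W) \ B = V := by
            intro V W hV hW
            constructor
            · ext x
              rw [mem_inter, mem_union]
              refine ⟨fun hx => ?_, fun hx => ⟨Or.inr hx, (mem_inter.1 (hW hx)).2⟩⟩
              rcases hx.1 with h8 | h8
              · exact absurd hx.2 (mem_sdiff.1 (hV h8)).2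
              · exact h8
            · ext x
              rw [mem_sdiff, mem_union]
              refine ⟨fun hx => ?_, fun hx => ⟨Or.inl hx, (mem_sdiff.1 (hV hx)).2⟩⟩
              rcases hx.1 with h8 | h8
              · exact h8
              · exact absurd (mem_inter.1 (hW h8)).2 hx.2
          have hp3 := fun i => key (p.2 i) (p.1 i) (hp2.1 i) (hp1 i)
          have hq3 := fun i => key (q.2 i) (q.1 i) (hq2.1 i) (hq1 i)
          have hpq' : ∀ i, p.2 i ∪ p.1 i = q.2 i ∪ q.1 i := fun i => congrFun hpq i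
          have h9 : p.1 = q.1 := funext fun i => by rw [← (hp3 i).1, ← (hq3 i).1, hpq' i]
          have h10 : p.2 = q.2 := funext fun i => by rw [← (hp3 i).2, ← (hq3 i).2, hpq' i]
          exact Sigma.ext h9 (heq_of_eq h10)
      have h11 : (c - ε) * (2 ^ S.card) ^ r ≤ (((tup r S).filter P).card : ℝ) := by
        have h12 : (∑ B'' ∈ tup r (S ∩ B),
            (((tup r (S \ B)).filter fun V => P (fun i => V i ∪ B'' i)).card : ℝ)) ≤
            (((tup r S).filter P).card : ℝ) := by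
          exact_mod_cast h7
        refine le_trans ?_ h12
        refine le_trans ?_ (sum_le_sum h2)
        rw [sum_const, card_tup, nsmul_eq_mul, ← card_sdiff_add_card_inter S B, pow_add, mul_pow]
        push_cast
        have h13 : (0 : ℝ) ≤ (2 ^ (S \ B).card) ^ r * (2 ^ (S ∩ B).card) ^ r := by positivity
        nlinarith [mul_le_mul_of_nonneg_right (show c - ε ≤ c - η by linarith) h13]
      exact absurd hS2 (not_lt.2 h11)
    · have h14 := congrArg Prod.fst hST
      have h15 := congrArg Prod.snd hST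
      have h16 : S ∩ B = T ∩ B := h14
      have h17 : S \ B = T \ B := h15
      rw [← sdiff_union_inter S B, ← sdiff_union_inter T B, h16, h17]
  refine le_trans (Nat.cast_le.2 h1) ?_
  rw [card_product, card_powerset]
  have h18 : (((tup r B).biUnion bad).card : ℝ) ≤ (2 ^ B.card) ^ r * (η * X) := by
    refine le_trans (Nat.cast_le.2 card_biUnion_le) ?_
    rw [Nat.cast_sum]
    refine le_trans (sum_le_sum fun B'' hB'' => hb B'' (mem_tup.1 hB'')) ?_
    rw [sum_const, card_tup, nsmul_eq_mul]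
    push_cast
    exact le_rfl
  push_cast
  calc (2 : ℝ) ^ B.card * (((tup r B).biUnion bad).card : ℝ) ≤
        2 ^ B.card * ((2 ^ B.card) ^ r * (η * X)) :=
        mul_le_mul_of_nonneg_left h18 (by positivity)
    _ = (N * η) * X := by
        rw [hN]
        ring
    _ = ε * X := by rw [hη4]

end

end Pool.Agent.Lib.MP_1a91b9_ntMQ
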