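import Pool.Agent.Lib.MP_1a91b9_ntDV.T3
import Pool.Agent.Lib.MP_1a91b9_ntMQ.RT0

/-!
# MP_1a91b9_nt (random multiquadratic fields), block R: the tuples of divisors of a squarefree element
-/

set_option autoImplicit false
set_option linter.unusedSectionVars false

namespace Pool.Agent.Lib.MP_1a91b9_ntMQ

open Finset
open Pool.Agent.Lib.MP_1a91b9_ntH (PS nm Sx mem_Sx)
open Pool.Agent.Lib.MP_1a91b9_ntDV (Rep)

noncomputable section

variable {R : Type} [CommRing R] [IsDomain R] {ι : Type} [DecidableEq ι] [PS ι] {I : Type}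
  {q : ι → R} {μ : I → R}

open Classical in
/-- **RT3** (medium). The number of the tuples of divisors with a property. Proof: as `Rep.card_dvd`
(T3b, MP_1a91b9_ntDV/T3.lean). A divisor `d k` of the squarefree `D = μ i * ∏ S` is squarefree
(`Squarefree.squarefree_of_dvd`), so `d k = μ (j k) * ∏ T k` (`h.surj`, choose), with unique `j k`, `T k` (`h.inj`),
and by `Rep.dvd_iff` `μ (j k) ∣ μ i` and `T k ⊆ S`. So the type on the left is equivalent to the sigma type of the
`j` in the finset `Fintype.piFinset fun _ => univ.filter fun j => μ j ∣ μ i` and the `T` in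
`(tup r S).filter fun T => P (fun k => μ (j k) * ∏ x ∈ T k, q x)` (`Nat.card_congr`, `Equiv.ofBijective`;
injective: `funext` and `h.inj`; `Nat.card_sigma`, `Finset.sum_subtype`, `mem_tup`). -/
theorem card_dvdI [Fintype I] (h : Rep q μ) {r : ℕ} (i : I) (S : Finset ι)
    (P : (Fin r → R) → Prop) :
    Nat.card {d : Fin r → R // (∀ k, d k ∣ μ i * ∏ x ∈ S, q x) ∧ P d} =
      ∑ j ∈ Fintype.piFinset (fun _ : Fin r => (univ : Finset I).filter fun j => μ j ∣ μ i),
        ((tup r S).filter fun T => P (fun k => μ (j k) * ∏ x ∈ T k, q x)).card := by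
  set A : Finset (Fin r → I) :=
    Fintype.piFinset (fun _ : Fin r => (univ : Finset I).filter fun j => μ j ∣ μ i) with hA
  have hmem : ∀ j : Fin r → I, j ∈ A ↔ ∀ k, μ (j k) ∣ μ i := by
    intro j
    rw [hA, Fintype.mem_piFinset]
    refine forall_congr' fun k => ?_
    rw [Finset.mem_filter]
    exact ⟨fun h => h.2, fun h => ⟨Finset.mem_univ _, h⟩⟩
  have hf : Function.Bijective (fun z : (Σ j : {j : Fin r → I // j ∈ A},
      {T : Fin r → Finset ι // T ∈ (tup r S).filter fun T => P (fun k => μ (j.1 k) * ∏ x ∈ T k, q x)}) =>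
      (⟨fun k => μ (z.1.1 k) * ∏ x ∈ z.2.1 k, q x, fun k => (Rep.dvd_iff h).2 ⟨(hmem z.1.1).1 z.1.2 k,
        mem_tup.1 (Finset.mem_filter.1 z.2.2).1 k⟩, (Finset.mem_filter.1 z.2.2).2⟩ :
        {d : Fin r → R // (∀ k, d k ∣ μ i * ∏ x ∈ S, q x) ∧ P d})) := by
    constructor
    · rintro ⟨⟨j, hj⟩, ⟨T, hT⟩⟩ ⟨⟨j', hj'⟩, ⟨T', hT'⟩⟩ heq
      have h1 : (fun k => μ (j k) * ∏ x ∈ T k, q x) = fun k => μ (j' k) * ∏ x ∈ T' k, q x :=
        Subtype.ext_iff.1 heq
      have h2 : ∀ k, j k = j' k ∧ T k = T' k := fun k => h.inj _ _ _ _ (congrFun h1 k)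
      obtain rfl : j = j' := funext fun k => (h2 k).1
      obtain rfl : T = T' := funext fun k => (h2 k).2
      rfl
    · rintro ⟨d, hd, hP⟩
      have h0 : ∀ k, ∃ (j : I) (T : Finset ι), d k = μ j * ∏ x ∈ T, q x := fun k =>
        h.surj (d k) ((h.sqf i S).squarefree_of_dvd (hd k))
      choose j T hjT using h0
      have h1 : ∀ k, μ (j k) * ∏ x ∈ T k, q x ∣ μ i * ∏ x ∈ S, q x := fun k => by
        rw [← hjT k]
        exact hd k
      have h2 : d = fun k => μ (j k) * ∏ x ∈ T k, q x := funext hjT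
      refine ⟨⟨⟨j, (hmem j).2 fun k => ((Rep.dvd_iff h).1 (h1 k)).1⟩,
        ⟨T, Finset.mem_filter.2 ⟨mem_tup.2 fun k => ((Rep.dvd_iff h).1 (h1 k)).2, ?_⟩⟩⟩, ?_⟩
      · rw [← h2]
        exact hP
      · exact Subtype.ext h2.symm
  rw [← Nat.card_congr (Equiv.ofBijective _ hf), Nat.card_sigma]
  rw [Finset.sum_subtype (p := fun j => j ∈ A) A (fun j => Iff.rfl)]
  refine Finset.sum_congr rfl fun j _ => ?_
  rw [Nat.card_eq_fintype_card, Fintype.card_coe]

end

end Pool.Agent.Lib.MP_1a91b9_ntMQ
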