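import Pool.Agent.Lib.MP_1a91b9_ntDV.T4
import Pool.Agent.Lib.MP_1a91b9_ntMQ.RT1
import Pool.Agent.Lib.MP_1a91b9_ntMQ.RT3

/-!
# MP_1a91b9_nt (random multiquadratic fields), block R: from the sets of primes to the squarefree elements
-/

set_option autoImplicit false
set_option linter.unusedSectionVars false

namespace Pool.Agent.Lib.MP_1a91b9_ntMQ

open Finset
open Pool.Agent.Lib.MP_1a91b9_ntH (PS nm Sx mem_Sx)
open Pool.Agent.Lib.MP_1a91b9_ntDV (Rep FewL Pos)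

noncomputable section

variable {R : Type} [CommRing R] [IsDomain R] {ι : Type} [DecidableEq ι] [PS ι] {I : Type}
  {q : ι → R} {μ : I → R}

/-- **RT4** (medium). **The law for the tuples of divisors.** Proof: as `Rep.law` (T4, MP_1a91b9_ntDV/T4.lean; the
complete proof is there), with the index type `Option (Fin r → I)` in the place of `Option I`. Given `M`, `ε > 0`. Let
`κ` be the constant of `hpos`, `n = Fintype.card I`, `n' = Fintype.card (Fin r → I)`, and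
`η = min ε (ε * κ / ((n + 1) * (n' + 1)))`. `D = μ i * ∏ S` is bad if
`M ≤ #div` or `(c - ε) * (#div) ^ r ≤ #{d | (∀ k, d k ∣ D) ∧ P d}` fails. `Y none S` is `2 ^ S.card < M` and
`Y (some j) S` is `Disjoint S ∅ ∧ #{T ∈ tup r S | P (fun k => μ (j k) * ∏ T k)} < (c - η) * (2 ^ S.card) ^ r`. If
`¬ Y o S` for all `o`: `#div = m₀ * 2 ^ S.card` with `m₀ = #{j | μ j ∣ μ i} ≥ 1` (`Rep.card_dvd'`), and by
`card_dvdI`, summing over the `m₀ ^ r` functions `j` (`Fintype.card_piFinset_const`),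
`(c - ε) * (m₀ * 2 ^ S.card) ^ r ≤ (c - η) * (m₀ ^ r * (2 ^ S.card) ^ r) ≤ #{d | (∀ k, d k ∣ D) ∧ P d}` (`mul_pow`).
So `Rep.card_exc` (T4a) with `J = Option (Fin r → I)` applies, and with `hfew M η` and `hP j η` at `⌊X⌋₊` the number of
the bad `D` is at most `n * ((n' + 1) * (η * X)) ≤ ε * κ * X`. The rest is word for word as in `Rep.law`. -/
theorem lawI [Fintype I] (h : Rep q μ) (hfew : FewL ι) {m u : R} (hpos : Pos R m u) {r : ℕ}
    (P : (Fin r → R) → Prop) (c : ℝ)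
    (hP : ∀ j : Fin r → I, SubLI r ∅ c fun T => P (fun k => μ (j k) * ∏ x ∈ T k, q x)) :
    DivGI R r m u P c := by
  classical
  intro M ε hε
  obtain ⟨κ, hκ, hN⟩ := hpos
  have hn0 : (0 : ℝ) < (Fintype.card I : ℝ) + 1 := by positivity
  have hn1 : (0 : ℝ) < (Fintype.card (Fin r → I) : ℝ) + 1 := by positivity
  have hη : 0 < min ε (ε * κ / (((Fintype.card I : ℝ) + 1) * ((Fintype.card (Fin r → I) : ℝ) + 1))) :=
    lt_min hε (by positivity)
  have hηε : min ε (ε * κ / (((Fintype.card I : ℝ) + 1) * ((Fintype.card (Fin r → I) : ℝ) + 1))) ≤ ε := min_le_left _ _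
  have hηκ : min ε (ε * κ / (((Fintype.card I : ℝ) + 1) * ((Fintype.card (Fin r → I) : ℝ) + 1))) *
      (((Fintype.card I : ℝ) + 1) * ((Fintype.card (Fin r → I) : ℝ) + 1)) ≤ ε * κ := by
    rw [← le_div_iff₀ (by positivity)]
    exact min_le_right _ _
  generalize min ε (ε * κ / (((Fintype.card I : ℝ) + 1) * ((Fintype.card (Fin r → I) : ℝ) + 1))) = η at hη hηε hηκ
  let Y : Option (Fin r → I) → Finset ι → Prop := fun o S => match o with
    | none => 2 ^ S.card < M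
    | some j => Disjoint S ∅ ∧
        (((tup r S).filter fun T => P (fun k => μ (j k) * ∏ x ∈ T k, q x)).card : ℝ) <
        (c - η) * (2 ^ S.card) ^ r
  have hYb : ∀ o : Option (Fin r → I), ∃ X₀ : ℕ, ∀ X : ℕ, X₀ ≤ X → (((Sx ι X).filter (Y o)).card : ℝ) ≤ η * X := by
    intro o
    cases o with
    | none =>
      obtain ⟨X₁, h1⟩ := hfew M η hη
      refine ⟨X₁, fun X hX => le_trans (Nat.cast_le.2 (card_le_card fun S hS => ?_)) (h1 X hX)⟩
      have h2 := (@mem_filter _ _ (Classical.decPred _) _ _).1 hS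
      exact mem_filter.2 h2
    | some j =>
      obtain ⟨X₁, h1⟩ := hP j η hη
      refine ⟨X₁, fun X hX => le_trans (Nat.cast_le.2 (card_le_card fun S hS => ?_)) (h1 X hX)⟩
      have h2 := (@mem_filter _ _ (Classical.decPred _) _ _).1 hS
      exact mem_filter.2 h2
  choose X₀ hX₀ using hYb
  have hW : ∀ (i : I) (S : Finset ι), (m ∣ (μ i * ∏ x ∈ S, q x) - u ∧
      ¬ (M ≤ Nat.card {d : R // d ∣ μ i * ∏ x ∈ S, q x} ∧
        (c - ε) * (Nat.card {d : R // d ∣ μ i * ∏ x ∈ S, q x} : ℝ) ^ r ≤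
          Nat.card {d : Fin r → R // (∀ k, d k ∣ μ i * ∏ x ∈ S, q x) ∧ P d})) → ∃ j, Y j S := by
    intro i S hWS
    by_contra hcon
    push Not at hcon
    apply hWS.2
    rw [h.card_dvd' i S, card_dvdI h i S P]
    have hpos1 : 1 ≤ ((univ : Finset I).filter fun j => μ j ∣ μ i).card :=
      card_pos.2 ⟨i, mem_filter.2 ⟨mem_univ _, dvd_refl _⟩⟩
    have h1 : M ≤ 2 ^ S.card := not_lt.1 (hcon none)
    have h2 : ∀ j : Fin r → I, (c - η) * (2 ^ S.card) ^ r ≤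
        (((tup r S).filter fun T => P (fun k => μ (j k) * ∏ x ∈ T k, q x)).card : ℝ) := by
      intro j
      by_contra h3
      exact hcon (some j) ⟨disjoint_empty_right _, not_le.1 h3⟩
    refine ⟨?_, ?_⟩
    · calc M ≤ 1 * 2 ^ S.card := by rw [one_mul]; exact h1
        _ ≤ _ := Nat.mul_le_mul_right _ hpos1
    · push_cast
      calc (c - ε) * ((((univ : Finset I).filter fun j => μ j ∣ μ i).card : ℝ) * 2 ^ S.card) ^ r
          ≤ (c - η) * ((((univ : Finset I).filter fun j => μ j ∣ μ i).card : ℝ) * 2 ^ S.card) ^ r :=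
            mul_le_mul_of_nonneg_right (by linarith) (by positivity)
        _ = ∑ _j ∈ Fintype.piFinset (fun _ : Fin r => (univ : Finset I).filter fun j => μ j ∣ μ i),
              (c - η) * (2 ^ S.card) ^ r := by
            rw [sum_const, nsmul_eq_mul, Fintype.card_piFinset_const, mul_pow]
            push_cast
            ring
        _ ≤ _ := sum_le_sum fun j _ => h2 j
  filter_upwards [hN, Filter.eventually_gt_atTop (0 : ℝ),
    Filter.eventually_ge_atTop ((((univ : Finset (Option (Fin r → I))).sup X₀ + 1 : ℕ)) : ℝ)] with X hX1 hX2 hX3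
  have hfl : ∀ o : Option (Fin r → I), X₀ o ≤ ⌊X⌋₊ := by
    intro o
    have h1 : X₀ o ≤ (univ : Finset (Option (Fin r → I))).sup X₀ := le_sup (mem_univ o)
    refine h1.trans (Nat.le_floor ?_)
    push_cast at hX3
    linarith
  have hflX : (⌊X⌋₊ : ℝ) ≤ X := Nat.floor_le hX2.le
  have hNpos : 0 < (Nat.card {D : R // Squarefree D ∧ m ∣ D - u ∧ |Algebra.norm ℤ D| ≤ X} : ℝ) :=
    lt_of_lt_of_le (by positivity) hX1
  have hfin : Finite {D : R // Squarefree D ∧ m ∣ D - u ∧ |Algebra.norm ℤ D| ≤ X} := by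
    apply Nat.finite_of_card_ne_zero
    intro h0
    rw [h0] at hNpos
    simp at hNpos
  have hbad : (Nat.card {D : R // Squarefree D ∧ |Algebra.norm ℤ D| ≤ X ∧ (m ∣ D - u ∧
      ¬ (M ≤ Nat.card {d : R // d ∣ D} ∧
        (c - ε) * (Nat.card {d : R // d ∣ D} : ℝ) ^ r ≤
          Nat.card {d : Fin r → R // (∀ k, d k ∣ D) ∧ P d}))} : ℝ) ≤ ε * κ * X := by
    have h1 := h.card_exc hX2.le (fun D => m ∣ D - u ∧
      ¬ (M ≤ Nat.card {d : R // d ∣ D} ∧
        (c - ε) * (Nat.card {d : R // d ∣ D} : ℝ) ^ r ≤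
          Nat.card {d : Fin r → R // (∀ k, d k ∣ D) ∧ P d})) Y hW
    have h2 : ((Fintype.card I * ∑ j, ((Sx ι ⌊X⌋₊).filter (Y j)).card : ℕ) : ℝ) ≤ ε * κ * X := by
      push_cast
      have h3 : ∑ j : Option (Fin r → I), (((Sx ι ⌊X⌋₊).filter (Y j)).card : ℝ) ≤
          ((Fintype.card (Fin r → I) : ℝ) + 1) * (η * X) := by
        calc ∑ j : Option (Fin r → I), (((Sx ι ⌊X⌋₊).filter (Y j)).card : ℝ) ≤ ∑ _j : Option (Fin r → I), η * X :=
              sum_le_sum fun j _ => (hX₀ j _ (hfl j)).trans (mul_le_mul_of_nonneg_left hflX hη.le)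
          _ = ((Fintype.card (Fin r → I) : ℝ) + 1) * (η * X) := by
              rw [sum_const, nsmul_eq_mul, card_univ, Fintype.card_option]
              push_cast
              ring
      calc (Fintype.card I : ℝ) * ∑ j : Option (Fin r → I), (((Sx ι ⌊X⌋₊).filter (Y j)).card : ℝ)
          ≤ (Fintype.card I : ℝ) * (((Fintype.card (Fin r → I) : ℝ) + 1) * (η * X)) :=
            mul_le_mul_of_nonneg_left h3 (by positivity)
        _ ≤ ((Fintype.card I : ℝ) + 1) * (((Fintype.card (Fin r → I) : ℝ) + 1) * (η * X)) :=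
            mul_le_mul_of_nonneg_right (by linarith) (by positivity)
        _ = (η * (((Fintype.card I : ℝ) + 1) * ((Fintype.card (Fin r → I) : ℝ) + 1))) * X := by ring
        _ ≤ ε * κ * X := mul_le_mul_of_nonneg_right hηκ hX2.le
    exact le_trans (by exact_mod_cast h1) h2
  have e1 : Nat.card {D : R // Squarefree D ∧ m ∣ D - u ∧ |Algebra.norm ℤ D| ≤ X ∧
      M ≤ Nat.card {d : R // d ∣ D} ∧
      (c - ε) * (Nat.card {d : R // d ∣ D} : ℝ) ^ r ≤
          Nat.card {d : Fin r → R // (∀ k, d k ∣ D) ∧ P d}} =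
      Nat.card {y : {D : R // Squarefree D ∧ m ∣ D - u ∧ |Algebra.norm ℤ D| ≤ X} //
        M ≤ Nat.card {d : R // d ∣ y.1} ∧
        (c - ε) * (Nat.card {d : R // d ∣ y.1} : ℝ) ^ r ≤
          Nat.card {d : Fin r → R // (∀ k, d k ∣ y.1) ∧ P d}} :=
    Nat.card_congr ⟨fun x => ⟨⟨x.1, x.2.1, x.2.2.1, x.2.2.2.1⟩, x.2.2.2.2⟩,
      fun y => ⟨y.1.1, y.1.2.1, y.1.2.2.1, y.1.2.2.2, y.2⟩, fun _ => rfl, fun _ => rfl⟩
  have e2 : Nat.card {D : R // Squarefree D ∧ |Algebra.norm ℤ D| ≤ X ∧ (m ∣ D - u ∧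
      ¬ (M ≤ Nat.card {d : R // d ∣ D} ∧
        (c - ε) * (Nat.card {d : R // d ∣ D} : ℝ) ^ r ≤
          Nat.card {d : Fin r → R // (∀ k, d k ∣ D) ∧ P d}))} =
      Nat.card {y : {D : R // Squarefree D ∧ m ∣ D - u ∧ |Algebra.norm ℤ D| ≤ X} //
        ¬ (M ≤ Nat.card {d : R // d ∣ y.1} ∧
        (c - ε) * (Nat.card {d : R // d ∣ y.1} : ℝ) ^ r ≤
          Nat.card {d : Fin r → R // (∀ k, d k ∣ y.1) ∧ P d})} :=
    Nat.card_congr ⟨fun x => ⟨⟨x.1, x.2.1, x.2.2.2.1, x.2.2.1⟩, x.2.2.2.2⟩,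
      fun y => ⟨y.1.1, y.1.2.1, y.1.2.2.2, y.1.2.2.1, y.2⟩, fun _ => rfl, fun _ => rfl⟩
  have e3 : Nat.card {y : {D : R // Squarefree D ∧ m ∣ D - u ∧ |Algebra.norm ℤ D| ≤ X} //
        M ≤ Nat.card {d : R // d ∣ y.1} ∧
        (c - ε) * (Nat.card {d : R // d ∣ y.1} : ℝ) ^ r ≤
          Nat.card {d : Fin r → R // (∀ k, d k ∣ y.1) ∧ P d}} +
      Nat.card {y : {D : R // Squarefree D ∧ m ∣ D - u ∧ |Algebra.norm ℤ D| ≤ X} //
        ¬ (M ≤ Nat.card {d : R // d ∣ y.1} ∧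
        (c - ε) * (Nat.card {d : R // d ∣ y.1} : ℝ) ^ r ≤
          Nat.card {d : Fin r → R // (∀ k, d k ∣ y.1) ∧ P d})} =
      Nat.card {D : R // Squarefree D ∧ m ∣ D - u ∧ |Algebra.norm ℤ D| ≤ X} := by
    rw [← Nat.card_sum]
    exact Nat.card_congr (Equiv.sumCompl fun y :
      {D : R // Squarefree D ∧ m ∣ D - u ∧ |Algebra.norm ℤ D| ≤ X} =>
        M ≤ Nat.card {d : R // d ∣ y.1} ∧
        (c - ε) * (Nat.card {d : R // d ∣ y.1} : ℝ) ^ r ≤
          Nat.card {d : Fin r → R // (∀ k, d k ∣ y.1) ∧ P d})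
  have e4 : (Nat.card {D : R // Squarefree D ∧ m ∣ D - u ∧ |Algebra.norm ℤ D| ≤ X ∧
      M ≤ Nat.card {d : R // d ∣ D} ∧
      (c - ε) * (Nat.card {d : R // d ∣ D} : ℝ) ^ r ≤
          Nat.card {d : Fin r → R // (∀ k, d k ∣ D) ∧ P d}} : ℝ) +
      (Nat.card {D : R // Squarefree D ∧ |Algebra.norm ℤ D| ≤ X ∧ (m ∣ D - u ∧
      ¬ (M ≤ Nat.card {d : R // d ∣ D} ∧
        (c - ε) * (Nat.card {d : R // d ∣ D} : ℝ) ^ r ≤
          Nat.card {d : Fin r → R // (∀ k, d k ∣ D) ∧ P d}))} : ℝ) =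
      (Nat.card {D : R // Squarefree D ∧ m ∣ D - u ∧ |Algebra.norm ℤ D| ≤ X} : ℝ) := by
    rw [e1, e2]
    exact_mod_cast e3
  rw [le_div_iff₀ hNpos]
  have h5 : ε * (κ * X) ≤
      ε * (Nat.card {D : R // Squarefree D ∧ m ∣ D - u ∧ |Algebra.norm ℤ D| ≤ X} : ℝ) :=
    mul_le_mul_of_nonneg_left hX1 hε.le
  linarith

end

end Pool.Agent.Lib.MP_1a91b9_ntMQ
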