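import Pool.Agent.Lib.MP_1a91b9_ntMQ.RT0b
import Pool.Agent.Lib.MP_1a91b9_ntMQ.RT4

/-!
# MP_1a91b9_nt (random multiquadratic fields), block R: the law for the tuples in the generic rings
-/

set_option autoImplicit false
set_option linter.unusedSectionVars false

namespace Pool.Agent.Lib.MP_1a91b9_ntMQ

open Finset
open Pool.Agent.Lib.MP_1a91b9_ntH (PS nm Sx mem_Sx)
open Pool.Agent.Lib.MP_1a91b9_ntR (Qi Pri Pg DD sys nG GR gc Bad mu symm_union symmDiff_cancel)
open Pool.Agent.Lib.MP_1a91b9_ntS.G (FamI CndI)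
open Pool.Agent.Lib.MP_1a91b9_ntDV (famI_rep famI_pos fewR bad_famI)

noncomputable section

section sets

variable {ι : Type} [DecidableEq ι] {r : ℕ}

/-- **RT8a** (easy). Proof: `ext x`, `mem_sdJ`: no `i` is in `∅`, and `0` is not odd. -/
theorem sdJ_empty (T : Fin r → Finset ι) : sdJ ∅ T = ∅ := by
  ext x
  rw [mem_sdJ]
  simp

/-- **RT8b** (easy+). Proof: `ext x`, `mem_symmDiff`, `mem_sdJ`, `filter_insert`: if `x ∈ T j` the cardinality grows by
one (`card_insert_of_notMem`, `Nat.odd_add_one`), otherwise it is the same. -/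
theorem sdJ_insert {J : Finset (Fin r)} {j : Fin r} (hj : j ∉ J) (T : Fin r → Finset ι) :
    sdJ (insert j J) T = symmDiff (T j) (sdJ J T) := by
  ext x
  rw [mem_symmDiff, mem_sdJ, mem_sdJ, filter_insert]
  by_cases hx : x ∈ T j
  · have h1 : j ∉ J.filter fun i => x ∈ T i := fun h => hj (mem_filter.1 h).1
    rw [if_pos hx, card_insert_of_notMem h1, Nat.odd_add_one]
    tauto
  · rw [if_neg hx]
    tauto

/-- **RT8c** (easy+). Proof: `ext x`. For `x ∈ B`: `x ∉ T i` for all `i`, so `x ∈ T i ∪ B' i ↔ x ∈ B' i`; for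
`x ∉ B`: `x ∉ B' i`, so `x ∈ T i ∪ B' i ↔ x ∈ T i`. With `mem_sdJ`, `mem_union` (`Finset.filter_congr`); for `x ∈ B`
also `x ∉ sdJ J T`, for `x ∉ B` also `x ∉ sdJ J B'` (the filter is empty, `0` is not odd). -/
theorem sdJ_union {B : Finset ι} {T B' : Fin r → Finset ι} (hT : ∀ i, Disjoint (T i) B)
    (hB' : ∀ i, B' i ⊆ B) (J : Finset (Fin r)) :
    sdJ J (fun i => T i ∪ B' i) = sdJ J T ∪ sdJ J B' := by
  ext x
  rw [mem_union, mem_sdJ, mem_sdJ, mem_sdJ]
  have h0 : ¬ Odd 0 := by decide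
  by_cases hx : x ∈ B
  · have e1 : (J.filter fun i => x ∈ T i ∪ B' i) = J.filter fun i => x ∈ B' i := by
      refine filter_congr fun i _ => ?_
      rw [mem_union]
      exact ⟨fun h => h.resolve_left fun h2 => disjoint_left.1 (hT i) h2 hx, Or.inr⟩
    have e2 : (J.filter fun i => x ∈ T i) = ∅ :=
      filter_false_of_mem fun i _ h2 => disjoint_left.1 (hT i) h2 hx
    rw [e1, e2, card_empty]
    exact ⟨Or.inr, fun h => h.resolve_left h0⟩
  · have e1 : (J.filter fun i => x ∈ T i ∪ B' i) = J.filter fun i => x ∈ T i := by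
      refine filter_congr fun i _ => ?_
      rw [mem_union]
      exact ⟨fun h => h.resolve_right fun h2 => hx (hB' i h2), Or.inl⟩
    have e2 : (J.filter fun i => x ∈ B' i) = ∅ :=
      filter_false_of_mem fun i _ h2 => hx (hB' i h2)
    rw [e1, e2, card_empty]
    exact ⟨Or.inl, fun h => h.resolve_right h0⟩

/-- **RT8d** (easy). Proof: `mem_sdJ`: an odd number is not zero, so `x ∈ T i` for some `i`. -/
theorem sdJ_sub {B : Finset ι} {T : Fin r → Finset ι} (hT : ∀ i, T i ⊆ B) (J : Finset (Fin r)) :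
    sdJ J T ⊆ B := by
  intro x hx
  obtain ⟨i, hi⟩ := card_pos.1 (mem_sdJ.1 hx).pos
  exact hT i (mem_filter.1 hi).2

/-- **RT8e** (easy). Proof: as `sdJ_sub`, `Finset.disjoint_left`. -/
theorem sdJ_disjoint {B : Finset ι} {T : Fin r → Finset ι} (hT : ∀ i, Disjoint (T i) B)
    (J : Finset (Fin r)) : Disjoint (sdJ J T) B := by
  rw [disjoint_left]
  intro x hx
  obtain ⟨i, hi⟩ := card_pos.1 (mem_sdJ.1 hx).pos
  exact disjoint_left.1 (hT i) (mem_filter.1 hi).2

end sets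

variable {R : Type} [CommRing R] [IsDomain R] [IsPrincipalIdealRing R] [Qi R] [Pri R] {Q : R}
  {A : Type} [Fintype A] [DecidableEq A] {π : A → R}

/-- **RT8f** (medium-). The products of the entries. Proof: induction on `J` (`Finset.induction_on`). `J = ∅`:
`sdJ_empty`, `t = 1`, and `mu π 0 * DD ∅ = 1`: see how this is done in MP_1a91b9_ntR (`mu` and `DD` unfold to
products; `(0 : ZMod 2).val = 0`). `insert k J`: `prod_insert`, `sum_insert`, `sdJ_insert`, and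
`hB.mu_mul (j k) (∑ l ∈ J, j l) (S k) (sdJ J S)`, which gives `t'` with
`(mu π (j k) * DD (S k)) * (mu π (∑ ..) * DD (sdJ J S)) = mu π (j k + ∑ ..) * DD (symmDiff (S k) (sdJ J S)) * t' ^ 2` (up to
the form of the statement of `Bad.mu_mul`). -/
theorem prodJ (hB : Bad π) {r : ℕ} (j : Fin r → ZMod 2 × (A → ZMod 2)) (S : Fin r → Finset (Pg R))
    (J : Finset (Fin r)) :
    ∃ t : R, t ≠ 0 ∧ ∏ l ∈ J, (mu π (j l) * DD (S l)) =
      mu π (∑ l ∈ J, j l) * DD (sdJ J S) * t ^ 2 := by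
  induction J using Finset.induction_on with
  | empty =>
    refine ⟨1, one_ne_zero, ?_⟩
    rw [prod_empty, sum_empty, sdJ_empty]
    unfold mu Pool.Agent.Lib.MP_1a91b9_ntR.pb DD
    simp
  | insert k J hk ih =>
    obtain ⟨t, ht, h⟩ := ih
    obtain ⟨t', ht', h'⟩ := hB.mu_mul (j k) (∑ l ∈ J, j l) (S k) (sdJ J S)
    refine ⟨t' * t, mul_ne_zero ht' ht, ?_⟩
    rw [prod_insert hk, sum_insert hk, sdJ_insert hk, h]
    linear_combination t ^ 2 * h'

/-- **RT8** (medium-). **The law for the tuples of divisors.** Proof: as `bad_divG` (T8, MP_1a91b9_ntDV/T8.lean).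
`hB.exists_sf` gives for every `J`, `n` with `a J n ≠ 0` (choose, for the other `J` take any values)
`i J n`, `T₀ J n`, `s J n ≠ 0` with `a J n = mu π (i J n) * DD (T₀ J n) * s J n ^ 2`, and for a nonempty `J`
`fun n => (i J n, T₀ J n)` is injective by `hpw`. Let `B = univ.biUnion fun J => univ.biUnion (T₀ J)`. Use
`lawI (famI_rep (bad_famI hB)) fewR (famI_pos (bad_famI hB) hQ hQ0 hm (hB.exists_cls hu))`. For the multipliers
`j : Fin r → _`: `SubLI.glue` with `B`; for `B' i ⊆ B` take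
`hJ (fun J n => ∑ l ∈ J, j l + i J n) (fun J n => symmDiff (sdJ J B') (T₀ J n)) B` (contained in `B`: `sdJ_sub`;
injective by `add_left_cancel`, `symmDiff_cancel`) and `SubLI.mono`. For `T` disjoint from `B` and
`d k = mu π (j k) * DD (T k ∪ B' k)` (squarefree: `hB.sqf`): `prodJ` gives
`∏ l ∈ J, d l = mu π (∑ j l) * DD (sdJ J (T ∪ B')) * t ^ 2`, `sdJ_union` gives `sdJ J (T ∪ B') = sdJ J T ∪ sdJ J B'`, and
`hB.mu_mul (∑ j l) (i J n) (sdJ J T ∪ sdJ J B') (T₀ J n)` together with `symm_union` (`sdJ_disjoint`, as in T8) gives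
`a J n * ∏ l ∈ J, d l = mu π (∑ j l + i J n) * DD (sdJ J T ∪ symmDiff (sdJ J B') (T₀ J n)) * (t * t' * s) ^ 2`. So
`hP` applies. -/
theorem bad_divGI (hB : Bad π) (hQ : (sys R).Mod Q) (hQ0 : Q ≠ 0)
    {Good : ZMod 2 × (A → ZMod 2) → Finset (Pg R) → Prop} {c : ℝ} {r N : ℕ} (hJ : DLRI Good c r N)
    {a : Finset (Fin r) → Fin N → R} (hne : ∀ J n, a J n ≠ 0)
    (hpw : ∀ J : Finset (Fin r), J.Nonempty → ∀ n n', n ≠ n' → ¬ ∃ y : R, y ^ 2 = a J n * a J n')
    {m u : R} (hm : m ∣ Q)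
    (hu : ∀ x, ¬ (π x ^ 2 ∣ m ∧ π x ^ 2 ∣ u)) (P : (Fin r → R) → Prop)
    (hP : ∀ d : Fin r → R, (∀ k, Squarefree (d k)) → (∀ J : Finset (Fin r), J.Nonempty → ∀ n,
      ∃ (i : ZMod 2 × (A → ZMod 2)) (S : Finset (Pg R)) (t : R),
      t ≠ 0 ∧ a J n * ∏ k ∈ J, d k = mu π i * DD S * t ^ 2 ∧ Good i S) → P d) :
    DivGI R r m u P (c ^ ((2 ^ r - 1) * N)) := by
  have h1 : ∀ J n, ∃ (i : ZMod 2 × (A → ZMod 2)) (T : Finset (Pg R)) (s : R), s ≠ 0 ∧
      a J n = mu π i * DD T * s ^ 2 := fun J n => hB.exists_sf (a J n) (hne J n)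
  choose i T₀ s hs hT using h1
  have hinj : ∀ J : Finset (Fin r), J.Nonempty → Function.Injective fun n => (i J n, T₀ J n) := by
    intro J hJn n n' h
    by_contra hnn
    apply hpw J hJn n n' hnn
    simp only [Prod.mk.injEq] at h
    refine ⟨mu π (i J n) * DD (T₀ J n) * s J n * s J n', ?_⟩
    rw [hT J n, hT J n', ← h.1, ← h.2]
    ring
  obtain ⟨B, hBd⟩ : ∃ B : Finset (Pg R),
      B = univ.biUnion fun J : Finset (Fin r) => univ.biUnion (T₀ J) := ⟨_, rfl⟩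
  have hTB : ∀ J n, T₀ J n ⊆ B := fun J n => by
    rw [hBd]
    exact (subset_biUnion_of_mem (T₀ J) (mem_univ n)).trans
      (subset_biUnion_of_mem (fun J : Finset (Fin r) => univ.biUnion (T₀ J)) (mem_univ J))
  refine lawI (famI_rep (bad_famI hB)) fewR (famI_pos (bad_famI hB) hQ hQ0 hm (hB.exists_cls hu)) P
    (c ^ ((2 ^ r - 1) * N)) fun j => ?_
  refine SubLI.glue (B := B) fun B' hB' => ?_
  have h2 := hJ (fun J n => ∑ l ∈ J, j l + i J n) (fun J n => symmDiff (sdJ J B') (T₀ J n)) B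
    (fun J n => by
      intro q hq
      rw [mem_symmDiff] at hq
      rcases hq with hq | hq
      · exact sdJ_sub hB' J hq.1
      · exact hTB J n hq.1)
    (fun J hJn n n' h => by
      simp only [Prod.mk.injEq] at h
      apply hinj J hJn
      show (i J n, T₀ J n) = (i J n', T₀ J n')
      rw [add_left_cancel h.1, symmDiff_cancel h.2])
  refine h2.mono fun T hTd h3 => ?_
  show P (fun k => mu π (j k) * DD (T k ∪ B' k))
  refine hP _ (fun k => hB.sqf (j k) _) fun J hJn n => ?_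
  obtain ⟨t, ht, e1⟩ := prodJ hB j (fun k => T k ∪ B' k) J
  rw [sdJ_union hTd hB'] at e1
  obtain ⟨t', ht', e2⟩ := hB.mu_mul (∑ l ∈ J, j l) (i J n) (sdJ J T ∪ sdJ J B') (T₀ J n)
  have e3 : symmDiff (sdJ J T ∪ sdJ J B') (T₀ J n) = sdJ J T ∪ symmDiff (sdJ J B') (T₀ J n) := by
    rw [union_comm]
    exact symm_union (hTB J n) (sdJ_sub hB' J) (sdJ_disjoint hTd J)
  rw [e3] at e2
  refine ⟨∑ l ∈ J, j l + i J n, sdJ J T ∪ symmDiff (sdJ J B') (T₀ J n), t * t' * s J n,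
    mul_ne_zero (mul_ne_zero ht ht') (hs J n), ?_, h3 J hJn n⟩
  rw [hT J n]
  have e4 : ∏ k ∈ J, (mu π (j k) * DD (T k ∪ B' k)) =
      mu π (∑ l ∈ J, j l) * DD (sdJ J T ∪ sdJ J B') * t ^ 2 := e1
  rw [e4]
  linear_combination t ^ 2 * s J n ^ 2 * e2

end

end Pool.Agent.Lib.MP_1a91b9_ntMQ
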