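import Pool.Agent.Lib.MP_1a91b9_ntMQ.RT0

/-!
# MP_1a91b9_nt (random multiquadratic fields), block R: the exceptional tuples
-/

set_option autoImplicit false
set_option linter.unusedSectionVars false

namespace Pool.Agent.Lib.MP_1a91b9_ntMQ

open Finset

noncomputable section

open Classical in
/-- **RT5a** (medium-). If for fixed other entries at most `C` values of the entry `i` are exceptional, then the
number of the exceptional tuples with entries in `Δ` is at most `C * Δ.card ^ r / Δ.card`.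
Proof: let `s` be the set on the left and `f d = Function.update d i 0`. `f` maps `s` into
`Fintype.piFinset fun j => if j = i then {0} else Δ`, whose cardinality `n'` is `∏ j, (if j = i then 1 else Δ.card)`
(`Fintype.card_piFinset`), and `Δ.card * n' = Δ.card ^ r` (`Finset.prod_ite`, or
`Fintype.prod_eq_mul_prod_compl i` / `Finset.mul_prod_erase univ _ (mem_univ i)`). A fiber of `f` has at most `C`
elements: for `d` in the fiber of `b` one has `d = Function.update b i (d i)` (`Function.update_idem`,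
`Function.update_eq_self`), so `d ↦ d i` is injective on the fiber and maps it into
`{x | Squarefree x ∧ Z (Function.update b i x)}` (`Set.ncard` of it is at most `C`, `Set.ncard_coe_finset`,
`Finset.card_image_of_injOn`). `Finset.card_le_mul_card_image` gives `s.card ≤ C * n'`; multiply by `Δ.card`. -/
theorem exc_card {R : Type} [CommRing R] {r : ℕ} (Δ : Finset R) (hΔ : ∀ x ∈ Δ, Squarefree x)
    (Z : (Fin r → R) → Prop) (i : Fin r) (C : ℕ)
    (hZ : ∀ d : Fin r → R, {x : R | Squarefree x ∧ Z (Function.update d i x)}.Finite ∧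
      {x : R | Squarefree x ∧ Z (Function.update d i x)}.ncard ≤ C) :
    Δ.card * ((Fintype.piFinset fun _ : Fin r => Δ).filter Z).card ≤ C * Δ.card ^ r := by
  obtain ⟨s, hs⟩ : ∃ s : Finset (Fin r → R), s = (Fintype.piFinset fun _ : Fin r => Δ).filter Z := ⟨_, rfl⟩
  obtain ⟨T, hT⟩ : ∃ T : Finset (Fin r → R), T = Fintype.piFinset fun j : Fin r => if j = i then {0} else Δ := ⟨_, rfl⟩
  have h1 : s.card ≤ C * (s.image fun d => Function.update d i 0).card := by
    refine card_le_mul_card_image s C fun b _ => ?_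
    obtain ⟨hf, hc⟩ := hZ b
    refine le_trans ?_ hc
    rw [Set.ncard_eq_toFinset_card _ hf]
    refine card_le_card_of_injOn (fun d => d i) (fun d hd => ?_) (fun d hd d' hd' hdd => ?_)
    · rw [mem_coe, mem_filter] at hd
      obtain ⟨hd1, hd2⟩ := hd
      rw [hs, mem_filter, Fintype.mem_piFinset] at hd1
      rw [mem_coe, Set.Finite.mem_toFinset]
      refine ⟨hΔ _ (hd1.1 i), ?_⟩
      rw [← hd2, Function.update_idem, Function.update_eq_self]
      exact hd1.2
    · rw [mem_coe, mem_filter] at hd hd'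
      have e1 : d = Function.update b i (d i) := by
        rw [← hd.2, Function.update_idem, Function.update_eq_self]
      have e2 : d' = Function.update b i (d' i) := by
        rw [← hd'.2, Function.update_idem, Function.update_eq_self]
      have e3 : d i = d' i := hdd
      rw [e1, e2, e3]
  have h2 : (s.image fun d => Function.update d i 0) ⊆ T := by
    intro x hx
    obtain ⟨d, hd, rfl⟩ := mem_image.1 hx
    rw [hs, mem_filter, Fintype.mem_piFinset] at hd
    rw [hT, Fintype.mem_piFinset]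
    intro j
    by_cases hj : j = i
    · rw [if_pos hj, hj, Function.update_self]
      exact mem_singleton_self _
    · rw [if_neg hj, Function.update_of_ne hj]
      exact hd.1 j
  have h3 : T.card = ∏ j ∈ univ.erase i, Δ.card := by
    rw [hT, Fintype.card_piFinset, ← mul_prod_erase univ _ (mem_univ i), if_pos rfl, card_singleton, one_mul]
    refine prod_congr rfl fun j hj => ?_
    rw [if_neg (ne_of_mem_erase hj)]
  have h4 : Δ.card * T.card = Δ.card ^ r := by
    have e1 : Δ.card ^ r = ∏ _j : Fin r, Δ.card := by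
      rw [prod_const, card_univ, Fintype.card_fin]
    rw [h3, e1]
    exact mul_prod_erase univ (fun _ => Δ.card) (mem_univ i)
  rw [← hs, ← h4]
  calc Δ.card * s.card ≤ Δ.card * (C * T.card) :=
        Nat.mul_le_mul_left _ (h1.trans (Nat.mul_le_mul_left _ (card_le_card h2)))
    _ = C * (Δ.card * T.card) := by ring

/-- **RT5** (medium). **Removing the exceptional tuples.** Proof: as `DivG.fin` (T5a, MP_1a91b9_ntDV/T5.lean). Let
`E = s.card * C`. Given `M` and `ε`, use `h M' (ε / 2)` with `M' = M + 1 + ⌈2 * E / ε⌉₊`. Let `D` be counted there, and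
`n = Nat.card {d // d ∣ D} ≥ M'`, so `n ≠ 0` and the set of the divisors is finite (`Nat.finite_of_card_ne_zero`); let
`Δ` be the finset of the divisors, `Δ.card = n`; they are squarefree. `{d | (∀ i, d i ∣ D) ∧ P d}` is the finset
`(Fintype.piFinset fun _ => Δ).filter P`, which is contained in `(piFinset Δ).filter Q` together with the
`(piFinset Δ).filter (Z a)`, `a ∈ s`; by `exc_card` the cardinality of the latter is at most `C * n ^ r / n`, so
`#P ≤ #Q + E * n ^ r / n ≤ #Q + ε / 2 * n ^ r` because `2 * E / ε ≤ n`. So every `D` counted in `h M' (ε / 2)` is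
counted in the claim; the set of the claim is finite by `hfin`. -/
theorem DivGI.exc {R : Type} [CommRing R] [IsDomain R] {r : ℕ} {m u : R}
    {P Q : (Fin r → R) → Prop} {c : ℝ}
    (hfin : ∀ X : ℝ, {D : R | Squarefree D ∧ |Algebra.norm ℤ D| ≤ X}.Finite)
    (h : DivGI R r m u P c) {τ : Type} (s : Finset τ) (Z : τ → (Fin r → R) → Prop) (C : ℕ)
    (hPQ : ∀ d : Fin r → R, (∀ i, Squarefree (d i)) → P d → Q d ∨ ∃ a ∈ s, Z a d)
    (hZ : ∀ a ∈ s, ∃ i : Fin r, ∀ d : Fin r → R,
      {x : R | Squarefree x ∧ Z a (Function.update d i x)}.Finite ∧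
      {x : R | Squarefree x ∧ Z a (Function.update d i x)}.ncard ≤ C) :
    DivGI R r m u Q c := by
  classical
  intro M ε hε
  obtain ⟨E, hE⟩ : ∃ E : ℕ, E = s.card * C := ⟨_, rfl⟩
  obtain ⟨M', hM'⟩ : ∃ M' : ℕ, M' = M + 1 + ⌈2 * (E : ℝ) / ε⌉₊ := ⟨_, rfl⟩
  filter_upwards [h M' (ε / 2) (by positivity)] with X hX
  have hsub : {D : R | Squarefree D ∧ m ∣ D - u ∧ |Algebra.norm ℤ D| ≤ X ∧
      M' ≤ Nat.card {d : R // d ∣ D} ∧
      (c - ε / 2) * (Nat.card {d : R // d ∣ D} : ℝ) ^ r ≤
        Nat.card {d : Fin r → R // (∀ i, d i ∣ D) ∧ P d}} ⊆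
      {D : R | Squarefree D ∧ m ∣ D - u ∧ |Algebra.norm ℤ D| ≤ X ∧
      M ≤ Nat.card {d : R // d ∣ D} ∧
      (c - ε) * (Nat.card {d : R // d ∣ D} : ℝ) ^ r ≤
        Nat.card {d : Fin r → R // (∀ i, d i ∣ D) ∧ Q d}} := by
    rintro D ⟨h1, h2, h3, h4, h5⟩
    refine ⟨h1, h2, h3, by omega, ?_⟩
    have hn : Nat.card {d : R // d ∣ D} ≠ 0 := by omega
    have hfd : {d : R | d ∣ D}.Finite := Set.finite_coe_iff.1 (Nat.finite_of_card_ne_zero hn)
    obtain ⟨Δ, hΔ⟩ : ∃ Δ : Finset R, ∀ x, x ∈ Δ ↔ x ∣ D := ⟨hfd.toFinset, fun x => hfd.mem_toFinset⟩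
    have hΔc : Nat.card {d : R // d ∣ D} = Δ.card := by
      have e1 : {d : R | d ∣ D} = (Δ : Set R) := by
        ext x
        exact (hΔ x).symm
      have e2 : Nat.card {d : R // d ∣ D} = {d : R | d ∣ D}.ncard := rfl
      rw [e2, e1, Set.ncard_coe_finset]
    have hsq : ∀ x ∈ Δ, Squarefree x := fun x hx => h1.squarefree_of_dvd ((hΔ x).1 hx)
    have hct : ∀ P' : (Fin r → R) → Prop, Nat.card {d : Fin r → R // (∀ i, d i ∣ D) ∧ P' d} =
        ((Fintype.piFinset fun _ : Fin r => Δ).filter P').card := by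
      intro P'
      have e1 : {d : Fin r → R | (∀ i, d i ∣ D) ∧ P' d} =
          (((Fintype.piFinset fun _ : Fin r => Δ).filter P' : Finset (Fin r → R)) : Set (Fin r → R)) := by
        ext d
        rw [mem_coe, mem_filter, Fintype.mem_piFinset]
        exact and_congr_left fun _ => forall_congr' fun i => (hΔ (d i)).symm
      have e2 : Nat.card {d : Fin r → R // (∀ i, d i ∣ D) ∧ P' d} =
          {d : Fin r → R | (∀ i, d i ∣ D) ∧ P' d}.ncard := rfl
      rw [e2, e1, Set.ncard_coe_finset]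
    obtain ⟨W, hW⟩ : ∃ W : ℕ, W = ∑ a ∈ s, ((Fintype.piFinset fun _ : Fin r => Δ).filter (Z a)).card := ⟨_, rfl⟩
    have hA : ((Fintype.piFinset fun _ : Fin r => Δ).filter P).card ≤
        ((Fintype.piFinset fun _ : Fin r => Δ).filter Q).card + W := by
      have h6 : (Fintype.piFinset fun _ : Fin r => Δ).filter P ⊆
          (Fintype.piFinset fun _ : Fin r => Δ).filter Q ∪
            s.biUnion fun a => (Fintype.piFinset fun _ : Fin r => Δ).filter (Z a) := by
        intro d hd
        rw [mem_filter] at hd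
        rw [mem_union, mem_biUnion, mem_filter]
        rcases hPQ d (fun i => hsq _ (Fintype.mem_piFinset.1 hd.1 i)) hd.2 with h7 | ⟨a, ha, h7⟩
        · exact Or.inl ⟨hd.1, h7⟩
        · exact Or.inr ⟨a, ha, mem_filter.2 ⟨hd.1, h7⟩⟩
      refine (card_le_card h6).trans ((card_union_le _ _).trans (Nat.add_le_add_left ?_ _))
      rw [hW]
      exact card_biUnion_le
    have hB : Δ.card * W ≤ E * Δ.card ^ r := by
      rw [hW, mul_sum, hE, mul_assoc]
      refine sum_le_card_nsmul s _ _ fun a ha => ?_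
      obtain ⟨i, hi⟩ := hZ a ha
      exact exc_card Δ hsq (Z a) i C hi
    have hn0 : (0 : ℝ) < Δ.card := by
      rw [hΔc] at hn
      exact_mod_cast Nat.pos_of_ne_zero hn
    have hEn : (E : ℝ) ≤ ε / 2 * (Δ.card : ℝ) := by
      have h6 : 2 * (E : ℝ) / ε ≤ (Δ.card : ℝ) :=
        (Nat.le_ceil _).trans (Nat.cast_le.2 (by omega))
      rw [div_le_iff₀ hε] at h6
      linarith
    have hp : (0 : ℝ) ≤ (Δ.card : ℝ) ^ r := by positivity
    have hWr : (W : ℝ) ≤ ε / 2 * (Δ.card : ℝ) ^ r := by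
      have h6 : (Δ.card : ℝ) * W ≤ E * (Δ.card : ℝ) ^ r := by exact_mod_cast hB
      have h7 : (E : ℝ) * (Δ.card : ℝ) ^ r ≤ ε / 2 * (Δ.card : ℝ) * (Δ.card : ℝ) ^ r :=
        mul_le_mul_of_nonneg_right hEn hp
      have h8 : (Δ.card : ℝ) * W ≤ (Δ.card : ℝ) * (ε / 2 * (Δ.card : ℝ) ^ r) := by
        refine h6.trans (h7.trans (le_of_eq ?_))
        ring
      exact le_of_mul_le_mul_left h8 hn0
    have hA' : (((Fintype.piFinset fun _ : Fin r => Δ).filter P).card : ℝ) ≤
        (((Fintype.piFinset fun _ : Fin r => Δ).filter Q).card : ℝ) + W := by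
      exact_mod_cast hA
    rw [hct P, hΔc] at h5
    rw [hct Q, hΔc]
    have h9 : (c - ε) * (Δ.card : ℝ) ^ r = (c - ε / 2) * (Δ.card : ℝ) ^ r - ε / 2 * (Δ.card : ℝ) ^ r := by
      ring
    rw [h9]
    linarith
  have hcard : (Nat.card {D : R // Squarefree D ∧ m ∣ D - u ∧ |Algebra.norm ℤ D| ≤ X ∧
      M' ≤ Nat.card {d : R // d ∣ D} ∧
      (c - ε / 2) * (Nat.card {d : R // d ∣ D} : ℝ) ^ r ≤
        Nat.card {d : Fin r → R // (∀ i, d i ∣ D) ∧ P d}} : ℝ) ≤
      (Nat.card {D : R // Squarefree D ∧ m ∣ D - u ∧ |Algebra.norm ℤ D| ≤ X ∧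
      M ≤ Nat.card {d : R // d ∣ D} ∧
      (c - ε) * (Nat.card {d : R // d ∣ D} : ℝ) ^ r ≤
        Nat.card {d : Fin r → R // (∀ i, d i ∣ D) ∧ Q d}} : ℝ) :=
    Nat.cast_le.2 (Set.ncard_le_ncard hsub ((hfin X).subset fun D hD => ⟨hD.1, hD.2.2.1⟩))
  calc 1 - ε ≤ 1 - ε / 2 := by linarith
    _ ≤ _ := hX
    _ ≤ _ := div_le_div_of_nonneg_right hcard (Nat.cast_nonneg _)

/-- **RT5b** (easy). Monotonicity. Proof: `DivGI.exc` with `s = ∅` (`τ = Unit`). -/
theorem DivGI.mono {R : Type} [CommRing R] [IsDomain R] {r : ℕ} {m u : R}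
    {P Q : (Fin r → R) → Prop} {c : ℝ}
    (hfin : ∀ X : ℝ, {D : R | Squarefree D ∧ |Algebra.norm ℤ D| ≤ X}.Finite)
    (h : DivGI R r m u P c) (hPQ : ∀ d : Fin r → R, (∀ i, Squarefree (d i)) → P d → Q d) :
    DivGI R r m u Q c := by
  exact DivGI.exc hfin h (∅ : Finset Unit) (fun _ _ => False) 0 (fun d hd hp => Or.inl (hPQ d hd hp))
    (fun a ha => absurd ha (notMem_empty a))

end

end Pool.Agent.Lib.MP_1a91b9_ntMQ
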