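import Pool.Agent.Lib.MP_1a91b9_ntZ.Forms
import Pool.Agent.Lib.MP_1a91b9_ntMQ.RT5

/-!
# MP_1a91b9_nt (random multiquadratic fields, binomial form): the statements of the rank part over `F`
-/

set_option autoImplicit false

namespace Pool.Agent.Lib.MP_1a91b9_ntMQ

open NumberField WeierstrassCurve
open Pool.Agent.Lib.MP_1a91b9_ntW.J (RkZ twd)
open Pool.Agent.Lib.MP_1a91b9_ntZ (Atl bn SepF)

/-- The number of the nonempty subsets. -/
theorem card_ne (r : ℕ) :
    ((Finset.univ : Finset (Finset (Fin r))).filter Finset.Nonempty).card = 2 ^ r - 1 := by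
  have h1 : (Finset.univ : Finset (Finset (Fin r))).filter Finset.Nonempty =
      Finset.univ.erase ∅ := by
    ext J
    rw [Finset.mem_filter, Finset.mem_erase, Finset.nonempty_iff_ne_empty]
    exact and_comm
  rw [h1, Finset.card_erase_of_mem (Finset.mem_univ _), Finset.card_univ, Fintype.card_finset,
    Fintype.card_fin]

/-- The binomial law for the tuples of divisors over the extensions generated by `l`-th roots, `H` is the
condition on the classes. -/
def DBI (K : Type) [Field K] [NumberField K] (l : ℕ)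
    (H : (F : Type) → [Field F] → 𝓞 K → 𝓞 K → Prop) (E : Set K) (a b : K) (c : ℝ) : Prop :=
  ∀ (F : Type) [Field F] [NumberField F] [Algebra K F],
    IntermediateField.adjoin K {x : F | ∃ c : K, x ^ l = algebraMap K F c} = ⊤ →
    ∀ m u : 𝓞 K, H F m u → ∀ (r k : ℕ) (δ : Fin k → Finset (Fin r) → K),
    (∀ J : Finset (Fin r), J.Nonempty → SepF K F E fun i => δ i J) → ∀ t : ℕ,
    DivGI (𝓞 K) r m u (fun d => Atl t fun i => ∀ J : Finset (Fin r), J.Nonempty →
      RkZ (⟨0, algebraMap K F (δ i J * ((∏ j ∈ J, d j : 𝓞 K) : K) * a), 0,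
        algebraMap K F ((δ i J * ((∏ j ∈ J, d j : 𝓞 K) : K)) ^ 2 * b), 0⟩ : WeierstrassCurve F))
      (bn k t (c ^ ((2 ^ r - 1) * Module.finrank K F)))

/-- It is enough to prove the law when also the values for the empty set are not zero. -/
theorem DBI.of_ne {K : Type} [Field K] [NumberField K] {l : ℕ}
    {H : (F : Type) → [Field F] → 𝓞 K → 𝓞 K → Prop} {E : Set K} {a b : K} {c : ℝ}
    (h : ∀ (F : Type) [Field F] [NumberField F] [Algebra K F],
      IntermediateField.adjoin K {x : F | ∃ c : K, x ^ l = algebraMap K F c} = ⊤ →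
      ∀ m u : 𝓞 K, H F m u → ∀ (r k : ℕ) (δ : Fin k → Finset (Fin r) → K),
      (∀ i J, δ i J ≠ 0) →
      (∀ J : Finset (Fin r), J.Nonempty → SepF K F E fun i => δ i J) → ∀ t : ℕ,
      DivGI (𝓞 K) r m u (fun d => Atl t fun i => ∀ J : Finset (Fin r), J.Nonempty →
        RkZ (⟨0, algebraMap K F (δ i J * ((∏ j ∈ J, d j : 𝓞 K) : K) * a), 0,
          algebraMap K F ((δ i J * ((∏ j ∈ J, d j : 𝓞 K) : K)) ^ 2 * b), 0⟩ :
            WeierstrassCurve F))
        (bn k t (c ^ ((2 ^ r - 1) * Module.finrank K F)))) : DBI K l H E a b c := by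
  classical
  intro F _ _ _ hF m u hmu r k δ hδ t
  have h1 := h F hF m u hmu r k (fun i J => if J.Nonempty then δ i J else 1)
    (fun i J => by
      by_cases hJ : J.Nonempty
      · simp only [if_pos hJ]
        exact (hδ J hJ).1 i
      · simp only [if_neg hJ]
        exact one_ne_zero)
    (fun J hJ => by
      simp only [if_pos hJ]
      exact hδ J hJ) t
  refine (congrArg (fun P => DivGI (𝓞 K) r m u P
    (bn k t (c ^ ((2 ^ r - 1) * Module.finrank K F)))) (funext fun d => propext
      (Atl.congr fun i => forall_congr' fun J => forall_congr' fun hJ => ?_))).mp h1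
  rw [if_pos hJ]

end Pool.Agent.Lib.MP_1a91b9_ntMQ
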