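import Pool.Agent.Lib.MP_1a91b9_ntZ.D3Q
import Pool.Agent.Lib.MP_1a91b9_ntMQ.RU0
import Pool.Agent.Lib.MP_1a91b9_ntMQ.RT8
import Pool.Agent.Lib.MP_1a91b9_ntMQ.UT2

/-!
# MP_1a91b9_nt (random multiquadratic fields, binomial form), `ℚ(√-3)`: the law for the tuples of divisors
-/

set_option autoImplicit false
set_option linter.unusedSectionVars false

namespace Pool.Agent.Lib.MP_1a91b9_ntMQ

open NumberField Finset Pool.Agent.Lib.MP_1a91b9_ntT Pool.Agent.Lib.MP_1a91b9_ntH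
  Pool.Agent.Lib.MP_1a91b9_ntH2 Pool.Agent.Lib.MP_1a91b9_ntE
open Pool.Agent.Lib.MP_1a91b9_ntP (GdE)
open Pool.Agent.Lib.MP_1a91b9_ntN.G
open Pool.Agent.Lib.MP_1a91b9_ntS.G (FamI)
open Pool.Agent.Lib.MP_1a91b9_ntZ (Atl bn)
open Pool.Agent.Lib.MP_1a91b9_ntDV (rep3 few3 pos3)

noncomputable section

/-- The labels of the elements `a`. -/
theorem exists_labI {r k N : ℕ} {a : Fin k → Finset (Fin r) → Fin N → 𝓞 K}
    (hne : ∀ i J n, a i J n ≠ 0) :
    ∃ (fk : Fin k → Finset (Fin r) → Fin N → Bool) (ck : Fin k → Finset (Fin r) → Fin N → F4)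
      (T : Fin k → Finset (Fin r) → Fin N → Finset Pq)
      (s : Fin k → Finset (Fin r) → Fin N → 𝓞 K), (∀ i J n, s i J n ≠ 0) ∧
      (∀ i J n, a i J n = phE (fk i J n) (ck i J n) (T i J n) * s i J n ^ 2) := by
  have h1 : ∀ i J n, ∃ (f : Bool) (c : F4) (T : Finset Pq) (s : 𝓞 K), s ≠ 0 ∧
      a i J n = phE f c T * s ^ 2 := fun i J n => exists_sfE (a i J n) (hne i J n)
  choose fk ck T s hs hT using h1
  exact ⟨fk, ck, T, s, hs, hT⟩

variable {I : Type} [Fintype I] [DecidableEq I] {μ : I → 𝓞 K} {b : I → Bool} {jj : I → ℕ}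
  {cc : I → F4}

/-- The label of the product of the entries of a tuple. -/
theorem prodJ3 (H : Fm3 μ b jj cc) {r : ℕ} (j : Fin r → I) (J : Finset (Fin r)) :
    ∃ (f₀ : Bool) (e : ℕ) (c₀ : F4), ∀ S : Fin r → Finset Pq, ∃ t : 𝓞 K, t ≠ 0 ∧
      ∏ l ∈ J, (μ (j l) * DD (S l)) =
        wO ^ e * phE f₀ (qd.A (sdJ J S) + c₀) (sdJ J S) * t ^ 2 := by
  induction J using Finset.induction_on with
  | empty =>
    refine ⟨false, 0, 0, fun S => ⟨1, one_ne_zero, ?_⟩⟩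
    have hA : qd.A (∅ : Finset Pq) = 0 := by
      have h1 := A_symmDiff (∅ : Finset Pq) ∅
      rw [symmDiff_self] at h1
      have key : ∀ x : F4, x = x + x → x = 0 := by decide
      exact key _ h1
    rw [prod_empty, sdJ_empty, hA]
    unfold phE
    rw [dlc_kk, hA]
    have ha : F4.a 0 = 0 := by decide
    have hb : F4.b 0 = 0 := by decide
    simp [kk1, kk2, DD, ha, hb]
  | insert k J hk ih =>
    obtain ⟨f₀, e, c₀, h0⟩ := ih
    refine ⟨xor (b (j k)) f₀, jj (j k) + e, cc (j k) + c₀, fun S => ?_⟩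
    obtain ⟨t, ht, h1⟩ := h0 S
    obtain ⟨t', ht', h2⟩ := phE_mul (b (j k)) f₀ (qd.A (S k) + cc (j k))
      (qd.A (sdJ J S) + c₀) (S k) (sdJ J S)
    refine ⟨t' * t, mul_ne_zero ht' ht, ?_⟩
    have e1 : μ (j k) * DD (S k) = wO ^ jj (j k) * phE (b (j k)) (qd.A (S k) + cc (j k)) (S k) :=
      H.lab (j k) (S k)
    have e2 : qd.A (S k) + cc (j k) + (qd.A (sdJ J S) + c₀) =
        qd.A (symmDiff (S k) (sdJ J S)) + (cc (j k) + c₀) := by
      rw [A_symmDiff]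
      abel
    rw [e2] at h2
    rw [prod_insert hk, sdJ_insert hk, h1, e1, pow_add]
    linear_combination wO ^ jj (j k) * wO ^ e * t ^ 2 * h2

/-- The label of `a * x`. -/
theorem lab3I {x a s t₀ : 𝓞 K} {f₀ f : Bool} {e : ℕ} {c₀ c : F4} {T B' B S : Finset Pq}
    (hx : x = wO ^ e * phE f₀ (qd.A (S ∪ B') + c₀) (S ∪ B') * t₀ ^ 2) (ht₀ : t₀ ≠ 0)
    (hT : a = phE f c T * s ^ 2) (hs : s ≠ 0) (hTB : T ⊆ B) (hB' : B' ⊆ B) (hS : Disjoint S B)
    (h : GdE (xor f₀ f) (qd.A B' + c₀ + c + qd.A S) (S ∪ symmDiff B' T)) :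
    ∃ (f : Bool) (c : F4) (U : Finset Pq) (r : 𝓞 K), r ≠ 0 ∧
      a * x = phE f c U * r ^ 2 ∧ GdE f c U := by
  have hd : Disjoint S B' := disjoint_of_subset_right hB' hS
  obtain ⟨t, h3, h4⟩ := phE_mul f₀ f (qd.A (S ∪ B') + c₀) c (S ∪ B') T
  have e1 : symmDiff (S ∪ B') T = S ∪ symmDiff B' T := by
    rw [union_comm S B']
    exact symm_unionE hTB hB' hS
  refine ⟨xor f₀ f, qd.A (S ∪ B') + c₀ + c, S ∪ symmDiff B' T,
    t * s * t₀ * wO ^ (2 * e), mul_ne_zero (mul_ne_zero (mul_ne_zero h3 hs) ht₀) (wO_pow_ne _),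
    ?_, ?_⟩
  · rw [hx, hT, wO_pow_sq e, mul_pow, mul_pow, ← e1]
    linear_combination s ^ 2 * t₀ ^ 2 * (wO ^ (2 * e)) ^ 2 * h4
  · have e2 : qd.A (S ∪ B') + c₀ + c = qd.A B' + c₀ + c + qd.A S := by
      rw [A_union hd]
      abel
    rw [e2]
    exact h

/-- **No two of the `a` are equal up to sign modulo squares.** -/
theorem div3BI (H : Fm3 μ b jj cc) (hJ : JBI3) {r k N : ℕ} (hN : 0 < N)
    {a : Fin k → Finset (Fin r) → Fin N → 𝓞 K} (hne : ∀ i J n, a i J n ≠ 0)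
    (hdis : ∀ J : Finset (Fin r), J.Nonempty → ∀ i n i' n', (i, n) ≠ (i', n') →
      ¬ ∃ y : K, y ^ 2 = (a i J n : K) * a i' J n' ∨ y ^ 2 = -((a i J n : K) * a i' J n'))
    {m u : 𝓞 K} {n : ℕ} (hm : m ∣ 2 ^ n) (hu : ¬ (4 ∣ m ∧ 4 ∣ u)) (t : ℕ)
    (Pr : (Fin r → 𝓞 K) → Prop)
    (hPr : ∀ d : Fin r → 𝓞 K, (∀ l, Squarefree (d l)) →
      (Atl t fun i => ∀ J : Finset (Fin r), J.Nonempty → ∀ n, ∃ (f : Bool) (c : F4)
        (S : Finset Pq) (r : 𝓞 K), r ≠ 0 ∧ a i J n * ∏ l ∈ J, d l = phE f c S * r ^ 2 ∧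
        GdE f c S) → Pr d) :
    DivGI (𝓞 K) r m u Pr (bn k t (Da.cinf ^ ((2 ^ r - 1) * N))) := by
  classical
  obtain ⟨fk, ck, T, s, hs, hT⟩ := exists_labI hne
  obtain ⟨B, hBd⟩ : ∃ B : Finset Pq, B = univ.biUnion fun i : Fin k =>
      univ.biUnion fun J : Finset (Fin r) => univ.biUnion (T i J) := ⟨_, rfl⟩
  have hTB : ∀ i J n, T i J n ⊆ B := fun i J n => by
    rw [hBd]
    exact (subset_biUnion_of_mem (T i J) (mem_univ n)).trans
      ((subset_biUnion_of_mem (fun J : Finset (Fin r) => univ.biUnion (T i J)) (mem_univ J)).trans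
        (subset_biUnion_of_mem (fun i : Fin k => univ.biUnion fun J : Finset (Fin r) =>
          univ.biUnion (T i J)) (mem_univ i)))
  have hinj : ∀ J : Finset (Fin r), J.Nonempty → ∀ i n i' n', fk i J n = fk i' J n' →
      F4.tr (ck i J n) = F4.tr (ck i' J n') → T i J n = T i' J n' → (i, n) = (i', n') := by
    intro J hJn i n i' n' e1 e2 e3
    by_contra hii
    apply hdis J hJn i n i' n' hii
    refine ⟨((phE (fk i J n) (ck i' J n') (T i J n) * (s i J n * s i' J n') : 𝓞 K) : K), ?_⟩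
    rcases tr_eq_iffE e2 with e4 | e4
    · left
      have h2 : (phE (fk i J n) (ck i' J n') (T i J n) * (s i J n * s i' J n')) ^ 2 =
          a i J n * a i' J n' := by
        conv_rhs => rw [hT i J n, hT i' J n', ← e1, e4, ← e3]
        ring
      exact_mod_cast congrArg (fun z : 𝓞 K => (z : K)) h2
    · right
      have h2 : (phE (fk i J n) (ck i' J n') (T i J n) * (s i J n * s i' J n')) ^ 2 =
          -(a i J n * a i' J n') := by
        conv_rhs => rw [hT i J n, hT i' J n', ← e1, e4, ← e3, phE_add_one]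
        ring
      exact_mod_cast congrArg (fun z : 𝓞 K => (z : K)) h2
  have hne0 : Nonempty (Fin N) := ⟨⟨0, hN⟩⟩
  refine lawI (rep3 H) few3 (pos3 H hm hu) Pr (bn k t (Da.cinf ^ ((2 ^ r - 1) * N)))
    fun j => ?_
  choose f₀ e₀ c₀ hprod using fun J => prodJ3 H j J
  refine SubLI.glue (B := B) fun B' hB' => ?_
  refine SubLI.mono (hJ r k (fun _ _ => Fin N) (fun i J n => xor (f₀ J) (fk i J n))
    (fun i J n => qd.A (sdJ J B') + c₀ J + ck i J n) (fun i J n => symmDiff (sdJ J B') (T i J n))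
    B (fun i J n => ?_) (fun J hJn => ?_) (Da.cinf ^ ((2 ^ r - 1) * N))
    (pow_nonneg cinf_pos.le _) (fun i => ?_) t) fun S hS h2 => ?_
  · intro q hq
    rw [mem_symmDiff] at hq
    rcases hq with hq | hq
    · exact sdJ_sub hB' J hq.1
    · exact hTB i J n hq.1
  · rintro ⟨i, n⟩ ⟨i', n'⟩ h
    simp only [Prod.mk.injEq] at h
    have h5 := hinj J hJn i n i' n' (xor_cancelE h.1) (tr_cancelE h.2.1) (symmDiff_cancelE h.2.2)
    simp only [Prod.mk.injEq] at h5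
    obtain ⟨rfl, rfl⟩ := h5
    rfl
  · simp only [Fintype.card_fin, prod_const, card_ne]
    rw [← pow_mul, mul_comm N]
  · refine hPr _ (fun l => H.fam.sqf (j l) (S l ∪ B' l)) (h2.mono fun i h2 J hJn n => ?_)
    obtain ⟨t₁, ht₁, e1⟩ := hprod J fun l => S l ∪ B' l
    rw [sdJ_union hS hB'] at e1
    exact lab3I e1 ht₁ (hT i J n) (hs i J n) (hTB i J n) (sdJ_sub hB' J) (sdJ_disjoint hS J)
      (h2 J hJn n)

/-- **The blocks of the `a` are closed under the multiplication by `-1` modulo squares.** -/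
theorem div3PI (H : Fm3 μ b jj cc) (hP : JPI3) {r k N : ℕ} (hN : 0 < N)
    {a : Fin k → Finset (Fin r) → Fin N → 𝓞 K} (hne : ∀ i J n, a i J n ≠ 0)
    (hin : ∀ i J n n', n ≠ n' → ¬ ∃ y : K, y ^ 2 = (a i J n : K) * a i J n')
    (hcr : ∀ J : Finset (Fin r), J.Nonempty → ∀ i i', i ≠ i' → ∀ n n',
      ¬ ∃ y : K, y ^ 2 = (a i J n : K) * a i' J n')
    (hneg : ∀ i J n, ∃ (n' : Fin N) (z : K), z ≠ 0 ∧ -(a i J n : K) = a i J n' * z ^ 2)
    {m u : 𝓞 K} {n : ℕ} (hm : m ∣ 2 ^ n) (hu : ¬ (4 ∣ m ∧ 4 ∣ u)) (t : ℕ)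
    (Pr : (Fin r → 𝓞 K) → Prop)
    (hPr : ∀ d : Fin r → 𝓞 K, (∀ l, Squarefree (d l)) →
      (Atl t fun i => ∀ J : Finset (Fin r), J.Nonempty → ∀ n, ∃ (f : Bool) (c : F4)
        (S : Finset Pq) (r : 𝓞 K), r ≠ 0 ∧ a i J n * ∏ l ∈ J, d l = phE f c S * r ^ 2 ∧
        GdE f c S) → Pr d) :
    DivGI (𝓞 K) r m u Pr (bn k t (cS3 ^ ((2 ^ r - 1) * N))) := by
  classical
  obtain ⟨fk, ck, T, s, hs, hT⟩ := exists_labI hne
  obtain ⟨B, hBd⟩ : ∃ B : Finset Pq, B = univ.biUnion fun i : Fin k =>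
      univ.biUnion fun J : Finset (Fin r) => univ.biUnion (T i J) := ⟨_, rfl⟩
  have hTB : ∀ i J n, T i J n ⊆ B := fun i J n => by
    rw [hBd]
    exact (subset_biUnion_of_mem (T i J) (mem_univ n)).trans
      ((subset_biUnion_of_mem (fun J : Finset (Fin r) => univ.biUnion (T i J)) (mem_univ J)).trans
        (subset_biUnion_of_mem (fun i : Fin k => univ.biUnion fun J : Finset (Fin r) =>
          univ.biUnion (T i J)) (mem_univ i)))
  have hsK : ∀ i J n, ((s i J n : 𝓞 K) : K) ≠ 0 := fun i J n => by exact_mod_cast hs i J n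
  have hTK : ∀ i J n, ((a i J n : 𝓞 K) : K) =
      ((phE (fk i J n) (ck i J n) (T i J n) : 𝓞 K) : K) * ((s i J n : 𝓞 K) : K) ^ 2 := by
    intro i J n
    exact_mod_cast congrArg (fun z : 𝓞 K => (z : K)) (hT i J n)
  have hsq : ∀ i J n i' n', fk i J n = fk i' J n' → ck i J n = ck i' J n' →
      T i J n = T i' J n' → ∃ y : K, y ^ 2 = (a i J n : K) * a i' J n' := by
    intro i J n i' n' e1 e2 e3
    refine ⟨((phE (fk i J n) (ck i J n) (T i J n) * (s i J n * s i' J n') : 𝓞 K) : K), ?_⟩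
    have h2 : (phE (fk i J n) (ck i J n) (T i J n) * (s i J n * s i' J n')) ^ 2 =
        a i J n * a i' J n' := by
      conv_rhs => rw [hT i J n, hT i' J n', ← e1, ← e2, ← e3]
      ring
    exact_mod_cast congrArg (fun z : 𝓞 K => (z : K)) h2
  have hlab : ∀ i J, LabS (fk i J) (ck i J) (T i J) := by
    intro i J
    refine ⟨fun n n' e1 e2 e3 => ?_, ?_⟩
    · by_contra hnn
      exact hin i J n n' hnn (hsq i J n i n' e1 e2 e3)
    intro n
    obtain ⟨l, z, hz, h2⟩ := hneg i J n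
    have h3 : ((phE (fk i J n) (ck i J n + 1) (T i J n) : 𝓞 K) : K) *
        (((s i J n : 𝓞 K) : K) / (((s i J l : 𝓞 K) : K) * z)) ^ 2 =
        ((phE (fk i J l) (ck i J l) (T i J l) : 𝓞 K) : K) := by
      have e0 : ((phE (fk i J n) (ck i J n + 1) (T i J n) : 𝓞 K) : K) =
          -((phE (fk i J n) (ck i J n) (T i J n) : 𝓞 K) : K) := by
        rw [phE_add_one]
        push_cast
        ring
      rw [hTK i J n, hTK i J l] at h2
      rw [e0, div_pow, ← mul_div_assoc, div_eq_iff (pow_ne_zero 2 (mul_ne_zero (hsK i J l) hz))]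
      linear_combination h2
    obtain ⟨h4, h5, h6⟩ := phE_uniq h3
    exact ⟨l, h4.symm, h5.symm, h6.symm⟩
  have hX : ∀ J : Finset (Fin r), J.Nonempty → ∀ i i' n n', i ≠ i' →
      ¬ (fk i J n = fk i' J n' ∧ ck i J n = ck i' J n' ∧ T i J n = T i' J n') :=
    fun J hJn i i' n n' hii h => hcr J hJn i i' hii n n' (hsq i J n i' n' h.1 h.2.1 h.2.2)
  have hc0 : 0 ≤ cS3 ^ ((2 ^ r - 1) * N) := pow_nonneg (Real.sqrt_nonneg _) _
  have hne0 : ∀ i J, Nonempty (Rp (ck i J)) := fun i J => by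
    have h1 := (hlab i J).card
    exact Fintype.card_pos_iff.1 (by omega)
  choose σ g1 g2 g3 using fun i J => (hlab i J).sgn
  refine lawI (rep3 H) few3 (pos3 H hm hu) Pr (bn k t (cS3 ^ ((2 ^ r - 1) * N))) fun j => ?_
  choose f₀ e₀ c₀ hprod using fun J => prodJ3 H j J
  refine SubLI.glue (B := B) fun B' hB' => ?_
  refine SubLI.mono (hP r k (fun i J => Rp (ck i J)) (fun i J n => xor (f₀ J) (fk i J n.1))
    (fun i J n => qd.A (sdJ J B') + c₀ J + ck i J n.1)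
    (fun i J n => symmDiff (sdJ J B') (T i J n.1)) B (fun i J n => ?_) (fun J hJn => ?_)
    (cS3 ^ ((2 ^ r - 1) * N)) hc0 (fun i => ?_) t) fun S hS h2 => ?_
  · intro q hq
    rw [mem_symmDiff] at hq
    rcases hq with hq | hq
    · exact sdJ_sub hB' J hq.1
    · exact hTB i J _ hq.1
  · rintro ⟨i, n⟩ ⟨i', n'⟩ h4
    simp only [Prod.mk.injEq] at h4
    have h5 := tr_cancelE h4.2.1
    have h6 := (f4_a n.2 n'.2).2.2 h5
    have h7 := xor_cancelE h4.1
    have h8 := symmDiff_cancelE h4.2.2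
    by_cases hii : i = i'
    · subst hii
      have h9 : n = n' := Subtype.ext ((hlab i J).inj _ _ h7 h6 h8)
      rw [h9]
    · exact absurd ⟨h7, h6, h8⟩ (hX J hJn i i' n.1 n'.1 hii)
  · have h1 : cS3 ^ ((2 ^ r - 1) * N) =
        ∏ _J ∈ (univ : Finset (Finset (Fin r))).filter Finset.Nonempty, cS3 ^ N := by
      rw [prod_const, card_ne, ← pow_mul, mul_comm N]
    rw [h1]
    exact prod_le_prod (fun _ _ => pow_nonneg (Real.sqrt_nonneg _) _)
      fun J _ => (hlab i J).le_PiP (f₀ J)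
  · refine hPr _ (fun l => H.fam.sqf (j l) (S l ∪ B' l)) (h2.mono fun i h2 J hJn n => ?_)
    obtain ⟨t₁, ht₁, e1⟩ := hprod J fun l => S l ∪ B' l
    rw [sdJ_union hS hB'] at e1
    refine lab3I e1 ht₁ (hT i J n) (hs i J n) (hTB i J n) (sdJ_sub hB' J) (sdJ_disjoint hS J) ?_
    by_cases hi : (ck i J n).a = 0
    · exact (h2 J hJn ⟨n, hi⟩).1
    · have hi' : (ck i J (σ i J n)).a = 0 := by
        rw [g2]
        exact f4_b hi
      have h6 := (h2 J hJn ⟨σ i J n, hi'⟩).2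
      simp only at h6
      rw [g1, g2, g3] at h6
      have e : qd.A (sdJ J B') + c₀ J + (ck i J n + 1) + 1 + qd.A (sdJ J S) =
          qd.A (sdJ J B') + c₀ J + ck i J n + qd.A (sdJ J S) := by
        have h7 := f4_c (ck i J n)
        calc qd.A (sdJ J B') + c₀ J + (ck i J n + 1) + 1 + qd.A (sdJ J S)
            = qd.A (sdJ J B') + c₀ J + (ck i J n + 1 + 1) + qd.A (sdJ J S) := by abel
          _ = _ := by rw [h7]
      rw [e] at h6
      exact h6

end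

end Pool.Agent.Lib.MP_1a91b9_ntMQ
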