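import Pool.Agent.Lib.MP_1a91b9_ntMQ.Q0

/-!
A1: the families of subsets as colourings
-/

set_option autoImplicit false
set_option linter.unusedSectionVars false

namespace Pool.Agent.Lib.MP_1a91b9_ntMQ

open Finset Pool.Agent.Lib.MP_1a91b9_ntH Pool.Agent.Lib.MP_1a91b9_ntQ
open Pool.Agent.Lib.MP_1a91b9_ntQ.Da Pool.Agent.Lib.MP_1a91b9_ntV Pool.Agent.Lib.MP_1a91b9_ntM
open Pool.Agent.Lib.MP_1a91b9_ntDV

noncomputable section

variable {I A : Type} [Fintype I] [DecidableEq I] {ι : Type} [DecidableEq ι]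

/-- The family of subsets of `S` of the colouring `f`. -/
def colF (S : Finset ι) (f : S → I → ZMod 2) : I → Finset ι := fun i =>
  (univ.filter fun j : S => f j i = 1).map (Function.Embedding.subtype _)

private theorem A1_mem {S : Finset ι} {f : S → I → ZMod 2} {i : I} {x : ι} :
    x ∈ colF S f i ↔ ∃ h : x ∈ S, f ⟨x, h⟩ i = 1 := by
  unfold colF
  rw [mem_map]
  constructor
  · rintro ⟨j, hj, rfl⟩
    exact ⟨j.2, (mem_filter.1 hj).2⟩
  · rintro ⟨h, e⟩
    exact ⟨⟨x, h⟩, mem_filter.2 ⟨mem_univ _, e⟩, rfl⟩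

private theorem A1_inv {S : Finset ι} {c : I → Finset ι} (hc : ∀ i, c i ⊆ S) :
    colF S (fun j i => if (j : ι) ∈ c i then (1 : ZMod 2) else 0) = c := by
  funext i
  ext x
  rw [A1_mem]
  constructor
  · rintro ⟨h, e⟩
    by_contra hx
    have e' : (if x ∈ c i then (1 : ZMod 2) else 0) = 1 := e
    rw [if_neg hx] at e'
    exact zero_ne_one e'
  · intro h
    exact ⟨hc i h, if_pos h⟩

private theorem A1_cl {S : Finset ι} (f : S → I → ZMod 2) (j : S) :
    cl (colF S f) (j : ι) = f j := by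
  funext i
  show (if (j : ι) ∈ colF S f i then (1 : ZMod 2) else 0) = f j i
  rcases z2 (f j i) with h | h
  · rw [if_neg, h]
    rw [A1_mem]
    rintro ⟨h1, h2⟩
    have h3 : f j i = 1 := h2
    rw [h] at h3
    exact zero_ne_one h3
  · rw [if_pos, h]
    rw [A1_mem]
    exact ⟨j.2, h⟩

private theorem A1_dg {κ : Type} [Fintype κ] (D : Dat2 ι κ) {J : Type} (s : Finset J)
    (x : J → ZMod 2) (c : J → κ → ZMod 2) (q : ι) :
    D.dg (∑ a ∈ s, x a • c a) q = ∑ a ∈ s, x a * D.dg (c a) q := by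
  unfold Dat2.dg
  have h1 : ∀ j, (∑ a ∈ s, x a • c a) j * D.a q j = ∑ a ∈ s, x a * (c a j * D.a q j) := by
    intro j
    rw [Finset.sum_apply, sum_mul]
    exact sum_congr rfl fun a _ => by rw [Pi.smul_apply, smul_eq_mul, mul_assoc]
  rw [sum_congr rfl fun j _ => h1 j, sum_comm]
  exact sum_congr rfl fun a _ => (mul_sum _ _ _).symm

/-- **A1a** (easy+). Proof: `f ↦ colF S f` is a bijection from the colourings to the families of subsets of `S`; the inverse is
`c ↦ fun j i => if (j : ι) ∈ c i then 1 else 0` (a value in `ZMod 2` is `0` or `1`, `z2`): `Finset.sum_bij'` or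
`Finset.sum_nbij'`. -/
theorem sum_col (F : (I → Finset ι) → ℂ) (S : Finset ι) :
    ∑ c ∈ Fintype.piFinset (fun _ : I => S.powerset), F c = ∑ f : S → I → ZMod 2, F (colF S f) := by
  refine Finset.sum_bij'
    (fun (c : I → Finset ι) _ => (fun (j : S) i => if (j : ι) ∈ c i then (1 : ZMod 2) else 0))
    (fun (f : S → I → ZMod 2) _ => colF S f) ?_ ?_ ?_ ?_ ?_
  · intro c _
    exact mem_univ _
  · intro f _
    rw [Fintype.mem_piFinset]
    intro i
    rw [mem_powerset]
    intro x hx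
    exact (A1_mem.1 hx).1
  · intro c hc
    exact A1_inv fun i => mem_powerset.1 (Fintype.mem_piFinset.1 hc i)
  · intro f _
    funext j
    exact A1_cl f j
  · intro c hc
    rw [A1_inv fun i => mem_powerset.1 (Fintype.mem_piFinset.1 hc i)]

/-- **A1b** (easy+). Proof: for `q ∈ S` one has `cl (colF S f) q = f ⟨q, _⟩`; a prime `q` in the filter `phi a ⬝ᵥ cl c q = 1` is in
some `colF S f i`, so in `S`; conversely if `phi a ⬝ᵥ f j = 1` then some `f j i = 1` (otherwise `f j = 0` and the product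
is `0`), so `j` is in the union. -/
theorem TT_cf (phi : A → I → ZMod 2) (S : Finset ι) (f : S → I → ZMod 2) (a : A) :
    TT phi (colF S f) a = (univ.filter fun j : S => phi a ⬝ᵥ f j = 1).map
      (Function.Embedding.subtype _) := by
  ext x
  unfold TT
  rw [mem_filter, mem_map]
  constructor
  · rintro ⟨h1, h2⟩
    obtain ⟨i, -, hi⟩ := mem_biUnion.1 h1
    obtain ⟨h3, -⟩ := A1_mem.1 hi
    refine ⟨⟨x, h3⟩, mem_filter.2 ⟨mem_univ _, ?_⟩, rfl⟩
    rw [← A1_cl f ⟨x, h3⟩]
    exact h2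
  · rintro ⟨j, hj, rfl⟩
    have h1 := (mem_filter.1 hj).2
    refine ⟨?_, ?_⟩
    · have h2 : ∃ i, f j i = 1 := by
        by_contra hcon
        push Not at hcon
        have h3 : f j = 0 := funext fun i => (z2 (f j i)).resolve_right (hcon i)
        rw [h3, dotProduct_zero] at h1
        exact zero_ne_one h1
      obtain ⟨i, hi⟩ := h2
      exact mem_biUnion.2 ⟨i, mem_univ _, A1_mem.2 ⟨j.2, hi⟩⟩
    · show phi a ⬝ᵥ cl (colF S f) (j : ι) = 1
      rw [A1_cl]
      exact h1

variable {κ : Type} [Fintype κ]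

/-- **A1c** (easy+). Proof: `∏ e2 = e2 ∑` (`e2_sum`), `∑ q ∈ colF S f i, D.dg (b i) q = ∑ j : S, f j i * D.dg (b i) j`
(`sum_map`, `sum_filter`, `z2`), exchange the sums, `D.dg` is linear (`dg_smul`, `dg_fsum` in
MP_1a91b9_ntV/DJ/SysJ.lean or unfold `Dat2.dg`). -/
theorem chI_cf (D : Dat2 ι κ) (b : I → κ → ZMod 2) (S : Finset ι) (f : S → I → ZMod 2) :
    chI D b (colF S f) = e2 (∑ j : S, D.dg (∑ i, f j i • b i) j) := by
  unfold chI
  rw [← e2_sum]
  congr 1
  have h1 : ∀ i, ∑ q ∈ colF S f i, D.dg (b i) q = ∑ j : S, f j i * D.dg (b i) j := by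
    intro i
    unfold colF
    rw [sum_map, sum_filter]
    refine sum_congr rfl fun j _ => ?_
    rcases z2 (f j i) with h | h
    · rw [h, zero_mul, if_neg zero_ne_one]
    · rw [h, one_mul, if_pos rfl]
      rfl
  rw [sum_congr rfl fun i _ => h1 i, sum_comm]
  exact sum_congr rfl fun j _ => (A1_dg D univ (f j) b j).symm

end

end Pool.Agent.Lib.MP_1a91b9_ntMQ
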