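import Pool.Agent.Lib.MP_1a91b9_ntMQ.Q0

/-!
A2: a sum over the labellings of a subset as a sum over labellings of `S`
-/

set_option autoImplicit false
set_option linter.unusedSectionVars false

namespace Pool.Agent.Lib.MP_1a91b9_ntMQ

open Finset Pool.Agent.Lib.MP_1a91b9_ntH Pool.Agent.Lib.MP_1a91b9_ntQ
open Pool.Agent.Lib.MP_1a91b9_ntQ.Da Pool.Agent.Lib.MP_1a91b9_ntV Pool.Agent.Lib.MP_1a91b9_ntM
open Pool.Agent.Lib.MP_1a91b9_ntDV

noncomputable section

variable {ι : Type} [DecidableEq ι] {κ : Type} {L : Type} [Fintype L] [DecidableEq L] [Zero L]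

private theorem A2_prod {P : Type} [CommMonoid P] {S T : Finset ι} {h : S → ZMod 2}
    (hT : ∀ x, x ∈ T ↔ ∃ hx : x ∈ S, h ⟨x, hx⟩ = 1) (A : S → P) :
    ∏ t : T, A ⟨t, ((hT t).1 t.2).1⟩ = ∏ j : S, if h j = 1 then A j else 1 := by
  rw [← Finset.prod_filter]
  refine Finset.prod_bij (fun t _ => ⟨t, ((hT t).1 t.2).1⟩) ?_ ?_ ?_ (fun _ _ => rfl)
  · intro t _
    exact Finset.mem_filter.2 ⟨Finset.mem_univ _, ((hT t).1 t.2).2⟩
  · intro t _ t' _ e
    exact Subtype.ext (congrArg (fun j : S => (j : ι)) e)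
  · intro j hj
    exact ⟨⟨j, (hT j).2 ⟨j.2, (Finset.mem_filter.1 hj).2⟩⟩, Finset.mem_univ _, rfl⟩

private theorem A2_sum {P : Type} [AddCommMonoid P] {S T : Finset ι} {h : S → ZMod 2}
    (hT : ∀ x, x ∈ T ↔ ∃ hx : x ∈ S, h ⟨x, hx⟩ = 1) (A : S → P) :
    ∑ t : T, A ⟨t, ((hT t).1 t.2).1⟩ = ∑ j : S, if h j = 1 then A j else 0 := by
  rw [← Finset.sum_filter]
  refine Finset.sum_bij (fun t _ => ⟨t, ((hT t).1 t.2).1⟩) ?_ ?_ ?_ (fun _ _ => rfl)
  · intro t _
    exact Finset.mem_filter.2 ⟨Finset.mem_univ _, ((hT t).1 t.2).2⟩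
  · intro t _ t' _ e
    exact Subtype.ext (congrArg (fun j : S => (j : ι)) e)
  · intro j hj
    exact ⟨⟨j, (hT j).2 ⟨j.2, (Finset.mem_filter.1 hj).2⟩⟩, Finset.mem_univ _, rfl⟩

private theorem A2_z2 (a : ZMod 2) : a = 0 ∨ a = 1 := by
  revert a
  decide

private theorem A2_ite (a b : ZMod 2) : (if a = 1 then b else 0) = a * b := by
  rcases A2_z2 a with rfl | rfl
  · rw [if_neg (by decide), zero_mul]
  · rw [if_pos rfl, one_mul]

private theorem A2_main (D : Dat2 ι κ) (Phi : L → L → ZMod 2) (g : L → ι → ℂ) {S T : Finset ι}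
    {h : S → ZMod 2} (hT : ∀ x, x ∈ T ↔ ∃ hx : x ∈ S, h ⟨x, hx⟩ = 1) (x : S → L) :
    (∏ j : T, g (x ⟨j, ((hT j).1 j.2).1⟩) j) *
        e2 (∑ j : T, ∑ l : T, Phi (x ⟨j, ((hT j).1 j.2).1⟩) (x ⟨l, ((hT l).1 l.2).1⟩) * D.s j l) =
      (∏ j : S, if h j = 1 then g (x j) j else 1) *
        e2 (∑ j : S, ∑ l : S, h j * h l * Phi (x j) (x l) * D.s j l) := by
  have h1 := A2_prod hT (fun j : S => g (x j) j)
  have h2 : ∀ j : S, ∑ l : T, Phi (x j) (x ⟨l, ((hT l).1 l.2).1⟩) * D.s j l =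
      ∑ l : S, h l * (Phi (x j) (x l) * D.s j l) := by
    intro j
    rw [A2_sum hT (fun l : S => Phi (x j) (x l) * D.s j l)]
    exact Finset.sum_congr rfl fun l _ => A2_ite _ _
  have h3 : ∑ j : T, ∑ l : T, Phi (x ⟨j, ((hT j).1 j.2).1⟩) (x ⟨l, ((hT l).1 l.2).1⟩) * D.s j l =
      ∑ j : S, ∑ l : S, h j * h l * Phi (x j) (x l) * D.s j l := by
    have h4 := A2_sum hT (fun j : S => ∑ l : S, h l * (Phi (x j) (x l) * D.s j l))
    calc ∑ j : T, ∑ l : T, Phi (x ⟨j, ((hT j).1 j.2).1⟩) (x ⟨l, ((hT l).1 l.2).1⟩) * D.s j l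
        = ∑ j : T, ∑ l : S, h l * (Phi (x ⟨j, ((hT j).1 j.2).1⟩) (x l) * D.s j l) :=
          Finset.sum_congr rfl fun j _ => h2 ⟨j, ((hT j).1 j.2).1⟩
      _ = ∑ j : S, if h j = 1 then ∑ l : S, h l * (Phi (x j) (x l) * D.s j l) else 0 := h4
      _ = _ := by
          refine Finset.sum_congr rfl fun j _ => ?_
          rw [A2_ite, Finset.mul_sum]
          exact Finset.sum_congr rfl fun l _ => by ring
  rw [h3]
  exact congrArg (· * _) h1

open Classical in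
/-- **A2** (medium-). The labellings of the subset `T = {j | h j = 1}` of `S` are the labellings `x` of `S` with `x j = 0` for
`h j = 0`. Proof: similar to `avg_BF` (MP_1a91b9_ntDV/E1.lean, proved). `x ↦ (fun t : T => x ⟨t, _⟩)` is a bijection from the
`x : S → L` in the filter to `T → L` (inverse: extension by `0`): `Finset.sum_bij'`. The product over `j : T` is the
product over `j : S` of `if h j = 1 then .. else 1` (`prod_filter`, `prod_map`), and in the exponent `h j * h l` is `1` if both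
`j, l ∈ T` and `0` otherwise (`z2`). -/
theorem BF_ext (D : Dat2 ι κ) (Phi : L → L → ZMod 2) (g : L → ι → ℂ) (S : Finset ι)
    (h : S → ZMod 2) :
    BF D Phi g ((univ.filter fun j : S => h j = 1).map (Function.Embedding.subtype _)) =
      ∑ x ∈ univ.filter (fun x : S → L => ∀ j, h j = 0 → x j = 0),
        (∏ j : S, if h j = 1 then g (x j) j else 1) *
          e2 (∑ j : S, ∑ l : S, h j * h l * Phi (x j) (x l) * D.s j l) := by
  have hT : ∀ x, x ∈ (univ.filter fun j : S => h j = 1).map (Function.Embedding.subtype _) ↔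
      ∃ hx : x ∈ S, h ⟨x, hx⟩ = 1 := by
    intro x
    rw [Finset.mem_map]
    constructor
    · rintro ⟨j, hj, rfl⟩
      exact ⟨j.2, (Finset.mem_filter.1 hj).2⟩
    · rintro ⟨hx, h1⟩
      exact ⟨⟨x, hx⟩, Finset.mem_filter.2 ⟨Finset.mem_univ _, h1⟩, rfl⟩
  obtain ⟨T, hTe⟩ : ∃ T : Finset ι, T = (univ.filter fun j : S => h j = 1).map (Function.Embedding.subtype _) :=
    ⟨_, rfl⟩
  rw [← hTe] at hT ⊢
  unfold BF
  refine Finset.sum_bij' (fun f _ => fun j : S => if hj : (j : ι) ∈ T then f ⟨j, hj⟩ else 0)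
    (fun x _ => fun t : T => x ⟨t, ((hT t).1 t.2).1⟩) ?_ ?_ ?_ ?_ ?_
  · intro f _
    refine Finset.mem_filter.2 ⟨Finset.mem_univ _, fun j hj => dif_neg fun hjT => ?_⟩
    obtain ⟨_, h1⟩ := (hT j).1 hjT
    exact zero_ne_one (hj.symm.trans h1)
  · intro x _
    exact Finset.mem_univ _
  · intro f _
    funext t
    exact dif_pos t.2
  · intro x hx
    have hx' := (Finset.mem_filter.1 hx).2
    funext j
    by_cases hj : (j : ι) ∈ T
    · exact dif_pos hj
    · refine (dif_neg hj).trans (hx' j ?_).symm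
      rcases A2_z2 (h j) with h1 | h1
      · exact h1
      · exact absurd ((hT j).2 ⟨j.2, h1⟩) hj
  · intro f _
    have h1 := A2_main D Phi g hT (fun j : S => if hj : (j : ι) ∈ T then f ⟨j, hj⟩ else 0)
    have h2 : ∀ t : T, (if hj : ((⟨t, ((hT t).1 t.2).1⟩ : S) : ι) ∈ T then f ⟨_, hj⟩ else 0) = f t :=
      fun t => dif_pos t.2
    simp only [h2] at h1
    exact h1

end

end Pool.Agent.Lib.MP_1a91b9_ntMQ
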