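import Pool.Agent.Lib.MP_1a91b9_ntMQ.A1
import Pool.Agent.Lib.MP_1a91b9_ntMQ.A2

/-!
A3: the product over the `a`, for one colouring
-/

set_option autoImplicit false
set_option linter.unusedSectionVars false

namespace Pool.Agent.Lib.MP_1a91b9_ntMQ

open Finset Pool.Agent.Lib.MP_1a91b9_ntH Pool.Agent.Lib.MP_1a91b9_ntQ
open Pool.Agent.Lib.MP_1a91b9_ntQ.Da Pool.Agent.Lib.MP_1a91b9_ntV Pool.Agent.Lib.MP_1a91b9_ntM
open Pool.Agent.Lib.MP_1a91b9_ntDV

noncomputable section

variable {I A : Type} [Fintype I] [DecidableEq I] [Fintype A] [DecidableEq A] {k : A → ℕ}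
  {ι : Type} [DecidableEq ι] {κ : Type}

open Classical in
/-- **A3** (medium-). Proof: `TT_cf` and `BF_ext` with `h = fun j => phi a ⬝ᵥ f j` for every `a`; the product of the sums is the sum over the
families `x : ∀ a, S → Lab2 (k a)` in the product of the filters (`Finset.prod_univ_sum`: `Fintype.piFinset`), which are in
bijection with the `y : S → Lb phi k` with the colours `f` (`y j = ⟨(f j, fun a => x a j), _⟩`; `Finset.sum_bij'`). The products
over `j` and `a` are exchanged (`prod_comm`), and `∑ a, ∑ j, ∑ l, .. = ∑ j, ∑ l, PL phi k (y j) (y l) * D.s j l`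
(`e2_sum`, `sum_comm`, `sum_mul`, the definition of `PL`). -/
theorem BF_prod (D : Dat2 ι κ) (phi : A → I → ZMod 2) (g : ∀ a, Lab2 (k a) → ι → ℂ) (S : Finset ι)
    (f : S → I → ZMod 2) :
    ∏ a, BF D (Phi1 PhiQ) (g a) (TT phi (colF S f) a) =
      ∑ y ∈ univ.filter (fun y : S → Lb phi k => ∀ j, (y j).1.1 = f j),
        (∏ j : S, ∏ a, if phi a ⬝ᵥ f j = 1 then g a ((y j).1.2 a) j else 1) *
          e2 (∑ j : S, ∑ l : S, PL phi k (y j) (y l) * D.s j l) := by
  have h1 : ∏ a, BF D (Phi1 PhiQ) (g a) (TT phi (colF S f) a) =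
      ∏ a, ∑ x ∈ univ.filter (fun x : S → Lab2 (k a) => ∀ j, phi a ⬝ᵥ f j = 0 → x j = 0),
        (∏ j : S, if phi a ⬝ᵥ f j = 1 then g a (x j) j else 1) *
          e2 (∑ j : S, ∑ l : S, (phi a ⬝ᵥ f j) * (phi a ⬝ᵥ f l) * Phi1 PhiQ (x j) (x l) * D.s j l) :=
    prod_congr rfl fun a _ => by
      rw [TT_cf]
      exact BF_ext D (Phi1 PhiQ) (g a) S fun j => phi a ⬝ᵥ f j
  rw [h1, Finset.prod_univ_sum]
  have hmem : ∀ X : ∀ a, S → Lab2 (k a), X ∈ Fintype.piFinset (fun a =>
      univ.filter (fun x : S → Lab2 (k a) => ∀ j, phi a ⬝ᵥ f j = 0 → x j = 0)) ↔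
      ∀ a, ∀ j, phi a ⬝ᵥ f j = 0 → X a j = 0 := by
    intro X
    rw [Fintype.mem_piFinset]
    exact forall_congr' fun a => by rw [mem_filter, and_iff_right (mem_univ _)]
  refine Finset.sum_bij' (fun X hX j => (⟨(f j, fun a => X a j), fun a h => (hmem X).1 hX a j h⟩ : Lb phi k))
    (fun y _ a j => (y j).1.2 a) ?_ ?_ ?_ ?_ ?_
  · intro X hX
    rw [mem_filter]
    exact ⟨mem_univ _, fun j => rfl⟩
  · intro y hy
    rw [hmem]
    intro a j h
    have h2 := (mem_filter.1 hy).2 j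
    rw [← h2] at h
    exact (y j).2 a h
  · intro X hX
    rfl
  · intro y hy
    funext j
    apply Subtype.ext
    apply Prod.ext
    · exact ((mem_filter.1 hy).2 j).symm
    · rfl
  · intro X hX
    rw [prod_mul_distrib, prod_comm, ← e2_sum]
    congr 2
    rw [sum_comm]
    refine sum_congr rfl fun j _ => ?_
    rw [sum_comm]
    refine sum_congr rfl fun l _ => ?_
    unfold PL
    rw [sum_mul]

end

end Pool.Agent.Lib.MP_1a91b9_ntMQ
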