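import Pool.Agent.Lib.MP_1a91b9_ntMQ.A3

/-!
A4: the mean value over the families of subsets is a sum over labellings
-/

set_option autoImplicit false
set_option linter.unusedSectionVars false

namespace Pool.Agent.Lib.MP_1a91b9_ntMQ

open Finset Pool.Agent.Lib.MP_1a91b9_ntH Pool.Agent.Lib.MP_1a91b9_ntQ
open Pool.Agent.Lib.MP_1a91b9_ntQ.Da Pool.Agent.Lib.MP_1a91b9_ntV Pool.Agent.Lib.MP_1a91b9_ntM
open Pool.Agent.Lib.MP_1a91b9_ntDV

noncomputable section

variable {I A : Type} [Fintype I] [DecidableEq I] [Fintype A] [DecidableEq A] {k : A → ℕ}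
  {ι : Type} [DecidableEq ι] {κ : Type} [Fintype κ]

/-- The function of the first moment. -/
def FB (D : Dat2 ι κ) (phi : A → I → ZMod 2) (k : A → ℕ) (cc : ∀ a, Lab2 (k a) → κ → ZMod 2)
    (b : I → κ → ZMod 2) (c : I → Finset ι) : ℂ :=
  chI D b c * ∏ a, BF D (Phi1 PhiQ) (gk D (cc a)) (TT phi c a)

private theorem A4_fsum {B : Type} (D : Dat2 ι κ) (s : Finset B) (c : B → κ → ZMod 2) (q : ι) :
    D.dg (∑ x ∈ s, c x) q = ∑ x ∈ s, D.dg (c x) q := by
  classical
  induction s using Finset.induction_on with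
  | empty => rw [sum_empty, sum_empty, dg_zero]
  | insert x s hx ih => rw [sum_insert hx, sum_insert hx, dg_add, ih]

private theorem A4_pt (D : Dat2 ι κ) (phi : A → I → ZMod 2) (cc : ∀ a, Lab2 (k a) → κ → ZMod 2)
    (b : I → κ → ZMod 2) (z : Lb phi k) (q : ι) :
    e2 (D.dg (∑ i, z.1.1 i • b i) q) *
      (∏ a, if phi a ⬝ᵥ z.1.1 = 1 then gk D (cc a) (z.1.2 a) q else 1) /
        (2 : ℂ) ^ Fintype.card I = (nL z : ℂ) * e2 (D.dg (cz cc b z) q) := by
  have h1 : D.dg (cz cc b z) q =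
      ∑ a, (phi a ⬝ᵥ z.1.1) * D.dg (cc a (z.1.2 a)) q + D.dg (∑ i, z.1.1 i • b i) q := by
    unfold cz
    rw [dg_add, A4_fsum]
    congr 1
    exact sum_congr rfl fun a _ => dg_smul D _ _ q
  have h2 : (∏ a, if phi a ⬝ᵥ z.1.1 = 1 then gk D (cc a) (z.1.2 a) q else 1) =
      (∏ a, if phi a ⬝ᵥ z.1.1 = 1 then ((2 : ℂ) ^ k a)⁻¹ else 1) *
        e2 (∑ a, (phi a ⬝ᵥ z.1.1) * D.dg (cc a (z.1.2 a)) q) := by
    rw [e2_sum, ← prod_mul_distrib]
    refine prod_congr rfl fun a _ => ?_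
    rcases z2 (phi a ⬝ᵥ z.1.1) with h | h
    · rw [h, if_neg (by decide), if_neg (by decide), zero_mul, e2_zero, mul_one]
    · rw [h, if_pos rfl, if_pos rfl, one_mul]
      rfl
  have h3 : ((nL z : ℝ) : ℂ) = ((2 : ℂ) ^ Fintype.card I)⁻¹ *
      ∏ a, if phi a ⬝ᵥ z.1.1 = 1 then ((2 : ℂ) ^ k a)⁻¹ else 1 := by
    unfold nL
    rw [Complex.ofReal_mul, Complex.ofReal_prod]
    congr 1
    · push_cast
      rfl
    · refine prod_congr rfl fun a _ => ?_
      split_ifs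
      · push_cast
        rfl
      · exact Complex.ofReal_one
  rw [h1, h2, h3, e2_add]
  ring

/-- **A4** (medium-). Proof: `sum_col`, for every colouring `f`: `chI_cf` and `BF_prod` with `g a = gk D (cc a)`. The double sum over `f` and the
`y` with the colours `f` is the sum over all `y : S → Lb phi k` (`Finset.sum_fiberwise` for `y ↦ fun j => (y j).1.1`, or
`sum_comm` and `sum_ite_eq`). For every `y`: the denominator `2 ^ (#I * #S)` is `∏ j : S, 2 ^ #I`, and for every `j`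
`(2 ^ #I)⁻¹ * (∏ a, if phi a ⬝ᵥ w = 1 then (2 ^ k a)⁻¹ * e2 (D.dg (cc a (x a)) j) else 1) * e2 (D.dg (∑ i, w i • b i) j)
= (nL (y j) : ℂ) * e2 (D.dg (cz cc b (y j)) j)` (`prod_mul_distrib`, `e2_sum`, `D.dg` is linear; the coefficient
`phi a ⬝ᵥ w` is `0` or `1`, `z2`). -/
theorem avI_FB (D : Dat2 ι κ) (phi : A → I → ZMod 2) (cc : ∀ a, Lab2 (k a) → κ → ZMod 2)
    (b : I → κ → ZMod 2) (S : Finset ι) :
    avI (FB D phi k cc b) S =
      BF D (PL phi k) (fun z q => (nL z : ℂ) * e2 (D.dg (cz cc b z) q)) S := by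
  classical
  unfold avI
  rw [sum_col]
  have h1 : ∀ f : S → I → ZMod 2, FB D phi k cc b (colF S f) =
      ∑ y : S → Lb phi k, if (fun j => (y j).1.1) = f then
        e2 (∑ j : S, D.dg (∑ i, f j i • b i) j) *
          ((∏ j : S, ∏ a, if phi a ⬝ᵥ f j = 1 then gk D (cc a) ((y j).1.2 a) j else 1) *
            e2 (∑ j : S, ∑ l : S, PL phi k (y j) (y l) * D.s j l)) else 0 := by
    intro f
    unfold FB
    rw [chI_cf, BF_prod D phi (fun a => gk D (cc a)) S f, sum_filter, mul_sum]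
    refine sum_congr rfl fun y _ => ?_
    by_cases h : ∀ j, (y j).1.1 = f j
    · rw [if_pos h, if_pos (funext h)]
    · rw [if_neg h, if_neg (fun e => h fun j => congrFun e j), mul_zero]
  rw [sum_congr rfl fun f _ => h1 f, sum_comm]
  unfold BF
  rw [sum_div]
  refine sum_congr rfl fun y _ => ?_
  rw [sum_ite_eq, if_pos (mem_univ _)]
  have h2 : (2 : ℂ) ^ (Fintype.card I * S.card) = ∏ _j : S, (2 : ℂ) ^ Fintype.card I := by
    rw [prod_const, card_univ, Fintype.card_coe, ← pow_mul]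
  rw [h2, e2_sum, ← mul_assoc, mul_div_right_comm, ← prod_mul_distrib, ← prod_div_distrib]
  congr 1
  exact prod_congr rfl fun j _ => A4_pt D phi cc b (y j) j

end

end Pool.Agent.Lib.MP_1a91b9_ntMQ
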