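import Pool.Agent.Lib.MP_1a91b9_ntMQ.V2
import Pool.Agent.Lib.MP_1a91b9_ntMQ.A4

/-!
A6: the square of the mean value is a mean value
-/

set_option autoImplicit false
set_option linter.unusedSectionVars false

namespace Pool.Agent.Lib.MP_1a91b9_ntMQ

open Finset Pool.Agent.Lib.MP_1a91b9_ntH Pool.Agent.Lib.MP_1a91b9_ntQ
open Pool.Agent.Lib.MP_1a91b9_ntQ.Da Pool.Agent.Lib.MP_1a91b9_ntV Pool.Agent.Lib.MP_1a91b9_ntM
open Pool.Agent.Lib.MP_1a91b9_ntDV

noncomputable section

variable {I A : Type} [Fintype I] [DecidableEq I] [Fintype A] [DecidableEq A] {k : A → ℕ}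
  {phi : A → I → ZMod 2} {ι : Type} [DecidableEq ι] {κ : Type} [Fintype κ]

omit [DecidableEq ι] in
/-- **A6a** (easy+). Proof: the families indexed by `I ⊕ I` are the pairs of families (`Finset.sum_bij'` with
`Fintype.mem_piFinset`, `Sum.elim`), `sum_mul_sum`, and `2 ^ (2 * #I * #S) = 2 ^ (#I * #S) * 2 ^ (#I * #S)`. -/
theorem avI_mul (F G : (I → Finset ι) → ℂ) (S : Finset ι) : avI F S * avI G S =
    avI (fun c : I ⊕ I → Finset ι => F (fun i => c (.inl i)) * G (fun i => c (.inr i))) S := by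
  unfold avI
  have hp : ((2 : ℂ) ^ (Fintype.card I * S.card)) * 2 ^ (Fintype.card I * S.card) =
      2 ^ (Fintype.card (I ⊕ I) * S.card) := by
    rw [← pow_add, Fintype.card_sum, add_mul]
  rw [div_mul_div_comm, hp, sum_mul_sum, ← sum_product']
  congr 1
  refine sum_nbij' (fun p => Sum.elim p.1 p.2) (fun c => (fun i => c (.inl i), fun i => c (.inr i))) ?_ ?_ ?_ ?_ ?_
  · intro p hp
    rw [mem_product, Fintype.mem_piFinset, Fintype.mem_piFinset] at hp
    rw [Fintype.mem_piFinset]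
    rintro (i | i)
    · exact hp.1 i
    · exact hp.2 i
  · intro c hc
    rw [Fintype.mem_piFinset] at hc
    rw [mem_product, Fintype.mem_piFinset, Fintype.mem_piFinset]
    exact ⟨fun i => hc _, fun i => hc _⟩
  · intro p _
    rfl
  · intro c _
    funext i
    rcases i with i | i <;> rfl
  · intro p _
    rfl

/-- **A6b** (easy+). Proof: `phi2 phi (inl a) ⬝ᵥ cl c q = phi a ⬝ᵥ cl (fun i => c (inl i)) q` (`Fintype.sum_sum_type`); a prime with the value `1`
is in some `c (inl i)`, so the two unions do not matter. -/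
theorem TT_two (c : I ⊕ I → Finset ι) (a : A) :
    TT (phi2 phi) c (.inl a) = TT phi (fun i => c (.inl i)) a ∧
      TT (phi2 phi) c (.inr a) = TT phi (fun i => c (.inr i)) a := by
  have hmem : ∀ (c' : I → Finset ι) (q : ι), phi a ⬝ᵥ cl c' q = 1 → ∃ i, q ∈ c' i := by
    intro c' q h
    by_contra hcon
    push Not at hcon
    have h1 : cl c' q = 0 := by
      funext i
      exact if_neg (hcon i)
    rw [h1, dotProduct_zero] at h
    exact zero_ne_one h
  have hl : ∀ q, phi2 phi (.inl a) ⬝ᵥ cl c q = phi a ⬝ᵥ cl (fun i => c (.inl i)) q := by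
    intro q
    unfold dotProduct
    rw [Fintype.sum_sum_type]
    have h0 : ∑ i : I, phi2 phi (.inl a) (.inr i) * cl c q (.inr i) = 0 :=
      sum_eq_zero fun i _ => by
        show (0 : ZMod 2) * cl c q (.inr i) = 0
        rw [zero_mul]
    rw [h0, add_zero]
    rfl
  have hr : ∀ q, phi2 phi (.inr a) ⬝ᵥ cl c q = phi a ⬝ᵥ cl (fun i => c (.inr i)) q := by
    intro q
    unfold dotProduct
    rw [Fintype.sum_sum_type]
    have h0 : ∑ i : I, phi2 phi (.inr a) (.inl i) * cl c q (.inl i) = 0 :=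
      sum_eq_zero fun i _ => by
        show (0 : ZMod 2) * cl c q (.inl i) = 0
        rw [zero_mul]
    rw [h0, zero_add]
    rfl
  constructor
  · ext q
    unfold TT
    rw [mem_filter, mem_filter, hl, mem_biUnion, mem_biUnion]
    constructor
    · rintro ⟨_, h⟩
      obtain ⟨i, hi⟩ := hmem (fun i => c (.inl i)) q h
      exact ⟨⟨i, mem_univ _, hi⟩, h⟩
    · rintro ⟨⟨i, _, hi⟩, h⟩
      exact ⟨⟨.inl i, mem_univ _, hi⟩, h⟩
  · ext q
    unfold TT
    rw [mem_filter, mem_filter, hr, mem_biUnion, mem_biUnion]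
    constructor
    · rintro ⟨_, h⟩
      obtain ⟨i, hi⟩ := hmem (fun i => c (.inr i)) q h
      exact ⟨⟨i, mem_univ _, hi⟩, h⟩
    · rintro ⟨⟨i, _, hi⟩, h⟩
      exact ⟨⟨.inr i, mem_univ _, hi⟩, h⟩

/-- **A6c** (easy+). Proof: `chI` and the product over `A ⊕ A` split (`Fintype.prod_sum_type`), `TT_two`. -/
theorem FB_two (D : Dat2 ι κ) (cc : ∀ a, Lab2 (k a) → κ → ZMod 2) (b : I → κ → ZMod 2)
    (c : I ⊕ I → Finset ι) :
    FB D phi k cc b (fun i => c (.inl i)) * FB D phi k cc b (fun i => c (.inr i)) =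
      FB D (phi2 phi) (k2 k) (cc2 cc) (Sum.elim b b) c := by
  unfold FB chI
  rw [Fintype.prod_sum_type, Fintype.prod_sum_type]
  have h1 : ∀ a, BF D (Phi1 PhiQ) (gk D (cc2 cc (.inl a))) (TT (phi2 phi) c (.inl a)) =
      BF D (Phi1 PhiQ) (gk D (cc a)) (TT phi (fun i => c (.inl i)) a) := fun a => by
    rw [(TT_two c a).1]
    rfl
  have h2 : ∀ a, BF D (Phi1 PhiQ) (gk D (cc2 cc (.inr a))) (TT (phi2 phi) c (.inr a)) =
      BF D (Phi1 PhiQ) (gk D (cc a)) (TT phi (fun i => c (.inr i)) a) := fun a => by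
    rw [(TT_two c a).2]
    rfl
  rw [prod_congr rfl fun a _ => h1 a, prod_congr rfl fun a _ => h2 a]
  simp only [Sum.elim_inl, Sum.elim_inr]
  ring

end

end Pool.Agent.Lib.MP_1a91b9_ntMQ
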