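import Pool.Agent.Lib.MP_1a91b9_ntMQ.A5
import Pool.Agent.Lib.MP_1a91b9_ntMQ.A6
import Pool.Agent.Lib.MP_1a91b9_ntDV.E11

/-!
A7: the mean square
-/

set_option autoImplicit false
set_option linter.unusedSectionVars false

namespace Pool.Agent.Lib.MP_1a91b9_ntMQ

open Finset Pool.Agent.Lib.MP_1a91b9_ntH Pool.Agent.Lib.MP_1a91b9_ntQ
open Pool.Agent.Lib.MP_1a91b9_ntQ.Da Pool.Agent.Lib.MP_1a91b9_ntV Pool.Agent.Lib.MP_1a91b9_ntM
open Pool.Agent.Lib.MP_1a91b9_ntDV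

noncomputable section

variable {I A : Type} [Fintype I] [DecidableEq I] [Fintype A] [DecidableEq A] {k : A → ℕ}
  {phi : A → I → ZMod 2} {ι : Type} [DecidableEq ι] {κ : Type} [Fintype κ] [DecidableEq κ] [PS ι]

private theorem A7_e2 (x : ZMod 2) : (starRingEnd ℂ) (e2 x) = e2 x := by
  unfold e2
  exact Complex.conj_ofReal _

private theorem A7_two : (starRingEnd ℂ) (2 : ℂ) = 2 := map_ofNat _ 2

omit [PS ι] [DecidableEq κ] in
private theorem A7_BF {m : ℕ} (D : Dat2 ι κ) (cc : Lab2 m → κ → ZMod 2) (T : Finset ι) :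
    (starRingEnd ℂ) (BF D (Phi1 PhiQ) (gk D cc) T) = BF D (Phi1 PhiQ) (gk D cc) T := by
  have h1 : ∀ (l : Lab2 m) (q : ι), (starRingEnd ℂ) (gk D cc l q) = gk D cc l q := fun l q => by
    unfold gk
    rw [map_mul, map_inv₀, map_pow, A7_two, A7_e2]
  unfold BF
  rw [map_sum]
  refine sum_congr rfl fun f _ => ?_
  rw [map_mul, map_prod, A7_e2]
  congr 1
  exact prod_congr rfl fun j _ => h1 _ _

omit [PS ι] [DecidableEq κ] in
private theorem A7_FB (D : Dat2 ι κ) (cc : ∀ a, Lab2 (k a) → κ → ZMod 2) (b : I → κ → ZMod 2)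
    (c : I → Finset ι) : (starRingEnd ℂ) (FB D phi k cc b c) = FB D phi k cc b c := by
  unfold FB chI
  rw [map_mul, map_prod, map_prod]
  refine congrArg₂ (fun x y => x * y) (prod_congr rfl fun i _ => A7_e2 _) (prod_congr rfl fun a _ => A7_BF D _ _)

omit [PS ι] [DecidableEq κ] in
private theorem A7_avI (D : Dat2 ι κ) (cc : ∀ a, Lab2 (k a) → κ → ZMod 2) (b : I → κ → ZMod 2)
    (S : Finset ι) : (starRingEnd ℂ) (avI (FB D phi k cc b) S) = avI (FB D phi k cc b) S := by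
  unfold avI
  rw [map_div₀, map_sum, map_pow, A7_two]
  congr 1
  exact sum_congr rfl fun c _ => A7_FB D cc b c

omit [DecidableEq κ] in
private theorem A7_vQ (cc : ∀ a, Lab2 (k a) → κ → ZMod 2) (b : I → κ → ZMod 2) :
    (starRingEnd ℂ) (vQ phi k cc b) = vQ phi k cc b := by
  unfold vQ
  rw [map_sum]
  refine sum_congr rfl fun U _ => ?_
  split_ifs
  · exact map_one _
  · exact map_zero _

/-- **A7** (medium-). THE MEAN SQUARE. Proof: as `AV_BF` (MP_1a91b9_ntDV/E11.lean, proved): with `A S = avI (FB D phi k cc b) S` and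
`v = vQ phi k cc b`, both real (`starRingEnd ℂ` fixes them: `e2` is real, the weights are real, `vQ` is a sum of `0` and `1`),
`‖A S - v‖ ^ 2 = A S * A S - 2 v A S + v * v`; `A S * A S = avI (FB D (phi2 phi) (k2 k) (cc2 cc) (Sum.elim b b)) S` (`avI_mul`,
`FB_two`), so `MVI_FB (Sp.two hs) hD` with `vQ_two` gives the sum of `A S * A S`, and `MVI_FB hs hD` the sum of `A S`. -/
theorem AVI_FB (hs : Sp phi) {D : Dat2 ι κ} {w : κ → ZMod 2} (hD : OKt D w)
    (cc : ∀ a, Lab2 (k a) → κ → ZMod 2) (b : I → κ → ZMod 2) :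
    AVI (FB D phi k cc b) (vQ phi k cc b) := by
  intro ε hε
  set v : ℂ := vQ phi k cc b with hv
  have hp : 0 < 1 + 2 * ‖v‖ := by positivity
  set ε' : ℝ := ε / (1 + 2 * ‖v‖) with hε'
  have hε0 : 0 < ε' := by positivity
  obtain ⟨X1, h1⟩ := MVI_FB (Sp.two hs) hD (cc2 cc) (Sum.elim b b) ε' hε0
  obtain ⟨X2, h2⟩ := MVI_FB hs hD cc b ε' hε0
  refine ⟨X1 + X2, fun X hX => ?_⟩
  have g1 := h1 X (by omega)
  have g2 := h2 X (by omega)
  set A : Finset ι → ℂ := fun S => avI (FB D phi k cc b) S with hA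
  have hsq : ∀ S, avI (FB D (phi2 phi) (k2 k) (cc2 cc) (Sum.elim b b)) S = A S * A S := fun S => by
    rw [hA]
    show _ = avI (FB D phi k cc b) S * avI (FB D phi k cc b) S
    rw [avI_mul]
    congr 1
    funext c
    exact (FB_two D cc b c).symm
  rw [sum_congr rfl fun S _ => hsq S, vQ_two hs] at g1
  have hc : ∀ S, (starRingEnd ℂ) (A S - v) = A S - v := fun S => by
    rw [map_sub, hv, A7_vQ, hA]
    show (starRingEnd ℂ) (avI (FB D phi k cc b) S) - _ = _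
    rw [A7_avI]
  have e1 : ((∑ S ∈ Sx ι X, ‖A S - v‖ ^ 2 : ℝ) : ℂ) =
      (∑ S ∈ Sx ι X, A S * A S - v * v * ((Sx ι X).card : ℂ)) -
        2 * v * (∑ S ∈ Sx ι X, A S - v * ((Sx ι X).card : ℂ)) := by
    have e2 : ∀ S, ((‖A S - v‖ ^ 2 : ℝ) : ℂ) = A S * A S - 2 * v * A S + v * v := fun S => by
      have e3 := Complex.mul_conj' (A S - v)
      rw [hc S] at e3
      rw [Complex.ofReal_pow, ← e3]
      ring
    rw [Complex.ofReal_sum, sum_congr rfl fun S _ => e2 S, sum_add_distrib, sum_sub_distrib,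
      ← mul_sum, sum_const, nsmul_eq_mul]
    ring
  have hnn : 0 ≤ ∑ S ∈ Sx ι X, ‖A S - v‖ ^ 2 := sum_nonneg fun S _ => by positivity
  have e4 : ∑ S ∈ Sx ι X, ‖A S - v‖ ^ 2 = ‖((∑ S ∈ Sx ι X, ‖A S - v‖ ^ 2 : ℝ) : ℂ)‖ := by
    rw [Complex.norm_real, Real.norm_eq_abs, abs_of_nonneg hnn]
  have e5 : ∑ S ∈ Sx ι X, ‖A S - v‖ ^ 2 ≤ ε' * X + 2 * ‖v‖ * (ε' * X) := by
    rw [e4, e1]
    refine (norm_sub_le _ _).trans (add_le_add g1 ?_)
    rw [norm_mul, norm_mul]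
    have h3 : ‖(2 : ℂ)‖ = 2 := by norm_num
    rw [h3]
    exact mul_le_mul_of_nonneg_left g2 (by positivity)
  have e6 : ε' * X + 2 * ‖v‖ * (ε' * X) = ε * X := by
    rw [hε']
    field_simp
  rw [e6] at e5
  refine e5.trans (mul_le_mul_of_nonneg_left ?_ hε.le)
  have : (0 : ℝ) ≤ (Sx ι X).card := Nat.cast_nonneg _
  linarith

end

end Pool.Agent.Lib.MP_1a91b9_ntMQ
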