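import Pool.Agent.Lib.MP_1a91b9_ntMQ.V0

/-!
V1: the sum of the values over the class characters
-/

set_option autoImplicit false
set_option linter.unusedSectionVars false

namespace Pool.Agent.Lib.MP_1a91b9_ntMQ

open Finset Pool.Agent.Lib.MP_1a91b9_ntH Pool.Agent.Lib.MP_1a91b9_ntQ
open Pool.Agent.Lib.MP_1a91b9_ntQ.Da Pool.Agent.Lib.MP_1a91b9_ntV Pool.Agent.Lib.MP_1a91b9_ntM
open Pool.Agent.Lib.MP_1a91b9_ntDV

noncomputable section

variable {I A : Type} [Fintype I] [DecidableEq I] [Fintype A] [DecidableEq A] {k : A → ℕ}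
  {phi : A → I → ZMod 2} {κ : Type} [Fintype κ] [DecidableEq κ]

private theorem V1_add_eq {x y : κ → ZMod 2} : x + y = 0 ↔ x = y := by
  constructor
  · intro h
    funext j
    have h1 := congrFun h j
    have h2 : ∀ a b : ZMod 2, a + b = 0 → a = b := by decide
    exact h2 _ _ h1
  · rintro rfl
    funext j
    have h2 : ∀ a : ZMod 2, a + a = 0 := by decide
    exact h2 _

omit [DecidableEq I] [DecidableEq A] [DecidableEq κ] in
private theorem V1_dot (β : A → κ → ZMod 2) (γ : I → κ → ZMod 2) :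
    ∑ i, (∑ a, phi a i • β a) ⬝ᵥ γ i = ∑ a, β a ⬝ᵥ ∑ i, phi a i • γ i := by
  have h1 : ∀ i, (∑ a, phi a i • β a) ⬝ᵥ γ i = ∑ a, phi a i * (β a ⬝ᵥ γ i) := by
    intro i
    rw [sum_dotProduct]
    exact sum_congr rfl fun a _ => by rw [smul_dotProduct, smul_eq_mul]
  have h2 : ∀ a, (β a ⬝ᵥ ∑ i, phi a i • γ i) = ∑ i, phi a i * (β a ⬝ᵥ γ i) := by
    intro a
    rw [dotProduct_sum]
    exact sum_congr rfl fun i _ => by rw [dotProduct_smul, smul_eq_mul]
  rw [sum_congr rfl fun i _ => h1 i, sum_congr rfl fun a _ => h2 a, sum_comm]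

private theorem V1_one (cc : ∀ a, Lab2 (k a) → κ → ZMod 2) (V : ∀ a, Finset (Lab2 (k a)))
    (a : A) (Γ : κ → ZMod 2) (hne : (V a).Nonempty) :
    (∀ β : κ → ZMod 2, (∀ l ∈ V a, cc a l = β) →
      ∑ c0 : κ → ZMod 2, e2 (c0 ⬝ᵥ Γ) * iN (fun l => c0 + cc a l) (V a) = e2 (β ⬝ᵥ Γ)) ∧
    ((¬ ∃ β : κ → ZMod 2, ∀ l ∈ V a, cc a l = β) →
      ∑ c0 : κ → ZMod 2, e2 (c0 ⬝ᵥ Γ) * iN (fun l => c0 + cc a l) (V a) = 0) := by
  classical
  constructor
  · intro β hβ
    rw [sum_eq_single β]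
    · have h1 : iN (fun l => β + cc a l) (V a) = 1 := by
        unfold iN
        rw [if_pos]
        intro l hl
        exact V1_add_eq.2 (hβ l hl).symm
      rw [h1, mul_one]
    · intro c0 _ hc
      have h1 : iN (fun l => c0 + cc a l) (V a) = 0 := by
        unfold iN
        rw [if_neg]
        intro h2
        obtain ⟨l, hl⟩ := hne
        apply hc
        rw [← hβ l hl]
        exact V1_add_eq.1 (h2 l hl)
      rw [h1, mul_zero]
    · intro h
      exact absurd (mem_univ _) h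
  · intro hno
    refine sum_eq_zero fun c0 _ => ?_
    have h1 : iN (fun l => c0 + cc a l) (V a) = 0 := by
      unfold iN
      rw [if_neg]
      intro h2
      exact hno ⟨c0, fun l hl => (V1_add_eq.1 (h2 l hl)).symm⟩
    rw [h1, mul_zero]

open Classical in
private theorem V1_V (hs : Sp phi) (cc : ∀ a, Lab2 (k a) → κ → ZMod 2) (γ : I → κ → ZMod 2)
    {V : ∀ a, Finset (Lab2 (k a))} (hV : ∀ a, V a ∈ UsN (k a)) :
    ∑ b : I → κ → ZMod 2, e2 (∑ i, b i ⬝ᵥ γ i) * (if ∀ z ∈ UL phi k V, cz cc b z = 0 then 1 else 0) =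
      ∏ a, ∑ c0 : κ → ZMod 2, e2 (c0 ⬝ᵥ ∑ i, phi a i • γ i) * iN (fun l => c0 + cc a l) (V a) := by
  have hne : ∀ a, (V a).Nonempty := by
    intro a
    rw [← card_pos, (mem_UsN.1 (hV a)).2]
    positivity
  by_cases hex : ∃ β : A → κ → ZMod 2, ∀ a, ∀ l ∈ V a, cc a l = β a
  · obtain ⟨β, hβ⟩ := hex
    have hR : ∀ a, ∑ c0 : κ → ZMod 2, e2 (c0 ⬝ᵥ ∑ i, phi a i • γ i) * iN (fun l => c0 + cc a l) (V a) =
        e2 (β a ⬝ᵥ ∑ i, phi a i • γ i) := fun a => (V1_one cc V a _ (hne a)).1 (β a) (hβ a)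
    rw [prod_congr rfl fun a _ => hR a, ← e2_sum, ← V1_dot]
    rw [sum_eq_single fun i => ∑ a, phi a i • β a]
    · rw [if_pos, mul_one]
      exact (CC_iff hs cc _ hV).2 ⟨β, hβ, fun i => rfl⟩
    · intro b _ hb
      rw [if_neg, mul_zero]
      intro h1
      obtain ⟨β', h2, h3⟩ := (CC_iff hs cc b hV).1 h1
      apply hb
      have h4 : β' = β := by
        funext a
        obtain ⟨l, hl⟩ := hne a
        rw [← h2 a l hl, hβ a l hl]
      rw [← h4]
      exact funext h3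
    · intro h
      exact absurd (mem_univ _) h
  · have hL : ∀ b : I → κ → ZMod 2, ¬ ∀ z ∈ UL phi k V, cz cc b z = 0 := by
      intro b h1
      obtain ⟨β', h2, -⟩ := (CC_iff hs cc b hV).1 h1
      exact hex ⟨β', h2⟩
    rw [sum_eq_zero fun b _ => by rw [if_neg (hL b), mul_zero]]
    have hA : ∃ a, ¬ ∃ β : κ → ZMod 2, ∀ l ∈ V a, cc a l = β := by
      by_contra hcon
      push Not at hcon
      choose β hβ using hcon
      exact hex ⟨β, hβ⟩
    obtain ⟨a, ha⟩ := hA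
    exact (prod_eq_zero (mem_univ a) ((V1_one cc V a _ (hne a)).2 ha)).symm

/-- **V1** (medium-). THE JOINT VALUE FACTORISES. Proof: `vQ_eq`, exchange the sums over `b` and `V`; `CC_iff`. For `V` with all `V a ∈ UsN (k a)`:
if all the `cc a` are constant on `V a` (constants `β a`, unique because `V a` is not empty) exactly one `b` counts,
`b i = ∑ a, phi a i • β a`, and `e2 (∑ i, b i ⬝ᵥ γ i) = e2 (∑ a, β a ⬝ᵥ ∑ i, phi a i • γ i) = ∏ a, e2 (β a ⬝ᵥ ..)`; otherwise the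
sum over `b` is `0`. So the sum over `b` is `∏ a, G a (V a)` with `G a V = ∑ c0, e2 (c0 ⬝ᵥ ..) * iN (fun l => c0 + cc a l) V`
(`iN` is `1` if `c0 + cc a l = 0` for all `l ∈ V`, that is if `c0` is the constant value of `cc a` on `V`), and
`Finset.prod_univ_sum` (`mv` is the sum of `iN` over `UsN (k a)`). -/
theorem sum_vQ (hs : Sp phi) (cc : ∀ a, Lab2 (k a) → κ → ZMod 2) (γ : I → κ → ZMod 2) :
    ∑ b : I → κ → ZMod 2, e2 (∑ i, b i ⬝ᵥ γ i) * vQ phi k cc b =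
      ∏ a, ∑ c0 : κ → ZMod 2, e2 (c0 ⬝ᵥ ∑ i, phi a i • γ i) * mv (fun l => c0 + cc a l) := by
  classical
  have hL : ∀ b : I → κ → ZMod 2, e2 (∑ i, b i ⬝ᵥ γ i) * vQ phi k cc b =
      ∑ V ∈ Fintype.piFinset (fun a => UsN (k a)), e2 (∑ i, b i ⬝ᵥ γ i) *
        (if ∀ z ∈ UL phi k V, cz cc b z = 0 then 1 else 0) := by
    intro b
    rw [vQ_eq hs cc b, mul_sum]
  have hR : ∀ a, ∑ c0 : κ → ZMod 2, e2 (c0 ⬝ᵥ ∑ i, phi a i • γ i) * mv (fun l => c0 + cc a l) =
      ∑ U ∈ UsN (k a), ∑ c0 : κ → ZMod 2, e2 (c0 ⬝ᵥ ∑ i, phi a i • γ i) * iN (fun l => c0 + cc a l) U := by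
    intro a
    rw [sum_comm]
    refine sum_congr rfl fun c0 _ => ?_
    unfold mv
    rw [mul_sum]
  rw [sum_congr rfl fun b _ => hL b, sum_comm, prod_congr rfl fun a _ => hR a, prod_univ_sum]
  refine sum_congr rfl fun V hV => ?_
  exact V1_V hs cc γ (fun a => Fintype.mem_piFinset.1 hV a)

end

end Pool.Agent.Lib.MP_1a91b9_ntMQ
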