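import Pool.Agent.Lib.MP_1a91b9_ntMQ.A7
import Pool.Agent.Lib.MP_1a91b9_ntMQ.V1
import Pool.Agent.Lib.MP_1a91b9_ntMQ.R1
import Pool.Agent.Lib.MP_1a91b9_ntDV.E12

/-!
A8: the joint moments in a class
-/

set_option autoImplicit false
set_option linter.unusedSectionVars false

namespace Pool.Agent.Lib.MP_1a91b9_ntMQ

open Finset Pool.Agent.Lib.MP_1a91b9_ntH Pool.Agent.Lib.MP_1a91b9_ntQ
open Pool.Agent.Lib.MP_1a91b9_ntQ.Da Pool.Agent.Lib.MP_1a91b9_ntV Pool.Agent.Lib.MP_1a91b9_ntM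
open Pool.Agent.Lib.MP_1a91b9_ntDV

noncomputable section

open Pool.Agent.Lib.MP_1a91b9_ntV.DJ

variable {I A : Type} [Fintype I] [DecidableEq I] [Fintype A] [DecidableEq A] {K : A → ℕ}
  {phi : A → I → ZMod 2} {ι : Type} [DecidableEq ι] {κ : Type} [Fintype κ] [DecidableEq κ] [PS ι]
  {M : A → Type} [∀ a, Fintype (M a)]

/-- **A8a** (medium-). The mean square of a product of quantities with an expansion, with characters. Proof: for every `a` (`genMo_pt` with `c0 = 0`,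
MP_1a91b9_ntDV/E12.lean; `dg_zero`, `e2_zero`): `Kf a S * W a = ∑ m, ∑ ce, e2 (rf a m) * Fh PhiQ ce * BF D (Phi1 PhiQ) (gk D
(ccG (cf a) w 0 m ce)) S`. Multiply over `a` (`Finset.prod_univ_sum` for the sums over the pairs `(m, ce)`): the function times
`∏ a, W a` is a linear combination, over the families `(m a, ce a)`, of the functions `FB D phi K cc b` with
`cc a = ccG (cf a) w 0 (m a) (ce a)`. `AVI_FB`, `AVI.smul`, `AVI.sum`, `AVI.congr`. The value is stated in the same form. -/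
theorem AVI_gen (hs : Sp phi) {D : Dat2 ι κ} {w : κ → ZMod 2} (hD : OKt D w)
    (rf : ∀ a, M a → ZMod 2) (cf : ∀ a, M a → Lab2 (K a) → κ → ZMod 2) (Kf : A → Finset ι → ℂ)
    {W : A → ℂ} (hW : ∀ a, W a ≠ 0)
    (hK : ∀ a, ∀ S : Finset ι, Kf a S * (2 ^ K a) ^ S.card * W a = ∑ m : M a, e2 (rf a m) *
      ∑ f : S → Lab2 (K a),
        e2 (∑ j : S, D.dg (cf a m (f j)) j + ∑ j : S, ∑ l : S, PhiQ (f j) (f l) * D.s j l))
    (b : I → κ → ZMod 2) :
    AVI (fun c => chI D b c * ∏ a, Kf a (TT phi c a))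
      ((∑ p : ∀ a, M a × (Lab2 (K a) → ZMod 2), (∏ a, e2 (rf a (p a).1) * Fh PhiQ (p a).2) *
        vQ phi K (fun a => ccG (cf a) w 0 (p a).1 (p a).2) b) / ∏ a, W a) := by
  classical
  have hWp : (∏ a, W a) ≠ 0 := prod_ne_zero_iff.2 fun a _ => hW a
  have h1 := AVI.sum (univ : Finset (∀ a, M a × (Lab2 (K a) → ZMod 2)))
    (F := fun p c => (∏ a, e2 (rf a (p a).1) * Fh PhiQ (p a).2) *
      FB D phi K (fun a => ccG (cf a) w 0 (p a).1 (p a).2) b c)
    (v := fun p => (∏ a, e2 (rf a (p a).1) * Fh PhiQ (p a).2) *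
      vQ phi K (fun a => ccG (cf a) w 0 (p a).1 (p a).2) b)
    (fun p _ => (AVI_FB hs hD (fun a => ccG (cf a) w 0 (p a).1 (p a).2) b).smul
      (∏ a, e2 (rf a (p a).1) * Fh PhiQ (p a).2))
  refine (h1.smul (∏ a, W a)⁻¹).congr (fun c => ?_) ?_
  · have h2 : ∀ a, Kf a (TT phi c a) * W a = ∑ p : M a × (Lab2 (K a) → ZMod 2),
        e2 (rf a p.1) * Fh PhiQ p.2 * BF D (Phi1 PhiQ) (gk D (ccG (cf a) w 0 p.1 p.2)) (TT phi c a) := by
      intro a
      have h3 := genMo_pt D hD.tw (rf a) (cf a) (Kf a) (W a) (hK a) 0 (TT phi c a)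
      have h4 : ∑ q ∈ TT phi c a, D.dg 0 q = 0 := sum_eq_zero fun q _ => dg_zero D q
      rw [h4, e2_zero, one_mul] at h3
      rw [h3, Fintype.sum_prod_type]
    have h5 : (∏ a, Kf a (TT phi c a)) * ∏ a, W a = ∑ p : (∀ a, M a × (Lab2 (K a) → ZMod 2)),
        ∏ a, (e2 (rf a (p a).1) * Fh PhiQ (p a).2 *
          BF D (Phi1 PhiQ) (gk D (ccG (cf a) w 0 (p a).1 (p a).2)) (TT phi c a)) := by
      rw [← prod_mul_distrib, prod_congr rfl fun a _ => h2 a, Finset.prod_univ_sum, Fintype.piFinset_univ]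
    have h6 : ∑ p : (∀ a, M a × (Lab2 (K a) → ZMod 2)), (∏ a, e2 (rf a (p a).1) * Fh PhiQ (p a).2) *
        FB D phi K (fun a => ccG (cf a) w 0 (p a).1 (p a).2) b c =
        chI D b c * ((∏ a, Kf a (TT phi c a)) * ∏ a, W a) := by
      rw [h5, mul_sum]
      refine sum_congr rfl fun p _ => ?_
      unfold FB
      rw [prod_mul_distrib (f := fun a => e2 (rf a (p a).1) * Fh PhiQ (p a).2)]
      ring
    rw [h6]
    field_simp
  · rw [div_eq_inv_mul]

open Classical in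
/-- **A8b** (medium-). The same in a class: THE JOINT MOMENTS FACTORISE. Proof: as `AV_cls` (MP_1a91b9_ntDV/E13.lean):
`(if ∀ i, clN D (c i) = γ i then x else 0) * 2 ^ (#κ * #I) = ∑ b : I → κ → ZMod 2, e2 (∑ i, b i ⬝ᵥ γ i) * chI D b c * x`
(for every `i` the sum over `b i` is `sum_dotE`, see the proof of `AV_cls`; product over `i` by `Finset.prod_univ_sum`). Then `AVI_gen`,
`AVI.smul`, `AVI.sum`. The value: exchange the sums over `b` and `p`, `sum_vQ hs`; `c0 + ccG (cf a) w 0 m ce l =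
ccG (cf a) w c0 m ce l` (`ccG`, `add_assoc`), and by `Finset.prod_univ_sum` (backwards) the sum over `p` of the products over `a` is
`∏ a, ∑ c0, e2 (c0 ⬝ᵥ ..) * TNG (rf a) (cf a) w c0` (`TNG` is the sum over `m`, `ce` of `e2 (rf m) * Fh PhiQ ce * mv ..`). -/
theorem AVI_cls (hs : Sp phi) {D : Dat2 ι κ} {w : κ → ZMod 2} (hD : OKt D w)
    (rf : ∀ a, M a → ZMod 2) (cf : ∀ a, M a → Lab2 (K a) → κ → ZMod 2) (Kf : A → Finset ι → ℂ)
    {W : A → ℂ} (hW : ∀ a, W a ≠ 0)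
    (hK : ∀ a, ∀ S : Finset ι, Kf a S * (2 ^ K a) ^ S.card * W a = ∑ m : M a, e2 (rf a m) *
      ∑ f : S → Lab2 (K a),
        e2 (∑ j : S, D.dg (cf a m (f j)) j + ∑ j : S, ∑ l : S, PhiQ (f j) (f l) * D.s j l))
    (γ : I → κ → ZMod 2) :
    AVI (fun c => if ∀ i, clN D (c i) = γ i then ∏ a, Kf a (TT phi c a) else 0)
      ((∏ a, (∑ c0 : κ → ZMod 2, e2 (c0 ⬝ᵥ ∑ i, phi a i • γ i) * TNG (rf a) (cf a) w c0) / W a) /
        2 ^ (Fintype.card κ * Fintype.card I)) := by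
  classical
  have hk : (2 : ℂ) ^ (Fintype.card κ * Fintype.card I) ≠ 0 := pow_ne_zero _ two_ne_zero
  have h1 := AVI.sum (univ : Finset (I → κ → ZMod 2))
    (F := fun b c => e2 (∑ i, b i ⬝ᵥ γ i) * (chI D b c * ∏ a, Kf a (TT phi c a)))
    (v := fun b => e2 (∑ i, b i ⬝ᵥ γ i) *
      ((∑ p : ∀ a, M a × (Lab2 (K a) → ZMod 2), (∏ a, e2 (rf a (p a).1) * Fh PhiQ (p a).2) *
        vQ phi K (fun a => ccG (cf a) w 0 (p a).1 (p a).2) b) / ∏ a, W a))
    (fun b _ => (AVI_gen hs hD rf cf Kf hW hK b).smul (e2 (∑ i, b i ⬝ᵥ γ i)))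
  refine (h1.smul ((2 : ℂ) ^ (Fintype.card κ * Fintype.card I))⁻¹).congr (fun c => ?_) ?_
  · have h2 : ∀ b : I → κ → ZMod 2, e2 (∑ i, b i ⬝ᵥ γ i) * (chI D b c * ∏ a, Kf a (TT phi c a)) =
        (∏ i, e2 (b i ⬝ᵥ (γ i + clN D (c i)))) * ∏ a, Kf a (TT phi c a) := by
      intro b
      unfold chI
      rw [e2_sum, ← mul_assoc, ← prod_mul_distrib]
      congr 1
      refine prod_congr rfl fun i _ => ?_
      rw [sum_dg, dotProduct_add, e2_add]
    have h3 : ∑ b : I → κ → ZMod 2, ∏ i, e2 (b i ⬝ᵥ (γ i + clN D (c i))) =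
        ∏ i, if γ i + clN D (c i) = 0 then (2 ^ Fintype.card κ : ℂ) else 0 := by
      rw [← prod_congr rfl fun i _ => sum_dotE (γ i + clN D (c i)), Finset.prod_univ_sum,
        Fintype.piFinset_univ]
    rw [sum_congr rfl fun b _ => h2 b, ← sum_mul, h3]
    have h5 : ∀ x y : ZMod 2, x + y = 0 → y = x := by decide
    by_cases h : ∀ i, clN D (c i) = γ i
    · have h4 : ∀ i, (if γ i + clN D (c i) = 0 then (2 ^ Fintype.card κ : ℂ) else 0) =
          2 ^ Fintype.card κ := fun i => by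
        rw [if_pos]
        rw [h i]
        funext j
        exact z2_add_self _
      rw [if_pos h, prod_congr rfl fun i _ => h4 i, prod_const, card_univ, ← pow_mul]
      field_simp
    · rw [if_neg h]
      push Not at h
      obtain ⟨i, hi⟩ := h
      rw [prod_eq_zero (mem_univ i), zero_mul, mul_zero]
      rw [if_neg]
      intro h3
      apply hi
      funext j
      exact h5 _ _ (congrFun h3 j)
  · have h2 : ∀ a, ∑ q : M a × (Lab2 (K a) → ZMod 2), e2 (rf a q.1) * Fh PhiQ q.2 *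
        (∑ c0 : κ → ZMod 2, e2 (c0 ⬝ᵥ ∑ i, phi a i • γ i) * mv (fun l => c0 + ccG (cf a) w 0 q.1 q.2 l)) =
        ∑ c0 : κ → ZMod 2, e2 (c0 ⬝ᵥ ∑ i, phi a i • γ i) * TNG (rf a) (cf a) w c0 := by
      intro a
      have h3 : ∀ (q : M a × (Lab2 (K a) → ZMod 2)) (c0 : κ → ZMod 2),
          (fun l => c0 + ccG (cf a) w 0 q.1 q.2 l) = ccG (cf a) w c0 q.1 q.2 := by
        intro q c0
        funext l
        unfold ccG
        rw [zero_add, add_assoc]
      simp only [h3, mul_sum]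
      rw [sum_comm]
      refine sum_congr rfl fun c0 _ => ?_
      rw [Fintype.sum_prod_type]
      unfold TNG mv
      rw [mul_sum]
      refine sum_congr rfl fun m _ => ?_
      rw [mul_sum]
      refine sum_congr rfl fun ce _ => ?_
      ring
    have h4 : ∑ b : I → κ → ZMod 2, e2 (∑ i, b i ⬝ᵥ γ i) *
        (∑ p : ∀ a, M a × (Lab2 (K a) → ZMod 2), (∏ a, e2 (rf a (p a).1) * Fh PhiQ (p a).2) *
          vQ phi K (fun a => ccG (cf a) w 0 (p a).1 (p a).2) b) =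
        ∏ a, ∑ c0 : κ → ZMod 2, e2 (c0 ⬝ᵥ ∑ i, phi a i • γ i) * TNG (rf a) (cf a) w c0 := by
      simp only [mul_sum]
      rw [sum_comm]
      rw [← prod_congr rfl fun a _ => h2 a, Finset.prod_univ_sum, Fintype.piFinset_univ]
      refine sum_congr rfl fun p _ => ?_
      refine Eq.trans ?_ (prod_mul_distrib (f := fun a => e2 (rf a (p a).1) * Fh PhiQ (p a).2)).symm
      rw [← sum_vQ hs (fun a => ccG (cf a) w 0 (p a).1 (p a).2) γ, mul_sum]
      refine sum_congr rfl fun b _ => ?_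
      ring
    rw [prod_div_distrib, ← h4, div_eq_inv_mul _ ((2 : ℂ) ^ (Fintype.card κ * Fintype.card I))]
    congr 1
    rw [sum_div]
    refine sum_congr rfl fun b _ => ?_
    ring

end

end Pool.Agent.Lib.MP_1a91b9_ntMQ
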