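import Pool.Agent.Lib.MP_1a91b9_ntMQ.P9
import Pool.Agent.Lib.MP_1a91b9_ntMQ.B0

/-!
B1: blocks of labels, the mean values
-/

set_option autoImplicit false
set_option linter.unusedSectionVars false

namespace Pool.Agent.Lib.MP_1a91b9_ntMQ

open Finset Pool.Agent.Lib.MP_1a91b9_ntH Pool.Agent.Lib.MP_1a91b9_ntQ
open Pool.Agent.Lib.MP_1a91b9_ntQ.Da Pool.Agent.Lib.MP_1a91b9_ntV Pool.Agent.Lib.MP_1a91b9_ntM
open Pool.Agent.Lib.MP_1a91b9_ntDV

noncomputable section

open Pool.Agent.Lib.MP_1a91b9_ntV.DS Pool.Agent.Lib.MP_1a91b9_ntV.DJ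
open Pool.Agent.Lib.MP_1a91b9_ntV.Pn (P7 tcn_P7 trn_P7 good_P7_0 good_P7_1 pencil_P7)
open Pool.Agent.Lib.MP_1a91b9_ntZ (Atl bn bts bts_zero bts_empty_succ bts_insert_succ bts_mono
  bts_ind bts_const)
open Pool.Agent.Lib.MP_1a91b9_ntZ.J7 (vb fb vb_ge fb_eq)

variable {I A : Type} [Fintype I] [DecidableEq I] [Fintype A] [DecidableEq A]
  {phi : A → I → ZMod 2} {ι : Type} [DecidableEq ι] [PS ι] {k N : ℕ}

/-- **B1a** (medium). The mean value of the products of the indicators of the good blocks of labels, in a class. Proof: this is `Pcl_7J` (the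
store file DV_P7.lean, PROVED) with a product over `a`; compare `PclI_7` (P9.lean of this folder, store file MQ_P9.lean) with
`Pcl_7`. `PclI_lin hs hD hw` with `Bt a = Σ b : J, Bks (d1 b a) (d2 b a) (T b a)`, third index `Fin 3`, the systems
`PB D (ga phi γ a) (T b a (rep ..)) (d0 b a (rep ..)) (d1 b a (rep ..)) (d2 b a (rep ..)) i`, the coefficients `co ..` and the functions
`fun S => ∏ n ∈ mem (d1 b a) (d2 b a) (T b a) β, gi D (T b a n) (d0 b a n) (d1 b a n) (d2 b a n) S`; the separation is needed only for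
the same `a` (`hdis b b' _ a n n'` for different blocks). At the end `Fintype.prod_sigma`, `prod_coe_sort J`, `prod_blocks`, and
`prod_comm` for the products over `a` and `b`. -/
theorem PclI_7J (hs : Sp phi) {D : Dat2 ι (Fin 3)} (tw : Tw7 D) {B : Finset ι}
    (hD : OKt (D.off B) (w7B B)) {d0 d1 d2 : Fin k → A → Fin N → ZMod 2}
    {T : Fin k → A → Fin N → Finset ι} (hT : ∀ b a n, T b a n ⊆ B)
    (hinj : ∀ b a, Function.Injective fun n => (d0 b a n, d1 b a n, d2 b a n, T b a n))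
    (hdis : ∀ b b', b ≠ b' → ∀ a n n',
      ¬ (d1 b a n = d1 b' a n' ∧ d2 b a n = d2 b' a n' ∧ T b a n = T b' a n'))
    (γ : I → Fin 3 ⊕ B → ZMod 2) (J : Finset (Fin k)) :
    PclI (D.off B) γ (fun c => ∏ b ∈ J, ∏ a,
        fb D (B := B) (d0 b a) (d1 b a) (d2 b a) (T b a) (TT phi c a))
      (∏ b ∈ J, ∏ a, vb (d1 b a) (d2 b a) (T b a)) := by
  classical
  have hw : w7B B ≠ 0 := fun h => one_ne_zero (congrFun h (Sum.inl 0))
  have hlab : ∀ (b : Fin k) (a : A) (n n' : Fin N),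
      lab (d1 b a) (d2 b a) (T b a) n = lab (d1 b a) (d2 b a) (T b a) n' →
      d1 b a n = d1 b a n' ∧ d2 b a n = d2 b a n' ∧ T b a n = T b a n' := by
    intro b a n n' h
    unfold lab at h
    simp only [Prod.mk.injEq] at h
    exact ⟨h.1.1, h.1.2, h.2⟩
  have h1 := PclI_lin (Bt := fun a => Σ b : J, Bks (d1 b a) (d2 b a) (T b a)) (J := Fin 3) hs hD hw
    (fun a β i => PB D (ga phi γ a) (T β.1 a (rep (d1 β.1 a) (d2 β.1 a) (T β.1 a) β.2))
      (d0 β.1 a (rep (d1 β.1 a) (d2 β.1 a) (T β.1 a) β.2))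
      (d1 β.1 a (rep (d1 β.1 a) (d2 β.1 a) (T β.1 a) β.2))
      (d2 β.1 a (rep (d1 β.1 a) (d2 β.1 a) (T β.1 a) β.2)) i)
    (by
      rintro a ⟨b, β⟩ ⟨b', β'⟩ hbb i i'
      refine sep7 (ga phi γ a) (hT _ a _) (hT _ a _) i i' ?_
      rintro ⟨h1, h2, h3⟩
      by_cases hb : b = b'
      · subst hb
        apply hbb
        have : β = β' := by
          apply Subtype.ext
          rw [← rep_spec (d1 b a) (d2 b a) (T b a) β, ← rep_spec (d1 b a) (d2 b a) (T b a) β']
          unfold lab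
          rw [h1, h2, h3]
        rw [this]
      · exact hdis b b' (fun h => hb (Subtype.ext h)) a _ _ ⟨h1, h2, h3⟩)
    γ (fun a β i => bal7 (ga phi γ a) tw (hT _ a _) _ _ _ i)
    (fun a β => Pool.Agent.Lib.MP_1a91b9_ntV.DJ.co (d1 β.1 a) (d2 β.1 a) (T β.1 a) β.2)
    (fun a β S => ∏ n ∈ mem (d1 β.1 a) (d2 β.1 a) (T β.1 a) β.2,
      gi D (T β.1 a n) (d0 β.1 a n) (d1 β.1 a n) (d2 β.1 a n) S)
    (by
      rintro a S hcl hne ⟨b, β⟩
      rw [Fin.sum_univ_three]
      rcases block_cases (hinj b a) β with h | ⟨n, hn, h0, h⟩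
      · unfold Pool.Agent.Lib.MP_1a91b9_ntV.DJ.co
        rw [if_pos h, if_pos h, if_pos h, h, prod_singleton,
          gi_one (ga phi γ a) tw hne (hT _ a _) hcl]
        show _ = 1 * _ + 0 * _ + 0 * _
        ring
      · have hnn : ¬ mem (d1 b a) (d2 b a) (T b a) β = {rep (d1 b a) (d2 b a) (T b a) β} := by
          intro h'
          have h2 : n ∈ ({rep (d1 b a) (d2 b a) (T b a) β} : Finset (Fin N)) := by
            rw [← h', h]
            exact mem_insert_of_mem (mem_singleton_self n)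
          exact hn (mem_singleton.1 h2)
        have hab : lab (d1 b a) (d2 b a) (T b a) n =
            lab (d1 b a) (d2 b a) (T b a) (rep (d1 b a) (d2 b a) (T b a) β) := by
          rw [rep_spec, ← mem_mem, h]
          exact mem_insert_of_mem (mem_singleton_self n)
        obtain ⟨e1, e2, e3⟩ := hlab b a n _ hab
        unfold Pool.Agent.Lib.MP_1a91b9_ntV.DJ.co
        rw [if_neg hnn, if_neg hnn, if_neg hnn, h, prod_pair hn.symm, e1, e2, e3, h0,
          gi_two (ga phi γ a) tw hne (hT _ a _) hcl]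
        show _ = 1 / 2 * _ + 1 / 2 * _ + -(1 / 2) * _
        ring)
    (by
      intro a β S
      rw [abs_prod]
      refine prod_le_one (fun n _ => abs_nonneg _) fun n _ => ?_
      unfold gi
      split_ifs
      · rw [abs_one]
      · rw [abs_zero]
        exact zero_le_one)
  have h2 : (fun c : I → Finset (Off B) => ∏ a, ∏ β : (Σ b : J, Bks (d1 b a) (d2 b a) (T b a)),
      ∏ n ∈ mem (d1 β.1 a) (d2 β.1 a) (T β.1 a) β.2,
        gi D (T β.1 a n) (d0 β.1 a n) (d1 β.1 a n) (d2 β.1 a n) (TT phi c a)) =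
      fun c => ∏ b ∈ J, ∏ a, fb D (B := B) (d0 b a) (d1 b a) (d2 b a) (T b a) (TT phi c a) := by
    funext c
    rw [prod_comm]
    refine prod_congr rfl fun a _ => ?_
    rw [Fintype.prod_sigma, ← prod_coe_sort J]
    exact prod_congr rfl fun b _ => (prod_blocks (d1 b a) (d2 b a) (T b a) fun n =>
      gi D (T b a n) (d0 b a n) (d1 b a n) (d2 b a n) (TT phi c a)).symm
  have h3 : (∏ a, ∏ β : (Σ b : J, Bks (d1 b a) (d2 b a) (T b a)),
      ((∑ i, Pool.Agent.Lib.MP_1a91b9_ntV.DJ.co (d1 β.1 a) (d2 β.1 a) (T β.1 a) β.2 i) * cinfV)) =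
      ∏ b ∈ J, ∏ a, vb (d1 b a) (d2 b a) (T b a) := by
    rw [prod_comm]
    refine prod_congr rfl fun a _ => ?_
    rw [Fintype.prod_sigma, ← prod_coe_sort J]
    rfl
  rw [← h2, ← h3]
  exact h1

open Classical in
/-- **B1b** (easy+). At least `t` of the blocks: copy `AVr_7J` (store file DV_P7.lean): `AVrI_of_PclI`, `mean_bts (limP_PclI ..)` (B0.lean of this
folder). -/
theorem AVrI_7J (hs : Sp phi) {D : Dat2 ι (Fin 3)} (tw : Tw7 D) {B : Finset ι}
    (hD : OKt (D.off B) (w7B B)) {d0 d1 d2 : Fin k → A → Fin N → ZMod 2}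
    {T : Fin k → A → Fin N → Finset ι} (hT : ∀ b a n, T b a n ⊆ B)
    (hinj : ∀ b a, Function.Injective fun n => (d0 b a n, d1 b a n, d2 b a n, T b a n))
    (hdis : ∀ b b', b ≠ b' → ∀ a n n',
      ¬ (d1 b a n = d1 b' a n' ∧ d2 b a n = d2 b' a n' ∧ T b a n = T b' a n')) (t : ℕ) :
    AVrI (fun c : I → Finset (Off B) => bts univ t fun b : Fin k => ∏ a,
        fb D (B := B) (d0 b a) (d1 b a) (d2 b a) (T b a) (TT phi c a))
      (bts univ t fun b : Fin k => ∏ a, vb (d1 b a) (d2 b a) (T b a)) := by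
  refine AVrI_of_PclI (D := D.off B) fun γ => ?_
  have h := mean_bts (limP_PclI (D.off B) γ)
    (F := fun (b : Fin k) (c : I → Finset (Off B)) => ∏ a,
      fb D (B := B) (d0 b a) (d1 b a) (d2 b a) (T b a) (TT phi c a))
    (v := fun b => ∏ a, vb (d1 b a) (d2 b a) (T b a)) univ ∅ (disjoint_empty_left _)
    (fun J _ => PclI_7J hs tw hD hT hinj hdis γ J) t
  simp only [prod_empty, one_mul] at h
  exact h

end

end Pool.Agent.Lib.MP_1a91b9_ntMQ
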