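import Pool.Agent.Lib.MP_1a91b9_ntMQ.B1
import Pool.Agent.Lib.MP_1a91b9_ntMQ.P11

/-!
B2: the joint law for blocks of labels, `ℚ(√-7)`
-/

set_option autoImplicit false
set_option linter.unusedSectionVars false

namespace Pool.Agent.Lib.MP_1a91b9_ntMQ

open Finset Pool.Agent.Lib.MP_1a91b9_ntH Pool.Agent.Lib.MP_1a91b9_ntQ
open Pool.Agent.Lib.MP_1a91b9_ntQ.Da Pool.Agent.Lib.MP_1a91b9_ntV Pool.Agent.Lib.MP_1a91b9_ntM
open Pool.Agent.Lib.MP_1a91b9_ntDV

noncomputable section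

open NumberField Pool.Agent.Lib.MP_1a91b9_nuT
open Pool.Agent.Lib.MP_1a91b9_ntV.DS (cinfV)
open Pool.Agent.Lib.MP_1a91b9_ntV.DJ
open Pool.Agent.Lib.MP_1a91b9_ntZ (Atl bn bts bts_zero bts_empty_succ bts_insert_succ bts_mono
  bts_ind bts_const)
open Pool.Agent.Lib.MP_1a91b9_ntZ.J7 (vb fb vb_ge vb_le fb_eq)

private theorem B2_card (r : ℕ) : Fintype.card {J : Finset (Fin r) // J.Nonempty} = 2 ^ r - 1 := by
  rw [Fintype.card_subtype]
  have h1 : (univ.filter fun J : Finset (Fin r) => J.Nonempty) = univ.erase ∅ := by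
    ext J
    rw [mem_filter, mem_erase, nonempty_iff_ne_empty]
    exact ⟨fun h => ⟨h.2, h.1⟩, fun h => ⟨h.2, h.1⟩⟩
  rw [h1, card_erase_of_mem (mem_univ _), card_univ, Fintype.card_finset, Fintype.card_fin]

variable [CD] [hv : V7]

/-- **B2** (easy+). **The joint law for blocks of labels and tuples of divisors, `ℚ(√-7)`.** Proof: copy `jb7` (store file DV_P7.lean) and
`jli7` (P11.lean of this folder; store file MQ_P11.lean): `A = {J : Finset (Fin r) // J.Nonempty}`, `sp_phJ r`, `TT_phJ`, `up_TT`;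
`AVrI_7J (sp_phJ r) tw7D (okt7B (⟨0, by omega⟩ : Fin 1) B)`, `AVrI.subLI`; `bn k t (cinfV ^ ((2 ^ r - 1) * N)) ≤ bts univ t ..` by
`bts_const`, `bts_mono` with `∏ a, cinfV ^ N ≤ ∏ a, vb .. ≤ 1` (`vb_ge`, `vb_le`, `prod_le_prod`, `prod_le_one`), and `bts_ind` for the
indicator of `∀ a n, Good7 ..` (a product over `a` of indicators is the indicator of the conjunction; `Finset.prod_ite_zero`). -/
theorem jbi7 : JBI7 := by
  classical
  intro r k N _ d0 d1 d2 T₀ B hT hinj hdis t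
  obtain ⟨C1, h1⟩ := okt7d.an.cheb
  obtain ⟨C2, h2⟩ := okt7d.an.zt
  have hpow : cinfV ^ ((2 ^ r - 1) * N) = ∏ _a : {J : Finset (Fin r) // J.Nonempty}, cinfV ^ N := by
    rw [prod_const, card_univ, B2_card, ← pow_mul, mul_comm]
  have hle : bn k t (cinfV ^ ((2 ^ r - 1) * N)) ≤ bts univ t fun b : Fin k =>
      ∏ a : {J : Finset (Fin r) // J.Nonempty}, vb (d1 b a.1) (d2 b a.1) (T₀ b a.1) := by
    have e := bts_const (univ : Finset (Fin k)) t (cinfV ^ ((2 ^ r - 1) * N))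
    rw [card_univ, Fintype.card_fin] at e
    rw [← e]
    refine bts_mono univ t (fun _ _ => pow_nonneg cinfV_nn _) (fun b _ => ?_) fun b _ => ?_
    · rw [hpow]
      exact prod_le_prod (fun a _ => pow_nonneg cinfV_nn N) fun a _ => vb_ge (hinj b a.1 a.2)
    · exact prod_le_one (fun a _ => (pow_nonneg cinfV_nn N).trans (vb_ge (hinj b a.1 a.2)))
        fun a _ => vb_le (hinj b a.1 a.2)
  have h3 := AVrI_7J (sp_phJ r) tw7D (okt7B (⟨0, by omega⟩ : Fin 1) B)
    (d0 := fun b (a : {J : Finset (Fin r) // J.Nonempty}) => d0 b a.1) (d1 := fun b a => d1 b a.1)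
    (d2 := fun b a => d2 b a.1) (T := fun b a => T₀ b a.1) (fun b a n => hT b a.1 n)
    (fun b a => hinj b a.1 a.2) (fun b b' hb a n n' => hdis b b' hb a.1 a.2 n n') t
  refine AVrI.subLI h1 h2 hle (fun S => ?_) h3
  have e := bts_ind (fun b : Fin k => ∀ J : Finset (Fin r), J.Nonempty → ∀ n,
    Good7 D7 (sdJ J (fun i => up (S i)) ∪ T₀ b J n) (d0 b J n) (d1 b J n) (d2 b J n)) univ t
  refine Eq.trans ?_ (e.trans ?_)
  · refine congrArg (bts univ t) (funext fun b => ?_)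
    have h5 : ∀ a : {J : Finset (Fin r) // J.Nonempty},
        fb D7 (B := B) (d0 b a.1) (d1 b a.1) (d2 b a.1) (T₀ b a.1) (TT (phJ r) S a) =
        if (∀ n, Good7 D7 (sdJ a.1 (fun i => up (S i)) ∪ T₀ b a.1 n) (d0 b a.1 n) (d1 b a.1 n)
          (d2 b a.1 n)) then (1 : ℝ) else 0 := by
      intro a
      rw [fb_eq D7 (d0 b a.1) (d1 b a.1) (d2 b a.1) (T₀ b a.1) (TT (phJ r) S a), up_TT, TT_phJ]
    rw [prod_congr rfl fun a _ => h5 a, prod_ite_zero, prod_const_one]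
    split_ifs with g1 g2 g2
    · rfl
    · exact (g2 fun J hJ n => g1 ⟨J, hJ⟩ (mem_univ _) n).elim
    · exact (g1 fun a _ n => g2 a.1 a.2 n).elim
    · rfl
  · by_cases h : Atl t fun b => ∀ J : Finset (Fin r), J.Nonempty → ∀ n,
        Good7 D7 (sdJ J (fun i => up (S i)) ∪ T₀ b J n) (d0 b J n) (d1 b J n) (d2 b J n)
    · exact (if_pos h).trans (if_pos h).symm
    · exact (if_neg h).trans (if_neg h).symm

end

end Pool.Agent.Lib.MP_1a91b9_ntMQ
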