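import Pool.Agent.Lib.MP_1a91b9_ntMQ.Q0

/-!
K0: the layers of an unlinked set, definitions
-/

set_option autoImplicit false
set_option linter.unusedSectionVars false

namespace Pool.Agent.Lib.MP_1a91b9_ntMQ

open Finset Pool.Agent.Lib.MP_1a91b9_ntH Pool.Agent.Lib.MP_1a91b9_ntQ
open Pool.Agent.Lib.MP_1a91b9_ntQ.Da Pool.Agent.Lib.MP_1a91b9_ntV Pool.Agent.Lib.MP_1a91b9_ntM
open Pool.Agent.Lib.MP_1a91b9_ntDV

noncomputable section

variable {A : Type} [Fintype A] [DecidableEq A] {k : A → ℕ}

/-- The components outside of the support of `f` are zero. -/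
def Sup (f : A → ZMod 2) (x : LabP k) : Prop := ∀ a, f a = 0 → x a = 0

/-- The quadratic form with the weights `f`. -/
def Qf (f : A → ZMod 2) (x : LabP k) : ZMod 2 := ∑ a, f a * Q2 (x a)

/-- A maximal unlinked set of labels with the support `f`. -/
structure Full (f : A → ZMod 2) (U : Finset (LabP k)) : Prop where
  sup : ∀ x ∈ U, Sup f x
  unl : ∀ x ∈ U, ∀ y ∈ U, Qf f (x - y) = 0
  card : U.card = ∏ a, if f a = 1 then 2 ^ k a else 1

variable {I : Type} [Fintype I]

/-- A family of maximal unlinked sets, one for every colour, without links between them. -/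
structure Fam (phi : A → I → ZMod 2) (U : (I → ZMod 2) → Finset (LabP k)) : Prop where
  full : ∀ w, Full (fun a => phi a ⬝ᵥ w) (U w)
  cross : ∀ w w', ∀ x ∈ U w, ∀ y ∈ U w',
    ∑ a, (phi a ⬝ᵥ w) * (phi a ⬝ᵥ w') * Q2 (x a - y a) = 0

theorem Full.ne {f : A → ZMod 2} {U : Finset (LabP k)} (h : Full f U) : U.Nonempty := by
  rw [← card_pos, h.card]
  exact prod_pos fun a _ => by
    split_ifs
    · positivity
    · exact one_pos

end

end Pool.Agent.Lib.MP_1a91b9_ntMQ
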