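import Pool.Agent.Lib.MP_1a91b9_ntMQ.K0

/-!
K1: the bounds for the labels with a given support
-/

set_option autoImplicit false
set_option linter.unusedSectionVars false

namespace Pool.Agent.Lib.MP_1a91b9_ntMQ

open Finset Pool.Agent.Lib.MP_1a91b9_ntH Pool.Agent.Lib.MP_1a91b9_ntQ
open Pool.Agent.Lib.MP_1a91b9_ntQ.Da Pool.Agent.Lib.MP_1a91b9_ntV Pool.Agent.Lib.MP_1a91b9_ntM
open Pool.Agent.Lib.MP_1a91b9_ntDV

noncomputable section

variable {A : Type} [Fintype A] [DecidableEq A] {k : A → ℕ}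

/-- The restriction of a label to the support. -/
private def K1_r (f : A → ZMod 2) (x : LabP k) : LabP (fun a : {a // f a = 1} => k a.1) :=
  fun a => x a.1

private theorem K1_inj {f : A → ZMod 2} {x y : LabP k} (hx : Sup f x) (hy : Sup f y)
    (h : K1_r f x = K1_r f y) : x = y := by
  funext a
  rcases z2 (f a) with h0 | h1
  · rw [hx a h0, hy a h0]
  · exact congrFun h ⟨a, h1⟩

private theorem K1_Q (f : A → ZMod 2) (x : LabP k) : QP (K1_r f x) = Qf f x := by
  unfold QP Qf
  have h1 : ∀ a, f a * Q2 (x a) = if f a = 1 then Q2 (x a) else 0 := by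
    intro a
    rcases z2 (f a) with h | h
    · rw [h, zero_mul, if_neg (by decide)]
    · rw [h, one_mul, if_pos rfl]
  rw [Finset.sum_congr rfl fun a _ => h1 a, ← Finset.sum_filter]
  exact (Finset.sum_subtype (univ.filter fun a => f a = 1) (fun a => by simp)
    fun a => Q2 (x a)).symm

private theorem K1_prod (f : A → ZMod 2) (k : A → ℕ) :
    ∏ a : {a // f a = 1}, 2 ^ k a.1 = ∏ a, if f a = 1 then 2 ^ k a else 1 := by
  rw [← Finset.prod_filter]
  exact (Finset.prod_subtype (univ.filter fun a => f a = 1) (fun a => by simp)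
    fun a => 2 ^ k a).symm

private theorem K1_unl {f : A → ZMod 2} {U : Finset (LabP k)}
    (hu : ∀ x ∈ U, ∀ y ∈ U, Qf f (x - y) = 0) : UnlP (U.image (K1_r f)) := by
  intro l hl m hm
  rw [mem_image] at hl hm
  obtain ⟨x, hx, rfl⟩ := hl
  obtain ⟨y, hy, rfl⟩ := hm
  exact (K1_Q f (x - y)).trans (hu x hx y hy)

private theorem K1_card {f : A → ZMod 2} {U : Finset (LabP k)} (hs : ∀ x ∈ U, Sup f x) :
    (U.image (K1_r f)).card = U.card :=
  card_image_of_injOn fun x hx y hy h => K1_inj (hs x hx) (hs y hy) h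

/-- **K1a** (easy+, transport). Proof: let `B = {a // f a = 1}`, `k' = fun a : B => k a.1` and `r x = fun a : B => x a.1`. On the labels
with `Sup f` the map `r` is injective (for `f a ≠ 1` one has `f a = 0` and `x a = 0`), `r (x - y) = r x - r y` and
`QP (r x) = Qf f x` (`∑ a : B, Q2 (x a.1) = ∑ a, if f a = 1 then Q2 (x a) else 0`, `Finset.sum_subtype` /
`Fintype.sum_subtype_..`; `f a` is `0` or `1`, `z2`). So `U.image r` is `UnlP`, `K1P` (MP_1a91b9_ntM/DJ/Lab.lean) bounds
its number of elements by `∏ a : B, 2 ^ k a.1 = ∏ a, if f a = 1 then 2 ^ k a else 1`, and `card_image_of_injOn`. -/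
theorem K1f {f : A → ZMod 2} {U : Finset (LabP k)} (hs : ∀ x ∈ U, Sup f x)
    (hu : ∀ x ∈ U, ∀ y ∈ U, Qf f (x - y) = 0) : U.card ≤ ∏ a, if f a = 1 then 2 ^ k a else 1 := by
  rw [← K1_card hs, ← K1_prod]
  exact K1P (K1_unl hu)

/-- **K1b** (easy+). Proof: with the same map `r`: `U.image r` is `UnlP` with the maximal number of elements and
`QP (r l - r x) = c` for all `l ∈ U`, so `r x ∈ U.image r` (`K2P`), and `r` is injective on the labels with `Sup f`. -/
theorem K2f {f : A → ZMod 2} {U : Finset (LabP k)} (h : Full f U) {x : LabP k} (hx : Sup f x)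
    (c : ZMod 2) (hc : ∀ l ∈ U, Qf f (l - x) = c) : x ∈ U := by
  have h1 : K1_r f x ∈ U.image (K1_r f) := by
    refine K2P (K1_unl h.unl) ?_ c fun l hl => ?_
    · rw [K1_card h.sup, h.card, K1_prod]
    · rw [mem_image] at hl
      obtain ⟨y, hy, rfl⟩ := hl
      exact (K1_Q f (y - x)).trans (hc y hy)
  rw [mem_image] at h1
  obtain ⟨y, hy, e⟩ := h1
  rw [← K1_inj (h.sup y hy) hx e]
  exact hy

end

end Pool.Agent.Lib.MP_1a91b9_ntMQ
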