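import Pool.Agent.Lib.MP_1a91b9_ntMQ.Q0

/-!
K2: separation of the vectors
-/

set_option autoImplicit false
set_option linter.unusedSectionVars false

namespace Pool.Agent.Lib.MP_1a91b9_ntMQ

open Finset Pool.Agent.Lib.MP_1a91b9_ntH Pool.Agent.Lib.MP_1a91b9_ntQ
open Pool.Agent.Lib.MP_1a91b9_ntQ.Da Pool.Agent.Lib.MP_1a91b9_ntV Pool.Agent.Lib.MP_1a91b9_ntM
open Pool.Agent.Lib.MP_1a91b9_ntDV

noncomputable section

variable {I A : Type} [Fintype I] [DecidableEq I]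

/-- **K2a** (easy). Proof: some coordinate `phi a i` is different from `0`, so it is `1`; `w = Pi.single i 1`. -/
theorem Sp.one {phi : A → I → ZMod 2} (h : Sp phi) (a : A) : ∃ w, phi a ⬝ᵥ w = 1 := by
  obtain ⟨i, hi⟩ := Function.ne_iff.mp (h.ne a)
  refine ⟨Pi.single i 1, ?_⟩
  rw [dotProduct_single, mul_one]
  exact (z2 (phi a i)).resolve_left hi

/-- **K2b** (easy+). Proof: suppose not: for all `w` with `phi b ⬝ᵥ w = 0` one has `phi a ⬝ᵥ w = 0` (`z2`). Let `w₁` with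
`phi b ⬝ᵥ w₁ = 1` (`Sp.one`) and `t = phi a ⬝ᵥ w₁`. For every `w` with `phi b ⬝ᵥ w = 1` the vector `w + w₁` has
`phi b ⬝ᵥ (w + w₁) = 0`, so `phi a ⬝ᵥ w = t`. Hence `phi a ⬝ᵥ w = t * (phi b ⬝ᵥ w)` for all `w`, so (with
`w = Pi.single i 1`) `phi a = 0` or `phi a = phi b`: a contradiction to `h.ne`, `h.inj`. -/
theorem Sp.sep {phi : A → I → ZMod 2} (h : Sp phi) {a b : A} (hab : a ≠ b) :
    ∃ w, phi a ⬝ᵥ w = 1 ∧ phi b ⬝ᵥ w = 0 := by
  by_contra hne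
  have h0 : ∀ w, phi b ⬝ᵥ w = 0 → phi a ⬝ᵥ w = 0 := fun w hw =>
    (z2 (phi a ⬝ᵥ w)).resolve_right fun h1 => hne ⟨w, h1, hw⟩
  obtain ⟨w₁, hw₁⟩ := h.one b
  have h1 : ∀ w, phi a ⬝ᵥ w = (phi a ⬝ᵥ w₁) * (phi b ⬝ᵥ w) := by
    intro w
    rcases z2 (phi b ⬝ᵥ w) with hw | hw
    · rw [h0 w hw, hw, mul_zero]
    · have h2 : phi a ⬝ᵥ (w + w₁) = 0 := by
        apply h0
        rw [dotProduct_add, hw, hw₁]
        decide
      rw [dotProduct_add] at h2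
      rw [hw, mul_one]
      rcases z2 (phi a ⬝ᵥ w) with h3 | h3 <;> rcases z2 (phi a ⬝ᵥ w₁) with h4 | h4
      · rw [h3, h4]
      · rw [h3, h4] at h2
        exact absurd h2 (by decide)
      · rw [h3, h4] at h2
        exact absurd h2 (by decide)
      · rw [h3, h4]
  have h2 : ∀ i, phi a i = (phi a ⬝ᵥ w₁) * phi b i := by
    intro i
    have h3 := h1 (Pi.single i 1)
    rwa [dotProduct_single, dotProduct_single, mul_one, mul_one] at h3
  rcases z2 (phi a ⬝ᵥ w₁) with h3 | h3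
  · apply h.ne a
    funext i
    rw [h2 i, h3, zero_mul]
    rfl
  · apply hab
    apply h.inj
    funext i
    rw [h2 i, h3, one_mul]

end

end Pool.Agent.Lib.MP_1a91b9_ntMQ
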