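import Pool.Agent.Lib.MP_1a91b9_ntMQ.K1

/-!
K3: the step between two layers
-/

set_option autoImplicit false
set_option linter.unusedSectionVars false

namespace Pool.Agent.Lib.MP_1a91b9_ntMQ

open Finset Pool.Agent.Lib.MP_1a91b9_ntH Pool.Agent.Lib.MP_1a91b9_ntQ
open Pool.Agent.Lib.MP_1a91b9_ntQ.Da Pool.Agent.Lib.MP_1a91b9_ntV Pool.Agent.Lib.MP_1a91b9_ntM
open Pool.Agent.Lib.MP_1a91b9_ntDV

noncomputable section

variable {I A : Type} [Fintype I] [DecidableEq I] [Fintype A] [DecidableEq A] {k : A → ℕ}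
  {phi : A → I → ZMod 2}

/-- **K3** (medium-). THE STEP. A difference in the layer `w'`, restricted to the common support of `w` and `w'`, is a period of the
layer `w`. Proof: let `f a = phi a ⬝ᵥ w`, `g a = (phi a ⬝ᵥ w) * (phi a ⬝ᵥ w')` and `v = x + fm g (y + y')`. `Sup f v`: if
`f a = 0` then `x a = 0` and `g a = 0`. By `K2f` it is enough that `Qf f (u - v)` does not depend on `u ∈ U w`. In
characteristic two (`z2` for the coefficients, `Q2_add`, `l2_sub`: `-` is `+` for labels, `MP_1a91b9_ntQ`):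
`Qf f (u + x + fm g (y + y')) = Qf f (u + x) + ∑ a, g a * Q2 (y a + y' a) + ∑ a, g a * B2 (u a + x a) (y a + y' a)`
(`f a * g a = g a`, `g a ^ 2 = g a`), the first sum is `0` (`full.unl`), the second does not depend on `u`, and the third is `0`:
for `p ∈ U w`, `q ∈ U w'` the cross condition and `Q2_add` give `∑ g a * B2 (p a) (q a) = ∑ g a * Q2 (p a) + ∑ g a * Q2 (q a)`; apply
this to the four pairs `(u, y), (u, y'), (x, y), (x, y')` (`B2_add`, `B2_add'`): every term occurs twice. -/
theorem Fam.step {U : (I → ZMod 2) → Finset (LabP k)} (h : Fam phi U) {w w' : I → ZMod 2}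
    {x y y' : LabP k} (hx : x ∈ U w) (hy : y ∈ U w') (hy' : y' ∈ U w') :
    x + fm (fun a => (phi a ⬝ᵥ w) * (phi a ⬝ᵥ w')) (y + y') ∈ U w := by
  set f : A → ZMod 2 := fun a => phi a ⬝ᵥ w with hf
  set g : A → ZMod 2 := fun a => (phi a ⬝ᵥ w) * (phi a ⬝ᵥ w') with hg
  have hfg : ∀ a, f a * g a = g a := by
    intro a
    have h1 : ∀ s t : ZMod 2, s * (s * t) = s * t := by decide
    exact h1 _ _
  have hcr : ∀ p ∈ U w, ∀ q ∈ U w', ∑ a, g a * B2 (p a) (q a) =
      ∑ a, g a * Q2 (p a) + ∑ a, g a * Q2 (q a) := by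
    intro p hp q hq
    have h1 := h.cross w w' p hp q hq
    have h2 : ∑ a, (phi a ⬝ᵥ w) * (phi a ⬝ᵥ w') * Q2 (p a - q a) =
        (∑ a, g a * Q2 (p a) + ∑ a, g a * Q2 (q a)) + ∑ a, g a * B2 (p a) (q a) := by
      rw [← sum_add_distrib, ← sum_add_distrib]
      refine sum_congr rfl fun a _ => ?_
      rw [l2_sub, Q2_add]
      change g a * (Q2 (p a) + Q2 (q a) + B2 (p a) (q a)) = _
      ring
    rw [h1] at h2
    have h3 : ∀ s t : ZMod 2, 0 = s + t → t = s := by decide
    exact h3 _ _ h2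
  refine K2f (h.full w) (x := x + fm g (y + y')) ?_ (∑ a, g a * Q2 (y a + y' a)) ?_
  · intro a ha
    have h1 : x a = 0 := (h.full w).sup x hx a ha
    have h2 : g a = 0 := by
      have h3 : f a = 0 := ha
      rw [← hfg, h3, zero_mul]
    change x a + g a • (y a + y' a) = 0
    rw [h1, h2, zero_smul, add_zero]
  · intro l hl
    have h1 : ∀ a, f a * Q2 ((l - (x + fm g (y + y'))) a) = f a * Q2 ((l - x) a) +
        g a * Q2 (y a + y' a) + (g a * B2 (l a) (y a) + g a * B2 (l a) (y' a) +
          g a * B2 (x a) (y a) + g a * B2 (x a) (y' a)) := by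
      intro a
      have e1 : (l - (x + fm g (y + y'))) a = (l a + x a) + g a • (y a + y' a) := by
        change l a - (x a + g a • (y a + y' a)) = _
        rw [l2_sub, add_assoc]
      have e2 : (l - x) a = l a + x a := l2_sub _ _
      rw [e1, e2]
      rcases z2 (g a) with h0 | h0
      · rw [h0, zero_smul, add_zero]
        ring
      · have h2 : f a = 1 := by
          have h3 := hfg a
          rwa [h0, mul_one] at h3
        rw [h0, h2, one_smul, Q2_add (l a + x a), B2_add, B2_add', B2_add']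
        ring
    change ∑ a, f a * Q2 ((l - (x + fm g (y + y'))) a) = _
    rw [sum_congr rfl fun a _ => h1 a, sum_add_distrib, sum_add_distrib, sum_add_distrib,
      sum_add_distrib, sum_add_distrib, hcr l hl y hy, hcr l hl y' hy', hcr x hx y hy,
      hcr x hx y' hy']
    have h4 : ∑ a, f a * Q2 ((l - x) a) = 0 := (h.full w).unl l hl x hx
    rw [h4]
    have h5 : ∀ c s t u v : ZMod 2, 0 + c + ((s + u) + (s + v) + (t + u) + (t + v)) = c := by decide
    exact h5 _ _ _ _ _

end

end Pool.Agent.Lib.MP_1a91b9_ntMQ
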