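import Pool.Agent.Lib.MP_1a91b9_ntMQ.K2
import Pool.Agent.Lib.MP_1a91b9_ntMQ.K3

/-!
K4: the layers are stable under the coordinate projections
-/

set_option autoImplicit false
set_option linter.unusedSectionVars false

namespace Pool.Agent.Lib.MP_1a91b9_ntMQ

open Finset Pool.Agent.Lib.MP_1a91b9_ntH Pool.Agent.Lib.MP_1a91b9_ntQ
open Pool.Agent.Lib.MP_1a91b9_ntQ.Da Pool.Agent.Lib.MP_1a91b9_ntV Pool.Agent.Lib.MP_1a91b9_ntM
open Pool.Agent.Lib.MP_1a91b9_ntDV

noncomputable section

variable {I A : Type} [Fintype I] [DecidableEq I] [Fintype A] [DecidableEq A] {k : A → ℕ}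
  {phi : A → I → ZMod 2}

private theorem K4_sq (s t : ZMod 2) : (s * t) * (t * s) = s * t := by
  revert s t
  decide

private theorem K4_ladd (f : A → ZMod 2) (l m : LabP k) : fm f (l + m) = fm f l + fm f m :=
  funext fun a => smul_add (f a) (l a) (m a)

private theorem K4_idem (s : ZMod 2) : s * 1 = s * s := by
  revert s
  decide

/-- **K4a** (easy+). Proof: let `g a = (phi a ⬝ᵥ w) * (phi a ⬝ᵥ w')`. Take any `x' ∈ U w'` (`Full.ne`). By `Fam.step` (layers `w'`, `w`,
`mul_comm`) `z = x' + fm g (y + y') ∈ U w'`, and by `Fam.step` (layers `w`, `w'`) with `x'`, `z`: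
`x + fm g (x' + z) ∈ U w`; `x' + z = fm g (y + y')` (`lp_add_self`) and `fm g (fm g l) = fm (g * g) l = fm g l`
(`fm_mul`, the values of `g` are `0` or `1`). -/
theorem Fam.proj {U : (I → ZMod 2) → Finset (LabP k)} (h : Fam phi U) {w : I → ZMod 2}
    (w' : I → ZMod 2) {x y y' : LabP k} (hx : x ∈ U w) (hy : y ∈ U w) (hy' : y' ∈ U w) :
    x + fm (fun a => (phi a ⬝ᵥ w) * (phi a ⬝ᵥ w')) (y + y') ∈ U w := by
  obtain ⟨x', hx'⟩ := (h.full w').ne
  have h1 := h.step hx' hy hy'
  have h2 := h.step hx hx' h1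
  rw [← add_assoc, lp_add_self, zero_add, ← fm_mul] at h2
  have e : ((fun a => (phi a ⬝ᵥ w) * (phi a ⬝ᵥ w')) * fun a => (phi a ⬝ᵥ w') * (phi a ⬝ᵥ w)) =
      fun a => (phi a ⬝ᵥ w) * (phi a ⬝ᵥ w') := by
    funext a
    exact K4_sq (phi a ⬝ᵥ w) (phi a ⬝ᵥ w')
  rwa [e] at h2

/-- **K4b** (medium-). Proof: for `b ≠ a` choose `w_b` with `phi a ⬝ᵥ w_b = 1`, `phi b ⬝ᵥ w_b = 0` (`Sp.sep`) and let
`g_b a' = (phi a' ⬝ᵥ w) * (phi a' ⬝ᵥ w_b)`. By induction on the finite set `s` of elements `b ≠ a`:
`x + fm ((fun a' => phi a' ⬝ᵥ w) * ∏ b ∈ s, g_b) (y + y') ∈ U w` for all `x ∈ U w`. Start: `Fam.proj` with `w' = w` (the function is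
its own square). Step: if `x + fm G (y + y') ∈ U w` then, by `Fam.proj h w_b` for `x, x, x + fm G (y + y')`:
`x + fm g_b (x + (x + fm G (y + y'))) = x + fm (g_b * G) (y + y') ∈ U w` (`lp_add_self`, `fm_mul`). For `s = univ.erase a` the
function is `ia a`: at `a` all the factors are `1` (`ha`), at `b ≠ a` the factor `g_b b` is `0`. -/
theorem Fam.coord (hs : Sp phi) {U : (I → ZMod 2) → Finset (LabP k)} (h : Fam phi U)
    {w : I → ZMod 2} {a : A} (ha : phi a ⬝ᵥ w = 1) {x y y' : LabP k} (hx : x ∈ U w) (hy : y ∈ U w)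
    (hy' : y' ∈ U w) : x + fm (ia a) (y + y') ∈ U w := by
  have hex : ∀ b : A, ∃ v : I → ZMod 2, b ≠ a → (phi a ⬝ᵥ v = 1 ∧ phi b ⬝ᵥ v = 0) := by
    intro b
    by_cases hb : b = a
    · exact ⟨0, fun h' => absurd hb h'⟩
    · obtain ⟨v, hv⟩ := hs.sep (Ne.symm hb)
      exact ⟨v, fun _ => hv⟩
  choose W hW using hex
  have key : ∀ s : Finset A, x + fm (fun a' => (phi a' ⬝ᵥ w) *
      ∏ b ∈ s, ((phi a' ⬝ᵥ w) * (phi a' ⬝ᵥ W b))) (y + y') ∈ U w := by
    intro s
    induction s using Finset.induction_on with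
    | empty =>
      have e : (fun a' => (phi a' ⬝ᵥ w) * ∏ b ∈ (∅ : Finset A), ((phi a' ⬝ᵥ w) * (phi a' ⬝ᵥ W b))) =
          fun a' => (phi a' ⬝ᵥ w) * (phi a' ⬝ᵥ w) := by
        funext a'
        rw [prod_empty]
        exact K4_idem _
      rw [e]
      exact h.proj w hx hy hy'
    | insert b s hb ih =>
      have h1 := h.proj (W b) hx hx ih
      rw [← add_assoc, lp_add_self, zero_add, ← fm_mul] at h1
      have e : (fun a' => (phi a' ⬝ᵥ w) *
          ∏ b ∈ insert b s, ((phi a' ⬝ᵥ w) * (phi a' ⬝ᵥ W b))) =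
          ((fun a' => (phi a' ⬝ᵥ w) * (phi a' ⬝ᵥ W b)) * fun a' => (phi a' ⬝ᵥ w) *
            ∏ b ∈ s, ((phi a' ⬝ᵥ w) * (phi a' ⬝ᵥ W b))) := by
        funext a'
        rw [prod_insert hb, Pi.mul_apply]
        ring
      rw [e]
      exact h1
  have e : (fun a' => (phi a' ⬝ᵥ w) *
      ∏ b ∈ univ.erase a, ((phi a' ⬝ᵥ w) * (phi a' ⬝ᵥ W b))) = ia a := by
    funext a'
    by_cases h' : a' = a
    · subst h'
      rw [ia, Pi.single_eq_same, ha, one_mul]
      refine prod_eq_one fun b hb => ?_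
      rw [(hW b (ne_of_mem_erase hb)).1, one_mul]
    · rw [ia, Pi.single_eq_of_ne h', prod_eq_zero (mem_erase.2 ⟨h', mem_univ a'⟩), mul_zero]
      rw [(hW a' h').2, mul_zero]
  have h3 := key (univ.erase a)
  rwa [e] at h3

/-- **K4c** (easy+). Mixed elements. Proof: take `x ∈ U w` (`Full.ne`). By induction on the finite set `s`:
`x_s = fun a => if a ∈ s then u a a else x a ∈ U w`. Step: for `a ∉ s` with `phi a ⬝ᵥ w = 1`:
`x_(s ∪ a) = x_s + fm (ia a) (x_s + u a)` (`Fam.coord`; at `a`: `x a + (x a + u a a) = u a a`); if `phi a ⬝ᵥ w = 0` then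
`u a a = 0 = x a` by `sup` and `x_(s ∪ a) = x_s`. -/
theorem Fam.mix (hs : Sp phi) {U : (I → ZMod 2) → Finset (LabP k)} (h : Fam phi U)
    {w : I → ZMod 2} {u : A → LabP k} (hu : ∀ a, u a ∈ U w) : (fun a => u a a) ∈ U w := by
  obtain ⟨x, hx⟩ := (h.full w).ne
  have key : ∀ s : Finset A, (fun a => if a ∈ s then u a a else x a) ∈ U w := by
    intro s
    induction s using Finset.induction_on with
    | empty =>
      have e : (fun a => if a ∈ (∅ : Finset A) then u a a else x a) = x := by
        funext a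
        rw [if_neg (notMem_empty a)]
      rw [e]
      exact hx
    | insert a s hb ih =>
      rcases z2 (phi a ⬝ᵥ w) with h0 | h1
      · have e : (fun b => if b ∈ insert a s then u b b else x b) =
            fun b => if b ∈ s then u b b else x b := by
          funext b
          by_cases hba : b = a
          · subst hba
            rw [if_pos (mem_insert_self b s), if_neg hb, (h.full w).sup (u b) (hu b) b h0,
              (h.full w).sup x hx b h0]
          · by_cases hbs : b ∈ s
            · rw [if_pos (mem_insert_of_mem hbs), if_pos hbs]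
            · rw [if_neg (fun h' => hbs ((mem_insert.1 h').resolve_left hba)), if_neg hbs]
        rw [e]
        exact ih
      · have h2 := h.coord hs h1 ih ih (hu a)
        have e : (fun b => if b ∈ insert a s then u b b else x b) =
            (fun b => if b ∈ s then u b b else x b) +
              fm (ia a) ((fun b => if b ∈ s then u b b else x b) + u a) := by
          funext b
          rw [K4_ladd, Pi.add_apply, Pi.add_apply]
          show _ = _ + (ia a b • (if b ∈ s then u b b else x b) + ia a b • u a b)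
          by_cases hba : b = a
          · subst hba
            rw [if_pos (mem_insert_self b s), if_neg hb, ia, Pi.single_eq_same, one_smul,
              one_smul, ← add_assoc, l2_add_self, zero_add]
          · rw [ia, Pi.single_eq_of_ne hba, zero_smul, zero_smul, add_zero, add_zero]
            by_cases hbs : b ∈ s
            · rw [if_pos (mem_insert_of_mem hbs), if_pos hbs]
            · rw [if_neg (fun h' => hbs ((mem_insert.1 h').resolve_left hba)), if_neg hbs]
        rw [e]
        exact h2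
  have h3 := key univ
  have e : (fun a => if a ∈ (univ : Finset A) then u a a else x a) = fun a => u a a := by
    funext a
    rw [if_pos (mem_univ a)]
  rwa [e] at h3

end

end Pool.Agent.Lib.MP_1a91b9_ntMQ
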