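import Pool.Agent.Lib.MP_1a91b9_ntMQ.K4

/-!
K5: the layers are products of maximal unlinked sets which do not depend on the colour
-/

set_option autoImplicit false
set_option linter.unusedSectionVars false

namespace Pool.Agent.Lib.MP_1a91b9_ntMQ

open Finset Pool.Agent.Lib.MP_1a91b9_ntH Pool.Agent.Lib.MP_1a91b9_ntQ
open Pool.Agent.Lib.MP_1a91b9_ntQ.Da Pool.Agent.Lib.MP_1a91b9_ntV Pool.Agent.Lib.MP_1a91b9_ntM
open Pool.Agent.Lib.MP_1a91b9_ntDV

noncomputable section

variable {I A : Type} [Fintype I] [DecidableEq I] [Fintype A] [DecidableEq A] {k : A → ℕ}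
  {phi : A → I → ZMod 2}

private theorem K5_at (u u' : LabP k) (a : A) : (u + fm (ia a) (u + u')) a = u' a := by
  show u a + (ia a a) • (u a + u' a) = u' a
  rw [ia, Pi.single_eq_same, one_smul, ← add_assoc, l2_add_self, zero_add]

private theorem K5_off (u u' : LabP k) {a b : A} (hb : b ≠ a) : (u + fm (ia a) (u + u')) b = u b := by
  show u b + (ia a b) • (u b + u' b) = u b
  rw [ia, Pi.single_eq_of_ne hb, zero_smul, add_zero]

private theorem K5_mem (hs : Sp phi) {U : (I → ZMod 2) → Finset (LabP k)} (h : Fam phi U)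
    (w : I → ZMod 2) (x : LabP k) : x ∈ U w ↔ Sup (fun a => phi a ⬝ᵥ w) x ∧
        ∀ a, phi a ⬝ᵥ w = 1 → x a ∈ (U w).image (fun x => x a) := by
  constructor
  · exact fun hx => ⟨(h.full w).sup x hx, fun a _ => mem_image.2 ⟨x, hx, rfl⟩⟩
  · rintro ⟨h1, h2⟩
    obtain ⟨x₀, hx₀⟩ := (h.full w).ne
    have h3 : ∀ a, ∃ u ∈ U w, u a = x a := by
      intro a
      rcases z2 (phi a ⬝ᵥ w) with h0 | h0
      · exact ⟨x₀, hx₀, by rw [h1 a h0, (h.full w).sup x₀ hx₀ a h0]⟩
      · exact mem_image.1 (h2 a h0)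
    choose u hu hux using h3
    have h4 := Fam.mix hs h hu
    have h5 : (fun a => u a a) = x := funext hux
    rwa [h5] at h4

private theorem K5_unl (hs : Sp phi) {U : (I → ZMod 2) → Finset (LabP k)} (h : Fam phi U)
    {w : I → ZMod 2} {a : A} (ha : phi a ⬝ᵥ w = 1) : Unl2 ((U w).image (fun x => x a)) := by
  intro p hp q hq
  obtain ⟨u, hu, rfl⟩ := mem_image.1 hp
  obtain ⟨u', hu', rfl⟩ := mem_image.1 hq
  have h1 := (h.full w).unl u hu _ (Fam.coord hs h ha hu hu hu')
  rw [Qf, sum_eq_single a (fun b _ hb => by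
    rw [Pi.sub_apply, K5_off u u' hb, sub_self, Q2_zero, mul_zero]) (fun hn => absurd (mem_univ a) hn),
    Pi.sub_apply, K5_at, ha, one_mul] at h1
  exact h1

private theorem K5_sub (hs : Sp phi) {U : (I → ZMod 2) → Finset (LabP k)} (h : Fam phi U)
    {w w' : I → ZMod 2} {a : A} (ha : phi a ⬝ᵥ w = 1) (ha' : phi a ⬝ᵥ w' = 1)
    (hW : (U w).image (fun x => x a) ∈ UsN (k a)) :
    (U w').image (fun x => x a) ⊆ (U w).image (fun x => x a) := by
  intro p hp
  obtain ⟨y, hy, rfl⟩ := mem_image.1 hp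
  obtain ⟨u₀, hu₀⟩ := (h.full w).ne
  obtain ⟨h1, h2⟩ := mem_UsN.1 hW
  refine Pool.Agent.Lib.MP_1a91b9_ntQ.Da.K2 h1 h2 (Q2 (u₀ a - y a)) fun l hl => ?_
  obtain ⟨u, hu, rfl⟩ := mem_image.1 hl
  have h3 := h.cross w w' _ (Fam.coord hs h ha hu₀ hu₀ hu) y hy
  have h4 := h.cross w w' u₀ hu₀ y hy
  rw [← add_sum_erase univ _ (mem_univ a), K5_at, ha, ha', one_mul, one_mul] at h3
  rw [← add_sum_erase univ _ (mem_univ a), ha, ha', one_mul, one_mul] at h4
  have h5 : ∑ b ∈ univ.erase a, (phi b ⬝ᵥ w) * (phi b ⬝ᵥ w') * Q2 ((u₀ + fm (ia a) (u₀ + u)) b - y b) =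
      ∑ b ∈ univ.erase a, (phi b ⬝ᵥ w) * (phi b ⬝ᵥ w') * Q2 (u₀ b - y b) :=
    sum_congr rfl fun b hb => by rw [K5_off u₀ u (ne_of_mem_erase hb)]
  rw [h5] at h3
  exact add_right_cancel (h3.trans h4.symm)

/-- **K5a** (medium-). The projections of a layer are maximal unlinked sets and the layer is their product. Proof: let
`W a = (U w).image fun x => x a`. (1) `x ∈ U w` iff `Sup _ x` and `x a ∈ W a` for all `a` in the support: `sup`, and `Fam.mix` (for `a` outside
of the support take any element). (2) For `a` in the support `W a` is `Unl2`: for `p = u a`, `q = u' a` with `u, u' ∈ U w` the element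
`v = u + fm (ia a) (u + u')` is in `U w` (`Fam.coord`) and `u - v` has the component `p - q` (up to sign) at `a` and zero elsewhere,
so `0 = Qf _ (u - v) = Q2 (p - q)`. (3) By (1) the layer has `∏ a, if phi a ⬝ᵥ w = 1 then (W a).card else 1` elements (bijection with
the `Fintype.piFinset` of `W a` resp. `{0}`, `Fintype.card_piFinset`); by `card` this is `∏ a, if .. then 2 ^ k a else 1`, and
`(W a).card ≤ 2 ^ k a` (`K1`, MP_1a91b9_ntQ), all positive, so all the inequalities are equalities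
(`Finset.prod_lt_prod'` or dividing). -/
theorem Fam.layer (hs : Sp phi) {U : (I → ZMod 2) → Finset (LabP k)} (h : Fam phi U)
    (w : I → ZMod 2) : (∀ a, phi a ⬝ᵥ w = 1 → (U w).image (fun x => x a) ∈ UsN (k a)) ∧
      ∀ x, x ∈ U w ↔ Sup (fun a => phi a ⬝ᵥ w) x ∧
        ∀ a, phi a ⬝ᵥ w = 1 → x a ∈ (U w).image (fun x => x a) := by
  refine ⟨?_, K5_mem hs h w⟩
  have h1 : U w = Fintype.piFinset fun a =>
      if phi a ⬝ᵥ w = 1 then (U w).image (fun x => x a) else {(0 : Lab2 (k a))} := by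
    ext x
    rw [Fintype.mem_piFinset, K5_mem hs h w x]
    constructor
    · rintro ⟨h2, h3⟩ a
      split_ifs with h0
      · exact h3 a h0
      · exact mem_singleton.2 (h2 a ((z2 (phi a ⬝ᵥ w)).resolve_right h0))
    · intro h2
      refine ⟨fun a h0 => ?_, fun a h0 => ?_⟩
      · have h3 := h2 a
        have h4 : ¬ phi a ⬝ᵥ w = 1 := fun h5 => zero_ne_one ((show phi a ⬝ᵥ w = 0 from h0).symm.trans h5)
        rw [if_neg h4] at h3
        exact mem_singleton.1 h3
      · have h3 := h2 a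
        rwa [if_pos h0] at h3
  have h2 : (∏ a, if phi a ⬝ᵥ w = 1 then ((U w).image (fun x => x a)).card else 1) =
      ∏ a, if phi a ⬝ᵥ w = 1 then 2 ^ k a else 1 := by
    rw [← (h.full w).card]
    conv_rhs => rw [h1, Fintype.card_piFinset]
    refine prod_congr rfl fun a _ => ?_
    split_ifs
    · rfl
    · rw [card_singleton]
  have hle : ∀ a, phi a ⬝ᵥ w = 1 → ((U w).image (fun x => x a)).card ≤ 2 ^ k a := fun a ha =>
    Pool.Agent.Lib.MP_1a91b9_ntQ.Da.K1 (K5_unl hs h ha)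
  intro a ha
  refine mem_UsN.2 ⟨K5_unl hs h ha, ?_⟩
  by_contra hne
  have hlt := lt_of_le_of_ne (hle a ha) hne
  refine absurd h2 (ne_of_lt (prod_lt_prod (fun b _ => ?_) (fun b _ => ?_) ⟨a, mem_univ a, ?_⟩))
  · split_ifs
    · exact card_pos.2 ((h.full w).ne.image _)
    · exact one_pos
  · split_ifs with h0
    · exact hle b h0
    · exact le_rfl
  · rw [if_pos ha, if_pos ha]
    exact hlt

/-- **K5b** (medium-). The projections do not depend on the colour. Proof: let `y ∈ U w'` and `W a = (U w).image (fun x => x a)`, which is in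
`UsN (k a)` (`Fam.layer`). For `u, u' ∈ U w` which differ only at `a` the cross condition with `y` gives
`Q2 (u a - y a) = Q2 (u' a - y a)` (the other terms are equal, the coefficient at `a` is `1`). For any `p, p' ∈ W a` there are such `u, u'` with
`u a = p`, `u' a = p'` (`p = u a`, `u' = u + fm (ia a) (u + u'')` with `u'' a = p'`, `Fam.coord`). So `Q2 (p - y a)` is constant on `W a`
and `y a ∈ W a` by `K2` (MP_1a91b9_ntQ). This is one inclusion; the other by symmetry. -/
theorem Fam.indep (hs : Sp phi) {U : (I → ZMod 2) → Finset (LabP k)} (h : Fam phi U)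
    {w w' : I → ZMod 2} {a : A} (ha : phi a ⬝ᵥ w = 1) (ha' : phi a ⬝ᵥ w' = 1) :
    (U w).image (fun x => x a) = (U w').image (fun x => x a) := by
  exact Subset.antisymm (K5_sub hs h ha' ha ((Fam.layer hs h w').1 a ha')) (K5_sub hs h ha ha' ((Fam.layer hs h w).1 a ha))

/-- **K5c** (easy+). THE STRUCTURE OF THE FULL FAMILIES. Proof: `V a = (U w_a).image (fun x => x a)` with `phi a ⬝ᵥ w_a = 1` (`Sp.one`,
`choose`); `Fam.layer` and `Fam.indep`. -/
theorem Fam.prod (hs : Sp phi) {U : (I → ZMod 2) → Finset (LabP k)} (h : Fam phi U) :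
    ∃ V : ∀ a, Finset (Lab2 (k a)), (∀ a, V a ∈ UsN (k a)) ∧
      ∀ w x, x ∈ U w ↔ Sup (fun a => phi a ⬝ᵥ w) x ∧ ∀ a, phi a ⬝ᵥ w = 1 → x a ∈ V a := by
  choose wa hwa using hs.one
  refine ⟨fun a => (U (wa a)).image fun x => x a, fun a => (Fam.layer hs h (wa a)).1 a (hwa a), fun w x => ?_⟩
  rw [(Fam.layer hs h w).2 x]
  refine and_congr_right fun _ => forall_congr' fun a => ?_
  constructor
  · intro h1 h2
    show x a ∈ (U (wa a)).image fun x => x a
    rw [← Fam.indep hs h h2 (hwa a)]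
    exact h1 h2
  · intro h1 h2
    rw [Fam.indep hs h h2 (hwa a)]
    exact h1 h2

end

end Pool.Agent.Lib.MP_1a91b9_ntMQ
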