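import Pool.Agent.Lib.MP_1a91b9_ntMQ.P0
import Pool.Agent.Lib.MP_1a91b9_ntMQ.R1
import Pool.Agent.Lib.MP_1a91b9_ntDV.P1

/-!
P1: the mean values in a class are a notion of mean value
-/

set_option autoImplicit false
set_option linter.unusedSectionVars false

namespace Pool.Agent.Lib.MP_1a91b9_ntMQ

open Finset Pool.Agent.Lib.MP_1a91b9_ntH Pool.Agent.Lib.MP_1a91b9_ntQ
open Pool.Agent.Lib.MP_1a91b9_ntQ.Da Pool.Agent.Lib.MP_1a91b9_ntV Pool.Agent.Lib.MP_1a91b9_ntM
open Pool.Agent.Lib.MP_1a91b9_ntDV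

noncomputable section

variable {I : Type} [Fintype I] [DecidableEq I] {ι : Type} [DecidableEq ι] {κ : Type} [Fintype κ]
  [DecidableEq κ] [PS ι]

/-- **P1a** (easy+). Proof: copy `limP_Pcl` (MP_1a91b9_ntDV/P2.lean, P2a; PROVED version in the store file
DV_P2.lean or in MP_1a91b9_DV_EPW_done.txz), with `AVrI` in place of `AVr`. -/
theorem limP_PclI (D : Dat2 ι κ) (γ : I → κ → ZMod 2) : LimP (PclI D γ) := by
  refine ⟨fun f h v w hf hh => ?_, fun f v a hf => ?_, fun f v hb => ?_⟩
  · refine AVrI.congr (AVrI.add hf hh) (fun T => ?_) (add_div _ _ _)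
    split_ifs
    · rfl
    · rw [add_zero]
  · refine AVrI.congr (AVrI.smul hf a) (fun T => ?_) (mul_div_assoc _ _ _)
    split_ifs
    · rfl
    · rw [mul_zero]
  · refine AVrI.of_bounds fun δ hδ => ?_
    obtain ⟨l, u, vl, vu, hl, hu, h1, h2, h3⟩ := hb δ hδ
    have hn : (1 : ℝ) ≤ 2 ^ (Fintype.card κ * Fintype.card I) := one_le_pow₀ (by norm_num)
    have hn0 : (0 : ℝ) < 2 ^ (Fintype.card κ * Fintype.card I) := by positivity
    have hdn : δ / 2 ^ (Fintype.card κ * Fintype.card I) ≤ δ := div_le_self hδ.le hn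
    refine ⟨_, _, vl / 2 ^ (Fintype.card κ * Fintype.card I), vu / 2 ^ (Fintype.card κ * Fintype.card I),
      hl, hu, ?_, ?_, fun T => ?_⟩
    · have h4 : (v - δ) / 2 ^ (Fintype.card κ * Fintype.card I) ≤ vl / 2 ^ (Fintype.card κ * Fintype.card I) :=
        div_le_div_of_nonneg_right h1 hn0.le
      rw [sub_div] at h4
      linarith
    · have h4 : vu / 2 ^ (Fintype.card κ * Fintype.card I) ≤ (v + δ) / 2 ^ (Fintype.card κ * Fintype.card I) :=
        div_le_div_of_nonneg_right h2 hn0.le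
      rw [add_div] at h4
      linarith
    · by_cases hc : ∀ i, clN D (T i) = γ i
      · simp only [if_pos hc]
        exact h3 T
      · simp only [if_neg hc]
        exact ⟨le_rfl, le_rfl⟩

/-- **P1b** (easy). The constant zero. Proof: as `Pcl_zero'` in the proved DV_P3.lean. -/
theorem PclI_zero (D : Dat2 ι κ) (γ : I → κ → ZMod 2) : PclI D γ (fun _ => 0) 0 := by
  have h1 : AVrI (fun _ : I → Finset ι => (0 : ℝ)) 0 := by
    rw [AVrI_iff]
    exact AVI.congr AVI.zero (fun _ => Complex.ofReal_zero) Complex.ofReal_zero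
  refine AVrI.congr h1 (fun T => ?_) (zero_div _)
  split_ifs <;> rfl

/-- **P1c** (easy+). The sum over the classes. Proof: copy `AVr_of_Pcl` (DV_P2.lean): `f c` is the sum over all the
`γ : I → κ → ZMod 2` of `if ∀ i, clN D (c i) = γ i then f c else 0` (exactly one `γ` counts, `fun i => clN D (c i)`),
`AVrI.sum` over `univ`, and the number of the `γ` is `2 ^ (card κ * card I)` (`Fintype.card_fun`, `ZMod.card`, `pow_mul`). -/
theorem AVrI_of_PclI {D : Dat2 ι κ} {f : (I → Finset ι) → ℝ} {v : ℝ} (h : ∀ γ, PclI D γ f v) :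
    AVrI f v := by
  classical
  have h1 := AVrI.sum univ fun γ _ => h γ
  refine AVrI.congr h1 (fun T => ?_) ?_
  · rw [Finset.sum_eq_single (fun i => clN D (T i))]
    · rw [if_pos fun i => rfl]
    · intro γ _ hγ
      rw [if_neg fun h0 => hγ (funext fun i => (h0 i).symm)]
    · intro h0
      exact absurd (mem_univ _) h0
  · rw [sum_const, card_univ, Fintype.card_fun, Fintype.card_fun, ZMod.card, nsmul_eq_mul, ← pow_mul]
    push_cast
    rw [mul_div_cancel₀ _ (by positivity)]

end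

end Pool.Agent.Lib.MP_1a91b9_ntMQ
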