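import Pool.Agent.Lib.MP_1a91b9_ntMQ.P0
import Pool.Agent.Lib.MP_1a91b9_ntMQ.A1

/-!
P2: the classes of the products; the families with an empty product
-/

set_option autoImplicit false
set_option linter.unusedSectionVars false

namespace Pool.Agent.Lib.MP_1a91b9_ntMQ

open Finset Pool.Agent.Lib.MP_1a91b9_ntH Pool.Agent.Lib.MP_1a91b9_ntQ
open Pool.Agent.Lib.MP_1a91b9_ntQ.Da Pool.Agent.Lib.MP_1a91b9_ntV Pool.Agent.Lib.MP_1a91b9_ntM
open Pool.Agent.Lib.MP_1a91b9_ntDV

noncomputable section

section P2a

variable {I A : Type} [Fintype I] {ι : Type} [DecidableEq ι] {κ : Type} [Fintype κ]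

/-- **P2a** (easy+). Proof: `clN D S = fun j => ∑ q ∈ S, D.a q j`. The sum over the filter `TT phi c a` is the sum over
`q ∈ univ.biUnion c` of `(phi a ⬝ᵥ cl c q) * D.a q j` (a value in `ZMod 2` is `0` or `1`, `z2`; `sum_filter`), exchange the
sums, and `∑ q ∈ univ.biUnion c, cl c q i * D.a q j = ∑ q ∈ c i, D.a q j` (`c i ⊆ univ.biUnion c`). -/
theorem clN_TT (D : Dat2 ι κ) (phi : A → I → ZMod 2) (γ : I → κ → ZMod 2) (c : I → Finset ι)
    (hc : ∀ i, clN D (c i) = γ i) (a : A) : clN D (TT phi c a) = ga phi γ a := by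
  classical
  funext j
  have h1 : ∀ q, (if phi a ⬝ᵥ cl c q = 1 then D.a q j else 0) = ∑ i, phi a i * (cl c q i * D.a q j) := by
    intro q
    have h2 : ∑ i, phi a i * (cl c q i * D.a q j) = (phi a ⬝ᵥ cl c q) * D.a q j := by
      unfold dotProduct
      rw [sum_mul]
      exact sum_congr rfl fun i _ => (mul_assoc _ _ _).symm
    rw [h2]
    rcases z2 (phi a ⬝ᵥ cl c q) with h3 | h3
    · rw [h3, if_neg (by decide), zero_mul]
    · rw [h3, if_pos rfl, one_mul]
  have h2 : ∀ i, ∑ q ∈ univ.biUnion c, cl c q i * D.a q j = γ i j := by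
    intro i
    rw [← hc i]
    unfold clN
    rw [← sum_filter_add_sum_filter_not (univ.biUnion c) (fun q => q ∈ c i)]
    have h3 : (univ.biUnion c).filter (fun q => q ∈ c i) = c i := by
      ext q
      rw [mem_filter]
      exact ⟨fun h => h.2, fun h => ⟨mem_biUnion.2 ⟨i, mem_univ _, h⟩, h⟩⟩
    have h4 : ∑ q ∈ (univ.biUnion c).filter (fun q => ¬ q ∈ c i), cl c q i * D.a q j = 0 := by
      refine sum_eq_zero fun q hq => ?_
      unfold cl
      rw [if_neg (mem_filter.1 hq).2, zero_mul]
    rw [h4, add_zero, h3]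
    refine sum_congr rfl fun q hq => ?_
    unfold cl
    rw [if_pos hq, one_mul]
  unfold ga
  rw [Finset.sum_apply]
  show ∑ q ∈ TT phi c a, D.a q j = _
  unfold TT
  rw [sum_filter]
  simp only [h1]
  rw [sum_comm]
  refine sum_congr rfl fun i _ => ?_
  rw [← mul_sum, h2 i, Pi.smul_apply, smul_eq_mul]

end P2a

variable {I A : Type} [Fintype I] [DecidableEq I] [Fintype A] {phi : A → I → ZMod 2} {ι : Type}
  [DecidableEq ι]

private theorem P2_zero {I A : Type} [Fintype I] {phi : A → I → ZMod 2} {ι : Type} [DecidableEq ι]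
    {c : I → Finset ι} {a : A} (h : TT phi c a = ∅) (q : ι) : phi a ⬝ᵥ cl c q = 0 := by
  by_cases hq : q ∈ univ.biUnion c
  · refine (z2 _).resolve_right fun h1 => ?_
    have h2 : q ∈ TT phi c a := mem_filter.2 ⟨hq, h1⟩
    rw [h] at h2
    exact notMem_empty q h2
  · have h1 : cl c q = 0 := by
      funext i
      have h2 : q ∉ c i := fun hi => hq (mem_biUnion.2 ⟨i, mem_univ _, hi⟩)
      exact if_neg h2
    rw [h1, dotProduct_zero]

private theorem P2_det {I A : Type} [Fintype I] [DecidableEq I] {phi : A → I → ZMod 2} {ι : Type} [DecidableEq ι]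
    {c c' : I → Finset ι} {a : A} (h : TT phi c a = ∅) (h' : TT phi c' a = ∅) {i : I} (hi : phi a i = 1)
    (he : ∀ l, l ≠ i → c l = c' l) : c = c' := by
  funext l
  by_cases hl : l = i
  · subst hl
    ext q
    have h1 := P2_zero h q
    have h2 := P2_zero h' q
    unfold dotProduct at h1 h2
    rw [← add_sum_erase univ _ (mem_univ l)] at h1 h2
    have h3 : ∑ m ∈ univ.erase l, phi a m * cl c q m = ∑ m ∈ univ.erase l, phi a m * cl c' q m :=
      sum_congr rfl fun m hm => by
        unfold cl
        rw [he m (ne_of_mem_erase hm)]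
    rw [h3, hi, one_mul] at h1
    rw [hi, one_mul] at h2
    have h4 : cl c q l = cl c' q l := add_right_cancel (h1.trans h2.symm)
    unfold cl at h4
    by_cases hq : q ∈ c l <;> by_cases hq' : q ∈ c' l
    · exact ⟨fun _ => hq', fun _ => hq⟩
    · rw [if_pos hq, if_neg hq'] at h4
      exact absurd h4 one_ne_zero
    · rw [if_neg hq, if_pos hq'] at h4
      exact absurd h4 zero_ne_one
    · exact ⟨fun h5 => absurd h5 hq, fun h5 => absurd h5 hq'⟩
  · exact he l hl

private theorem P2_card {I A : Type} [Fintype I] [DecidableEq I] [Fintype A] {phi : A → I → ZMod 2} {ι : Type}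
    [DecidableEq ι] (hs : Sp phi) (S : Finset ι) (a : A) :
    ((Fintype.piFinset fun _ : I => S.powerset).filter fun c => TT phi c a = ∅).card * 2 ^ S.card ≤
      2 ^ (Fintype.card I * S.card) := by
  classical
  obtain ⟨i, hi⟩ := Function.ne_iff.mp (hs.ne a)
  have hi1 : phi a i = 1 := (z2 _).resolve_left hi
  obtain ⟨Q, hQ⟩ : ∃ Q, Q = (Fintype.piFinset fun _ : I => S.powerset).filter fun c => TT phi c a = ∅ := ⟨_, rfl⟩
  have h1 : (Q ×ˢ S.powerset).card ≤ (Fintype.piFinset fun _ : I => S.powerset).card := by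
    refine card_le_card_of_injOn (fun x => Function.update x.1 i x.2) ?_ ?_
    · intro x hx
      obtain ⟨h2, h3⟩ := mem_product.1 (mem_coe.1 hx)
      rw [hQ] at h2
      rw [mem_coe, Fintype.mem_piFinset]
      intro l
      show Function.update x.1 i x.2 l ∈ S.powerset
      by_cases hl : l = i
      · subst hl
        rw [Function.update_self]
        exact h3
      · rw [Function.update_of_ne hl]
        exact Fintype.mem_piFinset.1 (mem_filter.1 h2).1 l
    · rintro ⟨c, s⟩ hx ⟨c', s'⟩ hx' he
      have h2 := (mem_product.1 (mem_coe.1 hx)).1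
      have h2' := (mem_product.1 (mem_coe.1 hx')).1
      rw [hQ] at h2 h2'
      have he' : Function.update c i s = Function.update c' i s' := he
      have h3 : s = s' := by
        have h4 := congrFun he' i
        rwa [Function.update_self, Function.update_self] at h4
      have h5 : c = c' := by
        refine P2_det (mem_filter.1 h2).2 (mem_filter.1 h2').2 hi1 fun l hl => ?_
        have h4 := congrFun he' l
        rwa [Function.update_of_ne hl, Function.update_of_ne hl] at h4
      rw [h3, h5]
  rw [card_product, card_powerset, Fintype.card_piFinset, prod_const, card_univ, card_powerset, ← pow_mul,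
    mul_comm S.card] at h1
  rw [← hQ]
  exact h1

open Classical in
/-- **P2b** (medium-). The families with an empty product are rare. Proof: the indicator of `EE` is at most the sum over `a` of the indicators of
`TT phi c a = ∅`. For a fixed `a`: choose `i` with `phi a i = 1` (`hs.ne a`, `z2`). `TT phi c a = ∅` means
`phi a ⬝ᵥ cl c q = 0` for all `q` (for `q` in no `c i` both sides are `0`), so `c i` is determined by the other `c l`:
the map `c ↦ (fun l => if l = i then ∅ else c l)` is injective on these families; it goes to the families with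
`c i = ∅`, whose number is `2 ^ ((#I - 1) * #S)` (`Fintype.card_piFinset`), and `2 ^ ((#I - 1) * #S) / 2 ^ (#I * #S) =
1 / 2 ^ #S`. (Or: with `sum_col` and `TT_cf` the families are the `f : S → I → ZMod 2` with `phi a ⬝ᵥ f j = 0` for all `j`;
their number is `(2 ^ (#I - 1)) ^ #S` because the `w` with `phi a ⬝ᵥ w = 0` are half of all `w`.) -/
theorem avrI_EE (hs : Sp phi) (S : Finset ι) :
    avrI (fun c => if EE phi c then (1 : ℝ) else 0) S ≤ Fintype.card A * (1 / 2) ^ S.card := by
  have h1 : ∀ c : I → Finset ι, (if EE phi c then (1 : ℝ) else 0) ≤ ∑ a, if TT phi c a = ∅ then (1 : ℝ) else 0 := by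
    intro c
    split_ifs with h
    · obtain ⟨a, ha⟩ := h
      have h2 := single_le_sum (f := fun a => if TT phi c a = ∅ then (1 : ℝ) else 0)
        (fun b _ => by
          show (0 : ℝ) ≤ if TT phi c b = ∅ then (1 : ℝ) else 0
          split_ifs
          · exact zero_le_one
          · exact le_rfl) (mem_univ a)
      refine le_trans (le_of_eq ?_) h2
      show (1 : ℝ) = if TT phi c a = ∅ then (1 : ℝ) else 0
      rw [if_pos ha]
    · exact sum_nonneg fun b _ => by
        split_ifs
        · exact zero_le_one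
        · exact le_rfl
  unfold avrI
  rw [div_le_iff₀ (by positivity)]
  calc ∑ c ∈ Fintype.piFinset fun _ : I => S.powerset, (if EE phi c then (1 : ℝ) else 0)
      ≤ ∑ c ∈ Fintype.piFinset fun _ : I => S.powerset, ∑ a, (if TT phi c a = ∅ then (1 : ℝ) else 0) :=
        sum_le_sum fun c _ => h1 c
    _ = ∑ a, ((((Fintype.piFinset fun _ : I => S.powerset).filter fun c => TT phi c a = ∅).card : ℕ) : ℝ) := by
        rw [sum_comm]
        refine sum_congr rfl fun a _ => ?_
        rw [sum_ite, sum_const_zero, add_zero, sum_const, nsmul_eq_mul, mul_one]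
    _ ≤ ∑ _a : A, (1 / 2 : ℝ) ^ S.card * 2 ^ (Fintype.card I * S.card) := by
        refine sum_le_sum fun a _ => ?_
        have h2 := P2_card hs S a
        have h3 : ((((Fintype.piFinset fun _ : I => S.powerset).filter fun c => TT phi c a = ∅).card : ℕ) : ℝ) *
            2 ^ S.card ≤ 2 ^ (Fintype.card I * S.card) := by exact_mod_cast h2
        rw [one_div, inv_pow, inv_mul_eq_div, le_div_iff₀ (by positivity)]
        exact h3
    _ = Fintype.card A * (1 / 2) ^ S.card * 2 ^ (Fintype.card I * S.card) := by
        rw [sum_const, card_univ, nsmul_eq_mul, mul_assoc]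

end

end Pool.Agent.Lib.MP_1a91b9_ntMQ
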