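import Pool.Agent.Lib.MP_1a91b9_ntMQ.P2
import Pool.Agent.Lib.MP_1a91b9_ntMQ.R1
import Pool.Agent.Lib.MP_1a91b9_ntDV.E10

/-!
P3: changing a bounded function on the families with an empty product
-/

set_option autoImplicit false
set_option linter.unusedSectionVars false

namespace Pool.Agent.Lib.MP_1a91b9_ntMQ

open Finset Pool.Agent.Lib.MP_1a91b9_ntH Pool.Agent.Lib.MP_1a91b9_ntQ
open Pool.Agent.Lib.MP_1a91b9_ntQ.Da Pool.Agent.Lib.MP_1a91b9_ntV Pool.Agent.Lib.MP_1a91b9_ntM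
open Pool.Agent.Lib.MP_1a91b9_ntDV

noncomputable section

variable {I A : Type} [Fintype I] [DecidableEq I] [Fintype A] {phi : A → I → ZMod 2} {ι : Type}
  [DecidableEq ι] {κ : Type} [Fintype κ] [DecidableEq κ] [PS ι]

/-- **P3** (medium-). Proof: `R c = (if ∀ i, clN D (c i) = γ i then h c else 0) - (if .. then f c else 0)` is zero for `¬ EE phi c`
and `|R c| ≤ C`, so `|avrI R S| ≤ C * avrI (fun c => if EE phi c then 1 else 0) S ≤ C * (card A * (1 / 2) ^ S.card)` by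
`avrI_EE hs S`. So `∑ S ∈ Sx ι X, (avrI R S) ^ 2 ≤ (C * card A) ^ 2 * ∑ S ∈ Sx ι X, ((1 / 2) ^ S.card) ^ 2` and `sum_quarter`
(MP_1a91b9_ntDV/E10.lean, with `hD.an.cheb`, `hD.an.zt`) gives `AVrI R 0` (copy the end of the proof of `AVr.congr_fin`
there); then `AVrI.add`, `AVrI.congr`. -/
theorem PclI.congrB {D : Dat2 ι κ} {w : κ → ZMod 2} (hD : OKt D w) (hs : Sp phi)
    {γ : I → κ → ZMod 2} {f h : (I → Finset ι) → ℝ} {v v' C : ℝ} (hf : PclI D γ f v)
    (heq : ∀ c, (∀ i, clN D (c i) = γ i) → ¬ EE phi c → h c = f c)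
    (hC : ∀ c, |h c - f c| ≤ C) (hv : v' = v) : PclI D γ h v' := by
  classical
  subst hv
  have hC0 : 0 ≤ C := (abs_nonneg _).trans (hC fun _ => ∅)
  obtain ⟨F, hF⟩ : ∃ F : (I → Finset ι) → ℝ, ∀ c, F c = if ∀ i, clN D (c i) = γ i then f c else 0 :=
    ⟨_, fun _ => rfl⟩
  obtain ⟨G, hG⟩ : ∃ G : (I → Finset ι) → ℝ, ∀ c, G c = if ∀ i, clN D (c i) = γ i then h c else 0 :=
    ⟨_, fun _ => rfl⟩
  obtain ⟨R, hR⟩ : ∃ R : (I → Finset ι) → ℝ, ∀ c, R c = G c - F c := ⟨_, fun _ => rfl⟩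
  have hRle : ∀ c, |R c| ≤ C * (if EE phi c then (1 : ℝ) else 0) := by
    intro c
    rw [hR, hG, hF]
    by_cases hP : ∀ i, clN D (c i) = γ i
    · rw [if_pos hP, if_pos hP]
      by_cases hE : EE phi c
      · rw [if_pos hE, mul_one]
        exact hC c
      · rw [heq c hP hE, sub_self, abs_zero, if_neg hE, mul_zero]
    · rw [if_neg hP, if_neg hP, sub_self, abs_zero]
      refine mul_nonneg hC0 ?_
      split_ifs
      · exact zero_le_one
      · exact le_rfl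
  have hle : ∀ S : Finset ι, |avrI R S| ≤ C * Fintype.card A * (1 / 2) ^ S.card := by
    intro S
    have h2 : (0 : ℝ) < 2 ^ (Fintype.card I * S.card) := by positivity
    have h3 : |avrI R S| ≤ C * avrI (fun c => if EE phi c then (1 : ℝ) else 0) S := by
      unfold avrI
      rw [abs_div, abs_of_pos h2, ← mul_div_assoc]
      refine div_le_div_of_nonneg_right ?_ h2.le
      refine (Finset.abs_sum_le_sum_abs _ _).trans ?_
      rw [Finset.mul_sum]
      exact Finset.sum_le_sum fun c _ => hRle c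
    refine h3.trans ?_
    rw [mul_assoc]
    exact mul_le_mul_of_nonneg_left (avrI_EE hs S) hC0
  obtain ⟨M, hM⟩ : ∃ M : ℝ, M = C * Fintype.card A := ⟨_, rfl⟩
  have hR0 : AVrI R 0 := by
    intro ε hε
    obtain ⟨C1, hC1⟩ := hD.an.cheb
    obtain ⟨C2, hC2⟩ := hD.an.zt
    obtain ⟨X₀, hX₀⟩ := sum_quarter hC1 hC2 (ε / (M ^ 2 + 1)) (div_pos hε (by positivity))
    refine ⟨X₀, fun X hX => ?_⟩
    have h3 := hX₀ X hX
    calc ∑ S ∈ Sx ι X, (avrI R S - 0) ^ 2 ≤ ∑ S ∈ Sx ι X, M ^ 2 * (((1 : ℝ) / 2) ^ S.card) ^ 2 := by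
          refine Finset.sum_le_sum fun S _ => ?_
          rw [sub_zero, ← sq_abs, ← mul_pow, hM]
          exact pow_le_pow_left₀ (abs_nonneg _) (hle S) 2
      _ = M ^ 2 * ∑ S ∈ Sx ι X, (((1 : ℝ) / 2) ^ S.card) ^ 2 := (Finset.mul_sum _ _ _).symm
      _ ≤ M ^ 2 * (ε / (M ^ 2 + 1) * X) := mul_le_mul_of_nonneg_left h3 (by positivity)
      _ ≤ ε * X := by
          have h4 : M ^ 2 * (ε / (M ^ 2 + 1) * X) = (M ^ 2 / (M ^ 2 + 1)) * (ε * X) := by
            ring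
          rw [h4]
          refine mul_le_of_le_one_left (mul_nonneg hε.le (Nat.cast_nonneg X)) ?_
          rw [div_le_one (by positivity)]
          linarith
      _ ≤ ε * ((Sx ι X).card + X) := by
          refine mul_le_mul_of_nonneg_left ?_ hε.le
          linarith [(Nat.cast_nonneg (Sx ι X).card : (0 : ℝ) ≤ _)]
  have hfF : AVrI F (v' / 2 ^ (Fintype.card κ * Fintype.card I)) :=
    AVrI.congr hf (fun c => hF c) rfl
  have hGG : AVrI G (v' / 2 ^ (Fintype.card κ * Fintype.card I)) :=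
    AVrI.congr (hfF.add hR0) (fun c => by rw [hR]; ring) (add_zero _).symm
  exact AVrI.congr hGG (fun c => (hG c).symm) rfl

end

end Pool.Agent.Lib.MP_1a91b9_ntMQ
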