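import Pool.Agent.Lib.MP_1a91b9_ntMQ.P3

/-!
P4: changing an unbounded function on the families with an empty product
-/

set_option autoImplicit false
set_option linter.unusedSectionVars false

namespace Pool.Agent.Lib.MP_1a91b9_ntMQ

open Finset Pool.Agent.Lib.MP_1a91b9_ntH Pool.Agent.Lib.MP_1a91b9_ntQ
open Pool.Agent.Lib.MP_1a91b9_ntQ.Da Pool.Agent.Lib.MP_1a91b9_ntV Pool.Agent.Lib.MP_1a91b9_ntM
open Pool.Agent.Lib.MP_1a91b9_ntDV

noncomputable section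

variable {I A : Type} [Fintype I] [DecidableEq I] [Fintype A] {phi : A → I → ZMod 2} {ι : Type}
  [DecidableEq ι] {κ : Type} [Fintype κ] [DecidableEq κ] [PS ι]

private theorem P4_pt (x v t δ : ℝ) (hδ : 0 < δ) (ht : 0 ≤ t) :
    |x| * t ≤ |v| * δ + (|v| / (4 * δ) + 1 / 2) * t ^ 2 + 1 / 2 * (x - v) ^ 2 := by
  have h1 : |x| ≤ |v| + |x - v| := by
    have h := abs_add_le v (x - v)
    rwa [add_sub_cancel] at h
  have h2 : t ≤ δ + t ^ 2 / (4 * δ) := by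
    have h3 : 0 ≤ (t - 2 * δ) ^ 2 / (4 * δ) := by positivity
    have h4 : (t - 2 * δ) ^ 2 / (4 * δ) = δ + t ^ 2 / (4 * δ) - t := by
      field_simp
      ring
    linarith
  have h5 : |x - v| * t ≤ 1 / 2 * (x - v) ^ 2 + 1 / 2 * t ^ 2 := by
    have h6 : 0 ≤ (|x - v| - t) ^ 2 := sq_nonneg _
    have h7 : |x - v| ^ 2 = (x - v) ^ 2 := sq_abs _
    nlinarith
  have h8 : |x| * t ≤ (|v| + |x - v|) * t := mul_le_mul_of_nonneg_right h1 ht
  have h9 : |v| * t ≤ |v| * (δ + t ^ 2 / (4 * δ)) := mul_le_mul_of_nonneg_left h2 (abs_nonneg _)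
  have h10 : |v| * (δ + t ^ 2 / (4 * δ)) = |v| * δ + |v| / (4 * δ) * t ^ 2 := by ring
  have h11 : (|v| / (4 * δ) + 1 / 2) * t ^ 2 = |v| / (4 * δ) * t ^ 2 + 1 / 2 * t ^ 2 := by ring
  have h12 : (|v| + |x - v|) * t = |v| * t + |x - v| * t := by ring
  linarith

/-- **P4a** (medium-). Proof. Let `x = avrI G S` and `t = (1 / 2) ^ S.card`. For every `δ > 0`
`|x| * t ≤ |v| * t + |x - v| * t ≤ |v| * (δ + t ^ 2 / (4 * δ)) + ((x - v) ^ 2 + t ^ 2) / 2`. Sum over `S ∈ Sx ι X`: `hG` for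
`∑ (x - v) ^ 2` and `sum_quarter h1 h2` (MP_1a91b9_ntDV/E10.lean) for `∑ t ^ 2`; choose `δ` with `|v| * δ ≤ ε / 4` first
(for example `δ = ε / (4 * (|v| + 1))`), then the two thresholds. -/
theorem AVrI.quarter {C1 C2 : ℝ} (h1 : Cheb ι C1) (h2 : Zt ι C2) {G : (I → Finset ι) → ℝ} {v : ℝ}
    (hG : AVrI G v) (ε : ℝ) (hε : 0 < ε) : ∃ X₀ : ℕ, ∀ X : ℕ, X₀ ≤ X →
      ∑ S ∈ Sx ι X, |avrI G S| * (1 / 2) ^ S.card ≤ ε * ((Sx ι X).card + X) := by
  have hv0 : 0 ≤ |v| := abs_nonneg v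
  obtain ⟨δ, hδe⟩ : ∃ δ : ℝ, δ = ε / (4 * (|v| + 1)) := ⟨_, rfl⟩
  have hδ : 0 < δ := by
    rw [hδe]
    positivity
  have hvδ : |v| * δ ≤ ε / 4 := by
    have e : ε / 4 - |v| * δ = ε / (4 * (|v| + 1)) := by
      rw [hδe]
      field_simp
      ring
    have e2 : 0 ≤ ε / (4 * (|v| + 1)) := by positivity
    linarith
  obtain ⟨K, hKe⟩ : ∃ K : ℝ, K = |v| / (4 * δ) + 1 / 2 := ⟨_, rfl⟩
  have hK : 0 < K := by
    rw [hKe]
    positivity
  obtain ⟨X₁, hX₁⟩ := sum_quarter h1 h2 (ε / (4 * K)) (by positivity)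
  obtain ⟨X₂, hX₂⟩ := hG ε hε
  refine ⟨max X₁ X₂, fun X hX => ?_⟩
  have h3 := hX₁ X ((le_max_left _ _).trans hX)
  have h4 := hX₂ X ((le_max_right _ _).trans hX)
  have h5 : ∑ S ∈ Sx ι X, |avrI G S| * (1 / 2) ^ S.card ≤
      ∑ S ∈ Sx ι X, (|v| * δ + K * (((1 : ℝ) / 2) ^ S.card) ^ 2 + 1 / 2 * (avrI G S - v) ^ 2) := by
    refine Finset.sum_le_sum fun S _ => ?_
    rw [hKe]
    exact P4_pt _ v _ δ hδ (by positivity)
  have h6 : ∑ S ∈ Sx ι X, (|v| * δ + K * (((1 : ℝ) / 2) ^ S.card) ^ 2 +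
      1 / 2 * (avrI G S - v) ^ 2) = ((Sx ι X).card : ℝ) * (|v| * δ) +
      K * ∑ S ∈ Sx ι X, (((1 : ℝ) / 2) ^ S.card) ^ 2 +
      1 / 2 * ∑ S ∈ Sx ι X, (avrI G S - v) ^ 2 := by
    rw [Finset.sum_add_distrib, Finset.sum_add_distrib, Finset.sum_const, nsmul_eq_mul,
      ← Finset.mul_sum, ← Finset.mul_sum]
  have hc : (0 : ℝ) ≤ ((Sx ι X).card : ℝ) := Nat.cast_nonneg _
  have hx : (0 : ℝ) ≤ (X : ℝ) := Nat.cast_nonneg _
  have h7 : ((Sx ι X).card : ℝ) * (|v| * δ) ≤ ((Sx ι X).card : ℝ) * (ε / 4) :=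
    mul_le_mul_of_nonneg_left hvδ hc
  have h8 : K * ∑ S ∈ Sx ι X, (((1 : ℝ) / 2) ^ S.card) ^ 2 ≤ K * (ε / (4 * K) * X) :=
    mul_le_mul_of_nonneg_left h3 hK.le
  have h9 : K * (ε / (4 * K) * X) = ε / 4 * X := by
    field_simp
  have h10 : 0 ≤ ε * (X : ℝ) := by positivity
  have h11 : 0 ≤ ε * ((Sx ι X).card : ℝ) := by positivity
  nlinarith [h5, h6, h7, h8, h9, h4, h10, h11]

private theorem P4_cs (T : Finset (I → Finset ι)) (R e p : (I → Finset ι) → ℝ) (K : ℝ)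
    (hR : ∀ c, |R c| ≤ K * (e c * p c)) :
    (∑ c ∈ T, R c) ^ 2 ≤ K ^ 2 * ((∑ c ∈ T, e c ^ 2) * ∑ c ∈ T, p c ^ 2) := by
  have h1 : |∑ c ∈ T, R c| ≤ K * ∑ c ∈ T, e c * p c := by
    rw [Finset.mul_sum]
    exact (Finset.abs_sum_le_sum_abs _ _).trans (Finset.sum_le_sum fun c _ => hR c)
  have h2 : (∑ c ∈ T, R c) ^ 2 ≤ (K * ∑ c ∈ T, e c * p c) ^ 2 := by
    rw [← sq_abs (∑ c ∈ T, R c)]
    exact pow_le_pow_left₀ (abs_nonneg _) h1 2
  refine h2.trans ?_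
  rw [mul_pow]
  exact mul_le_mul_of_nonneg_left (Finset.sum_mul_sq_le_sq_mul_sq _ _ _) (sq_nonneg K)

/-- **P4b** (medium-). Proof: let `R c = (if ∀ i, clN D (c i) = γ i then h c else 0) - (if .. then f c else 0)`,
`e c = if EE phi c then 1 else 0`, `g c = if ∀ i, clN D (c i) = γ i then f c ^ 2 else 0`. Then `|R c| ≤ C * (e c * (if .. then f c else 0))`
(take `C ≥ 0`: replace `C` by `|C|`), so by Cauchy-Schwarz (`Finset.sum_mul_sq_le_sq_mul_sq`; `e c ^ 2 = e c`)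
`(avrI R S) ^ 2 ≤ C ^ 2 * (avrI e S * avrI g S) ≤ C ^ 2 * card A * (|avrI g S| * (1 / 2) ^ S.card)` (`avrI_EE hs S`;
`avrI g S ≥ 0`). By `AVrI.quarter` for `G = g` (`h2` says `AVrI g ..`) one has `AVrI R 0`; then `AVrI.add`, `AVrI.congr`. -/
theorem PclI.rareM {D : Dat2 ι κ} {w : κ → ZMod 2} (hD : OKt D w) (hs : Sp phi)
    {γ : I → κ → ZMod 2} {f h : (I → Finset ι) → ℝ} {v v2 C : ℝ} (h1 : PclI D γ f v)
    (h2 : PclI D γ (fun c => f c ^ 2) v2) (hf : ∀ c, 0 ≤ f c)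
    (heq : ∀ c, (∀ i, clN D (c i) = γ i) → ¬ EE phi c → h c = f c)
    (hC : ∀ c, |h c - f c| ≤ C * f c) : PclI D γ h v := by
  classical
  obtain ⟨pf, hpf⟩ : ∃ pf : (I → Finset ι) → ℝ, ∀ c, pf c =
    if ∀ i, clN D (c i) = γ i then f c else 0 := ⟨_, fun _ => rfl⟩
  obtain ⟨ph, hph⟩ : ∃ ph : (I → Finset ι) → ℝ, ∀ c, ph c =
    if ∀ i, clN D (c i) = γ i then h c else 0 := ⟨_, fun _ => rfl⟩
  obtain ⟨e, he⟩ : ∃ e : (I → Finset ι) → ℝ, ∀ c, e c =
    if EE phi c then (1 : ℝ) else 0 := ⟨_, fun _ => rfl⟩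
  obtain ⟨g, hg⟩ : ∃ g : (I → Finset ι) → ℝ, ∀ c, g c = pf c ^ 2 := ⟨_, fun _ => rfl⟩
  obtain ⟨V, hV⟩ : ∃ V : ℝ, V = v / 2 ^ (Fintype.card κ * Fintype.card I) := ⟨_, rfl⟩
  have hP : AVrI pf V := by
    refine AVrI.congr (v := V) ?_ hpf rfl
    rw [hV]
    exact h1
  have hG : AVrI g (v2 / 2 ^ (Fintype.card κ * Fintype.card I)) := by
    have h2' : AVrI (fun c => if ∀ i, clN D (c i) = γ i then f c ^ 2 else 0)
      (v2 / 2 ^ (Fintype.card κ * Fintype.card I)) := h2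
    refine AVrI.congr h2' (fun c => ?_) rfl
    rw [hg, hpf]
    by_cases hc : ∀ i, clN D (c i) = γ i
    · rw [if_pos hc, if_pos hc]
    · rw [if_neg hc, if_neg hc]
      norm_num
  have hR : ∀ c, |ph c - pf c| ≤ |C| * (e c * pf c) := by
    intro c
    rw [hph, hpf, he]
    by_cases hc : ∀ i, clN D (c i) = γ i
    · rw [if_pos hc, if_pos hc]
      by_cases hE : EE phi c
      · rw [if_pos hE, one_mul]
        exact (hC c).trans (mul_le_mul_of_nonneg_right (le_abs_self C) (hf c))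
      · rw [if_neg hE, zero_mul, mul_zero, heq c hc hE, sub_self, abs_zero]
    · rw [if_neg hc, if_neg hc, mul_zero, mul_zero, sub_self, abs_zero]
  have he2 : ∀ c, e c ^ 2 = e c := by
    intro c
    rw [he]
    by_cases hE : EE phi c
    · rw [if_pos hE, one_pow]
    · rw [if_neg hE]
      norm_num
  have hN : ∀ S : Finset ι, (0 : ℝ) < 2 ^ (Fintype.card I * S.card) := fun S => by positivity
  have hg0 : ∀ S : Finset ι, 0 ≤ avrI g S := by
    intro S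
    unfold avrI
    refine div_nonneg (Finset.sum_nonneg fun c _ => ?_) (hN S).le
    rw [hg]
    exact sq_nonneg _
  have heS : ∀ S : Finset ι, avrI e S ≤ Fintype.card A * (1 / 2) ^ S.card := by
    intro S
    refine le_trans (le_of_eq ?_) (avrI_EE hs S)
    unfold avrI
    refine congrArg (fun z : ℝ => z / 2 ^ (Fintype.card I * S.card))
      (Finset.sum_congr rfl fun c _ => ?_)
    rw [he]
  have hkey : ∀ S : Finset ι, (avrI (fun c => ph c - pf c) S) ^ 2 ≤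
      |C| ^ 2 * Fintype.card A * (|avrI g S| * (1 / 2) ^ S.card) := by
    intro S
    have k1 := P4_cs (Fintype.piFinset fun _ : I => S.powerset) (fun c => ph c - pf c) e pf |C| hR
    have k2 : (avrI (fun c => ph c - pf c) S) ^ 2 ≤ |C| ^ 2 * (avrI e S * avrI g S) := by
      unfold avrI
      rw [div_pow, div_mul_div_comm, ← mul_div_assoc, ← sq]
      refine div_le_div_of_nonneg_right ?_ (sq_nonneg _)
      refine k1.trans (le_of_eq ?_)
      rw [Finset.sum_congr rfl fun c _ => he2 c, Finset.sum_congr rfl fun c _ => (hg c).symm]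
    refine k2.trans ?_
    rw [abs_of_nonneg (hg0 S)]
    have k3 : avrI e S * avrI g S ≤ Fintype.card A * (1 / 2) ^ S.card * avrI g S :=
      mul_le_mul_of_nonneg_right (heS S) (hg0 S)
    have k4 := mul_le_mul_of_nonneg_left k3 (sq_nonneg |C|)
    refine k4.trans (le_of_eq ?_)
    ring
  have hR0 : AVrI (fun c => ph c - pf c) 0 := by
    intro ε hε
    obtain ⟨B, hB⟩ : ∃ B : ℝ, B = |C| ^ 2 * Fintype.card A := ⟨_, rfl⟩
    have hB0 : 0 ≤ B := by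
      rw [hB]
      positivity
    obtain ⟨C1, hC1⟩ := hD.an.cheb
    obtain ⟨C2, hC2⟩ := hD.an.zt
    obtain ⟨X₀, hX₀⟩ := AVrI.quarter hC1 hC2 hG (ε / (B + 1)) (by positivity)
    refine ⟨X₀, fun X hX => ?_⟩
    have k1 := hX₀ X hX
    have k2 : ∑ S ∈ Sx ι X, (avrI (fun c => ph c - pf c) S - 0) ^ 2 ≤
        B * ∑ S ∈ Sx ι X, |avrI g S| * (1 / 2) ^ S.card := by
      rw [Finset.mul_sum]
      refine Finset.sum_le_sum fun S _ => ?_
      rw [sub_zero, hB]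
      exact hkey S
    refine k2.trans ((mul_le_mul_of_nonneg_left k1 hB0).trans ?_)
    have k3 : B * (ε / (B + 1) * ((Sx ι X).card + X)) =
        B / (B + 1) * (ε * ((Sx ι X).card + X)) := by ring
    rw [k3]
    have k4 : B / (B + 1) ≤ 1 := by
      rw [div_le_one (by positivity)]
      linarith
    have k5 : 0 ≤ ε * (((Sx ι X).card : ℝ) + X) := by positivity
    exact (mul_le_mul_of_nonneg_right k4 k5).trans (le_of_eq (one_mul _))
  have hfin := AVrI.add hR0 hP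
  have hres : AVrI (fun c => if ∀ i, clN D (c i) = γ i then h c else 0)
      (v / 2 ^ (Fintype.card κ * Fintype.card I)) := by
    refine AVrI.congr hfin (fun c => ?_) ?_
    · show (if ∀ i, clN D (c i) = γ i then h c else 0) = ph c - pf c + pf c
      rw [← hph, sub_add_cancel]
    · rw [zero_add, hV]
  exact hres

end

end Pool.Agent.Lib.MP_1a91b9_ntMQ
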