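import Pool.Agent.Lib.MP_1a91b9_ntMQ.P4
import Pool.Agent.Lib.MP_1a91b9_ntMQ.P5

/-!
P6: the joint moments of the normalised sizes
-/

set_option autoImplicit false
set_option linter.unusedSectionVars false

namespace Pool.Agent.Lib.MP_1a91b9_ntMQ

open Finset Pool.Agent.Lib.MP_1a91b9_ntH Pool.Agent.Lib.MP_1a91b9_ntQ
open Pool.Agent.Lib.MP_1a91b9_ntQ.Da Pool.Agent.Lib.MP_1a91b9_ntV Pool.Agent.Lib.MP_1a91b9_ntM
open Pool.Agent.Lib.MP_1a91b9_ntDV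

noncomputable section

open Pool.Agent.Lib.MP_1a91b9_ntV.DS Pool.Agent.Lib.MP_1a91b9_ntV.DJ

variable {I A : Type} [Fintype I] [DecidableEq I] [Fintype A] [DecidableEq A]
  {phi : A → I → ZMod 2} {ι : Type} [DecidableEq ι] {κ : Type} [Fintype κ] [DecidableEq κ] [PS ι]
  {Bt : A → Type} [∀ a, Fintype (Bt a)] [∀ a, DecidableEq (Bt a)] {E F : ∀ a, Bt a → Type}
  [∀ a b, Fintype (E a b)] [∀ a b, DecidableEq (E a b)] [∀ a b, Fintype (F a b)]
  [∀ a b, DecidableEq (F a b)]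

/-- **P6a** (easy+). Proof: as in `Pcl_kV` (proved in the store file DV_P2.lean): `TGJ_eq (k a) (P a) hw (hS a) _ (hT a)`
(MP_1a91b9_ntV/DJ/Prd.lean) gives the hypothesis of `PclI_kJ` with `v a = ∏ b, tv (P a b) .. ^ k a b * gN (k a b) 0`
(casts of natural numbers). -/
theorem PclI_kJt (hs : Sp phi) {D : Dat2 ι κ} {w : κ → ZMod 2} (hD : OKt D w) (hw : w ≠ 0)
    (P : ∀ a b, BD κ (E a b) (F a b)) (hS : ∀ a, Sep w fun b => (P a b).kap)
    (γ : I → κ → ZMod 2) (hT : ∀ a b, Bal (P a b) w (ga phi γ a)) (k : ∀ a, Bt a → ℕ) :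
    PclI D γ (fun c => ∏ a, (kJ D (P a) (k a) (TT phi c a) : ℝ))
      (∏ a, ∏ b, ((tv (P a b) (ga phi γ a) : ℝ) ^ k a b * (gN (k a b) 0 : ℝ))) := by
  have h0 := PclI_kJ hs hD P k γ (fun a => ((∏ b, (tcn (Lc (P a b)) (MMt (P a b) (ga phi γ a)) ^ k a b *
      gN (k a b) 0) : ℕ) : ℝ)) (fun a => by
    rw [TGJ_eq (k a) (P a) hw (hS a) _ (hT a)]
    push_cast
    rfl)
  have h1 : (∏ a, ((∏ b, (tcn (Lc (P a b)) (MMt (P a b) (ga phi γ a)) ^ k a b *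
      gN (k a b) 0) : ℕ) : ℝ)) =
      ∏ a, ∏ b, ((tv (P a b) (ga phi γ a) : ℝ) ^ k a b * (gN (k a b) 0 : ℝ)) := by
    refine prod_congr rfl fun a _ => ?_
    rw [Nat.cast_prod]
    refine prod_congr rfl fun b _ => ?_
    rw [Nat.cast_mul, Nat.cast_pow]
    rfl
  rw [← h1]
  exact h0

private theorem P6_one {B : Type} [Fintype B] {f : B → ℝ} (hf : ∀ b, 1 ≤ f b) : 1 ≤ ∏ b, f b := by
  have h1 : ∏ _b : B, (1 : ℝ) ≤ ∏ b, f b :=
    prod_le_prod (fun b _ => zero_le_one) fun b _ => hf b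
  rwa [prod_const_one] at h1

/-- **P6b** (medium-). Proof. `t a b = tv (P a b) (ga phi γ a)` is a power of `2` (`tcn_pow`), `T = ∏ a, ∏ b, t a b ^ k a b ≥ 1`.
Use `PclI.rareM hD hs` for `f c = T⁻¹ * ∏ a, kJ D (P a) (k a) (TT phi c a)` and `h c = ∏ a, ∏ b, kV .. ^ k a b`:
`h1` from `PclI_kJt` and `(limP_PclI D γ).smul` with `T⁻¹` (`prod_mul_distrib`); `h2` from `PclI_kJt` with the exponents
`2 * k a b` (`kJ` is a product of powers: `(∏ kM ^ k) ^ 2 = ∏ kM ^ (2 * k)`) and `.smul` with `T⁻¹ ^ 2`, `v2` is whatever comes out.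
`heq`: for `¬ EE phi c` every `TT phi c a` is not empty and its class is `ga phi γ a` (`clN_TT D phi γ c hc a`), so
`tcn_le D (P a b) hne` and `kV_mul D (P a b)` (MP_1a91b9_ntV/DS/DenV.lean) give `kM = t a b * kV` and
`∏ a, kJ = T * ∏ a, ∏ b, kV ^ k a b`. `hC` with `C = T`: always `kV D P t S ≤ kM D P S` (`kV` is `2 ^ (Nat.log 2 (kM) - Nat.log 2 t)`,
`kM_pow`, `Nat.log_pow`), so `0 ≤ h c ≤ ∏ a, kJ = T * f c`, and `f c ≤ T * f c`, so `|h c - f c| ≤ T * f c`. -/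
theorem PclI_kV (hs : Sp phi) {D : Dat2 ι κ} {w : κ → ZMod 2} (hD : OKt D w) (hw : w ≠ 0)
    (P : ∀ a b, BD κ (E a b) (F a b)) (hS : ∀ a, Sep w fun b => (P a b).kap)
    (γ : I → κ → ZMod 2) (hT : ∀ a b, Bal (P a b) w (ga phi γ a)) (k : ∀ a, Bt a → ℕ) :
    PclI D γ (fun c => ∏ a, ∏ b,
        (kV D (P a b) (tv (P a b) (ga phi γ a)) (TT phi c a) : ℝ) ^ k a b)
      (∏ a, ∏ b, (gN (k a b) 0 : ℝ)) := by
  classical
  obtain ⟨t, ht⟩ : ∃ t : ∀ a, Bt a → ℕ, ∀ a b, t a b = tv (P a b) (ga phi γ a) :=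
    ⟨fun a b => tv (P a b) (ga phi γ a), fun _ _ => rfl⟩
  have ht2 : ∀ a b, ∃ r, t a b = 2 ^ r := fun a b => by
    rw [ht]
    exact tcn_pow _ _
  simp only [← ht]
  obtain ⟨T, hTd⟩ : ∃ T : ℝ, T = ∏ a, ∏ b, (t a b : ℝ) ^ k a b := ⟨_, rfl⟩
  have ht1 : ∀ a b, (1 : ℝ) ≤ (t a b : ℝ) ^ k a b := by
    intro a b
    obtain ⟨r, hr⟩ := ht2 a b
    refine one_le_pow₀ ?_
    rw [hr]
    push_cast
    exact one_le_pow₀ (by norm_num)
  have hT1 : 1 ≤ T := by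
    rw [hTd]
    exact P6_one fun a => P6_one fun b => ht1 a b
  have hT0 : T ≠ 0 := by
    intro h
    rw [h] at hT1
    exact absurd hT1 (by norm_num)
  have hTp : 0 < T := lt_of_lt_of_le one_pos hT1
  -- the first moment
  have e1 : (∏ a, ∏ b, ((tv (P a b) (ga phi γ a) : ℝ) ^ k a b * (gN (k a b) 0 : ℝ))) =
      T * ∏ a, ∏ b, (gN (k a b) 0 : ℝ) := by
    rw [hTd, ← prod_mul_distrib]
    refine prod_congr rfl fun a _ => ?_
    rw [← prod_mul_distrib]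
    refine prod_congr rfl fun b _ => ?_
    rw [ht]
  have h1 := (limP_PclI D γ).smul _ _ T⁻¹ (PclI_kJt hs hD hw P hS γ hT k)
  rw [e1, ← mul_assoc, inv_mul_cancel₀ hT0, one_mul] at h1
  -- the second moment
  have h2 := (limP_PclI D γ).smul _ _ (T⁻¹ ^ 2) (PclI_kJt hs hD hw P hS γ hT (fun a b => 2 * k a b))
  have e2 : (fun c : I → Finset ι => T⁻¹ ^ 2 *
      ∏ a, (kJ D (P a) (fun b => 2 * k a b) (TT phi c a) : ℝ)) =
      fun c => (T⁻¹ * ∏ a, (kJ D (P a) (k a) (TT phi c a) : ℝ)) ^ 2 := by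
    funext c
    rw [mul_pow, ← prod_pow]
    congr 1
    refine prod_congr rfl fun a _ => ?_
    rw [kJ, kJ, Nat.cast_prod, Nat.cast_prod, ← prod_pow]
    refine prod_congr rfl fun b _ => ?_
    rw [Nat.cast_pow, Nat.cast_pow, ← pow_mul, mul_comm 2 (k a b)]
  rw [e2] at h2
  have hk0 : ∀ c : I → Finset ι, 0 ≤ ∏ a, (kJ D (P a) (k a) (TT phi c a) : ℝ) :=
    fun c => prod_nonneg fun a _ => Nat.cast_nonneg _
  refine PclI.rareM (C := T) hD hs h1 h2 (fun c => mul_nonneg (inv_nonneg.2 hTp.le) (hk0 c))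
    (fun c hc hE => ?_) (fun c => ?_)
  · have h3 : (∏ a, (kJ D (P a) (k a) (TT phi c a) : ℝ)) =
        T * ∏ a, ∏ b, (kV D (P a b) (t a b) (TT phi c a) : ℝ) ^ k a b := by
      rw [hTd, ← prod_mul_distrib]
      refine prod_congr rfl fun a _ => ?_
      rw [kJ, Nat.cast_prod, ← prod_mul_distrib]
      refine prod_congr rfl fun b _ => ?_
      have hne : TT phi c a ≠ ∅ := fun h => hE ⟨a, h⟩
      have h6 : t a b ≤ kM D (P a b) (TT phi c a) := by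
        rw [ht, tv, ← clN_TT D phi γ c hc a]
        exact tcn_le D (P a b) hne
      rw [Nat.cast_pow, ← mul_pow]
      congr 1
      have h7 := kV_mul D (P a b) (ht2 a b) h6
      have h8 : ((kM D (P a b) (TT phi c a) : ℕ) : ℝ) =
          ((t a b * kV D (P a b) (t a b) (TT phi c a) : ℕ) : ℝ) := congrArg Nat.cast h7
      rw [h8, Nat.cast_mul]
    rw [h3, ← mul_assoc, inv_mul_cancel₀ hT0, one_mul]
  · have h3 : (∏ a, ∏ b, (kV D (P a b) (t a b) (TT phi c a) : ℝ) ^ k a b) ≤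
        ∏ a, (kJ D (P a) (k a) (TT phi c a) : ℝ) := by
      refine prod_le_prod (fun a _ => prod_nonneg fun b _ => pow_nonneg (Nat.cast_nonneg _) _)
        fun a _ => ?_
      rw [kJ, Nat.cast_prod]
      refine prod_le_prod (fun b _ => pow_nonneg (Nat.cast_nonneg _) _) fun b _ => ?_
      rw [Nat.cast_pow]
      refine pow_le_pow_left₀ (Nat.cast_nonneg _) (Nat.cast_le.2 ?_) _
      obtain ⟨r, hr⟩ := kM_pow D (P a b) (TT phi c a)
      rw [kV, hr, Nat.log_pow (by norm_num)]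
      exact Nat.pow_le_pow_right (by norm_num) (Nat.sub_le _ _)
    have h4 : 0 ≤ ∏ a, ∏ b, (kV D (P a b) (t a b) (TT phi c a) : ℝ) ^ k a b :=
      prod_nonneg fun a _ => prod_nonneg fun b _ => pow_nonneg (Nat.cast_nonneg _) _
    obtain ⟨y, hy⟩ : ∃ y : ℝ, y = ∏ a, (kJ D (P a) (k a) (TT phi c a) : ℝ) := ⟨_, rfl⟩
    have hy0 := hk0 c
    rw [← hy] at h3 hy0 ⊢
    have h5 : T⁻¹ * y ≤ y := by
      have h6 : T⁻¹ ≤ 1 := inv_le_one_of_one_le₀ hT1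
      exact mul_le_of_le_one_left hy0 h6
    have h7 : T * (T⁻¹ * y) = y := by
      rw [← mul_assoc, mul_inv_cancel₀ hT0, one_mul]
    have h8 : 0 ≤ T⁻¹ * y := mul_nonneg (inv_nonneg.2 hTp.le) hy0
    rw [h7, abs_le]
    constructor
    · linarith
    · linarith

end

end Pool.Agent.Lib.MP_1a91b9_ntMQ
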