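import Pool.Agent.Lib.MP_1a91b9_ntMQ.P6

/-!
P7: the joint density in a class
-/

set_option autoImplicit false
set_option linter.unusedSectionVars false

namespace Pool.Agent.Lib.MP_1a91b9_ntMQ

open Finset Pool.Agent.Lib.MP_1a91b9_ntH Pool.Agent.Lib.MP_1a91b9_ntQ
open Pool.Agent.Lib.MP_1a91b9_ntQ.Da Pool.Agent.Lib.MP_1a91b9_ntV Pool.Agent.Lib.MP_1a91b9_ntM
open Pool.Agent.Lib.MP_1a91b9_ntDV

noncomputable section

open Pool.Agent.Lib.MP_1a91b9_ntV.DS Pool.Agent.Lib.MP_1a91b9_ntV.DJ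

variable {I A : Type} [Fintype I] [DecidableEq I] [Fintype A] [DecidableEq A]
  {phi : A → I → ZMod 2} {ι : Type} [DecidableEq ι] {κ : Type} [Fintype κ] [DecidableEq κ] [PS ι]
  {Bt : A → Type} [∀ a, Fintype (Bt a)] [∀ a, DecidableEq (Bt a)] {E F : ∀ a, Bt a → Type}
  [∀ a b, Fintype (E a b)] [∀ a b, DecidableEq (E a b)] [∀ a b, Fintype (F a b)]
  [∀ a b, DecidableEq (F a b)]

/-- **P7** (medium-). Proof: as `Pcl_dens` (proved in the store file DV_P3.lean): `(limP_PclI D γ).gN` with the index type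
`Σ a, Bt a` and `x := fun p c => kV D (P p.1 p.2) (tv ..) (TT phi c p.1)`; the moments are `PclI_kV` with
`k := fun a b => k' ⟨a, b⟩` (`Fintype.prod_sigma`). Then `PclI.congrB hD hs` with `C = 1` (both functions are products of numbers
which are `0` or `1`, so they are between `0` and `1`); off `EE` and in the class the factors are equal as in `Pcl_dens`, with the set
`TT phi c a`, which is not empty and has the class `ga phi γ a` (`clN_TT`). At the end the value:
`cinfV ^ card (Σ a, Bt a) = ∏ a, ∏ b, cinfV` (`Fintype.card_sigma`, `prod_const`, `prod_pow_eq_pow_sum`). -/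
theorem PclI_dens (hs : Sp phi) {D : Dat2 ι κ} {w : κ → ZMod 2} (hD : OKt D w) (hw : w ≠ 0)
    (P : ∀ a b, BD κ (E a b) (F a b)) (hS : ∀ a, Sep w fun b => (P a b).kap)
    (γ : I → κ → ZMod 2) (hT : ∀ a b, Bal (P a b) w (ga phi γ a)) :
    PclI D γ (fun c => ∏ a, ∏ b, gd D (P a b) (ga phi γ a) (TT phi c a))
      (∏ a, ∏ _b : Bt a, cinfV) := by
  have h1 := (limP_PclI D γ).gN
    (x := fun (p : Σ a, Bt a) (c : I → Finset ι) =>
      kV D (P p.1 p.2) (tv (P p.1 p.2) (ga phi γ p.1)) (TT phi c p.1))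
    (fun p c => ⟨_, rfl⟩) (fun k => by
      have h2 := PclI_kV hs hD hw P hS γ hT (fun a b => k ⟨a, b⟩)
      have h3 : (fun c : I → Finset ι => ∏ p : Σ a, Bt a,
          ((kV D (P p.1 p.2) (tv (P p.1 p.2) (ga phi γ p.1)) (TT phi c p.1) : ℕ) : ℝ) ^ k p) =
          fun c => ∏ a, ∏ b,
            (kV D (P a b) (tv (P a b) (ga phi γ a)) (TT phi c a) : ℝ) ^ k ⟨a, b⟩ := by
        funext c
        exact Fintype.prod_sigma _
      have h4 : (∏ p : Σ a, Bt a, ((gN (k p) 0 : ℕ) : ℝ)) = ∏ a, ∏ b, (gN (k ⟨a, b⟩) 0 : ℝ) :=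
        Fintype.prod_sigma _
      rw [h3, h4]
      exact h2)
  have h01 : ∀ (p : Prop) [Decidable p], (0 : ℝ) ≤ (if p then 1 else 0) ∧ (if p then (1 : ℝ) else 0) ≤ 1 := by
    intro p _
    split_ifs <;> norm_num
  refine h1.congrB hD hs (C := 1) (fun c hc hE => ?_) (fun c => ?_) ?_
  · rw [Fintype.prod_sigma]
    refine prod_congr rfl fun a _ => prod_congr rfl fun b _ => ?_
    have hne : TT phi c a ≠ ∅ := fun h => hE ⟨a, h⟩
    have hcl : clN D (TT phi c a) = ga phi γ a := clN_TT D phi γ c hc a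
    have h6 : tv (P a b) (ga phi γ a) ≤ kM D (P a b) (TT phi c a) := by
      rw [tv, ← hcl]
      exact tcn_le D (P a b) hne
    have h7 : kM D (P a b) (TT phi c a) =
        tv (P a b) (ga phi γ a) * kV D (P a b) (tv (P a b) (ga phi γ a)) (TT phi c a) :=
      kV_mul D (P a b) (tcn_pow _ _) h6
    obtain ⟨r, hr⟩ : ∃ r, tv (P a b) (ga phi γ a) = 2 ^ r := tcn_pow _ _
    have h8 : 0 < tv (P a b) (ga phi γ a) := by
      rw [hr]
      positivity
    rw [gd]
    refine if_congr ⟨fun h => ?_, fun h => ?_⟩ rfl rfl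
    · have h9 : tv (P a b) (ga phi γ a) * kV D (P a b) (tv (P a b) (ga phi γ a)) (TT phi c a) =
          tv (P a b) (ga phi γ a) * 1 := by
        rw [← h7, mul_one]
        exact h
      exact Nat.eq_of_mul_eq_mul_left h8 h9
    · change kV D (P a b) (tv (P a b) (ga phi γ a)) (TT phi c a) = 1 at h
      rw [h7, h, mul_one]
  · have h2 : 0 ≤ ∏ a, ∏ b, gd D (P a b) (ga phi γ a) (TT phi c a) ∧
        ∏ a, ∏ b, gd D (P a b) (ga phi γ a) (TT phi c a) ≤ 1 := by
      have h3 : ∀ a b, 0 ≤ gd D (P a b) (ga phi γ a) (TT phi c a) ∧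
          gd D (P a b) (ga phi γ a) (TT phi c a) ≤ 1 := by
        intro a b
        unfold gd
        exact h01 _
      refine ⟨prod_nonneg fun a _ => prod_nonneg fun b _ => (h3 a b).1, ?_⟩
      exact prod_le_one (fun a _ => prod_nonneg fun b _ => (h3 a b).1) fun a _ =>
        prod_le_one (fun b _ => (h3 a b).1) fun b _ => (h3 a b).2
    have h4 : 0 ≤ ∏ p : Σ a, Bt a, (if kV D (P p.1 p.2) (tv (P p.1 p.2) (ga phi γ p.1)) (TT phi c p.1) = 1
          then (1 : ℝ) else 0) ∧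
        ∏ p : Σ a, Bt a, (if kV D (P p.1 p.2) (tv (P p.1 p.2) (ga phi γ p.1)) (TT phi c p.1) = 1
          then (1 : ℝ) else 0) ≤ 1 :=
      ⟨prod_nonneg fun p _ => (h01 _).1, prod_le_one (fun p _ => (h01 _).1) fun p _ => (h01 _).2⟩
    rw [abs_le]
    constructor
    · linarith [h2.1, h4.2]
    · linarith [h2.2, h4.1]
  · simp only [prod_const, card_univ]
    rw [prod_pow_eq_pow_sum, Fintype.card_sigma]

end

end Pool.Agent.Lib.MP_1a91b9_ntMQ
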