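import Pool.Agent.Lib.MP_1a91b9_ntDV.E0
import Pool.Agent.Lib.MP_1a91b9_ntM.DJ.Lab

/-!
# MP_1a91b9_nt (random multiquadratic fields), definitions of the engine

`I` is the set of the divisors `d_i` (one finite set of primes `c i` for every `i`), `A` a finite set of products: `phi a`
is a vector in `F_2 ^ I` and `TT phi c a` is the set of the primes which divide an odd number of the `d_i` with
`phi a i = 1`. `avI F S` is the mean value of `F` over the families `c` of subsets of `S`, `AVI F v`: the mean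
square of `avI F S - v` over the `S` with `nm S ≤ X` tends to zero.
-/

set_option autoImplicit false
set_option linter.unusedSectionVars false

namespace Pool.Agent.Lib.MP_1a91b9_ntMQ

open Finset Pool.Agent.Lib.MP_1a91b9_ntH Pool.Agent.Lib.MP_1a91b9_ntQ
open Pool.Agent.Lib.MP_1a91b9_ntQ.Da Pool.Agent.Lib.MP_1a91b9_ntV Pool.Agent.Lib.MP_1a91b9_ntM
open Pool.Agent.Lib.MP_1a91b9_ntDV

noncomputable section

/-! ### Label systems with positive weights -/

/-- The hypotheses on the exponents `Phi`, the weights `n` and the set `Us` of the maximal unlinked sets. -/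
structure WS {L : Type} [Fintype L] [DecidableEq L] (Phi : L → L → ZMod 2) (n : L → ℝ) (M : ℕ)
    (Us : Finset (Finset L)) : Prop where
  self : ∀ x, Phi x x = 0
  pos : ∀ x, 2 / (M : ℝ) ≤ n x
  two : 2 ≤ M
  unl : ∀ U ∈ Us, ∀ x ∈ U, ∀ y ∈ U, Phi x y + Phi y x = 0
  sum : ∀ U ∈ Us, ∑ x ∈ U, n x = 1
  small : ∀ Z : Finset L, (∀ x ∈ Z, ∀ y ∈ Z, Phi x y + Phi y x = 0) → Z ∉ Us →
    ∑ x ∈ Z, n x ≤ 1 - 1 / (M : ℝ)
  ex : ∀ U ∈ Us, ∀ m, m ∉ U → ∃ x ∈ U, ∃ x' ∈ U, Phi x m + Phi m x ≠ Phi x' m + Phi m x'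

section Sy

variable {L : Type} [Fintype L] [DecidableEq L] {ι : Type} {κ : Type} [Fintype κ]

/-- The one-sided label system with the weights `n` and the class vectors `c`. -/
def LS (D : Dat2 ι κ) (Phi : L → L → ZMod 2) (n : L → ℝ) (c : L → κ → ZMod 2) : LG L ι where
  Phi := Phi1 Phi
  g := fun x q => (n x : ℂ) * e2 (D.dg (c x) q)

open Classical in
/-- The mean value of a maximal unlinked set. -/
def mS (c : L → κ → ZMod 2) (U : Finset L) : ℂ := if ∀ x ∈ U, c x = 0 then 1 else 0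

end Sy

/-! ### The labels -/

section Lbl

variable {I A : Type} [Fintype I] [Fintype A]

/-- The vectors `phi a` are distinct and different from zero. -/
structure Sp (phi : A → I → ZMod 2) : Prop where
  inj : Function.Injective phi
  ne : ∀ a, phi a ≠ 0

/-- The labels: a colour `w` and labels `x a` for the `a` with `phi a ⬝ᵥ w = 1` (`x a = 0` for the others). -/
def Lb (phi : A → I → ZMod 2) (k : A → ℕ) : Type :=
  {z : (I → ZMod 2) × LabP k // ∀ a, phi a ⬝ᵥ z.1 = 0 → z.2 a = 0}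

variable [DecidableEq I] [DecidableEq A]

instance decLb (phi : A → I → ZMod 2) (k : A → ℕ) : DecidableEq (Lb phi k) := Classical.decEq _

open Classical in
instance finLb (phi : A → I → ZMod 2) (k : A → ℕ) : Fintype (Lb phi k) :=
  Fintype.ofFinite {z : (I → ZMod 2) × LabP k // ∀ a, phi a ⬝ᵥ z.1 = 0 → z.2 a = 0}

variable {phi : A → I → ZMod 2} {k : A → ℕ}

/-- The exponents. -/
def PL (phi : A → I → ZMod 2) (k : A → ℕ) (z y : Lb phi k) : ZMod 2 :=
  ∑ a, (phi a ⬝ᵥ z.1.1) * (phi a ⬝ᵥ y.1.1) * Phi1 PhiQ (z.1.2 a) (y.1.2 a)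

/-- The links. -/
def QL (phi : A → I → ZMod 2) (k : A → ℕ) (z y : Lb phi k) : ZMod 2 :=
  ∑ a, (phi a ⬝ᵥ z.1.1) * (phi a ⬝ᵥ y.1.1) * Q2 (z.1.2 a - y.1.2 a)

/-- The weights. -/
def nL (z : Lb phi k) : ℝ :=
  ((2 : ℝ) ^ Fintype.card I)⁻¹ * ∏ a, if phi a ⬝ᵥ z.1.1 = 1 then ((2 : ℝ) ^ k a)⁻¹ else 1

/-- The number `M`. -/
def ML (I : Type) [Fintype I] (k : A → ℕ) : ℕ := 2 ^ (Fintype.card I + ∑ a, k a + 1)

open Classical in
/-- The set of the labels which belong to the sets `V a`. -/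
def UL (phi : A → I → ZMod 2) (k : A → ℕ) (V : ∀ a, Finset (Lab2 (k a))) : Finset (Lb phi k) :=
  univ.filter fun z => ∀ a, phi a ⬝ᵥ z.1.1 = 1 → z.1.2 a ∈ V a

open Classical in
/-- The maximal unlinked sets. -/
def UsL (phi : A → I → ZMod 2) (k : A → ℕ) : Finset (Finset (Lb phi k)) :=
  (Fintype.piFinset fun a => UsN (k a)).image (UL phi k)

omit [DecidableEq I] [DecidableEq A] in
theorem PL_self (z : Lb phi k) : PL phi k z z = 0 := by
  unfold PL
  exact sum_eq_zero fun a _ => by rw [Phi1_self, mul_zero]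

omit [DecidableEq I] [DecidableEq A] in
theorem PL_lk (z y : Lb phi k) : PL phi k z y + PL phi k y z = QL phi k z y := by
  unfold PL QL
  rw [← sum_add_distrib]
  refine sum_congr rfl fun a _ => ?_
  rw [← PhiQ_add, ← Phi1_lk]
  ring

theorem mem_UL {V : ∀ a, Finset (Lab2 (k a))} {z : Lb phi k} :
    z ∈ UL phi k V ↔ ∀ a, phi a ⬝ᵥ z.1.1 = 1 → z.1.2 a ∈ V a := by
  classical
  unfold UL
  rw [mem_filter]
  exact ⟨fun h => h.2, fun h => ⟨mem_univ _, h⟩⟩

theorem mem_UsL {U : Finset (Lb phi k)} :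
    U ∈ UsL phi k ↔ ∃ V : ∀ a, Finset (Lab2 (k a)), (∀ a, V a ∈ UsN (k a)) ∧ UL phi k V = U := by
  classical
  unfold UsL
  rw [mem_image]
  constructor
  · rintro ⟨V, hV, e⟩
    exact ⟨V, fun a => Fintype.mem_piFinset.1 hV a, e⟩
  · rintro ⟨V, hV, e⟩
    exact ⟨V, Fintype.mem_piFinset.2 hV, e⟩

/-- The label `(w, x)`, where the components `x a` with `phi a ⬝ᵥ w = 0` are replaced by zero. -/
def mk (phi : A → I → ZMod 2) (k : A → ℕ) (w : I → ZMod 2) (x : LabP k) : Lb phi k :=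
  ⟨(w, fun a => (phi a ⬝ᵥ w) • x a), fun a h => by
    show (phi a ⬝ᵥ w) • x a = 0
    have h' : phi a ⬝ᵥ w = 0 := h
    rw [h', zero_smul]⟩

end Lbl

/-! ### Mean values over the families of subsets -/

section Av

variable {I A : Type} [Fintype I] [DecidableEq I] {ι : Type}

/-- The mean value over the families of subsets of `S`. -/
def avI (F : (I → Finset ι) → ℂ) (S : Finset ι) : ℂ :=
  (∑ c ∈ Fintype.piFinset fun _ : I => S.powerset, F c) / 2 ^ (Fintype.card I * S.card)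

/-- The same for real functions. -/
def avrI (F : (I → Finset ι) → ℝ) (S : Finset ι) : ℝ :=
  (∑ c ∈ Fintype.piFinset fun _ : I => S.powerset, F c) / 2 ^ (Fintype.card I * S.card)

variable [DecidableEq ι] [PS ι]

/-- The mean values over the families of subsets of `S` are `v` in the mean. -/
def MVI (F : (I → Finset ι) → ℂ) (v : ℂ) : Prop :=
  ∀ ε : ℝ, 0 < ε → ∃ X₀ : ℕ, ∀ X : ℕ, X₀ ≤ X →
    ‖∑ S ∈ Sx ι X, avI F S - v * ((Sx ι X).card : ℂ)‖ ≤ ε * X

/-- The mean values over the families of subsets of `S` are `v` for almost all `S`, in the mean square. -/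
def AVI (F : (I → Finset ι) → ℂ) (v : ℂ) : Prop :=
  ∀ ε : ℝ, 0 < ε → ∃ X₀ : ℕ, ∀ X : ℕ, X₀ ≤ X →
    ∑ S ∈ Sx ι X, ‖avI F S - v‖ ^ 2 ≤ ε * ((Sx ι X).card + X)

/-- The same for real functions. -/
def AVrI (F : (I → Finset ι) → ℝ) (v : ℝ) : Prop :=
  ∀ ε : ℝ, 0 < ε → ∃ X₀ : ℕ, ∀ X : ℕ, X₀ ≤ X →
    ∑ S ∈ Sx ι X, (avrI F S - v) ^ 2 ≤ ε * ((Sx ι X).card + X)

/-- The colour of the prime `q`. -/
def cl (c : I → Finset ι) (q : ι) : I → ZMod 2 := fun i => if q ∈ c i then 1 else 0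

/-- The set of the primes in the product `a`: the primes in an odd number of the sets `c i` with `phi a i = 1`. -/
def TT (phi : A → I → ZMod 2) (c : I → Finset ι) (a : A) : Finset ι :=
  (univ.biUnion c).filter fun q => phi a ⬝ᵥ cl c q = 1

/-- The character of a family of sets with the class vectors `b`. -/
def chI {κ : Type} [Fintype κ] (D : Dat2 ι κ) (b : I → κ → ZMod 2) (c : I → Finset ι) : ℂ :=
  ∏ i, e2 (∑ q ∈ c i, D.dg (b i) q)

end Av

/-! ### The first moment -/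

section Val

variable {I A : Type} [Fintype I] [Fintype A] [DecidableEq I] [DecidableEq A] {κ : Type} [Fintype κ]
  {phi : A → I → ZMod 2} {k : A → ℕ}

/-- The class vector of a label. -/
def cz (cc : ∀ a, Lab2 (k a) → κ → ZMod 2) (b : I → κ → ZMod 2) (z : Lb phi k) : κ → ZMod 2 :=
  ∑ a, (phi a ⬝ᵥ z.1.1) • cc a (z.1.2 a) + ∑ i, z.1.1 i • b i

open Classical in
/-- The mean value. -/
def vQ (phi : A → I → ZMod 2) (k : A → ℕ) (cc : ∀ a, Lab2 (k a) → κ → ZMod 2)
    (b : I → κ → ZMod 2) : ℂ :=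
  ∑ U ∈ UsL phi k, if ∀ z ∈ U, cz cc b z = 0 then 1 else 0

end Val

end

end Pool.Agent.Lib.MP_1a91b9_ntMQ
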