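import Mathlib

/-!
# MP_1a91b9_nt (random multiquadratic fields), block RT: induction over the towers of square roots
-/

set_option autoImplicit false
set_option linter.unusedSectionVars false

namespace Pool.Agent.Lib.MP_1a91b9_ntMQ

open NumberField

/-- `F' = F(x i : i ∈ s)` with `x i ^ 2 = α i`. -/
structure MQx {F F' : Type} [Field F] [Field F'] [Algebra F F'] {r : ℕ} (α : Fin r → F)
    (x : Fin r → F') (s : Finset (Fin r)) : Prop where
  sq : ∀ i ∈ s, x i ^ 2 = algebraMap F F' (α i)
  gen : IntermediateField.adjoin F (x '' (s : Set (Fin r))) = ⊤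

/-- **RT10** (medium). **Induction over the towers.** Proof: `Finset.induction_on s` for all `F'`, `x`.
`s = ∅`: the image is empty, so `IntermediateField.adjoin F ∅ = ⊥ = ⊤` (`IntermediateField.adjoin_empty`) and
`algebraMap F F'` is surjective (`IntermediateField.mem_bot`); injective always: `h0`. `insert j s`: let
`F₁ = IntermediateField.adjoin F (x '' s)` (a number field, instances are found). Let
`x' i = if h : x i ∈ F₁ then ⟨x i, h⟩ else 0`. `MQx α x' s` holds over `F₁`: for `i ∈ s` `x i ∈ F₁`
(`IntermediateField.subset_adjoin`) and `x' i ^ 2 = α i` (`Subtype.ext`); the generation: `IntermediateField.lift_adjoin`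
gives `lift (adjoin F (x' '' s)) = adjoin F (Subtype.val '' (x' '' s)) = adjoin F (x '' s)`, and `lift` is injective
(`IntermediateField.lift_injective`, `lift_top`), so `adjoin F (x' '' s) = ⊤`. So `C s F₁` by induction. And
`IntermediateField.adjoin F₁ {x j} = ⊤`: `IntermediateField.adjoin_adjoin_left` with `S = x '' s`, `T = {x j}` gives
`restrictScalars F (adjoin F₁ {x j}) = adjoin F (x '' s ∪ {x j}) = ⊤` (`Finset.coe_insert`, `Set.image_insert_eq`,
`IntermediateField.restrictScalars_injective`, `restrictScalars_top`). Apply `hs`. -/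
theorem tow_ind {F : Type} [Field F] [NumberField F] {r : ℕ} (α : Fin r → F)
    (C : Finset (Fin r) → (F' : Type) → [Field F'] → [NumberField F'] → [Algebra F F'] → Prop)
    (h0 : ∀ (F' : Type) [Field F'] [NumberField F'] [Algebra F F'],
      Function.Bijective (algebraMap F F') → C ∅ F')
    (hs : ∀ (s : Finset (Fin r)) (j : Fin r), j ∉ s → ∀ (F₁ F' : Type) [Field F₁] [NumberField F₁]
      [Field F'] [NumberField F'] [Algebra F F₁] [Algebra F₁ F'] [Algebra F F']
      [IsScalarTower F F₁ F'] (x : F'), x ^ 2 = algebraMap F F' (α j) →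
      IntermediateField.adjoin F₁ {x} = ⊤ → C s F₁ → C (insert j s) F')
    (s : Finset (Fin r)) (F' : Type) [Field F'] [NumberField F'] [Algebra F F'] (x : Fin r → F')
    (hx : MQx α x s) : C s F' := by
  classical
  induction s using Finset.induction_on generalizing F' x with
  | empty =>
    apply h0
    refine ⟨(algebraMap F F').injective, fun y => ?_⟩
    have h1 := hx.gen
    rw [Finset.coe_empty, Set.image_empty, IntermediateField.adjoin_empty] at h1
    have h2 : y ∈ (⊥ : IntermediateField F F') := by
      rw [h1]
      exact IntermediateField.mem_top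
    exact IntermediateField.mem_bot.mp h2
  | insert j s hj ih =>
    let F₁ : IntermediateField F F' := IntermediateField.adjoin F (x '' (s : Set (Fin r)))
    have hmem : ∀ i ∈ s, x i ∈ F₁ := fun i hi => IntermediateField.subset_adjoin F _ ⟨i, hi, rfl⟩
    let x' : Fin r → F₁ := fun i => if h : x i ∈ F₁ then ⟨x i, h⟩ else 0
    have hx' : ∀ i ∈ s, ((x' i : F₁) : F') = x i := by
      intro i hi
      show ((if h : x i ∈ F₁ then ⟨x i, h⟩ else 0 : F₁) : F') = x i
      rw [dif_pos (hmem i hi)]
    have hC : C s F₁ := by
      refine ih F₁ x' ⟨fun i hi => ?_, ?_⟩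
      · apply Subtype.ext
        show ((x' i : F₁) : F') ^ 2 = algebraMap F F' (α i)
        rw [hx' i hi]
        exact hx.sq i (Finset.mem_insert_of_mem hi)
      · apply IntermediateField.lift_injective F₁
        rw [IntermediateField.lift_adjoin, IntermediateField.lift_top]
        have h3 : Subtype.val '' (x' '' (s : Set (Fin r))) = x '' (s : Set (Fin r)) := by
          rw [Set.image_image]
          exact Set.image_congr fun i hi => hx' i hi
        rw [h3]
    refine hs s j hj F₁ F' (x j) (hx.sq j (Finset.mem_insert_self j s)) ?_ hC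
    apply IntermediateField.restrictScalars_injective F
    rw [IntermediateField.adjoin_adjoin_left, IntermediateField.restrictScalars_top, ← hx.gen, Finset.coe_insert,
      Set.image_insert_eq, Set.union_singleton]

end Pool.Agent.Lib.MP_1a91b9_ntMQ
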