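import Pool.Agent.Lib.MP_1a91b9_ntC.Stab
import Pool.Agent.Lib.MP_17a322_nt.VJ.MW4
import Pool.Agent.Lib.MP_1a91b9_ntMQ.RT10

/-!
# MP_1a91b9_nt (random multiquadratic fields), block RT: rank zero over the towers
-/

set_option autoImplicit false
set_option linter.unusedSectionVars false

namespace Pool.Agent.Lib.MP_1a91b9_ntMQ

open NumberField WeierstrassCurve
open Pool.Agent.Lib.MP_1a91b9_nuI (HasJ)
open Pool.Agent.Lib.MP_1a91b9_ntL (crv)
open Pool.Agent.Lib.MP_1a91b9_ntW.J (RkZ twd twd_crv twd_hasJ)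
open Pool.Agent.Lib.MP_1a91b9_ntC (QL Stb stb_step rk)

noncomputable section

/-- The twist of `y² = x³ + a x² + b x` by `√e` over `F`. -/
def tw {K : Type} [Field K] (a b : K) (F : Type) [Field F] [Algebra K F] (e : K) :
    WeierstrassCurve F :=
  ⟨0, algebraMap K F (e * a), 0, algebraMap K F (e ^ 2 * b), 0⟩

/-- **RT11a** (easy+). Proof: `IsElliptic` from `hΔ`; Mordell and Weil
(`Pool.Agent.Lib.MP_17a322_nt.VJ.mordell_weil`) and `Module.Finite.iff_addGroup_fg` give `Module.Finite ℤ`; rank zero means that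
every point is torsion (`Module.finrank_eq_zero_iff_isTorsion` or `Module.finrank_eq_zero_iff`), and
`Module.finite_of_fg_torsion` (as in `nn_reps`, MP_1a91b9_ntC/NoNew.lean). -/
theorem fin_of_rk {F : Type} [Field F] [NumberField F] (W : WeierstrassCurve F) (hΔ : W.Δ ≠ 0)
    (h : rk W = 0) : Finite W.toAffine.Point := by
  classical
  have hell : W.IsElliptic := ⟨isUnit_iff_ne_zero.2 hΔ⟩
  have hfg := Pool.Agent.Lib.MP_17a322_nt.VJ.mordell_weil W
  have h1 : Module.Finite ℤ W.toAffine.Point := Module.Finite.iff_addGroup_fg.2 hfg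
  refine Module.finite_of_fg_torsion _ ?_
  have h2 : Module.finrank ℤ W.toAffine.Point = 0 := h
  rw [Module.finrank_eq_zero_iff] at h2
  intro P
  obtain ⟨n, hn, h3⟩ := h2 P
  exact ⟨⟨n, mem_nonZeroDivisors_of_ne_zero hn⟩, h3⟩

/-- **RT11b** (easy). Proof: `mwRank_of_finite` and `rank_eq_mwRank` (MP_1a91b9_ntC/RkQ.lean), `Module.finrank`. -/
theorem rk_of_fin {F : Type} [Field F] [NumberField F] (W : WeierstrassCurve F)
    (h : Finite W.toAffine.Point) : rk W = 0 := by
  classical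
  have h1 := Pool.Agent.Lib.MP_1a91b9_ntC.mwRank_of_finite W h
  show Module.finrank ℤ W.toAffine.Point = 0
  unfold Module.finrank
  rw [Pool.Agent.Lib.MP_1a91b9_ntC.rank_eq_mwRank, h1, map_zero]

private theorem RT11_map {K : Type} [Field K] (a b : K) (F F' : Type) [Field F] [Algebra K F]
    [Field F'] [Algebra K F'] [Algebra F F'] [IsScalarTower K F F'] (e : K) :
    (tw a b F e).map (algebraMap F F') = tw a b F' e := by
  unfold tw
  refine WeierstrassCurve.ext (map_zero _) ?_ (map_zero _) ?_ (map_zero _)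
  · exact (IsScalarTower.algebraMap_apply K F F' (e * a)).symm
  · exact (IsScalarTower.algebraMap_apply K F F' (e ^ 2 * b)).symm

private theorem RT11_disc {K : Type} [Field K] {a b : K} (hE : b * (a ^ 2 - 4 * b) ≠ 0)
    {F : Type} [Field F] [NumberField F] [Algebra K F] {e : K} (he : e ≠ 0) :
    (tw a b F e).Δ ≠ 0 := by
  have h1 : (tw a b F e).Δ = 16 * (algebraMap K F b * (algebraMap K F b *
      ((algebraMap K F a) ^ 2 - 4 * algebraMap K F b))) * (algebraMap K F e) ^ 6 := by
    unfold tw WeierstrassCurve.Δ WeierstrassCurve.b₂ WeierstrassCurve.b₄ WeierstrassCurve.b₆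
      WeierstrassCurve.b₈
    rw [map_mul, map_mul, map_pow]
    ring
  have h2 : algebraMap K F b * ((algebraMap K F a) ^ 2 - 4 * algebraMap K F b) =
      algebraMap K F (b * (a ^ 2 - 4 * b)) := by
    rw [map_mul, map_sub, map_pow, map_mul, map_ofNat]
  rw [h1, h2]
  refine mul_ne_zero (mul_ne_zero (by norm_num) (mul_ne_zero ?_ ?_)) (pow_ne_zero 6 ?_)
  · exact (map_ne_zero _).2 (left_ne_zero_of_mul hE)
  · exact (map_ne_zero _).2 hE
  · exact (map_ne_zero _).2 he

/-- **RT11c** (medium-). **The step.** Proof: `stb_step` (MP_1a91b9_ntC/Stab.lean) for the curve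
`crv (e * a) (e ^ 2 * b)` and `d` (`HasJ` by `twd_hasJ`, `twd_crv`; `e * d * a = d * (e * a)`,
`(e * d) ^ 2 * b = d ^ 2 * (e ^ 2 * b)`; `algebraMap K F' d = algebraMap F F' (algebraMap K F d)` by
`IsScalarTower.algebraMap_apply`) gives `Stb (tw a b F e) (tw a b F' e)` (`WeierstrassCurve.ext`, `map_zero`). With the
entire function `g₀` of `h1` and `g` of `Stb` the function `g₀ * g` is entire, is the L-series for `3 / 2 < s.re`, and is not zero at `1`.
The rank over `F'` is the rank over `F`, which is `0` (`rk_of_fin`); `fin_of_rk` with the discriminant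
`16 * b * (b * (a ^ 2 - 4 * b)) * e ^ 6 ≠ 0`. -/
theorem rkz_step {K : Type} [Field K] [NumberField K] {a b : K} (hE : b * (a ^ 2 - 4 * b) ≠ 0)
    (hQ : ∀ e : K, e ≠ 0 → QL (crv (e * a) (e ^ 2 * b))) {j : ℤ} (hj : HasJ (crv a b) j)
    {F F' : Type} [Field F] [NumberField F] [Algebra K F] [Field F'] [NumberField F'] [Algebra K F']
    [Algebra F F'] [IsScalarTower K F F'] {e d : K} (he : e ≠ 0) (hd : d ≠ 0) {x : F'}
    (hx : x ^ 2 = algebraMap K F' d) (hgen : IntermediateField.adjoin F {x} = ⊤)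
    (h1 : RkZ (tw a b F e)) (h2 : RkZ (tw a b F (e * d))) : RkZ (tw a b F' e) := by
  have e1 : tw a b F (e * d) =
      (⟨0, algebraMap K F (d * (e * a)), 0, algebraMap K F (d ^ 2 * (e ^ 2 * b)), 0⟩ :
        WeierstrassCurve F) := by
    unfold tw
    rw [show e * d * a = d * (e * a) by ring, show (e * d) ^ 2 * b = d ^ 2 * (e ^ 2 * b) by ring]
  have e2 : (crv (e * a) (e ^ 2 * b)).map (algebraMap K F) = tw a b F e :=
    WeierstrassCurve.ext (map_zero _) rfl (map_zero _) rfl (map_zero _)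
  have e3 : (tw a b F e).map (algebraMap F F') = tw a b F' e :=
    RT11_map a b F F' e
  have hj' : HasJ (crv (e * a) (e ^ 2 * b)) j := by
    have h3 := twd_hasJ hj e
    rw [twd_crv] at h3
    exact h3
  have hx' : x ^ 2 = algebraMap F F' (algebraMap K F d) := by
    rw [hx, IsScalarTower.algebraMap_apply K F F']
  rw [e1] at h2
  have h3 := stb_step (hQ e he) hj' hd hx' hgen h2
  rw [e2, e3] at h3
  obtain ⟨⟨g, k1, k2, k3⟩, k4⟩ := h3
  obtain ⟨⟨g₀, l1, l2, l3⟩, l4⟩ := h1
  refine ⟨⟨fun s => g₀ s * g s, l1.mul k1, fun s hs => ?_, mul_ne_zero l3 k2⟩, ?_⟩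
  · show g₀ s * g s = _
    rw [l2 s hs, k3 s hs]
  · refine fin_of_rk _ (RT11_disc hE he) ?_
    rw [k4, rk_of_fin _ l4]

/-- **RT11** (medium-). **Rank zero over the towers.** Proof: `tow_ind (fun i => algebraMap K F (d i))` with
`C s F' = ∀ e : K, e ≠ 0 → (∀ J ⊆ s, RkZ (tw a b F (e * ∏ i ∈ J, d i))) → RkZ ((tw a b F e).map (algebraMap F F'))`.
`C ∅`: `J = ∅` and `rkz_step` with `d = 1`, `x = 1` (the algebra `K → F'` is the composition,
`(algebraMap F F').comp (algebraMap K F)`, `IsScalarTower.of_algebraMap_eq`; `algebraMap F F'` is surjective, so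
`adjoin F {1} = ⊤`). The step: for `J ⊆ s` use `J` and `insert j J` (`∏ insert = d j * ∏ J`, so
`e * d j * ∏ i ∈ J, d i = e * ∏ i ∈ insert j J, d i`), `C s F₁` for `e` and for `e * d j`, and `rkz_step` for `F₁ → F'` with the
composed algebras (`(tw a b F e).map (algebraMap F F₁) = tw a b F₁ e` by `WeierstrassCurve.ext`, `map_zero`). -/
theorem rkz_tower {K : Type} [Field K] [NumberField K] {a b : K} (hE : b * (a ^ 2 - 4 * b) ≠ 0)
    (hQ : ∀ e : K, e ≠ 0 → QL (crv (e * a) (e ^ 2 * b))) {j : ℤ} (hj : HasJ (crv a b) j)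
    {F F' : Type} [Field F] [NumberField F] [Algebra K F] [Field F'] [NumberField F'] [Algebra K F']
    [Algebra F F'] [IsScalarTower K F F'] {r : ℕ} {d : Fin r → K} (hd : ∀ i, d i ≠ 0)
    {s : Finset (Fin r)} {x : Fin r → F'} (hx : MQx (fun i => algebraMap K F (d i)) x s) {e : K}
    (he : e ≠ 0) (h : ∀ J ⊆ s, RkZ (tw a b F (e * ∏ i ∈ J, d i))) : RkZ (tw a b F' e) := by
  have key := tow_ind (fun i => algebraMap K F (d i))
    (fun (s : Finset (Fin r)) (F' : Type) (_ : Field F') (_ : NumberField F') (_ : Algebra F F') =>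
      ∀ e : K, e ≠ 0 → (∀ J ⊆ s, RkZ (tw a b F (e * ∏ i ∈ J, d i))) →
        RkZ ((tw a b F e).map (algebraMap F F'))) ?_ ?_ s F' x hx e he h
  · rw [RT11_map a b F F' e] at key
    exact key
  · intro F₁ _ _ _ hb e he h
    let _ : Algebra K F₁ := ((algebraMap F F₁).comp (algebraMap K F)).toAlgebra
    have hT : IsScalarTower K F F₁ := IsScalarTower.of_algebraMap_eq fun _ => rfl
    have h0 := h ∅ (Finset.empty_subset _)
    rw [Finset.prod_empty] at h0
    rw [RT11_map a b F F₁ e]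
    refine rkz_step hE hQ hj he one_ne_zero (x := (1 : F₁)) ?_ ?_ ?_ h0
    · rw [map_one, one_pow]
    · rw [eq_top_iff]
      intro z _
      obtain ⟨y, rfl⟩ := hb.2 z
      exact (IntermediateField.adjoin F {(1 : F₁)}).algebraMap_mem y
    · rw [mul_one] at h0
      exact h0
  · intro s j hjs F₁ F₂ _ _ _ _ _ _ _ _ x hx hgen hC e he h
    let _ : Algebra K F₁ := ((algebraMap F F₁).comp (algebraMap K F)).toAlgebra
    have hT1 : IsScalarTower K F F₁ := IsScalarTower.of_algebraMap_eq fun _ => rfl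
    let _ : Algebra K F₂ := ((algebraMap F F₂).comp (algebraMap K F)).toAlgebra
    have hT2 : IsScalarTower K F F₂ := IsScalarTower.of_algebraMap_eq fun _ => rfl
    have hT3 : IsScalarTower K F₁ F₂ := IsScalarTower.of_algebraMap_eq fun y => by
      rw [IsScalarTower.algebraMap_apply K F F₂, IsScalarTower.algebraMap_apply K F F₁,
        IsScalarTower.algebraMap_apply F F₁ F₂]
    have c1 := hC e he fun J hJ => h J (hJ.trans (Finset.subset_insert _ _))
    have c2 := hC (e * d j) (mul_ne_zero he (hd j)) fun J hJ => by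
      have h3 := h (insert j J) (Finset.insert_subset_insert _ hJ)
      rw [Finset.prod_insert (fun h4 => hjs (hJ h4)), ← mul_assoc] at h3
      exact h3
    rw [RT11_map a b F F₁] at c1 c2
    rw [RT11_map a b F F₂]
    refine rkz_step hE hQ hj he (hd j) (x := x) ?_ hgen c1 c2
    rw [hx]
    exact (IsScalarTower.algebraMap_apply K F F₂ (d j)).symm

end

end Pool.Agent.Lib.MP_1a91b9_ntMQ
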