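import Pool.Agent.Lib.MP_1a91b9_ntC.LProd
import Pool.Agent.Lib.MP_1a91b9_ntMQ.RT10

/-!
# MP_1a91b9_nt (random multiquadratic fields), block RT: squares and degrees in the towers
-/

set_option autoImplicit false
set_option linter.unusedSectionVars false

namespace Pool.Agent.Lib.MP_1a91b9_ntMQ

open NumberField
open Pool.Agent.Lib.MP_1a91b9_ntC (quad_gen)

/-- **RT15a** (medium-). One step for the squares. Proof: let `α' = algebraMap F F₁ α`, `δ' = algebraMap F F₁ δ`, and
`algebraMap F F' δ = z * z`. By `quad_gen` `z = algebraMap F₁ F' u + algebraMap F₁ F' w * x`. If `x` is in the image of `F₁`,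
then so is `z`, and `δ'` is a square in `F₁`. Otherwise `z ^ 2 = u² + w² α' + 2 u w x` is in the image of `F₁`, so
`2 u w = 0`: if `w = 0` then `δ' = u * u`; if `u = 0` then `δ' = w² α'` and `δ' * α' = (w * α') ^ 2`. -/
theorem sq_step {F F₁ F' : Type} [Field F] [NumberField F] [Field F₁] [NumberField F₁] [Field F']
    [NumberField F'] [Algebra F F₁] [Algebra F₁ F'] [Algebra F F'] [IsScalarTower F F₁ F'] {α δ : F}
    {x : F'} (hx : x ^ 2 = algebraMap F F' α) (hg : IntermediateField.adjoin F₁ {x} = ⊤)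
    (h : IsSquare (algebraMap F F' δ)) :
    IsSquare (algebraMap F F₁ δ) ∨ IsSquare (algebraMap F F₁ (δ * α)) := by
  obtain ⟨z, hz⟩ := h
  rw [IsScalarTower.algebraMap_apply F F₁ F'] at hx hz
  obtain ⟨u, w, huw⟩ := quad_gen hx hg z
  by_cases hm : ∃ y : F₁, algebraMap F₁ F' y = x
  · obtain ⟨y, rfl⟩ := hm
    refine Or.inl ⟨u + w * y, (algebraMap F₁ F').injective ?_⟩
    rw [hz, huw]
    simp only [map_mul, map_add]
  · have h1 : (algebraMap F₁ F') (2 * u * w) * x =
        algebraMap F₁ F' (algebraMap F F₁ δ - u ^ 2 - w ^ 2 * algebraMap F F₁ α) := by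
      simp only [map_mul, map_sub, map_pow]
      rw [hz, huw, ← hx]
      simp only [map_ofNat]
      ring
    have h2 : 2 * u * w = 0 := by
      by_contra h0
      refine hm ⟨(algebraMap F F₁ δ - u ^ 2 - w ^ 2 * algebraMap F F₁ α) / (2 * u * w), ?_⟩
      rw [map_div₀, ← h1]
      field_simp
      rw [mul_div_cancel_left₀]
      simpa using h0
    rcases mul_eq_zero.1 h2 with h3 | h3
    · have hu : u = 0 := by
        rcases mul_eq_zero.1 h3 with h4 | h4
        · exact absurd h4 two_ne_zero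
        · exact h4
      subst hu
      refine Or.inr ⟨w * algebraMap F F₁ α, (algebraMap F₁ F').injective ?_⟩
      rw [map_mul (algebraMap F F₁), map_mul (algebraMap F₁ F'), hz, huw]
      simp only [map_mul, map_zero, zero_add]
      linear_combination (algebraMap F₁ F' w) ^ 2 * (algebraMap F₁ F' (algebraMap F F₁ α)) * hx
    · subst h3
      refine Or.inl ⟨u, (algebraMap F₁ F').injective ?_⟩
      rw [hz, huw]
      simp

/-- **RT15b** (medium-). **Squares in the towers.** Proof: `tow_ind` with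
`C s F' = ∀ δ : F, IsSquare (algebraMap F F' δ) → ∃ J ⊆ s, IsSquare (δ * ∏ i ∈ J, α i)`. `C ∅`: `algebraMap F F'` is
bijective, `J = ∅`. The step: `sq_step`; in the second case `J` for `δ * α j` and then `insert j J`
(`Finset.prod_insert`). -/
theorem mq_sq {F F' : Type} [Field F] [NumberField F] [Field F'] [NumberField F'] [Algebra F F']
    {r : ℕ} {α : Fin r → F} {x : Fin r → F'} {s : Finset (Fin r)} (h : MQx α x s) {δ : F}
    (hδ : IsSquare (algebraMap F F' δ)) : ∃ J ⊆ s, IsSquare (δ * ∏ i ∈ J, α i) := by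
  classical
  have key := tow_ind α (fun s (F' : Type) [Field F'] [NumberField F'] [Algebra F F'] =>
    ∀ δ : F, IsSquare (algebraMap F F' δ) → ∃ J ⊆ s, IsSquare (δ * ∏ i ∈ J, α i)) ?_ ?_ s F' x h
  · exact key δ hδ
  · intro F' _ _ _ hb δ hδ
    refine ⟨∅, Finset.Subset.refl _, ?_⟩
    rw [Finset.prod_empty, mul_one]
    obtain ⟨z, hz⟩ := hδ
    obtain ⟨y, rfl⟩ := hb.2 z
    exact ⟨y, hb.1 (by rw [hz, map_mul])⟩
  · intro s j hj F₁ F' _ _ _ _ _ _ _ _ x hx hg ih δ hδ
    rcases sq_step hx hg hδ with h1 | h1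
    · obtain ⟨J, hJ, h2⟩ := ih δ h1
      exact ⟨J, hJ.trans (Finset.subset_insert j s), h2⟩
    · obtain ⟨J, hJ, h2⟩ := ih _ h1
      refine ⟨insert j J, Finset.insert_subset_insert j hJ, ?_⟩
      rw [Finset.prod_insert (fun h => hj (hJ h)), ← mul_assoc]
      exact h2

/-- **RT15** (medium-). **The degree.** Proof: `tow_ind` with
`C s F' = (∀ J ⊆ s, J.Nonempty → ¬ IsSquare (∏ i ∈ J, α i)) → Module.finrank F F' = 2 ^ s.card ∧ (the statement C of mq_sq)`.
`C ∅`: the algebra map is bijective, degree one (`LinearEquiv.ofBijective` or `Subalgebra.bot_eq_top_iff_finrank_eq_one`). The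
step: `Module.finrank_mul_finrank F F₁ F'`; `x` is not in the image of `F₁`: otherwise `algebraMap F F₁ (α j)` is a square
(`algebraMap F₁ F'` is injective), so `α j * ∏ i ∈ J, α i` is a square for some `J ⊆ s`, a contradiction for
`insert j J`; so `Pool.Agent.Lib.MP_1a91b9_ntN.G.finrank_two'` (used in `stb_step`, MP_1a91b9_ntC/Stab.lean) or
`Module.finrank F₁ F' = 2` from `quad_gen` as in `nn_auto` (MP_1a91b9_ntC/NoNew.lean). `card_insert_of_notMem`, `pow_succ`. -/
theorem mq_deg {F F' : Type} [Field F] [NumberField F] [Field F'] [NumberField F'] [Algebra F F']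
    {r : ℕ} {α : Fin r → F} {x : Fin r → F'} {s : Finset (Fin r)} (h : MQx α x s)
    (hns : ∀ J ⊆ s, J.Nonempty → ¬ IsSquare (∏ i ∈ J, α i)) :
    Module.finrank F F' = 2 ^ s.card := by
  classical
  have key := tow_ind α (fun s (F' : Type) [Field F'] [NumberField F'] [Algebra F F'] =>
    (∀ J ⊆ s, J.Nonempty → ¬ IsSquare (∏ i ∈ J, α i)) → Module.finrank F F' = 2 ^ s.card ∧
      ∀ δ : F, IsSquare (algebraMap F F' δ) → ∃ J ⊆ s, IsSquare (δ * ∏ i ∈ J, α i)) ?_ ?_ s F' x h
  · exact (key hns).1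
  · intro F' _ _ _ hb _
    refine ⟨?_, ?_⟩
    · rw [Finset.card_empty, pow_zero]
      have := (LinearEquiv.ofBijective (Algebra.linearMap F F') hb).finrank_eq
      rw [← this, Module.finrank_self]
    · intro δ hδ
      refine ⟨∅, Finset.Subset.refl _, ?_⟩
      rw [Finset.prod_empty, mul_one]
      obtain ⟨z, hz⟩ := hδ
      obtain ⟨y, rfl⟩ := hb.2 z
      exact ⟨y, hb.1 (by rw [hz, map_mul])⟩
  · intro s j hj F₁ F' _ _ _ _ _ _ _ _ x hx hg ih hns
    obtain ⟨ih1, ih2⟩ := ih fun J hJ => hns J (hJ.trans (Finset.subset_insert j s))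
    refine ⟨?_, ?_⟩
    · rw [← Module.finrank_mul_finrank F F₁ F', ih1, Finset.card_insert_of_notMem hj, pow_succ]
      congr 1
      refine Pool.Agent.Lib.MP_1a91b9_ntN.G.finrank_two' (x := x) ?_ ?_
      · rintro ⟨y, hy⟩
        obtain ⟨J, hJ, h2⟩ := ih2 (α j) ⟨y, (algebraMap F₁ F').injective (by
          rw [← IsScalarTower.algebraMap_apply F F₁ F', ← hx, ← hy, map_mul, sq])⟩
        refine hns (insert j J) (Finset.insert_subset_insert j hJ) (Finset.insert_nonempty j J) ?_
        rw [Finset.prod_insert (fun h => hj (hJ h))]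
        exact h2
      · exact quad_gen (α := algebraMap F F₁ (α j)) (by
          rw [hx, IsScalarTower.algebraMap_apply F F₁ F']) hg
    · intro δ hδ
      rcases sq_step hx hg hδ with h1 | h1
      · obtain ⟨J, hJ, h2⟩ := ih2 δ h1
        exact ⟨J, hJ.trans (Finset.subset_insert j s), h2⟩
      · obtain ⟨J, hJ, h2⟩ := ih2 _ h1
        refine ⟨insert j J, Finset.insert_subset_insert j hJ, ?_⟩
        rw [Finset.prod_insert (fun h => hj (hJ h)), ← mul_assoc]
        exact h2

end Pool.Agent.Lib.MP_1a91b9_ntMQ
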