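import Pool.Agent.Lib.MP_1a91b9_ntMQ.RT10

/-!
# MP_1a91b9_nt (random multiquadratic fields), block RT: the Galois group of a multiquadratic extension
-/

set_option autoImplicit false
set_option linter.unusedSectionVars false

namespace Pool.Agent.Lib.MP_1a91b9_ntMQ

open NumberField

noncomputable section

variable {F F' : Type} [Field F] [NumberField F] [Field F'] [NumberField F'] [Algebra F F'] {r : ℕ}
  {α : Fin r → F} {x : Fin r → F'} {s : Finset (Fin r)}

private theorem RT16_ne (h : MQx α x s) (hα : ∀ i ∈ s, α i ≠ 0) {i : Fin r} (hi : i ∈ s) : x i ≠ 0 := by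
  intro h0
  have h1 := h.sq i hi
  rw [h0, zero_pow two_ne_zero] at h1
  exact hα i hi ((map_eq_zero (algebraMap F F')).1 h1.symm)

/-- **RT16a** (easy+). Proof: separable because of characteristic zero. Normal: `normal_iff`; the minimal polynomial of
`z ∈ ⊤ = adjoin F (x '' s)` splits by `IntermediateField.splits_of_mem_adjoin`: the minimal polynomial of `x i` divides
`X ^ 2 - C (α i)` (`minpoly.dvd`), which splits over `F'` as `(X - C (x i)) * (X + C (x i))`. -/
theorem MQx.galois (h : MQx α x s) : IsGalois F F' := by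
  have hn : Normal F F' := by
    refine normal_iff.2 fun z => ⟨Algebra.IsIntegral.isIntegral z, ?_⟩
    have hz : z ∈ IntermediateField.adjoin F (x '' (s : Set (Fin r))) := by
      rw [h.gen]
      exact IntermediateField.mem_top
    refine IntermediateField.splits_of_mem_adjoin F F' (S := x '' (s : Set (Fin r))) ?_ hz
    rintro _ ⟨i, hi, rfl⟩
    refine ⟨Algebra.IsIntegral.isIntegral _, ?_⟩
    have hd : minpoly F (x i) ∣ Polynomial.X ^ 2 - Polynomial.C (α i) := by
      refine minpoly.dvd F (x i) ?_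
      rw [map_sub, map_pow, Polynomial.aeval_X, Polynomial.aeval_C, h.sq i hi, sub_self]
    have he : (Polynomial.X ^ 2 - Polynomial.C (α i)).map (algebraMap F F') =
        (Polynomial.X - Polynomial.C (x i)) * (Polynomial.X + Polynomial.C (x i)) := by
      rw [Polynomial.map_sub, Polynomial.map_pow, Polynomial.map_X, Polynomial.map_C, ← h.sq i hi, Polynomial.C_pow]
      ring
    have hs : ((Polynomial.X ^ 2 - Polynomial.C (α i)).map (algebraMap F F')).Splits := by
      rw [he]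
      exact (Polynomial.Splits.X_sub_C _).mul (Polynomial.Splits.X_add_C _)
    refine Polynomial.Splits.of_dvd hs ?_ (Polynomial.map_dvd _ hd)
    rw [he]
    exact mul_ne_zero (Polynomial.X_sub_C_ne_zero _) (Polynomial.X_add_C_ne_zero _)
  exact { to_isSeparable := inferInstance, to_normal := hn }

/-- **RT16b** (easy). The automorphisms are determined on the generators. Proof: `IntermediateField.adjoin` induction
(`IntermediateField.adjoin_induction`) or the equalizer: `AlgEquiv.ext`, for `z ∈ ⊤ = adjoin F (x '' s)`. -/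
theorem MQx.ext (h : MQx α x s) {σ τ : F' ≃ₐ[F] F'} (hh : ∀ i ∈ s, σ (x i) = τ (x i)) : σ = τ := by
  refine AlgEquiv.ext fun z => ?_
  have hz : z ∈ IntermediateField.adjoin F (x '' (s : Set (Fin r))) := by
    rw [h.gen]
    exact IntermediateField.mem_top
  induction hz using IntermediateField.adjoin_induction with
  | mem z hz =>
    obtain ⟨i, hi, rfl⟩ := hz
    exact hh i hi
  | algebraMap c => rw [σ.commutes, τ.commutes]
  | add a b _ _ ha hb => rw [map_add, map_add, ha, hb]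
  | inv a _ ha => rw [map_inv₀, map_inv₀, ha]
  | mul a b _ _ ha hb => rw [map_mul, map_mul, ha, hb]

/-- **RT16c** (easy). Proof: `(σ (x i)) ^ 2 = σ (α i) = α i = (x i) ^ 2`, `sq_eq_sq_iff_eq_or_eq_neg`. -/
theorem MQx.sign (h : MQx α x s) (σ : F' ≃ₐ[F] F') {i : Fin r} (hi : i ∈ s) :
    σ (x i) = x i ∨ σ (x i) = -x i := by
  refine sq_eq_sq_iff_eq_or_eq_neg.1 ?_
  rw [← map_pow, h.sq i hi, σ.commutes]

/-- **RT16d** (easy). Proof: `MQx.ext` for `σ * τ` and `τ * σ`, `MQx.sign`. -/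
theorem MQx.comm (h : MQx α x s) (σ τ : F' ≃ₐ[F] F') (z : F') : σ (τ z) = τ (σ z) := by
  have h1 : σ * τ = τ * σ := by
    refine h.ext fun i hi => ?_
    rw [AlgEquiv.mul_apply, AlgEquiv.mul_apply]
    rcases h.sign σ hi with h1 | h1 <;> rcases h.sign τ hi with h2 | h2 <;>
      simp only [h1, h2, map_neg]
  exact AlgEquiv.congr_fun h1 z

open Classical in
/-- The sign of `σ` on `∏ i ∈ J, x i`. -/
def chi (x : Fin r → F') (σ : F' ≃ₐ[F] F') (J : Finset (Fin r)) : ℤ :=
  ∏ i ∈ J, if σ (x i) = x i then 1 else -1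

/-- **RT16e** (easy). Proof: `Finset.prod_induction` or `Finset.induction_on`. -/
theorem chi_or (σ : F' ≃ₐ[F] F') (J : Finset (Fin r)) : chi x σ J = 1 ∨ chi x σ J = -1 := by
  unfold chi
  refine Finset.prod_induction _ (fun a : ℤ => a = 1 ∨ a = -1) ?_ (Or.inl rfl) ?_
  · rintro a b (rfl | rfl) (rfl | rfl)
    · exact Or.inl rfl
    · exact Or.inr rfl
    · exact Or.inr rfl
    · exact Or.inl rfl
  · intro i _
    by_cases hi : σ (x i) = x i
    · exact Or.inl (if_pos hi)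
    · exact Or.inr (if_neg hi)

/-- **RT16f** (easy). Proof: `map_prod`, `Finset.prod_mul_distrib`, `Int.cast_prod`, `MQx.sign`. -/
theorem MQx.chi_prod (h : MQx α x s) (σ : F' ≃ₐ[F] F') {J : Finset (Fin r)} (hJ : J ⊆ s) :
    σ (∏ i ∈ J, x i) = (chi x σ J : F') * ∏ i ∈ J, x i := by
  unfold chi
  rw [map_prod, Int.cast_prod, ← Finset.prod_mul_distrib]
  refine Finset.prod_congr rfl fun i hi => ?_
  by_cases h1 : σ (x i) = x i
  · rw [if_pos h1, h1, Int.cast_one, one_mul]
  · rw [if_neg h1, (h.sign σ (hJ hi)).resolve_left h1, Int.cast_neg, Int.cast_one, neg_one_mul]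

/-- **RT16g** (easy+). Proof: `Finset.prod_mul_distrib`, and for `i ∈ s` (`α i ≠ 0`, so `x i ≠ 0` and
`x i ≠ -x i`) the four cases of `MQx.sign` for `σ` and `τ`. -/
theorem MQx.chi_mul (h : MQx α x s) (hα : ∀ i ∈ s, α i ≠ 0) (σ τ : F' ≃ₐ[F] F')
    {J : Finset (Fin r)} (hJ : J ⊆ s) : chi x (σ * τ) J = chi x σ J * chi x τ J := by
  unfold chi
  rw [← Finset.prod_mul_distrib]
  refine Finset.prod_congr rfl fun i hi => ?_
  have hx0 : x i ≠ 0 := RT16_ne h hα (hJ hi)
  have hxn : -x i ≠ x i := fun h1 => hx0 (neg_eq_self.1 h1)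
  rw [AlgEquiv.mul_apply]
  rcases h.sign σ (hJ hi) with h1 | h1 <;> rcases h.sign τ (hJ hi) with h2 | h2
  · rw [h2, if_pos h1, if_pos rfl, one_mul]
  · rw [h2, map_neg, h1, if_neg hxn, if_pos rfl, one_mul]
  · rw [h2, h1, if_neg hxn, if_pos rfl, mul_one]
  · rw [h2, map_neg, h1, neg_neg, if_pos rfl, if_neg hxn, neg_one_mul, neg_neg]

open Classical in
/-- **RT16h** (easy+). **Orthogonality.** Proof: `Finset.prod_one_add`: the sum is
`∏ i ∈ s, (1 + if σ (x i) = x i then 1 else -1)`. For `σ = 1` all factors are `2`. For `σ ≠ 1` there is `i ∈ s` with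
`σ (x i) ≠ x i` (`MQx.ext`), its factor is `0`. -/
theorem MQx.orth (h : MQx α x s) (σ : F' ≃ₐ[F] F') :
    ∑ J ∈ s.powerset, chi x σ J = if σ = 1 then 2 ^ s.card else 0 := by
  unfold chi
  rw [← Finset.prod_one_add]
  by_cases hσ : σ = 1
  · subst hσ
    rw [if_pos rfl]
    have h1 : ∀ i ∈ s, (1 : ℤ) + (if (1 : F' ≃ₐ[F] F') (x i) = x i then 1 else -1) = 2 := by
      intro i _
      rw [AlgEquiv.one_apply, if_pos rfl]
      norm_num
    rw [Finset.prod_congr rfl h1, Finset.prod_const]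
  · rw [if_neg hσ]
    have h1 : ∃ i ∈ s, σ (x i) ≠ x i := by
      by_contra hcon
      push Not at hcon
      exact hσ (h.ext fun i hi => hcon i hi)
    obtain ⟨i, hi, h2⟩ := h1
    refine Finset.prod_eq_zero hi ?_
    rw [if_neg h2]
    norm_num

/-- The projection to the part of the character `J`. -/
def prJ {M : Type} [AddCommGroup M] (x : Fin r → F') (S : (F' ≃ₐ[F] F') → M →+ M)
    (J : Finset (Fin r)) (P : M) : M :=
  ∑ σ : F' ≃ₐ[F] F', chi x σ J • S σ P

/-- **RT16i** (easy+). Proof: exchange the sums (`Finset.sum_comm`), `Finset.sum_smul`, `MQx.orth`,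
`Finset.sum_ite_eq`. -/
theorem MQx.sum_prJ (h : MQx α x s) {M : Type} [AddCommGroup M] (S : (F' ≃ₐ[F] F') → M →+ M)
    (h1 : ∀ P, S 1 P = P) (P : M) : ∑ J ∈ s.powerset, prJ x S J P = (2 ^ s.card : ℤ) • P := by
  classical
  unfold prJ
  rw [Finset.sum_comm]
  have h2 : ∀ σ : F' ≃ₐ[F] F', ∑ J ∈ s.powerset, chi x σ J • S σ P =
      if σ = 1 then (2 ^ s.card : ℤ) • S σ P else 0 := by
    intro σ
    rw [← Finset.sum_smul, h.orth σ]
    by_cases hσ : σ = 1
    · rw [if_pos hσ, if_pos hσ]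
    · rw [if_neg hσ, if_neg hσ, zero_smul]
  rw [Finset.sum_congr rfl fun σ _ => h2 σ, Finset.sum_ite_eq' Finset.univ (1 : F' ≃ₐ[F] F'),
    if_pos (Finset.mem_univ _), h1]

/-- **RT16j** (easy+). Proof: `map_sum`, `map_zsmul`, `hm`; then `Fintype.sum_equiv (Equiv.mulLeft τ)`, with
`chi x (τ * σ) J = chi x τ J * chi x σ J` and `chi x τ J * chi x τ J = 1` (`chi_or`). -/
theorem MQx.act_prJ (h : MQx α x s) (hα : ∀ i ∈ s, α i ≠ 0) {M : Type} [AddCommGroup M]
    (S : (F' ≃ₐ[F] F') → M →+ M) (hm : ∀ σ τ P, S (σ * τ) P = S σ (S τ P)) {J : Finset (Fin r)}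
    (hJ : J ⊆ s) (τ : F' ≃ₐ[F] F') (P : M) : S τ (prJ x S J P) = chi x τ J • prJ x S J P := by
  unfold prJ
  rw [map_sum, Finset.smul_sum]
  have h1 : ∀ σ : F' ≃ₐ[F] F', S τ (chi x σ J • S σ P) = chi x τ J • (chi x (τ * σ) J • S (τ * σ) P) := by
    intro σ
    rw [map_zsmul, hm, h.chi_mul hα τ σ hJ, smul_smul, ← mul_assoc]
    rcases chi_or (x := x) τ J with h2 | h2
    · rw [h2, one_mul, one_mul]
    · rw [h2, neg_one_mul, neg_neg, one_mul]
  rw [Finset.sum_congr rfl fun σ _ => h1 σ]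
  exact Fintype.sum_equiv (Equiv.mulLeft τ) _ (fun σ => chi x τ J • (chi x σ J • S σ P)) fun σ => rfl

/-- **RT16k** (easy+). Proof: `z / ∏ i ∈ J, x i` is fixed by all `σ` (`MQx.chi_prod`, `chi_or`; the product is not zero
because its square is `∏ α i ≠ 0`), so it is in the image of `F`: `IsGalois.mem_range_algebraMap_iff_fixed` with
`MQx.galois`. -/
theorem MQx.mem_chi (h : MQx α x s) (hα : ∀ i ∈ s, α i ≠ 0) {J : Finset (Fin r)} (hJ : J ⊆ s)
    {z : F'} (hz : ∀ σ : F' ≃ₐ[F] F', σ z = (chi x σ J : F') * z) :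
    ∃ c : F, z = algebraMap F F' c * ∏ i ∈ J, x i := by
  have hg := h.galois
  have hP0 : (∏ i ∈ J, x i) ≠ 0 := Finset.prod_ne_zero_iff.2 fun i hi => RT16_ne h hα (hJ hi)
  have h1 : z / ∏ i ∈ J, x i ∈ Set.range (algebraMap F F') := by
    rw [IsGalois.mem_range_algebraMap_iff_fixed]
    intro σ
    rw [map_div₀, hz σ, h.chi_prod σ hJ]
    refine mul_div_mul_left _ _ ?_
    rcases chi_or (x := x) σ J with h2 | h2
    · rw [h2, Int.cast_one]
      exact one_ne_zero
    · rw [h2, Int.cast_neg, Int.cast_one]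
      exact neg_ne_zero.2 one_ne_zero
  obtain ⟨c, hc⟩ := h1
  exact ⟨c, by rw [hc, div_mul_cancel₀ _ hP0]⟩

/-- **RT16** (medium). **The field of an element.** If `z` is not in `F` then `F(z)` contains the square root of a
product. Proof: let `S σ` be the additive map `z ↦ σ z`, and `z_J = prJ x S J z` for `J ⊆ s`. If `z_J = 0` for all nonempty
`J ⊆ s`, then `2 ^ s.card • z = z_∅` (`MQx.sum_prJ`, `Finset.sum_eq_single ∅`), which is fixed by all `σ`
(`chi x σ ∅ = 1`), so `z` is in the image of `F` (`MQx.mem_chi` with `J = ∅`, divide by `2 ^ s.card ≠ 0`), a contradiction. So there is a nonempty `J ⊆ s` with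
`z_J ≠ 0`. `z_J = c * ∏ i ∈ J, x i` with `c ≠ 0` in `F` (`MQx.act_prJ`, `MQx.mem_chi`). `z_J ∈ F⟮z⟯`: by
`IsGalois.fixedField_fixingSubgroup` it is enough that every `τ` which fixes `F⟮z⟯` (so `τ z = z`) fixes `z_J`, and
`τ (∑ σ, χ(σ) • σ z) = ∑ σ, χ(σ) • σ (τ z) = z_J` by `MQx.comm`. Let `y = z_J / c = ∏ i ∈ J, x i`: in `F⟮z⟯`, and
`y ^ 2 = ∏ i ∈ J, α i`. -/
theorem MQx.field_of (h : MQx α x s) (hα : ∀ i ∈ s, α i ≠ 0) {z : F'}
    (hz : ¬ ∃ c : F, algebraMap F F' c = z) :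
    ∃ J ⊆ s, J.Nonempty ∧ ∃ y ∈ IntermediateField.adjoin F {z},
      y ^ 2 = algebraMap F F' (∏ i ∈ J, α i) := by
  have hg := h.galois
  obtain ⟨S, hS⟩ : ∃ S : (F' ≃ₐ[F] F') → F' →+ F', ∀ σ z, S σ z = σ z :=
    ⟨fun σ => (σ : F' →+* F').toAddMonoidHom, fun σ z => rfl⟩
  have hm : ∀ σ τ P, S (σ * τ) P = S σ (S τ P) := fun σ τ P => by
    rw [hS, hS, hS, AlgEquiv.mul_apply]
  have hact : ∀ J ⊆ s, ∀ σ : F' ≃ₐ[F] F', σ (prJ x S J z) = (chi x σ J : F') * prJ x S J z := by
    intro J hJ σ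
    have h1 := h.act_prJ hα S hm hJ σ z
    rw [hS, zsmul_eq_mul] at h1
    exact h1
  have hex : ∃ J ⊆ s, J.Nonempty ∧ prJ x S J z ≠ 0 := by
    by_contra hcon
    push Not at hcon
    have h1 := h.sum_prJ S (fun P => by rw [hS]; rfl) z
    rw [Finset.sum_eq_single ∅] at h1
    · obtain ⟨c, hc⟩ := h.mem_chi hα (Finset.empty_subset s) (hact ∅ (Finset.empty_subset s))
      rw [Finset.prod_empty, mul_one] at hc
      rw [hc, zsmul_eq_mul] at h1
      have h2 : ((2 ^ s.card : ℤ) : F') ≠ 0 := by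
        rw [Int.cast_pow, Int.cast_ofNat]
        exact pow_ne_zero _ two_ne_zero
      refine hz ⟨c / ((2 ^ s.card : ℤ) : F), ?_⟩
      rw [map_div₀, h1, map_intCast, mul_div_cancel_left₀ _ h2]
    · intro J hJ hJ0
      exact hcon J (Finset.mem_powerset.1 hJ) (Finset.nonempty_iff_ne_empty.2 hJ0)
    · intro h2
      exact absurd (Finset.empty_mem_powerset s) h2
  obtain ⟨J, hJ, hJn, hne⟩ := hex
  obtain ⟨c, hc⟩ := h.mem_chi hα hJ (hact J hJ)
  have hc0 : algebraMap F F' c ≠ 0 := by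
    intro h1
    rw [h1, zero_mul] at hc
    exact hne hc
  have hmem : prJ x S J z ∈ IntermediateField.adjoin F {z} := by
    rw [← IsGalois.fixedField_fixingSubgroup (IntermediateField.adjoin F {z}), IntermediateField.mem_fixedField_iff]
    intro τ hτ
    have hτz : τ z = z := (IntermediateField.mem_fixingSubgroup_iff _ _).1 hτ z
      (IntermediateField.mem_adjoin_simple_self F z)
    unfold prJ
    rw [map_sum]
    refine Finset.sum_congr rfl fun σ _ => ?_
    rw [map_zsmul, hS, ← h.comm σ τ z, hτz]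
  refine ⟨J, hJ, hJn, ∏ i ∈ J, x i, ?_, ?_⟩
  · have h1 : ∏ i ∈ J, x i = prJ x S J z / algebraMap F F' c := by
      rw [hc, mul_div_cancel_left₀ _ hc0]
    rw [h1]
    exact div_mem hmem (IntermediateField.algebraMap_mem _ c)
  · rw [map_prod, ← Finset.prod_pow]
    exact Finset.prod_congr rfl fun i hi => h.sq i (hJ hi)

end

end Pool.Agent.Lib.MP_1a91b9_ntMQ
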