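import Pool.Agent.Lib.MP_1a91b9_ntMQ.RT10

/-!
# MP_1a91b9_nt (random multiquadratic fields), block RT: one more square root
-/

set_option autoImplicit false
set_option linter.unusedSectionVars false

namespace Pool.Agent.Lib.MP_1a91b9_ntMQ

open NumberField

/-- **RT17a** (easy+). **One more square root.** Proof: the squares: for `i = j` `Function.update_self` and `hy`; for
`i ∈ s` `i ≠ j`, `Function.update_of_ne`, and `algebraMap F F' (α i) = algebraMap F₁ F' (algebraMap F F₁ (α i))`. The
generation: let `L = adjoin F` of the image of `insert j s`. It contains `y` and all `algebraMap F₁ F' (x i)`, `i ∈ s`. So it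
contains the image of `F₁ = adjoin F (x '' s)` (`IntermediateField.adjoin_map` for
`IsScalarTower.toAlgHom F F₁ F'`, or `IntermediateField.adjoin_induction`), so every element of
`adjoin F₁ {y} = ⊤` is in `L` (`IntermediateField.adjoin_induction`, or consider `L` as an intermediate field of `F₁` and `F'`). -/
theorem MQx.insert {F F₁ F' : Type} [Field F] [Field F₁] [Field F'] [Algebra F F₁]
    [Algebra F₁ F'] [Algebra F F'] [IsScalarTower F F₁ F'] {r : ℕ} {α : Fin r → F}
    {x : Fin r → F₁} {s : Finset (Fin r)} (h : MQx α x s) {j : Fin r} (hj : j ∉ s) {y : F'}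
    (hy : y ^ 2 = algebraMap F F' (α j)) (hg : IntermediateField.adjoin F₁ {y} = ⊤) :
    MQx α (Function.update (fun i => algebraMap F₁ F' (x i)) j y) (insert j s) := by
  classical
  have hne : ∀ i ∈ s, i ≠ j := fun i hi hij => hj (hij ▸ hi)
  have hup : ∀ i ∈ s, Function.update (fun i => algebraMap F₁ F' (x i)) j y i = algebraMap F₁ F' (x i) :=
    fun i hi => Function.update_of_ne (hne i hi) _ _
  refine ⟨fun i hi => ?_, ?_⟩
  · rcases Finset.mem_insert.1 hi with rfl | hi
    · rw [Function.update_self]
      exact hy
    · rw [hup i hi, ← map_pow, h.sq i hi, ← IsScalarTower.algebraMap_apply]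
  · obtain ⟨L, hL⟩ : ∃ L : IntermediateField F F', L = IntermediateField.adjoin F
        (Function.update (fun i => algebraMap F₁ F' (x i)) j y '' ((Insert.insert j s : Finset (Fin r)) : Set (Fin r))) :=
      ⟨_, rfl⟩
    rw [← hL]
    have hyL : y ∈ L := by
      rw [hL]
      refine IntermediateField.subset_adjoin F _ ⟨j, Finset.mem_coe.2 (Finset.mem_insert_self j s), ?_⟩
      rw [Function.update_self]
    have hxL : ∀ i ∈ s, algebraMap F₁ F' (x i) ∈ L := by
      intro i hi
      rw [hL]
      exact IntermediateField.subset_adjoin F _ ⟨i, Finset.mem_coe.2 (Finset.mem_insert_of_mem hi), hup i hi⟩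
    have hF₁ : ∀ w : F₁, algebraMap F₁ F' w ∈ L := by
      intro w
      have hw : w ∈ IntermediateField.adjoin F (x '' (s : Set (Fin r))) := by
        rw [h.gen]
        exact IntermediateField.mem_top
      induction hw using IntermediateField.adjoin_induction with
      | mem w hw =>
        obtain ⟨i, hi, rfl⟩ := hw
        exact hxL i (Finset.mem_coe.1 hi)
      | algebraMap c =>
        rw [← IsScalarTower.algebraMap_apply]
        exact L.algebraMap_mem c
      | add a b _ _ ha hb =>
        rw [map_add]
        exact add_mem ha hb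
      | inv a _ ha =>
        rw [map_inv₀]
        exact inv_mem ha
      | mul a b _ _ ha hb =>
        rw [map_mul]
        exact mul_mem ha hb
    refine eq_top_iff.2 fun z _ => ?_
    have hz : z ∈ IntermediateField.adjoin F₁ {y} := by
      rw [hg]
      exact IntermediateField.mem_top
    induction hz using IntermediateField.adjoin_induction with
    | mem w hw =>
      rw [Set.mem_singleton_iff.1 hw]
      exact hyL
    | algebraMap c => exact hF₁ c
    | add a b _ _ ha hb => exact add_mem (ha IntermediateField.mem_top) (hb IntermediateField.mem_top)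
    | inv a _ ha => exact inv_mem (ha IntermediateField.mem_top)
    | mul a b _ _ ha hb => exact mul_mem (ha IntermediateField.mem_top) (hb IntermediateField.mem_top)

/-- **RT17** (easy+). **The generation by roots over `K`.** Proof: let `L` be the left side as an intermediate field of
`K` and `F'`. It contains the images of the elements `y` of `F` with `y ^ l ∈ K`, so it contains the image of `F`
(`hF`; `IntermediateField.adjoin_map` for `IsScalarTower.toAlgHom K F F'`, or `IntermediateField.adjoin_induction`), and the
`x i`, `i ∈ s`, because `x i ^ l = (d i) ^ (l / 2)` for `l = 2` and `l = 4`. So it contains `adjoin F (x '' s) = ⊤`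
(`IntermediateField.adjoin_induction`). -/
theorem adj_tower {K F F' : Type} [Field K] [Field F] [Algebra K F] [Field F'] [Algebra K F']
    [Algebra F F'] [IsScalarTower K F F'] {l : ℕ} (hl : l = 2 ∨ l = 4)
    (hF : IntermediateField.adjoin K {x : F | ∃ c : K, x ^ l = algebraMap K F c} = ⊤) {r : ℕ}
    {d : Fin r → K} {x : Fin r → F'} {s : Finset (Fin r)}
    (h : MQx (fun i => algebraMap K F (d i)) x s) :
    IntermediateField.adjoin K {x : F' | ∃ c : K, x ^ l = algebraMap K F' c} = ⊤ := by
  obtain ⟨L, hL⟩ : ∃ L : IntermediateField K F', L =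
      IntermediateField.adjoin K {x : F' | ∃ c : K, x ^ l = algebraMap K F' c} := ⟨_, rfl⟩
  rw [← hL]
  have hmem : ∀ z : F', (∃ c : K, z ^ l = algebraMap K F' c) → z ∈ L := by
    intro z hz
    rw [hL]
    exact IntermediateField.subset_adjoin K _ hz
  have hFL : ∀ w : F, algebraMap F F' w ∈ L := by
    intro w
    have hw : w ∈ IntermediateField.adjoin K {x : F | ∃ c : K, x ^ l = algebraMap K F c} := by
      rw [hF]
      exact IntermediateField.mem_top
    induction hw using IntermediateField.adjoin_induction with
    | mem w hw =>
      obtain ⟨c, hc⟩ := hw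
      exact hmem _ ⟨c, by rw [← map_pow, hc, ← IsScalarTower.algebraMap_apply]⟩
    | algebraMap c =>
      rw [← IsScalarTower.algebraMap_apply]
      exact L.algebraMap_mem c
    | add a b _ _ ha hb =>
      rw [map_add]
      exact add_mem ha hb
    | inv a _ ha =>
      rw [map_inv₀]
      exact inv_mem ha
    | mul a b _ _ ha hb =>
      rw [map_mul]
      exact mul_mem ha hb
  have hxL : ∀ i ∈ s, x i ∈ L := by
    intro i hi
    have h1 : x i ^ 2 = algebraMap K F' (d i) := by
      rw [h.sq i hi, ← IsScalarTower.algebraMap_apply]
    rcases hl with rfl | rfl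
    · exact hmem _ ⟨d i, h1⟩
    · refine hmem _ ⟨d i ^ 2, ?_⟩
      rw [map_pow, ← h1]
      ring
  refine eq_top_iff.2 fun z _ => ?_
  have hz : z ∈ IntermediateField.adjoin F (x '' (s : Set (Fin r))) := by
    rw [h.gen]
    exact IntermediateField.mem_top
  induction hz using IntermediateField.adjoin_induction with
  | mem w hw =>
    obtain ⟨i, hi, rfl⟩ := hw
    exact hxL i (Finset.mem_coe.1 hi)
  | algebraMap c => exact hFL c
  | add a b _ _ ha hb => exact add_mem (ha IntermediateField.mem_top) (hb IntermediateField.mem_top)
  | inv a _ ha => exact inv_mem (ha IntermediateField.mem_top)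
  | mul a b _ _ ha hb => exact mul_mem (ha IntermediateField.mem_top) (hb IntermediateField.mem_top)

end Pool.Agent.Lib.MP_1a91b9_ntMQ
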