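import Pool.Agent.Lib.MP_1a91b9_ntMQ.RT16

/-!
# MP_1a91b9_nt (random multiquadratic fields), block RT: the points over a multiquadratic extension
-/

set_option autoImplicit false
set_option linter.unusedSectionVars false

namespace Pool.Agent.Lib.MP_1a91b9_ntMQ

open NumberField WeierstrassCurve

noncomputable section

variable {F F' : Type} [Field F] [NumberField F] [Field F'] [NumberField F'] [Algebra F F'] {r : ℕ}
  {α : Fin r → F} {x : Fin r → F'} {s : Finset (Fin r)}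

open Classical in
private theorem RT18_map (W : WeierstrassCurve F) (σ : F' ≃ₐ[F] F') {u v : F'}
    (hh : (W.baseChange F').toAffine.Nonsingular u v) :
    ∃ h', Affine.Point.map (W' := W) (σ : F' →ₐ[F] F') (Affine.Point.some u v hh) =
      Affine.Point.some (σ u) (σ v) h' := ⟨_, rfl⟩

open Classical in
/-- **RT18a** (easy+). The fixed points are over `F`. Proof: as `hSfix` in `nn_main` (MP_1a91b9_ntC/NoNew.lean): for
`Q = some x y` the action on the coordinates fixes `x` and `y`, which are in the image of `F` by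
`IsGalois.mem_range_algebraMap_iff_fixed` (`MQx.galois`); `Affine.baseChange_nonsingular`. -/
theorem mq_fixed (W : WeierstrassCurve F) (h : MQx α x s) (Q : (W.baseChange F').toAffine.Point)
    (hQ : ∀ σ : F' ≃ₐ[F] F', Affine.Point.map (W' := W) (σ : F' →ₐ[F] F') Q = Q) :
    ∃ R : (W.baseChange F).toAffine.Point,
      Q = Affine.Point.map (W' := W) (Algebra.ofId F F') R := by
  have hg := h.galois
  rcases Q with _ | ⟨u, v, hh⟩
  · exact ⟨0, rfl⟩
  · have h2 : ∀ σ : F' ≃ₐ[F] F', σ u = u ∧ σ v = v := by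
      intro σ
      obtain ⟨h', e⟩ := RT18_map W σ hh
      have h3 := hQ σ
      rw [e, Affine.Point.some.injEq] at h3
      exact h3
    have hu : u ∈ Set.range (algebraMap F F') := by
      rw [IsGalois.mem_range_algebraMap_iff_fixed]
      exact fun σ => (h2 σ).1
    have hv : v ∈ Set.range (algebraMap F F') := by
      rw [IsGalois.mem_range_algebraMap_iff_fixed]
      exact fun σ => (h2 σ).2
    obtain ⟨a, rfl⟩ := hu
    obtain ⟨b, rfl⟩ := hv
    exact ⟨Affine.Point.some a b ((Affine.baseChange_nonsingular W.toAffine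
      (Algebra.ofId F F').injective _ _).mp hh), rfl⟩

open Classical in
/-- **RT18b** (medium). **The points of a character.** Proof: as in `nn_main` (MP_1a91b9_ntC/NoNew.lean: `Am`, `hAmc`,
`hAmf`, `hD2`), with the sign `chi x σ J` in the place of `-1`. Let `ρ = ∏ i ∈ J, x i`, `ρ ^ 2 = ∏ i ∈ J, α i = α_J ≠ 0`. The
`Q` with the property form a subgroup `Am` (`map_add`, `smul_add`). For `Q = some X Y` in `Am` and every `σ`:
`σ X = X` and `σ Y = chi x σ J * Y` (`chi_or`; the negative of the point is `(X, -Y)` because `a₁ = a₃ = 0`). So `X` is in the image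
of `F` and `Y = algebraMap F F' c * ρ` (`MQx.mem_chi`), and `c ^ 2 * α_J = X³ + a₂ X² + a₄ X`. The point
`(α_J * X, α_J ^ 2 * c)` lies on the twist, so `Am` is finite and `Q` has finite order; so `X ∈ X` by `hX`. If `c ≠ 0` then
`β = c ^ 2 * α_J ≠ 0` and `α_J * β = (c * α_J) ^ 2`, a contradiction to `hB`. So `Y = 0` and `Q = -Q`. -/
theorem mq_point (W : WeierstrassCurve F) (h1 : W.a₁ = 0) (h3 : W.a₃ = 0) (h6 : W.a₆ = 0)
    (hΔ : W.Δ ≠ 0) (X : Finset F)
    (hX : ∀ (x₀ : F) (y : F') (h : (W.baseChange F').toAffine.Nonsingular (algebraMap F F' x₀) y),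
      IsOfFinAddOrder (Affine.Point.some _ _ h) → x₀ ∈ X)
    (h : MQx α x s) (hα : ∀ i ∈ s, α i ≠ 0) {J : Finset (Fin r)} (hJ : J ⊆ s)
    (hfin : Finite (⟨0, (∏ i ∈ J, α i) * W.a₂, 0, (∏ i ∈ J, α i) ^ 2 * W.a₄, 0⟩ :
      WeierstrassCurve F).toAffine.Point)
    (hB : ∀ x₀ ∈ X, x₀ ^ 3 + W.a₂ * x₀ ^ 2 + W.a₄ * x₀ ≠ 0 →
      ¬ IsSquare ((∏ i ∈ J, α i) * (x₀ ^ 3 + W.a₂ * x₀ ^ 2 + W.a₄ * x₀)))
    (Q : (W.baseChange F').toAffine.Point)
    (hQ : ∀ σ : F' ≃ₐ[F] F', Affine.Point.map (W' := W) (σ : F' →ₐ[F] F') Q = chi x σ J • Q) :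
    2 • Q = 0 := by
  have hg := h.galois
  obtain ⟨a, ha⟩ : ∃ a : F, a = ∏ i ∈ J, α i := ⟨_, rfl⟩
  obtain ⟨ρ, hρe⟩ : ∃ ρ : F', ρ = ∏ i ∈ J, x i := ⟨_, rfl⟩
  have ha0 : a ≠ 0 := by
    rw [ha]
    exact Finset.prod_ne_zero_iff.2 fun i hi => hα i (hJ hi)
  have hρ : ρ ^ 2 = algebraMap F F' a := by
    rw [hρe, ha, map_prod, ← Finset.prod_pow]
    exact Finset.prod_congr rfl fun i hi => h.sq i (hJ hi)
  rw [← ha] at hfin hB
  have ha1 : (W.baseChange F').toAffine.a₁ = 0 := by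
    change algebraMap F F' W.a₁ = 0
    rw [h1, map_zero]
  have ha3 : (W.baseChange F').toAffine.a₃ = 0 := by
    change algebraMap F F' W.a₃ = 0
    rw [h3, map_zero]
  have ha6 : (W.baseChange F').toAffine.a₆ = 0 := by
    change algebraMap F F' W.a₆ = 0
    rw [h6, map_zero]
  have ha2 : (W.baseChange F').toAffine.a₂ = algebraMap F F' W.a₂ := rfl
  have ha4 : (W.baseChange F').toAffine.a₄ = algebraMap F F' W.a₄ := rfl
  have hnegY : ∀ u v : F', (W.baseChange F').toAffine.negY u v = -v := by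
    intro u v
    rw [Affine.negY, ha1, ha3, zero_mul, sub_zero, sub_zero]
  have heq : ∀ u v : F', (W.baseChange F').toAffine.Nonsingular u v →
      v ^ 2 = u ^ 3 + algebraMap F F' W.a₂ * u ^ 2 + algebraMap F F' W.a₄ * u := by
    intro u v h
    have h4 := h.1
    rw [Affine.equation_iff, ha1, ha3, ha6, ha2, ha4] at h4
    linear_combination h4
  obtain ⟨Am, hAm⟩ : ∃ Am : AddSubgroup (W.baseChange F').toAffine.Point, ∀ Q, Q ∈ Am ↔
      ∀ σ : F' ≃ₐ[F] F', Affine.Point.map (W' := W) (σ : F' →ₐ[F] F') Q = chi x σ J • Q :=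
    ⟨{ carrier := {Q | ∀ σ : F' ≃ₐ[F] F', Affine.Point.map (W' := W) (σ : F' →ₐ[F] F') Q = chi x σ J • Q}
       add_mem' := fun {P Q} hP hQ σ => by rw [map_add, smul_add, hP σ, hQ σ]
       zero_mem' := fun σ => by rw [map_zero, smul_zero]
       neg_mem' := fun {P} hP σ => by rw [map_neg, smul_neg, hP σ] }, fun Q => Iff.rfl⟩
  have hAmc : ∀ u v h, Affine.Point.some u v h ∈ Am →
      ∃ x₀ c : F, u = algebraMap F F' x₀ ∧ v = algebraMap F F' c * ρ ∧
        c ^ 2 * a = x₀ ^ 3 + W.a₂ * x₀ ^ 2 + W.a₄ * x₀ := by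
    intro u v hh hQ
    rw [hAm] at hQ
    have h2 : ∀ σ : F' ≃ₐ[F] F', σ u = u ∧ σ v = (chi x σ J : F') * v := by
      intro σ
      obtain ⟨h', e⟩ := RT18_map W σ hh
      have h4 := hQ σ
      rw [e] at h4
      rcases chi_or (x := x) σ J with h5 | h5
      · rw [h5, one_smul, Affine.Point.some.injEq] at h4
        rw [h5, Int.cast_one, one_mul]
        exact h4
      · rw [h5, neg_one_smul, Affine.Point.neg_some, Affine.Point.some.injEq, hnegY] at h4
        rw [h5, Int.cast_neg, Int.cast_one, neg_one_mul]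
        exact h4
    have hu : u ∈ Set.range (algebraMap F F') := by
      rw [IsGalois.mem_range_algebraMap_iff_fixed]
      exact fun σ => (h2 σ).1
    obtain ⟨x₀, rfl⟩ := hu
    obtain ⟨c, hc⟩ := h.mem_chi hα hJ fun σ => (h2 σ).2
    rw [← hρe] at hc
    subst hc
    refine ⟨x₀, c, rfl, rfl, ?_⟩
    apply (algebraMap F F').injective
    have h4 := heq _ _ hh
    rw [map_mul, map_pow, ← hρ, map_add, map_add, map_mul, map_mul, map_pow, map_pow]
    linear_combination h4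
  have hAmf : Finite Am := by
    let V : WeierstrassCurve F := ⟨0, a * W.a₂, 0, a ^ 2 * W.a₄, 0⟩
    have hVΔ : V.Δ ≠ 0 := by
      have h4 : V.Δ = a ^ 6 * W.Δ := by
        have h5 : W = ⟨0, W.a₂, 0, W.a₄, 0⟩ := WeierstrassCurve.ext h1 rfl h3 rfl h6
        rw [h5]
        simp only [V, WeierstrassCurve.Δ, WeierstrassCurve.b₂, WeierstrassCurve.b₄,
          WeierstrassCurve.b₆, WeierstrassCurve.b₈]
        ring
      rw [h4]
      exact mul_ne_zero (pow_ne_zero _ ha0) hΔ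
    have hfV : Finite V.toAffine.Point := hfin
    have key : ∀ Q : Am, ∃ R : V.toAffine.Point,
        (Q.1 = 0 ∧ R = 0) ∨ ∃ (x₀ c : F) (h : _) (h' : _),
          Q.1 = Affine.Point.some (algebraMap F F' x₀) (algebraMap F F' c * ρ) h ∧
            R = Affine.Point.some (a * x₀) (a ^ 2 * c) h' := by
      rintro ⟨Q, hQ⟩
      rcases Q with _ | ⟨u, v, h⟩
      · exact ⟨0, Or.inl ⟨rfl, rfl⟩⟩
      · obtain ⟨x₀, c, rfl, rfl, h4⟩ := hAmc u v h hQ
        have h5 : V.toAffine.Nonsingular (a * x₀) (a ^ 2 * c) := by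
          rw [← Affine.equation_iff_nonsingular_of_Δ_ne_zero hVΔ, Affine.equation_iff]
          show (a ^ 2 * c) ^ 2 + 0 * (a * x₀) * (a ^ 2 * c) + 0 * (a ^ 2 * c) =
            (a * x₀) ^ 3 + a * W.a₂ * (a * x₀) ^ 2 + a ^ 2 * W.a₄ * (a * x₀) + 0
          linear_combination a ^ 3 * h4
        exact ⟨Affine.Point.some _ _ h5, Or.inr ⟨x₀, c, h, h5, rfl, rfl⟩⟩
    choose f hf using key
    refine Finite.of_injective f ?_
    intro Q Q' hQQ
    apply Subtype.ext
    rcases hf Q with ⟨h4, h5⟩ | ⟨u, c, h, h', h4, h5⟩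
    · rcases hf Q' with ⟨h4', h5'⟩ | ⟨u', c', g, g', h4', h5'⟩
      · rw [h4, h4']
      · rw [h5, h5'] at hQQ
        cases hQQ
    · rcases hf Q' with ⟨h4', h5'⟩ | ⟨u', c', g, g', h4', h5'⟩
      · rw [h5, h5'] at hQQ
        cases hQQ
      · rw [h5, h5', Affine.Point.some.injEq] at hQQ
        have h6 : u = u' := mul_left_cancel₀ ha0 hQQ.1
        have h7 : c = c' := mul_left_cancel₀ (pow_ne_zero 2 ha0) hQQ.2
        rw [h4, h4', Affine.Point.some.injEq, h6, h7]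
        exact ⟨rfl, rfl⟩
  have hQm : Q ∈ Am := (hAm Q).2 hQ
  have hQfin : IsOfFinAddOrder Q := by
    have h4 : IsOfFinAddOrder (⟨Q, hQm⟩ : Am) := isOfFinAddOrder_of_finite _
    exact AddMonoidHom.isOfFinAddOrder Am.subtype h4
  rcases Q with _ | ⟨u, v, hh⟩
  · rfl
  · obtain ⟨x₀, c, rfl, rfl, h4⟩ := hAmc u v hh hQm
    have h5 : x₀ ∈ X := hX x₀ _ hh hQfin
    have h7 : c = 0 := by
      by_contra hc
      refine hB x₀ h5 ?_ ?_
      · rw [← h4]
        exact mul_ne_zero (pow_ne_zero 2 hc) ha0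
      · rw [← h4]
        exact ⟨c * a, by ring⟩
    subst h7
    rw [two_nsmul, add_eq_zero_iff_eq_neg, Affine.Point.neg_some, Affine.Point.some.injEq, hnegY]
    refine ⟨rfl, ?_⟩
    rw [map_zero, zero_mul, neg_zero]

open Classical in
/-- **RT18** (medium-). **A multiple of every point is over `F`.** Proof: `S σ = Affine.Point.map (W' := W) σ`,
`S 1 P = P` (`Affine.Point.map_id`), `S (σ * τ) P = S σ (S τ P)` (`Affine.Point.map_map`). By `MQx.sum_prJ`
`2 ^ s.card • P = ∑ J ∈ s.powerset, prJ x S J P`; multiply by `2`: for nonempty `J` `2 • prJ x S J P = 0` by `mq_point`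
with `MQx.act_prJ`, and `prJ x S ∅ P` is fixed by all `σ` (`chi x σ ∅ = 1`), so it is over `F` by `mq_fixed`
(`Finset.sum_eq_single ∅`). Multiply by `2 ^ (r - s.card)` (`Finset.card_le_univ`, `Fintype.card_fin`): `R` is
`2 ^ (r - s.card) * 2` times the point (`map_nsmul`). -/
theorem mq_pow (W : WeierstrassCurve F) (h1 : W.a₁ = 0) (h3 : W.a₃ = 0) (h6 : W.a₆ = 0)
    (hΔ : W.Δ ≠ 0) (X : Finset F)
    (hX : ∀ (x₀ : F) (y : F') (h : (W.baseChange F').toAffine.Nonsingular (algebraMap F F' x₀) y),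
      IsOfFinAddOrder (Affine.Point.some _ _ h) → x₀ ∈ X)
    (h : MQx α x s) (hα : ∀ i ∈ s, α i ≠ 0)
    (hfin : ∀ J ⊆ s, J.Nonempty → Finite (⟨0, (∏ i ∈ J, α i) * W.a₂, 0,
      (∏ i ∈ J, α i) ^ 2 * W.a₄, 0⟩ : WeierstrassCurve F).toAffine.Point)
    (hB : ∀ J ⊆ s, J.Nonempty → ∀ x₀ ∈ X, x₀ ^ 3 + W.a₂ * x₀ ^ 2 + W.a₄ * x₀ ≠ 0 →
      ¬ IsSquare ((∏ i ∈ J, α i) * (x₀ ^ 3 + W.a₂ * x₀ ^ 2 + W.a₄ * x₀)))
    (P : (W.baseChange F').toAffine.Point) : ∃ R : (W.baseChange F).toAffine.Point,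
      2 ^ (r + 1) • P = Affine.Point.map (W' := W) (Algebra.ofId F F') R := by
  obtain ⟨S, hS⟩ : ∃ S : (F' ≃ₐ[F] F') → (W.baseChange F').toAffine.Point →+ (W.baseChange F').toAffine.Point,
      ∀ σ Q, S σ Q = Affine.Point.map (W' := W) (σ : F' →ₐ[F] F') Q :=
    ⟨fun σ => Affine.Point.map (W' := W) (σ : F' →ₐ[F] F'), fun σ Q => rfl⟩
  have hS1 : ∀ Q, S 1 Q = Q := by
    intro Q
    rw [hS]
    rcases Q with _ | ⟨u, v, hh⟩
    · rfl
    · rfl
  have hm : ∀ σ τ Q, S (σ * τ) Q = S σ (S τ Q) := by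
    intro σ τ Q
    rw [hS, hS, hS]
    rcases Q with _ | ⟨u, v, hh⟩
    · rfl
    · rfl
  have hact : ∀ J ⊆ s, ∀ σ : F' ≃ₐ[F] F',
      Affine.Point.map (W' := W) (σ : F' →ₐ[F] F') (prJ x S J P) = chi x σ J • prJ x S J P := by
    intro J hJ σ
    have h4 := h.act_prJ hα S hm hJ σ P
    rw [hS] at h4
    exact h4
  obtain ⟨R, hR⟩ := mq_fixed W h (prJ x S ∅ P) (by
    intro σ
    have h4 := hact ∅ (Finset.empty_subset s) σ
    have h5 : chi x σ ∅ = 1 := by
      unfold chi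
      exact Finset.prod_empty
    rw [h5, one_smul] at h4
    exact h4)
  have hsum : 2 • ∑ J ∈ s.powerset, prJ x S J P = 2 • prJ x S ∅ P := by
    rw [Finset.smul_sum, Finset.sum_eq_single ∅]
    · intro J hJ hJ0
      have hJs := Finset.mem_powerset.1 hJ
      have hJn := Finset.nonempty_iff_ne_empty.2 hJ0
      exact mq_point W h1 h3 h6 hΔ X hX h hα hJs (hfin J hJs hJn) (hB J hJs hJn) _ (hact J hJs)
    · intro h4
      exact absurd (Finset.empty_mem_powerset s) h4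
  have hcard : s.card ≤ r := by
    have h4 := Finset.card_le_univ s
    rwa [Fintype.card_fin] at h4
  have hz : (2 ^ s.card : ℤ) • P = (2 ^ s.card : ℕ) • P := by
    rw [← natCast_zsmul, Nat.cast_pow, Nat.cast_ofNat]
  refine ⟨(2 ^ (r - s.card) * 2) • R, ?_⟩
  have h5 := h.sum_prJ S hS1 P
  rw [hz] at h5
  have h6' : 2 ^ (r + 1) = 2 ^ (r - s.card) * 2 * 2 ^ s.card := by
    rw [mul_assoc, mul_comm 2 (2 ^ s.card), ← mul_assoc, ← pow_add, Nat.sub_add_cancel hcard, pow_succ]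
  rw [h6', mul_smul, mul_smul, ← h5, hsum, hR, map_nsmul, mul_smul]

end

end Pool.Agent.Lib.MP_1a91b9_ntMQ
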