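import Pool.Agent.Lib.MP_1a91b9_ntC.NoNew

/-!
# MP_1a91b9_nt (random multiquadratic fields), block RT: division by powers of two
-/

set_option autoImplicit false

namespace Pool.Agent.Lib.MP_1a91b9_ntMQ

open WeierstrassCurve
open Pool.Agent.Lib.MP_1a91b9_ntC (nn_half_fin)

/-- **RT19a** (easy+). Proof: induction on `m` for all `R`. `m = 0`: `{P | 1 • P = R} = {R}`. `m + 1`:
`2 ^ (m + 1) • P = R` means that `Q = 2 • P` satisfies `2 ^ m • Q = R` (`pow_succ`, `mul_smul`), so the set is contained in the union of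
the finite sets `{P | 2 • P = Q}` (`nn_half_fin`, MP_1a91b9_ntC/NoNew.lean) over the finite set of the `Q`
(`Set.Finite.biUnion`). -/
theorem pow_half_fin {L : Type} [Field L] [DecidableEq L] [CharZero L] (V : WeierstrassCurve L)
    (h1 : V.a₁ = 0) (h3 : V.a₃ = 0) (m : ℕ) (R : V.toAffine.Point) :
    {P : V.toAffine.Point | 2 ^ m • P = R}.Finite := by
  induction m generalizing R with
  | zero =>
    refine (Set.finite_singleton R).subset ?_
    intro P hP
    have h : 2 ^ 0 • P = R := hP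
    rw [pow_zero, one_smul] at h
    exact h
  | succ m ih =>
    refine ((ih R).biUnion fun Q _ => nn_half_fin V h1 h3 Q).subset ?_
    intro P hP
    have h : 2 ^ (m + 1) • P = R := hP
    rw [pow_succ, mul_smul] at h
    rw [Set.mem_iUnion₂]
    exact ⟨2 • P, h, rfl⟩

/-- **RT19** (easy+). Finitely many classes modulo `n`. Proof: as `nn_reps` (MP_1a91b9_ntC/NoNew.lean) with `n` in the
place of `2`. -/
theorem reps_n {A : Type} [AddCommGroup A] (hA : AddGroup.FG A) {n : ℕ} (hn : n ≠ 0) :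
    ∃ s : Set A, s.Finite ∧ ∀ x : A, ∃ r ∈ s, ∃ y : A, x = r + n • y := by
  have h1 : Module.Finite ℤ A := Module.Finite.iff_addGroup_fg.2 hA
  let N : Submodule ℤ A := LinearMap.range (LinearMap.lsmul ℤ A (n : ℤ))
  have h2 : Finite (A ⧸ N) := by
    refine Module.finite_of_fg_torsion _ ?_
    intro x
    refine ⟨⟨(n : ℤ), mem_nonZeroDivisors_of_ne_zero (by exact_mod_cast hn)⟩, ?_⟩
    induction x using Submodule.Quotient.induction_on with
    | H x =>
      show (n : ℤ) • (Submodule.Quotient.mk x : A ⧸ N) = 0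
      rw [← Submodule.Quotient.mk_smul, Submodule.Quotient.mk_eq_zero]
      exact ⟨x, rfl⟩
  refine ⟨Set.range fun q : A ⧸ N => q.out, Set.finite_range _, fun x => ?_⟩
  refine ⟨_, ⟨Submodule.Quotient.mk x, rfl⟩, ?_⟩
  have h3 : (Submodule.Quotient.mk x : A ⧸ N) =
      Submodule.Quotient.mk (Submodule.Quotient.mk x : A ⧸ N).out := by
    exact (Quotient.out_eq _).symm
  rw [Submodule.Quotient.eq] at h3
  obtain ⟨y, hy⟩ := h3
  refine ⟨y, ?_⟩
  have hy' : (n : ℤ) • y = x - (Submodule.Quotient.mk x : A ⧸ N).out := hy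
  have h4 : n • y = x - (Submodule.Quotient.mk x : A ⧸ N).out := by
    rw [← hy', natCast_zsmul]
  rw [h4]
  abel

end Pool.Agent.Lib.MP_1a91b9_ntMQ
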