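import Pool.Agent.Lib.MP_1a91b9_ntC.ExF

/-!
# MP_1a91b9_nt (random multiquadratic fields), block RT: the elements of `F` which become squares
-/

set_option autoImplicit false

namespace Pool.Agent.Lib.MP_1a91b9_ntMQ

open NumberField
open Pool.Agent.Lib.MP_1a91b9_ntC (sq_of_adjoin assoc_of_sq)

/-- **RT20a** (medium-). **Finitely many classes of `F* / F*²` become squares in a finite extension.** Proof: `M / F` has
finitely many intermediate fields (`Field.finite_intermediateField_of_exists_primitive_element`,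
`Field.exists_primitive_element`, as in `fin_ex`, MP_1a91b9_ntC/ExF.lean). For every intermediate field `E` for which there
are `β ≠ 0` in `F` and `y` in `M` with `y ^ 2 = β`, `F⟮y⟯ = E` choose such a `β`; `B` is the finite set of the chosen `β`
(`Set.finite_range`, `Set.Finite.toFinset`; or take `β = 1` for the other `E`). If `y ^ 2 = α`, let `E = F⟮y⟯`, with the
chosen `β`, `y'`: `F⟮y⟯ = F⟮y'⟯`, so `sq_of_adjoin` gives `w` with `w ^ 2 = α * β`. -/
theorem ker_fin {F M : Type} [Field F] [CharZero F] [Field M] [Algebra F M]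
    [FiniteDimensional F M] : ∃ B : Finset F, (∀ β ∈ B, β ≠ 0) ∧
      ∀ α : F, α ≠ 0 → IsSquare (algebraMap F M α) → ∃ β ∈ B, IsSquare (α * β) := by
  classical
  have hfin : Finite (IntermediateField F M) :=
    Field.finite_intermediateField_of_exists_primitive_element F M
      (Field.exists_primitive_element F M)
  have hex : ∀ E : IntermediateField F M, ∃ b : F, b ≠ 0 ∧
      ((∃ (β : F) (y : M), β ≠ 0 ∧ y ^ 2 = algebraMap F M β ∧ IntermediateField.adjoin F {y} = E) →
        ∃ y : M, y ^ 2 = algebraMap F M b ∧ IntermediateField.adjoin F {y} = E) := by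
    intro E
    by_cases h : ∃ (β : F) (y : M), β ≠ 0 ∧ y ^ 2 = algebraMap F M β ∧
        IntermediateField.adjoin F {y} = E
    · obtain ⟨β, y, h1, h2, h3⟩ := h
      exact ⟨β, h1, fun _ => ⟨y, h2, h3⟩⟩
    · exact ⟨1, one_ne_zero, fun h' => absurd h' h⟩
  choose b hb0 hb using hex
  refine ⟨(Set.finite_range b).toFinset, ?_, ?_⟩
  · intro β hβ
    rw [Set.Finite.mem_toFinset] at hβ
    obtain ⟨E, rfl⟩ := hβ
    exact hb0 E
  · intro α hα hsq
    obtain ⟨y, hy⟩ := hsq
    have hy' : y ^ 2 = algebraMap F M α := by rw [hy, sq]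
    obtain ⟨y', h1, h2⟩ := hb (IntermediateField.adjoin F {y}) ⟨α, y, hα, hy', rfl⟩
    refine ⟨b (IntermediateField.adjoin F {y}), ?_, ?_⟩
    · rw [Set.Finite.mem_toFinset]
      exact ⟨_, rfl⟩
    · obtain ⟨w, hw⟩ := sq_of_adjoin hy' h1 h2.symm
      exact ⟨w, by rw [← hw, sq]⟩

/-- **RT20b** (medium-). Proof: for `u ∈ C` let `M = IntermediateField.adjoin F {u}`, which is finite over `F`
(`u` is algebraic, `IntermediateField.adjoin.finiteDimensional`); `B` is the union of the sets of `ker_fin` for `u ∈ C`. If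
`φ z = u ∈ C` and `y ∈ F⟮z⟯`, `y ^ 2 = α`, then `φ y ∈ F⟮φ z⟯ = M` (`IntermediateField.adjoin_map`,
`IntermediateField.mem_map`, `Set.image_singleton`) and `(φ y) ^ 2 = α`, so `α` is a square in `M`. -/
theorem ker_adj {F : Type} [Field F] [NumberField F] {C : Set (AlgebraicClosure F)}
    (hC : C.Finite) : ∃ B : Finset F, (∀ β ∈ B, β ≠ 0) ∧
      ∀ (F' : Type) [Field F'] [Algebra F F'] (φ : F' →ₐ[F] AlgebraicClosure F) (z : F') (α : F),
        φ z ∈ C → α ≠ 0 → (∃ y ∈ IntermediateField.adjoin F {z}, y ^ 2 = algebraMap F F' α) →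
        ∃ β ∈ B, IsSquare (α * β) := by
  classical
  have hM : ∀ u : AlgebraicClosure F, ∃ B : Finset F, (∀ β ∈ B, β ≠ 0) ∧
      ∀ α : F, α ≠ 0 → IsSquare (algebraMap F (IntermediateField.adjoin F {u}) α) →
        ∃ β ∈ B, IsSquare (α * β) := by
    intro u
    have h1 : FiniteDimensional F (IntermediateField.adjoin F {u}) :=
      IntermediateField.adjoin.finiteDimensional (Algebra.IsIntegral.isIntegral u)
    exact ker_fin
  choose B hB0 hB using hM
  refine ⟨hC.toFinset.biUnion B, ?_, ?_⟩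
  · intro β hβ
    rw [Finset.mem_biUnion] at hβ
    obtain ⟨u, _, hu⟩ := hβ
    exact hB0 u β hu
  · intro F' _ _ φ z α hz hα hy
    obtain ⟨y, hy1, hy2⟩ := hy
    have h1 : φ y ∈ IntermediateField.adjoin F {φ z} := by
      have h2 : φ y ∈ (IntermediateField.adjoin F {z}).map φ :=
        (IntermediateField.mem_map _).2 ⟨y, hy1, rfl⟩
      rw [IntermediateField.adjoin_map, Set.image_singleton] at h2
      exact h2
    obtain ⟨β, hβ, hs⟩ := hB (φ z) α hα
      ⟨⟨φ y, h1⟩, by
        apply Subtype.ext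
        change algebraMap F (AlgebraicClosure F) α = φ y * φ y
        rw [← sq, ← map_pow, hy2, AlgHom.commutes]⟩
    refine ⟨β, ?_, hs⟩
    rw [Finset.mem_biUnion]
    exact ⟨φ z, (Set.Finite.mem_toFinset hC).2 hz, hβ⟩

/-- **RT20** (medium-). **A bound for the exceptional elements.** Proof: as `fin_ex` (MP_1a91b9_ntC/ExF.lean), with
`C = Nat.card (IntermediateField K F) * Nat.card (𝓞 K)ˣ`. Let `S` be the set, `d₀ ∈ S` (otherwise `S = ∅`). For `d ∈ S`
there is `x d` with `x d ^ 2 = algebraMap K F (d * d₀)`. For every intermediate field `E` with a `d₁ ∈ S`,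
`K⟮x d₁⟯ = E`, the elements `d ∈ S` with `K⟮x d⟯ = E` are associated to `d₁` (the end of the proof of `fin_ex`:
`sq_of_adjoin`, `assoc_of_sq`). So `S` is contained in the range of a map from `IntermediateField K F × (𝓞 K)ˣ`
(`(E, w) ↦ d₁(E) * w`), finite of cardinality at most `C` (`Set.ncard_le_ncard`, `Set.ncard_le_card` or
`Nat.card_range_le` / `Finite.card_range_le`, `Nat.card_prod`). -/
theorem fin_exC (K F : Type) [Field K] [NumberField K] [IsPrincipalIdealRing (𝓞 K)]
    [Finite (𝓞 K)ˣ] [Field F] [NumberField F] [Algebra K F] : ∃ C : ℕ, ∀ γ : F, γ ≠ 0 →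
      {d : 𝓞 K | Squarefree d ∧ IsSquare (algebraMap K F (d : K) * γ)}.Finite ∧
      {d : 𝓞 K | Squarefree d ∧ IsSquare (algebraMap K F (d : K) * γ)}.ncard ≤ C := by
  classical
  have hfin : Finite (IntermediateField K F) := by
    have h1 : FiniteDimensional K F := FiniteDimensional.right ℚ K F
    exact Field.finite_intermediateField_of_exists_primitive_element K F
      (Field.exists_primitive_element K F)
  refine ⟨Nat.card (IntermediateField K F) * Nat.card (𝓞 K)ˣ, ?_⟩
  intro γ hγ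
  obtain ⟨S, hS⟩ : ∃ S, S =
    {d : 𝓞 K | Squarefree d ∧ IsSquare (algebraMap K F (d : K) * γ)} := ⟨_, rfl⟩
  rw [← hS]
  rcases S.eq_empty_or_nonempty with h0 | ⟨d₀, hd₀⟩
  · rw [h0]
    exact ⟨Set.finite_empty, by rw [Set.ncard_empty]; exact Nat.zero_le _⟩
  have hd₀' := hd₀
  rw [hS] at hd₀'
  obtain ⟨hsq₀, r₀, hr₀⟩ := hd₀'
  have hex : ∀ d ∈ S, ∃ x : F, x ^ 2 = algebraMap K F ((d : K) * (d₀ : K)) := by
    intro d hd
    rw [hS] at hd
    obtain ⟨_, r, hr⟩ := hd
    refine ⟨r * r₀ / γ, ?_⟩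
    rw [div_pow, div_eq_iff (pow_ne_zero 2 hγ)]
    have e : (r * r₀) ^ 2 = (r * r) * (r₀ * r₀) := by ring
    rw [e, ← hr, ← hr₀]
    simp only [map_mul]
    ring
  choose! x hx using hex
  have hrep : ∀ E : IntermediateField K F, ∃ e : 𝓞 K, (∃ d ∈ S, IntermediateField.adjoin K {x d} = E) →
      e ∈ S ∧ IntermediateField.adjoin K {x e} = E := by
    intro E
    by_cases h : ∃ d ∈ S, IntermediateField.adjoin K {x d} = E
    · obtain ⟨d, h1, h2⟩ := h
      exact ⟨d, fun _ => ⟨h1, h2⟩⟩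
    · exact ⟨0, fun h' => absurd h' h⟩
  choose e he using hrep
  have hsub : S ⊆ Set.range fun p : IntermediateField K F × (𝓞 K)ˣ => e p.1 * (p.2 : 𝓞 K) := by
    intro d hd
    obtain ⟨hd₁, hE⟩ := he (IntermediateField.adjoin K {x d}) ⟨d, hd, rfl⟩
    obtain ⟨d₁, hd₁e⟩ : ∃ d₁, d₁ = e (IntermediateField.adjoin K {x d}) := ⟨_, rfl⟩
    rw [← hd₁e] at hd₁ hE
    have hq₁ : Squarefree d₁ := by
      rw [hS] at hd₁
      exact hd₁.1
    have hq : Squarefree d := by
      rw [hS] at hd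
      exact hd.1
    have n₀ : (d₀ : K) ≠ 0 := by exact_mod_cast hsq₀.ne_zero
    obtain ⟨w, hw⟩ := sq_of_adjoin (hx d₁ hd₁) (hx d hd) hE
    have h2 : Associated d₁ d := by
      refine assoc_of_sq hq₁ hq (z := w / (d₀ : K)) ?_
      rw [div_pow, hw, div_eq_iff (pow_ne_zero 2 n₀)]
      ring
    obtain ⟨v, hv⟩ := h2
    refine ⟨(IntermediateField.adjoin K {x d}, v), ?_⟩
    change e (IntermediateField.adjoin K {x d}) * (v : 𝓞 K) = d
    rw [← hd₁e]
    exact hv
  refine ⟨(Set.finite_range _).subset hsub, ?_⟩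
  refine (Set.ncard_le_ncard hsub (Set.finite_range _)).trans ?_
  rw [← Nat.card_coe_set_eq, ← Nat.card_prod]
  exact Finite.card_range_le _

end Pool.Agent.Lib.MP_1a91b9_ntMQ
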