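import Pool.Agent.Lib.MP_1a91b9_ntMQ.RT18
import Pool.Agent.Lib.MP_1a91b9_ntMQ.RT19
import Pool.Agent.Lib.MP_1a91b9_ntMQ.RT20

/-!
# MP_1a91b9_nt (random multiquadratic fields), block RT: no new points over the multiquadratic extensions
-/

set_option autoImplicit false

namespace Pool.Agent.Lib.MP_1a91b9_ntMQ

open NumberField WeierstrassCurve
open Pool.Agent.Lib.MP_1a91b9_ntC (nnX nnY tors_x)

noncomputable section

open Classical in
/-- **RT21a** (medium). **No new points.** Proof: as `nn_main` (MP_1a91b9_ntC/NoNew.lean). `reps_n` for the Mordell-Weil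
group `W(F)` (`Pool.Agent.Lib.MP_17a322_nt.VJ.mordell_weil`) and `n = 2 ^ (r + 1)` gives a finite set `s₀`. Let
`Fb = AlgebraicClosure F` and `Qs = ⋃ r ∈ s₀, {P | 2 ^ (r + 1) • P = map r}` in `W(Fb)`, finite by `pow_half_fin`, and
`C = nnX '' Qs ∪ nnY '' Qs`. `B` is the union of the set of `ker_adj` for `C` and of the set of the
`x₀ ^ 3 + a₂ x₀ ^ 2 + a₄ x₀ ≠ 0` for `x₀ ∈ X`. Let `P` be a point over `F'`. `mq_pow` gives `R` with `2 ^ (r + 1) • P = map R`, and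
`R = r₀ + 2 ^ (r + 1) • T`, `r₀ ∈ s₀`. Let `P' = P - map T`; `2 ^ (r + 1) • P' = map r₀`. With `φ : F' →ₐ[F] Fb`
(`IsAlgClosed.lift`) `map φ P' ∈ Qs` (`map_nsmul`; the base changes as in `hmap` of `nn_main`). If `P' = some X Y` then
`φ X ∈ C` and `φ Y ∈ C`. An element `z` of `F'` with `φ z ∈ C` is in the image of `F`: otherwise `MQx.field_of` gives a nonempty
`J ⊆ s` and `y ∈ F⟮z⟯` with `y ^ 2 = ∏ i ∈ J, α i`, so by `ker_adj` there is `β ∈ B` such that `(∏ i ∈ J, α i) * β` is a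
square, a contradiction. So `P'` is over `F` (`Affine.baseChange_nonsingular`), and `P = P' + map T` too. -/
theorem nn_multi_main {F : Type} [Field F] [NumberField F] (W : WeierstrassCurve F)
    (h1 : W.a₁ = 0) (h3 : W.a₃ = 0) (h6 : W.a₆ = 0) (hΔ : W.Δ ≠ 0) (r : ℕ) (X : Finset F)
    (hX : ∀ (F' : Type) [Field F'] [NumberField F'] [Algebra F F'] (x : F) (y : F')
      (h : (W.baseChange F').toAffine.Nonsingular (algebraMap F F' x) y),
      IsOfFinAddOrder (Affine.Point.some _ _ h) → x ∈ X) :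
    ∃ B : Finset F, (∀ β ∈ B, β ≠ 0) ∧ ∀ (F' : Type) [Field F'] [NumberField F'] [Algebra F F']
      (α : Fin r → F) (x : Fin r → F') (s : Finset (Fin r)), MQx α x s → (∀ i ∈ s, α i ≠ 0) →
      (∀ J ⊆ s, J.Nonempty → Finite (⟨0, (∏ i ∈ J, α i) * W.a₂, 0, (∏ i ∈ J, α i) ^ 2 * W.a₄, 0⟩ :
        WeierstrassCurve F).toAffine.Point) →
      (∀ β ∈ B, ∀ J ⊆ s, J.Nonempty → ¬ IsSquare ((∏ i ∈ J, α i) * β)) →
      ∀ P : (W.baseChange F').toAffine.Point, ∃ Q : (W.baseChange F).toAffine.Point,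
        P = Affine.Point.map (W' := W) (Algebra.ofId F F') Q := by
  have hell : W.IsElliptic := ⟨isUnit_iff_ne_zero.2 hΔ⟩
  have hellF : (W.baseChange F).IsElliptic :=
    inferInstanceAs (W.map (algebraMap F F)).IsElliptic
  -- representatives
  obtain ⟨s₀, hs₀, hrep⟩ := reps_n (Pool.Agent.Lib.MP_17a322_nt.VJ.mordell_weil (W.baseChange F))
    (n := 2 ^ (r + 1)) (pow_ne_zero _ two_ne_zero)
  -- the division points over the algebraic closure
  let Fb := AlgebraicClosure F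
  have hb1 : (W.baseChange Fb).a₁ = 0 := by
    change algebraMap F Fb W.a₁ = 0
    rw [h1, map_zero]
  have hb3 : (W.baseChange Fb).a₃ = 0 := by
    change algebraMap F Fb W.a₃ = 0
    rw [h3, map_zero]
  let Qs : Set (W.baseChange Fb).toAffine.Point :=
    ⋃ q ∈ s₀, {P | 2 ^ (r + 1) • P = Affine.Point.map (W' := W) (Algebra.ofId F Fb) q}
  have hQs : Qs.Finite := hs₀.biUnion fun q _ => pow_half_fin _ hb1 hb3 _ _
  let C : Set Fb := (nnX '' Qs) ∪ (nnY '' Qs)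
  have hC : C.Finite := (hQs.image _).union (hQs.image _)
  obtain ⟨B₂, hB₂0, hB₂⟩ := ker_adj hC
  let B1 : Set F := {β : F | β ≠ 0 ∧ ∃ x ∈ X, β = x ^ 3 + W.a₂ * x ^ 2 + W.a₄ * x}
  have hB1 : B1.Finite := by
    refine Set.Finite.subset (X.finite_toSet.image fun x => x ^ 3 + W.a₂ * x ^ 2 + W.a₄ * x) ?_
    rintro β ⟨_, x, hx, rfl⟩
    exact ⟨x, hx, rfl⟩
  refine ⟨B₂ ∪ hB1.toFinset, ?_, ?_⟩
  · intro β hβ
    rw [Finset.mem_union, Set.Finite.mem_toFinset] at hβ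
    rcases hβ with hβ | hβ
    · exact hB₂0 β hβ
    · exact hβ.1
  intro F' _ _ _ α x s h hα hfin hB P
  have hB1' : ∀ J ⊆ s, J.Nonempty → ∀ x₀ ∈ X, x₀ ^ 3 + W.a₂ * x₀ ^ 2 + W.a₄ * x₀ ≠ 0 →
      ¬ IsSquare ((∏ i ∈ J, α i) * (x₀ ^ 3 + W.a₂ * x₀ ^ 2 + W.a₄ * x₀)) := by
    intro J hJ hJn x₀ hx₀ h0
    refine hB _ ?_ J hJ hJn
    rw [Finset.mem_union, Set.Finite.mem_toFinset]
    exact Or.inr ⟨h0, x₀, hx₀, rfl⟩
  obtain ⟨R, hR⟩ := mq_pow W h1 h3 h6 hΔ X (fun x₀ y h hf => hX F' x₀ y h hf) h hα hfin hB1' P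
  obtain ⟨r₀, hr₀, T, hT⟩ := hrep R
  obtain ⟨P', hP'⟩ : ∃ P', P' = P - Affine.Point.map (W' := W) (Algebra.ofId F F') T := ⟨_, rfl⟩
  have h2P' : 2 ^ (r + 1) • P' = Affine.Point.map (W' := W) (Algebra.ofId F F') r₀ := by
    rw [hP', smul_sub, hR, hT, map_add, map_nsmul]
    abel
  -- into the algebraic closure
  let φ : F' →ₐ[F] Fb := IsAlgClosed.lift
  have m1 : Affine.Point.map (W' := W) φ P' ∈ Qs := by
    refine Set.mem_biUnion hr₀ ?_
    show 2 ^ (r + 1) • Affine.Point.map (W' := W) φ P' = _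
    rw [← map_nsmul, h2P']
    rcases r₀ with _ | ⟨x, y, h⟩
    · rfl
    · change Affine.Point.some _ _ _ = Affine.Point.some _ _ _
      rw [Affine.Point.some.injEq]
      exact ⟨φ.commutes x, φ.commutes y⟩
  have hmem : ∀ z : F', φ z ∈ C → ∃ c : F, algebraMap F F' c = z := by
    intro z hz
    by_contra hcon
    obtain ⟨J, hJ, hJn, y, hy, hy2⟩ := h.field_of hα hcon
    have h0 : ∏ i ∈ J, α i ≠ 0 := Finset.prod_ne_zero_iff.2 fun i hi => hα i (hJ hi)
    obtain ⟨β, hβ, hsq⟩ := hB₂ F' φ z _ hz h0 ⟨y, hy, hy2⟩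
    exact hB β (Finset.mem_union_left _ hβ) J hJ hJn hsq
  have hQ : ∃ Q' : (W.baseChange F).toAffine.Point,
      P' = Affine.Point.map (W' := W) (Algebra.ofId F F') Q' := by
    clear hP' h2P'
    rcases P' with _ | ⟨x', y', h'⟩
    · exact ⟨0, rfl⟩
    · obtain ⟨a, rfl⟩ := hmem x' (Or.inl ⟨_, m1, rfl⟩)
      obtain ⟨b, rfl⟩ := hmem y' (Or.inr ⟨_, m1, rfl⟩)
      exact ⟨Affine.Point.some a b ((Affine.baseChange_nonsingular W.toAffine
        (Algebra.ofId F F').injective _ _).mp h'), rfl⟩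
  obtain ⟨Q', hQ'⟩ := hQ
  refine ⟨Q' + T, ?_⟩
  rw [map_add, ← hQ', hP', sub_add_cancel]

/-- **RT21** (easy+). **No new points, for the equation.** Proof: as `no_new_of` and `no_new`
(MP_1a91b9_ntC/NoNew.lean) with `tors_x hE` and `nn_multi_main`. -/
theorem nn_multi {F : Type} [Field F] [NumberField F] {a b : F} (hE : b * (a ^ 2 - 4 * b) ≠ 0)
    (r : ℕ) :
    ∃ B : Finset F, (∀ β ∈ B, β ≠ 0) ∧ ∀ (F' : Type) [Field F'] [NumberField F'] [Algebra F F']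
      (α : Fin r → F) (x : Fin r → F') (s : Finset (Fin r)), MQx α x s → (∀ i ∈ s, α i ≠ 0) →
      (∀ J ⊆ s, J.Nonempty → Finite (⟨0, (∏ i ∈ J, α i) * a, 0, (∏ i ∈ J, α i) ^ 2 * b, 0⟩ :
        WeierstrassCurve F).toAffine.Point) →
      (∀ β ∈ B, ∀ J ⊆ s, J.Nonempty → ¬ IsSquare ((∏ i ∈ J, α i) * β)) →
      ∀ x' y' : F', y' ^ 2 = x' ^ 3 + algebraMap F F' a * x' ^ 2 + algebraMap F F' b * x' →
        ∃ x₀ y₀ : F, algebraMap F F' x₀ = x' ∧ algebraMap F F' y₀ = y' := by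
  classical
  obtain ⟨X, hX⟩ := tors_x hE
  let W : WeierstrassCurve F := ⟨0, a, 0, b, 0⟩
  have hΔ : W.Δ ≠ 0 := by
    have h4 : W.Δ = 16 * b * (b * (a ^ 2 - 4 * b)) := by
      simp only [W, WeierstrassCurve.Δ, WeierstrassCurve.b₂, WeierstrassCurve.b₄,
        WeierstrassCurve.b₆, WeierstrassCurve.b₈]
      ring
    rw [h4]
    exact mul_ne_zero (mul_ne_zero (by norm_num) (left_ne_zero_of_mul hE)) hE
  obtain ⟨B, hB0, hB⟩ := nn_multi_main W rfl rfl rfl hΔ r X (by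
    intro F' _ _ _ x y h hfin
    have key : ∀ V : WeierstrassCurve F', V = ⟨0, algebraMap F F' a, 0, algebraMap F F' b, 0⟩ →
        ∀ h : V.toAffine.Nonsingular (algebraMap F F' x) y,
          IsOfFinAddOrder (Affine.Point.some _ _ h) → x ∈ X := by
      rintro _ rfl h hfin
      exact hX F' x y h hfin
    refine key (W.baseChange F') ?_ h hfin
    refine WeierstrassCurve.ext ?_ rfl ?_ rfl ?_
    · exact map_zero _
    · exact map_zero _
    · exact map_zero _)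
  refine ⟨B, hB0, ?_⟩
  intro F' _ _ _ α x s h hα hfin hsq x' y' heq
  have hΔ' : (W.baseChange F').Δ ≠ 0 := by
    change (W.map (algebraMap F F')).Δ ≠ 0
    rw [WeierstrassCurve.map_Δ]
    exact (_root_.map_ne_zero _).2 hΔ
  have hns : (W.baseChange F').toAffine.Nonsingular x' y' := by
    rw [← Affine.equation_iff_nonsingular_of_Δ_ne_zero hΔ', Affine.equation_iff]
    show y' ^ 2 + algebraMap F F' 0 * x' * y' + algebraMap F F' 0 * y' =
      x' ^ 3 + algebraMap F F' a * x' ^ 2 + algebraMap F F' b * x' + algebraMap F F' 0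
    rw [map_zero]
    linear_combination heq
  obtain ⟨Q, hQ⟩ := hB F' α x s h hα hfin hsq (Affine.Point.some x' y' hns)
  rcases Q with _ | ⟨x₀, y₀, h₀⟩
  · cases hQ
  · change Affine.Point.some _ _ _ = Affine.Point.some _ _ _ at hQ
    rw [Affine.Point.some.injEq] at hQ
    exact ⟨x₀, y₀, hQ.1.symm, hQ.2.symm⟩

end

end Pool.Agent.Lib.MP_1a91b9_ntMQ
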