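import Pool.Agent.Lib.MP_1a91b9_ntMQ.RT11

/-!
# MP_1a91b9_nt (random multiquadratic fields), block RT: the L-series and the rank over the towers
-/

set_option autoImplicit false
set_option linter.unusedSectionVars false

namespace Pool.Agent.Lib.MP_1a91b9_ntMQ

open NumberField WeierstrassCurve
open Pool.Agent.Lib.MP_1a91b9_nuI (HasJ)
open Pool.Agent.Lib.MP_1a91b9_ntL (crv)
open Pool.Agent.Lib.MP_1a91b9_ntW.J (RkZ twd twd_crv twd_hasJ)
open Pool.Agent.Lib.MP_1a91b9_ntC (QL Stb stb_step rk)

noncomputable section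

private theorem RT22_tw {K F F₁ : Type} [Field K] [Field F] [Field F₁] [Algebra K F] [Algebra F F₁] [Algebra K F₁]
    [IsScalarTower K F F₁] (a b e : K) : (tw a b F e).map (algebraMap F F₁) = tw a b F₁ e := by
  unfold tw
  ext
  · exact map_zero _
  · exact (IsScalarTower.algebraMap_apply K F F₁ _).symm
  · exact map_zero _
  · exact (IsScalarTower.algebraMap_apply K F F₁ _).symm
  · exact map_zero _

private theorem RT22_crv {K F F₁ : Type} [Field K] [Field F] [Field F₁] [Algebra K F] [Algebra F F₁] [Algebra K F₁]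
    [IsScalarTower K F F₁] (W : WeierstrassCurve K) :
    (W.map (algebraMap K F)).map (algebraMap F F₁) = W.map (algebraMap K F₁) := by
  rw [WeierstrassCurve.map_map, ← IsScalarTower.algebraMap_eq]

/-- **RT22a** (easy). Proof: multiply the entire functions; the ranks by `Eq.trans`. -/
theorem stb_trans {F F₁ F' : Type} [Field F] [NumberField F] [Field F₁] [NumberField F₁] [Field F']
    [NumberField F'] {W : WeierstrassCurve F} {W₁ : WeierstrassCurve F₁}
    {W' : WeierstrassCurve F'} (h : Stb W W₁) (h' : Stb W₁ W') : Stb W W' := by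
  obtain ⟨⟨g, g1, g2, g3⟩, hr⟩ := h
  obtain ⟨⟨g', g1', g2', g3'⟩, hr'⟩ := h'
  exact ⟨⟨fun s => g s * g' s, g1.mul g1', mul_ne_zero g2 g2', fun s hs => by
    rw [g3' s hs, g3 s hs, mul_assoc]⟩, hr'.trans hr⟩

/-- **RT22** (medium-). **The L-series and the rank over the towers.** Proof: `tow_ind` with
`C s F' = (∀ e : K, e ≠ 0 → (∀ J ⊆ s, RkZ (tw a b F (e * ∏ i ∈ J, d i))) → RkZ ((tw a b F e).map (algebraMap F F'))) ∧
((∀ J ⊆ s, J.Nonempty → RkZ (tw a b F (∏ i ∈ J, d i))) → Stb ((crv a b).map (algebraMap K F))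
(((crv a b).map (algebraMap K F)).map (algebraMap F F')))`. The first part is the statement used in the proof of
`rkz_tower` (prove it in the same way by `rkz_step`, or from `rkz_tower` if the induction gives the roots). The second part,
`C ∅`: the algebra map is bijective: the ranks by `rk_bij` and the L-series as in the trivial case of `stb_step`
(or `stb_step` with `d = 1`, `x = 1`: then one needs `RkZ` of the curve; so use the trivial case of its proof). The step: `Stb`
for `F → F₁` from the induction, and `stb_step` for `F₁ → F'` and `d j`, with `RkZ (tw a b F₁ (d j))` from the first part with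
`e = d j` (`d j * ∏ i ∈ J, d i = ∏ i ∈ insert j J, d i`); `stb_trans`; composed algebras and `IsScalarTower` as in
`rkz_tower`. -/
theorem stb_tower {K : Type} [Field K] [NumberField K] {a b : K} (hE : b * (a ^ 2 - 4 * b) ≠ 0)
    (hQ : ∀ e : K, e ≠ 0 → QL (crv (e * a) (e ^ 2 * b))) (hQ1 : QL (crv a b)) {j : ℤ}
    (hj : HasJ (crv a b) j)
    {F F' : Type} [Field F] [NumberField F] [Algebra K F] [Field F'] [NumberField F'] [Algebra K F']
    [Algebra F F'] [IsScalarTower K F F'] {r : ℕ} {d : Fin r → K} (hd : ∀ i, d i ≠ 0)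
    {s : Finset (Fin r)} {x : Fin r → F'} (hx : MQx (fun i => algebraMap K F (d i)) x s)
    (h : ∀ J ⊆ s, J.Nonempty → RkZ (tw a b F (∏ i ∈ J, d i))) :
    Stb ((crv a b).map (algebraMap K F)) ((crv a b).map (algebraMap K F')) := by
  classical
  have hmain := tow_ind (fun i => algebraMap K F (d i))
    (fun s F' _ _ _ =>
      (∀ e : K, e ≠ 0 → (∀ J ⊆ s, RkZ (tw a b F (e * ∏ i ∈ J, d i))) → RkZ ((tw a b F e).map (algebraMap F F'))) ∧
      ((∀ J ⊆ s, J.Nonempty → RkZ (tw a b F (∏ i ∈ J, d i))) →
        Stb ((crv a b).map (algebraMap K F)) (((crv a b).map (algebraMap K F)).map (algebraMap F F'))))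
    (by
      intro F' _ _ _ hb
      refine ⟨fun e he h => ?_, fun _ => ?_⟩
      · let _ : Algebra K F' := ((algebraMap F F').comp (algebraMap K F)).toAlgebra
        have _ : IsScalarTower K F F' := IsScalarTower.of_algebraMap_eq fun _ => rfl
        have h1 := h ∅ (Finset.Subset.refl _)
        rw [Finset.prod_empty] at h1
        have hgen : IntermediateField.adjoin F {(1 : F')} = ⊤ := by
          rw [eq_top_iff]
          intro z _
          obtain ⟨y, rfl⟩ := hb.2 z
          exact IntermediateField.algebraMap_mem _ y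
        rw [RT22_tw]
        have h2 : RkZ (tw a b F e) := by
          rw [mul_one] at h1
          exact h1
        refine rkz_step hE hQ hj he one_ne_zero (x := (1 : F')) ?_ hgen h2 h1
        rw [map_one, one_pow]
      · refine ⟨⟨fun _ => 1, differentiable_const 1, one_ne_zero, fun s hs => ?_⟩,
          Pool.Agent.Lib.MP_1a91b9_ntC.rk_bij hb _⟩
        rw [mul_one]
        exact Pool.Agent.Lib.MP_1a91b9_ntI.ls_e_hasJ (RingEquiv.ofBijective (algebraMap F F') hb)
          (Pool.Agent.Lib.MP_1a91b9_ntW.J.hasJ_map _ hj) s)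
    (by
      intro s j₀ hj₀ F₁ F' _ _ _ _ _ _ _ _ y hy hgen ih
      obtain ⟨ih1, ih2⟩ := ih
      let _ : Algebra K F₁ := ((algebraMap F F₁).comp (algebraMap K F)).toAlgebra
      let _ : Algebra K F' := ((algebraMap F F').comp (algebraMap K F)).toAlgebra
      have _ : IsScalarTower K F F₁ := IsScalarTower.of_algebraMap_eq fun _ => rfl
      have _ : IsScalarTower K F F' := IsScalarTower.of_algebraMap_eq fun _ => rfl
      have _ : IsScalarTower K F₁ F' := IsScalarTower.of_algebraMap_eq fun z => by
        rw [IsScalarTower.algebraMap_apply K F F', IsScalarTower.algebraMap_apply K F F₁,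
          ← IsScalarTower.algebraMap_apply F F₁ F']
      have hy' : y ^ 2 = algebraMap K F' (d j₀) := hy
      have hins : ∀ J ⊆ s, ∏ i ∈ insert j₀ J, d i = d j₀ * ∏ i ∈ J, d i := fun J hJ =>
        Finset.prod_insert fun hmem => hj₀ (hJ hmem)
      have hsub : ∀ J ⊆ s, insert j₀ J ⊆ insert j₀ s := fun J hJ => Finset.insert_subset_insert _ hJ
      refine ⟨fun e he h => ?_, fun h => ?_⟩
      · have h1 : RkZ (tw a b F₁ e) := by
          rw [← RT22_tw (F := F)]
          exact ih1 e he fun J hJ => h J (hJ.trans (Finset.subset_insert _ _))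
        have h2 : RkZ (tw a b F₁ (e * d j₀)) := by
          rw [← RT22_tw (F := F)]
          refine ih1 (e * d j₀) (mul_ne_zero he (hd j₀)) fun J hJ => ?_
          have h3 := h (insert j₀ J) (hsub J hJ)
          rw [hins J hJ, ← mul_assoc] at h3
          exact h3
        rw [RT22_tw]
        exact rkz_step hE hQ hj he (hd j₀) hy' hgen h1 h2
      · have h1 : RkZ (tw a b F₁ (d j₀)) := by
          rw [← RT22_tw (F := F)]
          refine ih1 (d j₀) (hd j₀) fun J hJ => ?_
          have h3 := h (insert j₀ J) (hsub J hJ) (Finset.insert_nonempty _ _)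
          rw [hins J hJ] at h3
          exact h3
        have h2 := ih2 fun J hJ hJn => h J (hJ.trans (Finset.subset_insert _ _)) hJn
        have hy'' : y ^ 2 = algebraMap F₁ F' (algebraMap K F₁ (d j₀)) := by
          rw [hy', IsScalarTower.algebraMap_apply K F₁ F']
        have h3 : Stb ((crv a b).map (algebraMap K F₁)) (((crv a b).map (algebraMap K F₁)).map (algebraMap F₁ F')) :=
          stb_step hQ1 hj (hd j₀) hy'' hgen h1
        rw [RT22_crv] at h2 h3 ⊢
        exact stb_trans h2 h3)
    s F' x hx
  have h1 := hmain.2 h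
  rw [RT22_crv] at h1
  exact h1

end

end Pool.Agent.Lib.MP_1a91b9_ntMQ
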