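import Pool.Agent.Lib.MP_1a91b9_ntDV.T18
import Pool.Agent.Lib.MP_1a91b9_ntMQ.RT15
import Pool.Agent.Lib.MP_1a91b9_ntMQ.RT17
import Pool.Agent.Lib.MP_1a91b9_ntMQ.RT21
import Pool.Agent.Lib.MP_1a91b9_ntMQ.RT22

/-!
# MP_1a91b9_nt (random multiquadratic fields), block RT: the pointwise theorem
-/

set_option autoImplicit false

namespace Pool.Agent.Lib.MP_1a91b9_ntMQ

open NumberField WeierstrassCurve
open Pool.Agent.Lib.MP_1a91b9_nuI (HasJ)
open Pool.Agent.Lib.MP_1a91b9_ntL (crv)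
open Pool.Agent.Lib.MP_1a91b9_ntJ (TowP)
open Pool.Agent.Lib.MP_1a91b9_ntW.J (RkZ)
open Pool.Agent.Lib.MP_1a91b9_ntC (Stb NoNew StbN StbTw TowR QL ql_all stb_step star2 quad_gen)
open Pool.Agent.Lib.MP_1a91b9_ntDV (TwP)

noncomputable section

/-- The properties of `y² = x³ + a x² + b x` over the fields `F(√(e i) : i ∈ s)`: the degree, no new points, the
L-series and the rank, and the properties of the twists by the other `e j`. -/
def PM {K : Type} [Field K] [NumberField K] (a b : K) (F : Type) [Field F] [NumberField F]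
    [Algebra K F] {r : ℕ} (e : Fin r → K) : Prop :=
  ∀ (s : Finset (Fin r)) (F' : Type) [Field F'] [NumberField F'] [Algebra K F'] [Algebra F F']
    [IsScalarTower K F F'] (x : Fin r → F'), MQx (fun i => algebraMap K F (e i)) x s →
    Module.finrank F F' = 2 ^ s.card ∧ NoNew F ((crv a b).map (algebraMap K F')) ∧
    Stb ((crv a b).map (algebraMap K F)) ((crv a b).map (algebraMap K F')) ∧
    ∀ j, j ∉ s → TwP a b F' (e j)

/-- **RT23a** (easy+). One step of the tower. Proof: `stbN_step` (MP_1a91b9_ntC/StabD.lean) without its second part.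
For `F''`, `y` with `y ^ 2 = d`, `adjoin F' {y} = ⊤`: `Stb` by `stb_step`; no new points: the given function `hN`. -/
theorem stbN_of {K : Type} [Field K] {a b : K} (hQ : QL (crv a b)) {j : ℤ} (hj : HasJ (crv a b) j)
    {F' : Type} [Field F'] [NumberField F'] [Algebra K F'] {d : K} (hd : d ≠ 0)
    (hV : RkZ (⟨0, algebraMap K F' (d * a), 0, algebraMap K F' (d ^ 2 * b), 0⟩ :
      WeierstrassCurve F'))
    (hN : ∀ (F'' : Type) [Field F''] [NumberField F''] [Algebra F' F''] (y : F''),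
      y ^ 2 = algebraMap F' F'' (algebraMap K F' d) → IntermediateField.adjoin F' {y} = ⊤ →
      NoNew F' (((crv a b).map (algebraMap K F')).map (algebraMap F' F''))) : StbN a b F' d := by
  intro F'' _ _ _ y hy hgen
  exact ⟨stb_step hQ hj hd hy hgen hV, hN F'' y hy hgen⟩

/-- **RT23** (medium). **The pointwise theorem.** Proof. As in `dstab` (MP_1a91b9_ntDV/T18.lean): `D < 0`, `hb`, `hb'`,
`hJ : HasJ (crv a b) j`, `hW : CMK (crv a b)`, `hP`, `hQ1 = ql_all hK hW hP`, and for every `e ≠ 0` the curve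
`crv (e * a) (e ^ 2 * b)` has the same properties (`256 * ((e a) ^ 2 - 3 e ^ 2 b) ^ 3 = e ^ 6 * ..`), so
`hQ : ∀ e ≠ 0, QL (crv (e * a) (e ^ 2 * b))`. Let `B = insert 1 B₀`, `B₀` of `nn_multi hEF r` over `F`. Given `e`, `hR`, `hB`,
and `s`, `F'`, `x`, `hx`; `α i = algebraMap K F (e i)`, `∏ i ∈ J, α i = algebraMap K F (∏ i ∈ J, e i : 𝓞 K)` (`map_prod`).
(1) the degree: `mq_deg hx`, with `hB 1`. (2) no new points: `nn_multi` for `F'`, `α`, `x`, `s`; the twists over `F` by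
`∏ i ∈ J, e i` are finite by `(hR J).2` (`map_mul`, `map_pow`), and `y ^ 2 = x ^ 3 + ..` from `Equation` as in `stbN_step`.
(3) `stb_tower`. (4) Let `j ∉ s`. `RkZ (tw a b F' (e j))` by `rkz_tower`, because for `J ⊆ s`
`e j * ∏ i ∈ J, e i = ∏ i ∈ insert j J, e i` and `hR (insert j J)`. `StbN`: `stbN_of`; let `F''`, `y` be given, with the
composed algebras `K → F''` and `F → F''`; `MQx.insert` gives `MQx α x'' (insert j s)` for `F''` over `F`, so (2) for `insert j s` and `F''` gives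
that the points over `F''` are over `F`, so they are over `F'`. `hsq : ¬ IsSquare (algebraMap K F' (e j))`: `mq_sq hx`
gives `J ⊆ s` such that `α j * ∏ i ∈ J, α i` is a square, a contradiction to `hB 1 (insert j J)`. `TowP`:
`star2 hK hW hl (adj_tower ..) (e j ≠ 0)`, and `TowR`: `Pool.Agent.Lib.MP_1a91b9_ntC.Sh.tow_step hE hQ1 hJ hs hneg`, as in `dstab`. -/
theorem pm_of (K : Type) [Field K] [NumberField K] (hK : Module.finrank ℚ K = 2)
    (a b : K) (hE : b * (a ^ 2 - 4 * b) ≠ 0) (j D : ℤ)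
    (hjD : (j, D) ∈ Pool.Agent.Lib.MP_1a91b9_ntY.cmList)
    (hj : 256 * (a ^ 2 - 3 * b) ^ 3 = j * (b ^ 2 * (a ^ 2 - 4 * b))) (hD : ∃ s : K, s ^ 2 = D)
    (l : ℕ) (hl : l = 2 ∨ l = 4 ∧ ∃ i : K, i ^ 2 = -1)
    (F : Type) [Field F] [NumberField F] [Algebra K F]
    (hF : IntermediateField.adjoin K {x : F | ∃ c : K, x ^ l = algebraMap K F c} = ⊤) (r : ℕ) :
    ∃ B : Finset F, (∀ β ∈ B, β ≠ 0) ∧ ∀ e : Fin r → 𝓞 K, (∀ i, e i ≠ 0) →
      (∀ J : Finset (Fin r), J.Nonempty → RkZ (⟨0, algebraMap K F (((∏ i ∈ J, e i : 𝓞 K) : K) * a), 0,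
        algebraMap K F (((∏ i ∈ J, e i : 𝓞 K) : K) ^ 2 * b), 0⟩ : WeierstrassCurve F)) →
      (∀ β ∈ B, ∀ J : Finset (Fin r), J.Nonempty →
        ¬ IsSquare (algebraMap K F ((∏ i ∈ J, e i : 𝓞 K) : K) * β)) →
      PM a b F (fun i => (e i : K)) := by
  classical
  have hneg : D < 0 := by
    unfold Pool.Agent.Lib.MP_1a91b9_ntY.cmList at hjD
    simp only [List.mem_cons, Prod.mk.injEq, List.not_mem_nil, or_false] at hjD
    rcases hjD with ⟨-, rfl⟩ | ⟨-, rfl⟩ | ⟨-, rfl⟩ | ⟨-, rfl⟩ | ⟨-, rfl⟩ | ⟨-, rfl⟩ | ⟨-, rfl⟩ |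
      ⟨-, rfl⟩ | ⟨-, rfl⟩ | ⟨-, rfl⟩ | ⟨-, rfl⟩ | ⟨-, rfl⟩ | ⟨-, rfl⟩ <;> norm_num
  obtain ⟨s₀, hs₀⟩ := hD
  have hb : b ≠ 0 := left_ne_zero_of_mul hE
  have hb' : a ^ 2 - 4 * b ≠ 0 := right_ne_zero_of_mul hE
  have hJ : HasJ (crv a b) j := by
    refine Pool.Agent.Lib.MP_1a91b9_ntY.hasJ_crv ?_
    linear_combination 16 * hj
  have hW : Pool.Agent.Lib.MP_1a91b9_ntY.CMK (crv a b) := by
    refine ⟨?_, j, D, s₀, hjD, hs₀, hJ⟩
    rw [Pool.Agent.Lib.MP_1a91b9_ntY.crv_Δ]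
    exact mul_ne_zero (mul_ne_zero (by norm_num) (pow_ne_zero 2 hb)) hb'
  have hPt : ∀ a' b' : K, Pool.Agent.Lib.MP_1a91b9_ntY.Pt2 (crv a' b') := by
    intro a' b'
    refine ⟨0, ?_⟩
    unfold crv WeierstrassCurve.b₂ WeierstrassCurve.b₄ WeierstrassCurve.b₆
    ring
  have hQ1 : QL (crv a b) := ql_all hK hW (hPt a b)
  have hQ : ∀ e : K, e ≠ 0 → QL (crv (e * a) (e ^ 2 * b)) := by
    intro e he
    have hJe : HasJ (crv (e * a) (e ^ 2 * b)) j := by
      refine Pool.Agent.Lib.MP_1a91b9_ntY.hasJ_crv ?_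
      linear_combination 16 * e ^ 6 * hj
    refine ql_all hK ⟨?_, j, D, s₀, hjD, hs₀, hJe⟩ (hPt _ _)
    rw [Pool.Agent.Lib.MP_1a91b9_ntY.crv_Δ]
    refine mul_ne_zero (mul_ne_zero (by norm_num)
      (pow_ne_zero 2 (mul_ne_zero (pow_ne_zero 2 he) hb))) ?_
    have h1 : (e * a) ^ 2 - 4 * (e ^ 2 * b) = e ^ 2 * (a ^ 2 - 4 * b) := by ring
    rw [h1]
    exact mul_ne_zero (pow_ne_zero 2 he) hb'
  have hEF : algebraMap K F b * (algebraMap K F a ^ 2 - 4 * algebraMap K F b) ≠ 0 := by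
    have h1 := (map_ne_zero (algebraMap K F)).2 hE
    rwa [map_mul, map_sub, map_mul, map_pow, map_ofNat] at h1
  obtain ⟨B₀, hB0', hB'⟩ := nn_multi hEF r
  refine ⟨insert 1 B₀, fun β hβ => ?_, fun e he hR hB => ?_⟩
  · rw [Finset.mem_insert] at hβ
    rcases hβ with rfl | hβ
    · exact one_ne_zero
    · exact hB0' β hβ
  have he0 : ∀ i, (e i : K) ≠ 0 := fun i => by exact_mod_cast he i
  have hpr : ∀ J : Finset (Fin r), ((∏ i ∈ J, e i : 𝓞 K) : K) = ∏ i ∈ J, (e i : K) := fun J =>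
    map_prod (algebraMap (𝓞 K) K) e J
  have hprF : ∀ J : Finset (Fin r), algebraMap K F ((∏ i ∈ J, e i : 𝓞 K) : K) =
      ∏ i ∈ J, algebraMap K F (e i : K) := fun J => by
    rw [hpr J, map_prod]
  have hRk : ∀ J : Finset (Fin r), J.Nonempty → RkZ (tw a b F (∏ i ∈ J, (e i : K))) := by
    intro J hJn
    have h1 := hR J hJn
    rw [hpr J] at h1
    exact h1
  have hB1 : ∀ J : Finset (Fin r), J.Nonempty →
      ¬ IsSquare (∏ i ∈ J, algebraMap K F (e i : K)) := by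
    intro J hJn
    have h1 := hB 1 (Finset.mem_insert_self _ _) J hJn
    rwa [mul_one, hprF J] at h1
  have hNN : ∀ (s : Finset (Fin r)) (F' : Type) [Field F'] [NumberField F'] [Algebra F F']
      (x : Fin r → F'), MQx (fun i => algebraMap K F (e i : K)) x s → ∀ x' y' : F',
      y' ^ 2 = x' ^ 3 + algebraMap F F' (algebraMap K F a) * x' ^ 2 +
        algebraMap F F' (algebraMap K F b) * x' →
      ∃ x₀ y₀ : F, algebraMap F F' x₀ = x' ∧ algebraMap F F' y₀ = y' := by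
    intro s F' _ _ _ x hx
    refine hB' F' (fun i => algebraMap K F (e i : K)) x s hx
      (fun i _ => (map_ne_zero (algebraMap K F)).2 (he0 i)) ?_ ?_
    · intro J _ hJn
      have h1 := (hR J hJn).2
      rw [map_mul, map_mul, map_pow, hprF J] at h1
      exact h1
    · intro β hβ J _ hJn
      have h1 := hB β (Finset.mem_insert_of_mem hβ) J hJn
      rwa [hprF J] at h1
  intro s F' _ _ _ _ _ x hx
  have hKF : ∀ z : K, algebraMap K F' z = algebraMap F F' (algebraMap K F z) := fun z =>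
    IsScalarTower.algebraMap_apply K F F' z
  refine ⟨mq_deg hx fun J _ hJn => hB1 J hJn, ?_,
    stb_tower hE hQ hQ1 hJ he0 hx fun J _ hJn => hRk J hJn, ?_⟩
  · intro x' y' hxy
    refine hNN s F' x hx x' y' ?_
    rw [Pool.Agent.Lib.MP_1a91b9_ntC.crv_map] at hxy
    have h1 := (WeierstrassCurve.Affine.equation_iff _ _).1 hxy
    simp only [crv] at h1
    rw [← hKF a, ← hKF b]
    linear_combination h1
  · intro j' hj'
    have hins : ∀ J ⊆ s, (e j' : K) * ∏ i ∈ J, (e i : K) = ∏ i ∈ insert j' J, (e i : K) :=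
      fun J hJs => (Finset.prod_insert (f := fun i => (e i : K)) fun h => hj' (hJs h)).symm
    have hRj : RkZ (tw a b F' (e j' : K)) := by
      refine rkz_tower hE hQ hJ he0 hx (he0 j') fun J hJs => ?_
      rw [hins J hJs]
      exact hRk _ (Finset.insert_nonempty _ _)
    have hTow := star2 hK hW hl (adj_tower (hl.imp_right And.left) hF hx) (he j') hRj
    refine ⟨⟨stbN_of hQ1 hJ (he0 j') hRj ?_, ?_⟩, hTow⟩
    · intro F'' _ _ _ y hy hg
      let ia : Algebra F F'' := ((algebraMap F' F'').comp (algebraMap F F')).toAlgebra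
      have ib : IsScalarTower F F' F'' := IsScalarTower.of_algebraMap_eq fun _ => rfl
      have hFF : ∀ z : F, algebraMap F F'' z = algebraMap F' F'' (algebraMap F F' z) := fun _ => rfl
      have hy' : y ^ 2 = algebraMap F F'' ((fun i => algebraMap K F (e i : K)) j') := by
        rw [hy, hKF, hFF]
      have h2 := MQx.insert hx hj' hy' hg
      intro x' y' hxy
      rw [Pool.Agent.Lib.MP_1a91b9_ntC.crv_map, Pool.Agent.Lib.MP_1a91b9_ntC.crv_map] at hxy
      have h1 := (WeierstrassCurve.Affine.equation_iff _ _).1 hxy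
      simp only [crv] at h1
      rw [hKF a, hKF b] at h1
      obtain ⟨x₀, y₀, e1, e2⟩ := hNN _ F'' _ h2 x' y' (by
        rw [hFF, hFF]
        linear_combination h1)
      exact ⟨algebraMap F F' x₀, algebraMap F F' y₀, e1, e2⟩
    · refine Pool.Agent.Lib.MP_1a91b9_ntC.Sh.tow_step hE hQ1 hJ hs₀ hneg (he j') ?_ hTow
      intro hsq
      rw [hKF] at hsq
      obtain ⟨J, hJs, h1⟩ := mq_sq hx hsq
      refine hB1 (insert j' J) (Finset.insert_nonempty _ _) ?_
      rw [Finset.prod_insert fun h => hj' (hJs h)]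
      exact h1

end

end Pool.Agent.Lib.MP_1a91b9_ntMQ
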