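import Pool.Agent.Lib.MP_1a91b9_ntMQ.RT5
import Pool.Agent.Lib.MP_1a91b9_ntMQ.RT20
import Pool.Agent.Lib.MP_1a91b9_ntMQ.RT23

/-!
# MP_1a91b9_nt (random multiquadratic fields), block RT: the law for all the properties
-/

set_option autoImplicit false

namespace Pool.Agent.Lib.MP_1a91b9_ntMQ

open NumberField WeierstrassCurve
open Pool.Agent.Lib.MP_1a91b9_ntW.J (RkZ)

noncomputable section

/-- **RT25a** (medium-). **The exceptional tuples.** For a nonempty `J` and `i ∈ J` the number of the `x` which are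
exceptional as entry `i` is bounded. Proof: `C` of `fin_exC K F`. Choose `i ∈ J`. Let `d` be given. If `d k = 0` for some
`k ≠ i`, the set is empty (`Function.update_of_ne`). Otherwise let
`γ = algebraMap K F (δ i * ∏ k ∈ J.erase i, (δ k * d k)) * β ≠ 0`; then
`∏ k ∈ J, (δ k * update d i x k) = x * (δ i * ∏ k ∈ J.erase i, (δ k * d k))` (`Finset.mul_prod_erase`,
`Finset.prod_congr`), so the set is contained in the set of `fin_exC` for `γ` (`Set.Finite.subset`,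
`Set.ncard_le_ncard`). -/
theorem exc_bound (K F : Type) [Field K] [NumberField K] [IsPrincipalIdealRing (𝓞 K)]
    [Finite (𝓞 K)ˣ] [Field F] [NumberField F] [Algebra K F] {r : ℕ} {δ : Fin r → 𝓞 K}
    (hδ : ∀ i, δ i ≠ 0) : ∃ C : ℕ, ∀ (J : Finset (Fin r)) (β : F), J.Nonempty → β ≠ 0 →
      ∃ i : Fin r, ∀ d : Fin r → 𝓞 K,
        {x : 𝓞 K | Squarefree x ∧ (∀ k, Function.update d i x k ≠ 0) ∧
          IsSquare (algebraMap K F ((∏ k ∈ J, (δ k * Function.update d i x k) : 𝓞 K) : K) * β)}.Finite ∧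
        {x : 𝓞 K | Squarefree x ∧ (∀ k, Function.update d i x k ≠ 0) ∧
          IsSquare (algebraMap K F ((∏ k ∈ J, (δ k * Function.update d i x k) : 𝓞 K) : K) * β)}.ncard ≤ C := by
  obtain ⟨C, hC⟩ := fin_exC K F
  refine ⟨C, fun J β hJ hβ => ?_⟩
  obtain ⟨i, hi⟩ := hJ
  refine ⟨i, fun d => ?_⟩
  by_cases hd : ∀ k, k ≠ i → d k ≠ 0
  · obtain ⟨y, hy⟩ : ∃ y : 𝓞 K, y = δ i * ∏ k ∈ J.erase i, (δ k * d k) := ⟨_, rfl⟩
    have hy0 : y ≠ 0 := by
      rw [hy]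
      exact mul_ne_zero (hδ i) (Finset.prod_ne_zero_iff.2 fun k hk =>
        mul_ne_zero (hδ k) (hd k (Finset.ne_of_mem_erase hk)))
    have hyK : (y : K) ≠ 0 := by exact_mod_cast hy0
    have hγ : algebraMap K F (y : K) * β ≠ 0 := mul_ne_zero ((map_ne_zero (algebraMap K F)).2 hyK) hβ
    obtain ⟨h1, h2⟩ := hC _ hγ
    have hsub : {x : 𝓞 K | Squarefree x ∧ (∀ k, Function.update d i x k ≠ 0) ∧
          IsSquare (algebraMap K F ((∏ k ∈ J, (δ k * Function.update d i x k) : 𝓞 K) : K) * β)} ⊆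
        {x : 𝓞 K | Squarefree x ∧ IsSquare (algebraMap K F (x : K) * (algebraMap K F (y : K) * β))} := by
      rintro x ⟨hx1, -, hx3⟩
      refine ⟨hx1, ?_⟩
      have h4 : ∏ k ∈ J, (δ k * Function.update d i x k) = x * y := by
        have h5 : ∏ k ∈ J.erase i, (δ k * Function.update d i x k) = ∏ k ∈ J.erase i, (δ k * d k) :=
          Finset.prod_congr rfl fun k hk => by rw [Function.update_of_ne (Finset.ne_of_mem_erase hk)]
        rw [← Finset.mul_prod_erase J _ hi, Function.update_self, h5, hy]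
        ring
      have h6 : ((x * y : 𝓞 K) : K) = (x : K) * (y : K) := map_mul (algebraMap (𝓞 K) K) x y
      rw [h4, h6, map_mul, mul_assoc] at hx3
      exact hx3
    exact ⟨h1.subset hsub, (Set.ncard_le_ncard hsub h1).trans h2⟩
  · push Not at hd
    obtain ⟨k, hk1, hk2⟩ := hd
    have he : {x : 𝓞 K | Squarefree x ∧ (∀ k, Function.update d i x k ≠ 0) ∧
          IsSquare (algebraMap K F ((∏ k ∈ J, (δ k * Function.update d i x k) : 𝓞 K) : K) * β)} = ∅ := by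
      refine Set.eq_empty_of_forall_notMem fun x hx => ?_
      refine hx.2.1 k ?_
      rw [Function.update_of_ne hk1, hk2]
    rw [he, Set.ncard_empty]
    exact ⟨Set.finite_empty, Nat.zero_le _⟩

/-- **RT25** (medium-). **All the properties for the tuples of divisors.** Proof: as `dstab` (MP_1a91b9_ntDV/T18.lean):
`D < 0`, finite unit group (`finite_units`, `no_real`), principal ideals (`pid_of`). `B` of `pm_of`, `C` of
`exc_bound`. Apply `DivGI.exc` with `τ = Finset (Fin r) × F`,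
`s = (Finset.univ.filter Finset.Nonempty) ×ˢ B`, and
`Z (J, β) d = (∀ k, d k ≠ 0) ∧ IsSquare (algebraMap K F ((∏ k ∈ J, (δ k * d k) : 𝓞 K) : K) * β)`. `hfin`:
`Pool.Agent.Lib.MP_1a91b9_ntW.J.finite_norm_le` as in `dstab`. `hPQ`: for squarefree entries `d k ≠ 0`; if no `Z (J, β) d`
holds then `pm_of` applies to `e i = δ i * d i`: `∏ i ∈ J, (δ i * d i) = (∏ i ∈ J, δ i) * ∏ i ∈ J, d i` (`Finset.prod_mul_distrib`).
`hZ`: `exc_bound`. -/
theorem dstabI (K : Type) [Field K] [NumberField K] (hK : Module.finrank ℚ K = 2)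
    (a b : K) (hE : b * (a ^ 2 - 4 * b) ≠ 0) (j D : ℤ)
    (hjD : (j, D) ∈ Pool.Agent.Lib.MP_1a91b9_ntY.cmList)
    (hj : 256 * (a ^ 2 - 3 * b) ^ 3 = j * (b ^ 2 * (a ^ 2 - 4 * b))) (hD : ∃ s : K, s ^ 2 = D)
    (l : ℕ) (hl : l = 2 ∨ l = 4 ∧ ∃ i : K, i ^ 2 = -1)
    (F : Type) [Field F] [NumberField F] [Algebra K F]
    (hF : IntermediateField.adjoin K {x : F | ∃ c : K, x ^ l = algebraMap K F c} = ⊤) (r : ℕ)
    (δ : Fin r → 𝓞 K) (hδ : ∀ i, δ i ≠ 0) (m u : 𝓞 K) (c : ℝ)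
    (h : DivJ (𝓞 K) r m u (fun J => ∏ i ∈ J, δ i) (fun d => RkZ (⟨0, algebraMap K F (d * a), 0,
      algebraMap K F ((d : K) ^ 2 * b), 0⟩ : WeierstrassCurve F)) c) :
    DivGI (𝓞 K) r m u (fun d => PM a b F (fun i => ((δ i * d i : 𝓞 K) : K))) c := by
  classical
  have hneg : D < 0 := by
    have hjD' := hjD
    unfold Pool.Agent.Lib.MP_1a91b9_ntY.cmList at hjD'
    simp only [List.mem_cons, Prod.mk.injEq, List.not_mem_nil, or_false] at hjD'
    rcases hjD' with ⟨-, rfl⟩ | ⟨-, rfl⟩ | ⟨-, rfl⟩ | ⟨-, rfl⟩ | ⟨-, rfl⟩ | ⟨-, rfl⟩ | ⟨-, rfl⟩ |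
      ⟨-, rfl⟩ | ⟨-, rfl⟩ | ⟨-, rfl⟩ | ⟨-, rfl⟩ | ⟨-, rfl⟩ | ⟨-, rfl⟩ <;> norm_num
  obtain ⟨s, hs⟩ := id hD
  have hfu : Finite (𝓞 K)ˣ := Pool.Agent.Lib.MP_1a91b9_ntW.J.finite_units hK
    (Pool.Agent.Lib.MP_1a91b9_ntW.J.no_real hs hneg)
  have hb : b ≠ 0 := left_ne_zero_of_mul hE
  have hb' : a ^ 2 - 4 * b ≠ 0 := right_ne_zero_of_mul hE
  have hJ : Pool.Agent.Lib.MP_1a91b9_nuI.HasJ (Pool.Agent.Lib.MP_1a91b9_ntL.crv a b) j := by
    refine Pool.Agent.Lib.MP_1a91b9_ntY.hasJ_crv ?_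
    linear_combination 16 * hj
  have hW : Pool.Agent.Lib.MP_1a91b9_ntY.CMK (Pool.Agent.Lib.MP_1a91b9_ntL.crv a b) := by
    refine ⟨?_, j, D, s, hjD, hs, hJ⟩
    rw [Pool.Agent.Lib.MP_1a91b9_ntY.crv_Δ]
    exact mul_ne_zero (mul_ne_zero (by norm_num) (pow_ne_zero 2 hb)) hb'
  have hP : Pool.Agent.Lib.MP_1a91b9_ntY.Pt2 (Pool.Agent.Lib.MP_1a91b9_ntL.crv a b) := by
    refine ⟨0, ?_⟩
    unfold Pool.Agent.Lib.MP_1a91b9_ntL.crv WeierstrassCurve.b₂ WeierstrassCurve.b₄ WeierstrassCurve.b₆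
    ring
  have hpi : IsPrincipalIdealRing (𝓞 K) := Pool.Agent.Lib.MP_1a91b9_ntC.pid_of hK hW hP
  obtain ⟨B, hB0, hB⟩ := pm_of K hK a b hE j D hjD hj hD l hl F hF r
  obtain ⟨C, hC⟩ := exc_bound K F hδ
  refine DivGI.exc (τ := Finset (Fin r) × F) (fun X => ?_) h
    ((Finset.univ.filter fun J : Finset (Fin r) => J.Nonempty) ×ˢ B)
    (fun p d => (∀ k, d k ≠ 0) ∧
      IsSquare (algebraMap K F ((∏ k ∈ p.1, (δ k * d k) : 𝓞 K) : K) * p.2)) C ?_ ?_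
  · refine (Pool.Agent.Lib.MP_1a91b9_ntW.J.finite_norm_le (K := K) X).subset ?_
    rintro d ⟨h1, h2⟩
    exact ⟨h1.ne_zero, h2⟩
  · intro d hd hp
    by_cases hz : ∃ p ∈ (Finset.univ.filter fun J : Finset (Fin r) => J.Nonempty) ×ˢ B,
        (∀ k, d k ≠ 0) ∧ IsSquare (algebraMap K F ((∏ k ∈ p.1, (δ k * d k) : 𝓞 K) : K) * p.2)
    · exact Or.inr hz
    · refine Or.inl (hB (fun i => δ i * d i) (fun i => mul_ne_zero (hδ i) (hd i).ne_zero) ?_ ?_)
      · intro J hJ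
        rw [Finset.prod_mul_distrib]
        exact hp J hJ
      · intro β hβ J hJ hsq
        exact hz ⟨(J, β), Finset.mem_product.2 ⟨Finset.mem_filter.2 ⟨Finset.mem_univ _, hJ⟩, hβ⟩,
          fun k => (hd k).ne_zero, hsq⟩
  · intro p hp
    obtain ⟨hp1, hp2⟩ := Finset.mem_product.1 hp
    exact hC p.1 p.2 (Finset.mem_filter.1 hp1).2 (hB0 _ hp2)

end

end Pool.Agent.Lib.MP_1a91b9_ntMQ
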