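import Pool.Agent.Lib.MP_1a91b9_ntDV.T5
import Pool.Agent.Lib.MP_1a91b9_ntMQ.RT0

/-!
# MP_1a91b9_nt (random multiquadratic fields), block RT: transport along an isomorphism of fields
-/

set_option autoImplicit false
set_option linter.unusedSectionVars false

namespace Pool.Agent.Lib.MP_1a91b9_ntMQ

open NumberField
open Pool.Agent.Lib.MP_1a91b9_ntW.J (norm_mapRingEquiv squarefree_equiv)

noncomputable section

/-- **RT6a** (easy+). **Transport.** Proof: copy of `DivG.tr` (T5c, MP_1a91b9_ntDV/T5.lean). In `hc2` the type of the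
tuples `d : Fin r → 𝓞 K'` with `(∀ i, d i ∣ D) ∧ P (fun i => f (d i))` is equivalent to the type of the tuples over `𝓞 K`
by `(Equiv.refl _).arrowCongr f.toEquiv` or `Equiv.piCongrRight fun _ => f.toEquiv` (`subtypeEquiv`). -/
theorem DivGI.tr {K K' : Type} [Field K] [NumberField K] [Field K'] [NumberField K']
    (e : K' ≃+* K) {r : ℕ} {m u : 𝓞 K} {P : (Fin r → 𝓞 K) → Prop} {c : ℝ}
    (h : DivGI (𝓞 K') r ((RingOfIntegers.mapRingEquiv e).symm m)
      ((RingOfIntegers.mapRingEquiv e).symm u)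
      (fun d => P (fun i => RingOfIntegers.mapRingEquiv e (d i))) c) : DivGI (𝓞 K) r m u P c := by
  intro M ε hε
  filter_upwards [h M ε hε] with X hX
  have key : ∀ d : 𝓞 K', (Squarefree d ∧ (RingOfIntegers.mapRingEquiv e).symm m ∣
      d - (RingOfIntegers.mapRingEquiv e).symm u ∧ |Algebra.norm ℤ d| ≤ X) ↔
      (Squarefree (RingOfIntegers.mapRingEquiv e d) ∧ m ∣ RingOfIntegers.mapRingEquiv e d - u ∧
        |Algebra.norm ℤ (RingOfIntegers.mapRingEquiv e d)| ≤ X) := by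
    intro d
    rw [squarefree_equiv, norm_mapRingEquiv]
    refine and_congr_right fun _ => and_congr_left fun _ => ?_
    constructor
    · intro h
      have h1 := map_dvd (RingOfIntegers.mapRingEquiv e) h
      rwa [map_sub, RingEquiv.apply_symm_apply, RingEquiv.apply_symm_apply] at h1
    · intro h
      have h1 := map_dvd (RingOfIntegers.mapRingEquiv e).symm h
      rwa [map_sub, RingEquiv.symm_apply_apply] at h1
  have hdvd : ∀ d D : 𝓞 K', d ∣ D ↔
      RingOfIntegers.mapRingEquiv e d ∣ RingOfIntegers.mapRingEquiv e D := by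
    intro d D
    constructor
    · intro h
      exact map_dvd (RingOfIntegers.mapRingEquiv e) h
    · intro h
      have h1 := map_dvd (RingOfIntegers.mapRingEquiv e).symm h
      rwa [RingEquiv.symm_apply_apply, RingEquiv.symm_apply_apply] at h1
  have hc1 : ∀ D : 𝓞 K', Nat.card {d : 𝓞 K' // d ∣ D} =
      Nat.card {d : 𝓞 K // d ∣ RingOfIntegers.mapRingEquiv e D} := fun D =>
    Nat.card_congr ((RingOfIntegers.mapRingEquiv e).toEquiv.subtypeEquiv fun d => hdvd d D)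
  have hc2 : ∀ D : 𝓞 K', Nat.card {d : Fin r → 𝓞 K' // (∀ i, d i ∣ D) ∧
        P (fun i => RingOfIntegers.mapRingEquiv e (d i))} =
      Nat.card {d : Fin r → 𝓞 K // (∀ i, d i ∣ RingOfIntegers.mapRingEquiv e D) ∧ P d} := fun D =>
    Nat.card_congr ((Equiv.piCongrRight fun _ : Fin r =>
      (RingOfIntegers.mapRingEquiv e).toEquiv).subtypeEquiv fun d =>
      and_congr (forall_congr' fun i => hdvd (d i) D) Iff.rfl)
  have h1 : Nat.card {d : 𝓞 K' // Squarefree d ∧ (RingOfIntegers.mapRingEquiv e).symm m ∣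
      d - (RingOfIntegers.mapRingEquiv e).symm u ∧ |Algebra.norm ℤ d| ≤ X} =
      Nat.card {d : 𝓞 K // Squarefree d ∧ m ∣ d - u ∧ |Algebra.norm ℤ d| ≤ X} :=
    Nat.card_congr ((RingOfIntegers.mapRingEquiv e).toEquiv.subtypeEquiv fun d => key d)
  have h2 : Nat.card {D : 𝓞 K' // Squarefree D ∧ (RingOfIntegers.mapRingEquiv e).symm m ∣
      D - (RingOfIntegers.mapRingEquiv e).symm u ∧ |Algebra.norm ℤ D| ≤ X ∧
      M ≤ Nat.card {d : 𝓞 K' // d ∣ D} ∧
      (c - ε) * (Nat.card {d : 𝓞 K' // d ∣ D} : ℝ) ^ r ≤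
        Nat.card {d : Fin r → 𝓞 K' // (∀ i, d i ∣ D) ∧
          P (fun i => RingOfIntegers.mapRingEquiv e (d i))}} =
      Nat.card {D : 𝓞 K // Squarefree D ∧ m ∣ D - u ∧ |Algebra.norm ℤ D| ≤ X ∧
      M ≤ Nat.card {d : 𝓞 K // d ∣ D} ∧
      (c - ε) * (Nat.card {d : 𝓞 K // d ∣ D} : ℝ) ^ r ≤
        Nat.card {d : Fin r → 𝓞 K // (∀ i, d i ∣ D) ∧ P d}} := by
    refine Nat.card_congr ((RingOfIntegers.mapRingEquiv e).toEquiv.subtypeEquiv fun D => ?_)
    have h3 := key D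
    rw [hc1 D, hc2 D]
    constructor
    · rintro ⟨a, b, c, p⟩
      obtain ⟨a', b', c'⟩ := h3.1 ⟨a, b, c⟩
      exact ⟨a', b', c', p⟩
    · rintro ⟨a, b, c, p⟩
      obtain ⟨a', b', c'⟩ := h3.2 ⟨a, b, c⟩
      exact ⟨a', b', c', p⟩
  rw [h1, h2] at hX
  exact hX

/-- **RT6** (easy). Proof: `DivGI.tr`; with `f = RingOfIntegers.mapRingEquiv e` one has
`f (f.symm (δ J) * ∏ i ∈ J, d i) = δ J * ∏ i ∈ J, f (d i)` (`map_mul`, `map_prod`, `RingEquiv.apply_symm_apply`). -/
theorem DivJ.tr {K K' : Type} [Field K] [NumberField K] [Field K'] [NumberField K']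
    (e : K' ≃+* K) {r : ℕ} {m u : 𝓞 K} {δ : Finset (Fin r) → 𝓞 K} {P : 𝓞 K → Prop} {c : ℝ}
    (h : DivJ (𝓞 K') r ((RingOfIntegers.mapRingEquiv e).symm m)
      ((RingOfIntegers.mapRingEquiv e).symm u) (fun J => (RingOfIntegers.mapRingEquiv e).symm (δ J))
      (fun d => P (RingOfIntegers.mapRingEquiv e d)) c) : DivJ (𝓞 K) r m u δ P c := by
  refine DivGI.tr e ?_
  have h1 : (fun d : Fin r → 𝓞 K' => ∀ J : Finset (Fin r), J.Nonempty →
      P (RingOfIntegers.mapRingEquiv e ((RingOfIntegers.mapRingEquiv e).symm (δ J) * ∏ i ∈ J, d i))) =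
      fun d : Fin r → 𝓞 K' => ∀ J : Finset (Fin r), J.Nonempty →
        P (δ J * ∏ i ∈ J, RingOfIntegers.mapRingEquiv e (d i)) := by
    funext d
    refine propext (forall_congr' fun J => imp_congr_right fun _ => ?_)
    rw [map_mul, map_prod, RingEquiv.apply_symm_apply]
  unfold DivJ at h
  rw [h1] at h
  exact h

end

end Pool.Agent.Lib.MP_1a91b9_ntMQ
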