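import Pool.Agent.Lib.MP_1a91b9_ntDV.T20
import Pool.Agent.Lib.MP_1a91b9_ntMQ.RU11

/-!
# MP_1a91b9_nt (random multiquadratic fields, binomial form): the form of the result
-/

set_option autoImplicit false

namespace Pool.Agent.Lib.MP_1a91b9_ntMQ

open NumberField IsDedekindDomain WeierstrassCurve
open Pool.Agent.Lib.MP_1a91b9_ntL (crv)
open Pool.Agent.Lib.MP_1a91b9_ntW.J (RkZ)
open Pool.Agent.Lib.MP_1a91b9_ntZ (bn CB cb_two)

noncomputable section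

open Classical in
/-- **The law for the rank zero twists**, for the pairs `(j, D)` of the list `L`. -/
def StdI (L : List (ℤ × ℤ)) : Prop :=
  ∀ {K : Type} [Field K] [NumberField K]
    (_ : Module.finrank ℚ K = 2) (a b : K) (_ : b * (a ^ 2 - 4 * b) ≠ 0) (j D : ℤ)
    (_ : (j, D) ∈ L)
    (_ : 256 * (a ^ 2 - 3 * b) ^ 3 = j * (b ^ 2 * (a ^ 2 - 4 * b))) (_ : ∃ s : K, s ^ 2 = D)
    (l : ℕ) (_ : l = 2 ∨ l = 4 ∧ ∃ i : K, i ^ 2 = -1)
    (F : Type) [Field F] [NumberField F] [Algebra K F]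
    (_ : IntermediateField.adjoin K {x : F | ∃ c : K, x ^ l = algebraMap K F c} = ⊤) (r : ℕ)
    (Δ : Finset (Fin r → 𝓞 K)) (_ : ∀ δ ∈ Δ, ∀ i, δ i ≠ 0)
    (_ : ∀ δ ∈ Δ, ∀ δ' ∈ Δ, δ ≠ δ' → ∀ J : Finset (Fin r), J.Nonempty →
      ∀ e ∈ ({1, -1, b, -b} : Set K), ¬ ∃ x : F, x ^ 2 =
        algebraMap K F (e * (((∏ i ∈ J, δ i : 𝓞 K) : K) * ((∏ i ∈ J, δ' i : 𝓞 K) : K)))) (t : ℕ)
    (n : ℕ) (m u : 𝓞 K) (_ : m ∣ (2 : 𝓞 K) ^ n) (_ : ∀ p : 𝓞 K, Prime p → ¬ (p ^ 2 ∣ m ∧ p ^ 2 ∣ u))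
    (c : ℝ)
    (_ : c = if Prime (2 : 𝓞 K) then (if ∃ x : F, x ^ 2 = -1 then
        √((∏' i : ℕ, (1 + 1 / (2 : ℝ) ^ (2 * i + 1))⁻¹) / 2) else
        ∏' i : ℕ, (1 + 1 / (2 : ℝ) ^ (2 * i + 1))⁻¹) else
      if Squarefree (2 : 𝓞 K) then ∏' i : ℕ, (1 - 1 / (2 : ℝ) ^ (i + 1)) else
      ∏' i : ℕ, (1 + 1 / (2 : ℝ) ^ (i + 1))⁻¹),
    DivGI (𝓞 K) r m u (fun d => t ≤ (Δ.filter fun δ : Fin r → 𝓞 K =>
      ∀ J : Finset (Fin r), J.Nonempty → RkZ (⟨0,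
        algebraMap K F (((∏ i ∈ J, (δ i * d i) : 𝓞 K) : K) * a), 0,
        algebraMap K F (((∏ i ∈ J, (δ i * d i) : 𝓞 K) : K) ^ 2 * b), 0⟩ :
          WeierstrassCurve F)).card) (bn Δ.card t (c ^ ((2 ^ r - 1) * Module.finrank K F)))

end

end Pool.Agent.Lib.MP_1a91b9_ntMQ

namespace Pool.Agent.Lib.MP_1a91b9_ntMQ.Fin

open NumberField IsDedekindDomain WeierstrassCurve
open Pool.Agent.Lib.MP_1a91b9_ntL (crv)
open Pool.Agent.Lib.MP_1a91b9_ntW.J (RkZ)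
open Pool.Agent.Lib.MP_1a91b9_ntZ (bn CB cb_two)
open Pool.Agent.Lib.MP_1a91b9_ntDV.Fin (PropR propR_of cst)

noncomputable section

/-- The property of the tuple `e`. -/
def PropM {K : Type} [Field K] [NumberField K] (E : WeierstrassCurve K) (F : Type) [Field F]
    [NumberField F] [Algebra K F] {r : ℕ} (e : Fin r → K) : Prop :=
  ∀ (s : Finset (Fin r)) (F' : Type) [Field F'] [NumberField F'] [Algebra K F'] [Algebra F F']
    [IsScalarTower K F F'] (x : Fin r → F'), (∀ i ∈ s, x i ^ 2 = algebraMap K F' (e i)) →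
    IntermediateField.adjoin F (x '' (s : Set (Fin r))) = ⊤ →
    Module.finrank F F' = 2 ^ s.card ∧
    (∀ x' y' : F', (E.baseChange F').toAffine.Equation x' y' →
      ∃ x y : F, algebraMap F F' x = x' ∧ algebraMap F F' y = y') ∧
    (∃ g : ℂ → ℂ, Differentiable ℂ g ∧ g 1 ≠ 0 ∧ ∀ s : ℂ, 3 / 2 < s.re →
      (E.baseChange F').LSeries s = (E.baseChange F).LSeries s * g s) ∧
    ∀ j, j ∉ s → PropR E F' (e j)

/-- From the properties for the model. -/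
theorem propM_of {K : Type} [Field K] [NumberField K] (hK : Module.finrank ℚ K = 2)
    (E : WeierstrassCurve K) (a b : K) (hE : E = crv a b) (j D : ℤ)
    (hjD : (j, D) ∈ [(0, -3), (54000, -3), (-12288000, -3), (1728, -4), (287496, -4), (-3375, -7),
      (16581375, -7), (8000, -8), (-32768, -11), (-884736, -19), (-884736000, -43),
      (-147197952000, -67), (-262537412640768000, -163)])
    (hj : E.c₄ ^ 3 = j * E.Δ) (hD : ∃ s : K, s ^ 2 = D)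
    (F : Type) [Field F] [NumberField F] [Algebra K F] {r : ℕ} (e : Fin r → K)
    (h : PM a b F e) : PropM E F e := by
  intro s F' _ _ _ _ _ x hx hg
  have hx' : MQx (fun i => algebraMap K F (e i)) x s := by
    refine ⟨fun i hi => ?_, hg⟩
    rw [hx i hi, IsScalarTower.algebraMap_apply K F F']
  obtain ⟨h1, h2, h3, h4⟩ := h s F' x hx'
  subst hE
  exact ⟨h1, h2, h3.1, fun j' hj' => propR_of hK (crv a b) a b rfl j D hjD hj hD F' _ (h4 j' hj')⟩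

open Classical in
/-- **The result, binomial form**, from the law for the rank zero twists. -/
theorem fin_mqB {L : List (ℤ × ℤ)} (hL : ∀ p ∈ L, p ∈ Pool.Agent.Lib.MP_1a91b9_ntY.cmList)
    (hstd : StdI L)
    (K : Type) [Field K] [NumberField K] (hK : Module.finrank ℚ K = 2)
    (E : WeierstrassCurve K) (hE : E.a₁ = 0 ∧ E.a₃ = 0 ∧ E.a₆ = 0) (hΔ : E.Δ ≠ 0) (j D : ℤ)
    (hjD : (j, D) ∈ L)
    (hj : E.c₄ ^ 3 = j * E.Δ) (hD : ∃ s : K, s ^ 2 = D)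
    (l : ℕ) (hl : l = 2 ∨ l = 4 ∧ ∃ i : K, i ^ 2 = -1)
    (F : Type) [Field F] [NumberField F] [Algebra K F]
    (hF : IntermediateField.adjoin K {x : F | ∃ c : K, x ^ l = algebraMap K F c} = ⊤) (r : ℕ)
    (T : Set (Fin r → 𝓞 K)) (h0 : ∀ δ ∈ T, ∀ i, δ i ≠ 0)
    (hT : ∀ δ ∈ T, ∀ δ' ∈ T, δ ≠ δ' → ∀ J : Finset (Fin r), J.Nonempty →
      ∀ e ∈ ({1, -1, E.a₄, -E.a₄} : Set K), ∀ x : F, x ≠ 0 →
      x ^ 2 * algebraMap K F ((∏ i ∈ J, δ' i : 𝓞 K) : K) ≠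
        algebraMap K F (e * ((∏ i ∈ J, δ i : 𝓞 K) : K)))
    (n : ℕ) (m u : 𝓞 K) (hm : m ∣ 2 ^ n) (hu : ∀ q, Prime q → ¬ (q ^ 2 ∣ m ∧ q ^ 2 ∣ u)) (c : ℝ)
    (hc : c = cst K F) (t : ℕ) (v : ℝ)
    (hv : v = if T.Infinite then 1 else ∑ j ∈ Finset.Icc t T.ncard, (T.ncard.choose j : ℝ) *
      (c ^ ((2 ^ r - 1) * Module.finrank K F)) ^ j *
        (1 - c ^ ((2 ^ r - 1) * Module.finrank K F)) ^ (T.ncard - j))
    (ε : ℝ) (hε : 0 < ε) :
    ∀ᶠ X : ℝ in Filter.atTop, 1 - ε ≤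
      (Nat.card {A : 𝓞 K // Squarefree A ∧ m ∣ A - u ∧ |Algebra.norm ℤ A| ≤ X ∧
        (v - ε) * (Nat.card {d : 𝓞 K // d ∣ A} : ℝ) ^ r ≤
          Nat.card {d : Fin r → 𝓞 K // (∀ i, d i ∣ A) ∧
            t ≤ {δ ∈ T | PropM E F (fun i => ((δ i * d i : 𝓞 K) : K))}.encard}} : ℝ) /
        (Nat.card {A : 𝓞 K // Squarefree A ∧ m ∣ A - u ∧ |Algebra.norm ℤ A| ≤ X} : ℝ) := by
  unfold cst at hc
  have hjD' : (j, D) ∈ Pool.Agent.Lib.MP_1a91b9_ntY.cmList := hL _ hjD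
  obtain ⟨h1, h3, h6⟩ := hE
  obtain ⟨a, ha⟩ : ∃ a, a = E.a₂ := ⟨_, rfl⟩
  obtain ⟨b, hb⟩ : ∃ b, b = E.a₄ := ⟨_, rfl⟩
  have hE : E = crv a b := WeierstrassCurve.ext h1 ha.symm h3 hb.symm h6
  rw [← hb] at hT
  have hΔ' := hΔ
  have hj' := hj
  rw [hE] at hΔ' hj'
  rw [Pool.Agent.Lib.MP_1a91b9_ntY.crv_Δ] at hΔ' hj'
  rw [Pool.Agent.Lib.MP_1a91b9_ntY.crv_c₄] at hj'
  have hE' : b * (a ^ 2 - 4 * b) ≠ 0 := by
    intro h
    refine hΔ' ?_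
    linear_combination 16 * b * h
  have hj2 : 256 * (a ^ 2 - 3 * b) ^ 3 = j * (b ^ 2 * (a ^ 2 - 4 * b)) := by
    have h16 : (16 : K) ≠ 0 := by norm_num
    refine mul_left_cancel₀ h16 ?_
    linear_combination hj'
  have hb0 : b ≠ 0 := left_ne_zero_of_mul hE'
  have hneg : D < 0 := by
    have h7 := hjD'
    unfold Pool.Agent.Lib.MP_1a91b9_ntY.cmList at h7
    simp only [List.mem_cons, Prod.mk.injEq, List.not_mem_nil, or_false] at h7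
    rcases h7 with ⟨-, rfl⟩ | ⟨-, rfl⟩ | ⟨-, rfl⟩ | ⟨-, rfl⟩ | ⟨-, rfl⟩ | ⟨-, rfl⟩ | ⟨-, rfl⟩ |
      ⟨-, rfl⟩ | ⟨-, rfl⟩ | ⟨-, rfl⟩ | ⟨-, rfl⟩ | ⟨-, rfl⟩ | ⟨-, rfl⟩ <;> norm_num
  have hfu : Finite (𝓞 K)ˣ := by
    obtain ⟨s, hs⟩ := hD
    exact Pool.Agent.Lib.MP_1a91b9_ntW.J.finite_units hK
      (Pool.Agent.Lib.MP_1a91b9_ntW.J.no_real hs hneg)
  have hfin : ∀ X : ℝ, {D : 𝓞 K | Squarefree D ∧ |Algebra.norm ℤ D| ≤ X}.Finite := by
    intro X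
    refine (Pool.Agent.Lib.MP_1a91b9_ntW.J.finite_norm_le (K := K) X).subset ?_
    rintro d ⟨h1, h2⟩
    exact ⟨h1.ne_zero, h2⟩
  have hcb : CB (c ^ ((2 ^ r - 1) * Module.finrank K F)) := (cb_two hc).pow _
  have key : ∀ S : Finset (Fin r → 𝓞 K), (S : Set (Fin r → 𝓞 K)) ⊆ T →
      DivGI (𝓞 K) r m u (fun d => t ≤ (S.filter fun δ : Fin r → 𝓞 K =>
        PropM E F (fun i => ((δ i * d i : 𝓞 K) : K))).card)
        (bn S.card t (c ^ ((2 ^ r - 1) * Module.finrank K F))) := by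
    intro S hS
    have h := hstd hK a b hE' j D hjD hj2 hD l hl F hF r S
      (fun δ hδ => h0 δ (hS hδ)) (fun δ hδ δ' hδ' hne J hJ e he ⟨x, hx⟩ => by
        have he0 : e ≠ 0 := by
          simp only [Set.mem_insert_iff, Set.mem_singleton_iff] at he
          rcases he with rfl | rfl | rfl | rfl
          · exact one_ne_zero
          · exact neg_ne_zero.2 one_ne_zero
          · exact hb0
          · exact neg_ne_zero.2 hb0
        have hδ0 : ((∏ i ∈ J, δ i : 𝓞 K) : K) ≠ 0 := by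
          intro h
          exact Finset.prod_ne_zero_iff.2 (fun i _ => h0 δ (hS hδ) i)
            (by exact_mod_cast h : (∏ i ∈ J, δ i : 𝓞 K) = 0)
        have hδ0' : ((∏ i ∈ J, δ' i : 𝓞 K) : K) ≠ 0 := by
          intro h
          exact Finset.prod_ne_zero_iff.2 (fun i _ => h0 δ' (hS hδ') i)
            (by exact_mod_cast h : (∏ i ∈ J, δ' i : 𝓞 K) = 0)
        have hx0 : x ≠ 0 := by
          rintro rfl
          rw [zero_pow two_ne_zero, eq_comm, map_eq_zero] at hx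
          exact mul_ne_zero he0 (mul_ne_zero hδ0 hδ0') hx
        have hδF : algebraMap K F ((∏ i ∈ J, δ' i : 𝓞 K) : K) ≠ 0 := by rwa [map_ne_zero]
        refine hT δ (hS hδ) δ' (hS hδ') hne J hJ e he
          (x * (algebraMap K F ((∏ i ∈ J, δ' i : 𝓞 K) : K))⁻¹)
          (mul_ne_zero hx0 (inv_ne_zero hδF)) ?_
        rw [map_mul, map_mul] at hx
        rw [map_mul, mul_pow, hx]
        field_simp) t n m u hm hu c hc
    have h2 := dstabBI K hK a b hE' j D hjD' hj2 hD l hl F hF r S (fun δ hδ => h0 δ (hS hδ)) m u _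
      t h
    refine h2.mono hfin fun d _ h3 => h3.trans (Finset.card_le_card fun δ hδ => ?_)
    rw [Finset.mem_filter] at hδ ⊢
    exact ⟨hδ.1, propM_of hK E a b hE j D hjD' hj hD F _ hδ.2⟩
  have key' := set_divI hfin (Q := fun (δ d : Fin r → 𝓞 K) =>
    PropM E F (fun i => ((δ i * d i : 𝓞 K) : K))) (T := T) (t := t)
    hcb.1 hcb.2 (v := v) (by rw [hv, bn]) key
  filter_upwards [key' 0 ε hε] with X hX
  refine hX.trans (le_of_eq ?_)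
  congr 2
  refine Nat.card_congr (Equiv.subtypeEquivRight fun A => ?_)
  constructor
  · rintro ⟨h1, h2, h3, -, h4⟩
    exact ⟨h1, h2, h3, h4⟩
  · rintro ⟨h1, h2, h3, h4⟩
    exact ⟨h1, h2, h3, Nat.zero_le _, h4⟩

end

end Pool.Agent.Lib.MP_1a91b9_ntMQ.Fin
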