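import Pool.Agent.Lib.MP_1a91b9_ntB.S.StarB
import Pool.Agent.Lib.MP_1a91b9_ntMQ.RT6
import Pool.Agent.Lib.MP_1a91b9_ntMQ.UT2

/-!
# MP_1a91b9_nt (random multiquadratic fields, binomial form): finite sets of multipliers, transport
-/

set_option autoImplicit false

namespace Pool.Agent.Lib.MP_1a91b9_ntMQ

open NumberField WeierstrassCurve
open Pool.Agent.Lib.MP_1a91b9_ntW.J (RkZ Cls2)
open Pool.Agent.Lib.MP_1a91b9_ntZ (bn Atl SepF)
open Pool.Agent.Lib.MP_1a91b9_ntB (crF)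

noncomputable section

/-- `± x` times the product of the entries in `J` of two different tuples is not a square in `F`. -/
def SepUI {K : Type} [Field K] (F : Type) [Field F] [Algebra K F] (x : K) {r : ℕ}
    (Δ : Finset (Fin r → 𝓞 K)) : Prop :=
  ∀ δ ∈ Δ, ∀ δ' ∈ Δ, δ ≠ δ' → ∀ J : Finset (Fin r), J.Nonempty →
    ¬ IsSquare (algebraMap K F (x * (((∏ i ∈ J, δ i) * (∏ i ∈ J, δ' i) : 𝓞 K) : K))) ∧
    ¬ IsSquare (algebraMap K F (-(x * (((∏ i ∈ J, δ i) * (∏ i ∈ J, δ' i) : 𝓞 K) : K))))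

/-- The entries are not zero, and the tuples are independent over `F` for the curve `y² = x³ + a x² + b x`. -/
structure SepI {K : Type} [Field K] (F : Type) [Field F] [Algebra K F] (b : K) {r : ℕ}
    (Δ : Finset (Fin r → 𝓞 K)) : Prop where
  ne : ∀ δ ∈ Δ, ∀ i, δ i ≠ 0
  one : SepUI F (1 : K) Δ
  mul : SepUI F b Δ

theorem SepUI.congr {K : Type} [Field K] {F : Type} [Field F] [Algebra K F] {x y : K} {r : ℕ}
    {Δ : Finset (Fin r → 𝓞 K)} (h : SepUI F x Δ) {z : K} (hz : z ≠ 0)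
    (e : y = x * z ^ 2 ∨ y = -(x * z ^ 2)) : SepUI F y Δ := by
  have hz' : algebraMap K F z ≠ 0 := (map_ne_zero _).2 hz
  have key : ∀ w : K, IsSquare (algebraMap K F (w * z ^ 2)) → IsSquare (algebraMap K F w) := by
    rintro w ⟨v, hv⟩
    refine ⟨v / algebraMap K F z, ?_⟩
    rw [map_mul, map_pow] at hv
    field_simp
    rw [hv]
    ring
  intro δ hδ δ' hδ' hne J hJ
  obtain ⟨h1, h2⟩ := h δ hδ δ' hδ' hne J hJ
  rcases e with rfl | rfl
  · refine ⟨fun h3 => h1 (key _ ?_), fun h3 => h2 (key _ ?_)⟩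
    · rwa [mul_right_comm]
    · rwa [neg_mul, mul_right_comm]
  · refine ⟨fun h3 => h2 (key _ ?_), fun h3 => h1 (key _ ?_)⟩
    · rw [neg_mul, mul_right_comm]
      rwa [neg_mul] at h3
    · rw [mul_right_comm]
      rwa [neg_mul, neg_neg] at h3

theorem SepUI.of_eq {K : Type} [Field K] {F : Type} [Field F] [Algebra K F] {x y : K} {r : ℕ}
    {Δ : Finset (Fin r → 𝓞 K)} (h : SepUI F x Δ) {z : K} (hz : z ≠ 0)
    (e : y * z ^ 2 = x ∨ y * z ^ 2 = -x) : SepUI F y Δ := by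
  refine h.congr (inv_ne_zero hz) ?_
  rcases e with e | e
  · left
    rw [← e]
    field_simp
  · right
    rw [← neg_eq_iff_eq_neg.2 e]
    field_simp

/-- The rank is zero for the product of the entries in `J`, for every nonempty `J`. -/
def TwJ {K : Type} [Field K] (F : Type) [Field F] [NumberField F] [Algebra K F] (a b : K) {r : ℕ}
    (δ d : Fin r → 𝓞 K) : Prop :=
  ∀ J : Finset (Fin r), J.Nonempty → RkZ (crF F a b (∏ i ∈ J, (δ i * d i)))

open Classical in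
/-- The result for the multiples by the elements of finite sets of tuples, over the extensions generated by
`l`-th roots, for classes which may depend on the extension. -/
def DMBI (K : Type) [Field K] [NumberField K] (l : ℕ)
    (H : (F : Type) → [Field F] → 𝓞 K → 𝓞 K → Prop) (a b : K) (c : ℝ) : Prop :=
  ∀ (F : Type) [Field F] [NumberField F] [Algebra K F],
    IntermediateField.adjoin K {x : F | ∃ c : K, x ^ l = algebraMap K F c} = ⊤ →
    ∀ (r : ℕ) (Δ : Finset (Fin r → 𝓞 K)), SepI F b Δ → ∀ (t : ℕ) (m u : 𝓞 K), H F m u →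
    DivGI (𝓞 K) r m u (fun d => t ≤ (Δ.filter fun δ => TwJ F a b δ d).card)
      (bn Δ.card t (c ^ ((2 ^ r - 1) * Module.finrank K F)))

/-- the image of a finite set of tuples -/
def mapI {K K' : Type} [Field K] [Field K'] (e : K ≃+* K') {r : ℕ} (Δ : Finset (Fin r → 𝓞 K)) :
    Finset (Fin r → 𝓞 K') :=
  Δ.map (Equiv.piCongrRight fun _ : Fin r =>
    (RingOfIntegers.mapRingEquiv e).toEquiv).toEmbedding

theorem mem_mapI {K K' : Type} [Field K] [Field K'] (e : K ≃+* K') {r : ℕ}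
    {Δ : Finset (Fin r → 𝓞 K)} {x : Fin r → 𝓞 K'} :
    x ∈ mapI e Δ ↔ ∃ δ ∈ Δ, (fun i => RingOfIntegers.mapRingEquiv e (δ i)) = x := by
  unfold mapI
  rw [Finset.mem_map]
  rfl

theorem card_mapI {K K' : Type} [Field K] [Field K'] (e : K ≃+* K') {r : ℕ}
    (Δ : Finset (Fin r → 𝓞 K)) : (mapI e Δ).card = Δ.card := Finset.card_map _

open Classical in
theorem filter_mapI {K K' : Type} [Field K] [Field K'] (e : K ≃+* K') {r : ℕ}
    (Δ : Finset (Fin r → 𝓞 K)) (P : (Fin r → 𝓞 K') → Prop) :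
    ((mapI e Δ).filter P).card =
      (Δ.filter fun δ => P (fun i => RingOfIntegers.mapRingEquiv e (δ i))).card := by
  unfold mapI
  rw [Finset.filter_map, Finset.card_map]
  rfl

open Classical in
/-- **Transport of the result.** -/
theorem DMBI.tr {K K' : Type} [Field K] [NumberField K] [Field K'] [NumberField K']
    (e : K' ≃+* K) {l : ℕ} {H' : (F : Type) → [Field F] → 𝓞 K' → 𝓞 K' → Prop}
    {H : (F : Type) → [Field F] → 𝓞 K → 𝓞 K → Prop}
    (hH : ∀ (F : Type) [Field F] (m u : 𝓞 K), H F m u → H' F ((RingOfIntegers.mapRingEquiv e).symm m)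
      ((RingOfIntegers.mapRingEquiv e).symm u))
    {a b : K'} {c : ℝ} (h : DMBI K' l H' a b c) : DMBI K l H (e a) (e b) c := by
  intro F _ _ _ hF r Δ hΔ t m u hmu
  let _ : Algebra K' F := ((algebraMap K F).comp (e : K' →+* K)).toAlgebra
  have hal : ∀ y : K', algebraMap K' F y = algebraMap K F (e y) := fun _ => rfl
  have hF' : IntermediateField.adjoin K' {x : F | ∃ c : K', x ^ l = algebraMap K' F c} = ⊤ := by
    have hset : {x : F | ∃ c : K', x ^ l = algebraMap K' F c} =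
        {x : F | ∃ c : K, x ^ l = algebraMap K F c} := by
      ext x
      constructor
      · rintro ⟨c, hc⟩
        exact ⟨e c, hc⟩
      · rintro ⟨c, hc⟩
        refine ⟨e.symm c, ?_⟩
        rw [hal, e.apply_symm_apply, hc]
    rw [eq_top_iff]
    intro x _
    have hx : x ∈ IntermediateField.adjoin K {x : F | ∃ c : K, x ^ l = algebraMap K F c} := by
      rw [hF]
      exact IntermediateField.mem_top
    rw [hset]
    rw [← IntermediateField.mem_toSubfield, IntermediateField.adjoin_toSubfield] at hx ⊢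
    have hr : Set.range (algebraMap K' F) = Set.range (algebraMap K F) := by
      ext y
      constructor
      · rintro ⟨z, rfl⟩
        exact ⟨e z, rfl⟩
      · rintro ⟨z, rfl⟩
        exact ⟨e.symm z, by rw [hal, e.apply_symm_apply]⟩
    rw [hr]
    exact hx
  have hfin : Module.finrank K' F = Module.finrank K F := by
    have h1 : Module.finrank ℚ K' * Module.finrank K' F = Module.finrank ℚ F :=
      Module.finrank_mul_finrank ℚ K' F
    have h2 : Module.finrank ℚ K * Module.finrank K F = Module.finrank ℚ F :=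
      Module.finrank_mul_finrank ℚ K F
    have h3 : Module.finrank ℚ K' = Module.finrank ℚ K :=
      (RingEquiv.toRatAlgEquiv e).toLinearEquiv.finrank_eq
    rw [← h2, ← h3] at h1
    exact Nat.eq_of_mul_eq_mul_left Module.finrank_pos h1
  obtain ⟨e', he'⟩ : ∃ e' : K ≃+* K', e' = e.symm := ⟨_, rfl⟩
  have hre : ∀ x : 𝓞 K, RingOfIntegers.mapRingEquiv e (RingOfIntegers.mapRingEquiv e' x) = x := by
    intro x
    apply RingOfIntegers.ext
    rw [RingOfIntegers.mapRingEquiv_apply, RingOfIntegers.mapRingEquiv_apply, he',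
      e.apply_symm_apply]
  have hU : ∀ x : K', SepUI F (e x) Δ → SepUI F x (mapI e' Δ) := by
    intro x hx δ₁ h1 δ₂ h2 hne J hJ
    obtain ⟨δ, hδ, rfl⟩ := (mem_mapI e').1 h1
    obtain ⟨δ', hδ', rfl⟩ := (mem_mapI e').1 h2
    have hne' : δ ≠ δ' := fun h => hne (by rw [h])
    have h3 := hx δ hδ δ' hδ' hne' J hJ
    have e1 : e (x * (((∏ i ∈ J, RingOfIntegers.mapRingEquiv e' (δ i)) *
        (∏ i ∈ J, RingOfIntegers.mapRingEquiv e' (δ' i)) : 𝓞 K') : K')) =
        e x * (((∏ i ∈ J, δ i) * (∏ i ∈ J, δ' i) : 𝓞 K) : K) := by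
      rw [map_mul, ← map_prod, ← map_prod, ← map_mul (RingOfIntegers.mapRingEquiv e'),
        RingOfIntegers.mapRingEquiv_apply, he', e.apply_symm_apply]
    rw [hal, hal, map_neg e, e1]
    exact h3
  have hΔ' : SepI F b (mapI e' Δ) := by
    refine ⟨fun δ₁ h1 i h0 => ?_, hU 1 ?_, hU b hΔ.mul⟩
    · obtain ⟨δ, hδ, rfl⟩ := (mem_mapI e').1 h1
      exact hΔ.ne δ hδ i ((map_eq_zero_iff _ (RingOfIntegers.mapRingEquiv e').injective).1 h0)
    · rw [map_one]
      exact hΔ.one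
  have h1 := h F hF' r (mapI e' Δ) hΔ' t ((RingOfIntegers.mapRingEquiv e).symm m)
    ((RingOfIntegers.mapRingEquiv e).symm u) (hH F m u hmu)
  rw [hfin, card_mapI] at h1
  refine DivGI.tr e ?_
  have e2 : (fun d : Fin r → 𝓞 K' => t ≤ (Δ.filter fun δ =>
        TwJ F (e a) (e b) δ (fun i => RingOfIntegers.mapRingEquiv e (d i))).card) =
      fun d : Fin r → 𝓞 K' => t ≤ ((mapI e' Δ).filter fun δ => TwJ F a b δ d).card := by
    funext d
    rw [filter_mapI]
    have e3 : ∀ (δ : Fin r → 𝓞 K) (J : Finset (Fin r)),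
        crF F (e a) (e b) (∏ i ∈ J, (δ i * RingOfIntegers.mapRingEquiv e (d i))) =
        crF F a b (∏ i ∈ J, (RingOfIntegers.mapRingEquiv e' (δ i) * d i)) := by
      intro δ J
      have e4 : ((∏ i ∈ J, (δ i * RingOfIntegers.mapRingEquiv e (d i)) : 𝓞 K) : K) =
          e ((∏ i ∈ J, (RingOfIntegers.mapRingEquiv e' (δ i) * d i) : 𝓞 K') : K') := by
        rw [← RingOfIntegers.mapRingEquiv_apply, map_prod (RingOfIntegers.mapRingEquiv e)]
        refine congrArg (fun x : 𝓞 K => (x : K)) (Finset.prod_congr rfl fun i _ => ?_)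
        rw [map_mul (RingOfIntegers.mapRingEquiv e), hre]
      unfold crF
      rw [hal, hal, e4, map_mul e, map_mul e, map_pow e]
    refine congrArg (fun n : ℕ => t ≤ n) (congrArg Finset.card (Finset.filter_congr fun δ _ => ?_))
    unfold TwJ
    simp only [e3]
  rw [e2]
  exact h1

open Classical in
/-- **From families to finite sets.** -/
theorem DMBI.of_dbi {K : Type} [Field K] [NumberField K] {l : ℕ}
    {H : (F : Type) → [Field F] → 𝓞 K → 𝓞 K → Prop} {E : Set K} {a b : K} {c : ℝ}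
    (hE : ∀ e ∈ E, e = 1 ∨ e = -1 ∨ e = b ∨ e = -b) (h : DBI K l H E a b c) :
    DMBI K l H a b c := by
  intro F _ _ _ hF r Δ hΔ t m u hmu
  obtain ⟨g, hg⟩ : ∃ g : Fin Δ.card ≃ Δ, g = Δ.equivFin.symm := ⟨_, rfl⟩
  have hsep : ∀ J : Finset (Fin r), J.Nonempty → SepF K F E (fun i : Fin Δ.card =>
      ((∏ l ∈ J, (g i : Fin r → 𝓞 K) l : 𝓞 K) : K)) := by
    intro J hJ
    refine ⟨fun i h0 => ?_, fun i j hij e he => ?_⟩
    · obtain ⟨l, -, hl⟩ := Finset.prod_eq_zero_iff.1 (RingOfIntegers.coe_eq_zero_iff.1 h0)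
      exact hΔ.ne _ (g i).2 l hl
    have hne : ((g i : Fin r → 𝓞 K)) ≠ ((g j : Fin r → 𝓞 K)) :=
      fun h1 => hij (g.injective (Subtype.ext h1))
    have e1 : ((∏ l ∈ J, (g i : Fin r → 𝓞 K) l : 𝓞 K) : K) *
        ((∏ l ∈ J, (g j : Fin r → 𝓞 K) l : 𝓞 K) : K) =
        (((∏ l ∈ J, (g i : Fin r → 𝓞 K) l) * (∏ l ∈ J, (g j : Fin r → 𝓞 K) l) : 𝓞 K) : K) :=
      (map_mul (algebraMap (𝓞 K) K) _ _).symm
    rintro ⟨x, hx⟩
    have hx' : IsSquare (algebraMap K F (e * (((∏ l ∈ J, (g i : Fin r → 𝓞 K) l) *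
        (∏ l ∈ J, (g j : Fin r → 𝓞 K) l) : 𝓞 K) : K))) :=
      ⟨x, by rw [← e1, ← hx, sq]⟩
    have k1 := hΔ.one _ (g i).2 _ (g j).2 hne J hJ
    have k2 := hΔ.mul _ (g i).2 _ (g j).2 hne J hJ
    rcases hE e he with rfl | rfl | rfl | rfl
    · exact k1.1 hx'
    · rw [neg_one_mul] at hx'
      rw [one_mul] at k1
      exact k1.2 hx'
    · exact k2.1 hx'
    · rw [neg_mul] at hx'
      exact k2.2 hx'
  have h1 := h F hF m u hmu r Δ.card
    (fun i J => ((∏ l ∈ J, (g i : Fin r → 𝓞 K) l : 𝓞 K) : K)) hsep t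
  have e4 : ∀ (δ d : Fin r → 𝓞 K) (J : Finset (Fin r)),
      crF F a b (∏ i ∈ J, (δ i * d i)) = ⟨0, algebraMap K F (((∏ l ∈ J, δ l : 𝓞 K) : K) *
        ((∏ l ∈ J, d l : 𝓞 K) : K) * a), 0,
        algebraMap K F ((((∏ l ∈ J, δ l : 𝓞 K) : K) * ((∏ l ∈ J, d l : 𝓞 K) : K)) ^ 2 * b), 0⟩ := by
    intro δ d J
    unfold crF
    have e5 : ((∏ i ∈ J, (δ i * d i) : 𝓞 K) : K) = ((∏ l ∈ J, δ l : 𝓞 K) : K) *
        ((∏ l ∈ J, d l : 𝓞 K) : K) := by
      rw [Finset.prod_mul_distrib]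
      exact map_mul (algebraMap (𝓞 K) K) _ _
    rw [e5]
  have key : ∀ (d : Fin r → 𝓞 K) (P : Fin Δ.card → Prop), (∀ i, P i ↔ TwJ F a b (g i) d) →
      (t ≤ (Δ.filter fun δ => TwJ F a b δ d).card) = Atl t P := by
    intro d P hP
    unfold Atl
    refine congrArg (fun n : ℕ => t ≤ n) (Eq.symm ?_)
    refine Finset.card_bij (fun i _ => ((g i : Δ) : Fin r → 𝓞 K)) (fun i hi => ?_)
      (fun i _ j _ hij => ?_) (fun δ hδ => ?_)
    · rw [Finset.mem_filter] at hi ⊢
      exact ⟨(g i).2, (hP i).1 hi.2⟩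
    · exact g.injective (Subtype.ext hij)
    · rw [Finset.mem_filter] at hδ
      refine ⟨g.symm ⟨δ, hδ.1⟩, ?_, ?_⟩
      · rw [Finset.mem_filter]
        refine ⟨Finset.mem_univ _, (hP _).2 ?_⟩
        rw [Equiv.apply_symm_apply]
        exact hδ.2
      · rw [Equiv.apply_symm_apply]
  have e2 : (fun d : Fin r → 𝓞 K => t ≤ (Δ.filter fun δ => TwJ F a b δ d).card) =
      fun d : Fin r → 𝓞 K => Atl t fun i : Fin Δ.card => ∀ J : Finset (Fin r), J.Nonempty →
        RkZ (⟨0, algebraMap K F (((∏ l ∈ J, (g i : Fin r → 𝓞 K) l : 𝓞 K) : K) *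
          ((∏ l ∈ J, d l : 𝓞 K) : K) * a), 0,
          algebraMap K F ((((∏ l ∈ J, (g i : Fin r → 𝓞 K) l : 𝓞 K) : K) *
            ((∏ l ∈ J, d l : 𝓞 K) : K)) ^ 2 * b), 0⟩ : WeierstrassCurve F) := by
    funext d
    refine key d _ fun i => ?_
    unfold TwJ
    simp only [e4]
  rw [e2]
  exact h1

end

end Pool.Agent.Lib.MP_1a91b9_ntMQ
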