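import Pool.Agent.Lib.MP_1a91b9_ntB.S.KStB
import Pool.Agent.Lib.MP_1a91b9_ntMQ.RU13

/-!
# MP_1a91b9_nt (random multiquadratic fields, binomial form): from the standard models to all the curves
-/

set_option autoImplicit false

namespace Pool.Agent.Lib.MP_1a91b9_ntMQ

open NumberField WeierstrassCurve
open Pool.Agent.Lib.MP_1a91b9_ntW.J (RkZ Cls2 ClsN twd twd_vc twd_crv twd_hasJ hasJ_map Inv2
  cR cS cI cJ to_int iso_K4 crv_disc hasJ_crv_iff)
open Pool.Agent.Lib.MP_1a91b9_nuI (HasJ)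
open Pool.Agent.Lib.MP_1a91b9_ntL (crv)
open Pool.Agent.Lib.MP_1a91b9_ntI (excl1 excl2 excl3 excl4 excl5 excl6 th7 nsf_i nsf_s sf_t np_t
  prime_w emp_t K3 iso_w3)
open Pool.Agent.Lib.MP_1a91b9_ntQ (K4)
open Pool.Agent.Lib.MP_1a91b9_ntY (CMK Pt2)
open Pool.Agent.Lib.MP_1a91b9_ntZ (bn)
open Pool.Agent.Lib.MP_1a91b9_ntW (K8 lam8 lam8_sq)
open Pool.Agent.Lib.MP_1a91b9_ntV (K7 t7)
open Pool.Agent.Lib.MP_1a91b9_ntB (crF crF_eq crv_zero_cases rk_isg exists_iso3 crv21)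

noncomputable section

section
variable {K : Type} [Field K] [NumberField K]

/-- The rank is zero for the twists of `W` by the products of the entries in `J`, `J` nonempty. -/
def TwW (F : Type) [Field F] [NumberField F] [Algebra K F] (W : WeierstrassCurve K) {r : ℕ}
    (δ d : Fin r → 𝓞 K) : Prop :=
  ∀ J : Finset (Fin r), J.Nonempty →
    RkZ ((twd W ((∏ i ∈ J, (δ i * d i) : 𝓞 K) : K)).map (algebraMap K F))

open Classical in
/-- the number of the tuples for which the conclusion holds -/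
def cntI (F : Type) [Field F] [NumberField F] [Algebra K F] {r : ℕ} (Δ : Finset (Fin r → 𝓞 K))
    (W : WeierstrassCurve K) (d : Fin r → 𝓞 K) : ℕ :=
  (Δ.filter fun δ => TwW F W δ d).card

open Classical in
theorem cntI_crv (F : Type) [Field F] [NumberField F] [Algebra K F] {r : ℕ}
    (Δ : Finset (Fin r → 𝓞 K)) (a b : K) (d : Fin r → 𝓞 K) :
    cntI F Δ (crv a b) d = (Δ.filter fun δ => TwJ F a b δ d).card := by
  unfold cntI
  refine congrArg Finset.card (Finset.filter_congr fun δ _ => ?_)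
  unfold TwW TwJ
  simp only [crF_eq]

/-- The property of `W`. The condition on `Δ` for the curves `y² = x³ + b x`. -/
def DQBI (F : Type) [Field F] [NumberField F] [Algebra K F] {r : ℕ} (Δ : Finset (Fin r → 𝓞 K))
    (t : ℕ) (m u : 𝓞 K) (c : ℝ) (W : WeierstrassCurve K) : Prop :=
  (∀ (C : VariableChange K) (b : K), b ≠ 0 → C • W = crv 0 b → SepUI F b Δ) →
    DivGI (𝓞 K) r m u (fun d => t ≤ cntI F Δ W d) c

open Classical in
/-- **The property is invariant.** -/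
theorem inv2_DQBI (F : Type) [Field F] [NumberField F] [Algebra K F] {r : ℕ}
    {Δ : Finset (Fin r → 𝓞 K)} (hΔ : SepUI F (1 : K) Δ) (t : ℕ) (m u : 𝓞 K) (c : ℝ) :
    Inv2 (DQBI F Δ t m u c : WeierstrassCurve K → Prop) where
  vc := by
    intro W j hj C h1 h0
    have h2 := h1 (fun C' b hb hC' => h0 (C' * C) b hb (by rw [mul_smul]; exact hC'))
    have e : (fun d : Fin r → 𝓞 K => t ≤ cntI F Δ (C • W) d) =
        fun d : Fin r → 𝓞 K => t ≤ cntI F Δ W d := by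
      funext d
      have e1 : cntI F Δ (C • W) d = cntI F Δ W d := by
        unfold cntI
        refine congrArg Finset.card (Finset.filter_congr fun δ _ => ?_)
        unfold TwW
        refine forall_congr' fun J => forall_congr' fun _ => ?_
        rw [← twd_vc W C, ← WeierstrassCurve.map_variableChange]
        exact Pool.Agent.Lib.MP_1a91b9_ntW.J.RkZ.vc (hasJ_map _ (twd_hasJ hj _)) _
      rw [e1]
    rw [e] at h2
    exact h2
  isg := by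
    intro a b j j' hb hb' hj hj' h1 h0
    have h2 := h1 (fun C' b₀ hb₀ hC' => by
      rcases crv_zero_cases hC' with ⟨ha, z, hz, hbz⟩ | ⟨z, hz⟩
      · subst ha
        have h3 := h0 1 ((0 : K) ^ 2 - 4 * b) hb' (by rw [one_smul, mul_zero])
        refine h3.of_eq (z := 2 * z) (mul_ne_zero two_ne_zero hz) ?_
        right
        rw [hbz]
        ring
      · have hz0 : z ≠ 0 := by
          rintro rfl
          exact hb₀ (by rw [hz]; ring)
        refine hΔ.congr hz0 ?_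
        right
        rw [hz]
        ring)
    have e : (fun d : Fin r → 𝓞 K => t ≤ cntI F Δ (crv (-2 * a) (a ^ 2 - 4 * b)) d) =
        fun d : Fin r → 𝓞 K => t ≤ cntI F Δ (crv a b) d := by
      funext d
      have e1 : cntI F Δ (crv (-2 * a) (a ^ 2 - 4 * b)) d = cntI F Δ (crv a b) d := by
        rw [cntI_crv, cntI_crv]
        refine congrArg Finset.card (Finset.filter_congr fun δ _ => ?_)
        unfold TwJ
        exact forall_congr' fun J => forall_congr' fun _ => rk_isg F hb hb' hj hj' _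
      rw [e1]
    rw [e]
    exact h2

end

/-- square roots are fourth roots -/
theorem DMBI.two_of_four {K : Type} [Field K] [NumberField K]
    {H : (F : Type) → [Field F] → 𝓞 K → 𝓞 K → Prop} {a b : K} {c : ℝ} (h : DMBI K 4 H a b c) :
    DMBI K 2 H a b c := by
  intro F _ _ _ hF r Δ hΔ t m u hmu
  refine h F ?_ r Δ hΔ t m u hmu
  rw [eq_top_iff, ← hF]
  refine IntermediateField.adjoin.mono K _ _ ?_
  rintro x ⟨a, ha⟩
  refine ⟨a ^ 2, ?_⟩
  rw [map_pow, ← ha]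
  ring

/-! ### From the standard models -/

/-- over a field generated by a square root of `-1` -/
theorem db4I_of (h : ∀ {b : K4}, b ≠ 0 → DMBI K4 4 (fun _ => Cls2 K4) 0 b cR) {K : Type} [Field K]
    [NumberField K] (hK : Module.finrank ℚ K = 2) {i : K} (hi : i ^ 2 = -1) {b : K} (hb : b ≠ 0) :
    DMBI K 4 (fun _ => Cls2 K) 0 b cR := by
  obtain ⟨e⟩ := iso_K4 hK hi
  have h1 : DMBI K4 4 (fun _ => Cls2 K4) 0 (e.symm b) cR := by
    refine h ?_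
    rw [Ne, map_eq_zero_iff _ e.symm.injective]
    exact hb
  have h2 := DMBI.tr e (H := fun _ => Cls2 K) (fun _ _ => Cls2.tr e) h1
  rw [map_zero, e.apply_symm_apply] at h2
  exact h2

/-- over a field generated by a square root of `-3`, for the extensions without square root of `-1` -/
theorem db3NI_of (h : ∀ {e : K3}, e ≠ 0 → DMBI K3 2 (fun F _ => ClsN K3 F) (-3 * e) (3 * e ^ 2) cI)
    {K : Type} [Field K] [NumberField K] (hK : Module.finrank ℚ K = 2) {s : K} (hs : s ^ 2 = -3)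
    {e : K} (he : e ≠ 0) : DMBI K 2 (fun F _ => ClsN K F) (-3 * e) (3 * e ^ 2) cI := by
  obtain ⟨f⟩ := exists_iso3 hK hs
  have h1 : DMBI K3 2 (fun F _ => ClsN K3 F) (-3 * f.symm e) (3 * (f.symm e) ^ 2) cI := by
    refine h ?_
    rw [Ne, map_eq_zero_iff _ f.symm.injective]
    exact he
  have h2 := DMBI.tr f (H := fun F _ => ClsN K F) (ClsN.tr f) h1
  rwa [map_mul, map_mul, map_neg, map_pow, map_ofNat, f.apply_symm_apply] at h2

/-- over a field generated by a square root of `-3` -/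
theorem db3JI_of (h : ∀ {e : K3}, e ≠ 0 → DMBI K3 2 (fun _ => Cls2 K3) (-3 * e) (3 * e ^ 2) cJ)
    {K : Type} [Field K] [NumberField K] (hK : Module.finrank ℚ K = 2) {s : K} (hs : s ^ 2 = -3)
    {e : K} (he : e ≠ 0) : DMBI K 2 (fun _ => Cls2 K) (-3 * e) (3 * e ^ 2) cJ := by
  obtain ⟨f⟩ := exists_iso3 hK hs
  have h1 : DMBI K3 2 (fun _ => Cls2 K3) (-3 * f.symm e) (3 * (f.symm e) ^ 2) cJ := by
    refine h ?_
    rw [Ne, map_eq_zero_iff _ f.symm.injective]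
    exact he
  have h2 := DMBI.tr f (H := fun _ => Cls2 K) (fun _ _ => Cls2.tr f) h1
  rwa [map_mul, map_mul, map_neg, map_pow, map_ofNat, f.apply_symm_apply] at h2

/-- over a field generated by a square root of `-2` -/
theorem db8I_of (h : ∀ {e : K8}, e ≠ 0 → DMBI K8 2 (fun _ => Cls2 K8) (4 * e) (2 * e ^ 2) cR)
    {K : Type} [Field K] [NumberField K] (hK : Module.finrank ℚ K = 2) {s : K} (hs : s ^ 2 = -2)
    {e : K} (he : e ≠ 0) : DMBI K 2 (fun _ => Cls2 K) (4 * e) (2 * e ^ 2) cR := by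
  have hl : (lam8 : K8) ^ 2 = -2 := by
    have h1 := congrArg (fun x : 𝓞 K8 => (x : K8)) lam8_sq
    push_cast at h1
    exact h1
  obtain ⟨f⟩ := Pool.Agent.Lib.MP_1a91b9_ntI.exists_iso_pq
    Pool.Agent.Lib.MP_1a91b9_ntW.T.finrank_K8 hK (t := 0) (n := 2) (by norm_num) (s := (lam8 : K8))
    (by rw [hl]; push_cast; ring) (s' := s) (by rw [hs]; push_cast; ring)
  have h1 : DMBI K8 2 (fun _ => Cls2 K8) (4 * f.symm e) (2 * (f.symm e) ^ 2) cR := by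
    refine h ?_
    rw [Ne, map_eq_zero_iff _ f.symm.injective]
    exact he
  have h2 := DMBI.tr f (H := fun _ => Cls2 K) (fun _ _ => Cls2.tr f) h1
  rwa [map_mul, map_mul, map_pow, map_ofNat, map_ofNat, f.apply_symm_apply] at h2

/-- over a field generated by a root of `θ² = θ - 2` -/
theorem db7I_of (h : ∀ {d₀ : K7}, d₀ ≠ 0 → DMBI K7 2 (fun _ => Cls2 K7)
      (d₀ * (1 + (1 - (t7 : K7)) ^ 4)) (d₀ ^ 2 * (1 - (t7 : K7)) ^ 4) cS)
    {K : Type} [Field K] [NumberField K] (hK : Module.finrank ℚ K = 2) {θ : K}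
    (hθ : θ ^ 2 = θ - 2) {d₀ : K} (hd₀ : d₀ ≠ 0) :
    DMBI K 2 (fun _ => Cls2 K) (d₀ * (1 + (1 - θ) ^ 4)) (d₀ ^ 2 * (1 - θ) ^ 4) cS := by
  obtain ⟨e, he⟩ := Pool.Agent.Lib.MP_1a91b9_ntI.iso_th
    (K := K7) (@Pool.Agent.Lib.MP_1a91b9_nuT.finrank_K Pool.Agent.Lib.MP_1a91b9_ntV.cd7) hK
    Pool.Agent.Lib.MP_1a91b9_ntV.J.t7_sq' hθ
  have h0 : e.symm d₀ ≠ 0 := by
    rw [Ne, map_eq_zero_iff _ e.symm.injective]
    exact hd₀
  have h2 := DMBI.tr e (H := fun _ => Cls2 K) (fun _ _ => Cls2.tr e) (h h0)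
  have e1 : e (e.symm d₀ * (1 + (1 - (t7 : K7)) ^ 4)) = d₀ * (1 + (1 - θ) ^ 4) := by
    rw [map_mul, e.apply_symm_apply, map_add, map_one, map_pow, map_sub, map_one, he]
  have e2 : e (e.symm d₀ ^ 2 * (1 - (t7 : K7)) ^ 4) = d₀ ^ 2 * (1 - θ) ^ 4 := by
    rw [map_mul, map_pow, e.apply_symm_apply, map_pow, map_sub, map_one, he]
  rwa [e1, e2] at h2

section
variable {K : Type} [Field K] [NumberField K]

/-- the property of the curve, from the result over the extensions -/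
theorem DQBI.of_dmbi {l : ℕ} {H : (F : Type) → [Field F] → 𝓞 K → 𝓞 K → Prop} {a b : K} {c : ℝ}
    (h : DMBI K l H a b c) {F : Type} [Field F] [NumberField F] [Algebra K F]
    (hF : IntermediateField.adjoin K {x : F | ∃ c : K, x ^ l = algebraMap K F c} = ⊤)
    {r : ℕ} {Δ : Finset (Fin r → 𝓞 K)}
    (hne : ∀ δ ∈ Δ, ∀ i, δ i ≠ 0) (h1 : SepUI F (1 : K) Δ)
    (hb : (∀ (C : VariableChange K) (b' : K), b' ≠ 0 → C • crv a b = crv 0 b' → SepUI F b' Δ) →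
      SepUI F b Δ) {t : ℕ} {m u : 𝓞 K} (hmu : H F m u) :
    DQBI F Δ t m u (bn Δ.card t (c ^ ((2 ^ r - 1) * Module.finrank K F))) (crv a b) := by
  intro h0
  have h2 := h F hF r Δ ⟨hne, h1, hb h0⟩ t m u hmu
  simp only [cntI_crv]
  exact h2

/-- **The assembly**, from the results for the four families. -/
theorem dbinKI_of
    (H4 : ∀ {i : K}, i ^ 2 = -1 → ∀ {b : K}, b ≠ 0 → DMBI K 4 (fun _ => Cls2 K) 0 b cR)
    (H8 : ∀ {s : K}, s ^ 2 = -2 → ∀ {e : K}, e ≠ 0 →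
      DMBI K 2 (fun _ => Cls2 K) (4 * e) (2 * e ^ 2) cR)
    (H7 : ∀ {θ : K}, θ ^ 2 = θ - 2 → ∀ {d₀ : K}, d₀ ≠ 0 →
      DMBI K 2 (fun _ => Cls2 K) (d₀ * (1 + (1 - θ) ^ 4)) (d₀ ^ 2 * (1 - θ) ^ 4) cS)
    (H3 : ∀ {s : K}, s ^ 2 = -3 → ∀ {e : K}, e ≠ 0 →
      DMBI K 2 (fun F _ => ClsN K F) (-3 * e) (3 * e ^ 2) cI)
    (H3' : ∀ {s : K}, s ^ 2 = -3 → ∀ {e : K}, e ≠ 0 →
      DMBI K 2 (fun _ => Cls2 K) (-3 * e) (3 * e ^ 2) cJ)
    (hK : Module.finrank ℚ K = 2) {l : ℕ} (hl : l = 2 ∨ l = 4 ∧ ∃ i : K, i ^ 2 = -1)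
    (F : Type) [Field F] [NumberField F] [Algebra K F]
    (hF : IntermediateField.adjoin K {x : F | ∃ c : K, x ^ l = algebraMap K F c} = ⊤) {c : ℝ}
    (hI : Prime (2 : 𝓞 K) → (¬ ∃ x : F, x ^ 2 = -1) → c = cI)
    (hJ : Prime (2 : 𝓞 K) → (∃ x : F, x ^ 2 = -1) → c = cJ)
    (hS : ¬ Prime (2 : 𝓞 K) → Squarefree (2 : 𝓞 K) → c = cS)
    (hR : ¬ Squarefree (2 : 𝓞 K) → c = cR) {r : ℕ} {Δ : Finset (Fin r → 𝓞 K)}
    (hne : ∀ δ ∈ Δ, ∀ i, δ i ≠ 0)
    (h1 : SepUI F (1 : K) Δ) (t : ℕ) {W : WeierstrassCurve K} (hW : CMK W) (hP : Pt2 W)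
    {m u : 𝓞 K} (hmu : Cls2 K m u) :
    DQBI F Δ t m u (bn Δ.card t (c ^ ((2 ^ r - 1) * Module.finrank K F))) W := by
  refine (inv2_DQBI F h1 t m u _).star hK ?_ ?_ ?_ ?_ hW hP
  · rintro ⟨i, hi⟩ b hb
    obtain ⟨i', -, hi'⟩ := to_int (x := i) (t := 0) (n := 1) (by rw [hi]; push_cast; ring)
    have hi2 : i' ^ 2 = -1 := by rw [hi']; push_cast; ring
    rw [hR (nsf_i hK hi2)]
    have hb' : (∀ (C : VariableChange K) (b' : K), b' ≠ 0 → C • crv 0 b = crv 0 b' →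
        SepUI F b' Δ) → SepUI F b Δ := fun h0 => h0 1 b hb (one_smul _ _)
    rcases hl with rfl | ⟨rfl, -⟩
    · exact DQBI.of_dmbi (H4 hi hb).two_of_four hF hne h1 hb' hmu
    · exact DQBI.of_dmbi (H4 hi hb) hF hne h1 hb' hmu
  · rintro ⟨s, hs⟩ e he
    obtain ⟨s', -, hs'⟩ := to_int (x := s) (t := 0) (n := 2) (by rw [hs]; push_cast; ring)
    have hs2 : s' ^ 2 = -2 := by rw [hs']; push_cast; ring
    have hs0 : s ≠ 0 := by
      rintro rfl
      norm_num at hs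
    rw [hR (nsf_s hK hs2)]
    rcases hl with rfl | ⟨-, i, hi⟩
    · refine DQBI.of_dmbi (H8 hs he) hF hne h1 (fun _ => h1.congr (z := s * e)
        (mul_ne_zero hs0 he) (Or.inr ?_)) hmu
      rw [mul_pow, hs]
      ring
    · exact (excl1 hK hs hi).elim
  · rintro ⟨s, hs⟩ e he
    obtain ⟨w, hw⟩ : ∃ w : K, w = (1 + s) / 2 := ⟨_, rfl⟩
    have hs0 : s ≠ 0 := by
      rintro rfl
      norm_num at hs
    have hsw : s = 2 * w - 1 := by
      rw [hw, mul_div_cancel₀ _ (two_ne_zero' K)]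
      ring
    have hw2 : w ^ 2 = w - 1 := by
      have h4 : (4 : K) ≠ 0 := by norm_num
      have hs2 := hs
      rw [hsw] at hs2
      refine mul_left_cancel₀ h4 ?_
      linear_combination hs2
    obtain ⟨θ', -, hθ'⟩ := to_int (x := w) (t := 1) (n := 1) (by rw [hw2]; push_cast; ring)
    have hθ2 : θ' ^ 2 = θ' - 1 := by rw [hθ']; push_cast; ring
    have hb' : (∀ (C : VariableChange K) (b' : K), b' ≠ 0 →
        C • crv (-3 * e) (3 * e ^ 2) = crv 0 b' → SepUI F b' Δ) → SepUI F (3 * e ^ 2) Δ := by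
      intro _
      refine h1.congr (z := s * e) (mul_ne_zero hs0 he) (Or.inr ?_)
      rw [mul_pow, hs]
      ring
    rcases hl with rfl | ⟨-, i, hi⟩
    · by_cases hi : ∃ x : F, x ^ 2 = -1
      · rw [hJ (prime_w hK hθ2) hi]
        exact DQBI.of_dmbi (H3' hs he) hF hne h1 hb' hmu
      · rw [hI (prime_w hK hθ2) hi]
        exact DQBI.of_dmbi (H3 hs he) hF hne h1 hb' ⟨hmu, hi⟩
    · exact (excl6 hK hi hs).elim
  · rintro ⟨s, hs⟩ e he
    have hs0 : s ≠ 0 := by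
      rintro rfl
      norm_num at hs
    obtain ⟨θ, hθd⟩ : ∃ θ : K, θ = (1 + s) / 2 := ⟨_, rfl⟩
    have hsθ : s = 2 * θ - 1 := by
      rw [hθd, mul_div_cancel₀ _ (two_ne_zero' K)]
      ring
    have hθ : θ ^ 2 = θ - 2 := by
      have hs2 := hs
      rw [hsθ] at hs2
      refine mul_left_cancel₀ (show (4 : K) ≠ 0 by norm_num) ?_
      linear_combination hs2
    obtain ⟨θ', -, hθ'⟩ := to_int (x := θ) (t := 1) (n := 2) (by rw [hθ]; push_cast; ring)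
    have hθ2 : θ' ^ 2 = θ' - 2 := by rw [hθ']; push_cast; ring
    rw [hS (np_t hK hθ2) (sf_t hK (emp_t hθ2) hθ2)]
    rcases hl with rfl | ⟨-, i, hi⟩
    · have ht : 1 - θ ≠ 0 := by
        intro h
        have h5 : θ = 1 := by linear_combination -h
        rw [h5] at hθ
        norm_num at hθ
      have h2 := DQBI.of_dmbi (t := t) (H7 hθ (d₀ := s * e) (mul_ne_zero hs0 he)) hF hne h1
        (fun _ => h1.congr (z := s * e * (1 - θ) ^ 2)
          (mul_ne_zero (mul_ne_zero hs0 he) (pow_ne_zero 2 ht)) (Or.inl (by ring))) hmu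
      refine (inv2_DQBI F h1 t m u _).of_vc h2 (Pool.Agent.Lib.MP_1a91b9_ntV.J.hasJ_crv7 hθ _)
        (C := ⟨1, (θ - 11) * e, 0, 0⟩) ?_
      exact crv21 hθ hsθ e
    · exact (excl3 hK (th7 hθ) hi).elim

open Classical in
/-- **The result**, explicitly, from the results for the four families. -/
theorem dbinKI_expl
    (H4 : ∀ {i : K}, i ^ 2 = -1 → ∀ {b : K}, b ≠ 0 → DMBI K 4 (fun _ => Cls2 K) 0 b cR)
    (H8 : ∀ {s : K}, s ^ 2 = -2 → ∀ {e : K}, e ≠ 0 →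
      DMBI K 2 (fun _ => Cls2 K) (4 * e) (2 * e ^ 2) cR)
    (H7 : ∀ {θ : K}, θ ^ 2 = θ - 2 → ∀ {d₀ : K}, d₀ ≠ 0 →
      DMBI K 2 (fun _ => Cls2 K) (d₀ * (1 + (1 - θ) ^ 4)) (d₀ ^ 2 * (1 - θ) ^ 4) cS)
    (H3 : ∀ {s : K}, s ^ 2 = -3 → ∀ {e : K}, e ≠ 0 →
      DMBI K 2 (fun F _ => ClsN K F) (-3 * e) (3 * e ^ 2) cI)
    (H3' : ∀ {s : K}, s ^ 2 = -3 → ∀ {e : K}, e ≠ 0 →
      DMBI K 2 (fun _ => Cls2 K) (-3 * e) (3 * e ^ 2) cJ)
    (hK : Module.finrank ℚ K = 2) (a b : K) (hE : b * (a ^ 2 - 4 * b) ≠ 0) (j D : ℤ)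
    (hjD : (j, D) ∈ Pool.Agent.Lib.MP_1a91b9_ntY.cmList)
    (hj : 256 * (a ^ 2 - 3 * b) ^ 3 = j * (b ^ 2 * (a ^ 2 - 4 * b))) (hD : ∃ s : K, s ^ 2 = D)
    (l : ℕ) (hl : l = 2 ∨ l = 4 ∧ ∃ i : K, i ^ 2 = -1)
    (F : Type) [Field F] [NumberField F] [Algebra K F]
    (hF : IntermediateField.adjoin K {x : F | ∃ c : K, x ^ l = algebraMap K F c} = ⊤)
    (r : ℕ) (Δ : Finset (Fin r → 𝓞 K)) (h0 : ∀ δ ∈ Δ, ∀ i, δ i ≠ 0)
    (hΔ : ∀ δ ∈ Δ, ∀ δ' ∈ Δ, δ ≠ δ' → ∀ J : Finset (Fin r), J.Nonempty →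
      ∀ e ∈ ({1, -1, b, -b} : Set K), ¬ ∃ x : F, x ^ 2 =
        algebraMap K F (e * (((∏ i ∈ J, δ i : 𝓞 K) : K) * ((∏ i ∈ J, δ' i : 𝓞 K) : K)))) (t : ℕ)
    (n : ℕ) (m u : 𝓞 K) (hm : m ∣ 2 ^ n) (hu : ∀ p, Prime p → ¬ (p ^ 2 ∣ m ∧ p ^ 2 ∣ u))
    (c : ℝ)
    (hc : c = if Prime (2 : 𝓞 K) then (if ∃ x : F, x ^ 2 = -1 then
        √((∏' i : ℕ, (1 + 1 / (2 : ℝ) ^ (2 * i + 1))⁻¹) / 2) else
        ∏' i : ℕ, (1 + 1 / (2 : ℝ) ^ (2 * i + 1))⁻¹) else
      if Squarefree (2 : 𝓞 K) then ∏' i : ℕ, (1 - 1 / (2 : ℝ) ^ (i + 1)) else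
      ∏' i : ℕ, (1 + 1 / (2 : ℝ) ^ (i + 1))⁻¹) :
    DivGI (𝓞 K) r m u (fun d => t ≤ (Δ.filter fun δ : Fin r → 𝓞 K =>
      ∀ J : Finset (Fin r), J.Nonempty → RkZ (⟨0,
        algebraMap K F (((∏ i ∈ J, (δ i * d i) : 𝓞 K) : K) * a), 0,
        algebraMap K F (((∏ i ∈ J, (δ i * d i) : 𝓞 K) : K) ^ 2 * b), 0⟩ :
          WeierstrassCurve F)).card) (bn Δ.card t (c ^ ((2 ^ r - 1) * Module.finrank K F))) := by
  have hdisc : (crv a b).Δ ≠ 0 := by
    rw [crv_disc]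
    have e : b ^ 2 * (a ^ 2 - 4 * b) = b * (b * (a ^ 2 - 4 * b)) := by ring
    rw [e]
    exact mul_ne_zero (by norm_num) (mul_ne_zero (left_ne_zero_of_mul hE) hE)
  obtain ⟨s, hs⟩ := hD
  have hW : CMK (crv a b) := ⟨hdisc, j, D, s, hjD, hs, hasJ_crv_iff.2 hj⟩
  have hP : Pt2 (crv a b) := by
    refine ⟨0, ?_⟩
    unfold crv WeierstrassCurve.b₂ WeierstrassCurve.b₄ WeierstrassCurve.b₆
    ring
  have hps : Prime (2 : 𝓞 K) → Squarefree (2 : 𝓞 K) := fun h => h.irreducible.squarefree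
  have key : ∀ x : K, x ∈ ({1, -1, b, -b} : Set K) → -x ∈ ({1, -1, b, -b} : Set K) →
      SepUI F x Δ := by
    intro x hx hx' δ hδ δ' hδ' hne J hJ
    have e1 : (((∏ i ∈ J, δ i) * (∏ i ∈ J, δ' i) : 𝓞 K) : K) =
        ((∏ i ∈ J, δ i : 𝓞 K) : K) * ((∏ i ∈ J, δ' i : 𝓞 K) : K) :=
      map_mul (algebraMap (𝓞 K) K) _ _
    rw [e1, ← neg_mul]
    refine ⟨?_, ?_⟩
    · rintro ⟨y, hy⟩
      exact hΔ δ hδ δ' hδ' hne J hJ x hx ⟨y, by rw [hy, sq]⟩
    · rintro ⟨y, hy⟩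
      exact hΔ δ hδ δ' hδ' hne J hJ (-x) hx' ⟨y, by rw [hy, sq]⟩
  have k1 : SepUI F (1 : K) Δ := key 1 (by simp) (by simp)
  have k2 : SepUI F b Δ := key b (by simp) (by simp)
  have h1 : DQBI F Δ t m u (bn Δ.card t (c ^ ((2 ^ r - 1) * Module.finrank K F))) (crv a b) := by
    refine dbinKI_of H4 H8 H7 H3 H3' hK hl F hF (fun h h' => ?_) (fun h h' => ?_) (fun h h' => ?_)
      (fun h => ?_) h0 k1 t hW hP ⟨⟨n, hm⟩, hu⟩
    · rw [hc, if_pos h, if_neg h']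
      rfl
    · rw [hc, if_pos h, if_pos h']
      rfl
    · rw [hc, if_neg h, if_pos h']
      rfl
    · rw [hc, if_neg (mt hps h), if_neg h]
      rfl
  have h2 := h1 (fun C b' hb' hC => by
    rcases crv_zero_cases hC with ⟨-, z, hz, hbz⟩ | ⟨z, hz⟩
    · exact k2.of_eq hz (Or.inl hbz.symm)
    · have hz0 : z ≠ 0 := by
        rintro rfl
        exact hb' (by rw [hz]; ring)
      refine k1.congr hz0 (Or.inr ?_)
      rw [hz]
      ring)
  have e6 : (fun d : Fin r → 𝓞 K => t ≤ cntI F Δ (crv a b) d) = fun d : Fin r → 𝓞 K =>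
      t ≤ (Δ.filter fun δ : Fin r → 𝓞 K => ∀ J : Finset (Fin r), J.Nonempty → RkZ (⟨0,
        algebraMap K F (((∏ i ∈ J, (δ i * d i) : 𝓞 K) : K) * a), 0,
        algebraMap K F (((∏ i ∈ J, (δ i * d i) : 𝓞 K) : K) ^ 2 * b), 0⟩ :
          WeierstrassCurve F)).card := by
    funext d
    rw [cntI_crv]
    refine congrArg (fun n : ℕ => t ≤ n) (congrArg Finset.card ?_)
    exact Finset.filter_congr fun δ _ => Iff.rfl
  rw [e6] at h2
  exact h2

end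

end

end Pool.Agent.Lib.MP_1a91b9_ntMQ
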