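import Pool.Agent.Lib.MP_1a91b9_ntMQ.RU0
import Pool.Agent.Lib.MP_1a91b9_ntMQ.RT8

/-!
# MP_1a91b9_nt (random multiquadratic fields, binomial form): the law for the tuples in the generic rings
-/

set_option autoImplicit false
set_option linter.unusedSectionVars false

namespace Pool.Agent.Lib.MP_1a91b9_ntMQ

open Finset
open Pool.Agent.Lib.MP_1a91b9_ntH (PS nm Sx mem_Sx)
open Pool.Agent.Lib.MP_1a91b9_ntR (Qi Pri Pg DD sys nG GR gc Bad mu pb symm_union symmDiff_cancel)
open Pool.Agent.Lib.MP_1a91b9_ntS.G (FamI CndI)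
open Pool.Agent.Lib.MP_1a91b9_ntDV (famI_rep famI_pos fewR bad_famI)
open Pool.Agent.Lib.MP_1a91b9_ntZ (Atl bn)

noncomputable section

variable {R : Type} [CommRing R] [IsDomain R] [IsPrincipalIdealRing R] [Qi R] [Pri R] {Q : R}
  {A : Type} [Fintype A] [DecidableEq A] {π : A → R}

/-- **The law for the tuples of divisors, at least `t` of the blocks.** -/
theorem bad_divBI (hB : Bad π) (hQ : (sys R).Mod Q) (hQ0 : Q ≠ 0)
    {Good : ZMod 2 × (A → ZMod 2) → Finset (Pg R) → Prop} {c : ℝ} (hJ : DLBI Good c)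
    {r k N : ℕ} (hN : 0 < N) {a : Fin k → Finset (Fin r) → Fin N → R}
    (hne : ∀ b J n, a b J n ≠ 0)
    (hin : ∀ b, ∀ J : Finset (Fin r), J.Nonempty → ∀ n n', n ≠ n' →
      ¬ ∃ y : R, y ^ 2 = a b J n * a b J n')
    (hcr : ∀ b b', b ≠ b' → ∀ J : Finset (Fin r), J.Nonempty → ∀ n n',
      ¬ ∃ y : R, y ^ 2 = a b J n * a b' J n' ∨ y ^ 2 = -(a b J n * a b' J n'))
    {m u : R} (hm : m ∣ Q) (hu : ∀ x, ¬ (π x ^ 2 ∣ m ∧ π x ^ 2 ∣ u))
    (P : Fin k → (Fin r → R) → Prop)
    (hP : ∀ b (d : Fin r → R), (∀ l, Squarefree (d l)) → (∀ J : Finset (Fin r), J.Nonempty → ∀ n,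
      ∃ (i : ZMod 2 × (A → ZMod 2)) (S : Finset (Pg R)) (s : R), s ≠ 0 ∧
        a b J n * ∏ l ∈ J, d l = mu π i * DD S * s ^ 2 ∧ Good i S) → P b d)
    (t : ℕ) : DivGI R r m u (fun d => Atl t fun b => P b d)
      (bn k t (c ^ ((2 ^ r - 1) * N))) := by
  have h1 : ∀ b J n, ∃ (i : ZMod 2 × (A → ZMod 2)) (T : Finset (Pg R)) (s : R), s ≠ 0 ∧
      a b J n = mu π i * DD T * s ^ 2 := fun b J n => hB.exists_sf (a b J n) (hne b J n)
  choose i T₀ s hs hT using h1
  have hinj : ∀ b, ∀ J : Finset (Fin r), J.Nonempty →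
      Function.Injective fun n => (i b J n, T₀ b J n) := by
    intro b J hJn n n' h
    by_contra hnn
    apply hin b J hJn n n' hnn
    simp only [Prod.mk.injEq] at h
    refine ⟨mu π (i b J n) * DD (T₀ b J n) * s b J n * s b J n', ?_⟩
    rw [hT b J n, hT b J n', ← h.1, ← h.2]
    ring
  have hdis : ∀ b b', b ≠ b' → ∀ J : Finset (Fin r), J.Nonempty → ∀ n n',
      ((i b J n).2, T₀ b J n) ≠ ((i b' J n').2, T₀ b' J n') := by
    intro b b' hbb J hJn n n' h
    simp only [Prod.mk.injEq] at h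
    apply hcr b b' hbb J hJn n n'
    refine ⟨pb π (i b J n).2 * DD (T₀ b J n) * s b J n * s b' J n', ?_⟩
    have h2 : ((-1 : R) ^ (i b J n).1.val * (-1) ^ (i b' J n').1.val) = 1 ∨
        ((-1 : R) ^ (i b J n).1.val * (-1) ^ (i b' J n').1.val) = -1 := by
      rcases neg_one_pow_eq_or R (i b J n).1.val with h3 | h3 <;>
        rcases neg_one_pow_eq_or R (i b' J n').1.val with h4 | h4 <;> rw [h3, h4]
      · left; ring
      · right; ring
      · right; ring
      · left; ring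
    have h3 : a b J n * a b' J n' = ((-1 : R) ^ (i b J n).1.val * (-1) ^ (i b' J n').1.val) *
        (pb π (i b J n).2 * DD (T₀ b J n) * s b J n * s b' J n') ^ 2 := by
      rw [hT b J n, hT b' J n']
      unfold mu
      rw [← h.1, ← h.2]
      ring
    rcases h2 with h2 | h2
    · left
      rw [h3, h2, one_mul]
    · right
      rw [h3, h2]
      ring
  obtain ⟨B, hBd⟩ : ∃ B : Finset (Pg R), B = univ.biUnion fun b : Fin k =>
      univ.biUnion fun J : Finset (Fin r) => univ.biUnion (T₀ b J) := ⟨_, rfl⟩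
  have hTB : ∀ b J n, T₀ b J n ⊆ B := fun b J n => by
    rw [hBd]
    exact (subset_biUnion_of_mem (T₀ b J) (mem_univ n)).trans
      ((subset_biUnion_of_mem (fun J : Finset (Fin r) => univ.biUnion (T₀ b J)) (mem_univ J)).trans
        (subset_biUnion_of_mem (fun b : Fin k => univ.biUnion fun J : Finset (Fin r) =>
          univ.biUnion (T₀ b J)) (mem_univ b)))
  refine lawI (famI_rep (bad_famI hB)) fewR (famI_pos (bad_famI hB) hQ hQ0 hm (hB.exists_cls hu))
    (fun d => Atl t fun b => P b d) (bn k t (c ^ ((2 ^ r - 1) * N))) fun j => ?_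
  refine SubLI.glue (B := B) fun B' hB' => ?_
  have h2 := hJ r k N hN (fun b J n => ∑ l ∈ J, j l + i b J n)
    (fun b J n => symmDiff (sdJ J B') (T₀ b J n)) B
    (fun b J n => by
      intro q hq
      rw [mem_symmDiff] at hq
      rcases hq with hq | hq
      · exact sdJ_sub hB' J hq.1
      · exact hTB b J n hq.1)
    (fun b J hJn n n' h => by
      simp only [Prod.mk.injEq] at h
      apply hinj b J hJn
      show (i b J n, T₀ b J n) = (i b J n', T₀ b J n')
      rw [add_left_cancel h.1, symmDiff_cancel h.2])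
    (fun b b' hbb J hJn n n' h => by
      simp only [Prod.mk.injEq, Prod.snd_add] at h
      apply hdis b b' hbb J hJn n n'
      rw [add_left_cancel h.1, symmDiff_cancel h.2]) t
  refine h2.mono fun T hTd h3 => h3.mono fun b h3 => ?_
  show P b (fun k => mu π (j k) * DD (T k ∪ B' k))
  refine hP b _ (fun k => hB.sqf (j k) _) fun J hJn n => ?_
  obtain ⟨t, ht, e1⟩ := prodJ hB j (fun k => T k ∪ B' k) J
  rw [sdJ_union hTd hB'] at e1
  obtain ⟨t', ht', e2⟩ := hB.mu_mul (∑ l ∈ J, j l) (i b J n) (sdJ J T ∪ sdJ J B') (T₀ b J n)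
  have e3 : symmDiff (sdJ J T ∪ sdJ J B') (T₀ b J n) =
      sdJ J T ∪ symmDiff (sdJ J B') (T₀ b J n) := by
    rw [union_comm]
    exact symm_union (hTB b J n) (sdJ_sub hB' J) (sdJ_disjoint hTd J)
  rw [e3] at e2
  refine ⟨∑ l ∈ J, j l + i b J n, sdJ J T ∪ symmDiff (sdJ J B') (T₀ b J n), t * t' * s b J n,
    mul_ne_zero (mul_ne_zero ht ht') (hs b J n), ?_, h3 J hJn n⟩
  rw [hT b J n]
  have e4 : ∏ k ∈ J, (mu π (j k) * DD (T k ∪ B' k)) =
      mu π (∑ l ∈ J, j l) * DD (sdJ J T ∪ sdJ J B') * t ^ 2 := e1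
  rw [e4]
  linear_combination t ^ 2 * s b J n ^ 2 * e2

end

end Pool.Agent.Lib.MP_1a91b9_ntMQ
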