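import Pool.Agent.Lib.MP_1a91b9_ntZ.J7.Main
import Pool.Agent.Lib.MP_1a91b9_ntMQ.B0
import Pool.Agent.Lib.MP_1a91b9_ntMQ.UT1
import Pool.Agent.Lib.MP_1a91b9_ntMQ.UT2

/-!
# MP_1a91b9_nt (random multiquadratic fields, binomial form), `ℚ(√-7)`
-/

set_option autoImplicit false
set_option linter.unusedSectionVars false

namespace Pool.Agent.Lib.MP_1a91b9_ntMQ

section D

open NumberField Finset
open Pool.Agent.Lib.MP_1a91b9_nuT Pool.Agent.Lib.MP_1a91b9_ntV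
open Pool.Agent.Lib.MP_1a91b9_ntV.DS (cinfV)
open Pool.Agent.Lib.MP_1a91b9_ntR (Pg)
open Pool.Agent.Lib.MP_1a91b9_ntZ (Atl bn)

noncomputable section

variable [CD] [hv : V7]

/-- **The law for the tuples of divisors over `ℚ(√-7)`, at least `t` of the blocks.** -/
theorem div7BI (hJ : JBI7) {r k N : ℕ} (hN : 0 < N) {a : Fin k → Finset (Fin r) → Fin N → 𝓞 K}
    (hne : ∀ b J j, a b J j ≠ 0)
    (hin : ∀ b, ∀ J : Finset (Fin r), J.Nonempty → ∀ j j', j ≠ j' →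
      ¬ ∃ y : K, y ^ 2 = (a b J j : K) * a b J j')
    (hcr : ∀ b b', b ≠ b' → ∀ J : Finset (Fin r), J.Nonempty → ∀ j j',
      ¬ ∃ y : K, y ^ 2 = (a b J j : K) * a b' J j' ∨ y ^ 2 = -((a b J j : K) * a b' J j'))
    {n : ℕ} {M u : 𝓞 K} (hM : M ∣ 2 ^ n)
    (hu : ∀ p : 𝓞 K, Prime p → ¬ (p ^ 2 ∣ M ∧ p ^ 2 ∣ u))
    (Pr : Fin k → (Fin r → 𝓞 K) → Prop)
    (hPr : ∀ b (d : Fin r → 𝓞 K), (∀ l, Squarefree (d l)) →
      (∀ J : Finset (Fin r), J.Nonempty → ∀ j, ∃ (d0 d1 d2 : ZMod 2) (S : Finset Pg7) (t : 𝓞 K),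
      t ≠ 0 ∧ a b J j * ∏ l ∈ J, d l = (-1) ^ d0.val * ta ^ d1.val * tb ^ d2.val * DD S * t ^ 2 ∧
      Good7 D7 S d0 d1 d2) → Pr b d) (t : ℕ) :
    DivGI (𝓞 K) r M u (fun d => Atl t fun b => Pr b d)
      (bn k t (cinfV ^ ((2 ^ r - 1) * N))) := by
  have hm' : M ∣ (2 : 𝓞 K) ^ (n + 3) := hM.trans (pow_dvd_pow _ (by omega))
  have key : ∀ x y : Fin 2 → ZMod 2, x 0 = y 0 → x 1 = y 1 → x = y := by
    intro x y h0 h1
    funext j
    fin_cases j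
    · exact h0
    · exact h1
  have hJ' : DLBI Go7 cinfV := by
    intro r k N hN i T B hT hinj hdis t
    refine hJ r k N hN (fun b J a => (i b J a).1) (fun b J a => (i b J a).2 0)
      (fun b J a => (i b J a).2 1) T B hT (fun b J hJn => ?_) (fun b b' hbb J hJn a a' => ?_) t
    · intro a a' hab
      apply hinj b J hJn
      simp only [Prod.mk.injEq] at hab
      exact Prod.ext (Prod.ext hab.1 (key _ _ hab.2.1 hab.2.2.1)) hab.2.2.2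
    · rintro ⟨h1, h2, h3⟩
      apply hdis b b' hbb J hJn a a'
      exact Prod.ext (key _ _ h1 h2) h3
  refine bad_divBI bad7 (mod7 n) (two_pow_ne7 n) hJ' hN hne ?_ ?_ hm'
    (fun a => hu _ (bad7.prime a)) Pr ?_ t
  · rintro b J hJn j j' hjj ⟨y, hy⟩
    exact hin b J hJn j j' hjj ⟨(y : K), by exact_mod_cast congrArg (fun z : 𝓞 K => (z : K)) hy⟩
  · rintro b b' hbb J hJn j j' ⟨y, hy⟩
    refine hcr b b' hbb J hJn j j' ⟨(y : K), ?_⟩
    rcases hy with hy | hy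
    · exact Or.inl (by exact_mod_cast congrArg (fun z : 𝓞 K => (z : K)) hy)
    · exact Or.inr (by exact_mod_cast congrArg (fun z : 𝓞 K => (z : K)) hy)
  · intro b d hd h
    refine hPr b d hd fun J hJn j => ?_
    obtain ⟨i, S, s, h1, h2, h3⟩ := h J hJn j
    refine ⟨i.1, i.2 0, i.2 1, S, s, h1, ?_, h3⟩
    rw [h2, mu7']
    rfl

end

end D

open NumberField IsDedekindDomain Finset WeierstrassCurve
open Pool.Agent.Lib.MP_1a91b9_ntV Pool.Agent.Lib.MP_1a91b9_nuT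
open Pool.Agent.Lib.MP_1a91b9_ntN.G (MQT)
open Pool.Agent.Lib.MP_1a91b9_ntV.DS (cinfV)
open Pool.Agent.Lib.MP_1a91b9_ntV.J (c7 exists_sq_mul)
open Pool.Agent.Lib.MP_1a91b9_ntW.J (RkZ Cls2)
open Pool.Agent.Lib.MP_1a91b9_ntZ (Atl bn SepF mqok_fam cross_of)
open Pool.Agent.Lib.MP_1a91b9_ntZ.J7 (rk7_of)

noncomputable section

attribute [local instance 5000] Pool.Agent.Lib.MP_1a91b9_ntV.cd7

/-- **The binomial law for the tuples over every multiquadratic extension of `ℚ(√-7)`.** -/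
theorem dmain7BI (hJ : JBI7) (F : Type) [Field F] [NumberField F] [Algebra K7 F]
    (hF : IntermediateField.adjoin K7 {x : F | ∃ c : K7, x ^ 2 = algebraMap K7 F c} = ⊤)
    {d₀ : K7} (hd₀ : d₀ ≠ 0) {m u : 𝓞 K7} (hmu : Cls2 K7 m u) {r k : ℕ}
    {δ : Fin k → Finset (Fin r) → K7} (hne : ∀ i J, δ i J ≠ 0)
    (hδ : ∀ J : Finset (Fin r), J.Nonempty → SepF K7 F {1, -1} fun i => δ i J) (t : ℕ) :
    DivGI (𝓞 K7) r m u (fun d => Atl t fun i => ∀ J : Finset (Fin r), J.Nonempty →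
      RkZ (c7 (algebraMap K7 F t7) (algebraMap K7 F (d₀ * δ i J * ((∏ j ∈ J, d j : 𝓞 K7) : K7)))))
      (bn k t ((∏' i : ℕ, (1 - 1 / (2 : ℝ) ^ (i + 1))) ^
        ((2 ^ r - 1) * Module.finrank K7 F))) := by
  obtain ⟨n, hn⟩ := hmu.1
  obtain ⟨A, hA⟩ := MQT.exists_of hF
  obtain ⟨α, hmem, hα0, hαsq, hαpw⟩ := mqok_fam hA.ok
  have h0 : ∀ i J, d₀ * δ i J ≠ 0 := fun i J => mul_ne_zero hd₀ (hne i J)
  have hex : ∀ i J, ∃ D ν : 𝓞 K7, ν ≠ 0 ∧ (D : K7) = d₀ * δ i J * (ν : K7) ^ 2 :=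
    fun i J => exists_sq_mul (d₀ := d₀ * δ i J)
  choose D ν hν hD using hex
  have hν' : ∀ i J, (ν i J : K7) ≠ 0 := fun i J => RingOfIntegers.coe_ne_zero_iff.2 (hν i J)
  have hD' : ∀ i J, (D i J : K7) ≠ 0 := by
    intro i J
    rw [hD i J]
    exact mul_ne_zero (h0 i J) (pow_ne_zero 2 (hν' i J))
  have hα' : ∀ j, (α j : K7) ≠ 0 := fun j => RingOfIntegers.coe_ne_zero_iff.2 (hα0 j)
  have hco : ∀ i J j, ((D i J * α j : 𝓞 K7) : K7) = (D i J : K7) * α j := by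
    intro i J j
    push_cast
    rfl
  rw [cinfV_form]
  refine div7BI hJ (Module.finrank_pos (R := K7) (M := F)) (a := fun i J j => D i J * α j)
    ?_ ?_ ?_ hn hmu.2 _ (fun i d hd h => ?_) t
  · intro i J j
    exact mul_ne_zero (RingOfIntegers.coe_ne_zero_iff.1 (hD' i J)) (hα0 j)
  · rintro i J hJn j j' hjj ⟨y, hy⟩
    refine hαpw j j' hjj ⟨y / (D i J : K7), ?_⟩
    rw [div_pow, hy, hco, hco, div_eq_iff (pow_ne_zero 2 (hD' i J))]
    ring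
  · rintro i i' hii J hJn j j' ⟨y, hy⟩
    have key : ∀ e ∈ ({1, -1} : Set K7), ¬ ∃ y : K7, y ^ 2 = e * ((D i J : K7) * α j *
        ((D i' J : K7) * α j')) := fun e he =>
      cross_of hd₀ (hν' i J) (hν' i' J) (hα' j) (hα' j') (hD i J) (hD i' J) (hαsq j) (hαsq j')
        ((hδ J hJn).2 i i' hii e he)
    have e1 := congrArg₂ (· * ·) (hco i J j) (hco i' J j')
    rcases hy with hy | hy
    · refine key 1 (Or.inl rfl) ⟨y, ?_⟩
      rw [one_mul]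
      exact hy.trans e1
    · refine key (-1) (Or.inr rfl) ⟨y, ?_⟩
      rw [neg_one_mul]
      exact hy.trans (congrArg Neg.neg e1)
  · intro J hJn
    have hp : (∏ l ∈ J, d l) ≠ 0 := Finset.prod_ne_zero_iff.2 fun l _ => (hd l).ne_zero
    refine rk7_of hA (h0 i J) (hν i J) (hD i J) hp fun b hb => ?_
    obtain ⟨j, rfl⟩ := (hmem b).1 hb
    exact h J hJn j

/-- **The binomial law for the tuples and the curves `y² = x (x + d₀) (x + d₀ (1 - t7)⁴)`.** -/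
theorem dbi7 (hJ : JBI7) {d₀ : K7} (hd₀ : d₀ ≠ 0) : DBI K7 2 (fun _ => Cls2 K7) {1, -1}
    (d₀ * (1 + (1 - (t7 : K7)) ^ 4)) (d₀ ^ 2 * (1 - (t7 : K7)) ^ 4)
    (∏' i : ℕ, (1 - 1 / (2 : ℝ) ^ (i + 1))) := by
  refine DBI.of_ne fun F _ _ _ hF m u hmu r k δ hne hδ t => ?_
  have h1 := dmain7BI hJ F hF hd₀ hmu hne hδ t
  have e : ∀ (i : Fin k) (J : Finset (Fin r)) (x : K7),
      c7 (algebraMap K7 F t7) (algebraMap K7 F (d₀ * δ i J * x)) =
      ⟨0, algebraMap K7 F (δ i J * x * (d₀ * (1 + (1 - (t7 : K7)) ^ 4))), 0,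
        algebraMap K7 F ((δ i J * x) ^ 2 * (d₀ ^ 2 * (1 - (t7 : K7)) ^ 4)), 0⟩ := by
    intro i J x
    have e1 : δ i J * x * (d₀ * (1 + (1 - (t7 : K7)) ^ 4)) =
        d₀ * δ i J * x * (1 + (1 - (t7 : K7)) ^ 4) := by ring
    have e2 : (δ i J * x) ^ 2 * (d₀ ^ 2 * (1 - (t7 : K7)) ^ 4) =
        (d₀ * δ i J * x) ^ 2 * (1 - (t7 : K7)) ^ 4 := by ring
    rw [e1, e2, map_mul _ (d₀ * δ i J * x), map_mul _ ((d₀ * δ i J * x) ^ 2),
      map_pow _ (d₀ * δ i J * x), map_add, map_one, map_pow, map_sub, map_one]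
    rfl
  simp only [e] at h1
  exact h1

end

end Pool.Agent.Lib.MP_1a91b9_ntMQ
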