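import Pool.Agent.Lib.MP_1a91b9_ntZ.Main8B
import Pool.Agent.Lib.MP_1a91b9_ntMQ.UT1
import Pool.Agent.Lib.MP_1a91b9_ntMQ.UT2

/-!
# MP_1a91b9_nt (random multiquadratic fields, binomial form), `ℚ(√-2)`
-/

set_option autoImplicit false
set_option linter.unusedSectionVars false

namespace Pool.Agent.Lib.MP_1a91b9_ntMQ

open NumberField IsDedekindDomain Finset WeierstrassCurve
open Pool.Agent.Lib.MP_1a91b9_ntW
open Pool.Agent.Lib.MP_1a91b9_ntW.J (RkZ twd c8 c8_sq fm8 ellK8 Tdq_c8 WW_all exists_sq_mul Cls2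
  cls8)
open Pool.Agent.Lib.MP_1a91b9_nuX.LG (LConcl)
open Pool.Agent.Lib.MP_1a91b9_ntN.G (MQT)
open Pool.Agent.Lib.MP_1a91b9_ntY (Tdq chainQ)
open Pool.Agent.Lib.MP_1a91b9_ntQ.Da (cinf2)
open Pool.Agent.Lib.MP_1a91b9_ntZ (Atl bn SepF)

noncomputable section

attribute [local instance 5000] Pool.Agent.Lib.MP_1a91b9_ntW.cd8

/-- **The density of the squarefree `d` for which at least `t` of the blocks of twists are good.** -/
theorem div8BI (hJ : JBI8) {r k N : ℕ} (hN : 0 < N) {a : Fin k → Finset (Fin r) → Fin N → 𝓞 K8}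
    (hne : ∀ b J n, a b J n ≠ 0)
    (hin : ∀ b, ∀ J : Finset (Fin r), J.Nonempty → ∀ n n', n ≠ n' →
      ¬ ∃ y : K8, y ^ 2 = (a b J n : K8) * a b J n')
    (hcr : ∀ b b', b ≠ b' → ∀ J : Finset (Fin r), J.Nonempty → ∀ n n',
      ¬ ∃ y : K8, y ^ 2 = (a b J n : K8) * a b' J n' ∨ y ^ 2 = -((a b J n : K8) * a b' J n'))
    {n : ℕ} {M u : 𝓞 K8} (hM : M ∣ 2 ^ n) (hu : ¬ ((2 : 𝓞 K8) ∣ M ∧ (2 : 𝓞 K8) ∣ u))
    (P : Fin k → (Fin r → 𝓞 K8) → Prop)
    (hP : ∀ b (d : Fin r → 𝓞 K8), (∀ l, Squarefree (d l)) →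
      (∀ J : Finset (Fin r), J.Nonempty → ∀ n, ∃ (κ j : ZMod 2) (S : Finset Pg) (s : 𝓞 K8),
      s ≠ 0 ∧ a b J n * ∏ l ∈ J, d l = dW κ j S * s ^ 2 ∧ GW κ j S ≠ 0) → P b d) (t : ℕ) :
    DivGI (𝓞 K8) r M u (fun d => Atl t fun b => P b d)
      (bn k t ((∏' i : ℕ, (1 + 1 / (2 : ℝ) ^ (i + 1))⁻¹) ^ ((2 ^ r - 1) * N))) := by
  rw [Pool.Agent.Lib.MP_1a91b9_ntQ.cinf2_form]
  have hm' : M ∣ (2 : 𝓞 K8) ^ (n + 3) := hM.trans (pow_dvd_pow _ (by omega))
  have hJ' : DLBI Go8 cinf2 := by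
    intro r k N hN i T B hT hinj hdis t
    have h1 := hJ r k N hN (fun b J a => (i b J a).1) (fun b J a => (i b J a).2 () + 1) T B hT
      (fun b J hJn a a' haa => ?_) (fun b b' hbb J hJn a a' haa => ?_) t
    · rw [← ps_eq] at h1
      exact h1
    · apply hinj b J hJn
      have haa' : ((i b J a).1, (i b J a).2 () + 1, T b J a) =
        ((i b J a').1, (i b J a').2 () + 1, T b J a') := haa
      have e1 : (i b J a).1 = (i b J a').1 := congrArg (fun x => x.1) haa'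
      have e2 : (i b J a).2 () + 1 = (i b J a').2 () + 1 := congrArg (fun x => x.2.1) haa'
      have e3 : T b J a = T b J a' := congrArg (fun x => x.2.2) haa'
      refine Prod.ext (Prod.ext e1 ?_) e3
      funext x
      exact add_right_cancel e2
    · apply hdis b b' hbb J hJn a a'
      have e2 : (i b J a).2 () + 1 = (i b' J a').2 () + 1 := congrArg (fun x => x.1) haa
      have e3 : T b J a = T b' J a' := congrArg (fun x => x.2) haa
      refine Prod.ext ?_ e3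
      funext x
      exact add_right_cancel e2
  refine bad_divBI bad8 (mod8 n) (two_pow_ne n) hJ' hN hne ?_ ?_ hm'
    (fun x => cls_two hM hu _ (bad8.prime x)) P ?_ t
  · rintro b J hJn n n' h ⟨y, hy⟩
    exact hin b J hJn n n' h ⟨(y : K8), by exact_mod_cast congrArg (fun z : 𝓞 K8 => (z : K8)) hy⟩
  · rintro b b' hbb J hJn n n' ⟨y, hy⟩
    refine hcr b b' hbb J hJn n n' ⟨(y : K8), hy.imp (fun h => ?_) fun h => ?_⟩
    · exact_mod_cast congrArg (fun z : 𝓞 K8 => (z : K8)) h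
    · exact_mod_cast congrArg (fun z : 𝓞 K8 => (z : K8)) h
  · intro b d hd h
    refine hP b d hd fun J hJn n => ?_
    obtain ⟨i, S, s, h1, h2, h3⟩ := h J hJn n
    have e := mu8 i.1 (i.2 () + 1) S
    rw [← ix8] at e
    exact ⟨i.1, i.2 () + 1, S, s, h1, h2.trans (congrArg (fun z => z * s ^ 2) e), h3⟩

/-- **The rank part over every multiquadratic extension of `ℚ(√-2)`, the binomial law.** -/
theorem dmain8BI (hJ : JBI8) (F : Type) [Field F] [NumberField F] [Algebra K8 F]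
    (hF : IntermediateField.adjoin K8 {x : F | ∃ c : K8, x ^ 2 = algebraMap K8 F c} = ⊤)
    {r k : ℕ} {d₀ : Fin k → Finset (Fin r) → K8} (hd₀ : ∀ b J, d₀ b J ≠ 0)
    (hsep : ∀ b b', b ≠ b' → ∀ J : Finset (Fin r), J.Nonempty →
      ¬ ∃ x : F, x ^ 2 = algebraMap K8 F (d₀ b J * d₀ b' J) ∨
      x ^ 2 = -algebraMap K8 F (d₀ b J * d₀ b' J))
    {n : ℕ} {m u : 𝓞 K8} (hm : m ∣ 2 ^ n) (hu : ¬ ((2 : 𝓞 K8) ∣ m ∧ (2 : 𝓞 K8) ∣ u)) (t : ℕ) :
    DivGI (𝓞 K8) r m u (fun d => Atl t fun b => ∀ J : Finset (Fin r), J.Nonempty →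
      RkZ (c8 (algebraMap K8 F (d₀ b J * ((∏ l ∈ J, d l : 𝓞 K8) : K8)))))
      (bn k t ((∏' i : ℕ, (1 + 1 / (2 : ℝ) ^ (i + 1))⁻¹) ^
        ((2 ^ r - 1) * Module.finrank K8 F))) := by
  obtain ⟨A, hA⟩ := MQT.exists_of hF
  have hok := hA.ok
  have h1 : ∀ b J, ∃ (δ ν : 𝓞 K8), ν ≠ 0 ∧ (δ : K8) = d₀ b J * (ν : K8) ^ 2 :=
    fun b J => exists_sq_mul
  choose δ ν hν hδν using h1
  have hν' : ∀ b J, (ν b J : K8) ≠ 0 := fun b J => by exact_mod_cast hν b J
  have hδ' : ∀ b J, (δ b J : K8) ≠ 0 := fun b J => by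
    rw [hδν]
    exact mul_ne_zero (hd₀ b J) (pow_ne_zero 2 (hν' b J))
  have hδ : ∀ b J, δ b J ≠ 0 := fun b J => by exact_mod_cast hδ' b J
  have hmem : ∀ i : Fin A.length, A.get i ∈ A := fun i => List.get_mem A i
  have hmul : ∀ x y : 𝓞 K8, ((x * y : 𝓞 K8) : K8) = (x : K8) * y := fun x y => by
    push_cast
    rfl
  rw [← hok.len]
  refine div8BI hJ (a := fun b J i => δ b J * A.get i) ?_ ?_ ?_ ?_ hm hu
    (fun b d => ∀ J : Finset (Fin r), J.Nonempty →
      RkZ (c8 (algebraMap K8 F (d₀ b J * ((∏ l ∈ J, d l : 𝓞 K8) : K8)))))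
    (fun b d hd h => ?_) t
  · rw [hok.len]
    exact Module.finrank_pos
  · intro b J i
    exact mul_ne_zero (hδ b J) (hok.ne _ (hmem i))
  · rintro b J hJn i i' hii ⟨y, hy⟩
    have hpw := List.pairwise_iff_get.1 hok.pw
    have h2 : (y / (δ b J : K8)) ^ 2 = ((A.get i : 𝓞 K8) : K8) * (A.get i' : 𝓞 K8) := by
      have hb := hδ' b J
      rw [hmul, hmul] at hy
      rw [div_pow, hy]
      field_simp
    rcases lt_or_gt_of_ne hii with h3 | h3
    · exact hpw i i' h3 ⟨_, h2⟩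
    · exact hpw i' i h3 ⟨_, by rw [h2, mul_comm]⟩
  · rintro b b' hbb J hJn i i' ⟨y, hy⟩
    obtain ⟨x, hx⟩ := hok.sq _ (hmem i)
    obtain ⟨x', hx'⟩ := hok.sq _ (hmem i')
    have hne : ∀ i : Fin A.length, algebraMap K8 F ((A.get i : 𝓞 K8) : K8) ≠ 0 := fun i => by
      rw [Ne, map_eq_zero]
      exact_mod_cast hok.ne _ (hmem i)
    have hx0 : x ≠ 0 := by
      rintro rfl
      exact hne i (by rw [← hx]; ring)
    have hx0' : x' ≠ 0 := by
      rintro rfl
      exact hne i' (by rw [← hx']; ring)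
    have hn : algebraMap K8 F (ν b J : K8) ≠ 0 := by
      rw [Ne, map_eq_zero]
      exact hν' b J
    have hn' : algebraMap K8 F (ν b' J : K8) ≠ 0 := by
      rw [Ne, map_eq_zero]
      exact hν' b' J
    have e : (δ b J * A.get i : 𝓞 K8) = (δ b J : K8) * ((A.get i : 𝓞 K8) : K8) := hmul _ _
    have e' : (δ b' J * A.get i' : 𝓞 K8) = (δ b' J : K8) * ((A.get i' : 𝓞 K8) : K8) := hmul _ _
    have key : algebraMap K8 F (((δ b J * A.get i : 𝓞 K8) : K8) * ((δ b' J * A.get i' : 𝓞 K8) : K8)) =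
        algebraMap K8 F (d₀ b J * d₀ b' J) *
          (algebraMap K8 F (ν b J) * algebraMap K8 F (ν b' J) * x * x') ^ 2 := by
      rw [e, e', hδν, hδν]
      simp only [map_mul, map_pow]
      rw [← hx, ← hx']
      ring
    refine hsep b b' hbb J hJn ⟨algebraMap K8 F y /
      (algebraMap K8 F (ν b J) * algebraMap K8 F (ν b' J) * x * x'), hy.imp (fun h => ?_) fun h => ?_⟩
    · have h2 := congrArg (algebraMap K8 F) h
      rw [key, map_pow] at h2
      rw [div_pow, h2]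
      field_simp
    · have h2 := congrArg (algebraMap K8 F) h
      rw [map_neg, key, map_pow] at h2
      rw [div_pow, h2]
      field_simp
  · intro J hJn
    have h := h J hJn
    have hp : (∏ l ∈ J, d l) ≠ 0 := Finset.prod_ne_zero_iff.2 fun l _ => (hd l).ne_zero
    revert h hp
    generalize (∏ l ∈ J, d l) = d
    intro h hp
    have h1 : LConcl (Tdq F (4 : K8) 2 0 (δ b J * d)) ∧
        Finite (Tdq F (4 : K8) 2 0 (δ b J * d)).toAffine.Point := by
      refine chainQ ellK8 ?_ hA (δ b J * d) (mul_ne_zero (hδ b J) hp) fun z hz => ?_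
      · have h1 := fm8 (F := K8) (δ := 1) one_ne_zero
        rw [c8, mul_one, one_pow, mul_one] at h1
        exact h1
      · obtain ⟨i, rfl⟩ := List.mem_iff_get.1 hz
        have h3 := WW_all (h i)
        have e : A.get i * (δ b J * d) = δ b J * A.get i * d := by ring
        have e2 := Tdq_c8 K8 (A.get i * (δ b J * d))
        have e3 : Tdq K8 (4 : K8) 2 0 (A.get i * (δ b J * d)) = WW (δ b J * A.get i * d) := by
          rw [e2, ← e]
          rfl
        rw [← e3] at h3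
        exact h3
    rw [Tdq_c8] at h1
    have hd0 : (d : K8) ≠ 0 := by exact_mod_cast hp
    have e : algebraMap K8 F ((δ b J * d : 𝓞 K8) : K8) =
        algebraMap K8 F (d₀ b J * d) * (algebraMap K8 F (ν b J : K8)) ^ 2 := by
      rw [hmul, hδν, ← map_pow (algebraMap K8 F), ← map_mul (algebraMap K8 F)]
      congr 1
      ring
    rw [e] at h1
    refine (c8_sq ?_ ?_).1 h1
    · rw [Ne, map_eq_zero]
      exact mul_ne_zero (hd₀ b J) hd0
    · rw [Ne, map_eq_zero]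
      exact hν' b J

/-- The form for the curves `y² = x³ + a x² + b x` with `a² = 8 b`. -/
theorem dbi8 (hJ : JBI8) {a b : K8} (hab : a ^ 2 = 8 * b) (hb : b ≠ 0) :
    DBI K8 2 (fun _ _ => Cls2 K8) {1, -1} a b (∏' i : ℕ, (1 + 1 / (2 : ℝ) ^ (i + 1))⁻¹) := by
  refine DBI.of_ne fun F _ _ _ hF m u hmu r k δ hne hδ t => ?_
  obtain ⟨n, hn⟩ := hmu.1
  have ha : a ≠ 0 := by
    rintro rfl
    rw [zero_pow two_ne_zero, eq_comm, mul_eq_zero] at hab
    exact hab.elim (by norm_num) hb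
  have ha4 : a / 4 ≠ 0 := div_ne_zero ha (by norm_num)
  have haF : algebraMap K8 F (a / 4) ≠ 0 := by
    rw [Ne, map_eq_zero]
    exact ha4
  have h1 := dmain8BI hJ F hF (d₀ := fun i J => δ i J * (a / 4))
    (fun i J => mul_ne_zero (hne i J) ha4)
    (fun i i' hii J hJn => by
      have key : algebraMap K8 F (δ i J * (a / 4) * (δ i' J * (a / 4))) =
          algebraMap K8 F (δ i J * δ i' J) * (algebraMap K8 F (a / 4)) ^ 2 := by
        rw [← map_pow, ← map_mul]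
        congr 1
        ring
      rintro ⟨x, hx⟩
      rcases hx with hx | hx
      · refine (hδ J hJn).2 i i' hii 1 (by simp) ⟨x / algebraMap K8 F (a / 4), ?_⟩
        rw [div_pow, hx, key, one_mul]
        field_simp
      · refine (hδ J hJn).2 i i' hii (-1) (by simp) ⟨x / algebraMap K8 F (a / 4), ?_⟩
        rw [div_pow, hx, key, neg_one_mul, map_neg]
        field_simp) hn (cls8 hmu) t
  have e : ∀ (i : Fin k) (J : Finset (Fin r)) (x : K8), c8 (algebraMap K8 F (δ i J * (a / 4) * x)) =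
      ⟨0, algebraMap K8 F (δ i J * x * a), 0, algebraMap K8 F ((δ i J * x) ^ 2 * b), 0⟩ := by
    intro i J x
    have e1 : δ i J * x * a = 4 * (δ i J * (a / 4) * x) := by
      field_simp
    have hb8 : b = a ^ 2 / 8 := by
      rw [hab, mul_div_cancel_left₀ _ (by norm_num : (8 : K8) ≠ 0)]
    have e2 : (δ i J * x) ^ 2 * b = 2 * (δ i J * (a / 4) * x) ^ 2 := by
      rw [hb8]
      ring
    rw [e1, e2, map_mul _ 4, map_mul _ 2, map_pow, map_ofNat, map_ofNat]
    rfl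
  simp only [e] at h1
  exact h1

end

end Pool.Agent.Lib.MP_1a91b9_ntMQ
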