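import Pool.Agent.Lib.MP_1a91b9_ntMQ.UT5

/-!
# MP_1a91b9_nt (random multiquadratic fields, binomial form), `ℚ(√-3)`: the rank part over the
multiquadratic extensions
-/

set_option autoImplicit false
set_option linter.unusedSectionVars false

namespace Pool.Agent.Lib.MP_1a91b9_ntMQ

open NumberField Finset WeierstrassCurve Pool.Agent.Lib.MP_1a91b9_ntT Pool.Agent.Lib.MP_1a91b9_ntH
  Pool.Agent.Lib.MP_1a91b9_ntH2
open Pool.Agent.Lib.MP_1a91b9_ntN (K3)
open Pool.Agent.Lib.MP_1a91b9_ntP (GdE)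
open Pool.Agent.Lib.MP_1a91b9_ntN.G
open Pool.Agent.Lib.MP_1a91b9_ntW.J (RkZ Cls2 ClsN)
open Pool.Agent.Lib.MP_1a91b9_ntZ
open Pool.Agent.Lib.MP_1a91b9_ntZ.D3 (cross exists_D rkB)
open Pool.Agent.Lib.MP_1a91b9_ntDV (finR)

noncomputable section

/-- A smaller constant. -/
theorem DivGI.anti {R : Type} [CommRing R] {r : ℕ} {m u : R} {P : (Fin r → R) → Prop} {c c' : ℝ}
    (hfin : ∀ X : ℝ, {D : R | Squarefree D ∧ |Algebra.norm ℤ D| ≤ X}.Finite)
    (h : DivGI R r m u P c) (hc : c' ≤ c) : DivGI R r m u P c' := by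
  intro M ε hε
  filter_upwards [h M ε hε] with X hX
  refine hX.trans (div_le_div_of_nonneg_right (Nat.cast_le.2 ?_) (Nat.cast_nonneg _))
  refine Nat.card_mono ((hfin X).subset ?_) ?_
  · rintro D ⟨h1, -, h2, -⟩
    exact ⟨h1, h2⟩
  · rintro D ⟨h1, h2, h3, h4, h5⟩
    refine ⟨h1, h2, h3, h4, le_trans ?_ h5⟩
    exact mul_le_mul_of_nonneg_right (by linarith) (pow_nonneg (Nat.cast_nonneg _) _)

section

variable {I : Type} [Fintype I] [DecidableEq I] {μ : I → 𝓞 K3} {b : I → Bool} {jj : I → ℕ}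
  {cc : I → F4}

/-- **The extensions which do not contain `i`.** -/
theorem dprop3BI (H : Fm3 μ b jj cc) (hJ : JBI3) {e : K3}
    (he : e ≠ 0) (F : Type) [Field F] [NumberField F] [Algebra K3 F]
    (hF : IntermediateField.adjoin K3 {x : F | ∃ c : K3, x ^ 2 = algebraMap K3 F c} = ⊤)
    (hi : ¬ ∃ x : F, x ^ 2 = -1) {m u : 𝓞 K3} (hmu : Cls2 K3 m u) {r k : ℕ}
    {δ : Fin k → Finset (Fin r) → K3} (hδ0 : ∀ i J, δ i J ≠ 0)
    (hδ : ∀ J : Finset (Fin r), J.Nonempty → SepF K3 F {1, -1} fun i => δ i J) (t : ℕ) :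
    DivGI (𝓞 K3) r m u (fun d => Atl t fun i => ∀ J : Finset (Fin r), J.Nonempty →
      RkZ (⟨0, algebraMap K3 F (δ i J * ((∏ l ∈ J, d l : 𝓞 K3) : K3) * (-3 * e)), 0,
      algebraMap K3 F ((δ i J * ((∏ l ∈ J, d l : 𝓞 K3) : K3)) ^ 2 * (3 * e ^ 2)), 0⟩ :
        WeierstrassCurve F))
      (bn k t (Da.cinf ^ ((2 ^ r - 1) * Module.finrank K3 F))) := by
  obtain ⟨A, hA⟩ := MQT.exists_of hF
  choose D ν hν hD hD0 using fun J : Finset (Fin r) =>
    exists_D he (δ := fun i : Fin k => δ i J) fun i => hδ0 i J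
  obtain ⟨⟨n, hm⟩, hu'⟩ := hmu
  rw [← hA.ok.len]
  have hpw : ∀ (n n' : Fin A.length), n ≠ n' →
      ¬ ∃ y : K3, y ^ 2 = ((A.get n : 𝓞 K3) : K3) * ((A.get n' : 𝓞 K3) : K3) ∨
        y ^ 2 = -(((A.get n : 𝓞 K3) : K3) * ((A.get n' : 𝓞 K3) : K3)) := by
    intro n n' hnn
    have h1 := List.pairwise_iff_get.1 (hA.pw_neg hi)
    rcases lt_or_gt_of_ne hnn with h2 | h2
    · exact h1 n n' h2
    · rw [mul_comm]
      exact h1 n' n h2
  refine div3BI H hJ (List.length_pos_iff.2 hA.ne_nil) (a := fun i J n => D J i * A.get n)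
    (fun i J n => mul_ne_zero (hD0 J i) (hA.ok.ne _ (List.get_mem A n))) ?_ hm (not_four hu') t _
    (fun d hd h => h.mono fun i hi J hJn => rkB hA (hν J) (hD J) (hD0 J)
      (Finset.prod_ne_zero_iff.2 fun l _ => (hd l).ne_zero) (hi J hJn))
  rintro J hJn i n i' n' hii ⟨y, hy⟩
  by_cases h : i = i'
  · subst h
    have hnn : n ≠ n' := fun h0 => hii (by rw [h0])
    have hδK : (D J i : K3) ≠ 0 := by exact_mod_cast hD0 J i
    have e1 : ((D J i * A.get n : 𝓞 K3) : K3) * ((D J i * A.get n' : 𝓞 K3) : K3) =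
        (D J i : K3) ^ 2 * (((A.get n : 𝓞 K3) : K3) * ((A.get n' : 𝓞 K3) : K3)) := by
      push_cast
      ring
    rw [e1] at hy
    rcases hy with hy | hy
    · refine hpw n n' hnn ⟨y / (D J i : K3), Or.inl ?_⟩
      rw [div_pow, hy]
      field_simp
    · refine hpw n n' hnn ⟨y / (D J i : K3), Or.inr ?_⟩
      rw [div_pow, hy]
      field_simp
  · rcases hy with hy | hy
    · exact cross hA he (hδ J hJn) (hν J) (hD J) h (List.get_mem A n) (List.get_mem A n') (s := 1)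
        (by simp) (hy.trans (one_mul _).symm)
    · exact cross hA he (hδ J hJn) (hν J) (hD J) h (List.get_mem A n) (List.get_mem A n') (s := -1)
        (by simp) (hy.trans (neg_one_mul _).symm)

/-- **All the extensions generated by square roots, all the classes.** -/
theorem dbi3_of (H : Fm3 μ b jj cc) (hJ : JBI3) (hP : JPI3) {e : K3} (he : e ≠ 0) :
    DBI K3 2 (fun _ _ => Cls2 K3) {1, -1} (-3 * e) (3 * e ^ 2) cS3 := by
  refine DBI.of_ne fun F _ _ _ hF m u hmu r k δ hδ0 hδ t => ?_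
  by_cases hi : ∃ x : F, x ^ 2 = -1
  · obtain ⟨A, hA⟩ := MQT.exists_of hF
    choose D ν hν hD hD0 using fun J : Finset (Fin r) =>
      exists_D he (δ := fun i : Fin k => δ i J) fun i => hδ0 i J
    obtain ⟨⟨n, hm⟩, hu'⟩ := hmu
    rw [← hA.ok.len]
    refine div3PI H hP (List.length_pos_iff.2 hA.ne_nil) (a := fun i J n => D J i * A.get n)
      (fun i J n => mul_ne_zero (hD0 J i) (hA.ok.ne _ (List.get_mem A n))) ?_ ?_
      (fun i J n => ?_) hm (not_four hu') t _ (fun d hd h => h.mono fun i hi J hJn =>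
        rkB hA (hν J) (hD J) (hD0 J)
          (Finset.prod_ne_zero_iff.2 fun l _ => (hd l).ne_zero) (hi J hJn))
    · rintro i J n n' hnn ⟨y, hy⟩
      have hδK : (D J i : K3) ≠ 0 := by exact_mod_cast hD0 J i
      have e1 : ((D J i * A.get n : 𝓞 K3) : K3) * ((D J i * A.get n' : 𝓞 K3) : K3) =
          (D J i : K3) ^ 2 * (((A.get n : 𝓞 K3) : K3) * ((A.get n' : 𝓞 K3) : K3)) := by
        push_cast
        ring
      have h2 : (y / (D J i : K3)) ^ 2 = ((A.get n : 𝓞 K3) : K3) * ((A.get n' : 𝓞 K3) : K3) := by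
        rw [div_pow, hy, e1]
        field_simp
      have h1 := List.pairwise_iff_get.1 hA.ok.pw
      rcases lt_or_gt_of_ne hnn with h3 | h3
      · exact h1 n n' h3 ⟨_, h2⟩
      · exact h1 n' n h3 ⟨_, h2.trans (mul_comm _ _)⟩
    · rintro J hJn i i' h n n' ⟨y, hy⟩
      exact cross hA he (hδ J hJn) (hν J) (hD J) h (List.get_mem A n) (List.get_mem A n') (s := 1)
        (by simp) (hy.trans (one_mul _).symm)
    · obtain ⟨y, hy, z, hz, h1⟩ := hA.neg_cl hi (A.get n) (List.get_mem A n)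
      obtain ⟨n', rfl⟩ := List.mem_iff_get.1 hy
      refine ⟨n', z, hz, ?_⟩
      have e1 : ((D J i * A.get n : 𝓞 K3) : K3) = (D J i : K3) * ((A.get n : 𝓞 K3) : K3) := by
        push_cast
        rfl
      have e2 : ((D J i * A.get n' : 𝓞 K3) : K3) = (D J i : K3) * ((A.get n' : 𝓞 K3) : K3) := by
        push_cast
        rfl
      rw [e1, e2]
      linear_combination (D J i : K3) * h1
  · refine DivGI.anti finR (dprop3BI H hJ he F hF hi hmu hδ0 hδ t) ?_
    have h1 : cS3 ^ ((2 ^ r - 1) * Module.finrank K3 F) ≤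
        Da.cinf ^ ((2 ^ r - 1) * Module.finrank K3 F) :=
      pow_le_pow_left₀ (Real.sqrt_nonneg _) cS3_le _
    have h3 := bts_mono (univ : Finset (Fin k)) t
      (x := fun _ => cS3 ^ ((2 ^ r - 1) * Module.finrank K3 F))
      (y := fun _ => Da.cinf ^ ((2 ^ r - 1) * Module.finrank K3 F))
      (fun _ _ => pow_nonneg (Real.sqrt_nonneg _) _) (fun _ _ => h1)
      (fun _ _ => pow_le_one₀ cinf_pos.le (cinf_le.trans (by norm_num)))
    rw [bts_const, bts_const, card_univ, Fintype.card_fin] at h3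
    exact h3

end

/-- **The binomial law over all the extensions of `ℚ(√-3)` generated by square roots, all the classes.** -/
theorem dbi3a (hJ : JBI3) (hP : JPI3) {e : K3} (he : e ≠ 0) :
    DBI K3 2 (fun _ _ => Cls2 K3) {1, -1} (-3 * e) (3 * e ^ 2)
      (√((∏' i : ℕ, (1 + 1 / (2 : ℝ) ^ (2 * i + 1))⁻¹) / 2)) := by
  rw [← cinf_prod]
  exact dbi3_of fm3 hJ hP he

/-- **The binomial law over the extensions which do not contain `i`.** -/
theorem dbi3b (hJ : JBI3) {e : K3} (he : e ≠ 0) :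
    DBI K3 2 (fun F _ => ClsN K3 F) {1, -1} (-3 * e) (3 * e ^ 2)
      (∏' i : ℕ, (1 + 1 / (2 : ℝ) ^ (2 * i + 1))⁻¹) := by
  refine DBI.of_ne fun F _ _ _ hF m u hmu r k δ hδ0 hδ t => ?_
  rw [← cinf_prod]
  exact dprop3BI fm3 hJ he F hF hmu.2 hmu.1 hδ0 hδ t

end

end Pool.Agent.Lib.MP_1a91b9_ntMQ
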