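import Pool.Agent.Lib.MP_1a91b9_ntMQ.RU0
import Pool.Agent.Lib.MP_1a91b9_ntMQ.Y15

/-!
Y16: the joint law for blocks of labels, `ℚ(√-2)`, in the form of RU0.lean
-/

set_option autoImplicit false

namespace Pool.Agent.Lib.MP_1a91b9_ntMQ

theorem jbi8 : JBI8 := fun r k N _ i j T₀ B hT hinj hdis t => jbi8' r k N i j T₀ B hT hinj hdis t

end Pool.Agent.Lib.MP_1a91b9_ntMQ
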