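import Pool.Agent.Lib.MP_1a91b9_ntDV.K3_9
import Pool.Agent.Lib.MP_1a91b9_ntMQ.A8
import Pool.Agent.Lib.MP_1a91b9_ntMQ.P1
import Pool.Agent.Lib.MP_1a91b9_ntMQ.Z2

/-!
# MP_1a91b9_nt (random multiquadratic fields), `ℚ(√-3)`: the joint moments and the joint density, in a class
-/

set_option autoImplicit false
set_option linter.unusedSectionVars false

namespace Pool.Agent.Lib.MP_1a91b9_ntMQ

open Finset Pool.Agent.Lib.MP_1a91b9_ntH Pool.Agent.Lib.MP_1a91b9_ntQ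
open Pool.Agent.Lib.MP_1a91b9_ntQ.Da Pool.Agent.Lib.MP_1a91b9_ntV
open Pool.Agent.Lib.MP_1a91b9_ntDV
open Pool.Agent.Lib.MP_1a91b9_ntP (DatG LSysG LabJ Bs kJ offG)

noncomputable section

open Pool.Agent.Lib.MP_1a91b9_ntV.DJ
open Pool.Agent.Lib.MP_1a91b9_ntQ (Off up dn)

section Ch

variable {I : Type} [Fintype I] [DecidableEq I] {ι : Type} [DecidableEq ι] [PS ι]

/-- The value may be changed if the number of the sets is `o(X)`. -/
theorem AVI.change {F : (I → Finset ι) → ℂ} {v : ℂ} (hF : AVI F v) (v' : ℂ) (h : Sm ι) :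
    AVI F v' := by
  intro ε hε
  obtain ⟨d, hd⟩ : ∃ d : ℝ, d = ‖v - v'‖ := ⟨_, rfl⟩
  have hd0 : 0 ≤ d := by
    rw [hd]
    exact norm_nonneg _
  obtain ⟨X1, h1⟩ := hF (ε / 4) (by positivity)
  obtain ⟨X2, h2⟩ := h (ε / (4 * (d ^ 2 + 1))) (by positivity)
  refine ⟨X1 + X2, fun X hX => ?_⟩
  have g1 := h1 X (by omega)
  have g2 := h2 X (by omega)
  have h3 : ∀ S ∈ Sx ι X, ‖avI F S - v'‖ ^ 2 ≤ 2 * ‖avI F S - v‖ ^ 2 + 2 * d ^ 2 := by
    intro S _
    have h4 : ‖avI F S - v'‖ ≤ ‖avI F S - v‖ + d := by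
      rw [hd]
      have e : avI F S - v' = (avI F S - v) + (v - v') := by ring
      rw [e]
      exact norm_add_le _ _
    have h5 : ‖avI F S - v'‖ ^ 2 ≤ (‖avI F S - v‖ + d) ^ 2 :=
      pow_le_pow_left₀ (norm_nonneg _) h4 2
    nlinarith [sq_nonneg (‖avI F S - v‖ - d)]
  refine (sum_le_sum h3).trans ?_
  rw [sum_add_distrib, ← mul_sum, sum_const, nsmul_eq_mul]
  have hN : (0 : ℝ) ≤ (Sx ι X).card := Nat.cast_nonneg _
  have hX0 : (0 : ℝ) ≤ X := Nat.cast_nonneg _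
  have h6 : d ^ 2 * ((Sx ι X).card) ≤ ε / 4 * X := by
    have h7 : d ^ 2 * ((Sx ι X).card : ℝ) ≤ d ^ 2 * (ε / (4 * (d ^ 2 + 1)) * X) :=
      mul_le_mul_of_nonneg_left g2 (sq_nonneg _)
    have h8 : d ^ 2 * (ε / (4 * (d ^ 2 + 1)) * X) ≤ ε / 4 * X := by
      have h9 : d ^ 2 * (ε / (4 * (d ^ 2 + 1)) * X) = ε / 4 * X * (d ^ 2 / (d ^ 2 + 1)) := by
        field_simp
      rw [h9]
      have h10 : d ^ 2 / (d ^ 2 + 1) ≤ 1 := by
        rw [div_le_one (by positivity)]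
        linarith
      exact mul_le_of_le_one_right (by positivity) h10
    exact h7.trans h8
  nlinarith

end Ch

variable {I A : Type} [Fintype I] [DecidableEq I] [Fintype A] [DecidableEq A]
  {phi : A → I → ZMod 2} {ι : Type} [DecidableEq ι] [PS ι] {D : MP_1a91b9_ntE.DatE ι}
  {Bt : A → Type} [∀ a, Fintype (Bt a)] [∀ a, DecidableEq (Bt a)]

/-- **The joint moments for the products of the divisors, in a class.** -/
theorem PclI_kJ4 (hs : Sp phi) (hD : D.toDat.Rec) (Q : ∀ a, Bt a → Bs D) {B : Finset ι}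
    (hB : (offG D B).OK) {T : ∀ a, Bt a → Finset ι} (hT : ∀ a b, T a b ⊆ B)
    (hi : ∀ a, Function.Injective fun b => ((Q a b).ρ, (Q a b).τ, T a b))
    (γ : I → Bool ⊕ (Unit ⊕ B) → ZMod 2) (k : ∀ a, Bt a → ℕ) :
    PclI (D4 (offG D B)) γ (fun c => ∏ a, kJ (Q a) (T a) (k a) (TT phi c a))
      (∏ a, ∏ b, (MP_1a91b9_ntH.Da.Nk (k a b) : ℝ)) := by
  have hO : OKt (D4 (offG D B)) (w4 _) := okt_D4 hB
  choose M hM rf cf W hW hK hV using fun a => exists_K4 hD (Q a) hB (hT a) (hi a) (k a)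
  have h1 := AVI_cls hs hO rf cf (fun a S => (kJ (Q a) (T a) (k a) S : ℂ)) hW hK γ
  unfold PclI
  rw [AVrI_iff]
  by_cases hn : Sm (Off B)
  · refine AVI.congr (AVI.change h1 _ hn) (fun c => ?_) rfl
    rw [apply_ite (fun x : ℝ => (x : ℂ))]
    push_cast
    rfl
  · refine AVI.congr h1 (fun c => ?_) ?_
    · rw [apply_ite (fun x : ℝ => (x : ℂ))]
      push_cast
      rfl
    · rw [Complex.ofReal_div]
      congr 1
      · rw [Complex.ofReal_prod]
        refine prod_congr rfl fun a _ => ?_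
        rw [eq_div_iff (hW a), sum_eq_single (0 : Bool ⊕ (Unit ⊕ B) → ZMod 2)]
        · rw [hV a hn, if_pos rfl, zero_dotProduct, e2_zero, one_mul]
        · intro c0 _ hc0
          rw [hV a hn, if_neg hc0, zero_mul, mul_zero]
        · intro h
          exact absurd (mem_univ _) h
      · push_cast
        rfl

open Classical in
/-- **The joint density for the products of the divisors, in a class.** -/
theorem PclI_dens4 (hs : Sp phi) (hD : D.toDat.Rec) (Q : ∀ a, Bt a → Bs D) {B : Finset ι}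
    (hB : (offG D B).OK) {T : ∀ a, Bt a → Finset ι} (hT : ∀ a b, T a b ⊆ B)
    (hi : ∀ a, Function.Injective fun b => ((Q a b).ρ, (Q a b).τ, T a b))
    (γ : I → Bool ⊕ (Unit ⊕ B) → ZMod 2) :
    PclI (D4 (offG D B)) γ (fun c => ∏ a, ∏ b,
        if (Q a b).kz (up (TT phi c a) ∪ T a b) = 1 then (1 : ℝ) else 0)
      (∏ a, MP_1a91b9_ntH.Da.cinf ^ Fintype.card (Bt a)) := by
  have h1 := LimP.Nk4 (limP_PclI (D4 (offG D B)) γ) (A := Σ a, Bt a)
    (x := fun p (c : I → Finset (Off B)) => (Q p.1 p.2).kz (up (TT phi c p.1) ∪ T p.1 p.2))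
    (fun p c => (Q p.1 p.2).pow _) fun k => by
      have h2 := PclI_kJ4 hs hD Q hB hT hi γ fun a b => k ⟨a, b⟩
      have e1 : (fun c : I → Finset (Off B) => ∏ p : (Σ a, Bt a),
          ((Q p.1 p.2).kz (up (TT phi c p.1) ∪ T p.1 p.2) : ℝ) ^ k p) =
          fun c => ∏ a, kJ (Q a) (T a) (fun b => k ⟨a, b⟩) (TT phi c a) := by
        funext c
        rw [Fintype.prod_sigma]
        rfl
      have e2 : (∏ p : (Σ a, Bt a), (MP_1a91b9_ntH.Da.Nk (k p) : ℝ)) =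
          ∏ a, ∏ b, (MP_1a91b9_ntH.Da.Nk (k ⟨a, b⟩) : ℝ) := Fintype.prod_sigma _
      rw [e1, e2]
      exact h2
  have e3 : (fun c : I → Finset (Off B) => ∏ p : (Σ a, Bt a),
      if (Q p.1 p.2).kz (up (TT phi c p.1) ∪ T p.1 p.2) = 1 then (1 : ℝ) else 0) =
      fun c => ∏ a, ∏ b, if (Q a b).kz (up (TT phi c a) ∪ T a b) = 1 then (1 : ℝ) else 0 :=
    funext fun c => Fintype.prod_sigma _
  have e4 : MP_1a91b9_ntH.Da.cinf ^ Fintype.card (Σ a, Bt a) =
      ∏ a, MP_1a91b9_ntH.Da.cinf ^ Fintype.card (Bt a) := by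
    rw [Fintype.card_sigma, prod_pow_eq_pow_sum]
  rw [e3, e4] at h1
  exact h1

end

end Pool.Agent.Lib.MP_1a91b9_ntMQ
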