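import Pool.Agent.Lib.MP_1a91b9_ntMQ.P10

/-!
# MP_1a91b9_nt (random multiquadratic fields): from the mean square to the tuples, for a lower bound of the indicator
-/

set_option autoImplicit false
set_option linter.unusedSectionVars false

namespace Pool.Agent.Lib.MP_1a91b9_ntMQ

open Finset Pool.Agent.Lib.MP_1a91b9_ntH Pool.Agent.Lib.MP_1a91b9_ntQ
open Pool.Agent.Lib.MP_1a91b9_ntQ.Da Pool.Agent.Lib.MP_1a91b9_ntV Pool.Agent.Lib.MP_1a91b9_ntM
open Pool.Agent.Lib.MP_1a91b9_ntDV

noncomputable section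

open Pool.Agent.Lib.MP_1a91b9_ntV.DJ

open Classical in
/-- From the mean square over the primes outside `B` to `SubLI`, for a lower bound of the indicator. -/
theorem AVrI.subLI_le {ι : Type} [DecidableEq ι] [PS ι] {C1 C2 : ℝ} (h1 : Cheb ι C1)
    (h2 : Zt ι C2) {r : ℕ} {B : Finset ι} {Q : (Fin r → Finset ι) → Prop} {c v : ℝ} (hcv : c ≤ v)
    {f : (Fin r → Finset (Off B)) → ℝ}
    (hf : ∀ S, f S ≤ if Q (fun i => up (S i)) then 1 else 0) (h : AVrI f v) : SubLI r B c Q := by
  obtain ⟨C, hC, hcard⟩ := card_Sx_le h1 h2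
  have hup : ∀ S₀ : Finset (Off B), (up S₀).card = S₀.card := fun S₀ => card_map _
  have hcnt : ∀ S₀ : Finset (Off B), ∑ T ∈ Fintype.piFinset (fun _ : Fin r => S₀.powerset), f T ≤
      (((tup r (up S₀)).filter Q).card : ℝ) := by
    intro S₀
    have e1 : ∑ T ∈ Fintype.piFinset (fun _ : Fin r => S₀.powerset), f T ≤
        (((Fintype.piFinset (fun _ : Fin r => S₀.powerset)).filter fun T =>
          Q (fun i => up (T i))).card : ℝ) := by
      refine (sum_le_sum fun T _ => hf T).trans (le_of_eq ?_)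
      rw [← sum_filter, sum_const, nsmul_eq_mul, mul_one]
    refine e1.trans ?_
    have e2 : ((Fintype.piFinset (fun _ : Fin r => S₀.powerset)).filter fun T =>
        Q (fun i => up (T i))).card ≤ ((tup r (up S₀)).filter Q).card := by
      refine card_le_card_of_injOn (fun T => fun i => up (T i)) ?_ ?_
      · intro T hT
        obtain ⟨hT1, hT2⟩ := mem_filter.1 hT
        refine mem_filter.2 ⟨mem_tup.2 fun i => ?_, hT2⟩
        intro q hq
        obtain ⟨hq1, hq2⟩ := mem_up.1 hq
        exact mem_up.2 ⟨hq1, mem_powerset.1 (Fintype.mem_piFinset.1 hT1 i) hq2⟩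
      · intro T _ T' _ hTT
        funext i
        exact up_injective (congrFun hTT i)
    exact_mod_cast e2
  intro ε hε
  obtain ⟨X1, hX1⟩ := AVrI.rare h (v' := c - ε) (by linarith) (ε / (C + 1)) (by positivity)
  refine ⟨max X1 2, fun X hX => ?_⟩
  have hX2 : 2 ≤ X := (le_max_right _ _).trans hX
  have h3 := hX1 X ((le_max_left _ _).trans hX)
  have h4 : (((Sx ι X).filter fun S => Disjoint S B ∧
      (((tup r S).filter Q).card : ℝ) < (c - ε) * (2 ^ S.card) ^ r).card : ℝ) ≤
      (((Sx (Off B) X).filter fun S => avrI f S < c - ε).card : ℝ) := by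
    refine Nat.cast_le.2 ?_
    refine le_trans (card_le_card (t := ((Sx (Off B) X).filter fun S => avrI f S < c - ε).image
      fun S => up S) ?_) card_image_le
    intro S hS
    obtain ⟨hS1, hS2, hS3⟩ := mem_filter.1 hS
    refine mem_image.2 ⟨dn B S, mem_filter.2 ⟨?_, ?_⟩, up_dn hS2⟩
    · rw [← up_mem_Sx, up_dn hS2]
      exact hS1
    · unfold avrI
      rw [div_lt_iff₀ (by positivity), Fintype.card_fin, mul_comm r, pow_mul]
      refine lt_of_le_of_lt (hcnt _) ?_
      rw [← hup, up_dn hS2]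
      exact hS3
  have h5 : ((Sx (Off B) X).card : ℝ) ≤ (Sx ι X).card := by
    refine Nat.cast_le.2 ?_
    refine card_le_card_of_injOn (fun S => up S) ?_ (up_injective.injOn)
    intro S hS
    exact up_mem_Sx.2 hS
  have h6 := hcard X hX2
  have hX0 : (0 : ℝ) ≤ X := Nat.cast_nonneg X
  refine h4.trans (h3.trans ?_)
  calc ε / (C + 1) * ((Sx (Off B) X).card + X) ≤ ε / (C + 1) * (C * X + X) := by
        refine mul_le_mul_of_nonneg_left ?_ (by positivity)
        linarith
    _ = ε * X := by
        field_simp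

end

end Pool.Agent.Lib.MP_1a91b9_ntMQ
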