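import Pool.Agent.Lib.MP_1a91b9_ntDV.K3_15
import Pool.Agent.Lib.MP_1a91b9_ntMQ.Z6

/-!
# MP_1a91b9_nt (random multiquadratic fields), `ℚ(√-3)`: the joint laws for blocks of labels and tuples of divisors
-/

set_option autoImplicit false
set_option linter.unusedSectionVars false

namespace Pool.Agent.Lib.MP_1a91b9_ntMQ

open Finset Pool.Agent.Lib.MP_1a91b9_ntH Pool.Agent.Lib.MP_1a91b9_ntH2
  Pool.Agent.Lib.MP_1a91b9_ntE Pool.Agent.Lib.MP_1a91b9_ntQ
open Pool.Agent.Lib.MP_1a91b9_ntP (GdE Bs offG qG_OK trQ trW trQ_rho trQ_tau trW_sum tr_val bsQ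
  bsQ_inj bsQ_one)
open Pool.Agent.Lib.MP_1a91b9_ntZ (Atl bn)

noncomputable section

/-- **The joint law for blocks of labels and tuples of divisors over `ℚ(√-3)`.** -/
theorem jbi3 : JBI3 := by
  intro r k A _ _ f c T B hT hi g hg hgv t
  classical
  refine jcI3 (K := Unit) A (fun α i J a _ => bsQ (f i J a) (c i J a + α)) (fun _ _ _ _ => 1) T B
    hT (fun α J hJ u => bsQ_inj (A := (Σ i, A i J)) (f := fun p => f p.1 J p.2)
      (c := fun p => c p.1 J p.2 + α) (T := fun p => T p.1 J p.2) ?_)
    (fun α i J a S => GdE (f i J a) (c i J a + α) S) (fun α i J a S => ?_)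
    (fun α i J a S => ?_) (fun α i J a S hS => ?_) (fun i J a => by simp) (fun i J a => by simp)
    hg (fun i => ?_) t
  · intro p p' h
    apply hi J hJ
    simp only [Prod.mk.injEq] at h ⊢
    refine ⟨h.1, ?_, h.2.2⟩
    have h4 := h.2.1
    rw [F4.tr_add, F4.tr_add] at h4
    exact add_right_cancel h4
  · rw [sum_const, card_univ, Fintype.card_unit, one_smul, one_mul]
    split_ifs <;> norm_num
  · rw [sum_const, card_univ, Fintype.card_unit, one_smul, one_mul]
    split_ifs <;> norm_num
  · rw [sum_const, card_univ, Fintype.card_unit, one_smul, one_mul,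
      if_neg fun h => hS ((bsQ_one _ _ _).1 h)]
  · refine (hgv i).trans (le_of_eq ?_)
    simp

/-- **The joint law for blocks of pairs of labels and tuples of divisors over `ℚ(√-3)`.** -/
theorem jpi3 : JPI3 := by
  intro r k A _ _ f c T B hT hi g hg hgv t
  classical
  have h : SubLI r B (bn k t g) fun S => Atl t fun i => ∀ J : Finset (Fin r), J.Nonempty → ∀ a,
      GdE (f i J a) (c i J a + qd.A (sdJ J S)) (sdJ J S ∪ T i J a) ∧
        GdE (f i J a) (c i J a + qd.A (sdJ J S) + 1) (sdJ J S ∪ T i J a) := by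
    refine jcI3 (K := Fin 3) A (fun α i J a j => trQ (f i J a) (c i J a + α) j)
      (fun i J a j => trW (f i J a) j) T B hT (fun α J hJ u => ?_)
      (fun α i J a S => GdE (f i J a) (c i J a + α) S ∧ GdE (f i J a) (c i J a + α + 1) S)
      (fun α i J a S => (tr_val _ _ S).1) (fun α i J a S => (tr_val _ _ S).2.1)
      (fun α i J a S hS => (tr_val _ _ S).2.2 hS) (fun i J a => ?_) (fun i J a => ?_) hg
      (fun i => ?_) t
    · intro a a' h
      have e1 : (trQ (f a.1 J a.2) (c a.1 J a.2 + α) (u a)).ρ =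
          (trQ (f a'.1 J a'.2) (c a'.1 J a'.2 + α) (u a')).ρ := congrArg Prod.fst h
      have e2 : (trQ (f a.1 J a.2) (c a.1 J a.2 + α) (u a)).τ =
          (trQ (f a'.1 J a'.2) (c a'.1 J a'.2 + α) (u a')).τ := congrArg (fun x => x.2.1) h
      have e3 : T a.1 J a.2 = T a'.1 J a'.2 := congrArg (fun x => x.2.2) h
      rw [trQ_rho, trQ_rho, F4.tr_add, F4.tr_add] at e1
      rw [trQ_tau, trQ_tau] at e2
      have h4 : ∀ x y : Bool, (if x = true then (1 : ZMod 2) else 0) =
          (if y = true then 1 else 0) → x = y := by decide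
      exact hi J hJ (Prod.ext (h4 _ _ e2) (Prod.ext (add_right_cancel (add_left_cancel e1)) e3))
    · rw [trW_sum]
      split_ifs <;> norm_num
    · rw [trW_sum]
      split_ifs <;> norm_num
    · refine (hgv i).trans (le_of_eq (prod_congr rfl fun J _ => prod_congr rfl fun a _ => ?_))
      rw [trW_sum]
      split_ifs
      · ring
      · ring
  have e : ∀ (S : Finset Pq) i J (a : A i J), c i J a + qd.A S + 1 = c i J a + 1 + qd.A S := by
    intro S i J a
    ring
  simp only [e] at h
  exact h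

end

end Pool.Agent.Lib.MP_1a91b9_ntMQ
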