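import Pool.Agent.Lib.MP_1a91b9_ntMQ.B2
import Pool.Agent.Lib.MP_1a91b9_ntMQ.X23
import Pool.Agent.Lib.MP_1a91b9_ntMQ.Y16
import Pool.Agent.Lib.MP_1a91b9_ntMQ.Z7
import Pool.Agent.Lib.MP_1a91b9_ntMQ.UT3
import Pool.Agent.Lib.MP_1a91b9_ntMQ.UT4
import Pool.Agent.Lib.MP_1a91b9_ntMQ.UT6
import Pool.Agent.Lib.MP_1a91b9_ntMQ.UT7
import Pool.Agent.Lib.MP_1a91b9_ntMQ.RU15

/-!
# MP_1a91b9_nt (random multiquadratic fields, binomial form): the laws over the standard fields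
-/

set_option autoImplicit false

namespace Pool.Agent.Lib.MP_1a91b9_ntMQ

open NumberField
open Pool.Agent.Lib.MP_1a91b9_ntI (K3)
open Pool.Agent.Lib.MP_1a91b9_ntW (K8)
open Pool.Agent.Lib.MP_1a91b9_ntV (K7 t7)
open Pool.Agent.Lib.MP_1a91b9_ntW.J (Cls2 ClsN cR cS cI cJ)
open Pool.Agent.Lib.MP_1a91b9_ntY (cmList)

section
attribute [local instance 5000] Pool.Agent.Lib.MP_1a91b9_ntV.cd7

theorem lawI7 {d₀ : K7} (h : d₀ ≠ 0) : DBI K7 2 (fun _ => Cls2 K7) {1, -1}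
    (d₀ * (1 + (1 - (t7 : K7)) ^ 4)) (d₀ ^ 2 * (1 - (t7 : K7)) ^ 4) cS := dbi7 jbi7 h

end

section
attribute [local instance 5000] Pool.Agent.Lib.MP_1a91b9_ntQ.cd4

theorem lawI4 {b : Pool.Agent.Lib.MP_1a91b9_ntQ.K4} (h : b ≠ 0) :
    DBI Pool.Agent.Lib.MP_1a91b9_ntQ.K4 4 (fun _ => Cls2 Pool.Agent.Lib.MP_1a91b9_ntQ.K4) {1, b} 0 b
      cR := dbi4 G4.jbi4 h

end

section
attribute [local instance 5000] Pool.Agent.Lib.MP_1a91b9_ntW.cd8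

theorem lawI8 {e : K8} (he : e ≠ 0) :
    DBI K8 2 (fun _ => Cls2 K8) {1, -1} (4 * e) (2 * e ^ 2) cR :=
  dbi8 jbi8 (by ring) (mul_ne_zero two_ne_zero (pow_ne_zero 2 he))

end

theorem lawI3 {e : K3} (he : e ≠ 0) :
    DBI K3 2 (fun F _ => ClsN K3 F) {1, -1} (-3 * e) (3 * e ^ 2) cI := dbi3b jbi3 he

theorem lawI3' {e : K3} (he : e ≠ 0) :
    DBI K3 2 (fun _ => Cls2 K3) {1, -1} (-3 * e) (3 * e ^ 2) cJ := dbi3a jbi3 jpi3 he

/-- **The law for the rank zero twists**, all the curves. -/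
theorem stdI_all : StdI cmList :=
  stdI_of (fun _ h => h) (fun _ _ h => lawI4 h) (fun _ _ h => lawI8 h) (fun _ _ h => lawI7 h)
    (fun _ _ h => lawI3 h) (fun _ _ h => lawI3' h)

end Pool.Agent.Lib.MP_1a91b9_ntMQ
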