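import Pool.Agent.Lib.MP_1a91b9_ntMQ.RT8
import Pool.Agent.Lib.MP_1a91b9_ntMQ.RT10

/-!
# MP_1a91b9_nt (random multiquadratic fields): independent families of products

`sdJ J A` is the symmetric difference of the sets `A i`, `i ∈ J`.
-/

set_option autoImplicit false
set_option linter.unusedSectionVars false

namespace Pool.Agent.Lib.MP_1a91b9_ntMQ

open Finset

section sets

variable {ι : Type} [DecidableEq ι] {r k : ℕ}

theorem sdJ_symm (J J' : Finset (Fin k)) (A : Fin k → Finset ι) :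
    sdJ (symmDiff J J') A = symmDiff (sdJ J A) (sdJ J' A) := by
  classical
  have key : ∀ (P : Finset (Fin k)), ∀ Q : Finset (Fin k), Disjoint P Q →
      sdJ (P ∪ Q) A = symmDiff (sdJ P A) (sdJ Q A) := by
    intro P
    induction P using Finset.induction_on with
    | empty =>
      intro Q _
      rw [empty_union, sdJ_empty]
      ext x
      simp [mem_symmDiff]
    | insert a P ha ih =>
      intro Q hQ
      have h1 : a ∉ Q := fun h => disjoint_left.1 hQ (mem_insert_self a P) h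
      have h2 : Disjoint P Q := disjoint_of_subset_left (subset_insert a P) hQ
      rw [insert_union, sdJ_insert (fun h => (mem_union.1 h).elim ha h1), ih Q h2,
        sdJ_insert ha, symmDiff_assoc]
  have e1 : J = (J \ J') ∪ (J ∩ J') := (sdiff_union_inter J J').symm
  have e2 : J' = (J' \ J) ∪ (J ∩ J') := by
    rw [inter_comm]
    exact (sdiff_union_inter J' J).symm
  have e3 : symmDiff J J' = (J \ J') ∪ (J' \ J) := by
    rw [symmDiff_def]
    rfl
  have k1 := key _ _ (disjoint_sdiff_inter J J')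
  have k2 := key (J' \ J) (J ∩ J') (by
    rw [inter_comm]
    exact disjoint_sdiff_inter J' J)
  have k3 := key _ _ (disjoint_sdiff_sdiff (x := J) (y := J'))
  rw [← e1] at k1
  rw [← e2] at k2
  rw [e3, k3, k1, k2, symmDiff_assoc, symmDiff_comm (sdJ (J ∩ J') A), symmDiff_assoc,
    symmDiff_self, symmDiff_bot]

/-- The family is independent: no nonempty symmetric difference is empty. -/
def IndJ (A : Fin k → Finset ι) : Prop :=
  ∀ J : Finset (Fin k), J.Nonempty → (sdJ J A).Nonempty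

theorem IndJ.inj {A : Fin k → Finset ι} (h : IndJ A) : Function.Injective A := by
  classical
  intro i j hij
  by_contra hne
  have h1 := h {i, j} (insert_nonempty _ _)
  have h2 : sdJ {i, j} A = ∅ := by
    rw [sdJ_insert (by rw [mem_singleton]; exact hne)]
    have h3 : sdJ {j} A = A j := by
      have h4 := sdJ_insert (notMem_empty j) A
      rw [sdJ_empty, insert_empty_eq] at h4
      rw [h4]
      exact symmDiff_bot _
    rw [h3, hij, symmDiff_self]
    rfl
  rw [h2] at h1
  exact not_nonempty_empty h1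

theorem sdJ_cons_succ (B : Finset ι) (A : Fin k → Finset ι) (J : Finset (Fin k)) :
    sdJ (J.image Fin.succ) (Fin.cons B A : Fin (k + 1) → Finset ι) = sdJ J A := by
  classical
  induction J using Finset.induction_on with
  | empty => rw [image_empty, sdJ_empty, sdJ_empty]
  | insert a J ha ih =>
    have h1 : Fin.succ a ∉ J.image Fin.succ := by
      rw [mem_image]
      rintro ⟨b, hb, h⟩
      rw [Fin.succ_inj] at h
      exact ha (h ▸ hb)
    rw [image_insert, sdJ_insert h1, sdJ_insert ha, ih, Fin.cons_succ]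

theorem sdJ_cons_zero (B : Finset ι) (A : Fin k → Finset ι) (J : Finset (Fin k)) :
    sdJ (insert 0 (J.image Fin.succ)) (Fin.cons B A : Fin (k + 1) → Finset ι) =
      symmDiff B (sdJ J A) := by
  classical
  have h1 : (0 : Fin (k + 1)) ∉ J.image Fin.succ := by
    rw [mem_image]
    rintro ⟨b, -, h⟩
    exact Fin.succ_ne_zero b h
  rw [sdJ_insert h1, sdJ_cons_succ, Fin.cons_zero]

theorem cases_cons (J : Finset (Fin (k + 1))) : ∃ J' : Finset (Fin k),
    J = J'.image Fin.succ ∨ J = insert 0 (J'.image Fin.succ) := by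
  classical
  refine ⟨univ.filter fun i => Fin.succ i ∈ J, ?_⟩
  have h1 : ∀ i : Fin (k + 1), i ∈ (univ.filter fun i => Fin.succ i ∈ J).image Fin.succ ↔
      i ∈ J ∧ i ≠ 0 := by
    intro i
    rw [mem_image]
    constructor
    · rintro ⟨a, ha, rfl⟩
      exact ⟨(mem_filter.1 ha).2, Fin.succ_ne_zero a⟩
    · rintro ⟨h2, h3⟩
      obtain ⟨a, rfl⟩ := Fin.exists_succ_eq.2 h3
      exact ⟨a, mem_filter.2 ⟨mem_univ _, h2⟩, rfl⟩
  by_cases h0 : (0 : Fin (k + 1)) ∈ J
  · right
    ext i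
    rw [mem_insert, h1]
    by_cases hi : i = 0
    · subst hi
      exact ⟨fun _ => Or.inl rfl, fun _ => h0⟩
    · exact ⟨fun h => Or.inr ⟨h, hi⟩, fun h => (h.resolve_left hi).1⟩
  · left
    ext i
    rw [h1]
    exact ⟨fun h => ⟨h, fun hi => h0 (hi ▸ h)⟩, fun h => h.1⟩

/-- A set which is not a symmetric difference of the elements of the family can be added. -/
theorem IndJ.cons {A : Fin k → Finset ι} (h : IndJ A) {B : Finset ι}
    (hB : ∀ J : Finset (Fin k), sdJ J A ≠ B) : IndJ (Fin.cons B A : Fin (k + 1) → Finset ι) := by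
  classical
  intro J hJ
  obtain ⟨J', hJ' | hJ'⟩ := cases_cons J
  · rw [hJ', sdJ_cons_succ]
    refine h J' ?_
    rw [hJ', image_nonempty] at hJ
    exact hJ
  · rw [hJ', sdJ_cons_zero, nonempty_iff_ne_empty]
    intro h1
    exact hB J' (symmDiff_eq_bot.1 h1).symm

/-- **A maximal independent family** of sets with the property `Q`. -/
theorem exists_maxJ [Fintype ι] (Q : Finset ι → Prop) : ∃ (k : ℕ) (A : Fin k → Finset ι),
    k ≤ Fintype.card (Finset ι) ∧ IndJ A ∧ (∀ i, Q (A i)) ∧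
    ∀ B, Q B → ∃ J : Finset (Fin k), sdJ J A = B := by
  classical
  let S : Set ℕ := {k | ∃ A : Fin k → Finset ι, IndJ A ∧ ∀ i, Q (A i)}
  have hb : ∀ k ∈ S, k ≤ Fintype.card (Finset ι) := by
    rintro k ⟨A, hA, -⟩
    have h1 := Fintype.card_le_of_injective A hA.inj
    rwa [Fintype.card_fin] at h1
  have h0 : (0 : ℕ) ∈ S := ⟨fun i => i.elim0, fun J hJ => by
    obtain ⟨i, -⟩ := hJ
    exact i.elim0, fun i => i.elim0⟩
  obtain ⟨k, hkS, hmax⟩ : ∃ k ∈ S, ∀ k' ∈ S, k' ≤ k := by
    have hne : ∃ k, k ∈ S := ⟨0, h0⟩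
    have hfin : S.Finite := (Set.finite_Iic (Fintype.card (Finset ι))).subset fun k hk => hb k hk
    obtain ⟨k, hk, h⟩ := hfin.toFinset.exists_max_image id ⟨0, hfin.mem_toFinset.2 h0⟩
    exact ⟨k, hfin.mem_toFinset.1 hk, fun k' hk' => h k' (hfin.mem_toFinset.2 hk')⟩
  obtain ⟨A, hA, hQ⟩ := hkS
  refine ⟨k, A, hb k ⟨A, hA, hQ⟩, hA, hQ, fun B hB => ?_⟩
  by_contra hcon
  push Not at hcon
  have h1 : k + 1 ∈ S := by
    refine ⟨Fin.cons B A, hA.cons hcon, fun i => ?_⟩
    refine Fin.cases ?_ (fun i => ?_) i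
    · rw [Fin.cons_zero]
      exact hB
    · rw [Fin.cons_succ]
      exact hQ i
  have h2 := hmax _ h1
  omega

end sets

section prod

variable {R : Type} [CommRing R] {r k : ℕ}

theorem prod_symmJ (e : Fin r → R) (S T : Finset (Fin r)) :
    (∏ i ∈ S, e i) * ∏ i ∈ T, e i = (∏ i ∈ symmDiff S T, e i) * (∏ i ∈ S ∩ T, e i) ^ 2 := by
  have h1 : ∏ i ∈ S, e i = (∏ i ∈ S \ T, e i) * ∏ i ∈ S ∩ T, e i := by
    rw [← prod_union (disjoint_sdiff_inter S T), sdiff_union_inter]
  have h2 : ∏ i ∈ T, e i = (∏ i ∈ T \ S, e i) * ∏ i ∈ S ∩ T, e i := by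
    rw [inter_comm, ← prod_union (disjoint_sdiff_inter T S), sdiff_union_inter]
  have h3 : ∏ i ∈ symmDiff S T, e i = (∏ i ∈ S \ T, e i) * ∏ i ∈ T \ S, e i := by
    rw [← prod_union (disjoint_sdiff_sdiff), symmDiff_def]
    rfl
  rw [h1, h2, h3]
  ring

/-- The products of the products. -/
theorem prod_sdJ [IsDomain R] {e : Fin r → R} (he : ∀ i, e i ≠ 0) (A : Fin k → Finset (Fin r))
    (J : Finset (Fin k)) : ∃ w : R, w ≠ 0 ∧
      ∏ i ∈ J, ∏ x ∈ A i, e x = (∏ x ∈ sdJ J A, e x) * w ^ 2 := by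
  classical
  induction J using Finset.induction_on with
  | empty => exact ⟨1, one_ne_zero, by rw [prod_empty, sdJ_empty, prod_empty]; ring⟩
  | insert a J ha ih =>
    obtain ⟨w, hw, h1⟩ := ih
    refine ⟨w * ∏ i ∈ A a ∩ sdJ J A, e i,
      mul_ne_zero hw (prod_ne_zero_iff.2 fun i _ => he i), ?_⟩
    rw [prod_insert ha, sdJ_insert ha, h1]
    linear_combination w ^ 2 * prod_symmJ e (A a) (sdJ J A)

end prod

end Pool.Agent.Lib.MP_1a91b9_ntMQ
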