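import Pool.Agent.Lib.MP_1a91b9_ntMQ.RT23
import Pool.Agent.Lib.MP_1a91b9_ntMQ.UW1

/-!
# MP_1a91b9_nt (random multiquadratic fields): the pointwise theorem for all the intermediate fields
-/

set_option autoImplicit false

namespace Pool.Agent.Lib.MP_1a91b9_ntMQ

open NumberField WeierstrassCurve
open Pool.Agent.Lib.MP_1a91b9_nuI (HasJ)
open Pool.Agent.Lib.MP_1a91b9_ntL (crv)
open Pool.Agent.Lib.MP_1a91b9_ntW.J (RkZ twd twd_crv twd_hasJ hasJ_map)
open Pool.Agent.Lib.MP_1a91b9_ntC (Stb NoNew)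
open Pool.Agent.Lib.MP_1a91b9_ntDV (TwP)

noncomputable section

/-- The rank part does not change if `z` is multiplied by a square. -/
theorem rkz_sq {K : Type} [Field K] [NumberField K] {a b : K} {j : ℤ} (hj : HasJ (crv a b) j)
    (F : Type) [Field F] [NumberField F] [Algebra K F] (z : K) {w : K} (hw : w ≠ 0) :
    RkZ (⟨0, algebraMap K F (z * w ^ 2 * a), 0, algebraMap K F ((z * w ^ 2) ^ 2 * b), 0⟩ :
      WeierstrassCurve F) ↔
    RkZ (⟨0, algebraMap K F (z * a), 0, algebraMap K F (z ^ 2 * b), 0⟩ : WeierstrassCurve F) := by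
  have hwF : algebraMap K F w ≠ 0 := (map_ne_zero _).2 hw
  have h1 : HasJ (⟨0, algebraMap K F (z * a), 0, algebraMap K F (z ^ 2 * b), 0⟩ :
      WeierstrassCurve F) j := by
    have h2 := hasJ_map (algebraMap K F) (twd_hasJ hj z)
    rw [twd_crv] at h2
    have e : ((⟨0, z * a, 0, z ^ 2 * b, 0⟩ : WeierstrassCurve K).map (algebraMap K F)) =
        ⟨0, algebraMap K F (z * a), 0, algebraMap K F (z ^ 2 * b), 0⟩ :=
      WeierstrassCurve.ext (map_zero _) rfl (map_zero _) rfl (map_zero _)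
    rw [e] at h2
    exact h2
  have h3 := Pool.Agent.Lib.MP_1a91b9_ntW.J.RkZ.vc h1
    (⟨(Units.mk0 (algebraMap K F w) hwF)⁻¹, 0, 0, 0⟩ : VariableChange F)
  have e : (⟨(Units.mk0 (algebraMap K F w) hwF)⁻¹, 0, 0, 0⟩ : VariableChange F) •
      (⟨0, algebraMap K F (z * a), 0, algebraMap K F (z ^ 2 * b), 0⟩ : WeierstrassCurve F) =
      ⟨0, algebraMap K F (z * w ^ 2 * a), 0, algebraMap K F ((z * w ^ 2) ^ 2 * b), 0⟩ := by
    rw [WeierstrassCurve.variableChange_def]
    refine WeierstrassCurve.ext ?_ ?_ ?_ ?_ ?_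
    · simp
    · simp only [map_mul, map_pow, inv_inv, Units.val_mk0, mul_zero, sub_zero, add_zero,
        ne_eq, OfNat.ofNat_ne_zero, not_false_eq_true, zero_pow]
      ring
    · simp
    · simp only [map_mul, map_pow, inv_inv, Units.val_mk0, mul_zero, sub_zero, add_zero,
        ne_eq, OfNat.ofNat_ne_zero, not_false_eq_true, zero_pow, zero_mul]
      ring
    · simp
  rw [e] at h3
  exact h3

/-- The properties of `y² = x³ + a x² + b x` over all the fields between `F` and the field generated by the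
square roots of the `e i`: these are the fields which are generated over `F` by square roots of products of the
`e i`. The degree of the largest field, no new points, the L-series and the rank, the properties of the
twists by the products which are not squares, and independent generators with the properties `PM`. -/
def PMF {K : Type} [Field K] [NumberField K] (a b : K) (F : Type) [Field F] [NumberField F]
    [Algebra K F] {r : ℕ} (e : Fin r → K) : Prop :=
  (∀ i, e i ≠ 0) ∧
  (∀ (F' : Type) [Field F'] [NumberField F'] [Algebra K F'] [Algebra F F'] [IsScalarTower K F F']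
    (x : Fin r → F'), (∀ i, x i ^ 2 = algebraMap K F' (e i)) →
    IntermediateField.adjoin F (Set.range x) = ⊤ → Module.finrank F F' = 2 ^ r) ∧
  ∀ (F' : Type) [Field F'] [NumberField F'] [Algebra K F'] [Algebra F F'] [IsScalarTower K F F'],
    IntermediateField.adjoin F
      {y : F' | ∃ J : Finset (Fin r), y ^ 2 = algebraMap K F' (∏ i ∈ J, e i)} = ⊤ →
    NoNew F ((crv a b).map (algebraMap K F')) ∧
    Stb ((crv a b).map (algebraMap K F)) ((crv a b).map (algebraMap K F')) ∧
    (∀ J : Finset (Fin r), ¬ IsSquare (algebraMap K F' (∏ i ∈ J, e i)) →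
      TwP a b F' (∏ i ∈ J, e i)) ∧
    ∃ (k : ℕ) (α : Fin k → K) (x : Fin k → F'),
      MQx (fun i => algebraMap K F (α i)) x Finset.univ ∧ PM a b F α

/-- **The pointwise theorem for all the intermediate fields.** -/
theorem pmf_of (K : Type) [Field K] [NumberField K] (hK : Module.finrank ℚ K = 2)
    (a b : K) (hE : b * (a ^ 2 - 4 * b) ≠ 0) (j D : ℤ)
    (hjD : (j, D) ∈ Pool.Agent.Lib.MP_1a91b9_ntY.cmList)
    (hj : 256 * (a ^ 2 - 3 * b) ^ 3 = j * (b ^ 2 * (a ^ 2 - 4 * b))) (hD : ∃ s : K, s ^ 2 = D)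
    (l : ℕ) (hl : l = 2 ∨ l = 4 ∧ ∃ i : K, i ^ 2 = -1)
    (F : Type) [Field F] [NumberField F] [Algebra K F]
    (hF : IntermediateField.adjoin K {x : F | ∃ c : K, x ^ l = algebraMap K F c} = ⊤) (r : ℕ) :
    ∃ B : Finset F, (∀ β ∈ B, β ≠ 0) ∧ ∀ e : Fin r → 𝓞 K, (∀ i, e i ≠ 0) →
      (∀ J : Finset (Fin r), J.Nonempty → RkZ (⟨0, algebraMap K F (((∏ i ∈ J, e i : 𝓞 K) : K) * a), 0,
        algebraMap K F (((∏ i ∈ J, e i : 𝓞 K) : K) ^ 2 * b), 0⟩ : WeierstrassCurve F)) →
      (∀ β ∈ B, ∀ J : Finset (Fin r), J.Nonempty →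
        ¬ IsSquare (algebraMap K F ((∏ i ∈ J, e i : 𝓞 K) : K) * β)) →
      PMF a b F (fun i => (e i : K)) := by
  classical
  have hJ : HasJ (crv a b) j := by
    refine Pool.Agent.Lib.MP_1a91b9_ntY.hasJ_crv ?_
    linear_combination 16 * hj
  choose B hB0 hB using fun k : ℕ => pm_of K hK a b hE j D hjD hj hD l hl F hF k
  obtain ⟨B', hB'⟩ : ∃ B' : Finset F, B' = B r ∪
      (Finset.range (Fintype.card (Finset (Fin r)) + 2)).biUnion B := ⟨_, rfl⟩
  refine ⟨B', fun β hβ => ?_, fun e he hR hns => ?_⟩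
  · rw [hB', Finset.mem_union, Finset.mem_biUnion] at hβ
    rcases hβ with hβ | ⟨k, -, hβ⟩
    · exact hB0 r β hβ
    · exact hB0 k β hβ
  have he0 : ∀ i, (e i : K) ≠ 0 := fun i => by exact_mod_cast he i
  have hco : ∀ J : Finset (Fin r), ((∏ i ∈ J, e i : 𝓞 K) : K) = ∏ i ∈ J, (e i : K) := fun J =>
    map_prod (algebraMap (𝓞 K) K) e J
  -- the independent families
  have key : ∀ (k : ℕ), k < Fintype.card (Finset (Fin r)) + 2 → ∀ A : Fin k → Finset (Fin r),
      IndJ A → PM a b F (fun i => ∏ x ∈ A i, (e x : K)) := by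
    intro k hk A hA
    have h1 := hB k (fun i => ∏ x ∈ A i, e x) (fun i => Finset.prod_ne_zero_iff.2 fun x _ => he x)
      (fun J hJn => ?_) (fun β hβ J hJn hsq => ?_)
    · have e1 : (fun i => ((∏ x ∈ A i, e x : 𝓞 K) : K)) = fun i => ∏ x ∈ A i, (e x : K) :=
        funext fun i => hco (A i)
      rw [e1] at h1
      exact h1
    · obtain ⟨w, hw, h2⟩ := prod_sdJ he A J
      have h3 : ((∏ i ∈ J, ∏ x ∈ A i, e x : 𝓞 K) : K) =
          ((∏ x ∈ sdJ J A, e x : 𝓞 K) : K) * (w : K) ^ 2 := by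
        rw [h2]
        push_cast
        rfl
      rw [h3]
      refine (rkz_sq hJ F _ (w := (w : K)) (by exact_mod_cast hw)).2 ?_
      exact hR _ (hA J hJn)
    · obtain ⟨w, hw, h2⟩ := prod_sdJ he A J
      have h3 : ((∏ i ∈ J, ∏ x ∈ A i, e x : 𝓞 K) : K) =
          ((∏ x ∈ sdJ J A, e x : 𝓞 K) : K) * (w : K) ^ 2 := by
        rw [h2]
        push_cast
        rfl
      have hw' : algebraMap K F (w : K) ≠ 0 := (map_ne_zero _).2 (by exact_mod_cast hw)
      refine hns β ?_ _ (hA J hJn) ?_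
      · rw [hB', Finset.mem_union, Finset.mem_biUnion]
        exact Or.inr ⟨k, Finset.mem_range.2 hk, hβ⟩
      · obtain ⟨z, hz⟩ := hsq
        refine ⟨z / algebraMap K F (w : K), ?_⟩
        rw [h3, map_mul, map_pow] at hz
        field_simp
        linear_combination hz
  have hPM : PM a b F (fun i => (e i : K)) :=
    hB r e he hR fun β hβ J hJn => hns β (by
      rw [hB', Finset.mem_union]
      exact Or.inl hβ) J hJn
  refine ⟨he0, ?_, ?_⟩
  · intro F' _ _ _ _ _ x hx hg
    have hKF : ∀ z : K, algebraMap K F' z = algebraMap F F' (algebraMap K F z) := fun z =>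
      IsScalarTower.algebraMap_apply K F F' z
    have h1 := (hPM Finset.univ F' x ⟨fun i _ => by rw [hx i, hKF], by
      rw [Finset.coe_univ, Set.image_univ]
      exact hg⟩).1
    rw [Finset.card_univ, Fintype.card_fin] at h1
    exact h1
  intro F' _ _ _ _ _ hg
  have hKF : ∀ z : K, algebraMap K F' z = algebraMap F F' (algebraMap K F z) := fun z =>
    IsScalarTower.algebraMap_apply K F F' z
  obtain ⟨k, A, hk, hA, hQ, hmax⟩ :=
    exists_maxJ (fun J : Finset (Fin r) => IsSquare (algebraMap K F' (∏ i ∈ J, (e i : K))))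
  choose x hx using hQ
  have hsub : ∀ (J : Finset (Fin k)), ∃ w : K, w ≠ 0 ∧
      ∏ i ∈ J, ∏ y ∈ A i, (e y : K) = (∏ y ∈ sdJ J A, (e y : K)) * w ^ 2 := fun J =>
    prod_sdJ he0 A J
  have hgx : IntermediateField.adjoin F (Set.range x) = ⊤ := by
    rw [eq_top_iff, ← hg, IntermediateField.adjoin_le_iff]
    rintro y ⟨J, hy⟩
    obtain ⟨J', rfl⟩ := hmax J ⟨y, by rw [← hy, sq]⟩
    obtain ⟨w, hw, h1⟩ := hsub J'
    have hw' : algebraMap K F' w ≠ 0 := (map_ne_zero _).2 hw
    have h2 : (∏ i ∈ J', x i) ^ 2 = (y * algebraMap K F' w) ^ 2 := by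
      have h3 : (∏ i ∈ J', x i) ^ 2 = algebraMap K F' (∏ i ∈ J', ∏ y ∈ A i, (e y : K)) := by
        rw [map_prod, ← Finset.prod_pow]
        exact Finset.prod_congr rfl fun i _ => by rw [hx i, sq]
      rw [h3, h1, map_mul, ← hy, map_pow, mul_pow]
    have h4 : ∏ i ∈ J', x i ∈ IntermediateField.adjoin F (Set.range x) :=
      prod_mem fun i _ => IntermediateField.subset_adjoin F _ ⟨i, rfl⟩
    have h5 : algebraMap K F' w ∈ IntermediateField.adjoin F (Set.range x) := by
      rw [hKF]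
      exact IntermediateField.algebraMap_mem _ _
    rcases sq_eq_sq_iff_eq_or_eq_neg.1 h2 with h6 | h6
    · have h7 : y = (∏ i ∈ J', x i) / algebraMap K F' w := by
        rw [h6]
        field_simp
      show y ∈ IntermediateField.adjoin F (Set.range x)
      rw [h7]
      exact div_mem h4 h5
    · have h7 : y = -((∏ i ∈ J', x i) / algebraMap K F' w) := by
        rw [h6]
        field_simp
      show y ∈ IntermediateField.adjoin F (Set.range x)
      rw [h7]
      exact neg_mem (div_mem h4 h5)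
  have hx' : MQx (fun i => algebraMap K F (∏ y ∈ A i, (e y : K))) x Finset.univ :=
    ⟨fun i _ => by rw [← hKF, hx i, sq], by
      rw [Finset.coe_univ, Set.image_univ]
      exact hgx⟩
  obtain ⟨-, k2, k3, -⟩ := key k (by omega) A hA Finset.univ F' x hx'
  refine ⟨k2, k3, fun J hJ => ?_, k, fun i => ∏ y ∈ A i, (e y : K), x, hx', key k (by omega) A hA⟩
  have hind : IndJ (Fin.cons J A : Fin (k + 1) → Finset (Fin r)) := by
    refine hA.cons fun J' hJ' => hJ ?_
    obtain ⟨w, hw, h1⟩ := hsub J'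
    rw [hJ'] at h1
    have hw' : algebraMap K F' w ≠ 0 := (map_ne_zero _).2 hw
    have h3 : (∏ i ∈ J', x i) ^ 2 = algebraMap K F' (∏ i ∈ J', ∏ y ∈ A i, (e y : K)) := by
      rw [map_prod, ← Finset.prod_pow]
      exact Finset.prod_congr rfl fun i _ => by rw [hx i, sq]
    refine ⟨(∏ i ∈ J', x i) / algebraMap K F' w, ?_⟩
    rw [← sq, div_pow, h3, h1, map_mul, map_pow]
    field_simp
  have h1 := key (k + 1) (by omega) _ hind
  have hx'' : MQx (fun i => algebraMap K F
      (∏ y ∈ (Fin.cons J A : Fin (k + 1) → Finset (Fin r)) i, (e y : K)))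
      (Fin.cons 0 x : Fin (k + 1) → F') (Finset.univ.image Fin.succ) := by
    refine ⟨fun i hi => ?_, ?_⟩
    · obtain ⟨i', -, rfl⟩ := Finset.mem_image.1 hi
      rw [Fin.cons_succ, Fin.cons_succ]
      exact hx'.sq i' (Finset.mem_univ _)
    · have e1 : (Fin.cons 0 x : Fin (k + 1) → F') ''
          ((Finset.univ.image Fin.succ : Finset (Fin (k + 1))) : Set (Fin (k + 1))) =
          Set.range x := by
        ext y
        constructor
        · rintro ⟨i, hi, rfl⟩
          obtain ⟨i', -, rfl⟩ := Finset.mem_image.1 (Finset.mem_coe.1 hi)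
          exact ⟨i', by rw [Fin.cons_succ]⟩
        · rintro ⟨i, rfl⟩
          exact ⟨Fin.succ i, Finset.mem_coe.2 (Finset.mem_image.2 ⟨i, Finset.mem_univ _, rfl⟩), by
            rw [Fin.cons_succ]⟩
      rw [e1]
      exact hgx
  obtain ⟨-, -, -, k4⟩ := h1 _ F' _ hx''
  have h2 := k4 0 (fun h => by
    obtain ⟨i, -, hi⟩ := Finset.mem_image.1 h
    exact Fin.succ_ne_zero i hi)
  exact h2

end

end Pool.Agent.Lib.MP_1a91b9_ntMQ
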