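import Pool.Agent.Lib.MP_1a91b9_ntMQ.RU16
import Pool.Agent.Lib.MP_1a91b9_ntMQ.UW8
import Pool.Agent.Lib.MP_1a91b9_ntMQ.X23
import Pool.Agent.Lib.MP_1a91b9_ntMQ.Y16

/-!
# MP_1a91b9_nt (random multiquadratic fields): the law, all the intermediate fields
-/

set_option autoImplicit false

namespace Pool.Agent.Lib.MP_1a91b9_ntMQ.Fin

open NumberField IsDedekindDomain WeierstrassCurve
open Pool.Agent.Lib.MP_1a91b9_ntL (crv)
open Pool.Agent.Lib.MP_1a91b9_ntW.J (RkZ)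
open Pool.Agent.Lib.MP_1a91b9_ntZ (bn CB cb_two)
open Pool.Agent.Lib.MP_1a91b9_ntDV.Fin (cst)

noncomputable section

open Classical in
/-- **The result, all the intermediate fields**, from the law for the rank zero twists. -/
theorem fin_mqF {L : List (ℤ × ℤ)} (hL : ∀ p ∈ L, p ∈ Pool.Agent.Lib.MP_1a91b9_ntY.cmList)
    (hstd : StdI L)
    (K : Type) [Field K] [NumberField K] (hK : Module.finrank ℚ K = 2)
    (E : WeierstrassCurve K) (hE : E.a₁ = 0 ∧ E.a₃ = 0 ∧ E.a₆ = 0) (hΔ : E.Δ ≠ 0) (j D : ℤ)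
    (hjD : (j, D) ∈ L)
    (hj : E.c₄ ^ 3 = j * E.Δ) (hD : ∃ s : K, s ^ 2 = D)
    (l : ℕ) (hl : l = 2 ∨ l = 4 ∧ ∃ i : K, i ^ 2 = -1)
    (F : Type) [Field F] [NumberField F] [Algebra K F]
    (hF : IntermediateField.adjoin K {x : F | ∃ c : K, x ^ l = algebraMap K F c} = ⊤) (r : ℕ)
    (T : Set (Fin r → 𝓞 K)) (h0 : ∀ δ ∈ T, ∀ i, δ i ≠ 0)
    (hT : ∀ δ ∈ T, ∀ δ' ∈ T, δ ≠ δ' → ∀ J : Finset (Fin r), J.Nonempty →
      ∀ e ∈ ({1, -1, E.a₄, -E.a₄} : Set K), ∀ x : F, x ≠ 0 →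
      x ^ 2 * algebraMap K F ((∏ i ∈ J, δ' i : 𝓞 K) : K) ≠
        algebraMap K F (e * ((∏ i ∈ J, δ i : 𝓞 K) : K)))
    (n : ℕ) (m u : 𝓞 K) (hm : m ∣ 2 ^ n) (hu : ∀ q, Prime q → ¬ (q ^ 2 ∣ m ∧ q ^ 2 ∣ u)) (c : ℝ)
    (hc : c = cst K F) (t : ℕ) (v : ℝ)
    (hv : v = if T.Infinite then 1 else ∑ j ∈ Finset.Icc t T.ncard, (T.ncard.choose j : ℝ) *
      (c ^ ((2 ^ r - 1) * Module.finrank K F)) ^ j *
        (1 - c ^ ((2 ^ r - 1) * Module.finrank K F)) ^ (T.ncard - j))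
    (ε : ℝ) (hε : 0 < ε) :
    ∀ᶠ X : ℝ in Filter.atTop, 1 - ε ≤
      (Nat.card {A : 𝓞 K // Squarefree A ∧ m ∣ A - u ∧ |Algebra.norm ℤ A| ≤ X ∧
        (v - ε) * (Nat.card {d : 𝓞 K // d ∣ A} : ℝ) ^ r ≤
          Nat.card {d : Fin r → 𝓞 K // (∀ i, d i ∣ A) ∧
            t ≤ {δ ∈ T | PropMF E F (fun i => ((δ i * d i : 𝓞 K) : K))}.encard}} : ℝ) /
        (Nat.card {A : 𝓞 K // Squarefree A ∧ m ∣ A - u ∧ |Algebra.norm ℤ A| ≤ X} : ℝ) := by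
  unfold cst at hc
  have hjD' : (j, D) ∈ Pool.Agent.Lib.MP_1a91b9_ntY.cmList := hL _ hjD
  obtain ⟨h1, h3, h6⟩ := hE
  obtain ⟨a, ha⟩ : ∃ a, a = E.a₂ := ⟨_, rfl⟩
  obtain ⟨b, hb⟩ : ∃ b, b = E.a₄ := ⟨_, rfl⟩
  have hE : E = crv a b := WeierstrassCurve.ext h1 ha.symm h3 hb.symm h6
  rw [← hb] at hT
  have hΔ' := hΔ
  have hj' := hj
  rw [hE] at hΔ' hj'
  rw [Pool.Agent.Lib.MP_1a91b9_ntY.crv_Δ] at hΔ' hj'
  rw [Pool.Agent.Lib.MP_1a91b9_ntY.crv_c₄] at hj'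
  have hE' : b * (a ^ 2 - 4 * b) ≠ 0 := by
    intro h
    refine hΔ' ?_
    linear_combination 16 * b * h
  have hj2 : 256 * (a ^ 2 - 3 * b) ^ 3 = j * (b ^ 2 * (a ^ 2 - 4 * b)) := by
    have h16 : (16 : K) ≠ 0 := by norm_num
    refine mul_left_cancel₀ h16 ?_
    linear_combination hj'
  have hb0 : b ≠ 0 := left_ne_zero_of_mul hE'
  have hneg : D < 0 := by
    have h7 := hjD'
    unfold Pool.Agent.Lib.MP_1a91b9_ntY.cmList at h7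
    simp only [List.mem_cons, Prod.mk.injEq, List.not_mem_nil, or_false] at h7
    rcases h7 with ⟨-, rfl⟩ | ⟨-, rfl⟩ | ⟨-, rfl⟩ | ⟨-, rfl⟩ | ⟨-, rfl⟩ | ⟨-, rfl⟩ | ⟨-, rfl⟩ |
      ⟨-, rfl⟩ | ⟨-, rfl⟩ | ⟨-, rfl⟩ | ⟨-, rfl⟩ | ⟨-, rfl⟩ | ⟨-, rfl⟩ <;> norm_num
  have hfu : Finite (𝓞 K)ˣ := by
    obtain ⟨s, hs⟩ := hD
    exact Pool.Agent.Lib.MP_1a91b9_ntW.J.finite_units hK
      (Pool.Agent.Lib.MP_1a91b9_ntW.J.no_real hs hneg)
  have hfin : ∀ X : ℝ, {D : 𝓞 K | Squarefree D ∧ |Algebra.norm ℤ D| ≤ X}.Finite := by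
    intro X
    refine (Pool.Agent.Lib.MP_1a91b9_ntW.J.finite_norm_le (K := K) X).subset ?_
    rintro d ⟨h1, h2⟩
    exact ⟨h1.ne_zero, h2⟩
  have hcb : CB (c ^ ((2 ^ r - 1) * Module.finrank K F)) := (cb_two hc).pow _
  have key : ∀ S : Finset (Fin r → 𝓞 K), (S : Set (Fin r → 𝓞 K)) ⊆ T →
      DivGI (𝓞 K) r m u (fun d => t ≤ (S.filter fun δ : Fin r → 𝓞 K =>
        PropMF E F (fun i => ((δ i * d i : 𝓞 K) : K))).card)
        (bn S.card t (c ^ ((2 ^ r - 1) * Module.finrank K F))) := by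
    intro S hS
    have h := hstd hK a b hE' j D hjD hj2 hD l hl F hF r S
      (fun δ hδ => h0 δ (hS hδ)) (fun δ hδ δ' hδ' hne J hJ e he ⟨x, hx⟩ => by
        have he0 : e ≠ 0 := by
          simp only [Set.mem_insert_iff, Set.mem_singleton_iff] at he
          rcases he with rfl | rfl | rfl | rfl
          · exact one_ne_zero
          · exact neg_ne_zero.2 one_ne_zero
          · exact hb0
          · exact neg_ne_zero.2 hb0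
        have hδ0 : ((∏ i ∈ J, δ i : 𝓞 K) : K) ≠ 0 := by
          intro h
          exact Finset.prod_ne_zero_iff.2 (fun i _ => h0 δ (hS hδ) i)
            (by exact_mod_cast h : (∏ i ∈ J, δ i : 𝓞 K) = 0)
        have hδ0' : ((∏ i ∈ J, δ' i : 𝓞 K) : K) ≠ 0 := by
          intro h
          exact Finset.prod_ne_zero_iff.2 (fun i _ => h0 δ' (hS hδ') i)
            (by exact_mod_cast h : (∏ i ∈ J, δ' i : 𝓞 K) = 0)
        have hx0 : x ≠ 0 := by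
          rintro rfl
          rw [zero_pow two_ne_zero, eq_comm, map_eq_zero] at hx
          exact mul_ne_zero he0 (mul_ne_zero hδ0 hδ0') hx
        have hδF : algebraMap K F ((∏ i ∈ J, δ' i : 𝓞 K) : K) ≠ 0 := by rwa [map_ne_zero]
        refine hT δ (hS hδ) δ' (hS hδ') hne J hJ e he
          (x * (algebraMap K F ((∏ i ∈ J, δ' i : 𝓞 K) : K))⁻¹)
          (mul_ne_zero hx0 (inv_ne_zero hδF)) ?_
        rw [map_mul, map_mul] at hx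
        rw [map_mul, mul_pow, hx]
        field_simp) t n m u hm hu c hc
    have h2 := dstabBF K hK a b hE' j D hjD' hj2 hD l hl F hF r S (fun δ hδ => h0 δ (hS hδ)) m u _
      t h
    refine h2.mono hfin fun d _ h3 => h3.trans (Finset.card_le_card fun δ hδ => ?_)
    rw [Finset.mem_filter] at hδ ⊢
    exact ⟨hδ.1, propMF_of hK E a b hE j D hjD' hj hD F _ hδ.2⟩
  have key' := set_divI hfin (Q := fun (δ d : Fin r → 𝓞 K) =>
    PropMF E F (fun i => ((δ i * d i : 𝓞 K) : K))) (T := T) (t := t)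
    hcb.1 hcb.2 (v := v) (by rw [hv, bn]) key
  filter_upwards [key' 0 ε hε] with X hX
  refine hX.trans (le_of_eq ?_)
  congr 2
  refine Nat.card_congr (Equiv.subtypeEquivRight fun A => ?_)
  constructor
  · rintro ⟨h1, h2, h3, -, h4⟩
    exact ⟨h1, h2, h3, h4⟩
  · rintro ⟨h1, h2, h3, h4⟩
    exact ⟨h1, h2, h3, Nat.zero_le _, h4⟩

open Classical in
/-- **The law of random multiquadratic fields.** -/
theorem fin_law
    (K : Type) [Field K] [NumberField K] (hK : Module.finrank ℚ K = 2)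
    (E : WeierstrassCurve K) (hE : E.a₁ = 0 ∧ E.a₃ = 0 ∧ E.a₆ = 0) (hΔ : E.Δ ≠ 0) (j D : ℤ)
    (hjD : (j, D) ∈ [(0, -3), (54000, -3), (-12288000, -3), (1728, -4), (287496, -4), (-3375, -7),
      (16581375, -7), (8000, -8), (-32768, -11), (-884736, -19), (-884736000, -43),
      (-147197952000, -67), (-262537412640768000, -163)])
    (hj : E.c₄ ^ 3 = j * E.Δ) (hD : ∃ s : K, s ^ 2 = D)
    (l : ℕ) (hl : l = 2 ∨ l = 4 ∧ ∃ i : K, i ^ 2 = -1)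
    (F : Type) [Field F] [NumberField F] [Algebra K F]
    (hF : IntermediateField.adjoin K {x : F | ∃ c : K, x ^ l = algebraMap K F c} = ⊤) (r : ℕ)
    (T : Set (Fin r → 𝓞 K)) (h0 : ∀ δ ∈ T, ∀ i, δ i ≠ 0)
    (hT : ∀ δ ∈ T, ∀ δ' ∈ T, δ ≠ δ' → ∀ J : Finset (Fin r), J.Nonempty →
      ∀ e ∈ ({1, -1, E.a₄, -E.a₄} : Set K), ∀ x : F, x ≠ 0 →
      x ^ 2 * algebraMap K F ((∏ i ∈ J, δ' i : 𝓞 K) : K) ≠
        algebraMap K F (e * ((∏ i ∈ J, δ i : 𝓞 K) : K)))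
    (n : ℕ) (m u : 𝓞 K) (hm : m ∣ 2 ^ n) (hu : ∀ q, Prime q → ¬ (q ^ 2 ∣ m ∧ q ^ 2 ∣ u)) (c : ℝ)
    (hc : c = cst K F) (t : ℕ) (v : ℝ)
    (hv : v = if T.Infinite then 1 else ∑ j ∈ Finset.Icc t T.ncard, (T.ncard.choose j : ℝ) *
      (c ^ ((2 ^ r - 1) * Module.finrank K F)) ^ j *
        (1 - c ^ ((2 ^ r - 1) * Module.finrank K F)) ^ (T.ncard - j))
    (ε : ℝ) (hε : 0 < ε) :
    ∀ᶠ X : ℝ in Filter.atTop, 1 - ε ≤
      (Nat.card {A : 𝓞 K // Squarefree A ∧ m ∣ A - u ∧ |Algebra.norm ℤ A| ≤ X ∧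
        (v - ε) * (Nat.card {d : 𝓞 K // d ∣ A} : ℝ) ^ r ≤
          Nat.card {d : Fin r → 𝓞 K // (∀ i, d i ∣ A) ∧
            t ≤ {δ ∈ T | PropMF E F (fun i => ((δ i * d i : 𝓞 K) : K))}.encard}} : ℝ) /
        (Nat.card {A : 𝓞 K // Squarefree A ∧ m ∣ A - u ∧ |Algebra.norm ℤ A| ≤ X} : ℝ) :=
  fin_mqF (L := Pool.Agent.Lib.MP_1a91b9_ntY.cmList) (fun _ h => h) stdI_all K hK E hE hΔ j D
    hjD hj hD l hl F hF r T h0 hT n m u hm hu c hc t v hv ε hε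

end

end Pool.Agent.Lib.MP_1a91b9_ntMQ.Fin
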