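import Pool.Agent.Lib.MP_1a91b9_ntMQ.K2

/-!
V0: the value of the first moment
-/

set_option autoImplicit false
set_option linter.unusedSectionVars false

namespace Pool.Agent.Lib.MP_1a91b9_ntMQ

open Finset Pool.Agent.Lib.MP_1a91b9_ntH Pool.Agent.Lib.MP_1a91b9_ntQ
open Pool.Agent.Lib.MP_1a91b9_ntQ.Da Pool.Agent.Lib.MP_1a91b9_ntV Pool.Agent.Lib.MP_1a91b9_ntM
open Pool.Agent.Lib.MP_1a91b9_ntDV

noncomputable section

variable {I A : Type} [Fintype I] [DecidableEq I] [Fintype A] [DecidableEq A] {k : A → ℕ}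
  {phi : A → I → ZMod 2} {κ : Type} [Fintype κ]

private theorem V0_ne {a : A} {U : Finset (Lab2 (k a))} (h : U ∈ UsN (k a)) : U.Nonempty := by
  rw [← card_pos, (mem_UsN.1 h).2]
  positivity

private theorem V0_mk {V : ∀ a, Finset (Lab2 (k a))} {v : LabP k} (hv : ∀ a, v a ∈ V a) (w : I → ZMod 2) :
    mk phi k w v ∈ UL phi k V := by
  refine mem_UL.2 fun a h => ?_
  have h1 : phi a ⬝ᵥ w = 1 := h
  show (phi a ⬝ᵥ w) • v a ∈ V a
  rw [h1, one_smul]
  exact hv a

private theorem V0_up {V : ∀ a, Finset (Lab2 (k a))} {v : LabP k} (hv : ∀ a, v a ∈ V a) {a : A} {l : Lab2 (k a)}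
    (hl : l ∈ V a) : ∀ b, Function.update v a l b ∈ V b := by
  intro b
  by_cases h : b = a
  · subst h
    rw [Function.update_self]
    exact hl
  · rw [Function.update_of_ne h]
    exact hv b

private theorem V0_sub (hs : Sp phi) {V V' : ∀ a, Finset (Lab2 (k a))} (hV : ∀ a, V a ∈ UsN (k a))
    (h : UL phi k V = UL phi k V') (a : A) : V a ⊆ V' a := by
  intro l hl
  obtain ⟨w, hw⟩ := hs.one a
  choose v hv using fun b => V0_ne (hV b)
  have h1 := V0_mk (phi := phi) (V0_up hv hl) w
  rw [h] at h1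
  have h2 := mem_UL.1 h1 a hw
  have h3 : (phi a ⬝ᵥ w) • Function.update v a l a ∈ V' a := h2
  rw [hw, one_smul, Function.update_self] at h3
  exact h3

private theorem V0_z2 (x : ZMod 2) : x = 0 ∨ x = 1 := by
  revert x
  decide

private theorem V0_cz (cc : ∀ a, Lab2 (k a) → κ → ZMod 2) (b : I → κ → ZMod 2) (w : I → ZMod 2) (v : LabP k) :
    cz cc b (mk phi k w v) = ∑ a, (phi a ⬝ᵥ w) • cc a (v a) + ∑ i, w i • b i := by
  show ∑ a, (phi a ⬝ᵥ w) • cc a ((phi a ⬝ᵥ w) • v a) + ∑ i, w i • b i = _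
  congr 1
  refine sum_congr rfl fun a _ => ?_
  rcases V0_z2 (phi a ⬝ᵥ w) with h | h
  · rw [h, zero_smul, zero_smul]
  · rw [h, one_smul, one_smul, one_smul]

/-- **V0a** (easy+). Proof: `V a` is the set of the components at `a` of the labels of the colour `w` in `UL phi k V`, for any `w` with
`phi a ⬝ᵥ w = 1` (`Sp.one`): for `l ∈ V a` choose `v b ∈ V b` (not empty, `2 ^ k b` elements, `mem_UsN`) and take
`mk phi k w (Function.update v a l)`. -/
theorem UL_inj (hs : Sp phi) {V V' : ∀ a, Finset (Lab2 (k a))} (hV : ∀ a, V a ∈ UsN (k a))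
    (hV' : ∀ a, V' a ∈ UsN (k a)) (h : UL phi k V = UL phi k V') : V = V' :=
  funext fun a => Subset.antisymm (V0_sub hs hV h a) (V0_sub hs hV' h.symm a)

open Classical in
/-- **V0b** (easy). Proof: `Finset.sum_image` with `UL_inj`. -/
theorem vQ_eq (hs : Sp phi) (cc : ∀ a, Lab2 (k a) → κ → ZMod 2) (b : I → κ → ZMod 2) :
    vQ phi k cc b = ∑ V ∈ Fintype.piFinset (fun a => UsN (k a)),
      if ∀ z ∈ UL phi k V, cz cc b z = 0 then 1 else 0 := by
  unfold vQ UsL
  rw [sum_image]
  intro V hV V' hV' e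
  exact UL_inj hs (fun a => Fintype.mem_piFinset.1 hV a) (fun a => Fintype.mem_piFinset.1 hV' a) e

/-- **V0c** (medium-). The class vectors vanish on a maximal set if and only if all the `cc a` are constant on `V a` and the constants add up to the
`b i`. Proof. From left to right: for `a` take `w` with `phi a ⬝ᵥ w = 1` and `l, l' ∈ V a`; the class vectors of
`mk phi k w (Function.update v a l)` and of the same label with `l'` are both zero and differ by `cc a l - cc a l'`; so `cc a` is a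
constant `β a` on `V a`. For `w = Pi.single i 1` and `z = mk phi k w v` with `v b ∈ V b`: the coefficient `phi a ⬝ᵥ w` is
`phi a i`, so `0 = cz cc b z = ∑ a, phi a i • β a + b i` (if the coefficient is `0` the term is `0`, otherwise the component is `v a`).
From right to left: for `z ∈ UL phi k V` of the colour `w`: `(phi a ⬝ᵥ w) • cc a (z.1.2 a) = (phi a ⬝ᵥ w) • β a` and
`∑ i, w i • b i = ∑ i, ∑ a, w i • phi a i • β a = ∑ a, (phi a ⬝ᵥ w) • β a`; the sum of two equal vectors is `0`. -/
theorem CC_iff (hs : Sp phi) (cc : ∀ a, Lab2 (k a) → κ → ZMod 2) (b : I → κ → ZMod 2)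
    {V : ∀ a, Finset (Lab2 (k a))} (hV : ∀ a, V a ∈ UsN (k a)) :
    (∀ z ∈ UL phi k V, cz cc b z = 0) ↔ ∃ β : A → κ → ZMod 2, (∀ a, ∀ l ∈ V a, cc a l = β a) ∧
      ∀ i, b i = ∑ a, phi a i • β a := by
  constructor
  · intro H
    choose v hv using fun a => V0_ne (hV a)
    refine ⟨fun a => cc a (v a), fun a l hl => ?_, fun i => ?_⟩
    · obtain ⟨w, hw⟩ := hs.one a
      have h1 := H _ (V0_mk (phi := phi) (V0_up hv hl) w)
      have h2 := H _ (V0_mk (phi := phi) hv w)
      rw [V0_cz] at h1 h2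
      have h3 := h1.trans h2.symm
      have h4 := add_right_cancel h3
      rw [← add_sum_erase _ _ (mem_univ a), ← add_sum_erase univ (fun a => (phi a ⬝ᵥ w) • cc a (v a)) (mem_univ a)] at h4
      have h5 : ∑ b ∈ univ.erase a, (phi b ⬝ᵥ w) • cc b (Function.update v a l b) =
          ∑ b ∈ univ.erase a, (phi b ⬝ᵥ w) • cc b (v b) := by
        refine sum_congr rfl fun b hb => ?_
        rw [Function.update_of_ne (ne_of_mem_erase hb)]
      rw [h5] at h4
      have h6 := add_right_cancel h4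
      rw [hw, one_smul, one_smul, Function.update_self] at h6
      exact h6
    · have h1 := H _ (V0_mk (phi := phi) hv (Pi.single i 1))
      rw [V0_cz] at h1
      have h2 : ∀ a, phi a ⬝ᵥ (Pi.single i 1 : I → ZMod 2) = phi a i := fun a => by
        rw [dotProduct_single, mul_one]
      have h3 : ∑ j, (Pi.single i 1 : I → ZMod 2) j • b j = b i := by
        rw [sum_eq_single i]
        · rw [Pi.single_eq_same, one_smul]
        · intro j _ hj
          rw [Pi.single_eq_of_ne hj, zero_smul]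
        · intro h
          exact absurd (mem_univ i) h
      rw [h3] at h1
      have h4 : ∑ a, phi a i • cc a (v a) + b i = 0 := by
        rw [← h1]
        congr 1
        exact sum_congr rfl fun a _ => by rw [h2]
      funext x
      have h5 := congrFun h4 x
      rw [Pi.add_apply, Pi.zero_apply] at h5
      have h6 : ∀ s t : ZMod 2, s + t = 0 → t = s := by decide
      exact h6 _ _ h5
  · rintro ⟨β, h1, h2⟩ z hz
    have h3 : ∑ a, (phi a ⬝ᵥ z.1.1) • cc a (z.1.2 a) = ∑ a, (phi a ⬝ᵥ z.1.1) • β a := by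
      refine sum_congr rfl fun a _ => ?_
      rcases V0_z2 (phi a ⬝ᵥ z.1.1) with h | h
      · rw [h, zero_smul, zero_smul]
      · rw [h1 a _ (mem_UL.1 hz a h)]
    have h4 : ∑ i, z.1.1 i • b i = ∑ a, (phi a ⬝ᵥ z.1.1) • β a := by
      rw [sum_congr rfl fun i _ => by rw [h2 i, smul_sum], sum_comm]
      refine sum_congr rfl fun a _ => ?_
      rw [dotProduct, sum_smul]
      refine sum_congr rfl fun i _ => ?_
      rw [smul_smul, mul_comm]
    unfold cz
    rw [h3, h4]
    funext x
    rw [Pi.add_apply, Pi.zero_apply]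
    exact CharTwo.add_self_eq_zero _

end

end Pool.Agent.Lib.MP_1a91b9_ntMQ
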