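import Pool.Agent.Lib.MP_1a91b9_ntMQ.V0

/-!
V2: two families of subsets
-/

set_option autoImplicit false
set_option linter.unusedSectionVars false

namespace Pool.Agent.Lib.MP_1a91b9_ntMQ

open Finset Pool.Agent.Lib.MP_1a91b9_ntH Pool.Agent.Lib.MP_1a91b9_ntQ
open Pool.Agent.Lib.MP_1a91b9_ntQ.Da Pool.Agent.Lib.MP_1a91b9_ntV Pool.Agent.Lib.MP_1a91b9_ntM
open Pool.Agent.Lib.MP_1a91b9_ntDV

noncomputable section

variable {I A : Type} [Fintype I] [DecidableEq I] [Fintype A] [DecidableEq A] {k : A → ℕ}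
  {phi : A → I → ZMod 2} {κ : Type} [Fintype κ]

/-- Two copies of the vectors. -/
def phi2 (phi : A → I → ZMod 2) : A ⊕ A → I ⊕ I → ZMod 2
  | .inl a => Sum.elim (phi a) 0
  | .inr a => Sum.elim 0 (phi a)

/-- Two copies of the numbers `k a`. -/
def k2 (k : A → ℕ) : A ⊕ A → ℕ
  | .inl a => k a
  | .inr a => k a

/-- Two copies of the class vectors. -/
def cc2 (cc : ∀ a, Lab2 (k a) → κ → ZMod 2) : ∀ s : A ⊕ A, Lab2 (k2 k s) → κ → ZMod 2
  | .inl a => cc a
  | .inr a => cc a

/-- **V2a** (easy). Proof: `phi2 phi (inl a) = phi2 phi (inr b)` would give `phi a = 0`. -/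
theorem Sp.two (hs : Sp phi) : Sp (phi2 phi) := by
  refine ⟨?_, ?_⟩
  · rintro (a | a) (a' | a') h
    · refine congrArg Sum.inl (hs.inj (funext fun i => ?_))
      exact congrFun h (Sum.inl i)
    · exact absurd (funext fun i => congrFun h (Sum.inl i)) (hs.ne a)
    · exact absurd (funext fun i => (congrFun h (Sum.inl i)).symm) (hs.ne a')
    · refine congrArg Sum.inr (hs.inj (funext fun i => ?_))
      exact congrFun h (Sum.inr i)
  · rintro (a | a) h
    · exact hs.ne a (funext fun i => congrFun h (Sum.inl i))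
    · exact hs.ne a (funext fun i => congrFun h (Sum.inr i))

/-- The two families as one family. -/
private def V2_mk (V W : ∀ a, Finset (Lab2 (k a))) : ∀ s : A ⊕ A, Finset (Lab2 (k2 k s))
  | .inl a => V a
  | .inr a => W a

private theorem V2_cond (hs : Sp phi) (cc : ∀ a, Lab2 (k a) → κ → ZMod 2) (b : I → κ → ZMod 2)
    {V : ∀ s : A ⊕ A, Finset (Lab2 (k2 k s))} (hV : ∀ s, V s ∈ UsN (k2 k s)) :
    (∀ z ∈ UL (phi2 phi) (k2 k) V, cz (cc2 cc) (Sum.elim b b) z = 0) ↔
      (∀ z ∈ UL phi k (fun a => V (.inl a)), cz cc b z = 0) ∧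
        ∀ z ∈ UL phi k (fun a => V (.inr a)), cz cc b z = 0 := by
  rw [CC_iff (Sp.two hs) (cc2 cc) (Sum.elim b b) hV,
    CC_iff hs cc b (V := fun a => V (.inl a)) (fun a => hV (.inl a)),
    CC_iff hs cc b (V := fun a => V (.inr a)) (fun a => hV (.inr a))]
  constructor
  · rintro ⟨β, h1, h2⟩
    refine ⟨⟨fun a => β (.inl a), fun a l hl => h1 (.inl a) l hl, fun i => ?_⟩,
      ⟨fun a => β (.inr a), fun a l hl => h1 (.inr a) l hl, fun i => ?_⟩⟩
    · have h := h2 (.inl i)
      rw [Fintype.sum_sum_type] at h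
      simpa [phi2] using h
    · have h := h2 (.inr i)
      rw [Fintype.sum_sum_type] at h
      simpa [phi2] using h
  · rintro ⟨⟨β, h1, h2⟩, ⟨β', h1', h2'⟩⟩
    refine ⟨Sum.elim β β', ?_, ?_⟩
    · rintro (a | a) l hl
      · exact h1 a l hl
      · exact h1' a l hl
    · rintro (i | i)
      · rw [Fintype.sum_sum_type]
        simpa [phi2] using h2 i
      · rw [Fintype.sum_sum_type]
        simpa [phi2] using h2' i

/-- **V2b** (medium-). The value of the second moment. Proof: `vQ_eq` and `CC_iff` for `phi2 phi` (`Sp.two hs`) and for `phi`. The families `V` for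
`phi2` are the pairs of families for `phi` (`Fintype.piFinset` over `A ⊕ A`; `Equiv.sumPiEquivProdPi` or `Finset.sum_bij'`), the
`β : A ⊕ A → _` are the pairs, and the condition at `inl i` is the condition at `i` for the first family because
`phi2 phi (inr a) (inl i) = 0` (`Fintype.sum_sum_type`). The indicator of the conjunction is the product of the
indicators (`ite_zero_mul_ite_zero`). -/
theorem vQ_two (hs : Sp phi) (cc : ∀ a, Lab2 (k a) → κ → ZMod 2) (b : I → κ → ZMod 2) :
    vQ (phi2 phi) (k2 k) (cc2 cc) (Sum.elim b b) = vQ phi k cc b * vQ phi k cc b := by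
  classical
  rw [vQ_eq (Sp.two hs), vQ_eq hs, Finset.sum_mul_sum, ← Finset.sum_product']
  refine Finset.sum_nbij' (fun V => (fun a => V (.inl a), fun a => V (.inr a)))
    (fun p => V2_mk p.1 p.2) ?_ ?_ ?_ ?_ ?_
  · intro V hV
    rw [Fintype.mem_piFinset] at hV
    exact mem_product.2 ⟨Fintype.mem_piFinset.2 fun a => hV (.inl a),
      Fintype.mem_piFinset.2 fun a => hV (.inr a)⟩
  · intro p hp
    obtain ⟨h1, h2⟩ := mem_product.1 hp
    rw [Fintype.mem_piFinset] at h1 h2
    refine Fintype.mem_piFinset.2 ?_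
    rintro (a | a)
    · exact h1 a
    · exact h2 a
  · intro V _
    funext s
    rcases s with a | a
    · rfl
    · rfl
  · intro p _
    rfl
  · intro V hV
    rw [Fintype.mem_piFinset] at hV
    have h := V2_cond hs cc b hV
    by_cases h1 : ∀ z ∈ UL phi k (fun a => V (.inl a)), cz cc b z = 0
    · by_cases h2 : ∀ z ∈ UL phi k (fun a => V (.inr a)), cz cc b z = 0
      · rw [if_pos (h.2 ⟨h1, h2⟩), if_pos h1, if_pos h2, mul_one]
      · rw [if_neg (fun h' => h2 (h.1 h').2), if_neg h2, mul_zero]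
    · rw [if_neg (fun h' => h1 (h.1 h').1), if_neg h1, zero_mul]

end

end Pool.Agent.Lib.MP_1a91b9_ntMQ
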