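import Pool.Agent.Lib.MP_1a91b9_ntMQ.X0
import Pool.Agent.Lib.MP_1a91b9_ntMQ.A3

set_option autoImplicit false
set_option linter.unusedSectionVars false

namespace Pool.Agent.Lib.MP_1a91b9_ntMQ.G4

open Finset Pool.Agent.Lib.MP_1a91b9_ntH Pool.Agent.Lib.MP_1a91b9_ntQ Pool.Agent.Lib.MP_1a91b9_ntQ.Da
  Pool.Agent.Lib.MP_1a91b9_ntQ.M Pool.Agent.Lib.MP_1a91b9_ntM Pool.Agent.Lib.MP_1a91b9_ntM.E
open Pool.Agent.Lib.MP_1a91b9_ntDV Pool.Agent.Lib.MP_1a91b9_ntDV.G4 Pool.Agent.Lib.MP_1a91b9_ntMQ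

noncomputable section

variable {I A : Type} [Fintype I] [DecidableEq I] [Fintype A] [DecidableEq A] {L : A → Type}
  [∀ a, Zero (L a)] [∀ a, Fintype (L a)] [∀ a, DecidableEq (L a)] {ι : Type} [DecidableEq ι]
  {κ : Type} [Fintype κ]

/-- **X1** (easy+, a copy). The product over the products `a`, for one colouring. Proof: `BF_prod` (A3.lean of this folder, PROVED)
line by line, with any label types `L a` in place of `Lab2 (k a)`, any exponents `Phi a` in place of `Phi1 PhiQ`, `LC phi L` in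
place of `Lb phi k` and `PC phi Phi` in place of `PL phi k`: `TT_cf` (A1) and `BF_ext D (Phi a) (g a) S` (A2) are general. -/
theorem BF_prodC (D : Dat2 ι κ) (phi : A → I → ZMod 2) (Phi : ∀ a, L a → L a → ZMod 2)
    (g : ∀ a, L a → ι → ℂ) (S : Finset ι) (f : S → I → ZMod 2) :
    ∏ a, BF D (Phi a) (g a) (TT phi (colF S f) a) =
      ∑ y ∈ univ.filter (fun y : S → LC phi L => ∀ j, (y j).1.1 = f j),
        (∏ j : S, ∏ a, if phi a ⬝ᵥ f j = 1 then g a ((y j).1.2 a) j else 1) *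
          e2 (∑ j : S, ∑ l : S, PC phi Phi (y j) (y l) * D.s j l) := by
  classical
  have h1 : ∏ a, BF D (Phi a) (g a) (TT phi (colF S f) a) =
      ∏ a, ∑ x ∈ univ.filter (fun x : S → L a => ∀ j, phi a ⬝ᵥ f j = 0 → x j = 0),
        (∏ j : S, if phi a ⬝ᵥ f j = 1 then g a (x j) j else 1) *
          e2 (∑ j : S, ∑ l : S, (phi a ⬝ᵥ f j) * (phi a ⬝ᵥ f l) * Phi a (x j) (x l) * D.s j l) :=
    prod_congr rfl fun a _ => by
      rw [TT_cf]
      exact BF_ext D (Phi a) (g a) S fun j => phi a ⬝ᵥ f j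
  rw [h1, Finset.prod_univ_sum]
  have hmem : ∀ X : ∀ a, S → L a, X ∈ Fintype.piFinset (fun a =>
      univ.filter (fun x : S → L a => ∀ j, phi a ⬝ᵥ f j = 0 → x j = 0)) ↔
      ∀ a, ∀ j, phi a ⬝ᵥ f j = 0 → X a j = 0 := by
    intro X
    rw [Fintype.mem_piFinset]
    exact forall_congr' fun a => by rw [mem_filter, and_iff_right (mem_univ _)]
  refine Finset.sum_bij' (fun X hX j => (⟨(f j, fun a => X a j), fun a h => (hmem X).1 hX a j h⟩ : LC phi L))
    (fun y _ a j => (y j).1.2 a) ?_ ?_ ?_ ?_ ?_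
  · intro X hX
    rw [mem_filter]
    exact ⟨mem_univ _, fun j => rfl⟩
  · intro y hy
    rw [hmem]
    intro a j h
    have h2 := (mem_filter.1 hy).2 j
    rw [← h2] at h
    exact (y j).2 a h
  · intro X hX
    rfl
  · intro y hy
    funext j
    apply Subtype.ext
    apply Prod.ext
    · exact ((mem_filter.1 hy).2 j).symm
    · rfl
  · intro X hX
    rw [prod_mul_distrib, prod_comm, ← e2_sum]
    congr 2
    rw [sum_comm]
    refine sum_congr rfl fun j _ => ?_
    rw [sum_comm]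
    refine sum_congr rfl fun l _ => ?_
    unfold PC
    rw [sum_mul]

end

end Pool.Agent.Lib.MP_1a91b9_ntMQ.G4
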