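import Pool.Agent.Lib.MP_1a91b9_ntMQ.X3

set_option autoImplicit false
set_option linter.unusedSectionVars false

namespace Pool.Agent.Lib.MP_1a91b9_ntMQ.G4

open Finset Pool.Agent.Lib.MP_1a91b9_ntH Pool.Agent.Lib.MP_1a91b9_ntQ Pool.Agent.Lib.MP_1a91b9_ntQ.Da
  Pool.Agent.Lib.MP_1a91b9_ntQ.M Pool.Agent.Lib.MP_1a91b9_ntM Pool.Agent.Lib.MP_1a91b9_ntM.E
open Pool.Agent.Lib.MP_1a91b9_ntDV Pool.Agent.Lib.MP_1a91b9_ntDV.G4 Pool.Agent.Lib.MP_1a91b9_ntMQ

noncomputable section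

variable {I A : Type} [Fintype I] [DecidableEq I] [Fintype A] [DecidableEq A] {L : A → Type}
  [∀ a, Zero (L a)] [∀ a, Fintype (L a)] [∀ a, DecidableEq (L a)] {phi : A → I → ZMod 2}
  {ι : Type} [DecidableEq ι] {κ : Type} [Fintype κ] [DecidableEq κ] {Λ : ∀ a, LS2 (L a) ι κ}
  {w : ∀ a, L a → (κ → ZMod 2) → ℝ}

/-- **X4a** (easy). Proof: `LS2.lk`, `PC`, `sum_add_distrib`, `ring`. -/
theorem LSC_lk (z y : LC phi L) : (LSC phi Λ).lk z y =
    ∑ a, (phi a ⬝ᵥ z.1.1) * (phi a ⬝ᵥ y.1.1) * (Λ a).lk (z.1.2 a) (y.1.2 a) := by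
  change PC phi (fun a => (Λ a).Phi) z y + PC phi (fun a => (Λ a).Phi) y z = _
  unfold PC
  rw [← sum_add_distrib]
  refine sum_congr rfl fun a _ => ?_
  unfold LS2.lk
  ring

/-- **X4b** (easy). Proof: `LSC_lk`; in every term a coefficient is zero or both components are in `U a` (`z2`, `mem_UC`). -/
theorem Unl_UC {U : ∀ a, Finset (L a)} (h : ∀ a, (Λ a).Unl (U a)) :
    (LSC phi Λ).Unl (UC phi U) := by
  intro z hz y hy
  rw [LSC_lk]
  refine sum_eq_zero fun a _ => ?_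
  rcases z2 (phi a ⬝ᵥ z.1.1) with h1 | h1
  · rw [h1, zero_mul, zero_mul]
  · rcases z2 (phi a ⬝ᵥ y.1.1) with h2 | h2
    · rw [h2, mul_zero, zero_mul]
    · rw [h a _ (mem_UC.1 hz a h1) _ (mem_UC.1 hy a h2), mul_zero]

/-- **X4c** (medium-). THE FULL SETS ARE PRODUCTS. Proof. From left to right: `hC.full` gives `U` with `UC phi U = Z`, all `U a`
unlinked with `(Λ a).m` elements. Fix `φ` and let `x a = ∑ l ∈ U a, w a l φ`, so `0 ≤ x a ≤ 1` (`(hq a).w0`, `(hq a).wU`). By `sum_wC`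
`1 = (2 ^ #I)⁻¹ * ∑ v, ∏ a, if phi a ⬝ᵥ v = 1 then x a else 1`; there are `2 ^ #I` terms, each at most `1`, so each is `1`
(`Finset.sum_lt_sum` otherwise). For `a` take `v` with `phi a ⬝ᵥ v = 1` (`Sp.one hs a`): the product is at most its factor `x a`
(`Finset.prod_le_one` for the others, `mul_prod_erase`), so `x a = 1`: `U a ∈ FullW (Λ a) (w a)` (`mem_FullW`, `LS2.mem_Us`). From right
to left: `Unl_UC`, `card_UC`, and by `sum_wC` the sum is `(2 ^ #I)⁻¹ * 2 ^ #I`. -/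
theorem mem_FullW_C (hs : Sp phi) (hq : ∀ a, QOK (Λ a) (w a)) (hC : CS phi Λ w)
    {Z : Finset (LC phi L)} : Z ∈ FullW (LSC phi Λ) (wC w) ↔
      ∃ U : ∀ a, Finset (L a), (∀ a, U a ∈ FullW (Λ a) (w a)) ∧ UC phi U = Z := by
  have hI : (0 : ℝ) < 2 ^ Fintype.card I := by positivity
  constructor
  · intro hZ
    rw [mem_FullW, LS2.mem_Us] at hZ
    obtain ⟨⟨hZ1, hZ2⟩, hZ3⟩ := hZ
    obtain ⟨U, hU, hUZ⟩ := hC.full Z hZ1 hZ2
    refine ⟨U, fun a => mem_FullW.2 ⟨(LS2.mem_Us _ _).2 (hU a), fun φ => ?_⟩, hUZ⟩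
    have hx0 : ∀ b, 0 ≤ ∑ l ∈ U b, w b l φ := fun b => sum_nonneg fun l _ => (hq b).w0 l φ
    have hx1 : ∀ b, ∑ l ∈ U b, w b l φ ≤ 1 := fun b => (hq b).wU _ (hU b).1 φ
    obtain ⟨x, hx⟩ : ∃ x : A → ℝ, x = fun b => ∑ l ∈ U b, w b l φ := ⟨_, rfl⟩
    have hxe : ∀ b, ∑ l ∈ U b, w b l φ = x b := fun b => by rw [hx]
    simp only [hxe] at hx0 hx1
    rw [hxe]
    have h1 := hZ3 φ
    rw [← hUZ, sum_wC] at h1
    simp only [hxe] at h1
    have hp0 : ∀ (v : I → ZMod 2) (b : A), 0 ≤ (if phi b ⬝ᵥ v = 1 then x b else 1) := by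
      intro v b
      split_ifs
      · exact hx0 b
      · exact zero_le_one
    have hp1 : ∀ (v : I → ZMod 2) (b : A), (if phi b ⬝ᵥ v = 1 then x b else 1) ≤ 1 := by
      intro v b
      split_ifs
      · exact hx1 b
      · exact le_refl _
    have ht : ∀ v : I → ZMod 2, (∏ b, if phi b ⬝ᵥ v = 1 then x b else 1) ≤ 1 :=
      fun v => prod_le_one (fun b _ => hp0 v b) (fun b _ => hp1 v b)
    obtain ⟨v, hv⟩ := Sp.one hs a
    have h2 : ∑ v : I → ZMod 2, (∏ b, if phi b ⬝ᵥ v = 1 then x b else 1) = 2 ^ Fintype.card I := by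
      have h3 : ((2 : ℝ) ^ Fintype.card I)⁻¹ ≠ 0 := inv_ne_zero hI.ne'
      refine mul_left_cancel₀ h3 ?_
      rw [h1, inv_mul_cancel₀ hI.ne']
    have h4 : (∏ b, if phi b ⬝ᵥ v = 1 then x b else 1) = 1 := by
      by_contra hne
      have h5 : (∏ b, if phi b ⬝ᵥ v = 1 then x b else 1) < 1 := lt_of_le_of_ne (ht v) hne
      have h6 : ∑ v : I → ZMod 2, (∏ b, if phi b ⬝ᵥ v = 1 then x b else 1) <
          ∑ _v : I → ZMod 2, (1 : ℝ) :=
        sum_lt_sum (fun v _ => ht v) ⟨v, mem_univ _, h5⟩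
      rw [h2, sum_const, card_univ, Fintype.card_fun, ZMod.card, nsmul_eq_mul, mul_one] at h6
      push_cast at h6
      exact lt_irrefl _ h6
    have h7 : (∏ b, if phi b ⬝ᵥ v = 1 then x b else 1) ≤ x a := by
      rw [← mul_prod_erase univ (fun b => if phi b ⬝ᵥ v = 1 then x b else 1) (mem_univ a),
        if_pos hv]
      exact mul_le_of_le_one_right (hx0 a) (prod_le_one (fun b _ => hp0 v b) (fun b _ => hp1 v b))
    exact le_antisymm (hx1 a) (by rw [← h4]; exact h7)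
  · rintro ⟨U, hU, rfl⟩
    have hU' : ∀ a, (Λ a).Unl (U a) ∧ (U a).card = (Λ a).m :=
      fun a => (LS2.mem_Us _ _).1 (mem_FullW.1 (hU a)).1
    rw [mem_FullW, LS2.mem_Us]
    refine ⟨⟨Unl_UC fun a => (hU' a).1, card_UC Λ fun a => (hU' a).2⟩, fun φ => ?_⟩
    rw [sum_wC]
    have h1 : ∀ v : I → ZMod 2, (∏ a, if phi a ⬝ᵥ v = 1 then ∑ l ∈ U a, w a l φ else 1) = 1 := by
      intro v
      refine prod_eq_one fun a _ => ?_
      rw [(mem_FullW.1 (hU a)).2 φ]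
      split_ifs <;> rfl
    rw [sum_congr rfl fun v _ => h1 v, sum_const, card_univ, Fintype.card_fun, ZMod.card,
      nsmul_eq_mul, mul_one]
    push_cast
    exact inv_mul_cancel₀ hI.ne'

/-- **X4d** (easy+). Proof: by `mem_FullW_C` the set is the image of `Fintype.piFinset ..` under `UC phi` (`Finset.ext`,
`Fintype.mem_piFinset`); `Finset.sum_image` with `UC_inj hs` (the sets `U a` are not empty: `(U a).card = (Λ a).m ≥ 1`,
`(hq a).mpos`). -/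
theorem sum_FullW_C (hs : Sp phi) (hq : ∀ a, QOK (Λ a) (w a)) (hC : CS phi Λ w) {M : Type}
    [AddCommMonoid M] (F : Finset (LC phi L) → M) : ∑ Z ∈ FullW (LSC phi Λ) (wC w), F Z =
      ∑ U ∈ Fintype.piFinset (fun a => FullW (Λ a) (w a)), F (UC phi U) := by
  have e : FullW (LSC phi Λ) (wC w) =
      (Fintype.piFinset (fun a => FullW (Λ a) (w a))).image (UC phi) := by
    ext Z
    rw [mem_FullW_C hs hq hC, mem_image]
    constructor
    · rintro ⟨U, hU, hUZ⟩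
      exact ⟨U, Fintype.mem_piFinset.2 hU, hUZ⟩
    · rintro ⟨U, hU, hUZ⟩
      exact ⟨U, Fintype.mem_piFinset.1 hU, hUZ⟩
  have hne : ∀ U ∈ Fintype.piFinset (fun a => FullW (Λ a) (w a)), ∀ a, (U a).Nonempty := by
    intro U hU a
    have h1 := ((LS2.mem_Us _ _).1 (mem_FullW.1 (Fintype.mem_piFinset.1 hU a)).1).2
    rw [← card_pos, h1]
    exact (hq a).mpos
  rw [e, sum_image]
  intro U hU U' hU' h
  exact UC_inj hs (hne U (mem_coe.1 hU)) (hne U' (mem_coe.1 hU')) h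

end

end Pool.Agent.Lib.MP_1a91b9_ntMQ.G4
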