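import Pool.Agent.Lib.MP_1a91b9_ntDV.K4_6
import Pool.Agent.Lib.MP_1a91b9_ntMQ.X4

set_option autoImplicit false
set_option linter.unusedSectionVars false

namespace Pool.Agent.Lib.MP_1a91b9_ntMQ.G4

open Finset Pool.Agent.Lib.MP_1a91b9_ntH Pool.Agent.Lib.MP_1a91b9_ntQ Pool.Agent.Lib.MP_1a91b9_ntQ.Da
  Pool.Agent.Lib.MP_1a91b9_ntQ.M Pool.Agent.Lib.MP_1a91b9_ntM Pool.Agent.Lib.MP_1a91b9_ntM.E
open Pool.Agent.Lib.MP_1a91b9_ntDV Pool.Agent.Lib.MP_1a91b9_ntDV.G4 Pool.Agent.Lib.MP_1a91b9_ntMQ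

noncomputable section

variable {I A : Type} [Fintype I] [DecidableEq I] [Fintype A] [DecidableEq A] {L : A → Type}
  [∀ a, Zero (L a)] [∀ a, Fintype (L a)] [∀ a, DecidableEq (L a)] {phi : A → I → ZMod 2}
  {ι : Type} [DecidableEq ι] {κ : Type} [Fintype κ] [DecidableEq κ] {Λ : ∀ a, LS2 (L a) ι κ}
  {w : ∀ a, L a → (κ → ZMod 2) → ℝ}

private theorem X5_ne (hq : ∀ a, QOK (Λ a) (w a)) {U : ∀ a, Finset (L a)}
    (hU : ∀ a, (Λ a).Unl (U a) ∧ (U a).card = (Λ a).m) (a : A) : (U a).Nonempty := by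
  rw [← card_pos, (hU a).2]
  exact (hq a).mpos

private theorem X5_M (hq : ∀ a, QOK (Λ a) (w a)) (v : I → ZMod 2) :
    1 ≤ ∏ a, if phi a ⬝ᵥ v = 1 then (Λ a).m else 1 := by
  refine Nat.succ_le_of_lt (prod_pos fun a _ => ?_)
  split_ifs
  · exact (hq a).mpos
  · exact one_pos

private theorem X5_wz (hq : ∀ a, QOK (Λ a) (w a)) (z : LC phi L) :
    wC w z 0 = ((2 : ℝ) ^ Fintype.card I)⁻¹ *
      (((∏ a, if phi a ⬝ᵥ z.1.1 = 1 then (Λ a).m else 1 : ℕ) : ℝ))⁻¹ := by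
  unfold wC
  rw [Nat.cast_prod, ← prod_inv_distrib]
  refine congrArg _ (prod_congr rfl fun a _ => ?_)
  split_ifs
  · exact (hq a).wz _
  · rw [Nat.cast_one, inv_one]

private theorem X5_card : Fintype.card (I → ZMod 2) = 2 ^ Fintype.card I := by
  rw [Fintype.card_fun, ZMod.card]

private theorem X5_sm [Nonempty I] (hq : ∀ a, QOK (Λ a) (w a)) (hC : CS phi Λ w)
    (Z : Finset (LC phi L)) (hZ : (LSC phi Λ).Unl Z) (hc : Z.card < (LSC phi Λ).m) :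
    ∑ z ∈ Z, wC w z 0 < 1 := by
  have e0 : Z.card = ∑ v : I → ZMod 2, (Z.filter fun z => z.1.1 = v).card :=
    card_eq_sum_card_fiberwise (f := fun z : LC phi L => z.1.1) (t := univ) fun z _ => mem_coe.2 (mem_univ _)
  have e1 : ∑ z ∈ Z, wC w z 0 = ∑ v : I → ZMod 2, ∑ z ∈ Z.filter (fun z => z.1.1 = v), wC w z 0 :=
    (sum_fiberwise_of_maps_to (g := fun z : LC phi L => z.1.1) (t := univ)
      (fun z _ => mem_univ _) _).symm
  have e2 : ∀ v : I → ZMod 2, ∑ z ∈ Z.filter (fun z => z.1.1 = v), wC w z 0 =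
      ((Z.filter fun z => z.1.1 = v).card : ℝ) * (((2 : ℝ) ^ Fintype.card I)⁻¹ *
        (((∏ a, if phi a ⬝ᵥ v = 1 then (Λ a).m else 1 : ℕ) : ℝ))⁻¹) := by
    intro v
    rw [← nsmul_eq_mul, ← sum_const]
    refine sum_congr rfl fun z hz => ?_
    rw [X5_wz hq z, (mem_filter.1 hz).2]
  have hlt : ∃ v : I → ZMod 2, (Z.filter fun z => z.1.1 = v).card <
      ∏ a, if phi a ⬝ᵥ v = 1 then (Λ a).m else 1 := by
    by_contra hcon
    push Not at hcon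
    have h1 : (LSC phi Λ).m ≤ Z.card := by
      rw [e0]
      exact sum_le_sum fun v _ => hcon v
    omega
  have h2 : (0 : ℝ) < ((2 : ℝ) ^ Fintype.card I)⁻¹ := by positivity
  have hM : ∀ v : I → ZMod 2,
      (0 : ℝ) < ((∏ a, if phi a ⬝ᵥ v = 1 then (Λ a).m else 1 : ℕ) : ℝ) := by
    intro v
    exact_mod_cast (X5_M (Λ := Λ) hq v : 0 < _)
  obtain ⟨v₀, hv₀⟩ := hlt
  have h3 : ∑ v : I → ZMod 2, ∑ z ∈ Z.filter (fun z => z.1.1 = v), wC w z 0 <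
      ∑ _v : I → ZMod 2, ((2 : ℝ) ^ Fintype.card I)⁻¹ := by
    refine sum_lt_sum (fun v _ => ?_) ⟨v₀, mem_univ _, ?_⟩
    · rw [e2 v]
      have h4 : ((Z.filter fun z => z.1.1 = v).card : ℝ) ≤
          ((∏ a, if phi a ⬝ᵥ v = 1 then (Λ a).m else 1 : ℕ) : ℝ) := by
        exact_mod_cast hC.lay Z hZ v
      calc ((Z.filter fun z => z.1.1 = v).card : ℝ) * (((2 : ℝ) ^ Fintype.card I)⁻¹ *
          (((∏ a, if phi a ⬝ᵥ v = 1 then (Λ a).m else 1 : ℕ) : ℝ))⁻¹)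
          = ((2 : ℝ) ^ Fintype.card I)⁻¹ * (((Z.filter fun z => z.1.1 = v).card : ℝ) /
            ((∏ a, if phi a ⬝ᵥ v = 1 then (Λ a).m else 1 : ℕ) : ℝ)) := by
            rw [div_eq_mul_inv]
            ring
        _ ≤ ((2 : ℝ) ^ Fintype.card I)⁻¹ * 1 :=
            mul_le_mul_of_nonneg_left ((div_le_one (hM v)).2 h4) h2.le
        _ = ((2 : ℝ) ^ Fintype.card I)⁻¹ := mul_one _
    · rw [e2 v₀]
      have h4 : ((Z.filter fun z => z.1.1 = v₀).card : ℝ) <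
          ((∏ a, if phi a ⬝ᵥ v₀ = 1 then (Λ a).m else 1 : ℕ) : ℝ) := by
        exact_mod_cast hv₀
      calc ((Z.filter fun z => z.1.1 = v₀).card : ℝ) * (((2 : ℝ) ^ Fintype.card I)⁻¹ *
          (((∏ a, if phi a ⬝ᵥ v₀ = 1 then (Λ a).m else 1 : ℕ) : ℝ))⁻¹)
          = ((2 : ℝ) ^ Fintype.card I)⁻¹ * (((Z.filter fun z => z.1.1 = v₀).card : ℝ) /
            ((∏ a, if phi a ⬝ᵥ v₀ = 1 then (Λ a).m else 1 : ℕ) : ℝ)) := by
            rw [div_eq_mul_inv]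
            ring
        _ < ((2 : ℝ) ^ Fintype.card I)⁻¹ * 1 :=
            mul_lt_mul_of_pos_left ((div_lt_one (hM v₀)).2 h4) h2
        _ = ((2 : ℝ) ^ Fintype.card I)⁻¹ := mul_one _
  rw [e1]
  refine h3.trans_le (le_of_eq ?_)
  rw [sum_const, card_univ, X5_card, nsmul_eq_mul, Nat.cast_pow, Nat.cast_ofNat]
  exact mul_inv_cancel₀ (by positivity)

/-- **X5a** (easy+). Two labels of the colour of `x` with different links. Proof: `x ∉ UC phi U`: there is `a` with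
`phi a ⬝ᵥ x.1.1 = 1` and `x.1.2 a ∉ U a` (`mem_UC`). `two_lab (hq a)` (K4_6 of MP_1a91b9_ntDV) gives `l, l' ∈ U a` with
`(Λ a).lk l (x.1.2 a) ≠ (Λ a).lk l' (x.1.2 a)`. Choose `y b ∈ U b` for all `b` (`(U b).card = (Λ b).m ≥ 1`) and take the labels of the
colour `x.1.1` with the components `if phi b ⬝ᵥ x.1.1 = 0 then 0 else Function.update y a l b`, and the same with `l'`; in
`LSC_lk` the terms at `b ≠ a` are equal and the coefficient at `a` is `1`. -/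
theorem two_C (hq : ∀ a, QOK (Λ a) (w a)) {U : ∀ a, Finset (L a)}
    (hU : ∀ a, (Λ a).Unl (U a) ∧ (U a).card = (Λ a).m) {x : LC phi L} (hx : x ∉ UC phi U) :
    ∃ l ∈ UC phi U, ∃ l' ∈ UC phi U, l.1.1 = x.1.1 ∧ l'.1.1 = x.1.1 ∧
      (LSC phi Λ).lk l x ≠ (LSC phi Λ).lk l' x := by
  rw [mem_UC] at hx
  push Not at hx
  obtain ⟨a, ha1, hxa⟩ := hx
  obtain ⟨l, hl, l', hl', hne⟩ := two_lab (hq a) (hU a).1 (hU a).2 hxa
  have hy : ∀ b, ∃ y, y ∈ U b := fun b => X5_ne hq hU b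
  choose y hy using hy
  let mk : L a → LC phi L := fun l =>
    ⟨(x.1.1, fun b => if phi b ⬝ᵥ x.1.1 = 0 then 0 else Function.update y a l b),
      fun b hb => if_pos hb⟩
  have hmem : ∀ l ∈ U a, mk l ∈ UC phi U := by
    intro l hl
    rw [mem_UC]
    intro b hb
    have hb' : phi b ⬝ᵥ x.1.1 = 1 := hb
    have h0 : ¬ phi b ⬝ᵥ x.1.1 = 0 := by
      rw [hb']
      exact one_ne_zero
    show (if phi b ⬝ᵥ x.1.1 = 0 then 0 else Function.update y a l b) ∈ U b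
    rw [if_neg h0]
    by_cases hba : b = a
    · subst hba
      rw [Function.update_self]
      exact hl
    · rw [Function.update_of_ne hba]
      exact hy b
  refine ⟨mk l, hmem l hl, mk l', hmem l' hl', rfl, rfl, ?_⟩
  have hlk : ∀ l, (LSC phi Λ).lk (mk l) x = (Λ a).lk l (x.1.2 a) +
      ∑ b ∈ univ.erase a, (phi b ⬝ᵥ x.1.1) * (phi b ⬝ᵥ x.1.1) *
        (Λ b).lk (if phi b ⬝ᵥ x.1.1 = 0 then 0 else y b) (x.1.2 b) := by
    intro l
    rw [LSC_lk, ← add_sum_erase univ _ (mem_univ a)]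
    have h0 : ¬ phi a ⬝ᵥ x.1.1 = 0 := by
      rw [ha1]
      exact one_ne_zero
    refine congrArg₂ _ ?_ (sum_congr rfl fun b hb => ?_)
    · show (phi a ⬝ᵥ x.1.1) * (phi a ⬝ᵥ x.1.1) *
        (Λ a).lk (if phi a ⬝ᵥ x.1.1 = 0 then 0 else Function.update y a l a) (x.1.2 a) = _
      rw [if_neg h0, Function.update_self, ha1, one_mul, one_mul]
    · show (phi b ⬝ᵥ x.1.1) * (phi b ⬝ᵥ x.1.1) *
        (Λ b).lk (if phi b ⬝ᵥ x.1.1 = 0 then 0 else Function.update y a l b) (x.1.2 b) = _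
      rw [Function.update_of_ne (ne_of_mem_erase hb)]
  rw [hlk l, hlk l']
  intro h
  exact hne (add_right_cancel h)

/-- **X5b** (medium). The hypotheses of the engine. Proof. `ok.diag`: `(hq a).diag`; `ok.two`: `(LSC phi Λ).m` is a sum over the
`2 ^ #I ≥ 2` colours of terms `≥ 1` (`(hq a).mpos`, `Finset.one_le_prod'`); `ok.k1`: `Z.card` is the sum over `v` of the numbers of the
labels of the colour `v` (`Finset.card_eq_sum_card_fiberwise`), `hC.lay`; `ok.k2`: `hC.full` and `two_C`. `B`: `rfl`. `w0`, `wz`: products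
(`(hq a).w0`, `(hq a).wz`, `mpos`). `wU`: `hC.wU`. `sm`: take `φ = 0`; by `(hq a).wz` the sum over the labels of the colour `v` is
`(2 ^ #I)⁻¹ * #Z_v * (∏ a, if phi a ⬝ᵥ v = 1 then (Λ a).m else 1)⁻¹ ≤ (2 ^ #I)⁻¹` (`hC.lay`); if all were equalities, `Z.card`
would be `(LSC phi Λ).m`, so one of them is strict and the sum is `< 1` (`Finset.sum_lt_sum`). `u1`: `norm_prod`,
`Finset.prod_le_one`. `pr`: `mem_FullW_C hs hq hC` gives `U`, `two_C` gives `l, l'` of the colour of `x`, and the factors `uC u G l q`,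
`uC u G l' q` are equal because both components at every `a` with `phi a ⬝ᵥ x.1.1 = 1` are in `U a` (`hu`). -/
theorem uok_C [Nonempty I] (hs : Sp phi) (hq : ∀ a, QOK (Λ a) (w a)) (hC : CS phi Λ w)
    {u : ∀ a, L a → ι → ℂ} (hu1 : ∀ a l q, ‖u a l q‖ ≤ 1)
    (hu : ∀ a, ∀ U ∈ FullW (Λ a) (w a), ∀ l ∈ U, ∀ l' ∈ U, ∀ q, u a l q = u a l' q)
    {G : ι → ℂ} (hG : ∀ q, ‖G q‖ ≤ 1) : UOK (LSC phi Λ) (wC w) (uC u G) := by
  refine ⟨⟨?_, ?_, ?_, ?_⟩, rfl, ?_, ?_, ?_, ?_, ?_, ?_⟩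
  · intro z
    show ∑ a, (phi a ⬝ᵥ z.1.1) * (phi a ⬝ᵥ z.1.1) * (Λ a).Phi (z.1.2 a) (z.1.2 a) = 0
    refine sum_eq_zero fun a _ => ?_
    rw [(hq a).diag, mul_zero]
  · show 2 ≤ ∑ v : I → ZMod 2, ∏ a, if phi a ⬝ᵥ v = 1 then (Λ a).m else 1
    have h1 := card_nsmul_le_sum (univ : Finset (I → ZMod 2))
      (fun v => ∏ a, if phi a ⬝ᵥ v = 1 then (Λ a).m else 1) 1 fun v _ => X5_M hq v
    rw [card_univ, X5_card, smul_eq_mul, mul_one] at h1
    refine le_trans ?_ h1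
    calc 2 = 2 ^ 1 := (pow_one 2).symm
      _ ≤ 2 ^ Fintype.card I := Nat.pow_le_pow_right two_pos Fintype.card_pos
  · intro Z hZ
    rw [card_eq_sum_card_fiberwise (f := fun z : LC phi L => z.1.1) (t := univ)
      fun z _ => mem_coe.2 (mem_univ _)]
    exact sum_le_sum fun v _ => hC.lay Z hZ v
  · intro Z hZ hc x hx
    obtain ⟨U, hU, e⟩ := hC.full Z hZ hc
    subst e
    obtain ⟨l, hl, l', hl', -, -, hne⟩ := two_C hq hU hx
    exact ⟨l, hl, l', hl', hne⟩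
  · intro z φ
    refine mul_nonneg (by positivity) (prod_nonneg fun a _ => ?_)
    split_ifs
    · exact (hq a).w0 _ _
    · exact zero_le_one
  · intro z
    rw [X5_wz hq z]
    have h1 : (0 : ℝ) < ((∏ a, if phi a ⬝ᵥ z.1.1 = 1 then (Λ a).m else 1 : ℕ) : ℝ) := by
      exact_mod_cast (X5_M (Λ := Λ) hq z.1.1 : 0 < _)
    positivity
  · exact hC.wU
  · intro Z hZ hc
    exact ⟨0, X5_sm hq hC Z hZ hc⟩
  · intro z q
    show ‖G q * ∏ a, (if phi a ⬝ᵥ z.1.1 = 1 then u a (z.1.2 a) q else 1)‖ ≤ 1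
    rw [norm_mul, norm_prod]
    refine mul_le_one₀ (hG q) (prod_nonneg fun a _ => norm_nonneg _)
      (prod_le_one (fun a _ => norm_nonneg _) fun a _ => ?_)
    split_ifs
    · exact hu1 _ _ _
    · rw [norm_one]
  · intro Z hZ x hx
    obtain ⟨U, hU, e⟩ := (mem_FullW_C hs hq hC).1 hZ
    subst e
    have hU' : ∀ a, (Λ a).Unl (U a) ∧ (U a).card = (Λ a).m := fun a =>
      ((Λ a).mem_Us (U a)).1 (mem_FullW.1 (hU a)).1
    obtain ⟨l, hl, l', hl', e1, e2, hne⟩ := two_C hq hU' hx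
    refine ⟨l, hl, l', hl', hne, fun q => ?_⟩
    show G q * ∏ a, (if phi a ⬝ᵥ l.1.1 = 1 then u a (l.1.2 a) q else 1) =
      G q * ∏ a, (if phi a ⬝ᵥ l'.1.1 = 1 then u a (l'.1.2 a) q else 1)
    refine congrArg _ (prod_congr rfl fun a _ => ?_)
    rw [e1, e2]
    by_cases h : phi a ⬝ᵥ x.1.1 = 1
    · rw [if_pos h, if_pos h]
      refine hu a (U a) (hU a) _ (mem_UC.1 hl a ?_) _ (mem_UC.1 hl' a ?_) q
      · rw [e1]
        exact h
      · rw [e2]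
        exact h
    · rw [if_neg h, if_neg h]

end

end Pool.Agent.Lib.MP_1a91b9_ntMQ.G4
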