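import Pool.Agent.Lib.MP_1a91b9_ntMQ.X2
import Pool.Agent.Lib.MP_1a91b9_ntMQ.X5

set_option autoImplicit false
set_option linter.unusedSectionVars false

namespace Pool.Agent.Lib.MP_1a91b9_ntMQ.G4

open Finset Pool.Agent.Lib.MP_1a91b9_ntH Pool.Agent.Lib.MP_1a91b9_ntQ Pool.Agent.Lib.MP_1a91b9_ntQ.Da
  Pool.Agent.Lib.MP_1a91b9_ntQ.M Pool.Agent.Lib.MP_1a91b9_ntM Pool.Agent.Lib.MP_1a91b9_ntM.E
open Pool.Agent.Lib.MP_1a91b9_ntDV Pool.Agent.Lib.MP_1a91b9_ntDV.G4 Pool.Agent.Lib.MP_1a91b9_ntMQ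

noncomputable section

variable {I A : Type} [Fintype I] [DecidableEq I] [Fintype A] [DecidableEq A] {L : A → Type}
  [∀ a, Zero (L a)] [∀ a, Fintype (L a)] [∀ a, DecidableEq (L a)] {phi : A → I → ZMod 2}
  {ι : Type} [DecidableEq ι] [PS ι] {κ : Type} [Fintype κ] [DecidableEq κ]
  {Λ : ∀ a, LS2 (L a) ι κ} {w : ∀ a, L a → (κ → ZMod 2) → ℝ}

/-- **X6** (easy+). **The first moment, with a multiplicative function.** Proof: `avI_C` (X2), `engineU hD hN (uok_C ..) ε hε`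
(K4_3 of MP_1a91b9_ntDV), `sum_FullW_C` (X4) and `sum_fC` (X3). -/
theorem pC [Nonempty I] (hs : Sp phi) {D : Dat2 ι κ} (hD : D.OK) (hN : D.NV1)
    (hq : ∀ a, QOK (Λ a) (w a)) (hC : CS phi Λ w)
    {u : ∀ a, L a → ι → ℂ} (hu1 : ∀ a l q, ‖u a l q‖ ≤ 1)
    (hu : ∀ a, ∀ U ∈ FullW (Λ a) (w a), ∀ l ∈ U, ∀ l' ∈ U, ∀ q, u a l q = u a l' q)
    {G : ι → ℂ} (hG : ∀ q, ‖G q‖ ≤ 1) (ε : ℝ) (hε : 0 < ε) : ∃ X₀ : ℕ, ∀ X : ℕ, X₀ ≤ X →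
      ‖∑ S ∈ Sx ι X, avI (PB D phi Λ w u) S * ∏ q ∈ S, G q -
        ∑ U ∈ Fintype.piFinset (fun a => FullW (Λ a) (w a)),
          ∑ S ∈ Sx ι X, ∏ q ∈ S, (fC D phi Λ w u U q * G q)‖ ≤ ε * X := by
  obtain ⟨X₀, h1⟩ := engineU hD hN (uok_C hs hq hC hu1 hu hG) ε hε
  refine ⟨X₀, fun X hX => ?_⟩
  have h2 := h1 X hX
  rw [sum_FullW_C hs hq hC] at h2
  have e1 : ∑ S ∈ Sx ι X, avI (PB D phi Λ w u) S * ∏ q ∈ S, G q =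
      ∑ S ∈ Sx ι X, BF D (LSC phi Λ).Phi (wu D (LSC phi Λ).c (wC w) (uC u G)) S :=
    sum_congr rfl fun S _ => avI_C D phi Λ w u G S
  have e2 : ∑ U ∈ Fintype.piFinset (fun a => FullW (Λ a) (w a)),
      ∑ S ∈ Sx ι X, ∏ q ∈ S, (fC D phi Λ w u U q * G q) =
      ∑ U ∈ Fintype.piFinset (fun a => FullW (Λ a) (w a)),
        ∑ S ∈ Sx ι X, ∏ q ∈ S, ∑ z ∈ UC phi U, wu D (LSC phi Λ).c (wC w) (uC u G) z q :=
    sum_congr rfl fun U _ => sum_congr rfl fun S _ => prod_congr rfl fun q _ =>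
      (sum_fC D Λ w u G U q).symm
  rw [e1, e2]
  exact h2

end

end Pool.Agent.Lib.MP_1a91b9_ntMQ.G4
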