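import Pool.Agent.Lib.MP_1a91b9_ntMQ.K5
import Pool.Agent.Lib.MP_1a91b9_ntMQ.K6
import Pool.Agent.Lib.MP_1a91b9_ntMQ.X4

set_option autoImplicit false
set_option linter.unusedSectionVars false

namespace Pool.Agent.Lib.MP_1a91b9_ntMQ.G4

open Finset Pool.Agent.Lib.MP_1a91b9_ntH Pool.Agent.Lib.MP_1a91b9_ntQ Pool.Agent.Lib.MP_1a91b9_ntQ.Da
  Pool.Agent.Lib.MP_1a91b9_ntQ.M Pool.Agent.Lib.MP_1a91b9_ntM Pool.Agent.Lib.MP_1a91b9_ntM.E
open Pool.Agent.Lib.MP_1a91b9_ntDV Pool.Agent.Lib.MP_1a91b9_ntDV.G4 Pool.Agent.Lib.MP_1a91b9_ntMQ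

noncomputable section

variable {I A : Type} [Fintype I] [DecidableEq I] [Fintype A] [DecidableEq A]
  {phi : A → I → ZMod 2} {Bt : A → Type} [∀ a, Fintype (Bt a)] [∀ a, DecidableEq (Bt a)]
  {k : ∀ a, Bt a → ℕ} {E : ∀ a, Bt a → Type} [∀ a b, Fintype (E a b)]
  [∀ a b, DecidableEq (E a b)] {ι : Type} [DecidableEq ι] {κ : Type} [Fintype κ] [DecidableEq κ]

/-- The labels with one label for every product. -/
def tr (z : LC phi fun a => LabP (k a)) : Lb phi (fun a => ∑ b, k a b) :=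
  ⟨(z.1.1, fun a => toL (k a) (z.1.2 a)), fun a h => by
    show toL (k a) (z.1.2 a) = 0
    rw [z.2 a h, toL_zero]⟩

/-- **X7a** (easy). Proof: `toL_inj`. -/
theorem tr_inj : Function.Injective (tr (phi := phi) (k := k)) := by
  intro z y h
  have h1 := congrArg Subtype.val h
  have h2 := congrArg Prod.fst h1
  have h3 := congrArg Prod.snd h1
  exact Subtype.ext (Prod.ext h2 (funext fun a => toL_inj (k a) (congrFun h3 a)))

/-- **X7b** (easy). Proof: `LSC_lk`, `LSP_lk`, `Q2_toL`, `toL_sub`. -/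
theorem lk_tr (σ : ∀ a, Bt a → κ → ZMod 2) (P : ∀ a b, κ → E a b → ZMod 2)
    (m : ∀ a b, E a b → Lab2 (k a b)) (z y : LC phi fun a => LabP (k a)) :
    (LSC phi fun a => LSP ι (k a) (σ a) (P a) (m a)).lk z y =
      QL phi (fun a => ∑ b, k a b) (tr z) (tr y) := by
  rw [LSC_lk]
  unfold QL
  refine sum_congr rfl fun a _ => ?_
  rw [LSP_lk]
  show _ = (phi a ⬝ᵥ z.1.1) * (phi a ⬝ᵥ y.1.1) * Q2 (toL (k a) (z.1.2 a) - toL (k a) (y.1.2 a))
  rw [← toL_sub, Q2_toL]

/-- **X7c** (easy+). The layer of the colour `v` (`lay`, K6.lean of this folder) of the image of `Z` has as many elements as there are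
labels of the colour `v` in `Z`. Proof: `tr_inj` and `z ↦ z.1.2` is injective on the labels of one colour
(`card_image_of_injOn`; `lay` is an image of a filter, `filter_image` or `Finset.card_bij`). -/
theorem card_lay_tr (Z : Finset (LC phi fun a => LabP (k a))) (v : I → ZMod 2) :
    (lay (Z.image tr) v).card = (Z.filter fun z => z.1.1 = v).card := by
  unfold lay
  rw [card_image_of_injOn, filter_image, card_image_of_injective _ tr_inj]
  · rfl
  · intro z hz y hy h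
    have hz' := (mem_filter.1 (mem_coe.1 hz)).2
    have hy' := (mem_filter.1 (mem_coe.1 hy)).2
    exact Subtype.ext (Prod.ext (hz'.trans hy'.symm) h)

private theorem X7_cross (σ : ∀ a, Bt a → κ → ZMod 2) (P : ∀ a b, κ → E a b → ZMod 2)
    (m : ∀ a b, E a b → Lab2 (k a b)) {Z : Finset (LC phi fun a => LabP (k a))}
    (hZ : (LSC phi fun a => LSP ι (k a) (σ a) (P a) (m a)).Unl Z) (v v' : I → ZMod 2)
    {x y : LabP fun a => ∑ b, k a b} (hx : x ∈ lay (Z.image tr) v) (hy : y ∈ lay (Z.image tr) v') :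
    ∑ a, (phi a ⬝ᵥ v) * (phi a ⬝ᵥ v') * Q2 (x a - y a) = 0 := by
  obtain ⟨z, hz, h1, h2⟩ := mem_lay.1 hx
  obtain ⟨z', hz', h1', h2'⟩ := mem_lay.1 hy
  obtain ⟨z0, hz0, rfl⟩ := mem_image.1 hz
  obtain ⟨z1, hz1, rfl⟩ := mem_image.1 hz'
  have h3 := hZ z0 hz0 z1 hz1
  rw [lk_tr] at h3
  rw [← h1, ← h2, ← h1', ← h2']
  exact h3

private theorem X7_unl (σ : ∀ a, Bt a → κ → ZMod 2) (P : ∀ a b, κ → E a b → ZMod 2)
    (m : ∀ a b, E a b → Lab2 (k a b)) {Z : Finset (LC phi fun a => LabP (k a))}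
    (hZ : (LSC phi fun a => LSP ι (k a) (σ a) (P a) (m a)).Unl Z) (v : I → ZMod 2) :
    ∀ x ∈ lay (Z.image tr) v, ∀ y ∈ lay (Z.image tr) v,
      Qf (fun a => phi a ⬝ᵥ v) (x - y) = 0 := by
  intro x hx y hy
  rw [← X7_cross σ P m hZ v v hx hy]
  unfold Qf
  refine sum_congr rfl fun a _ => ?_
  have h1 : ∀ c : ZMod 2, c * c = c := by decide
  rw [h1]
  rfl

private theorem X7_m (σ : ∀ a, Bt a → κ → ZMod 2) (P : ∀ a b, κ → E a b → ZMod 2)
    (m : ∀ a b, E a b → Lab2 (k a b)) (a : A) :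
    2 ^ (∑ b, k a b) = (LSP ι (k a) (σ a) (P a) (m a)).m := (prod_two_pow (k a)).symm

/-- **X7d** (easy+). Proof: `card_lay_tr`; the layer satisfies the hypotheses of `K1f` (K1.lean) for `f = fun a => phi a ⬝ᵥ v`
(`lay_sup`; the links of two labels of the colour `v` are `∑ a, f a * f a * Q2 (..) = Qf f (x - y)`, `lk_tr`, `z2`), and
`2 ^ ∑ b, k a b = ∏ b, 2 ^ k a b = (LSP ..).m` (`prod_two_pow`). -/
theorem lay_X (σ : ∀ a, Bt a → κ → ZMod 2) (P : ∀ a b, κ → E a b → ZMod 2)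
    (m : ∀ a b, E a b → Lab2 (k a b)) (Z : Finset (LC phi fun a => LabP (k a)))
    (hZ : (LSC phi fun a => LSP ι (k a) (σ a) (P a) (m a)).Unl Z) (v : I → ZMod 2) :
    (Z.filter fun z => z.1.1 = v).card ≤
      ∏ a, if phi a ⬝ᵥ v = 1 then (LSP ι (k a) (σ a) (P a) (m a)).m else 1 := by
  rw [← card_lay_tr]
  refine (K1f (fun x hx => lay_sup hx) (X7_unl σ P m hZ v)).trans (le_of_eq ?_)
  refine prod_congr rfl fun a _ => ?_
  rw [← X7_m (ι := ι) σ P m a]

private theorem X7_surj {B : Type} [Fintype B] [DecidableEq B] (n : B → ℕ) :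
    Function.Surjective (toL n) := by
  intro y
  refine ⟨fun b => (fun j => y.1 (sgP n ⟨b, j⟩), fun j => y.2 (sgP n ⟨b, j⟩)), ?_⟩
  refine Prod.ext (funext fun i => ?_) (funext fun i => ?_)
  · exact congrArg y.1 ((sgP n).apply_symm_apply i)
  · exact congrArg y.2 ((sgP n).apply_symm_apply i)

/-- **X7e** (medium). THE MAXIMAL UNLINKED SETS ARE PRODUCTS. Proof: `Z.card` is the sum over `v` of the numbers of the labels of the colour
`v`, which are at most the bounds of `lay_X`, whose sum is `(LSC ..).m`; so they are equal to the bounds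
(`Finset.sum_lt_sum` otherwise). So `Fam phi (lay (Z.image tr))` (K0.lean): `full.sup`: `lay_sup`; `full.unl`, `cross`: `hZ`, `lk_tr` (for the
labels of one colour `f a * f a = f a`, `z2`); `full.card`: `card_lay_tr`. `Fam.prod hs` (K5.lean) gives
`V a ∈ UsN (∑ b, k a b)`. Let `U a = univ.filter fun x : LabP (k a) => toL (k a) x ∈ V a`: it is `(LSP ..).Unl` (`LSP_Unl`, `Q2_toL`,
`mem_UsN`) and has `2 ^ ∑ b, k a b` elements, because `toL (k a)` is a bijection (`toL_inj` and the two types have the same number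
of elements: `Fintype.card_pi`, `card (Lab2 n) = 4 ^ n`; see `surj_toL` or similar in MP_1a91b9_ntM/DJ/Lab.lean or Dec.lean).
`z ∈ Z` iff `tr z ∈ Z.image tr` iff `(tr z).1.2 ∈ lay .. z.1.1` iff all the components with `phi a ⬝ᵥ z.1.1 = 1` are in `V a`
(`mem_lay`, `Sup` holds because of `z.2`). -/
theorem full_X (hs : Sp phi) (σ : ∀ a, Bt a → κ → ZMod 2) (P : ∀ a b, κ → E a b → ZMod 2)
    (m : ∀ a b, E a b → Lab2 (k a b)) (Z : Finset (LC phi fun a => LabP (k a)))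
    (hZ : (LSC phi fun a => LSP ι (k a) (σ a) (P a) (m a)).Unl Z)
    (hc : Z.card = (LSC phi fun a => LSP ι (k a) (σ a) (P a) (m a)).m) :
    ∃ U : ∀ a, Finset (LabP (k a)), (∀ a, (LSP ι (k a) (σ a) (P a) (m a)).Unl (U a) ∧
      (U a).card = (LSP ι (k a) (σ a) (P a) (m a)).m) ∧ UC phi U = Z := by
  have h1 : ∀ v : I → ZMod 2, (Z.filter fun z => z.1.1 = v).card =
      ∏ a, if phi a ⬝ᵥ v = 1 then (LSP ι (k a) (σ a) (P a) (m a)).m else 1 := by
    have h2 : Z.card = ∑ v : I → ZMod 2, (Z.filter fun z => z.1.1 = v).card :=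
      card_eq_sum_card_fiberwise (f := fun z : LC phi fun a => LabP (k a) => z.1.1)
        (fun _ _ => mem_coe.2 (mem_univ _))
    have h3 : ∑ v : I → ZMod 2, (Z.filter fun z => z.1.1 = v).card =
        ∑ v : I → ZMod 2, ∏ a, if phi a ⬝ᵥ v = 1 then (LSP ι (k a) (σ a) (P a) (m a)).m else 1 :=
      h2.symm.trans hc
    intro v
    exact (sum_eq_sum_iff_of_le fun v _ => lay_X σ P m Z hZ v).1 h3 v (mem_univ v)
  have hF : Fam phi (lay (Z.image (tr (phi := phi) (k := k)))) := by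
    refine ⟨fun v => ⟨fun x hx => lay_sup hx, X7_unl σ P m hZ v, ?_⟩,
      fun v v' x hx y hy => X7_cross σ P m hZ v v' hx hy⟩
    rw [card_lay_tr, h1 v]
    refine prod_congr rfl fun a _ => ?_
    rw [← X7_m (ι := ι) σ P m a]
  obtain ⟨V, hV, hVm⟩ := Fam.prod hs hF
  classical
  refine ⟨fun a => univ.filter fun x : LabP (k a) => toL (k a) x ∈ V a, fun a => ⟨?_, ?_⟩, ?_⟩
  · rw [LSP_Unl]
    intro l hl l' hl'
    rw [← Q2_toL, toL_sub]
    exact (Pool.Agent.Lib.MP_1a91b9_ntV.mem_UsN.1 (hV a)).1 _ (mem_filter.1 hl).2 _ (mem_filter.1 hl').2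
  · rw [← X7_m (ι := ι) σ P m a, ← (Pool.Agent.Lib.MP_1a91b9_ntV.mem_UsN.1 (hV a)).2,
      ← card_image_of_injective (univ.filter fun x : LabP (k a) => toL (k a) x ∈ V a) (toL_inj (k a))]
    congr 1
    ext y
    rw [mem_image]
    constructor
    · rintro ⟨x, hx, rfl⟩
      exact (mem_filter.1 hx).2
    · intro hy
      obtain ⟨x, rfl⟩ := X7_surj (k a) y
      exact ⟨x, mem_filter.2 ⟨mem_univ _, hy⟩, rfl⟩
  · ext z
    rw [mem_UC]
    have h4 : z ∈ Z ↔ (tr z).1.2 ∈ lay (Z.image (tr (phi := phi) (k := k))) z.1.1 := by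
      rw [mem_lay]
      constructor
      · intro hz
        exact ⟨tr z, mem_image_of_mem _ hz, rfl, rfl⟩
      · rintro ⟨z', hz', h5, h6⟩
        obtain ⟨z0, hz0, rfl⟩ := mem_image.1 hz'
        have h7 : tr z0 = tr z := Subtype.ext (Prod.ext h5 h6)
        rwa [← tr_inj h7]
    rw [h4, hVm]
    constructor
    · intro h5
      exact ⟨fun a ha => (tr z).2 a ha, fun a ha => (mem_filter.1 (h5 a ha)).2⟩
    · intro h5 a ha
      exact mem_filter.2 ⟨mem_univ _, h5.2 a ha⟩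

end

end Pool.Agent.Lib.MP_1a91b9_ntMQ.G4
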