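import Pool.Agent.Lib.MP_1a91b9_ntMQ.X4

set_option autoImplicit false
set_option linter.unusedSectionVars false

namespace Pool.Agent.Lib.MP_1a91b9_ntMQ.G4

open Finset Pool.Agent.Lib.MP_1a91b9_ntH Pool.Agent.Lib.MP_1a91b9_ntQ Pool.Agent.Lib.MP_1a91b9_ntQ.Da
  Pool.Agent.Lib.MP_1a91b9_ntQ.M Pool.Agent.Lib.MP_1a91b9_ntM Pool.Agent.Lib.MP_1a91b9_ntM.E
open Pool.Agent.Lib.MP_1a91b9_ntDV Pool.Agent.Lib.MP_1a91b9_ntDV.G4 Pool.Agent.Lib.MP_1a91b9_ntMQ

noncomputable section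

variable {I A : Type} [Fintype I] [DecidableEq I] [Fintype A] [DecidableEq A]
  {phi : A → I → ZMod 2} {Bt : A → Type} [∀ a, Fintype (Bt a)] [∀ a, DecidableEq (Bt a)]
  {k : ∀ a, Bt a → ℕ} {E : ∀ a, Bt a → Type} [∀ a b, Fintype (E a b)]
  [∀ a b, DecidableEq (E a b)] {ι : Type} [DecidableEq ι] {κ : Type} [Fintype κ] [DecidableEq κ]

/-- The pairs whose product contains the primes of the colour `v`. -/
private abbrev X8_T (phi : A → I → ZMod 2) (Bt : A → Type) (v : I → ZMod 2) : Type :=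
  {s : (Σ a, Bt a) // phi s.1 ⬝ᵥ v = 1}

private abbrev X8_k (phi : A → I → ZMod 2) (k : ∀ a, Bt a → ℕ) (v : I → ZMod 2) : X8_T phi Bt v → ℕ :=
  fun s => k s.1.1 s.1.2

private def X8_jn (v : I → ZMod 2) (z : LC phi fun a => LabP (k a)) : LabP (X8_k phi k v) :=
  fun s => z.1.2 s.1.1 s.1.2

private theorem X8_sum (v : I → ZMod 2) (F : (Σ a, Bt a) → ZMod 2) :
    ∑ s : X8_T phi Bt v, F s.1 = ∑ a, if phi a ⬝ᵥ v = 1 then ∑ b, F ⟨a, b⟩ else 0 := by
  rw [← Finset.sum_subtype (univ.filter fun s : (Σ a, Bt a) => phi s.1 ⬝ᵥ v = 1)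
    (fun s => by rw [mem_filter]; exact ⟨fun h => h.2, fun h => ⟨mem_univ _, h⟩⟩) F, sum_filter, Fintype.sum_sigma]
  refine sum_congr rfl fun a _ => ?_
  by_cases h : phi a ⬝ᵥ v = 1
  · rw [if_pos h]
    exact sum_congr rfl fun b _ => if_pos h
  · rw [if_neg h]
    exact sum_eq_zero fun b _ => if_neg h

private theorem X8_prod (v : I → ZMod 2) (F : (Σ a, Bt a) → ℝ) :
    ∏ s : X8_T phi Bt v, F s.1 = ∏ a, if phi a ⬝ᵥ v = 1 then ∏ b, F ⟨a, b⟩ else 1 := by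
  rw [← Finset.prod_subtype (univ.filter fun s : (Σ a, Bt a) => phi s.1 ⬝ᵥ v = 1)
    (fun s => by rw [mem_filter]; exact ⟨fun h => h.2, fun h => ⟨mem_univ _, h⟩⟩) F, prod_filter, Fintype.prod_sigma]
  refine prod_congr rfl fun a _ => ?_
  by_cases h : phi a ⬝ᵥ v = 1
  · rw [if_pos h]
    exact prod_congr rfl fun b _ => if_pos h
  · rw [if_neg h]
    exact prod_eq_one fun b _ => if_neg h

private theorem X8_inj {v : I → ZMod 2} {z y : LC phi fun a => LabP (k a)} (hz : z.1.1 = v) (hy : y.1.1 = v)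
    (h : X8_jn v z = X8_jn v y) : z = y := by
  refine Subtype.ext (Prod.ext (hz.trans hy.symm) ?_)
  funext a
  rcases z2 (phi a ⬝ᵥ v) with h0 | h1
  · rw [z.2 a (by rw [hz]; exact h0), y.2 a (by rw [hy]; exact h0)]
  · funext b
    exact congrFun h ⟨⟨a, b⟩, h1⟩

private theorem X8_QP (v : I → ZMod 2) (z y : LC phi fun a => LabP (k a)) :
    QP (X8_jn v z - X8_jn v y) = ∑ a, if phi a ⬝ᵥ v = 1 then QP (z.1.2 a - y.1.2 a) else 0 :=
  X8_sum v fun s => Q2 (z.1.2 s.1 s.2 - y.1.2 s.1 s.2)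

private theorem X8_wC (cA : ∀ a, Bt a → κ → ZMod 2) {v : I → ZMod 2} {z : LC phi fun a => LabP (k a)}
    (hz : z.1.1 = v) (φ : κ → ZMod 2) : wC (fun a => wX (k a) (cA a)) z φ =
      ((2 : ℝ) ^ Fintype.card I)⁻¹ * wX (X8_k phi k v) (fun s => cA s.1.1 s.1.2) (X8_jn v z) φ := by
  subst hz
  unfold wC
  congr 1
  exact (X8_prod z.1.1 fun s => if ∑ j, cA s.1 s.2 j * φ j = 0 then ((2 : ℝ) ^ k s.1 s.2)⁻¹
    else if z.1.2 s.1 s.2 = 0 then 1 else 0).symm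

/-- **X8** (medium). The weights of an unlinked set. Proof. `sum_fiberwise` by the colour `v = z.1.1`. For a colour `v` let
`T = {s : Σ a, Bt a // phi s.1 ⬝ᵥ v = 1}`, `kk s = k s.1.1 s.1.2` and `jn z : LabP kk`, `jn z s = z.1.2 s.1.1 s.1.2`. On the labels of the
colour `v` the map `jn` is injective (a component `z.1.2 a` with `phi a ⬝ᵥ v = 0` is `0`), the set of the `jn z` is `UnlP`:
`QP (jn z - jn y) = ∑ a, if phi a ⬝ᵥ v = 1 then QP (z.1.2 a - y.1.2 a) else 0` (a sum over `T` is a sum over the pairs with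
`phi a ⬝ᵥ v = 1`: `Finset.sum_subtype`, `Fintype.sum_sigma`, `sum_filter`) `= (LSC ..).lk z y = 0` (`LSC_lk`, `LSP_lk`, `z2`). In the same
way `wC (fun a => wX (k a) (cA a)) z φ = (2 ^ #I)⁻¹ * wX kk (fun s => cA s.1.1 s.1.2) (jn z) φ` (`wX` is a product:
`Finset.prod_subtype`, `Fintype.prod_sigma`). So by `sum_wX_le` (MP_1a91b9_ntM/E/XLab.lean) the sum over the labels of the colour `v` is
at most `(2 ^ #I)⁻¹` (compare `ju_X`, the PROVED K4_7 of MP_1a91b9_ntDV), and there are `2 ^ #I` colours. -/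
theorem wU_X (cA σ : ∀ a, Bt a → κ → ZMod 2) (P : ∀ a b, κ → E a b → ZMod 2)
    (m : ∀ a b, E a b → Lab2 (k a b)) (Z : Finset (LC phi fun a => LabP (k a)))
    (hZ : (LSC phi fun a => LSP ι (k a) (σ a) (P a) (m a)).Unl Z) (φ : κ → ZMod 2) :
    ∑ z ∈ Z, wC (fun a => wX (k a) (cA a)) z φ ≤ 1 := by
  classical
  have h1 : ∀ v : I → ZMod 2, ∑ z ∈ Z.filter (fun z => z.1.1 = v), wC (fun a => wX (k a) (cA a)) z φ ≤
      ((2 : ℝ) ^ Fintype.card I)⁻¹ := by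
    intro v
    have hU : UnlP ((Z.filter fun z => z.1.1 = v).image (X8_jn v)) := by
      intro p hp q hq
      rw [mem_image] at hp hq
      obtain ⟨z, hz, rfl⟩ := hp
      obtain ⟨y, hy, rfl⟩ := hq
      rw [mem_filter] at hz hy
      have h := hZ z hz.1 y hy.1
      rw [LSC_lk] at h
      rw [X8_QP]
      refine (sum_congr rfl fun a _ => ?_).trans h
      rw [hz.2, hy.2]
      rcases z2 (phi a ⬝ᵥ v) with h0 | h1
      · rw [h0, if_neg (by decide), zero_mul, zero_mul]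
      · rw [h1, if_pos rfl, one_mul, one_mul]
        exact (LSP_lk _ _ _ _ _).symm
    have h2 := sum_wX_le (fun s : X8_T phi Bt v => cA s.1.1 s.1.2) hU φ
    rw [sum_image fun z hz y hy h => X8_inj (mem_filter.1 hz).2 (mem_filter.1 hy).2 h] at h2
    calc ∑ z ∈ Z.filter (fun z => z.1.1 = v), wC (fun a => wX (k a) (cA a)) z φ =
        ∑ z ∈ Z.filter (fun z => z.1.1 = v), ((2 : ℝ) ^ Fintype.card I)⁻¹ *
          wX (X8_k phi k v) (fun s => cA s.1.1 s.1.2) (X8_jn v z) φ :=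
          sum_congr rfl fun z hz => X8_wC cA (mem_filter.1 hz).2 φ
      _ ≤ ((2 : ℝ) ^ Fintype.card I)⁻¹ * 1 := by
          rw [← mul_sum]
          exact mul_le_mul_of_nonneg_left h2 (by positivity)
      _ = ((2 : ℝ) ^ Fintype.card I)⁻¹ := mul_one _
  rw [← sum_fiberwise Z (fun z => z.1.1) fun z => wC (fun a => wX (k a) (cA a)) z φ]
  refine (sum_le_sum fun v _ => h1 v).trans (le_of_eq ?_)
  rw [sum_const, card_univ, nsmul_eq_mul, Fintype.card_fun, ZMod.card]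
  push_cast
  exact mul_inv_cancel₀ (by positivity)

end

end Pool.Agent.Lib.MP_1a91b9_ntMQ.G4
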