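import Pool.Agent.Lib.MP_1a91b9_ntDV.K4_7
import Pool.Agent.Lib.MP_1a91b9_ntMQ.X6
import Pool.Agent.Lib.MP_1a91b9_ntMQ.X7
import Pool.Agent.Lib.MP_1a91b9_ntMQ.X8

set_option autoImplicit false
set_option linter.unusedSectionVars false

namespace Pool.Agent.Lib.MP_1a91b9_ntMQ.G4

open Finset Pool.Agent.Lib.MP_1a91b9_ntH Pool.Agent.Lib.MP_1a91b9_ntQ Pool.Agent.Lib.MP_1a91b9_ntQ.Da
  Pool.Agent.Lib.MP_1a91b9_ntQ.M Pool.Agent.Lib.MP_1a91b9_ntM Pool.Agent.Lib.MP_1a91b9_ntM.E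
open Pool.Agent.Lib.MP_1a91b9_ntDV Pool.Agent.Lib.MP_1a91b9_ntDV.G4 Pool.Agent.Lib.MP_1a91b9_ntMQ

noncomputable section


variable {I A : Type} [Fintype I] [DecidableEq I] [Fintype A] [DecidableEq A]
  {phi : A → I → ZMod 2} {Bt : A → Type} [∀ a, Fintype (Bt a)] [∀ a, DecidableEq (Bt a)]
  {k : ∀ a, Bt a → ℕ} {E : ∀ a, Bt a → Type} [∀ a b, Fintype (E a b)]
  [∀ a b, DecidableEq (E a b)] {ι : Type} [DecidableEq ι] {κ : Type} [Fintype κ] [DecidableEq κ]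

/-- **X9a** (easy). Proof: `⟨lay_X σ P m, full_X hs σ P m, wU_X cA σ P m⟩` (X7, X8). -/
theorem cs_X (hs : Sp phi) (cA σ : ∀ a, Bt a → κ → ZMod 2) (P : ∀ a b, κ → E a b → ZMod 2)
    (m : ∀ a b, E a b → Lab2 (k a b)) :
    CS phi (fun a => LSP ι (k a) (σ a) (P a) (m a)) fun a => wX (k a) (cA a) :=
  ⟨lay_X σ P m, full_X hs σ P m, wU_X cA σ P m⟩

/-- **X9b** (easy+). The local factors. Proof: for `V ∈ FuI ..` and every `a` the set `V a` is in `FullW ..`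
(`Fintype.mem_piFinset`), so by `uX_full` (K4_7 of MP_1a91b9_ntDV) every `l ∈ V a` has `uX ρ (cA a) (g a) l q = g a q`, and
`∑ l ∈ V a, wu D (LSP ..).c (wX ..) (uX ..) l q = g a q * TotW (LSP ..) (wX ..) (V a) (D.a q)` (unfold `wu`, `TotW`, `mul_sum`; the class
vectors are the same by definition; compare the PROVED `hO_X` in K4_7). -/
theorem fC_X {ρ : (κ → ZMod 2) → ι → ZMod 2} (h0 : ρ 0 = 0) (D : Dat2 ι κ)
    {cA σ : ∀ a, Bt a → κ → ZMod 2} {P : ∀ a b, κ → E a b → ZMod 2}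
    {m : ∀ a b, E a b → Lab2 (k a b)} (g : A → ι → ℂ) {V : ∀ a, Finset (LabP (k a))}
    (hV : V ∈ FuI ι cA σ P m) (q : ι) :
    fC D phi (fun a => LSP ι (k a) (σ a) (P a) (m a)) (fun a => wX (k a) (cA a))
      (fun a => uX ρ (cA a) (g a)) V q = hI D phi cA σ P m g V q := by
  have hV' : ∀ a, V a ∈ FullW (LSP ι (k a) (σ a) (P a) (m a)) (wX (k a) (cA a)) :=
    Fintype.mem_piFinset.1 hV
  have h1 : ∀ a, ∑ l ∈ V a, wu D (LSP ι (k a) (σ a) (P a) (m a)).c (wX (k a) (cA a))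
      (uX ρ (cA a) (g a)) l q =
      g a q * TotW (LSP ι (k a) (σ a) (P a) (m a)) (wX (k a) (cA a)) (V a) (D.a q) := by
    intro a
    unfold TotW
    rw [mul_sum]
    refine sum_congr rfl fun l hl => ?_
    show (((wX (k a) (cA a) l (D.a q) : ℝ)) : ℂ) * uX ρ (cA a) (g a) l q *
      e2 (∑ j, (LSP ι (k a) (σ a) (P a) (m a)).c l j * D.a q j) = _
    rw [uX_full h0 (g a) (hV' a) hl q]
    ring
  unfold fC hI
  refine congrArg (fun x : ℂ => ((2 : ℂ) ^ Fintype.card I)⁻¹ * x) ?_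
  refine sum_congr rfl fun v _ => prod_congr rfl fun a _ => ?_
  split_ifs with h
  · exact h1 a
  · rfl

/-- **X9c** (easy+). Proof: `norm_TotW_le (wtX (cA a) (σ a) (P a) (m a)) hU φ` (MP_1a91b9_ntM/E/XMom.lean; as in the PROVED `norm_hT` of
K4_7): every factor of the product over `a` has absolute value at most `1` (`norm_prod`, `Finset.prod_le_one`), there are
`2 ^ #I` colours (`norm_sum_le`, `card_univ`, `ZMod.card`). -/
theorem norm_hI (D : Dat2 ι κ) {cA σ : ∀ a, Bt a → κ → ZMod 2}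
    {P : ∀ a b, κ → E a b → ZMod 2} {m : ∀ a b, E a b → Lab2 (k a b)} {g : A → ι → ℂ}
    (hg : ∀ a q, ‖g a q‖ ≤ 1) {V : ∀ a, Finset (LabP (k a))}
    (hV : V ∈ FuI ι cA σ P m) (q : ι) : ‖hI D phi cA σ P m g V q‖ ≤ 1 := by
  have hV' : ∀ a, V a ∈ FullW (LSP ι (k a) (σ a) (P a) (m a)) (wX (k a) (cA a)) :=
    Fintype.mem_piFinset.1 hV
  have h1 : ∀ v : I → ZMod 2, ‖∏ a, (if phi a ⬝ᵥ v = 1 then
      g a q * TotW (LSP ι (k a) (σ a) (P a) (m a)) (wX (k a) (cA a)) (V a) (D.a q)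
        else 1 : ℂ)‖ ≤ 1 := by
    intro v
    rw [norm_prod]
    refine prod_le_one (fun a _ => norm_nonneg _) fun a _ => ?_
    split_ifs with h
    · rw [norm_mul]
      exact mul_le_one₀ (hg a q) (norm_nonneg _)
        (norm_TotW_le (wtX (cA a) (σ a) (P a) (m a)) (hV' a) (D.a q))
    · rw [norm_one]
  have h2 : ‖∑ v : I → ZMod 2, ∏ a, (if phi a ⬝ᵥ v = 1 then
      g a q * TotW (LSP ι (k a) (σ a) (P a) (m a)) (wX (k a) (cA a)) (V a) (D.a q)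
        else 1 : ℂ)‖ ≤ 2 ^ Fintype.card I := by
    refine (norm_sum_le _ _).trans ((sum_le_sum fun v _ => h1 v).trans (le_of_eq ?_))
    rw [sum_const, card_univ, nsmul_eq_mul, mul_one, Fintype.card_fun, ZMod.card]
    push_cast
    rfl
  have hp : (0 : ℝ) < 2 ^ Fintype.card I := by positivity
  unfold hI
  rw [norm_mul, norm_inv, norm_pow, Complex.norm_ofNat]
  calc ((2 : ℝ) ^ Fintype.card I)⁻¹ * _ ≤ ((2 : ℝ) ^ Fintype.card I)⁻¹ * 2 ^ Fintype.card I :=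
        mul_le_mul_of_nonneg_left h2 (inv_nonneg.2 hp.le)
    _ = 1 := inv_mul_cancel₀ hp.ne'

/-- **X9d** (easy+). **The first moment of the family.** Proof: `pC` (X6) with `Λ a = LSP ι (k a) (σ a) (P a) (m a)`, `w a = wX (k a) (cA a)`,
`u a = uX ρ (cA a) (g a)`: `qok_X` (K4_7 of MP_1a91b9_ntDV), `cs_X`, `norm_uX` for `some l` (the factor is `g a q * e2 ..`), `uX_full` (both sides are
`g a q`); `PhI = PB ..` and `FuI = Fintype.piFinset ..` by definition; `fC_X` for the local factors (`sum_congr`, `prod_congr`). -/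
theorem cross_I [Nonempty I] [PS ι] (hs : Sp phi) {D : Dat2 ι κ} (hD : D.OK) (hN : D.NV1)
    {ρ : (κ → ZMod 2) → ι → ZMod 2} (h0 : ρ 0 = 0) (cA σ : ∀ a, Bt a → κ → ZMod 2)
    (P : ∀ a b, κ → E a b → ZMod 2) (m : ∀ a b, E a b → Lab2 (k a b)) {g : A → ι → ℂ}
    (hg : ∀ a q, ‖g a q‖ ≤ 1) {G : ι → ℂ} (hG : ∀ q, ‖G q‖ ≤ 1) (ε : ℝ) (hε : 0 < ε) :
    ∃ X₀ : ℕ, ∀ X : ℕ, X₀ ≤ X →
      ‖∑ S ∈ Sx ι X, avI (PhI D ρ phi cA σ P m g) S * ∏ q ∈ S, G q -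
        ∑ V ∈ FuI ι cA σ P m, ∑ S ∈ Sx ι X, ∏ q ∈ S, (hI D phi cA σ P m g V q * G q)‖ ≤
        ε * X := by
  obtain ⟨X₀, h⟩ := pC hs hD hN (fun a => qok_X (cA a) (σ a) (P a) (m a)) (cs_X hs cA σ P m)
    (u := fun a => uX ρ (cA a) (g a)) (fun a l q => norm_uX (hg a) (some l) q)
    (fun a U hU l hl l' hl' q => by
      show uX ρ (cA a) (g a) l q = uX ρ (cA a) (g a) l' q
      rw [uX_full h0 (g a) hU hl q, uX_full h0 (g a) hU hl' q]) hG ε hε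
  refine ⟨X₀, fun X hX => ?_⟩
  have h1 := h X hX
  have h2 : ∑ V ∈ FuI ι cA σ P m, ∑ S ∈ Sx ι X, ∏ q ∈ S, (hI D phi cA σ P m g V q * G q) =
      ∑ U ∈ Fintype.piFinset (fun a => FullW (LSP ι (k a) (σ a) (P a) (m a)) (wX (k a) (cA a))),
        ∑ S ∈ Sx ι X, ∏ q ∈ S, (fC D phi (fun a => LSP ι (k a) (σ a) (P a) (m a))
          (fun a => wX (k a) (cA a)) (fun a => uX ρ (cA a) (g a)) U q * G q) := by
    refine sum_congr rfl fun V hV => sum_congr rfl fun S _ => prod_congr rfl fun q _ => ?_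
    rw [fC_X h0 D g hV q]
  rw [h2]
  exact h1

end

end Pool.Agent.Lib.MP_1a91b9_ntMQ.G4
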