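import Pool.Agent.Lib.MP_1a91b9_ntMQ.A6
import Pool.Agent.Lib.MP_1a91b9_ntMQ.X9

set_option autoImplicit false
set_option linter.unusedSectionVars false

namespace Pool.Agent.Lib.MP_1a91b9_ntMQ.G4

open Finset Pool.Agent.Lib.MP_1a91b9_ntH Pool.Agent.Lib.MP_1a91b9_ntQ Pool.Agent.Lib.MP_1a91b9_ntQ.Da
  Pool.Agent.Lib.MP_1a91b9_ntQ.M Pool.Agent.Lib.MP_1a91b9_ntM Pool.Agent.Lib.MP_1a91b9_ntM.E
open Pool.Agent.Lib.MP_1a91b9_ntDV Pool.Agent.Lib.MP_1a91b9_ntDV.G4 Pool.Agent.Lib.MP_1a91b9_ntMQ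

noncomputable section


variable {I A : Type} [Fintype I] [DecidableEq I] [Fintype A] [DecidableEq A]
  {phi : A → I → ZMod 2} {Bt : A → Type} [∀ a, Fintype (Bt a)] [∀ a, DecidableEq (Bt a)]
  {k : ∀ a, Bt a → ℕ} {E : ∀ a, Bt a → Type} [∀ a b, Fintype (E a b)]
  [∀ a b, DecidableEq (E a b)] {ι : Type} [DecidableEq ι] {κ : Type} [Fintype κ] [DecidableEq κ]

/-- **X10a** (easy+). Two copies of the family. Proof: `Fintype.prod_sum_type` and `TT_two` (A6); `pr (.inl a) = a`,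
`mm m m' (.inl a) = m a`, `Sum.elim g g' (.inl a) = g a` by definition. -/
theorem PhI_two (D : Dat2 ι κ) (ρ : (κ → ZMod 2) → ι → ZMod 2)
    (cA σ : ∀ a, Bt a → κ → ZMod 2) (P : ∀ a b, κ → E a b → ZMod 2)
    (m m' : ∀ a b, E a b → Lab2 (k a b)) (g g' : A → ι → ℂ) (c : I ⊕ I → Finset ι) :
    PhI D ρ phi cA σ P m g (fun i => c (.inl i)) * PhI D ρ phi cA σ P m' g' (fun i => c (.inr i)) =
      PhI D ρ (phi2 phi) (fun s => cA (pr s)) (fun s => σ (pr s)) (fun s => P (pr s)) (mm m m')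
        (Sum.elim g g') c := by
  unfold PhI
  rw [Fintype.prod_sum_type]
  refine congrArg₂ (· * ·) (prod_congr rfl fun a _ => ?_) (prod_congr rfl fun a _ => ?_)
  · rw [(TT_two c a).1]
    rfl
  · rw [(TT_two c a).2]
    rfl

/-- **X10b** (medium-). Proof: the sum over `v : I ⊕ I → ZMod 2` is the sum over the pairs `(v ∘ inl, v ∘ inr)`
(`Equiv.sumArrowEquivProdArrow`, `Fintype.sum_equiv`, `Fintype.sum_prod_type`), `phi2 phi (.inl a) ⬝ᵥ v = phi a ⬝ᵥ (v ∘ inl)` (`dotProduct`,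
`Fintype.sum_sum_type`, the other part is `0`), `Fintype.prod_sum_type`, `Finset.sum_mul_sum`; `Fintype.card_sum`, `pow_add`, `mul_inv`. -/
theorem hI_two (D : Dat2 ι κ) (cA σ : ∀ a, Bt a → κ → ZMod 2) (P : ∀ a b, κ → E a b → ZMod 2)
    (m m' : ∀ a b, E a b → Lab2 (k a b)) (g g' : A → ι → ℂ)
    (V V' : ∀ a, Finset (LabP (k a))) (q : ι) :
    hI D (phi2 phi) (fun s => cA (pr s)) (fun s => σ (pr s)) (fun s => P (pr s)) (mm m m')
      (Sum.elim g g') (VV V V') q =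
      hI D phi cA σ P m g V q * hI D phi cA σ P m' g' V' q := by
  have hl : ∀ (a : A) (v : I ⊕ I → ZMod 2),
      phi2 phi (.inl a) ⬝ᵥ v = phi a ⬝ᵥ (fun i => v (.inl i)) := by
    intro a v
    unfold dotProduct
    rw [Fintype.sum_sum_type]
    have h0 : ∑ i : I, phi2 phi (.inl a) (.inr i) * v (.inr i) = 0 :=
      sum_eq_zero fun i _ => by
        show (0 : ZMod 2) * v (.inr i) = 0
        rw [zero_mul]
    rw [h0, add_zero]
    rfl
  have hr : ∀ (a : A) (v : I ⊕ I → ZMod 2),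
      phi2 phi (.inr a) ⬝ᵥ v = phi a ⬝ᵥ (fun i => v (.inr i)) := by
    intro a v
    unfold dotProduct
    rw [Fintype.sum_sum_type]
    have h0 : ∑ i : I, phi2 phi (.inr a) (.inl i) * v (.inl i) = 0 :=
      sum_eq_zero fun i _ => by
        show (0 : ZMod 2) * v (.inl i) = 0
        rw [zero_mul]
    rw [h0, zero_add]
    rfl
  unfold hI
  have h1 : ∀ v : I ⊕ I → ZMod 2, (∏ s : A ⊕ A, if phi2 phi s ⬝ᵥ v = 1 then
      Sum.elim g g' s q * TotW (LSP ι (k (pr s)) (σ (pr s)) (P (pr s)) (mm m m' s))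
        (wX (k (pr s)) (cA (pr s))) (VV V V' s) (D.a q) else 1) =
      (∏ a, if phi a ⬝ᵥ (fun i => v (.inl i)) = 1 then
        g a q * TotW (LSP ι (k a) (σ a) (P a) (m a)) (wX (k a) (cA a)) (V a) (D.a q) else 1) *
      ∏ a, if phi a ⬝ᵥ (fun i => v (.inr i)) = 1 then
        g' a q * TotW (LSP ι (k a) (σ a) (P a) (m' a)) (wX (k a) (cA a)) (V' a) (D.a q) else 1 := by
    intro v
    rw [Fintype.prod_sum_type]
    refine congrArg₂ (· * ·) (prod_congr rfl fun a _ => ?_) (prod_congr rfl fun a _ => ?_)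
    · rw [hl]
      rfl
    · rw [hr]
      rfl
  rw [sum_congr rfl fun v _ => h1 v, Fintype.card_sum, pow_add, mul_inv, mul_mul_mul_comm,
    sum_mul_sum]
  congr 1
  rw [← Fintype.sum_prod_type']
  exact Fintype.sum_equiv (Equiv.sumArrowEquivProdArrow I I (ZMod 2)) _ _ fun v => rfl

/-- **X10c** (easy+). The sets of labels of two copies are the pairs. Proof: `Finset.sum_product'` and `Finset.sum_bij'` (or `sum_nbij'`)
with `(V, V') ↦ VV V V'` and `W ↦ (fun a => W (.inl a), fun a => W (.inr a))`; `Fintype.mem_piFinset`, `Sum.forall`. -/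
theorem sum_FuI_two {M : Type} [AddCommMonoid M] (cA σ : ∀ a, Bt a → κ → ZMod 2)
    (P : ∀ a b, κ → E a b → ZMod 2) (m m' : ∀ a b, E a b → Lab2 (k a b))
    (F : (∀ s : A ⊕ A, Finset (LabP (k (pr s)))) → M) :
    ∑ W ∈ FuI ι (fun s => cA (pr s)) (fun s => σ (pr s)) (fun s => P (pr s)) (mm m m'), F W =
      ∑ V ∈ FuI ι cA σ P m, ∑ V' ∈ FuI ι cA σ P m', F (VV V V') := by
  rw [← sum_product']
  symm
  refine sum_bij' (fun p _ => VV p.1 p.2) (fun W _ => (fun a => W (.inl a), fun a => W (.inr a)))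
    ?_ ?_ ?_ ?_ ?_
  · intro p hp
    rw [mem_product] at hp
    have h1 := Fintype.mem_piFinset.1 hp.1
    have h2 := Fintype.mem_piFinset.1 hp.2
    refine Fintype.mem_piFinset.2 ?_
    rintro (a | a)
    · exact h1 a
    · exact h2 a
  · intro W hW
    have h1 := Fintype.mem_piFinset.1 hW
    rw [mem_product]
    exact ⟨Fintype.mem_piFinset.2 fun a => h1 (.inl a), Fintype.mem_piFinset.2 fun a => h1 (.inr a)⟩
  · intro p _
    rfl
  · intro W _
    funext s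
    rcases s with a | a <;> rfl
  · intro p _
    rfl

/-- **X10d** (easy+). **The product of two mean values.** Proof: `cross_I` (X9) for the doubled family
(`phi2 phi`, `hs.two` (V2), `fun s => cA (pr s)`, .., `mm m m'`, `Sum.elim g g'`) with `G = 1` (`prod_const_one`, `mul_one`): `avI_mul`
(A6) and `PhI_two` give `avI (PhI .. m g) S * avI (PhI .. m' g') S = avI (PhI of two copies) S`, `sum_FuI_two` and `hI_two` the main term. -/
theorem sq_I [Nonempty I] [PS ι] (hs : Sp phi) {D : Dat2 ι κ} (hD : D.OK) (hN : D.NV1)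
    {ρ : (κ → ZMod 2) → ι → ZMod 2} (h0 : ρ 0 = 0) (cA σ : ∀ a, Bt a → κ → ZMod 2)
    (P : ∀ a b, κ → E a b → ZMod 2) (m m' : ∀ a b, E a b → Lab2 (k a b)) {g g' : A → ι → ℂ}
    (hg : ∀ a q, ‖g a q‖ ≤ 1) (hg' : ∀ a q, ‖g' a q‖ ≤ 1) (ε : ℝ) (hε : 0 < ε) :
    ∃ X₀ : ℕ, ∀ X : ℕ, X₀ ≤ X →
      ‖∑ S ∈ Sx ι X, avI (PhI D ρ phi cA σ P m g) S * avI (PhI D ρ phi cA σ P m' g') S -
        ∑ V ∈ FuI ι cA σ P m, ∑ V' ∈ FuI ι cA σ P m', ∑ S ∈ Sx ι X,
          ∏ q ∈ S, (hI D phi cA σ P m g V q * hI D phi cA σ P m' g' V' q)‖ ≤ ε * X := by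
  obtain ⟨X₀, hX₀⟩ := cross_I hs.two hD hN h0 (fun s => cA (pr s)) (fun s => σ (pr s))
    (fun s => P (pr s)) (mm m m') (g := Sum.elim g g')
    (by
      rintro (a | a) q
      · exact hg a q
      · exact hg' a q) (G := fun _ => 1) (fun _ => by rw [norm_one]) ε hε
  refine ⟨X₀, fun X hX => ?_⟩
  have h1 := hX₀ X hX
  have h2 : ∑ S ∈ Sx ι X, avI (PhI D ρ (phi2 phi) (fun s => cA (pr s)) (fun s => σ (pr s))
        (fun s => P (pr s)) (mm m m') (Sum.elim g g')) S * ∏ q ∈ S, (1 : ℂ) =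
      ∑ S ∈ Sx ι X, avI (PhI D ρ phi cA σ P m g) S * avI (PhI D ρ phi cA σ P m' g') S := by
    refine sum_congr rfl fun S _ => ?_
    rw [prod_const_one, mul_one, avI_mul]
    refine congrArg (fun F => avI F S) ?_
    funext c
    exact (PhI_two D ρ cA σ P m m' g g' c).symm
  have h3 : ∑ W ∈ FuI ι (fun s => cA (pr s)) (fun s => σ (pr s)) (fun s => P (pr s)) (mm m m'),
        ∑ S ∈ Sx ι X, ∏ q ∈ S, (hI D (phi2 phi) (fun s => cA (pr s)) (fun s => σ (pr s))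
          (fun s => P (pr s)) (mm m m') (Sum.elim g g') W q * 1) =
      ∑ V ∈ FuI ι cA σ P m, ∑ V' ∈ FuI ι cA σ P m', ∑ S ∈ Sx ι X,
          ∏ q ∈ S, (hI D phi cA σ P m g V q * hI D phi cA σ P m' g' V' q) := by
    rw [sum_FuI_two]
    refine sum_congr rfl fun V _ => sum_congr rfl fun V' _ => sum_congr rfl fun S _ =>
      prod_congr rfl fun q _ => ?_
    rw [mul_one, hI_two]
  rw [h2, h3] at h1
  exact h1

end

end Pool.Agent.Lib.MP_1a91b9_ntMQ.G4
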