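import Pool.Agent.Lib.MP_1a91b9_ntMQ.P4
import Pool.Agent.Lib.MP_1a91b9_ntMQ.X14

set_option autoImplicit false
set_option linter.unusedSectionVars false

namespace Pool.Agent.Lib.MP_1a91b9_ntMQ.G4

open Finset Pool.Agent.Lib.MP_1a91b9_ntH Pool.Agent.Lib.MP_1a91b9_ntQ Pool.Agent.Lib.MP_1a91b9_ntQ.Da
  Pool.Agent.Lib.MP_1a91b9_ntQ.M Pool.Agent.Lib.MP_1a91b9_ntM Pool.Agent.Lib.MP_1a91b9_ntM.E
open Pool.Agent.Lib.MP_1a91b9_ntDV Pool.Agent.Lib.MP_1a91b9_ntDV.G4 Pool.Agent.Lib.MP_1a91b9_ntMQ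

noncomputable section


variable {I A : Type} [Fintype I] [DecidableEq I] [Fintype A] [DecidableEq A]
  {phi : A → I → ZMod 2} {ι : Type} [DecidableEq ι] [PS ι] {G : Type} [AddCommGroup G] {cl : ι → G}
  {γ : A → G}

private theorem X15_cs (T : Finset (I → Finset ι)) (R e p : (I → Finset ι) → ℝ) (K : ℝ)
    (hR : ∀ c, |R c| ≤ K * (e c * p c)) :
    (∑ c ∈ T, R c) ^ 2 ≤ K ^ 2 * ((∑ c ∈ T, e c ^ 2) * ∑ c ∈ T, p c ^ 2) := by
  have h1 : |∑ c ∈ T, R c| ≤ K * ∑ c ∈ T, e c * p c := by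
    rw [Finset.mul_sum]
    exact (Finset.abs_sum_le_sum_abs _ _).trans (Finset.sum_le_sum fun c _ => hR c)
  have h2 : (∑ c ∈ T, R c) ^ 2 ≤ (K * ∑ c ∈ T, e c * p c) ^ 2 := by
    rw [← sq_abs (∑ c ∈ T, R c)]
    exact pow_le_pow_left₀ (abs_nonneg _) h1 2
  refine h2.trans ?_
  rw [mul_pow]
  exact mul_le_mul_of_nonneg_left (Finset.sum_mul_sq_le_sq_mul_sq _ _ _) (sq_nonneg K)

private theorem X15_const (x : ℝ) (S : Finset ι) : avrI (fun _ : I → Finset ι => x) S = x := by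
  unfold avrI
  have h0 : ((2 : ℝ) ^ (Fintype.card I * S.card)) ≠ 0 := by positivity
  rw [sum_const, Fintype.card_piFinset, prod_const, card_univ, card_powerset, nsmul_eq_mul,
    ← pow_mul, mul_comm S.card, Nat.cast_pow, Nat.cast_ofNat, mul_comm, mul_div_assoc, div_self h0,
    mul_one]

private theorem X15_add (f g : (I → Finset ι) → ℝ) (S : Finset ι) :
    avrI (fun c => f c + g c) S = avrI f S + avrI g S := by
  unfold avrI
  rw [sum_add_distrib, add_div]

private theorem X15_mono {f g : (I → Finset ι) → ℝ} (h : ∀ c, f c ≤ g c) (S : Finset ι) :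
    avrI f S ≤ avrI g S := by
  unfold avrI
  exact div_le_div_of_nonneg_right (sum_le_sum fun c _ => h c) (by positivity)

/-- **X15** (medium, a copy with changes). **Changing an unbounded function on the families with an empty product.**
Proof, as `PclI.rareM` (P4b of this folder, PROVED). Let `R c = if (the classes are γ) then h c - f c else 0`, `e c = if EE phi c then 1 else
0`, `g c = if (the classes are γ) then f c ^ 2 else 0`, `G c = if (the classes are γ) then f c ^ 2 - v2 else 0`, so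
`g c ≤ G c + |v2|` and `AVrI G 0` (this is `hf2`). `|R c| ≤ |C| * (e c * (if .. then f c else 0))`, so by Cauchy-Schwarz
`(avrI R S) ^ 2 ≤ C ^ 2 * (avrI e S * avrI g S) ≤ C ^ 2 * card A * ((|avrI G S| + |v2|) * (1 / 2) ^ S.card)` (`avrI_EE hs S`, P2;
`avrI g S ≤ avrI G S + |v2|`). `AVrI.quarter h1 h2` (P4a) for `G` and for the constant function `1` (`AVrI_const`, X14; `avrI (fun _ => 1) S = 1`)
gives `AVrI R 0`; then `AVrI.add` with `hf` and `AVrI.congr`. -/
theorem PGI.rareM {C1 C2 : ℝ} (h1 : Cheb ι C1) (h2 : Zt ι C2) (hs : Sp phi)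
    {f h : (I → Finset ι) → ℝ} {v v2 C : ℝ} (hf : PGI phi cl γ f v)
    (hf2 : PGI phi cl γ (fun c => f c ^ 2) v2) (hf0 : ∀ c, 0 ≤ f c)
    (heq : ∀ c : I → Finset ι, (∀ a, ∑ q ∈ TT phi c a, cl q = γ a) → ¬ EE phi c → h c = f c)
    (hC : ∀ c, |h c - f c| ≤ C * f c) : PGI phi cl γ h v := by
  classical
  obtain ⟨Cl, hCl⟩ : ∃ Cl : (I → Finset ι) → Prop, ∀ c, Cl c ↔
    ∀ a, ∑ q ∈ TT phi c a, cl q = γ a := ⟨_, fun _ => Iff.rfl⟩
  obtain ⟨pf, hpf⟩ : ∃ pf : (I → Finset ι) → ℝ, ∀ c, pf c =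
    if Cl c then f c else 0 := ⟨_, fun _ => rfl⟩
  obtain ⟨R, hRe⟩ : ∃ R : (I → Finset ι) → ℝ, ∀ c, R c =
    if Cl c then h c - f c else 0 := ⟨_, fun _ => rfl⟩
  obtain ⟨e, he⟩ : ∃ e : (I → Finset ι) → ℝ, ∀ c, e c =
    if EE phi c then (1 : ℝ) else 0 := ⟨_, fun _ => rfl⟩
  obtain ⟨g, hg⟩ : ∃ g : (I → Finset ι) → ℝ, ∀ c, g c = pf c ^ 2 := ⟨_, fun _ => rfl⟩
  obtain ⟨Gf, hGf⟩ : ∃ Gf : (I → Finset ι) → ℝ, ∀ c, Gf c =
    if Cl c then f c ^ 2 - v2 else 0 := ⟨_, fun _ => rfl⟩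
  have hG : AVrI Gf 0 := by
    refine AVrI.congr (hf2 : AVrI _ 0) (fun c => ?_) rfl
    rw [hGf]
    by_cases hc : Cl c
    · exact (if_pos hc).trans (if_pos ((hCl c).1 hc)).symm
    · exact (if_neg hc).trans (if_neg fun h' => hc ((hCl c).2 h')).symm
  have hR : ∀ c, |R c| ≤ |C| * (e c * pf c) := by
    intro c
    rw [hRe, hpf, he]
    by_cases hc : Cl c
    · rw [if_pos hc, if_pos hc]
      by_cases hE : EE phi c
      · rw [if_pos hE, one_mul]
        exact (hC c).trans (mul_le_mul_of_nonneg_right (le_abs_self C) (hf0 c))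
      · rw [if_neg hE, zero_mul, mul_zero, heq c ((hCl c).1 hc) hE, sub_self, abs_zero]
    · rw [if_neg hc, if_neg hc, mul_zero, mul_zero, abs_zero]
  have he2 : ∀ c, e c ^ 2 = e c := by
    intro c
    rw [he]
    by_cases hE : EE phi c
    · rw [if_pos hE, one_pow]
    · rw [if_neg hE]
      norm_num
  have hN : ∀ S : Finset ι, (0 : ℝ) < 2 ^ (Fintype.card I * S.card) := fun S => by positivity
  have hg0 : ∀ S : Finset ι, 0 ≤ avrI g S := by
    intro S
    unfold avrI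
    refine div_nonneg (Finset.sum_nonneg fun c _ => ?_) (hN S).le
    rw [hg]
    exact sq_nonneg _
  have hgle : ∀ S : Finset ι, avrI g S ≤ |avrI Gf S| + |v2| := by
    intro S
    have k1 : avrI g S ≤ avrI (fun c => Gf c + |v2|) S := by
      refine X15_mono (fun c => ?_) S
      rw [hg, hpf, hGf]
      by_cases hc : Cl c
      · rw [if_pos hc, if_pos hc]
        linarith [le_abs_self v2]
      · rw [if_neg hc, if_neg hc]
        have := abs_nonneg v2
        linarith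
    rw [X15_add, X15_const] at k1
    linarith [le_abs_self (avrI Gf S)]
  have heS : ∀ S : Finset ι, avrI e S ≤ Fintype.card A * (1 / 2) ^ S.card := by
    intro S
    refine le_trans (le_of_eq ?_) (avrI_EE hs S)
    unfold avrI
    refine congrArg (fun z : ℝ => z / 2 ^ (Fintype.card I * S.card))
      (Finset.sum_congr rfl fun c _ => ?_)
    rw [he]
  have hkey : ∀ S : Finset ι, (avrI R S) ^ 2 ≤
      |C| ^ 2 * Fintype.card A * (|avrI Gf S| * (1 / 2) ^ S.card + |v2| * (1 / 2) ^ S.card) := by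
    intro S
    have k1 := X15_cs (Fintype.piFinset fun _ : I => S.powerset) R e pf |C| hR
    have k2 : (avrI R S) ^ 2 ≤ |C| ^ 2 * (avrI e S * avrI g S) := by
      unfold avrI
      rw [div_pow, div_mul_div_comm, ← mul_div_assoc, ← sq]
      refine div_le_div_of_nonneg_right ?_ (sq_nonneg _)
      refine k1.trans (le_of_eq ?_)
      rw [Finset.sum_congr rfl fun c _ => he2 c, Finset.sum_congr rfl fun c _ => (hg c).symm]
    refine k2.trans ?_
    have k3 : avrI e S * avrI g S ≤ Fintype.card A * (1 / 2) ^ S.card * (|avrI Gf S| + |v2|) :=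
      mul_le_mul (heS S) (hgle S) (hg0 S) (by positivity)
    have k4 := mul_le_mul_of_nonneg_left k3 (sq_nonneg |C|)
    refine k4.trans (le_of_eq ?_)
    ring
  have hR0 : AVrI R 0 := by
    intro ε hε
    obtain ⟨B, hB⟩ : ∃ B : ℝ, B = |C| ^ 2 * Fintype.card A := ⟨_, rfl⟩
    have hB0 : 0 ≤ B := by
      rw [hB]
      positivity
    have hv0 : 0 ≤ |v2| := abs_nonneg v2
    obtain ⟨X₁, hX₁⟩ := AVrI.quarter h1 h2 hG (ε / (2 * (B + 1))) (by positivity)
    obtain ⟨X₂, hX₂⟩ := AVrI.quarter h1 h2 (AVrI_const (I := I) (ι := ι) 1)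
      (ε / (2 * (B + 1) * (|v2| + 1))) (by positivity)
    refine ⟨max X₁ X₂, fun X hX => ?_⟩
    have k1 := hX₁ X ((le_max_left _ _).trans hX)
    have k1' := hX₂ X ((le_max_right _ _).trans hX)
    have k2 : ∑ S ∈ Sx ι X, (avrI R S - 0) ^ 2 ≤
        B * (∑ S ∈ Sx ι X, |avrI Gf S| * (1 / 2) ^ S.card +
          |v2| * ∑ S ∈ Sx ι X, |avrI (fun _ : I → Finset ι => (1 : ℝ)) S| * (1 / 2) ^ S.card) := by
      rw [Finset.mul_sum (Sx ι X) _ |v2|, ← Finset.sum_add_distrib, Finset.mul_sum]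
      refine Finset.sum_le_sum fun S _ => ?_
      rw [sub_zero, hB, X15_const, abs_one, one_mul]
      exact hkey S
    have hY : (0 : ℝ) ≤ ((Sx ι X).card : ℝ) + X := by positivity
    have k3 : ∑ S ∈ Sx ι X, |avrI Gf S| * (1 / 2) ^ S.card +
          |v2| * ∑ S ∈ Sx ι X, |avrI (fun _ : I → Finset ι => (1 : ℝ)) S| * (1 / 2) ^ S.card ≤
        ε / (2 * (B + 1)) * ((Sx ι X).card + X) +
          |v2| * (ε / (2 * (B + 1) * (|v2| + 1)) * ((Sx ι X).card + X)) :=
      add_le_add k1 (mul_le_mul_of_nonneg_left k1' hv0)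
    refine k2.trans ((mul_le_mul_of_nonneg_left k3 hB0).trans ?_)
    have k4 : B * (ε / (2 * (B + 1)) * ((Sx ι X).card + X) +
          |v2| * (ε / (2 * (B + 1) * (|v2| + 1)) * ((Sx ι X).card + X))) =
        B / (B + 1) * ((1 + |v2| / (|v2| + 1)) / 2) * (ε * ((Sx ι X).card + X)) := by
      have e1 : B + 1 ≠ 0 := by positivity
      have e2 : |v2| + 1 ≠ 0 := by positivity
      field_simp
    rw [k4]
    have k5 : B / (B + 1) ≤ 1 := by
      rw [div_le_one (by positivity)]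
      linarith
    have k6 : (1 + |v2| / (|v2| + 1)) / 2 ≤ 1 := by
      have k7 : |v2| / (|v2| + 1) ≤ 1 := by
        rw [div_le_one (by positivity)]
        linarith
      linarith
    have k8 : B / (B + 1) * ((1 + |v2| / (|v2| + 1)) / 2) ≤ 1 := by
      have k9 : 0 ≤ B / (B + 1) := by positivity
      have k10 : 0 ≤ (1 + |v2| / (|v2| + 1)) / 2 := by positivity
      exact mul_le_one₀ k5 k10 k6
    have k11 : 0 ≤ ε * (((Sx ι X).card : ℝ) + X) := by positivity
    exact (mul_le_mul_of_nonneg_right k8 k11).trans (le_of_eq (one_mul _))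
  have hfin := AVrI.add hR0 (hf : AVrI _ 0)
  refine AVrI.congr hfin (fun c => ?_) (add_zero 0).symm
  rw [hRe]
  by_cases hc : Cl c
  · rw [if_pos hc, if_pos ((hCl c).1 hc), if_pos ((hCl c).1 hc)]
    ring
  · rw [if_neg hc, if_neg fun h' => hc ((hCl c).2 h'), if_neg fun h' => hc ((hCl c).2 h'), add_zero]

end

end Pool.Agent.Lib.MP_1a91b9_ntMQ.G4
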