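import Pool.Agent.Lib.MP_1a91b9_ntMQ.A1
import Pool.Agent.Lib.MP_1a91b9_ntMQ.X14

set_option autoImplicit false
set_option linter.unusedSectionVars false

namespace Pool.Agent.Lib.MP_1a91b9_ntMQ.G4

open Finset Pool.Agent.Lib.MP_1a91b9_ntH Pool.Agent.Lib.MP_1a91b9_ntQ Pool.Agent.Lib.MP_1a91b9_ntQ.Da
  Pool.Agent.Lib.MP_1a91b9_ntQ.M Pool.Agent.Lib.MP_1a91b9_ntM Pool.Agent.Lib.MP_1a91b9_ntM.E
open Pool.Agent.Lib.MP_1a91b9_ntDV Pool.Agent.Lib.MP_1a91b9_ntDV.G4 Pool.Agent.Lib.MP_1a91b9_ntMQ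

noncomputable section


variable {I A : Type} [Fintype I] [DecidableEq I] [Fintype A] [DecidableEq A]
  {phi : A → I → ZMod 2} {ι : Type} [DecidableEq ι] {κ : Type} [Fintype κ] [DecidableEq κ]

private theorem X16_half (hs : Sp phi) (a : A) (t : ℝ) :
    ∑ v : I → ZMod 2, (if phi a ⬝ᵥ v = 1 then t else 1) = 2 ^ Fintype.card I * ((1 + t) / 2) := by
  obtain ⟨w, hw⟩ : ∃ w, phi a ⬝ᵥ w = 1 := by
    obtain ⟨i, hi⟩ := Function.ne_iff.mp (hs.ne a)
    refine ⟨Pi.single i 1, ?_⟩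
    rw [dotProduct_single, mul_one]
    have hz : ∀ x : ZMod 2, x ≠ 0 → x = 1 := by decide
    exact hz (phi a i) hi
  have h1 : ∑ v : I → ZMod 2, (if phi a ⬝ᵥ v = 1 then t else 1) =
      ∑ v : I → ZMod 2, (if phi a ⬝ᵥ (v + w) = 1 then t else 1) :=
    (Equiv.sum_comp (Equiv.addRight w) fun v : I → ZMod 2 => if phi a ⬝ᵥ v = 1 then t else (1 : ℝ)).symm
  have h2 : ∑ v : I → ZMod 2, (if phi a ⬝ᵥ v = 1 then t else 1) +
      ∑ v : I → ZMod 2, (if phi a ⬝ᵥ (v + w) = 1 then t else 1) = 2 ^ Fintype.card I * (1 + t) := by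
    rw [← sum_add_distrib]
    have h3 : ∀ v : I → ZMod 2, (if phi a ⬝ᵥ v = 1 then t else 1) +
        (if phi a ⬝ᵥ (v + w) = 1 then t else 1) = 1 + t := by
      intro v
      rw [dotProduct_add, hw]
      have h4 : ∀ x : ZMod 2, x = 0 ∨ x = 1 := by decide
      rcases h4 (phi a ⬝ᵥ v) with h5 | h5
      · rw [h5, if_neg (by decide), if_pos (by decide)]
      · rw [h5, if_pos rfl, if_neg (by decide), add_comm]
    rw [sum_congr rfl fun v _ => h3 v, sum_const, card_univ, Fintype.card_fun, ZMod.card, nsmul_eq_mul]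
    push_cast
    rfl
  rw [← h1] at h2
  linarith

private theorem X16_col (F : (I → Finset ι) → ℝ) (S : Finset ι) :
    ∑ c ∈ Fintype.piFinset (fun _ : I => S.powerset), F c = ∑ f : S → I → ZMod 2, F (colF S f) := by
  have h := sum_col (fun c => ((F c : ℝ) : ℂ)) S
  exact_mod_cast h

/-- **X16a** (medium-). The mean value of a product over one of the products. Proof: `sum_col` and `TT_cf` (A1) for the
function with values in `ℂ` (or the same for real functions): `∏ q ∈ TT phi (colF S f) a, t q = ∏ j : S, if phi a ⬝ᵥ f j = 1 then t j else 1`,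
`∑ f : S → I → ZMod 2, ∏ j, x j (f j) = ∏ j, ∑ v, x j v` (`Finset.prod_univ_sum`, `Fintype.piFinset_univ`), and
`∑ v : I → ZMod 2, (if phi a ⬝ᵥ v = 1 then t else 1) = 2 ^ #I * (1 + t) / 2`: half of the `v` have `phi a ⬝ᵥ v = 1` (`v ↦ v + Pi.single i 1`
with `phi a i = 1` is a bijection of the two halves; `Sp.one hs a` in K2.lean or Q0.lean). -/
theorem avrI_pow (hs : Sp phi) (a : A) (t : ι → ℝ) (S : Finset ι) :
    avrI (fun c : I → Finset ι => ∏ q ∈ TT phi c a, t q) S = ∏ q ∈ S, (1 + t q) / 2 := by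
  classical
  unfold avrI
  rw [X16_col]
  have h1 : ∀ f : S → I → ZMod 2, ∏ q ∈ TT phi (colF S f) a, t q =
      ∏ j : S, if phi a ⬝ᵥ f j = 1 then t j else 1 := by
    intro f
    rw [TT_cf, prod_map, prod_filter]
    rfl
  have h2 : ∏ j : S, (∑ v : I → ZMod 2, if phi a ⬝ᵥ v = 1 then t j else 1) =
      ∑ f : S → I → ZMod 2, ∏ j : S, (if phi a ⬝ᵥ f j = 1 then t j else 1) := by
    rw [Finset.prod_univ_sum, Fintype.piFinset_univ]
  have h3 : ∏ j : S, (∑ v : I → ZMod 2, if phi a ⬝ᵥ v = 1 then t j else 1) =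
      ∏ j : S, (2 ^ Fintype.card I * ((1 + t j) / 2)) := prod_congr rfl fun j _ => X16_half hs a (t j)
  rw [sum_congr rfl fun f _ => h1 f, ← h2, h3, prod_mul_distrib, prod_const, card_univ,
    Fintype.card_coe, ← pow_mul, mul_div_cancel_left₀ _ (pow_ne_zero _ two_ne_zero)]
  exact prod_coe_sort S fun q => (1 + t q) / 2

/-- **X16b** (medium). **The functions which are small.** Proof. Let `p a j S = ∏ q ∈ S, (1 + η a j (D.a q)) / 2`, so
`0 ≤ p a j S ≤ 1`. By `avrI_pow` `|avrI (fun c => if .. then f c - 0 else 0) S| ≤ |K| * ∑ a, ∑ j, p a j S` (the terms are nonnegative, so the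
restriction to the classes may be dropped), and the square is at most `K ^ 2 * n * ∑ a, ∑ j, p a j S`, `n` the number of the pairs `(a, j)`
(`sq_sum_le_card_mul_sum_sq`, `p ^ 2 ≤ p`; use the index type `Σ a, J a`). `hB (fun φ => (1 + η a j φ) / 2) ..` gives
`∑ S ∈ Sx ι X, p a j S ≤ ε' * X` for every pair, one `X₀` for all of them. As `pg_bad` (K4_13e of MP_1a91b9_ntDV, PROVED). -/
theorem pgI_small [PS ι] {G : Type} [AddCommGroup G] (hs : Sp phi) {D : Dat2 ι κ} (hB : BadX D)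
    (cl : ι → G) (γ : A → G) {f : (I → Finset ι) → ℝ} {J : A → Type} [∀ a, Fintype (J a)]
    (η : ∀ a, J a → (κ → ZMod 2) → ℝ) (h0 : ∀ a j φ, 0 ≤ η a j φ) (h1 : ∀ a j φ, η a j φ ≤ 1)
    (h2 : ∀ a j, ∃ φ, η a j φ < 1) (K : ℝ)
    (hf : ∀ c : I → Finset ι, (∀ a, ∑ q ∈ TT phi c a, cl q = γ a) →
      |f c| ≤ K * ∑ a, ∑ j, ∏ q ∈ TT phi c a, η a j (D.a q)) : PGI phi cl γ f 0 := by
  classical
  intro ε hε
  obtain ⟨n, hn⟩ : ∃ n : ℝ, n = (Fintype.card (Σ a, J a) : ℝ) := ⟨_, rfl⟩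
  have hn0 : 0 ≤ n := by
    rw [hn]
    exact Nat.cast_nonneg _
  obtain ⟨ε', hε', hε2⟩ : ∃ ε' : ℝ, 0 < ε' ∧ K ^ 2 * n * (n * ε') ≤ ε := by
    refine ⟨ε / (K ^ 2 * n * n + 1), by positivity, ?_⟩
    have h3 : K ^ 2 * n * (n * (ε / (K ^ 2 * n * n + 1))) = (K ^ 2 * n * n) * ε / (K ^ 2 * n * n + 1) := by ring
    rw [h3, div_le_iff₀ (by positivity)]
    nlinarith
  have hex : ∀ p : Σ a, J a, ∃ X₀ : ℕ, ∀ X : ℕ, X₀ ≤ X →
      ∑ S ∈ Sx ι X, ∏ q ∈ S, (1 + η p.1 p.2 (D.a q)) / 2 ≤ ε' * X := by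
    intro p
    refine hB (fun φ => (1 + η p.1 p.2 φ) / 2) (fun φ => ?_) (fun φ => ?_) ?_ ε' hε'
    · have := h0 p.1 p.2 φ
      linarith
    · have := h1 p.1 p.2 φ
      linarith
    · obtain ⟨φ, hφ⟩ := h2 p.1 p.2
      exact ⟨φ, by linarith⟩
  choose X₀ hX₀ using hex
  refine ⟨univ.sup X₀, fun X hX => ?_⟩
  have hp0 : ∀ (p : Σ a, J a) (S : Finset ι), 0 ≤ ∏ q ∈ S, (1 + η p.1 p.2 (D.a q)) / 2 := fun p S =>
    prod_nonneg fun q _ => by
      have := h0 p.1 p.2 (D.a q)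
      linarith
  have hp1 : ∀ (p : Σ a, J a) (S : Finset ι), ∏ q ∈ S, (1 + η p.1 p.2 (D.a q)) / 2 ≤ 1 := fun p S =>
    prod_le_one (fun q _ => by
      have := h0 p.1 p.2 (D.a q)
      linarith) fun q _ => by
      have := h1 p.1 p.2 (D.a q)
      linarith
  have h3 : ∀ S : Finset ι, (avrI (fun c : I → Finset ι =>
      if ∀ a, ∑ q ∈ TT phi c a, cl q = γ a then f c - 0 else 0) S - 0) ^ 2 ≤
      K ^ 2 * n * ∑ p : Σ a, J a, ∏ q ∈ S, (1 + η p.1 p.2 (D.a q)) / 2 := by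
    intro S
    have hF : ∀ c : I → Finset ι, |if ∀ a, ∑ q ∈ TT phi c a, cl q = γ a then f c - 0 else 0| ≤
        |K| * ∑ p : Σ a, J a, ∏ q ∈ TT phi c p.1, η p.1 p.2 (D.a q) := by
      intro c
      have h4 : 0 ≤ ∑ p : Σ a, J a, ∏ q ∈ TT phi c p.1, η p.1 p.2 (D.a q) :=
        sum_nonneg fun p _ => prod_nonneg fun q _ => h0 _ _ _
      split_ifs with hc
      · rw [sub_zero]
        refine (hf c hc).trans ?_
        rw [Fintype.sum_sigma] at h4 ⊢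
        exact mul_le_mul_of_nonneg_right (le_abs_self K) h4
      · rw [abs_zero]
        exact mul_nonneg (abs_nonneg _) h4
    have hp : |avrI (fun c : I → Finset ι =>
        if ∀ a, ∑ q ∈ TT phi c a, cl q = γ a then f c - 0 else 0) S| ≤
        |K| * ∑ p : Σ a, J a, ∏ q ∈ S, (1 + η p.1 p.2 (D.a q)) / 2 := by
      have h5 : ∑ p : Σ a, J a, ∏ q ∈ S, (1 + η p.1 p.2 (D.a q)) / 2 =
          (∑ c ∈ Fintype.piFinset fun _ : I => S.powerset,
            ∑ p : Σ a, J a, ∏ q ∈ TT phi c p.1, η p.1 p.2 (D.a q)) / 2 ^ (Fintype.card I * S.card) := by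
        rw [sum_comm, sum_div]
        refine sum_congr rfl fun p _ => ?_
        exact (avrI_pow hs p.1 (fun q => η p.1 p.2 (D.a q)) S).symm
      rw [h5]
      unfold avrI
      rw [abs_div, abs_of_pos (by positivity : (0 : ℝ) < 2 ^ (Fintype.card I * S.card)), ← mul_div_assoc,
        mul_sum]
      refine div_le_div_of_nonneg_right ?_ (by positivity)
      exact (abs_sum_le_sum_abs _ _).trans (sum_le_sum fun c _ => hF c)
    rw [sub_zero, ← sq_abs]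
    have h6 : (∑ p : Σ a, J a, ∏ q ∈ S, (1 + η p.1 p.2 (D.a q)) / 2) ^ 2 ≤
        n * ∑ p : Σ a, J a, ∏ q ∈ S, (1 + η p.1 p.2 (D.a q)) / 2 := by
      have h7 := sq_sum_le_card_mul_sum_sq (s := (univ : Finset (Σ a, J a)))
        (f := fun p : Σ a, J a => ∏ q ∈ S, (1 + η p.1 p.2 (D.a q)) / 2)
      rw [card_univ, ← hn] at h7
      refine h7.trans (mul_le_mul_of_nonneg_left (sum_le_sum fun p _ => ?_) hn0)
      have h8 := hp0 p S
      have h9 := hp1 p S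
      nlinarith
    calc |avrI (fun c : I → Finset ι =>
        if ∀ a, ∑ q ∈ TT phi c a, cl q = γ a then f c - 0 else 0) S| ^ 2
        ≤ (|K| * ∑ p : Σ a, J a, ∏ q ∈ S, (1 + η p.1 p.2 (D.a q)) / 2) ^ 2 :=
          pow_le_pow_left₀ (abs_nonneg _) hp 2
      _ = K ^ 2 * (∑ p : Σ a, J a, ∏ q ∈ S, (1 + η p.1 p.2 (D.a q)) / 2) ^ 2 := by
          rw [mul_pow, sq_abs]
      _ ≤ K ^ 2 * (n * ∑ p : Σ a, J a, ∏ q ∈ S, (1 + η p.1 p.2 (D.a q)) / 2) :=
          mul_le_mul_of_nonneg_left h6 (sq_nonneg _)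
      _ = _ := by ring
  have h10 : ∀ p : Σ a, J a, ∑ S ∈ Sx ι X, ∏ q ∈ S, (1 + η p.1 p.2 (D.a q)) / 2 ≤ ε' * X := fun p =>
    hX₀ p X ((le_sup (f := X₀) (mem_univ p)).trans hX)
  have hX0 : (0 : ℝ) ≤ X := Nat.cast_nonneg _
  calc ∑ S ∈ Sx ι X, (avrI (fun c : I → Finset ι =>
      if ∀ a, ∑ q ∈ TT phi c a, cl q = γ a then f c - 0 else 0) S - 0) ^ 2
      ≤ ∑ S ∈ Sx ι X, K ^ 2 * n * ∑ p : Σ a, J a, ∏ q ∈ S, (1 + η p.1 p.2 (D.a q)) / 2 :=
        sum_le_sum fun S _ => h3 S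
    _ = K ^ 2 * n * ∑ p : Σ a, J a, ∑ S ∈ Sx ι X, ∏ q ∈ S, (1 + η p.1 p.2 (D.a q)) / 2 := by
        rw [← mul_sum, sum_comm]
    _ ≤ K ^ 2 * n * ∑ _p : Σ a, J a, ε' * X :=
        mul_le_mul_of_nonneg_left (sum_le_sum fun p _ => h10 p) (mul_nonneg (sq_nonneg _) hn0)
    _ = (K ^ 2 * n * (n * ε')) * X := by
        rw [sum_const, card_univ, nsmul_eq_mul, ← hn]
        ring
    _ ≤ ε * X := mul_le_mul_of_nonneg_right hε2 hX0
    _ ≤ ε * ((Sx ι X).card + X) := by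
        refine mul_le_mul_of_nonneg_left ?_ hε.le
        have : (0 : ℝ) ≤ ((Sx ι X).card : ℝ) := Nat.cast_nonneg _
        linarith

/-- **X16c** (easy). Proof: induction on the finite set of indices (`Finset.induction_on`, for `∏ i ∈ s`):
`x X - y Y = (x - y) X + y (X - Y)`. -/
theorem norm_prod_sub (x y : A → ℂ) {K : ℝ} (hK : 1 ≤ K) (hx : ∀ a, ‖x a‖ ≤ K)
    (hy : ∀ a, ‖y a‖ ≤ K) :
    ‖∏ a, x a - ∏ a, y a‖ ≤ K ^ Fintype.card A * ∑ a, ‖x a - y a‖ := by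
  classical
  have hK0 : 0 ≤ K := zero_le_one.trans hK
  have key : ∀ s : Finset A, ‖∏ a ∈ s, x a - ∏ a ∈ s, y a‖ ≤ K ^ s.card * ∑ a ∈ s, ‖x a - y a‖ := by
    intro s
    induction s using Finset.induction_on with
    | empty => simp
    | insert a s ha ih =>
      rw [prod_insert ha, prod_insert ha, sum_insert ha, card_insert_of_notMem ha]
      have h1 : x a * ∏ b ∈ s, x b - y a * ∏ b ∈ s, y b =
          (x a - y a) * ∏ b ∈ s, x b + y a * (∏ b ∈ s, x b - ∏ b ∈ s, y b) := by ring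
      have h2 : ‖∏ b ∈ s, x b‖ ≤ K ^ s.card := by
        rw [norm_prod]
        exact (prod_le_prod (fun b _ => norm_nonneg _) fun b _ => hx b).trans_eq (prod_const K)
      have h3 : K ^ s.card ≤ K ^ (s.card + 1) := pow_le_pow_right₀ hK (Nat.le_succ _)
      have h4 : 0 ≤ ∑ b ∈ s, ‖x b - y b‖ := sum_nonneg fun b _ => norm_nonneg _
      rw [h1]
      refine (norm_add_le _ _).trans ?_
      rw [norm_mul, norm_mul, mul_add]
      refine add_le_add ?_ ?_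
      · rw [mul_comm]
        exact mul_le_mul_of_nonneg_right (h2.trans h3) (norm_nonneg _)
      · calc ‖y a‖ * ‖∏ b ∈ s, x b - ∏ b ∈ s, y b‖ ≤ K * (K ^ s.card * ∑ b ∈ s, ‖x b - y b‖) :=
              mul_le_mul (hy a) ih (norm_nonneg _) hK0
          _ = K ^ (s.card + 1) * ∑ b ∈ s, ‖x b - y b‖ := by rw [pow_succ]; ring
  exact key univ

end

end Pool.Agent.Lib.MP_1a91b9_ntMQ.G4
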