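import Pool.Agent.Lib.MP_1a91b9_ntMQ.X1

set_option autoImplicit false
set_option linter.unusedSectionVars false

namespace Pool.Agent.Lib.MP_1a91b9_ntMQ.G4

open Finset Pool.Agent.Lib.MP_1a91b9_ntH Pool.Agent.Lib.MP_1a91b9_ntQ Pool.Agent.Lib.MP_1a91b9_ntQ.Da
  Pool.Agent.Lib.MP_1a91b9_ntQ.M Pool.Agent.Lib.MP_1a91b9_ntM Pool.Agent.Lib.MP_1a91b9_ntM.E
open Pool.Agent.Lib.MP_1a91b9_ntDV Pool.Agent.Lib.MP_1a91b9_ntDV.G4 Pool.Agent.Lib.MP_1a91b9_ntMQ

noncomputable section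

variable {I A : Type} [Fintype I] [DecidableEq I] [Fintype A] [DecidableEq A] {L : A → Type}
  [∀ a, Zero (L a)] [∀ a, Fintype (L a)] [∀ a, DecidableEq (L a)] {ι : Type} [DecidableEq ι]
  {κ : Type} [Fintype κ]

private theorem X2_pt (D : Dat2 ι κ) (phi : A → I → ZMod 2) (Λ : ∀ a, LS2 (L a) ι κ)
    (w : ∀ a, L a → (κ → ZMod 2) → ℝ) (u : ∀ a, L a → ι → ℂ) (G : ι → ℂ) (z : LC phi L) (q : ι) :
    (∏ a, if phi a ⬝ᵥ z.1.1 = 1 then wu D (Λ a).c (w a) (u a) (z.1.2 a) q else 1) /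
        (2 : ℂ) ^ Fintype.card I * G q = wu D (LSC phi Λ).c (wC w) (uC u G) z q := by
  have h1 : ∑ j, (∑ a, (phi a ⬝ᵥ z.1.1) • (Λ a).c (z.1.2 a)) j * D.a q j =
      ∑ a, (phi a ⬝ᵥ z.1.1) * ∑ j, (Λ a).c (z.1.2 a) j * D.a q j := by
    have h : ∀ j, (∑ a, (phi a ⬝ᵥ z.1.1) • (Λ a).c (z.1.2 a)) j * D.a q j =
        ∑ a, (phi a ⬝ᵥ z.1.1) * ((Λ a).c (z.1.2 a) j * D.a q j) := by
      intro j
      rw [Finset.sum_apply, sum_mul]
      exact sum_congr rfl fun a _ => by rw [Pi.smul_apply, smul_eq_mul, mul_assoc]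
    rw [sum_congr rfl fun j _ => h j, sum_comm]
    exact sum_congr rfl fun a _ => (mul_sum _ _ _).symm
  have h2 : (∏ a, if phi a ⬝ᵥ z.1.1 = 1 then wu D (Λ a).c (w a) (u a) (z.1.2 a) q else 1) =
      (∏ a, if phi a ⬝ᵥ z.1.1 = 1 then ((w a (z.1.2 a) (D.a q) : ℝ) : ℂ) else 1) *
        (∏ a, if phi a ⬝ᵥ z.1.1 = 1 then u a (z.1.2 a) q else 1) *
        e2 (∑ a, (phi a ⬝ᵥ z.1.1) * ∑ j, (Λ a).c (z.1.2 a) j * D.a q j) := by
    rw [e2_sum, ← prod_mul_distrib, ← prod_mul_distrib]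
    refine prod_congr rfl fun a _ => ?_
    rcases z2 (phi a ⬝ᵥ z.1.1) with h | h
    · rw [h, if_neg (by decide), if_neg (by decide), if_neg (by decide), zero_mul, e2_zero, mul_one,
        mul_one]
    · rw [h, if_pos rfl, if_pos rfl, if_pos rfl, one_mul]
      rfl
  have h3 : ((wC w z (D.a q) : ℝ) : ℂ) = ((2 : ℂ) ^ Fintype.card I)⁻¹ *
      ∏ a, if phi a ⬝ᵥ z.1.1 = 1 then ((w a (z.1.2 a) (D.a q) : ℝ) : ℂ) else 1 := by
    unfold wC
    rw [Complex.ofReal_mul, Complex.ofReal_prod]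
    congr 1
    · push_cast
      rfl
    · refine prod_congr rfl fun a _ => ?_
      split_ifs
      · rfl
      · exact Complex.ofReal_one
  have h4 : wu D (LSC phi Λ).c (wC w) (uC u G) z q = ((wC w z (D.a q) : ℝ) : ℂ) * uC u G z q *
      e2 (∑ j, (∑ a, (phi a ⬝ᵥ z.1.1) • (Λ a).c (z.1.2 a)) j * D.a q j) := rfl
  rw [h4, h1, h2, h3]
  unfold uC
  ring

/-- **X2** (medium-, a copy with changes). The mean value over the families of subsets is a sum over the labellings. Proof: as `avI_FB`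
(A4.lean of this folder, PROVED): `sum_col` (A1), for every colouring `f` `BF_prodC` (X1) with `g a = wu D (Λ a).c (w a) (u a)`, the
double sum over `f` and the `y` with the colours `f` is the sum over all `y : S → LC phi L`, the denominator
`2 ^ (#I * #S)` is `∏ j : S, 2 ^ #I`, and `∏ q ∈ S, G q = ∏ j : S, G j` (`prod_coe_sort`). For every label `z` and `q`:
`(∏ a, if phi a ⬝ᵥ z.1.1 = 1 then wu D (Λ a).c (w a) (u a) (z.1.2 a) q else 1) / 2 ^ #I * G q =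
wu D (LSC phi Λ).c (wC w) (uC u G) z q`: `wu` is (weight) * (factor) * `e2 (∑ j, c j * D.a q j)`; the products of the three
parts are separated by `prod_mul_distrib` (first write every `if .. then x * y * e2 t else 1` as
`(if .. then x else 1) * (if .. then y else 1) * e2 ((phi a ⬝ᵥ z.1.1) * t)`, `z2`, as in the private `A4_pt`), `e2_sum`, and
`∑ j, (∑ a, (phi a ⬝ᵥ z.1.1) • (Λ a).c (z.1.2 a)) j * D.a q j = ∑ a, (phi a ⬝ᵥ z.1.1) * ∑ j, (Λ a).c (z.1.2 a) j * D.a q j`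
(`Finset.sum_apply`, `sum_mul`, `sum_comm`). -/
theorem avI_C (D : Dat2 ι κ) (phi : A → I → ZMod 2) (Λ : ∀ a, LS2 (L a) ι κ)
    (w : ∀ a, L a → (κ → ZMod 2) → ℝ) (u : ∀ a, L a → ι → ℂ) (G : ι → ℂ) (S : Finset ι) :
    avI (PB D phi Λ w u) S * ∏ q ∈ S, G q =
      BF D (LSC phi Λ).Phi (wu D (LSC phi Λ).c (wC w) (uC u G)) S := by
  classical
  unfold avI
  rw [sum_col]
  have h1 : ∀ f : S → I → ZMod 2, PB D phi Λ w u (colF S f) =
      ∑ y : S → LC phi L, if (fun j => (y j).1.1) = f then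
        (∏ j : S, ∏ a, if phi a ⬝ᵥ f j = 1 then wu D (Λ a).c (w a) (u a) ((y j).1.2 a) j else 1) *
            e2 (∑ j : S, ∑ l : S, PC phi (fun a => (Λ a).Phi) (y j) (y l) * D.s j l) else 0 := by
    intro f
    unfold PB
    rw [BF_prodC D phi (fun a => (Λ a).Phi) (fun a => wu D (Λ a).c (w a) (u a)) S f, sum_filter]
    refine sum_congr rfl fun y _ => ?_
    by_cases h : ∀ j, (y j).1.1 = f j
    · rw [if_pos h, if_pos (funext h)]
    · rw [if_neg h, if_neg (fun e => h fun j => congrFun e j)]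
  rw [sum_congr rfl fun f _ => h1 f, sum_comm]
  unfold BF
  rw [sum_div, sum_mul]
  refine sum_congr rfl fun y _ => ?_
  rw [sum_ite_eq, if_pos (mem_univ _)]
  have h2 : (2 : ℂ) ^ (Fintype.card I * S.card) = ∏ _j : S, (2 : ℂ) ^ Fintype.card I := by
    rw [prod_const, card_univ, Fintype.card_coe, ← pow_mul]
  have h3 : ∏ q ∈ S, G q = ∏ j : S, G j := (prod_coe_sort S G).symm
  rw [h2, h3, mul_div_right_comm, ← prod_div_distrib, mul_right_comm, ← prod_mul_distrib]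
  refine congrArg₂ (· * ·) ?_ rfl
  exact prod_congr rfl fun j _ => X2_pt D phi Λ w u G (y j) j

end

end Pool.Agent.Lib.MP_1a91b9_ntMQ.G4
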