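import Pool.Agent.Lib.MP_1a91b9_ntMQ.X0
import Pool.Agent.Lib.MP_1a91b9_ntMQ.K2

set_option autoImplicit false
set_option linter.unusedSectionVars false

namespace Pool.Agent.Lib.MP_1a91b9_ntMQ.G4

open Finset Pool.Agent.Lib.MP_1a91b9_ntH Pool.Agent.Lib.MP_1a91b9_ntQ Pool.Agent.Lib.MP_1a91b9_ntQ.Da
  Pool.Agent.Lib.MP_1a91b9_ntQ.M Pool.Agent.Lib.MP_1a91b9_ntM Pool.Agent.Lib.MP_1a91b9_ntM.E
open Pool.Agent.Lib.MP_1a91b9_ntDV Pool.Agent.Lib.MP_1a91b9_ntDV.G4 Pool.Agent.Lib.MP_1a91b9_ntMQ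

noncomputable section

variable {I A : Type} [Fintype I] [DecidableEq I] [Fintype A] [DecidableEq A] {L : A → Type}
  [∀ a, Zero (L a)] [∀ a, Fintype (L a)] [∀ a, DecidableEq (L a)] {phi : A → I → ZMod 2}
  {ι : Type} {κ : Type}

/-- **X3a** (medium-). Sums over the labels whose components are in the sets `U a`. Proof: `sum_fiberwise` for the colour `z.1.1`; for a colour
`v` the labels in `UC phi U` of this colour are in bijection with `Fintype.piFinset fun a => if phi a ⬝ᵥ v = 1 then U a else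
{0}` (`z ↦ z.1.2`; `Finset.sum_bij'` or `sum_nbij'`), `Finset.prod_univ_sum`, and the sum over `{0}` of the value `1` is `1`. -/
theorem sum_UC {M : Type} [CommSemiring M] (U : ∀ a, Finset (L a)) (h : (I → ZMod 2) → M)
    (f : ∀ a, L a → M) :
    ∑ z ∈ UC phi U, h z.1.1 * ∏ a, (if phi a ⬝ᵥ z.1.1 = 1 then f a (z.1.2 a) else 1) =
      ∑ v : I → ZMod 2, h v * ∏ a, if phi a ⬝ᵥ v = 1 then ∑ l ∈ U a, f a l else 1 := by
  classical
  rw [← Finset.sum_fiberwise (UC phi U) (fun z => z.1.1)]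
  refine sum_congr rfl fun v _ => ?_
  have h1 : (∏ a, if phi a ⬝ᵥ v = 1 then ∑ l ∈ U a, f a l else 1) =
      ∑ x ∈ Fintype.piFinset (fun a => if phi a ⬝ᵥ v = 1 then U a else {0}),
        ∏ a, if phi a ⬝ᵥ v = 1 then f a (x a) else 1 := by
    rw [← Finset.prod_univ_sum (fun a => if phi a ⬝ᵥ v = 1 then U a else {0})
      (fun a l => if phi a ⬝ᵥ v = 1 then f a l else 1)]
    refine prod_congr rfl fun a _ => ?_
    split_ifs with h2
    · rfl
    · rw [sum_singleton]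
  have hmem : ∀ x : ∀ a, L a, x ∈ Fintype.piFinset (fun a => if phi a ⬝ᵥ v = 1 then U a else {0}) ↔
      (∀ a, phi a ⬝ᵥ v = 1 → x a ∈ U a) ∧ ∀ a, phi a ⬝ᵥ v = 0 → x a = 0 := by
    intro x
    rw [Fintype.mem_piFinset]
    constructor
    · intro h2
      refine ⟨fun a ha => ?_, fun a ha => ?_⟩
      · have h3 := h2 a
        rwa [if_pos ha] at h3
      · have h3 := h2 a
        rw [if_neg (by rw [ha]; exact zero_ne_one), mem_singleton] at h3
        exact h3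
    · rintro ⟨h2, h3⟩ a
      rcases z2 (phi a ⬝ᵥ v) with h4 | h4
      · rw [if_neg (by rw [h4]; exact zero_ne_one), mem_singleton]
        exact h3 a h4
      · rw [if_pos h4]
        exact h2 a h4
  rw [h1, mul_sum]
  refine Finset.sum_bij' (fun z _ => z.1.2) (fun x hx => (⟨(v, x), ((hmem x).1 hx).2⟩ : LC phi L)) ?_ ?_ ?_ ?_ ?_
  · intro z hz
    rw [mem_filter, mem_UC] at hz
    obtain ⟨hz1, hz2⟩ := hz
    rw [hmem, ← hz2]
    exact ⟨hz1, z.2⟩
  · intro x hx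
    rw [mem_filter, mem_UC]
    exact ⟨((hmem x).1 hx).1, rfl⟩
  · intro z hz
    apply Subtype.ext
    apply Prod.ext
    · exact (mem_filter.1 hz).2.symm
    · rfl
  · intro x hx
    rfl
  · intro z hz
    rw [(mem_filter.1 hz).2]

/-- **X3b** (easy). Proof: `sum_UC` with `M = ℕ`, `h = 1`, `f = 1` (`card_eq_sum_ones`), and `(LSC phi Λ).m` is the sum by definition. -/
theorem card_UC (Λ : ∀ a, LS2 (L a) ι κ) {U : ∀ a, Finset (L a)}
    (h : ∀ a, (U a).card = (Λ a).m) : (UC phi U).card = (LSC phi Λ).m := by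
  have h1 := sum_UC (phi := phi) (M := ℕ) U (fun _ => 1) (fun _ _ => 1)
  simp only [ite_self, prod_const_one, mul_one, one_mul, ← card_eq_sum_ones, h] at h1
  exact h1

/-- **X3c** (easy). Proof: `sum_UC` with `M = ℝ`, `h = fun _ => (2 ^ #I)⁻¹`, `f a l = w a l φ`; `mul_sum`. -/
theorem sum_wC (w : ∀ a, L a → (κ → ZMod 2) → ℝ) (U : ∀ a, Finset (L a)) (φ : κ → ZMod 2) :
    ∑ z ∈ UC phi U, wC w z φ = ((2 : ℝ) ^ Fintype.card I)⁻¹ *
      ∑ v : I → ZMod 2, ∏ a, if phi a ⬝ᵥ v = 1 then ∑ l ∈ U a, w a l φ else 1 := by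
  have h1 := sum_UC (phi := phi) (M := ℝ) U (fun _ => ((2 : ℝ) ^ Fintype.card I)⁻¹) (fun a l => w a l φ)
  rw [mul_sum]
  exact h1

private theorem X3_wu [DecidableEq ι] [Fintype κ] (D : Dat2 ι κ) (Λ : ∀ a, LS2 (L a) ι κ)
    (w : ∀ a, L a → (κ → ZMod 2) → ℝ) (u : ∀ a, L a → ι → ℂ) (G : ι → ℂ) (z : LC phi L) (q : ι) :
    wu D (LSC phi Λ).c (wC w) (uC u G) z q = (((2 : ℂ) ^ Fintype.card I)⁻¹ * G q) *
      ∏ a, (if phi a ⬝ᵥ z.1.1 = 1 then wu D (Λ a).c (w a) (u a) (z.1.2 a) q else 1) := by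
  have h1 : e2 (∑ j, (LSC phi Λ).c z j * D.a q j) =
      ∏ a, (if phi a ⬝ᵥ z.1.1 = 1 then e2 (∑ j, (Λ a).c (z.1.2 a) j * D.a q j) else 1) := by
    have h2 : ∑ j, (LSC phi Λ).c z j * D.a q j =
        ∑ a, (phi a ⬝ᵥ z.1.1) * ∑ j, (Λ a).c (z.1.2 a) j * D.a q j := by
      have h3 : ∀ j, (LSC phi Λ).c z j = ∑ a, (phi a ⬝ᵥ z.1.1) * (Λ a).c (z.1.2 a) j := by
        intro j
        show (∑ a, (phi a ⬝ᵥ z.1.1) • (Λ a).c (z.1.2 a)) j = _
        rw [Finset.sum_apply]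
        rfl
      simp only [h3, sum_mul, mul_sum]
      rw [sum_comm]
      exact sum_congr rfl fun a _ => sum_congr rfl fun j _ => mul_assoc _ _ _
    rw [h2, e2_sum]
    refine prod_congr rfl fun a _ => ?_
    rcases z2 (phi a ⬝ᵥ z.1.1) with h | h
    · rw [h, zero_mul, if_neg zero_ne_one, e2_zero]
    · rw [h, one_mul, if_pos rfl]
  unfold wu wC uC
  rw [h1]
  push_cast
  have h5 : (∏ a, (((if phi a ⬝ᵥ z.1.1 = 1 then w a (z.1.2 a) (D.a q) else 1 : ℝ)) : ℂ)) =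
      ∏ a, (if phi a ⬝ᵥ z.1.1 = 1 then ((w a (z.1.2 a) (D.a q) : ℝ) : ℂ) else 1) := by
    refine prod_congr rfl fun a _ => ?_
    split_ifs
    · rfl
    · exact Complex.ofReal_one
  rw [h5]
  have h4 : (∏ a, (if phi a ⬝ᵥ z.1.1 = 1 then ((w a (z.1.2 a) (D.a q) : ℝ) : ℂ) * u a (z.1.2 a) q *
      e2 (∑ j, (Λ a).c (z.1.2 a) j * D.a q j) else 1)) =
      (∏ a, (if phi a ⬝ᵥ z.1.1 = 1 then ((w a (z.1.2 a) (D.a q) : ℝ) : ℂ) else 1)) *
      (∏ a, (if phi a ⬝ᵥ z.1.1 = 1 then u a (z.1.2 a) q else 1)) *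
      ∏ a, (if phi a ⬝ᵥ z.1.1 = 1 then e2 (∑ j, (Λ a).c (z.1.2 a) j * D.a q j) else 1) := by
    rw [← prod_mul_distrib, ← prod_mul_distrib]
    refine prod_congr rfl fun a _ => ?_
    split_ifs
    · rfl
    · rw [mul_one, mul_one]
  rw [h4]
  ring

/-- **X3d** (medium-). The local factor. Proof: `wu D (LSC phi Λ).c (wC w) (uC u G) z q` is `(2 ^ #I)⁻¹ * G q * ∏ a, if phi a ⬝ᵥ z.1.1 = 1
then wu D (Λ a).c (w a) (u a) (z.1.2 a) q else 1` (the same computation as in the docstring of X2: `z2` for every `a`,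
`prod_mul_distrib`, `e2_sum`), then `sum_UC` with `M = ℂ`, `h = fun _ => (2 ^ #I)⁻¹ * G q`; `mul_sum`, `ring`. -/
theorem sum_fC [DecidableEq ι] [Fintype κ] (D : Dat2 ι κ) (Λ : ∀ a, LS2 (L a) ι κ)
    (w : ∀ a, L a → (κ → ZMod 2) → ℝ) (u : ∀ a, L a → ι → ℂ) (G : ι → ℂ) (U : ∀ a, Finset (L a))
    (q : ι) : ∑ z ∈ UC phi U, wu D (LSC phi Λ).c (wC w) (uC u G) z q =
      fC D phi Λ w u U q * G q := by
  have h1 := sum_UC (phi := phi) (M := ℂ) U (fun _ => ((2 : ℂ) ^ Fintype.card I)⁻¹ * G q)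
    (fun a l => wu D (Λ a).c (w a) (u a) l q)
  rw [sum_congr rfl fun z _ => X3_wu D Λ w u G z q, h1, ← mul_sum]
  unfold fC
  ring

/-- **X3e** (easy+). Proof: `U a` is the set of the components at `a` of the labels of `UC phi U` of the colour `v`, for any `v` with
`phi a ⬝ᵥ v = 1` (`Sp.one hs a`): for `l ∈ U a` choose `x b ∈ U b` for all `b` (the sets are not empty) and take the label with the colour
`v` and the components `if phi b ⬝ᵥ v = 0 then 0 else (Function.update x a l) b`. -/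
theorem UC_inj (hs : Sp phi) {U U' : ∀ a, Finset (L a)} (hU : ∀ a, (U a).Nonempty)
    (hU' : ∀ a, (U' a).Nonempty) (h : UC phi U = UC phi U') : U = U' := by
  classical
  have key : ∀ {U U' : ∀ a, Finset (L a)}, (∀ a, (U a).Nonempty) → UC phi U = UC phi U' → ∀ a, U a ⊆ U' a := by
    intro U U' hU h a l hl
    obtain ⟨v, hv⟩ := hs.one a
    choose x hx using hU
    let z : LC phi L := ⟨(v, fun b => if phi b ⬝ᵥ v = 0 then 0 else Function.update x a l b), fun b hb => if_pos hb⟩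
    have hz : z ∈ UC phi U := by
      rw [mem_UC]
      intro b hb
      have hb1 : phi b ⬝ᵥ v = 1 := hb
      show (if phi b ⬝ᵥ v = 0 then 0 else Function.update x a l b) ∈ U b
      rw [if_neg (by rw [hb1]; exact one_ne_zero)]
      by_cases hba : b = a
      · subst hba
        rw [Function.update_self]
        exact hl
      · rw [Function.update_of_ne hba]
        exact hx b
    rw [h, mem_UC] at hz
    have h2 : (if phi a ⬝ᵥ v = 0 then 0 else Function.update x a l a) ∈ U' a := hz a hv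
    rw [if_neg (by rw [hv]; exact one_ne_zero), Function.update_self] at h2
    exact h2
  funext a
  exact Subset.antisymm (key hU h a) (key hU' h.symm a)

end

end Pool.Agent.Lib.MP_1a91b9_ntMQ.G4
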