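import Pool.Agent.Lib.MP_1a91b9_ntMQ.V2
import Pool.Agent.Lib.MP_1a91b9_ntMQ.A6
import Pool.Agent.Lib.MP_1a91b9_ntDV.W4

/-!
# MP_1a91b9_nt (random multiquadratic fields), block Y (`ℚ(√-2)`): definitions

The primes `q` with `dg w q = 0` carry all the labels, the other primes only the labels of a set `P` (for the
families of subsets: the labels `(w, 0)`).
-/

set_option autoImplicit false
set_option linter.unusedSectionVars false

namespace Pool.Agent.Lib.MP_1a91b9_ntMQ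

open Finset Pool.Agent.Lib.MP_1a91b9_ntH Pool.Agent.Lib.MP_1a91b9_ntQ
open Pool.Agent.Lib.MP_1a91b9_ntQ.Da Pool.Agent.Lib.MP_1a91b9_ntV Pool.Agent.Lib.MP_1a91b9_ntM
open Pool.Agent.Lib.MP_1a91b9_ntDV
open Pool.Agent.Lib.MP_1a91b9_ntW (OKw gW)

noncomputable section

/-! ### Label systems with two kinds of primes -/

section Sy

variable {L : Type} [Fintype L] [DecidableEq L] {ι : Type} {κ : Type} [Fintype κ]

open Classical in
/-- The weights. -/
def gY (D : Dat2 ι κ) (w : κ → ZMod 2) (r : ι → ZMod 2) (n : L → ℝ) (P : Finset L)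
    (Q : L → ZMod 2) (c : L → κ → ZMod 2) (x : L) (q : ι) : ℂ :=
  if D.dg w q = 0 then (n x : ℂ) * e2 (r q * Q x + D.dg (c x) q)
  else if x ∈ P then (((P.card : ℝ)⁻¹ : ℝ) : ℂ) * e2 (D.dg (c x) q) else 0

/-- The label system. -/
def LY (D : Dat2 ι κ) (w : κ → ZMod 2) (r : ι → ZMod 2) (Phi : L → L → ZMod 2) (n : L → ℝ)
    (P : Finset L) (Q : L → ZMod 2) (c : L → κ → ZMod 2) : LG L ι where
  Phi := Phi1 Phi
  g := gY D w r n P Q c

/-- The maximal unlinked sets which count. -/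
def UY (Us : Finset (Finset L)) (P : Finset L) : Finset (Finset L) := Us.filter fun U => P ⊆ U

open Classical in
/-- The mean value of a maximal unlinked set. -/
def mY (w : κ → ZMod 2) (P : Finset L) (c : L → κ → ZMod 2) (U : Finset L) : ℂ :=
  if (∀ x ∈ P, c x = 0) ∧ ∀ x ∈ U, c x = 0 ∨ c x = w then 1 else 0

/-- The hypotheses. -/
structure WY (Phi : L → L → ZMod 2) (n : L → ℝ) (M : ℕ) (Us : Finset (Finset L))
    (P : Finset L) (Q : L → ZMod 2) : Prop where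
  ws : WS Phi n M Us
  ne : P.Nonempty
  card : P.card ≤ M
  q : ∀ U ∈ Us, P ⊆ U → ∀ x ∈ U, Q x = 0

theorem mem_UY {Us : Finset (Finset L)} {P U : Finset L} : U ∈ UY Us P ↔ U ∈ Us ∧ P ⊆ U := by
  unfold UY
  rw [mem_filter]

theorem LY_lk (D : Dat2 ι κ) (w : κ → ZMod 2) (r : ι → ZMod 2) (Phi : L → L → ZMod 2) (n : L → ℝ)
    (P : Finset L) (Q : L → ZMod 2) (c : L → κ → ZMod 2) (x y : L) :
    (LY D w r Phi n P Q c).lk x y = Phi x y + Phi y x := Phi1_lk Phi x y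

theorem gY_zero (D : Dat2 ι κ) {w : κ → ZMod 2} (r : ι → ZMod 2) (Phi : L → L → ZMod 2) (n : L → ℝ)
    (P : Finset L) (Q : L → ZMod 2) (c : L → κ → ZMod 2) {q : ι} (hq : D.dg w q = 0) (x : L) :
    (LY D w r Phi n P Q c).g x q = (n x : ℂ) * e2 (r q * Q x + D.dg (c x) q) := by
  show gY D w r n P Q c x q = _
  unfold gY
  rw [if_pos hq]

theorem gY_one (D : Dat2 ι κ) {w : κ → ZMod 2} (r : ι → ZMod 2) (Phi : L → L → ZMod 2) (n : L → ℝ)
    (P : Finset L) (Q : L → ZMod 2) (c : L → κ → ZMod 2) {q : ι} (hq : D.dg w q ≠ 0) {x : L}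
    (hx : x ∈ P) :
    (LY D w r Phi n P Q c).g x q = (((P.card : ℝ)⁻¹ : ℝ) : ℂ) * e2 (D.dg (c x) q) := by
  show gY D w r n P Q c x q = _
  unfold gY
  rw [if_neg hq, if_pos hx]

theorem gY_ne (D : Dat2 ι κ) {w : κ → ZMod 2} (r : ι → ZMod 2) (Phi : L → L → ZMod 2) (n : L → ℝ)
    (P : Finset L) (Q : L → ZMod 2) (c : L → κ → ZMod 2) {q : ι} (hq : D.dg w q ≠ 0) {x : L}
    (hx : x ∉ P) : (LY D w r Phi n P Q c).g x q = 0 := by
  show gY D w r n P Q c x q = _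
  unfold gY
  rw [if_neg hq, if_neg hx]

end Sy

/-! ### The labels of the families of subsets -/

section Lbl

variable {I A : Type} [Fintype I] [Fintype A] [DecidableEq I] [DecidableEq A] {phi : A → I → ZMod 2}
  {k : A → ℕ} {κ : Type} [Fintype κ]

open Classical in
/-- The labels `(w, 0)`. -/
def PY (phi : A → I → ZMod 2) (k : A → ℕ) : Finset (Lb phi k) := univ.filter fun z => z.1.2 = 0

/-- The quadratic form of a label. -/
def QY (phi : A → I → ZMod 2) (k : A → ℕ) (z : Lb phi k) : ZMod 2 :=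
  ∑ a, (phi a ⬝ᵥ z.1.1) * Q2 (z.1.2 a)

theorem mem_PY {z : Lb phi k} : z ∈ PY phi k ↔ z.1.2 = 0 := by
  classical
  unfold PY
  rw [mem_filter]
  exact ⟨fun h => h.2, fun h => ⟨mem_univ _, h⟩⟩

/-- The label `(w, 0)`. -/
def z0 (phi : A → I → ZMod 2) (k : A → ℕ) (w : I → ZMod 2) : Lb phi k := ⟨(w, 0), fun _ _ => rfl⟩

theorem z0_mem (w : I → ZMod 2) : z0 phi k w ∈ PY phi k := mem_PY.2 rfl

/-- The value of the first moment. -/
def vY (phi : A → I → ZMod 2) (k : A → ℕ) (w : κ → ZMod 2) (cc : ∀ a, Lab2 (k a) → κ → ZMod 2)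
    (b : I → κ → ZMod 2) : ℂ :=
  ∑ U ∈ UY (UsL phi k) (PY phi k), mY w (PY phi k) (cz cc b) U

/-- The function of the first moment. -/
def FY {ι : Type} [DecidableEq ι] (D : Dat2 ι κ) (w : κ → ZMod 2) (r : ι → ZMod 2)
    (phi : A → I → ZMod 2) (k : A → ℕ) (cc : ∀ a, Lab2 (k a) → κ → ZMod 2) (b : I → κ → ZMod 2)
    (c : I → Finset ι) : ℂ :=
  chI D b c * ∏ a, BF D (Phi1 PhiQ) (gw D w r (cc a)) (TT phi c a)

end Lbl

end

end Pool.Agent.Lib.MP_1a91b9_ntMQ
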