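import Pool.Agent.Lib.MP_1a91b9_ntMQ.Y0

/-!
Y1: the small sets
-/

set_option autoImplicit false
set_option linter.unusedSectionVars false

namespace Pool.Agent.Lib.MP_1a91b9_ntMQ

open Finset Pool.Agent.Lib.MP_1a91b9_ntH Pool.Agent.Lib.MP_1a91b9_ntQ
open Pool.Agent.Lib.MP_1a91b9_ntQ.Da Pool.Agent.Lib.MP_1a91b9_ntV Pool.Agent.Lib.MP_1a91b9_ntM
open Pool.Agent.Lib.MP_1a91b9_ntDV
open Pool.Agent.Lib.MP_1a91b9_ntW (OKw)

noncomputable section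

variable {L : Type} [Fintype L] [DecidableEq L] {ι : Type} [DecidableEq ι] {κ : Type} [Fintype κ]
  [DecidableEq κ] [PS ι]

private theorem Y1_z2_one {x : ZMod 2} (h : x ≠ 0) : x = 1 := by
  have h1 : ∀ x : ZMod 2, x ≠ 0 → x = 1 := by decide
  exact h1 x h

private theorem Y1_zero (D : Dat2 ι κ) {w : κ → ZMod 2} (r : ι → ZMod 2) (Phi : L → L → ZMod 2)
    {n : L → ℝ} (hn : ∀ x, 0 ≤ n x) (P : Finset L) (Q : L → ZMod 2) (c : L → κ → ZMod 2) {q : ι}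
    (hq : D.dg w q = 0) (Z : Finset L) :
    ∑ l ∈ Z, ‖(LY D w r Phi n P Q c).g l q‖ = ∑ x ∈ Z, n x := by
  refine sum_congr rfl fun x _ => ?_
  rw [gY_zero D r Phi n P Q c hq, norm_mul, norm_e2, mul_one, Complex.norm_real, Real.norm_eq_abs,
    abs_of_nonneg (hn x)]

private theorem Y1_ne (D : Dat2 ι κ) {w : κ → ZMod 2} (r : ι → ZMod 2) (Phi : L → L → ZMod 2)
    (n : L → ℝ) (P : Finset L) (Q : L → ZMod 2) (c : L → κ → ZMod 2) {q : ι}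
    (hq : D.dg w q ≠ 0) (Z : Finset L) :
    ∑ l ∈ Z, ‖(LY D w r Phi n P Q c).g l q‖ = ((Z ∩ P).card : ℝ) * (P.card : ℝ)⁻¹ := by
  have h1 : ∀ x ∈ Z, ‖(LY D w r Phi n P Q c).g x q‖ =
      if x ∈ P then (P.card : ℝ)⁻¹ else 0 := by
    intro x _
    by_cases hx : x ∈ P
    · rw [if_pos hx, gY_one D r Phi n P Q c hq hx, norm_mul, norm_e2, mul_one,
        Complex.norm_real, Real.norm_eq_abs, abs_of_nonneg (inv_nonneg.2 (Nat.cast_nonneg _))]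
    · rw [if_neg hx, gY_ne D r Phi n P Q c hq hx, norm_zero]
  rw [sum_congr rfl h1, ← sum_filter, sum_const, nsmul_eq_mul, filter_mem_eq_inter]

private theorem Y1_cap {Z P : Finset L} {x : L} (hx : x ∈ P) (hxZ : x ∉ Z) :
    (Z ∩ P).card + 1 ≤ P.card := by
  have h1 : Z ∩ P ⊆ P.erase x := by
    intro y hy
    rw [mem_inter] at hy
    refine mem_erase.2 ⟨?_, hy.2⟩
    rintro rfl
    exact hxZ hy.1
  have h2 := card_le_card h1
  have h3 := card_erase_add_one hx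
  omega

/-- **Y1** (medium-). The small sets. Proof: this is `LWs_small` (MP_1a91b9_ntDV/W1.lean, PROVED, copy it with its private helpers)
with `LY D w r Phi n P Q c` in place of `LWs D w r k k' c`, `n`, `M`, `2 * M`, `Us`, `UY Us P`, `P` in place of
`nP k k'`, `MP k k'`, `MQ k k'`, `UsP k k'`, `UsQ k k'`, `Sp k k'`. The sum of the norms at `q` is `∑ x ∈ Z, n x` if
`D.dg w q = 0` (`gY_zero`, `norm_e2`, `hW.ws.pos`) and `#(Z ∩ P) / #P ≤ 1` otherwise (`gY_one`, `gY_ne`). Both are at most `1`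
(`hW.ws.sum` if `Z ∈ Us`, `hW.ws.small` if not, by `LY_lk`). Case 1, `Z ∉ Us`: `ψ q = -D.ch ∅ w q` (`hD.cbn`): for
`dg w q = 0` the bound is `(2 * M - 2) / (2 * M) = 1 - 1 / M` (`hW.ws.small`), for `dg w q ≠ 0` it is `1`. Case 2,
`Z ∈ Us`, `Z ∉ UY Us P`: some `x ∈ P` is not in `Z` (`mem_UY`, `Finset.not_subset`), so for `dg w q ≠ 0` the sum is at most
`(#P - 1) / #P = 1 - 1 / #P ≤ 1 - 1 / M` (`hW.card`, `hW.ne`); `ψ q = D.ch ∅ w q` (`hD.cb` with `T = ∅`, `w ≠ 0`): the bound is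
`1` for `dg w q = 0` and `1 - 2 / (2 * M)` otherwise. -/
theorem LY_small {Phi : L → L → ZMod 2} {n : L → ℝ} {M : ℕ} {Us : Finset (Finset L)} {P : Finset L}
    {Q : L → ZMod 2} (hW : WY Phi n M Us P Q) {D : Dat2 ι κ} {w : κ → ZMod 2} (hD : OKw D w)
    (r : ι → ZMod 2) (c : L → κ → ZMod 2) :
    ∃ B, ∀ Z, (LY D w r Phi n P Q c).Unl Z → Z ∉ UY Us P → ∃ ψ : ι → ℝ, SumB ψ B ∧ ∀ q,
      ∑ l ∈ Z, ‖(LY D w r Phi n P Q c).g l q‖ ≤ 1 ∧
        ∑ l ∈ Z, ‖(LY D w r Phi n P Q c).g l q‖ ≤ (((2 * M : ℕ) - 1 : ℝ) + ψ q) / (2 * M : ℕ) := by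
  classical
  obtain ⟨C, hC⟩ := hD.cb
  obtain ⟨Cn, hCn⟩ := hD.cbn
  have hCw := SumB.of (hC ∅ w (Or.inr hD.w0))
  have hM2 : (2 : ℝ) ≤ (M : ℝ) := by exact_mod_cast hW.ws.two
  have hM0 : (0 : ℝ) < (M : ℝ) := by linarith
  have hn : ∀ x, 0 ≤ n x := fun x => (div_nonneg (by norm_num) hM0.le).trans (hW.ws.pos x)
  have hMQ : ((2 * M : ℕ) : ℝ) = 2 * (M : ℝ) := by
    push_cast
    rfl
  have hMQ0 : (0 : ℝ) < ((2 * M : ℕ) : ℝ) := by
    rw [hMQ]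
    linarith
  have hp0 : (0 : ℝ) < (P.card : ℝ) := by exact_mod_cast hW.ne.card_pos
  have hpM : (P.card : ℝ) ≤ M := by exact_mod_cast hW.card
  have hcap : ∀ Z : Finset L, ((Z ∩ P).card : ℝ) * (P.card : ℝ)⁻¹ ≤ 1 := by
    intro Z
    have h1 : ((Z ∩ P).card : ℝ) ≤ P.card := by exact_mod_cast card_le_card inter_subset_right
    calc ((Z ∩ P).card : ℝ) * (P.card : ℝ)⁻¹ ≤ P.card * (P.card : ℝ)⁻¹ :=
          mul_le_mul_of_nonneg_right h1 (inv_nonneg.2 hp0.le)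
      _ = 1 := mul_inv_cancel₀ hp0.ne'
  refine ⟨max (C * (1 + Real.log (nm (∅ : Finset ι)))) Cn, fun Z hZ hZ2 => ?_⟩
  by_cases hU : Z ∈ Us
  · have hx : ∃ x ∈ P, x ∉ Z := by
      by_contra hcon
      push Not at hcon
      exact hZ2 (mem_UY.2 ⟨hU, hcon⟩)
    obtain ⟨x, hx, hxZ⟩ := hx
    refine ⟨D.ch ∅ w, hCw.mono (le_max_left _ _), fun q => ?_⟩
    rw [Pool.Agent.Lib.MP_1a91b9_ntW.ch_empty]
    by_cases hq : D.dg w q = 0
    · rw [Y1_zero D r Phi hn P Q c hq, hW.ws.sum Z hU, hq, sg2_zero]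
      refine ⟨le_refl _, ?_⟩
      rw [sub_add_cancel, div_self hMQ0.ne']
    · rw [Y1_ne D r Phi n P Q c hq, Y1_z2_one hq, Pool.Agent.Lib.MP_1a91b9_ntQ.sg2_one]
      refine ⟨hcap Z, ?_⟩
      have h1 : (((Z ∩ P).card : ℝ) + 1) * (P.card : ℝ)⁻¹ ≤ 1 := by
        have h2 : ((Z ∩ P).card : ℝ) + 1 ≤ P.card := by exact_mod_cast Y1_cap hx hxZ
        calc (((Z ∩ P).card : ℝ) + 1) * (P.card : ℝ)⁻¹ ≤ P.card * (P.card : ℝ)⁻¹ :=
              mul_le_mul_of_nonneg_right h2 (inv_nonneg.2 hp0.le)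
          _ = 1 := mul_inv_cancel₀ hp0.ne'
      have h2 : (M : ℝ)⁻¹ ≤ (P.card : ℝ)⁻¹ := inv_anti₀ hp0 hpM
      have h3 : (((2 * M : ℕ) : ℝ) - 1 + -1) / ((2 * M : ℕ) : ℝ) = 1 - (M : ℝ)⁻¹ := by
        rw [hMQ]
        field_simp
        ring
      rw [h3]
      linarith
  · have h1 := hW.ws.small Z (fun x hx y hy => by
      have := hZ x hx y hy
      rwa [LY_lk] at this) hU
    refine ⟨fun q => -D.ch ∅ w q, hCn.mono (le_max_right _ _), fun q => ?_⟩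
    beta_reduce
    rw [Pool.Agent.Lib.MP_1a91b9_ntW.ch_empty]
    by_cases hq : D.dg w q = 0
    · rw [Y1_zero D r Phi hn P Q c hq, hq, sg2_zero]
      have h2 : 0 ≤ 1 / (M : ℝ) := by positivity
      refine ⟨by linarith, h1.trans (le_of_eq ?_)⟩
      rw [hMQ]
      field_simp
      ring
    · rw [Y1_ne D r Phi n P Q c hq, Y1_z2_one hq, Pool.Agent.Lib.MP_1a91b9_ntQ.sg2_one]
      refine ⟨hcap Z, (hcap Z).trans (le_of_eq ?_)⟩
      rw [neg_neg, sub_add_cancel, div_self hMQ0.ne']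

end

end Pool.Agent.Lib.MP_1a91b9_ntMQ
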