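import Pool.Agent.Lib.MP_1a91b9_ntMQ.Y0

/-!
Y2: the middle estimate
-/

set_option autoImplicit false
set_option linter.unusedSectionVars false

namespace Pool.Agent.Lib.MP_1a91b9_ntMQ

open Finset Pool.Agent.Lib.MP_1a91b9_ntH Pool.Agent.Lib.MP_1a91b9_ntQ
open Pool.Agent.Lib.MP_1a91b9_ntQ.Da Pool.Agent.Lib.MP_1a91b9_ntV Pool.Agent.Lib.MP_1a91b9_ntM
open Pool.Agent.Lib.MP_1a91b9_ntDV
open Pool.Agent.Lib.MP_1a91b9_ntW (OKw)

noncomputable section

variable {L : Type} [Fintype L] [DecidableEq L] {ι : Type} [DecidableEq ι] {κ : Type} [Fintype κ]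
  [DecidableEq κ] [PS ι]

private theorem Y2_chabs (D : Dat2 ι κ) (T : Finset ι) (c : κ → ZMod 2) (q : ι) :
    |D.ch T c q| ≤ 1 := by
  unfold Dat2.ch
  split_ifs
  · simp
  · exact (sg2_abs _).le

private def Y2_t {L : Type} [Fintype L] (lk : L → L → ZMod 2) (b : L → Finset ι) (l l' : L)
    (p : ι) : ZMod 2 :=
  ∑ m, if p ∈ b m then lk l m + lk l' m else 0

open Classical in
private def Y2_T {L : Type} [Fintype L] (lk : L → L → ZMod 2) (b : L → Finset ι) (l l' : L) :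
    Finset ι :=
  (uni b).filter fun p => Y2_t lk b l l' p ≠ 0

private theorem Y2_sumT {L : Type} [Fintype L] (lk : L → L → ZMod 2) (D : Dat2 ι κ)
    (b : L → Finset ι) (l l' : L) (q : ι) :
    ∑ m, lk l m * ∑ p ∈ b m, D.s q p + ∑ m, lk l' m * ∑ p ∈ b m, D.s q p =
      ∑ p ∈ Y2_T lk b l l', D.s q p := by
  classical
  have h1 : ∑ p ∈ Y2_T lk b l l', D.s q p = ∑ p ∈ uni b, Y2_t lk b l l' p * D.s q p := by
    unfold Y2_T
    rw [sum_filter]
    refine sum_congr rfl fun p _ => ?_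
    by_cases h : Y2_t lk b l l' p = 0
    · rw [if_neg (not_not.2 h), h, zero_mul]
    · rw [if_pos h, z2_ne h, one_mul]
  rw [h1]
  unfold Y2_t
  rw [sum_congr rfl fun p _ => sum_mul _ _ _, sum_comm, ← sum_add_distrib]
  refine sum_congr rfl fun m _ => ?_
  rw [← add_mul, mul_sum]
  have h4 : ∀ p ∈ b m, (lk l m + lk l' m) * D.s q p =
      (if p ∈ b m then lk l m + lk l' m else 0) * D.s q p := fun p hp => by rw [if_pos hp]
  rw [sum_congr rfl h4]
  refine sum_subset (sub_uni b m) fun p _ hp2 => ?_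
  rw [if_neg hp2, zero_mul]

/-- **Y2** (medium-). The middle estimate. Proof: this is `LWs_mid` (MP_1a91b9_ntDV/W2.lean, PROVED, copy it with its private
helpers) with `LY D w r Phi n P Q c` in place of `LWs D w r k k' c`, `n`, `M`, `2 * M`, `UY Us P`, `P` in place of
`nP k k'`, `MP k k'`, `MQ k k'`, `UsQ k k'`, `Sp k k'`. Instead of `exists_two (UsQ_sub hU) hm0U`:
`hW.ws.ex U _ m0 hm0U` gives `x, x' ∈ U` with different links to `m0` (`LY_lk`), the weights are at least `2 / M` by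
`hW.ws.pos`; `sum_nP` is `hW.ws.sum U _`; `Qz_mem` is `hW.q U _ _ _` (`mem_UY` for the three facts). For `D.dg w q ≠ 0` only the
labels of `P` have a weight, of norm `1 / #P`, so `‖HG‖ ≤ 1`. `0 ≤ (2 * M - 1) + ψ q` by `psiW_ge` and `2 ≤ M`
(`hW.ws.two`), and `3 ≤ 2 * M` for the exponent. -/
theorem LY_mid {Phi : L → L → ZMod 2} {n : L → ℝ} {M : ℕ} {Us : Finset (Finset L)} {P : Finset L}
    {Q : L → ZMod 2} (hW : WY Phi n M Us P Q) {D : Dat2 ι κ} {w : κ → ZMod 2} (hD : OKw D w)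
    (r : ι → ZMod 2) (c : L → κ → ZMod 2) :
    ∃ C : ℝ, ∀ U ∈ UY Us P, ∀ b : L → Finset ι, PD b → (∀ l ∈ U, b l = ∅) → uni b ≠ ∅ →
    (∀ l, ∀ q ∈ b l, (LY D w r Phi n P Q c).g l q ≠ 0) →
    ∃ ψ : ι → ℝ, SumB ψ ((C * (1 + Real.log (nm (uni b)))) ^ (2 * M)) ∧
      (∀ q, 0 ≤ ((2 * M : ℕ) - 1 : ℝ) + ψ q) ∧ ∀ q, q ∉ uni b →
        ‖HG D (LY D w r Phi n P Q c) U b q‖ ≤ 1 ∧
          ‖HG D (LY D w r Phi n P Q c) U b q‖ ≤ (((2 * M : ℕ) - 1 : ℝ) + ψ q) / (2 * M : ℕ) := by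
  classical
  obtain ⟨C, hC1, hC⟩ := Pool.Agent.Lib.MP_1a91b9_ntW.psiW_sumB hD
  have hM2 : 2 ≤ M := hW.ws.two
  have hMP : (2 : ℝ) ≤ (M : ℝ) := by exact_mod_cast hM2
  have hMP0 : (0 : ℝ) < (M : ℝ) := by linarith
  have hMQ : ((2 * M : ℕ) : ℝ) = 2 * (M : ℝ) := by
    push_cast
    ring
  have hMQ0 : (0 : ℝ) < ((2 * M : ℕ) : ℝ) := by linarith
  refine ⟨C, fun U hU b hb hbU hne _ => ?_⟩
  obtain ⟨hUs, hPU⟩ := mem_UY.1 hU
  obtain ⟨p0, hp0⟩ := nonempty_iff_ne_empty.2 hne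
  obtain ⟨m0, hm0⟩ := mem_uni.1 hp0
  have hm0U : m0 ∉ U := fun hm => by
    rw [hbU m0 hm] at hm0
    exact absurd hm0 (notMem_empty _)
  obtain ⟨l, hl, l', hl', hll⟩ := hW.ws.ex U hUs m0 hm0U
  have hnl := hW.ws.pos l
  have hnl' := hW.ws.pos l'
  have hn0 : ∀ x, 0 ≤ n x := fun x => le_trans (by positivity) (hW.ws.pos x)
  have hne' : l ≠ l' := fun e => hll (by rw [e])
  rw [← LY_lk D w r Phi n P Q c, ← LY_lk D w r Phi n P Q c] at hll
  set T := Y2_T (LY D w r Phi n P Q c).lk b l l' with hT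
  set c₁ : κ → ZMod 2 := c l + c l' with hc
  have hTs : T ⊆ uni b := filter_subset _ _
  have hTne : T ≠ ∅ := by
    refine nonempty_iff_ne_empty.1 ⟨p0, ?_⟩
    rw [hT, Y2_T]
    refine mem_filter.2 ⟨hp0, ?_⟩
    have h1 : Y2_t (LY D w r Phi n P Q c).lk b l l' p0 =
        (LY D w r Phi n P Q c).lk l m0 + (LY D w r Phi n P Q c).lk l' m0 := by
      unfold Y2_t
      rw [sum_eq_single m0, if_pos hm0]
      · intro m _ hm
        exact if_neg fun h => (disjoint_left.1 (hb m m0 hm)) h hm0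
      · intro h
        exact absurd (mem_univ _) h
    rw [h1]
    intro h
    have h5 : ∀ x y : ZMod 2, x + y = 0 → x = y := by decide
    exact hll (h5 _ _ h)
  have hTn : (1 : ℝ) ≤ nm T := by exact_mod_cast one_le_nm T
  have hlT : 0 ≤ Real.log (nm T) := Real.log_nonneg hTn
  have hlog : Real.log (nm T) ≤ Real.log (nm (uni b)) := by
    refine Real.log_le_log (by linarith) ?_
    exact_mod_cast Pool.Agent.Lib.MP_1a91b9_ntQ.D.nm_mono hTs
  refine ⟨Pool.Agent.Lib.MP_1a91b9_ntW.psiW D w T c₁, (hC T c₁ (Or.inl hTne)).mono ?_, fun q => ?_, fun q hq => ?_⟩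
  · have h1 : 1 ≤ C * (1 + Real.log (nm (uni b))) := by nlinarith
    calc (C * (1 + Real.log (nm T))) ^ 3 ≤ (C * (1 + Real.log (nm (uni b)))) ^ 3 := by
          refine pow_le_pow_left₀ (by positivity) ?_ 3
          exact mul_le_mul_of_nonneg_left (by linarith) (by linarith)
      _ ≤ _ := pow_le_pow_right₀ h1 (by omega)
  · have := Pool.Agent.Lib.MP_1a91b9_ntW.psiW_ge (D := D) (w := w) q T c₁
    rw [hMQ]
    linarith
  · by_cases hq0 : D.dg w q = 0
    · -- all the labels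
      have hH : HG D (LY D w r Phi n P Q c) U b q =
          ∑ z ∈ U, (n z : ℂ) * e2 (D.dg (c z) q + xg D (LY D w r Phi n P Q c) b z q) := by
        unfold HG
        refine sum_congr rfl fun z hz => ?_
        rw [gY_zero D r Phi n P Q c hq0, hW.q U hUs hPU z hz, mul_zero, zero_add, e2_add, mul_assoc]
      have hTq : q ∉ T := fun h => hq (hTs h)
      have hsg : sg ((D.dg (c l) q + xg D (LY D w r Phi n P Q c) b l q) +
          (D.dg (c l') q + xg D (LY D w r Phi n P Q c) b l' q)) = D.ch T c₁ q := by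
        unfold Dat2.ch
        rw [if_neg hTq]
        congr 1
        have h1 : D.ex1 T c₁ q = D.dg c₁ q + ∑ p ∈ T, D.s q p := rfl
        rw [h1, hT, ← Y2_sumT (LY D w r Phi n P Q c).lk D b l l' q, hc, dg_add,
          xg_gen D hD.tw (LY D w r Phi n P Q c) b l q hq, xg_gen D hD.tw (LY D w r Phi n P Q c) b l' q hq,
          hq0]
        ring
      have hns := norm_wsum U n hn0
        (fun z => D.dg (c z) q + xg D (LY D w r Phi n P Q c) b z q) (a := 2 / (M : ℝ))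
        (by positivity) hl hl' hne' hnl hnl'
      rw [hsg, hW.ws.sum U hUs] at hns
      have e1 : 1 - 2 / (M : ℝ) / 2 * (1 - D.ch T c₁ q) =
          (((2 * M : ℕ) - 1 : ℝ) + Pool.Agent.Lib.MP_1a91b9_ntW.psiW D w T c₁ q) / (2 * M : ℕ) := by
        rw [Pool.Agent.Lib.MP_1a91b9_ntW.psiW_zero hq0, hMQ]
        field_simp
        ring
      rw [← hH, e1] at hns
      refine ⟨hns.trans ?_, hns⟩
      rw [div_le_one hMQ0, Pool.Agent.Lib.MP_1a91b9_ntW.psiW_zero hq0]
      have := (abs_le.1 (Y2_chabs D T c₁ q)).2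
      linarith
    · -- only the labels of P
      have hP0 : (0 : ℝ) < (P.card : ℝ) := by
        have := hW.ne.card_pos
        exact_mod_cast this
      have hn : ‖HG D (LY D w r Phi n P Q c) U b q‖ ≤ 1 := by
        unfold HG
        refine (norm_sum_le _ _).trans ?_
        have h2 : ∀ z ∈ U, ‖(LY D w r Phi n P Q c).g z q * e2 (xg D (LY D w r Phi n P Q c) b z q)‖ =
            if z ∈ P then (P.card : ℝ)⁻¹ else 0 := by
          intro z _
          rw [norm_mul, norm_e2, mul_one]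
          by_cases hz : z ∈ P
          · rw [if_pos hz, gY_one D r Phi n P Q c hq0 hz, norm_mul, norm_e2, mul_one, Complex.norm_real,
              Real.norm_eq_abs, abs_of_pos (inv_pos.2 hP0)]
          · rw [if_neg hz, gY_ne D r Phi n P Q c hq0 hz, norm_zero]
        rw [sum_congr rfl h2, ← sum_filter, sum_const, nsmul_eq_mul]
        have h3 : ((U.filter fun z => z ∈ P).card : ℝ) ≤ (P.card : ℝ) := by
          rw [Nat.cast_le]
          exact card_le_card fun z hz => (mem_filter.1 hz).2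
        calc ((U.filter fun z => z ∈ P).card : ℝ) * (P.card : ℝ)⁻¹ ≤ (P.card : ℝ) * (P.card : ℝ)⁻¹ :=
              mul_le_mul_of_nonneg_right h3 (inv_nonneg.2 hP0.le)
          _ = 1 := mul_inv_cancel₀ hP0.ne'
      rw [Pool.Agent.Lib.MP_1a91b9_ntW.psiW_one hq0, sub_add_cancel, div_self hMQ0.ne']
      exact ⟨hn, hn⟩

end

end Pool.Agent.Lib.MP_1a91b9_ntMQ
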