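import Pool.Agent.Lib.MP_1a91b9_ntMQ.Y0

/-!
Y3: the mean values of the maximal unlinked sets
-/

set_option autoImplicit false
set_option linter.unusedSectionVars false

namespace Pool.Agent.Lib.MP_1a91b9_ntMQ

open Finset Pool.Agent.Lib.MP_1a91b9_ntH Pool.Agent.Lib.MP_1a91b9_ntQ
open Pool.Agent.Lib.MP_1a91b9_ntQ.Da Pool.Agent.Lib.MP_1a91b9_ntV Pool.Agent.Lib.MP_1a91b9_ntM
open Pool.Agent.Lib.MP_1a91b9_ntDV
open Pool.Agent.Lib.MP_1a91b9_ntW (OKw)

noncomputable section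

variable {L : Type} [Fintype L] [DecidableEq L] {ι : Type} [DecidableEq ι] {κ : Type} [Fintype κ]
  [DecidableEq κ] [PS ι]

private theorem Y3_small (δ K B ε : ℝ) (hδ : 0 < δ) (hK : 0 < K) (hB : 1 ≤ B) (hε : 0 < ε) :
    ∃ X₀ : ℕ, ∀ X : ℕ, X₀ ≤ X → K * X * Real.log X ^ (-δ) * B ^ δ ≤ ε * X := by
  have h1 : Filter.Tendsto (fun X : ℕ => Real.log (X : ℝ) ^ (-δ)) Filter.atTop (nhds 0) :=
    (tendsto_rpow_neg_atTop hδ).comp
      (Real.tendsto_log_atTop.comp tendsto_natCast_atTop_atTop)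
  have hP : 0 < K * B ^ δ := mul_pos hK (Real.rpow_pos_of_pos (by linarith) _)
  have h2 : ∀ᶠ X : ℕ in Filter.atTop, Real.log (X : ℝ) ^ (-δ) < ε / (K * B ^ δ) :=
    h1.eventually (gt_mem_nhds (div_pos hε hP))
  obtain ⟨X₀, h3⟩ := Filter.eventually_atTop.1 h2
  refine ⟨X₀, fun X hX => ?_⟩
  have h4 := h3 X hX
  rw [lt_div_iff₀ hP] at h4
  have h5 : K * X * Real.log X ^ (-δ) * B ^ δ = (Real.log (X : ℝ) ^ (-δ) * (K * B ^ δ)) * X := by
    ring
  rw [h5]
  exact mul_le_mul_of_nonneg_right h4.le (Nat.cast_nonneg X)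

private theorem Y3_one {x : ZMod 2} (h : x ≠ 0) : x = 1 := by
  have h1 : ∀ x : ZMod 2, x ≠ 0 → x = 1 := by decide
  exact h1 x h

private theorem Y3_eq {x y : ZMod 2} (h : x + y = 0) : x = y := by
  have h1 : ∀ x y : ZMod 2, x + y = 0 → x = y := by decide
  exact h1 x y h

private theorem Y3_n0 {Phi : L → L → ZMod 2} {n : L → ℝ} {M : ℕ} {Us : Finset (Finset L)} {P : Finset L}
    {Q : L → ZMod 2} (hW : WY Phi n M Us P Q) (x : L) : 0 ≤ n x :=
  le_trans (by positivity) (hW.ws.pos x)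

private theorem Y3_g0 {Phi : L → L → ZMod 2} {n : L → ℝ} {M : ℕ} {Us : Finset (Finset L)} {P : Finset L}
    {Q : L → ZMod 2} (hW : WY Phi n M Us P Q) (D : Dat2 ι κ) {w : κ → ZMod 2} (r : ι → ZMod 2)
    (c : L → κ → ZMod 2) {U : Finset L} (hU : U ∈ UY Us P) {q : ι} (hq : D.dg w q = 0) :
    ∑ x ∈ U, (LY D w r Phi n P Q c).g x q = ∑ x ∈ U, (n x : ℂ) * e2 (D.dg (c x) q) := by
  refine sum_congr rfl fun x hx => ?_
  rw [gY_zero D r Phi n P Q c hq, hW.q U (mem_UY.1 hU).1 (mem_UY.1 hU).2 x hx, mul_zero, zero_add]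

private theorem Y3_g1 {Phi : L → L → ZMod 2} {n : L → ℝ} {Us : Finset (Finset L)} {P : Finset L}
    {Q : L → ZMod 2} (D : Dat2 ι κ) {w : κ → ZMod 2} (r : ι → ZMod 2)
    (c : L → κ → ZMod 2) {U : Finset L} (hU : U ∈ UY Us P) {q : ι} (hq : D.dg w q ≠ 0) :
    ∑ x ∈ U, (LY D w r Phi n P Q c).g x q =
      ∑ x ∈ P, (((P.card : ℝ)⁻¹ : ℝ) : ℂ) * e2 (D.dg (c x) q) := by
  rw [← sum_subset (mem_UY.1 hU).2 fun x _ hx => gY_ne D r Phi n P Q c hq hx]
  exact sum_congr rfl fun x hx => gY_one D r Phi n P Q c hq hx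

private theorem Y3_card {Phi : L → L → ZMod 2} {n : L → ℝ} {M : ℕ} {Us : Finset (Finset L)} {P : Finset L}
    {Q : L → ZMod 2} (hW : WY Phi n M Us P Q) : (0 : ℝ) < P.card := by
  exact_mod_cast hW.ne.card_pos

private theorem Y3_nrm {Phi : L → L → ZMod 2} {n : L → ℝ} {M : ℕ} {Us : Finset (Finset L)} {P : Finset L}
    {Q : L → ZMod 2} (hW : WY Phi n M Us P Q) (D : Dat2 ι κ) {w : κ → ZMod 2} (r : ι → ZMod 2)
    (c : L → κ → ZMod 2) {U : Finset L} (hU : U ∈ UY Us P) (q : ι) :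
    ‖∑ x ∈ U, (LY D w r Phi n P Q c).g x q‖ ≤ 1 := by
  by_cases hq : D.dg w q = 0
  · rw [Y3_g0 hW D r c hU hq]
    refine (norm_sum_le _ _).trans (le_of_eq ?_)
    rw [← hW.ws.sum U (mem_UY.1 hU).1]
    refine sum_congr rfl fun x _ => ?_
    rw [norm_mul, norm_e2, mul_one, Complex.norm_real, Real.norm_of_nonneg (Y3_n0 hW x)]
  · rw [Y3_g1 D r c hU hq]
    refine (norm_sum_le _ _).trans (le_of_eq ?_)
    have hc := Y3_card hW
    have h1 : ∀ x ∈ P, ‖(((P.card : ℝ)⁻¹ : ℝ) : ℂ) * e2 (D.dg (c x) q)‖ = (P.card : ℝ)⁻¹ := by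
      intro x _
      rw [norm_mul, norm_e2, mul_one, Complex.norm_real, Real.norm_of_nonneg (inv_nonneg.2 hc.le)]
    rw [sum_congr rfl h1, sum_const, nsmul_eq_mul, mul_inv_cancel₀ hc.ne']

/-- **Y3** (medium). The mean values. Proof: this is `LWs_main` (MP_1a91b9_ntDV/W3.lean, PROVED, copy it with its private helpers)
with `LY D w r Phi n P Q c`, `n`, `M`, `2 * M`, `UY Us P`, `P`, `mY w P` in place of `LWs D w r k k' c`, `nP k k'`,
`MP k k'`, `MQ k k'`, `UsQ k k'`, `Sp k k'`, `mQ w`; any `x₀ ∈ P` (`hW.ne`) in place of `(none, none)`, `1 / #P` in place of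
`1 / 4`; `sum_nP` is `hW.ws.sum`, `W3_nP` is `hW.ws.pos`, `Qz_mem` is `hW.q`, `Sp_sub` is in `mem_UY`. In case 2 (some
`x ∈ P` with `c x = c x₀ + w`) `norm_wsum P` with `a = 1 / #P` gives for `D.dg w q ≠ 0` the bound `1 - 1 / #P ≤ 1 - 1 / M`
(`hW.card`), which is `((2 * M - 1) - 1) / (2 * M)`. -/
theorem LY_main {Phi : L → L → ZMod 2} {n : L → ℝ} {M : ℕ} {Us : Finset (Finset L)} {P : Finset L}
    {Q : L → ZMod 2} (hW : WY Phi n M Us P Q) {D : Dat2 ι κ} {w : κ → ZMod 2} (hD : OKw D w)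
    (r : ι → ZMod 2) (c : L → κ → ZMod 2) :
    ∀ U ∈ UY Us P, ∀ ε : ℝ, 0 < ε → ∃ X₀ : ℕ, ∀ X : ℕ, X₀ ≤ X →
      ‖∑ S ∈ Sx ι X, ∏ q ∈ S, ∑ x ∈ U, (LY D w r Phi n P Q c).g x q -
        mY w P c U * ((Sx ι X).card : ℂ)‖ ≤ ε * X := by
  classical
  intro U hU ε hε
  have hsum := hW.ws.sum U (mem_UY.1 hU).1
  have hM2' := hW.ws.two
  have hM8r : (2 : ℝ) ≤ (M : ℝ) := by exact_mod_cast hM2'
  have hMr0 : (0 : ℝ) < (M : ℝ) := by linarith
  obtain ⟨MQ, hMQ⟩ : ∃ MQ : ℕ, MQ = 2 * M := ⟨_, rfl⟩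
  have hMQr : (MQ : ℝ) = 2 * (M : ℝ) := by
    rw [hMQ]
    push_cast
    ring
  have hM2 : 2 ≤ MQ := by omega
  have hm0 : (0 : ℝ) < (MQ : ℝ) := by
    rw [hMQr]
    linarith
  obtain ⟨x₀, hx₀⟩ := hW.ne
  have hP0 := Y3_card hW
  have hPM : (P.card : ℝ) ≤ (M : ℝ) := by exact_mod_cast hW.card
  have h0U : x₀ ∈ U := (mem_UY.1 hU).2 hx₀
  have hend : ∀ (ψ : ι → ℝ) (B : ℝ), SumB ψ B → mY w P c U = 0 →
      (∀ q, ‖∑ x ∈ U, (LY D w r Phi n P Q c).g x q‖ ≤ (((MQ : ℝ) - 1) + ψ q) / (MQ : ℝ)) →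
      ∃ X₀ : ℕ, ∀ X : ℕ, X₀ ≤ X →
        ‖∑ S ∈ Sx ι X, ∏ q ∈ S, ∑ x ∈ U, (LY D w r Phi n P Q c).g x q -
          mY w P c U * ((Sx ι X).card : ℂ)‖ ≤ ε * X := by
    intro ψ B hS hmQ hH
    obtain ⟨C1, hC1⟩ := hD.an.cheb
    obtain ⟨C2, hC2⟩ := hD.an.zt
    obtain ⟨K, hK, hub⟩ := ub2 hC1 hC2 (MQ) hM2
    obtain ⟨X₀, hX₀⟩ := Y3_small (1 / (MQ : ℝ)) K B ε (by positivity) hK hS.hB hε
    refine ⟨max X₀ 2, fun X hX => ?_⟩
    rw [hmQ, zero_mul, sub_zero]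
    have h1 : ‖∑ S ∈ Sx ι X, ∏ q ∈ S, ∑ x ∈ U, (LY D w r Phi n P Q c).g x q‖ ≤
        ∑ S ∈ Sx ι X, ∏ q ∈ S, ‖∑ x ∈ U, (LY D w r Phi n P Q c).g x q‖ := by
      refine (norm_sum_le _ _).trans (sum_le_sum fun S _ => ?_)
      rw [norm_prod]
    have h2 := hub ψ _ hS (fun q => ‖∑ x ∈ U, (LY D w r Phi n P Q c).g x q‖)
      (fun q => ⟨norm_nonneg _, Y3_nrm hW D r c hU q, hH q⟩) X ((le_max_right _ _).trans hX)
    have h3 := hX₀ X ((le_max_left _ _).trans hX)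
    exact h1.trans (h2.trans h3)
  by_cases hB : ∃ l ∈ U, c l + c x₀ ≠ 0 ∧ c l + c x₀ ≠ w
  · obtain ⟨l, hl, hc0, hcw⟩ := hB
    have hl0 : l ≠ x₀ := by
      rintro rfl
      apply hc0
      funext j
      exact z2_add_self _
    have hmQ : mY w P c U = 0 := by
      unfold mY
      refine if_neg fun h => ?_
      have e0 := h.1 _ hx₀
      rw [e0, add_zero] at hc0 hcw
      rcases h.2 l hl with h1 | h1
      · exact hc0 h1
      · exact hcw h1
    obtain ⟨C, hC1, hC⟩ := Pool.Agent.Lib.MP_1a91b9_ntW.psiW_sumB hD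
    refine hend _ _ (hC ∅ (c l + c x₀) (Or.inr ⟨hc0, hcw⟩)) hmQ fun q => ?_
    by_cases hq0 : D.dg w q = 0
    · rw [Y3_g0 hW D r c hU hq0, Pool.Agent.Lib.MP_1a91b9_ntW.psiW_zero hq0]
      have hns := norm_wsum U n (Y3_n0 hW) (fun x => D.dg (c x) q)
        (a := 2 / (M : ℝ)) (by positivity) hl h0U hl0 (hW.ws.pos l) (hW.ws.pos _)
      have hsg : sg (D.dg (c l) q + D.dg (c x₀) q) =
          D.ch ∅ (c l + c x₀) q := by
        rw [Pool.Agent.Lib.MP_1a91b9_ntW.ch_empty, dg_add]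
      rw [hsg, hsum] at hns
      refine hns.trans (le_of_eq ?_)
      rw [hMQr]
      field_simp
      ring
    · rw [Pool.Agent.Lib.MP_1a91b9_ntW.psiW_one hq0]
      refine (Y3_nrm hW D r c hU q).trans (le_of_eq ?_)
      rw [sub_add_cancel, div_self hm0.ne']
  · push Not at hB
    by_cases hE : ∃ x ∈ P, c x ≠ c x₀
    · obtain ⟨x, hx, hxc⟩ := hE
      have hx0 : c x + c x₀ ≠ 0 := by
        intro h
        apply hxc
        funext j
        exact Y3_eq (congrFun h j)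
      have hxw : c x + c x₀ = w := hB x ((mem_UY.1 hU).2 hx) hx0
      have hne : x ≠ x₀ := fun e => hxc (by rw [e])
      have hmQ : mY w P c U = 0 := by
        unfold mY
        exact if_neg fun h => hxc ((h.1 x hx).trans (h.1 _ hx₀).symm)
      obtain ⟨C, hC⟩ := hD.cb
      refine hend _ _ (SumB.of (hC ∅ w (Or.inr hD.w0))) hmQ fun q => ?_
      rw [Pool.Agent.Lib.MP_1a91b9_ntW.ch_empty]
      by_cases hq0 : D.dg w q = 0
      · rw [hq0, sg2_zero]
        refine (Y3_nrm hW D r c hU q).trans (le_of_eq ?_)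
        rw [sub_add_cancel, div_self hm0.ne']
      · rw [Y3_g1 D r c hU hq0, Y3_one hq0, Pool.Agent.Lib.MP_1a91b9_ntQ.sg2_one]
        have hns := norm_wsum P (fun _ => (P.card : ℝ)⁻¹) (fun _ => inv_nonneg.2 hP0.le)
          (fun x => D.dg (c x) q) (a := (P.card : ℝ)⁻¹) (inv_nonneg.2 hP0.le) hx hx₀ hne le_rfl le_rfl
        have hsg : sg (D.dg (c x) q + D.dg (c x₀) q) = -1 := by
          rw [← dg_add, hxw, Y3_one hq0, Pool.Agent.Lib.MP_1a91b9_ntQ.sg2_one]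
        rw [hsg, sum_const, nsmul_eq_mul, mul_inv_cancel₀ hP0.ne'] at hns
        refine hns.trans ?_
        have h7 : (M : ℝ)⁻¹ ≤ (P.card : ℝ)⁻¹ := inv_anti₀ hP0 hPM
        have h8 : (((MQ : ℝ) - 1) + -1) / (MQ : ℝ) = 1 - (M : ℝ)⁻¹ := by
          rw [hMQr]
          field_simp
          ring
        rw [h8]
        linarith
    · push Not at hE
      have hg : ∀ q, ∑ x ∈ U, (LY D w r Phi n P Q c).g x q = e2 (D.ex1 ∅ (c x₀) q) := by
        intro q
        rw [ex1_empty]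
        by_cases hq0 : D.dg w q = 0
        · rw [Y3_g0 hW D r c hU hq0]
          have h1 : ∀ x ∈ U, (n x : ℂ) * e2 (D.dg (c x) q) =
              (n x : ℂ) * e2 (D.dg (c x₀) q) := by
            intro x hx
            by_cases h3 : c x + c x₀ = 0
            · have h4 : c x = c x₀ := by
                funext j
                exact Y3_eq (congrFun h3 j)
              rw [h4]
            · have h4 := hB x hx h3
              have h5 : D.dg (c x) q = D.dg (c x₀) q := by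
                refine Y3_eq ?_
                rw [← dg_add, h4, hq0]
              rw [h5]
          rw [sum_congr rfl h1, ← sum_mul, ← Complex.ofReal_sum, hsum, Complex.ofReal_one, one_mul]
        · rw [Y3_g1 D r c hU hq0]
          have h1 : ∀ x ∈ P, (((P.card : ℝ)⁻¹ : ℝ) : ℂ) * e2 (D.dg (c x) q) =
              (((P.card : ℝ)⁻¹ : ℝ) : ℂ) * e2 (D.dg (c x₀) q) := by
            intro x hx
            rw [hE x hx]
          rw [sum_congr rfl h1, sum_const, nsmul_eq_mul, ← mul_assoc]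
          have h9 : ((P.card : ℕ) : ℂ) * (((P.card : ℝ)⁻¹ : ℝ) : ℂ) = 1 := by
            have h10 : ((P.card : ℕ) : ℂ) = (((P.card : ℝ)) : ℂ) := by push_cast; rfl
            rw [h10, ← Complex.ofReal_mul, mul_inv_cancel₀ hP0.ne', Complex.ofReal_one]
          rw [h9, one_mul]
      simp only [hg]
      by_cases h0 : c x₀ = 0
      · have hmQ : mY w P c U = 1 := by
          unfold mY
          refine if_pos ⟨fun x hx => (hE x hx).trans h0, fun x hx => ?_⟩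
          by_cases h3 : c x = 0
          · exact Or.inl h3
          · have h4 := hB x hx (by rw [h0, add_zero]; exact h3)
            rw [h0, add_zero] at h4
            exact Or.inr h4
        refine ⟨0, fun X _ => ?_⟩
        simp only [h0, ex1_empty, dg_zero, e2_zero, prod_const_one, sum_const, nsmul_eq_mul,
          mul_one, hmQ, one_mul, sub_self, norm_zero]
        positivity
      · have hmQ : mY w P c U = 0 := by
          unfold mY
          exact if_neg fun h => h0 (h.1 _ hx₀)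
        obtain ⟨X₀, hX₀⟩ := hD.mz (c x₀) h0 ε hε
        refine ⟨X₀, fun X hX => ?_⟩
        have h1 := hX₀ X hX
        rw [filter_true_of_mem fun S _ => disjoint_empty_right S] at h1
        rw [hmQ, zero_mul, sub_zero]
        exact h1

end

end Pool.Agent.Lib.MP_1a91b9_ntMQ
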