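import Pool.Agent.Lib.MP_1a91b9_ntMQ.Y1
import Pool.Agent.Lib.MP_1a91b9_ntMQ.Y2
import Pool.Agent.Lib.MP_1a91b9_ntMQ.Y3

/-!
Y4: the hypotheses of the engine
-/

set_option autoImplicit false
set_option linter.unusedSectionVars false

namespace Pool.Agent.Lib.MP_1a91b9_ntMQ

open Finset Pool.Agent.Lib.MP_1a91b9_ntH Pool.Agent.Lib.MP_1a91b9_ntQ
open Pool.Agent.Lib.MP_1a91b9_ntQ.Da Pool.Agent.Lib.MP_1a91b9_ntV Pool.Agent.Lib.MP_1a91b9_ntM
open Pool.Agent.Lib.MP_1a91b9_ntDV
open Pool.Agent.Lib.MP_1a91b9_ntW (OKw)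

noncomputable section

variable {L : Type} [Fintype L] [DecidableEq L] {ι : Type} [DecidableEq ι] {κ : Type} [Fintype κ]
  [DecidableEq κ] [PS ι]

/-- **Y4** (easy+). Proof: as `LS_OK` (MP_1a91b9_ntMQ/G3.lean, PROVED) and `LWs_OK` (MP_1a91b9_ntDV/W4.lean, PROVED). `diag`:
`Phi1_self`; `os`: `Phi1_os`; `nrm`: for `D.dg w q = 0` the norm is `n x ≤ 1` (see `LS_OK`), otherwise at most `1 / #P ≤ 1`;
`two`; `unl`: `LY_lk`, `hW.ws.unl`, `mem_UY`; `er`: as in `LS_OK` (both sets in `Us` would have the sum `1`); `small`, `mid`,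
`main`: `LY_small`, `LY_mid`, `LY_main`. -/
theorem LY_OK {Phi : L → L → ZMod 2} {n : L → ℝ} {M : ℕ} {Us : Finset (Finset L)} {P : Finset L}
    {Q : L → ZMod 2} (hW : WY Phi n M Us P Q) {D : Dat2 ι κ} {w : κ → ZMod 2} (hD : OKw D w)
    (r : ι → ZMod 2) (c : L → κ → ZMod 2) :
    (LY D w r Phi n P Q c).OK D (2 * M) (UY Us P) (mY w P c) fun X => ((Sx ι X).card : ℂ) := by
  have hM : (0 : ℝ) < (M : ℝ) := by
    have := hW.ws.two
    positivity
  have hpos : ∀ x, 0 < n x := fun x => lt_of_lt_of_le (by positivity) (hW.ws.pos x)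
  have hlk : ∀ x y, (LY D w r Phi n P Q c).lk x y = Phi x y + Phi y x := fun x y => Phi1_lk Phi x y
  refine
    { diag := fun l => Phi1_self _ l
      os := fun l m => Phi1_os _ l m
      nrm := fun x q => ?_
      two := ?_
      unl := fun U hU x hx y hy => ?_
      er := fun U hU l hl h => ?_
      small := LY_small hW hD r c
      mid := LY_mid hW hD r c
      main := LY_main hW hD r c }
  · by_cases hq : D.dg w q = 0
    · rw [gY_zero D r Phi n P Q c hq, norm_mul, norm_e2, mul_one, Complex.norm_real, Real.norm_eq_abs,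
        abs_of_pos (hpos x)]
      by_cases hx : ({x} : Finset L) ∈ Us
      · have h1 := hW.ws.sum _ hx
        rw [sum_singleton] at h1
        exact h1.le
      · have h1 := hW.ws.small {x} (fun a ha b hb => by
          rw [mem_singleton] at ha hb
          rw [ha, hb, hW.ws.self, add_zero]) hx
        rw [sum_singleton] at h1
        have h2 : (0 : ℝ) < 1 / (M : ℝ) := by positivity
        linarith
    · by_cases hx : x ∈ P
      · have hP : (1 : ℝ) ≤ (P.card : ℝ) := by exact_mod_cast card_pos.2 hW.ne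
        rw [gY_one D r Phi n P Q c hq hx, norm_mul, norm_e2, mul_one, Complex.norm_real, Real.norm_eq_abs,
          abs_of_nonneg (by positivity)]
        exact inv_le_one_of_one_le₀ hP
      · rw [gY_ne D r Phi n P Q c hq hx, norm_zero]
        exact zero_le_one
  · have := hW.ws.two
    omega
  · rw [hlk]
    exact hW.ws.unl U (mem_UY.1 hU).1 x hx y hy
  · have h1 := hW.ws.sum U (mem_UY.1 hU).1
    have h2 := hW.ws.sum _ (mem_UY.1 h).1
    have h3 := add_sum_erase U n hl
    have h4 := hpos l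
    linarith

end

end Pool.Agent.Lib.MP_1a91b9_ntMQ
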