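import Pool.Agent.Lib.MP_1a91b9_ntMQ.Y0
import Pool.Agent.Lib.MP_1a91b9_ntMQ.K7

/-!
Y5: the label system of the families
-/

set_option autoImplicit false
set_option linter.unusedSectionVars false

namespace Pool.Agent.Lib.MP_1a91b9_ntMQ

open Finset Pool.Agent.Lib.MP_1a91b9_ntH Pool.Agent.Lib.MP_1a91b9_ntQ
open Pool.Agent.Lib.MP_1a91b9_ntQ.Da Pool.Agent.Lib.MP_1a91b9_ntV Pool.Agent.Lib.MP_1a91b9_ntM
open Pool.Agent.Lib.MP_1a91b9_ntDV

noncomputable section

variable {I A : Type} [Fintype I] [DecidableEq I] [Fintype A] [DecidableEq A] {k : A → ℕ}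
  {phi : A → I → ZMod 2}

/-- **Y5a** (easy). The labels `(w, 0)`. Proof: `w ↦ z0 phi k w` is a bijection from `univ` to `PY phi k` (`mem_PY`;
`Subtype.ext`, `Prod.ext`), and there are `2 ^ #I` colours (`Fintype.card_fun`, `ZMod.card`). -/
theorem card_PY : (PY phi k).card = 2 ^ Fintype.card I := by
  classical
  have h1 : PY phi k = (univ : Finset (I → ZMod 2)).image (z0 phi k) := by
    ext z
    rw [mem_PY, mem_image]
    constructor
    · intro h
      refine ⟨z.1.1, mem_univ _, Subtype.ext (Prod.ext rfl ?_)⟩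
      exact h.symm
    · rintro ⟨w, _, rfl⟩
      rfl
  have h2 : Function.Injective (z0 phi k) := by
    intro w v h
    have h3 := congrArg (fun z : Lb phi k => z.1.1) h
    exact h3
  rw [h1, card_image_of_injective _ h2, card_univ, Fintype.card_fun, ZMod.card]

private theorem Y5_z2 (x : ZMod 2) : x = 0 ∨ x = 1 := by
  revert x
  decide

private theorem Y5_one (hs : Sp phi) (a : A) : ∃ w, phi a ⬝ᵥ w = 1 := by
  classical
  obtain ⟨i, hi⟩ : ∃ i, phi a i ≠ 0 := by
    by_contra h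
    push Not at h
    exact hs.ne a (funext h)
  refine ⟨Pi.single i 1, ?_⟩
  rw [dotProduct_single, mul_one]
  have h1 : ∀ x : ZMod 2, x ≠ 0 → x = 1 := by decide
  exact h1 _ hi

/-- **Y5b** (easy+). Proof: `mem_UL`. From left to right: choose `w` with `phi a ⬝ᵥ w = 1` (`Sp.one`), then `z0 phi k w` is in the
set. From right to left: the components of `z ∈ PY` are `0`. -/
theorem PY_sub (hs : Sp phi) {V : ∀ a, Finset (Lab2 (k a))} :
    PY phi k ⊆ UL phi k V ↔ ∀ a, (0 : Lab2 (k a)) ∈ V a := by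
  constructor
  · intro h a
    obtain ⟨w, hw⟩ := Y5_one hs a
    have h1 := mem_UL.1 (h (z0_mem (phi := phi) (k := k) w)) a hw
    exact h1
  · intro h z hz
    rw [mem_UL]
    intro a _
    rw [mem_PY.1 hz]
    exact h a

/-- **Y5c** (easy+). Proof: `ws`: `WS_L hs` (K7); `ne`: `z0_mem 0`; `card`: `card_PY` and `2 ^ #I ≤ ML I k` (`Nat.pow_le_pow_right`);
`q`: `mem_UsL`: `U = UL phi k V` with all `V a ∈ UsN (k a)`, by `PY_sub` `0 ∈ V a`; for `z ∈ U` every term of `QY phi k z` is zero: if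
`phi a ⬝ᵥ z.1.1 = 1` then `z.1.2 a` and `0` are in `V a`, which is `Unl2`, so `Q2 (z.1.2 a - 0) = 0` (`z2` for the coefficient). -/
theorem WY_L (hs : Sp phi) : WY (PL phi k) nL (ML I k) (UsL phi k) (PY phi k) (QY phi k) := by
  refine ⟨WS_L hs, ⟨z0 phi k 0, z0_mem 0⟩, ?_, ?_⟩
  · rw [card_PY]
    unfold ML
    exact Nat.pow_le_pow_right (by norm_num) (by omega)
  · intro U hU hPU z hz
    obtain ⟨V, hV, rfl⟩ := mem_UsL.1 hU
    have h0 := (PY_sub hs).1 hPU
    unfold QY
    refine sum_eq_zero fun a _ => ?_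
    rcases Y5_z2 (phi a ⬝ᵥ z.1.1) with h1 | h1
    · rw [h1, zero_mul]
    · have h2 := mem_UL.1 hz a h1
      have h3 := (mem_UsN.1 (hV a)).1.Q (h0 a) h2
      rw [h3, mul_zero]

end

end Pool.Agent.Lib.MP_1a91b9_ntMQ
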