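import Pool.Agent.Lib.MP_1a91b9_ntMQ.A4
import Pool.Agent.Lib.MP_1a91b9_ntMQ.Y5

/-!
Y6: the mean value over the families of subsets is a sum over labellings
-/

set_option autoImplicit false
set_option linter.unusedSectionVars false

namespace Pool.Agent.Lib.MP_1a91b9_ntMQ

open Finset Pool.Agent.Lib.MP_1a91b9_ntH Pool.Agent.Lib.MP_1a91b9_ntQ
open Pool.Agent.Lib.MP_1a91b9_ntQ.Da Pool.Agent.Lib.MP_1a91b9_ntV Pool.Agent.Lib.MP_1a91b9_ntM
open Pool.Agent.Lib.MP_1a91b9_ntDV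
open Pool.Agent.Lib.MP_1a91b9_ntW (OKw gW)

noncomputable section

variable {I A : Type} [Fintype I] [DecidableEq I] [Fintype A] [DecidableEq A] {k : A → ℕ}
  {ι : Type} [DecidableEq ι] {κ : Type} [Fintype κ]

private theorem Y6_fsum {B : Type} (D : Dat2 ι κ) (s : Finset B) (c : B → κ → ZMod 2) (q : ι) :
    D.dg (∑ x ∈ s, c x) q = ∑ x ∈ s, D.dg (c x) q := by
  classical
  induction s using Finset.induction_on with
  | empty => rw [sum_empty, sum_empty, dg_zero]
  | insert x s hx ih => rw [sum_insert hx, sum_insert hx, dg_add, ih]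

private theorem Y6_cz (D : Dat2 ι κ) (phi : A → I → ZMod 2) (cc : ∀ a, Lab2 (k a) → κ → ZMod 2)
    (b : I → κ → ZMod 2) (z : Lb phi k) (q : ι) : D.dg (cz cc b z) q =
      ∑ a, (phi a ⬝ᵥ z.1.1) * D.dg (cc a (z.1.2 a)) q + D.dg (∑ i, z.1.1 i • b i) q := by
  unfold cz
  rw [dg_add, Y6_fsum]
  congr 1
  exact sum_congr rfl fun a _ => dg_smul D _ _ q

/-- **Y6a** (easy+). The weight of a label. Proof: if `D.dg w q = 0` the factor `gw D w r (cc a) l q` is
`(2 ^ k a)⁻¹ * e2 (r q * Q2 l + D.dg (cc a l) q)` (`gw`, `gW`), and as in `avI_FB` (A4.lean, PROVED) the product is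
`(nL z : ℂ) * e2 (r q * QY phi k z + D.dg (cz cc b z) q)` (`e2_sum`, `e2_add`, the coefficients `phi a ⬝ᵥ z.1.1` are `0` or `1`, `z2`;
`dg_add`, `dg_smul`, `dg_fsum`). If `D.dg w q ≠ 0` the factor is `e2 (D.dg (cc a 0) q)` for `l = 0` and `0` otherwise: if
`z.1.2 = 0` the product is `(2 ^ #I)⁻¹ * e2 (D.dg (cz cc b z) q)` (`card_PY`), otherwise some `z.1.2 a ≠ 0`, so
`phi a ⬝ᵥ z.1.1 = 1` by `z.2` and `z2`, and the product is `0`. -/
theorem gY_prod (D : Dat2 ι κ) (w : κ → ZMod 2) (r : ι → ZMod 2) (phi : A → I → ZMod 2)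
    (cc : ∀ a, Lab2 (k a) → κ → ZMod 2) (b : I → κ → ZMod 2) (z : Lb phi k) (q : ι) :
    ((2 : ℂ) ^ Fintype.card I)⁻¹ * e2 (D.dg (∑ i, z.1.1 i • b i) q) *
        ∏ a, (if phi a ⬝ᵥ z.1.1 = 1 then gw D w r (cc a) (z.1.2 a) q else 1) =
      gY D w r nL (PY phi k) (QY phi k) (cz cc b) z q := by
  classical
  by_cases hq : D.dg w q = 0
  · have h2 : (∏ a, if phi a ⬝ᵥ z.1.1 = 1 then gw D w r (cc a) (z.1.2 a) q else 1) =
        (∏ a, if phi a ⬝ᵥ z.1.1 = 1 then ((2 : ℂ) ^ k a)⁻¹ else 1) *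
          e2 (∑ a, (phi a ⬝ᵥ z.1.1) * (r q * Q2 (z.1.2 a) + D.dg (cc a (z.1.2 a)) q)) := by
      rw [e2_sum, ← prod_mul_distrib]
      refine prod_congr rfl fun a _ => ?_
      rcases z2 (phi a ⬝ᵥ z.1.1) with h | h
      · rw [h, if_neg (by decide), if_neg (by decide), zero_mul, e2_zero, mul_one]
      · rw [h, if_pos rfl, if_pos rfl, one_mul]
        show (1 : ℂ) * (if D.dg w q = 0 then ((2 : ℂ) ^ k a)⁻¹ * e2 (r q * Q2 (z.1.2 a) +
          D.dg (cc a (z.1.2 a)) q) else if z.1.2 a = 0 then e2 (D.dg (cc a 0) q) else 0) = _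
        rw [if_pos hq, one_mul]
    have h3 : ((nL z : ℝ) : ℂ) = ((2 : ℂ) ^ Fintype.card I)⁻¹ *
        ∏ a, if phi a ⬝ᵥ z.1.1 = 1 then ((2 : ℂ) ^ k a)⁻¹ else 1 := by
      unfold nL
      rw [Complex.ofReal_mul, Complex.ofReal_prod]
      congr 1
      · push_cast
        rfl
      · refine prod_congr rfl fun a _ => ?_
        split_ifs
        · push_cast
          rfl
        · exact Complex.ofReal_one
    have h4 : ∑ a, (phi a ⬝ᵥ z.1.1) * (r q * Q2 (z.1.2 a) + D.dg (cc a (z.1.2 a)) q) =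
        r q * QY phi k z + ∑ a, (phi a ⬝ᵥ z.1.1) * D.dg (cc a (z.1.2 a)) q := by
      unfold QY
      rw [mul_sum, ← sum_add_distrib]
      exact sum_congr rfl fun a _ => by ring
    have h5 : gY D w r nL (PY phi k) (QY phi k) (cz cc b) z q =
        ((nL z : ℝ) : ℂ) * e2 (r q * QY phi k z + D.dg (cz cc b z) q) := by
      unfold gY
      rw [if_pos hq]
    rw [h5, h2, h3, h4, Y6_cz, ← add_assoc, e2_add (r q * QY phi k z + _)]
    ring
  · have h0 : ∀ a, gw D w r (cc a) (z.1.2 a) q = if z.1.2 a = 0 then e2 (D.dg (cc a 0) q) else 0 := by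
      intro a
      show (1 : ℂ) * (if D.dg w q = 0 then ((2 : ℂ) ^ k a)⁻¹ * e2 (r q * Q2 (z.1.2 a) +
          D.dg (cc a (z.1.2 a)) q) else if z.1.2 a = 0 then e2 (D.dg (cc a 0) q) else 0) = _
      rw [if_neg hq, one_mul]
    by_cases hz : z.1.2 = 0
    · have hza : ∀ a, z.1.2 a = 0 := fun a => congrFun hz a
      have h2 : (∏ a, if phi a ⬝ᵥ z.1.1 = 1 then gw D w r (cc a) (z.1.2 a) q else 1) =
          e2 (∑ a, (phi a ⬝ᵥ z.1.1) * D.dg (cc a (z.1.2 a)) q) := by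
        rw [e2_sum]
        refine prod_congr rfl fun a _ => ?_
        rcases z2 (phi a ⬝ᵥ z.1.1) with h | h
        · rw [h, if_neg (by decide), zero_mul, e2_zero]
        · rw [h, if_pos rfl, one_mul, h0, if_pos (hza a), hza a]
      have h5 : gY D w r nL (PY phi k) (QY phi k) (cz cc b) z q =
          ((((PY phi k).card : ℝ)⁻¹ : ℝ) : ℂ) * e2 (D.dg (cz cc b z) q) := by
        unfold gY
        rw [if_neg hq, if_pos (mem_PY.2 hz)]
      have h6 : ((((PY phi k).card : ℝ)⁻¹ : ℝ) : ℂ) = ((2 : ℂ) ^ Fintype.card I)⁻¹ := by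
        rw [card_PY]
        push_cast
        rfl
      rw [h5, h6, h2, Y6_cz, e2_add]
      ring
    · obtain ⟨a, ha⟩ := Function.ne_iff.1 hz
      have hph : phi a ⬝ᵥ z.1.1 = 1 := (z2 _).resolve_left fun h => ha (z.2 a h)
      have h2 : (∏ a, if phi a ⬝ᵥ z.1.1 = 1 then gw D w r (cc a) (z.1.2 a) q else 1) = 0 := by
        refine prod_eq_zero (mem_univ a) ?_
        rw [if_pos hph, h0]
        exact if_neg ha
      have h5 : gY D w r nL (PY phi k) (QY phi k) (cz cc b) z q = 0 := by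
        unfold gY
        rw [if_neg hq, if_neg fun h => hz (mem_PY.1 h)]
      rw [h5, h2, mul_zero]

/-- **Y6b** (easy+). Proof: as `avI_FB` (A4.lean, PROVED, copy it): `sum_col`, `chI_cf`, `BF_prod` with `g a = gw D w r (cc a)`, the sum over
all `y : S → Lb phi k` by the colours, and `gY_prod` for every `j : S`. -/
theorem avI_FY (D : Dat2 ι κ) (w : κ → ZMod 2) (r : ι → ZMod 2) (phi : A → I → ZMod 2)
    (cc : ∀ a, Lab2 (k a) → κ → ZMod 2) (b : I → κ → ZMod 2) (S : Finset ι) :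
    avI (FY D w r phi k cc b) S =
      BF D (PL phi k) (gY D w r nL (PY phi k) (QY phi k) (cz cc b)) S := by
  classical
  unfold avI
  rw [sum_col]
  have h1 : ∀ f : S → I → ZMod 2, FY D w r phi k cc b (colF S f) =
      ∑ y : S → Lb phi k, if (fun j => (y j).1.1) = f then
        e2 (∑ j : S, D.dg (∑ i, f j i • b i) j) *
          ((∏ j : S, ∏ a, if phi a ⬝ᵥ f j = 1 then gw D w r (cc a) ((y j).1.2 a) j else 1) *
            e2 (∑ j : S, ∑ l : S, PL phi k (y j) (y l) * D.s j l)) else 0 := by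
    intro f
    unfold FY
    rw [chI_cf, BF_prod D phi (fun a => gw D w r (cc a)) S f, sum_filter, mul_sum]
    refine sum_congr rfl fun y _ => ?_
    by_cases h : ∀ j, (y j).1.1 = f j
    · rw [if_pos h, if_pos (funext h)]
    · rw [if_neg h, if_neg (fun e => h fun j => congrFun e j), mul_zero]
  rw [sum_congr rfl fun f _ => h1 f, sum_comm]
  unfold BF
  rw [sum_div]
  refine sum_congr rfl fun y _ => ?_
  rw [sum_ite_eq, if_pos (mem_univ _)]
  have h2 : (2 : ℂ) ^ (Fintype.card I * S.card) = ∏ _j : S, (2 : ℂ) ^ Fintype.card I := by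
    rw [prod_const, card_univ, Fintype.card_coe, ← pow_mul]
  rw [h2, e2_sum, ← mul_assoc, mul_div_right_comm, ← prod_mul_distrib, ← prod_div_distrib]
  congr 1
  refine prod_congr rfl fun j _ => ?_
  rw [← gY_prod D w r phi cc b (y j) j]
  ring

end

end Pool.Agent.Lib.MP_1a91b9_ntMQ
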