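import Pool.Agent.Lib.MP_1a91b9_ntMQ.A5
import Pool.Agent.Lib.MP_1a91b9_ntMQ.Y4
import Pool.Agent.Lib.MP_1a91b9_ntMQ.Y6

/-!
Y7: the first moment
-/

set_option autoImplicit false
set_option linter.unusedSectionVars false

namespace Pool.Agent.Lib.MP_1a91b9_ntMQ

open Finset Pool.Agent.Lib.MP_1a91b9_ntH Pool.Agent.Lib.MP_1a91b9_ntQ
open Pool.Agent.Lib.MP_1a91b9_ntQ.Da Pool.Agent.Lib.MP_1a91b9_ntV Pool.Agent.Lib.MP_1a91b9_ntM
open Pool.Agent.Lib.MP_1a91b9_ntDV
open Pool.Agent.Lib.MP_1a91b9_ntW (OKw gW)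

noncomputable section

variable {I A : Type} [Fintype I] [DecidableEq I] [Fintype A] [DecidableEq A] {k : A → ℕ}
  {phi : A → I → ZMod 2} {ι : Type} [DecidableEq ι] {κ : Type} [Fintype κ] [DecidableEq κ]

/-- **Y7a** (easy+). After the reciprocity law. Proof: as `avI_LS` (A5.lean, PROVED): `avI_FY`, `BF_one D tw (PL phi k) PL_self`
(MP_1a91b9_ntDV/E3.lean), and `gY D w r n P Q c z q * e2 (ce z * D.dg w q) = gY D w r n P Q (fun z => c z + ce z • w) z q` (three cases;
`dg_add`, `dg_smul`, `e2_add`). -/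
theorem avI_LY (D : Dat2 ι κ) {w : κ → ZMod 2}
    (tw : ∀ p q, p ≠ q → D.s p q + D.s q p = D.dg w p * D.dg w q) (r : ι → ZMod 2)
    (cc : ∀ a, Lab2 (k a) → κ → ZMod 2) (b : I → κ → ZMod 2) (S : Finset ι) :
    avI (FY D w r phi k cc b) S = ∑ ce : Lb phi k → ZMod 2, Fh (PL phi k) ce *
      ∑ f : S → Lb phi k,
        (∏ j : S, (LY D w r (PL phi k) nL (PY phi k) (QY phi k)
          (fun z => cz cc b z + ce z • w)).g (f j) j) *
        e2 (∑ j : S, ∑ l : S, (LY D w r (PL phi k) nL (PY phi k) (QY phi k)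
          (fun z => cz cc b z + ce z • w)).Phi (f j) (f l) * D.s j l) := by
  classical
  rw [avI_FY]
  refine (BF_one D tw (PL phi k) PL_self _ S).trans (sum_congr rfl fun ce _ => ?_)
  congr 1
  unfold BF
  refine sum_congr rfl fun f _ => ?_
  congr 1
  refine prod_congr rfl fun j _ => ?_
  show gY D w r nL (PY phi k) (QY phi k) (cz cc b) (f j) j * e2 (ce (f j) * D.dg w j) =
    gY D w r nL (PY phi k) (QY phi k) (fun z => cz cc b z + ce z • w) (f j) j
  unfold gY
  split_ifs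
  · rw [dg_add, dg_smul, ← add_assoc, e2_add _ (ce (f j) * D.dg w j)]
    ring
  · rw [dg_add, dg_smul, e2_add _ (ce (f j) * D.dg w j)]
    ring
  · rw [zero_mul]

omit [Fintype κ] [DecidableEq κ] in
private theorem Y7_two {w : κ → ZMod 2} (x : κ → ZMod 2) (e : ZMod 2) :
    (x + e • w = 0 ∨ x + e • w = w) ↔ (x = 0 ∨ x = w) := by
  have hw : w + w = 0 := by
    funext j
    exact z2_add_self _
  have hx : x + w = 0 ↔ x = w := by
    constructor
    · intro h
      have h2 : x + w + w = w := by rw [h, zero_add]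
      rwa [add_assoc, hw, add_zero] at h2
    · rintro rfl
      exact hw
  have hx2 : x + w = w ↔ x = 0 := add_eq_right
  have he : e = 0 ∨ e = 1 := by
    revert e
    decide
  rcases he with rfl | rfl
  · rw [zero_smul, add_zero]
  · rw [one_smul, hx, hx2]
    exact or_comm

/-- **Y7b** (easy+). The value. Proof: as in `sum_mQ` (MP_1a91b9_ntDV/W4.lean, PROVED): exchange the sums over `ce` and `U`;
`c z + ce z • w ∈ {0, w}` if and only if `c z ∈ {0, w}`, so for every `U` the sum over `ce` is `sum_Fh (PL phi k) (PY phi k)`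
(the exponents are zero on `PY phi k ⊆ U ∈ UsL phi k`, `PL_unl`) times the indicator of the second condition. -/
theorem sum_mY {w : κ → ZMod 2} (cc : ∀ a, Lab2 (k a) → κ → ZMod 2) (b : I → κ → ZMod 2) :
    ∑ ce : Lb phi k → ZMod 2, Fh (PL phi k) ce *
      ∑ U ∈ UY (UsL phi k) (PY phi k), mY w (PY phi k) (fun z => cz cc b z + ce z • w) U =
      vY phi k w cc b := by
  classical
  simp only [mul_sum]
  rw [sum_comm]
  unfold vY
  refine sum_congr rfl fun U hU => ?_
  obtain ⟨hU1, hU2⟩ := mem_UY.1 hU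
  by_cases hQ : ∀ x ∈ U, cz cc b x = 0 ∨ cz cc b x = w
  · have h2 : mY w (PY phi k) (cz cc b) U = if ∀ x ∈ PY phi k, cz cc b x = 0 then (1 : ℂ) else 0 := by
      by_cases h : ∀ x ∈ PY phi k, cz cc b x = 0
      · rw [if_pos h]
        exact if_pos ⟨h, hQ⟩
      · rw [if_neg h]
        exact if_neg fun h3 => h h3.1
    rw [h2]
    refine Eq.trans (sum_congr rfl fun ce _ => ?_)
      (sum_Fh (PL phi k) (PY phi k) (fun a ha c hc => PL_unl hU1 a (hU2 ha) c (hU2 hc)) w
        fun x => cz cc b x)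
    refine congrArg (fun t => Fh (PL phi k) ce * t) ?_
    by_cases h : ∀ x ∈ PY phi k, cz cc b x + ce x • w = 0
    · rw [if_pos h]
      exact if_pos ⟨h, fun x hx => (Y7_two _ _).2 (hQ x hx)⟩
    · rw [if_neg h]
      exact if_neg fun h3 => h h3.1
  · have h2 : mY w (PY phi k) (cz cc b) U = 0 := if_neg fun h => hQ h.2
    rw [h2]
    refine sum_eq_zero fun ce _ => ?_
    have h3 : mY w (PY phi k) (fun z => cz cc b z + ce z • w) U = 0 :=
      if_neg fun h => hQ fun x hx => (Y7_two _ (ce x)).1 (h.2 x hx)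
    rw [h3, mul_zero]

variable [PS ι]

/-- **Y7c** (easy+). THE FIRST MOMENT. Proof: as `MVI_FB` (A5.lean, PROVED): `avI_LY`, `engineG D hD.toOKt.an _ (LY_OK (WY_L hs) hD r _)`
for every `ce`, the triangle inequality, and `sum_mY`. -/
theorem MVI_FY (hs : Sp phi) {D : Dat2 ι κ} {w : κ → ZMod 2} (hD : OKw D w) (r : ι → ZMod 2)
    (cc : ∀ a, Lab2 (k a) → κ → ZMod 2) (b : I → κ → ZMod 2) :
    MVI (FY D w r phi k cc b) (vY phi k w cc b) := by
  intro ε hε
  have hN : (0 : ℝ) < 1 + ∑ ce : Lb phi k → ZMod 2, ‖Fh (PL phi k) ce‖ :=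
    add_pos_of_pos_of_nonneg one_pos (sum_nonneg fun _ _ => norm_nonneg _)
  have hε0 : 0 < ε / (1 + ∑ ce : Lb phi k → ZMod 2, ‖Fh (PL phi k) ce‖) := div_pos hε hN
  choose X0 h0 using fun ce : Lb phi k → ZMod 2 =>
    engineG D hD.toOKt.an (LY D w r (PL phi k) nL (PY phi k) (QY phi k) (fun z => cz cc b z + ce z • w))
      (LY_OK (WY_L hs) hD r (fun z => cz cc b z + ce z • w)) _ hε0
  refine ⟨∑ p, X0 p, fun X hX => ?_⟩
  have hXt : ∀ p, X0 p ≤ X := fun p =>
    (single_le_sum (fun _ _ => Nat.zero_le _) (mem_univ p)).trans hX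
  rw [sum_congr rfl fun S _ => avI_LY D hD.toOKt.tw r cc b S, ← sum_mY cc b, sum_comm, sum_mul,
    ← sum_sub_distrib]
  have hX0 : (0 : ℝ) ≤ X := Nat.cast_nonneg X
  calc _ ≤ ∑ p : Lb phi k → ZMod 2, ‖Fh (PL phi k) p‖ *
        (ε / (1 + ∑ ce : Lb phi k → ZMod 2, ‖Fh (PL phi k) ce‖) * X) := by
        refine (norm_sum_le _ _).trans (sum_le_sum fun p _ => ?_)
        have h2 := h0 p X (hXt p)
        rw [← mul_sum, mul_assoc, ← mul_sub, norm_mul]
        exact mul_le_mul_of_nonneg_left h2 (norm_nonneg _)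
    _ = (∑ p : Lb phi k → ZMod 2, ‖Fh (PL phi k) p‖) /
        (1 + ∑ ce : Lb phi k → ZMod 2, ‖Fh (PL phi k) ce‖) * (ε * X) := by
        rw [← sum_mul]
        ring
    _ ≤ 1 * (ε * X) := by
        refine mul_le_mul_of_nonneg_right ?_ (mul_nonneg hε.le hX0)
        rw [div_le_one hN]
        linarith
    _ = ε * X := one_mul _

end

end Pool.Agent.Lib.MP_1a91b9_ntMQ
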