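import Pool.Agent.Lib.MP_1a91b9_ntMQ.V0
import Pool.Agent.Lib.MP_1a91b9_ntMQ.Y5

/-!
Y8: the value of the first moment
-/

set_option autoImplicit false
set_option linter.unusedSectionVars false

namespace Pool.Agent.Lib.MP_1a91b9_ntMQ

open Finset Pool.Agent.Lib.MP_1a91b9_ntH Pool.Agent.Lib.MP_1a91b9_ntQ
open Pool.Agent.Lib.MP_1a91b9_ntQ.Da Pool.Agent.Lib.MP_1a91b9_ntV Pool.Agent.Lib.MP_1a91b9_ntM
open Pool.Agent.Lib.MP_1a91b9_ntDV

noncomputable section

variable {I A : Type} [Fintype I] [DecidableEq I] [Fintype A] [DecidableEq A] {k : A → ℕ}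
  {phi : A → I → ZMod 2} {κ : Type} [Fintype κ]

private theorem Y8_z2 (x : ZMod 2) : x = 0 ∨ x = 1 := by
  revert x
  decide

private theorem Y8_aa (x : κ → ZMod 2) : x + x = 0 := by
  funext i
  rw [Pi.add_apply, Pi.zero_apply]
  exact CharTwo.add_self_eq_zero _

private theorem Y8_eq {x y : κ → ZMod 2} (h : x + y = 0) : y = x := by
  have h1 := congrArg (fun t => x + t) h
  simp only [← add_assoc, Y8_aa, zero_add, add_zero] at h1
  exact h1

private theorem Y8_cz (cc : ∀ a, Lab2 (k a) → κ → ZMod 2) (b : I → κ → ZMod 2) (w : I → ZMod 2) (v : LabP k) :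
    cz cc b (mk phi k w v) = ∑ a, (phi a ⬝ᵥ w) • cc a (v a) + ∑ i, w i • b i := by
  show ∑ a, (phi a ⬝ᵥ w) • cc a ((phi a ⬝ᵥ w) • v a) + ∑ i, w i • b i = _
  congr 1
  refine sum_congr rfl fun a _ => ?_
  rcases Y8_z2 (phi a ⬝ᵥ w) with h | h
  · rw [h, zero_smul, zero_smul]
  · rw [h, one_smul, one_smul, one_smul]

private theorem Y8_cz0 (cc : ∀ a, Lab2 (k a) → κ → ZMod 2) (b : I → κ → ZMod 2) (w : I → ZMod 2) :
    cz cc b (z0 phi k w) = ∑ a, (phi a ⬝ᵥ w) • cc a 0 + ∑ i, w i • b i := rfl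

private theorem Y8_sum (cc : ∀ a, Lab2 (k a) → κ → ZMod 2) {b : I → κ → ZMod 2}
    (hb : ∀ i, b i = ∑ a, phi a i • cc a 0) (z : Lb phi k) :
    cz cc b z = ∑ a, (phi a ⬝ᵥ z.1.1) • (cc a (z.1.2 a) + cc a 0) := by
  have h4 : ∑ i, z.1.1 i • b i = ∑ a, (phi a ⬝ᵥ z.1.1) • cc a 0 := by
    rw [sum_congr rfl fun i _ => by rw [hb i, smul_sum], sum_comm]
    refine sum_congr rfl fun a _ => ?_
    rw [dotProduct, sum_smul]
    refine sum_congr rfl fun i _ => ?_
    rw [smul_smul, mul_comm]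
  unfold cz
  rw [h4, ← sum_add_distrib]
  exact sum_congr rfl fun a _ => (smul_add _ _ _).symm

/-- The condition on the class vectors. -/
def okV (phi : A → I → ZMod 2) (w : κ → ZMod 2) (cc : ∀ a, Lab2 (k a) → κ → ZMod 2)
    (b : I → κ → ZMod 2) (V : ∀ a, Finset (Lab2 (k a))) : Prop :=
  (∀ i, b i = ∑ a, phi a i • cc a 0) ∧ ∀ a, ∀ l ∈ V a, cc a l + cc a 0 = 0 ∨ cc a l + cc a 0 = w

/-- **Y8a** (medium-). Proof. From left to right: for `z0 phi k (Pi.single i 1)` the class vector is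
`∑ a, phi a i • cc a 0 + b i = 0`, this is the first condition. For `l ∈ V a` choose `w'` with `phi a ⬝ᵥ w' = 1` (`Sp.one`) and
`z = mk phi k w' (Function.update 0 a l)` (in `UL phi k V` because `0 ∈ V b` for all `b`); `cz cc b z + cz cc b (z0 phi k w') =
cc a l + cc a 0` (all the terms of `b ≠ a` and the terms `b i` cancel, `z2_add_self`), `cz cc b (z0 ..) = 0` and `cz cc b z ∈ {0, w}`.
From right to left: for any `z ∈ UL phi k V` the first condition gives `∑ i, z.1.1 i • b i = ∑ a, (phi a ⬝ᵥ z.1.1) • cc a 0`, so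
`cz cc b z = ∑ a, (phi a ⬝ᵥ z.1.1) • (cc a (z.1.2 a) + cc a 0)`, a sum of elements of `{0, w}` (induction over the finite set; a sum of
two elements of `{0, w}` is in `{0, w}`); for `z ∈ PY` all the terms are `0`. -/
theorem okV_iff (hs : Sp phi) (w : κ → ZMod 2) (cc : ∀ a, Lab2 (k a) → κ → ZMod 2)
    (b : I → κ → ZMod 2) {V : ∀ a, Finset (Lab2 (k a))} (hV : ∀ a, (0 : Lab2 (k a)) ∈ V a) :
    ((∀ z ∈ PY phi k, cz cc b z = 0) ∧ ∀ z ∈ UL phi k V, cz cc b z = 0 ∨ cz cc b z = w) ↔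
      okV phi w cc b V := by
  constructor
  · rintro ⟨H1, H2⟩
    refine ⟨fun i => ?_, fun a l hl => ?_⟩
    · have h1 := H1 _ (z0_mem (phi := phi) (k := k) (Pi.single i 1))
      rw [Y8_cz0] at h1
      have h3 : ∑ j, (Pi.single i 1 : I → ZMod 2) j • b j = b i := by
        rw [sum_eq_single i]
        · rw [Pi.single_eq_same, one_smul]
        · intro j _ hj
          rw [Pi.single_eq_of_ne hj, zero_smul]
        · intro h
          exact absurd (mem_univ i) h
      rw [h3] at h1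
      have h4 := Y8_eq h1
      rw [h4]
      refine sum_congr rfl fun a _ => ?_
      rw [dotProduct_single, mul_one]
    · obtain ⟨w', hw'⟩ := hs.one a
      have hmem : mk phi k w' (Function.update 0 a l) ∈ UL phi k V := by
        refine mem_UL.2 fun a' h => ?_
        have h1 : phi a' ⬝ᵥ w' = 1 := h
        show (phi a' ⬝ᵥ w') • (Function.update (0 : LabP k) a l) a' ∈ V a'
        rw [h1, one_smul]
        by_cases e : a' = a
        · subst e
          rw [Function.update_self]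
          exact hl
        · rw [Function.update_of_ne e]
          exact hV a'
      have h0 := H1 _ (z0_mem (phi := phi) (k := k) w')
      rw [Y8_cz0] at h0
      have h1 := H2 _ hmem
      have h2 : cz cc b (mk phi k w' (Function.update 0 a l)) = cc a l + cc a 0 := by
        rw [Y8_cz, Y8_eq h0,
          ← add_sum_erase univ (fun a' => (phi a' ⬝ᵥ w') • cc a' (Function.update (0 : LabP k) a l a')) (mem_univ a),
          ← add_sum_erase univ (fun a' => (phi a' ⬝ᵥ w') • cc a' 0) (mem_univ a)]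
        have h5 : ∑ a' ∈ univ.erase a, (phi a' ⬝ᵥ w') • cc a' (Function.update (0 : LabP k) a l a') =
            ∑ a' ∈ univ.erase a, (phi a' ⬝ᵥ w') • cc a' 0 := by
          refine sum_congr rfl fun a' ha' => ?_
          rw [Function.update_of_ne (ne_of_mem_erase ha')]
          rfl
        rw [h5]
        simp only [hw', one_smul, Function.update_self]
        rw [add_add_add_comm, Y8_aa, add_zero]
      rw [h2] at h1
      exact h1
  · rintro ⟨hb, hc⟩
    refine ⟨fun z hz => ?_, fun z hz => ?_⟩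
    · rw [Y8_sum cc hb z]
      refine sum_eq_zero fun a _ => ?_
      rw [mem_PY.1 hz]
      show _ • (cc a 0 + cc a 0) = 0
      rw [Y8_aa, smul_zero]
    · rw [Y8_sum cc hb z]
      refine sum_induction _ (fun x => x = 0 ∨ x = w) ?_ (Or.inl rfl) fun a _ => ?_
      · rintro x y (rfl | rfl) (rfl | rfl)
        · exact Or.inl (add_zero 0)
        · exact Or.inr (zero_add _)
        · exact Or.inr (add_zero _)
        · exact Or.inl (Y8_aa _)
      · rcases Y8_z2 (phi a ⬝ᵥ z.1.1) with h | h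
        · rw [h, zero_smul]
          exact Or.inl rfl
        · rw [h, one_smul]
          exact hc a _ (mem_UL.1 hz a h)

open Classical in
/-- **Y8b** (easy+). Proof: `UY (UsL phi k) (PY phi k)` is the image of `Fintype.piFinset fun a => Lgs2 (k a)` under `UL phi k`
(`mem_UY`, `mem_UsL`, `PY_sub hs`; `V a ∈ Lgs2` if and only if `V a ∈ UsN` and `0 ∈ V a`: `mem_Lgs2`, `mem_UsN`), `UL phi k` is
injective there (`UL_inj hs`, V0.lean), `sum_image`, and `okV_iff`. -/
theorem vY_eq (hs : Sp phi) (w : κ → ZMod 2) (cc : ∀ a, Lab2 (k a) → κ → ZMod 2)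
    (b : I → κ → ZMod 2) :
    vY phi k w cc b = ∑ V ∈ Fintype.piFinset (fun a => Lgs2 (k a)),
      if okV phi w cc b V then 1 else 0 := by
  have hset : UY (UsL phi k) (PY phi k) =
      (Fintype.piFinset fun a => Lgs2 (k a)).image (UL phi k) := by
    ext U
    rw [mem_UY, mem_UsL, mem_image]
    constructor
    · rintro ⟨⟨V, hV, rfl⟩, hP⟩
      have h0 := (PY_sub hs).1 hP
      exact ⟨V, Fintype.mem_piFinset.2 fun a => mem_Lgs2.2
        ⟨(mem_UsN.1 (hV a)).1, (mem_UsN.1 (hV a)).2, h0 a⟩, rfl⟩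
    · rintro ⟨V, hV, rfl⟩
      have h1 := fun a => mem_Lgs2.1 (Fintype.mem_piFinset.1 hV a)
      exact ⟨⟨V, fun a => mem_UsN.2 ⟨(h1 a).unl, (h1 a).card⟩, rfl⟩,
        (PY_sub hs).2 fun a => (h1 a).zero⟩
  unfold vY
  rw [hset, sum_image]
  · refine sum_congr rfl fun V hV => ?_
    unfold mY
    exact if_congr (okV_iff hs w cc b fun a =>
      (mem_Lgs2.1 (Fintype.mem_piFinset.1 hV a)).zero) rfl rfl
  · intro V hV V' hV' e
    have h1 := fun a => mem_Lgs2.1 (Fintype.mem_piFinset.1 hV a)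
    have h2 := fun a => mem_Lgs2.1 (Fintype.mem_piFinset.1 hV' a)
    exact UL_inj hs (fun a => mem_UsN.2 ⟨(h1 a).unl, (h1 a).card⟩)
      (fun a => mem_UsN.2 ⟨(h2 a).unl, (h2 a).card⟩) e

end

end Pool.Agent.Lib.MP_1a91b9_ntMQ
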