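import Pool.Agent.Lib.MP_1a91b9_ntMQ.P0
import Pool.Agent.Lib.MP_1a91b9_ntMQ.Y8

/-!
Y9: the values for the classes and for two copies
-/

set_option autoImplicit false
set_option linter.unusedSectionVars false

namespace Pool.Agent.Lib.MP_1a91b9_ntMQ

open Finset Pool.Agent.Lib.MP_1a91b9_ntH Pool.Agent.Lib.MP_1a91b9_ntQ
open Pool.Agent.Lib.MP_1a91b9_ntQ.Da Pool.Agent.Lib.MP_1a91b9_ntV Pool.Agent.Lib.MP_1a91b9_ntM
open Pool.Agent.Lib.MP_1a91b9_ntDV

noncomputable section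

variable {I A : Type} [Fintype I] [DecidableEq I] [Fintype A] [DecidableEq A] {k : A → ℕ}
  {phi : A → I → ZMod 2} {κ : Type} [Fintype κ] [DecidableEq κ]

omit [DecidableEq I] [DecidableEq A] [DecidableEq κ] in
private theorem Y9_dot (cc : ∀ a, Lab2 (k a) → κ → ZMod 2) (γ : I → κ → ZMod 2) :
    ∑ i, (∑ a, phi a i • cc a 0) ⬝ᵥ γ i = ∑ a, cc a 0 ⬝ᵥ ga phi γ a := by
  have h1 : ∀ i, (∑ a, phi a i • cc a 0) ⬝ᵥ γ i = ∑ a, phi a i * (cc a 0 ⬝ᵥ γ i) := by
    intro i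
    rw [sum_dotProduct]
    exact sum_congr rfl fun a _ => by rw [smul_dotProduct, smul_eq_mul]
  have h2 : ∀ a, (cc a 0 ⬝ᵥ ga phi γ a) = ∑ i, phi a i * (cc a 0 ⬝ᵥ γ i) := by
    intro a
    unfold ga
    rw [dotProduct_sum]
    exact sum_congr rfl fun i _ => by rw [dotProduct_smul, smul_eq_mul]
  rw [sum_congr rfl fun i _ => h1 i, sum_congr rfl fun a _ => h2 a, sum_comm]

private theorem Y9_self {κ : Type} (x : κ → ZMod 2) : x + x = 0 := by
  funext j
  have h2 : ∀ a : ZMod 2, a + a = 0 := by decide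
  exact h2 _

open Classical in
private theorem Y9_V (w : κ → ZMod 2) (cc : ∀ a, Lab2 (k a) → κ → ZMod 2)
    (γ : I → κ → ZMod 2) (V : ∀ a, Finset (Lab2 (k a))) :
    ∑ b : I → κ → ZMod 2, e2 (∑ i, b i ⬝ᵥ γ i) * (if okV phi w cc b V then 1 else 0) =
      ∏ a, (e2 (cc a 0 ⬝ᵥ ga phi γ a) *
        (if ∀ l ∈ V a, cc a l + cc a 0 = 0 ∨ cc a l + cc a 0 = w then 1 else 0)) := by
  rw [prod_mul_distrib, ← e2_sum, ← Y9_dot]
  by_cases h : ∀ a, ∀ l ∈ V a, cc a l + cc a 0 = 0 ∨ cc a l + cc a 0 = w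
  · rw [sum_eq_single fun i => ∑ a, phi a i • cc a 0]
    · rw [if_pos (show okV phi w cc _ V from ⟨fun i => rfl, h⟩),
        prod_congr rfl fun a _ => if_pos (h a), prod_const_one]
    · intro b _ hb
      rw [if_neg, mul_zero]
      rintro ⟨h1, -⟩
      exact hb (funext h1)
    · intro h1
      exact absurd (mem_univ _) h1
  · have h1 : ∃ a, ¬ ∀ l ∈ V a, cc a l + cc a 0 = 0 ∨ cc a l + cc a 0 = w := by
      by_contra hcon
      push Not at hcon
      exact h hcon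
    obtain ⟨a, ha⟩ := h1
    rw [prod_eq_zero (mem_univ a) (if_neg ha), mul_zero]
    refine sum_eq_zero fun b _ => ?_
    rw [if_neg, mul_zero]
    exact fun h2 => h h2.2

/-- **Y9a** (medium-). THE JOINT VALUE FACTORISES. Proof: `vY_eq hs`, exchange the sums over `b` and `V`; for given `V` exactly one `b`
satisfies the first condition of `okV`, `b i = ∑ a, phi a i • cc a 0`, and then
`∑ i, b i ⬝ᵥ γ i = ∑ a, cc a 0 ⬝ᵥ ga phi γ a` (exchange the sums, as in V1.lean), so `e2` of it is `∏ a, e2 (cc a 0 ⬝ᵥ ga phi γ a)`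
(`e2_sum`). The second condition of `okV` is a conjunction over `a`, so the sum over `V` of its indicator is
`∏ a, ∑ U ∈ Lgs2 (k a), if ∀ l ∈ U, .. then 1 else 0` (`Finset.prod_univ_sum` backwards, `Finset.prod_ite_zero`), which is
`mw w (fun l => cc a l + cc a 0)` (MP_1a91b9_ntDV/W4.lean; its first condition is `cc a 0 + cc a 0 = 0`, always true). -/
theorem sum_vY (hs : Sp phi) (w : κ → ZMod 2) (cc : ∀ a, Lab2 (k a) → κ → ZMod 2)
    (γ : I → κ → ZMod 2) :
    ∑ b : I → κ → ZMod 2, e2 (∑ i, b i ⬝ᵥ γ i) * vY phi k w cc b =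
      ∏ a, (e2 (cc a 0 ⬝ᵥ ga phi γ a) * mw w (fun l => cc a l + cc a 0)) := by
  classical
  have h1 : ∀ b : I → κ → ZMod 2, e2 (∑ i, b i ⬝ᵥ γ i) * vY phi k w cc b =
      ∑ V ∈ Fintype.piFinset (fun a => Lgs2 (k a)), e2 (∑ i, b i ⬝ᵥ γ i) *
        (if okV phi w cc b V then 1 else 0) := by
    intro b
    rw [vY_eq hs, mul_sum]
  have h3 : ∀ a, e2 (cc a 0 ⬝ᵥ ga phi γ a) * mw w (fun l => cc a l + cc a 0) =
      ∑ U ∈ Lgs2 (k a), e2 (cc a 0 ⬝ᵥ ga phi γ a) *
        (if ∀ l ∈ U, cc a l + cc a 0 = 0 ∨ cc a l + cc a 0 = w then 1 else 0) := by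
    intro a
    unfold mw
    rw [mul_sum]
    refine sum_congr rfl fun U _ => ?_
    by_cases h : ∀ l ∈ U, cc a l + cc a 0 = 0 ∨ cc a l + cc a 0 = w
    · rw [if_pos ⟨Y9_self _, h⟩, if_pos h]
    · rw [if_neg fun h' => h h'.2, if_neg h]
  rw [sum_congr rfl fun b _ => h1 b, sum_comm, sum_congr rfl fun V _ => Y9_V w cc γ V,
    prod_congr rfl fun a _ => h3 a, prod_univ_sum]

/-- The two families as one family. -/
private def Y9_mk (V W : ∀ a, Finset (Lab2 (k a))) : ∀ s : A ⊕ A, Finset (Lab2 (k2 k s))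
  | .inl a => V a
  | .inr a => W a

private theorem Y9_cond (w : κ → ZMod 2) (cc : ∀ a, Lab2 (k a) → κ → ZMod 2)
    (b : I → κ → ZMod 2) (V : ∀ s : A ⊕ A, Finset (Lab2 (k2 k s))) :
    okV (phi2 phi) w (cc2 cc) (Sum.elim b b) V ↔
      okV phi w cc b (fun a => V (.inl a)) ∧ okV phi w cc b (fun a => V (.inr a)) := by
  have hl : ∀ i, (∑ s : A ⊕ A, phi2 phi s (.inl i) • cc2 cc s 0) = ∑ a, phi a i • cc a 0 := by
    intro i
    rw [Fintype.sum_sum_type]
    have e1 : ∑ a : A, phi2 phi (.inr a) (.inl i) • cc2 cc (.inr a) 0 = 0 :=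
      sum_eq_zero fun a _ => zero_smul _ _
    rw [e1, add_zero]
    rfl
  have hr : ∀ i, (∑ s : A ⊕ A, phi2 phi s (.inr i) • cc2 cc s 0) = ∑ a, phi a i • cc a 0 := by
    intro i
    rw [Fintype.sum_sum_type]
    have e1 : ∑ a : A, phi2 phi (.inl a) (.inr i) • cc2 cc (.inl a) 0 = 0 :=
      sum_eq_zero fun a _ => zero_smul _ _
    rw [e1, zero_add]
    rfl
  constructor
  · rintro ⟨h1, h2⟩
    refine ⟨⟨fun i => ?_, fun a l hl' => h2 (.inl a) l hl'⟩,
      ⟨fun i => ?_, fun a l hl' => h2 (.inr a) l hl'⟩⟩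
    · rw [← hl i]
      exact h1 (.inl i)
    · rw [← hr i]
      exact h1 (.inr i)
  · rintro ⟨⟨h1, h2⟩, ⟨h3, h4⟩⟩
    refine ⟨?_, ?_⟩
    · rintro (i | i)
      · rw [hl i]
        exact h1 i
      · rw [hr i]
        exact h3 i
    · rintro (a | a) l hl'
      · exact h2 a l hl'
      · exact h4 a l hl'

/-- **Y9b** (medium-). Two copies. Proof: as `vQ_two` (V2.lean, PROVED): `vY_eq` for `phi2 phi` (`Sp.two hs`) and for `phi`; the families
`V` for `phi2` are the pairs of families for `phi`, and `okV (phi2 phi) w (cc2 cc) (Sum.elim b b) V` is the conjunction of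
the two conditions (`Fintype.sum_sum_type`; the terms of the other copy are `0`). -/
theorem vY_two (hs : Sp phi) (w : κ → ZMod 2) (cc : ∀ a, Lab2 (k a) → κ → ZMod 2)
    (b : I → κ → ZMod 2) :
    vY (phi2 phi) (k2 k) w (cc2 cc) (Sum.elim b b) = vY phi k w cc b * vY phi k w cc b := by
  classical
  rw [vY_eq (Sp.two hs), vY_eq hs, Finset.sum_mul_sum, ← Finset.sum_product']
  refine Finset.sum_nbij' (fun V => (fun a => V (.inl a), fun a => V (.inr a)))
    (fun p => Y9_mk p.1 p.2) ?_ ?_ ?_ ?_ ?_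
  · intro V hV
    rw [Fintype.mem_piFinset] at hV
    exact mem_product.2 ⟨Fintype.mem_piFinset.2 fun a => hV (.inl a),
      Fintype.mem_piFinset.2 fun a => hV (.inr a)⟩
  · intro p hp
    obtain ⟨h1, h2⟩ := mem_product.1 hp
    rw [Fintype.mem_piFinset] at h1 h2
    refine Fintype.mem_piFinset.2 ?_
    rintro (a | a)
    · exact h1 a
    · exact h2 a
  · intro V _
    funext s
    rcases s with a | a
    · rfl
    · rfl
  · intro p _
    rfl
  · intro V _
    have h := Y9_cond (phi := phi) w cc b V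
    by_cases h1 : okV phi w cc b (fun a => V (.inl a))
    · by_cases h2 : okV phi w cc b (fun a => V (.inr a))
      · rw [if_pos (h.2 ⟨h1, h2⟩), if_pos h1, if_pos h2, mul_one]
      · rw [if_neg (fun h' => h2 (h.1 h').2), if_neg h2, mul_zero]
    · rw [if_neg (fun h' => h1 (h.1 h').1), if_neg h1, zero_mul]

end

end Pool.Agent.Lib.MP_1a91b9_ntMQ
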