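import Pool.Agent.Lib.MP_1a91b9_ntMQ.A7
import Pool.Agent.Lib.MP_1a91b9_ntMQ.Y7
import Pool.Agent.Lib.MP_1a91b9_ntMQ.Y9

/-!
Y10: the mean square
-/

set_option autoImplicit false
set_option linter.unusedSectionVars false

namespace Pool.Agent.Lib.MP_1a91b9_ntMQ

open Finset Pool.Agent.Lib.MP_1a91b9_ntH Pool.Agent.Lib.MP_1a91b9_ntQ
open Pool.Agent.Lib.MP_1a91b9_ntQ.Da Pool.Agent.Lib.MP_1a91b9_ntV Pool.Agent.Lib.MP_1a91b9_ntM
open Pool.Agent.Lib.MP_1a91b9_ntDV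
open Pool.Agent.Lib.MP_1a91b9_ntW (OKw gW)

noncomputable section

variable {I A : Type} [Fintype I] [DecidableEq I] [Fintype A] [DecidableEq A] {k : A → ℕ}
  {phi : A → I → ZMod 2} {ι : Type} [DecidableEq ι] {κ : Type} [Fintype κ] [DecidableEq κ]

/-- **Y10a** (easy+). Proof: as `FB_two` (A6.lean, PROVED, copy it): `chI` and the product over `A ⊕ A` split
(`Fintype.prod_sum_type`), `TT_two`. -/
theorem FY_two (D : Dat2 ι κ) (w : κ → ZMod 2) (r : ι → ZMod 2)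
    (cc : ∀ a, Lab2 (k a) → κ → ZMod 2) (b : I → κ → ZMod 2) (c : I ⊕ I → Finset ι) :
    FY D w r phi k cc b (fun i => c (.inl i)) * FY D w r phi k cc b (fun i => c (.inr i)) =
      FY D w r (phi2 phi) (k2 k) (cc2 cc) (Sum.elim b b) c := by
  unfold FY chI
  rw [Fintype.prod_sum_type, Fintype.prod_sum_type]
  have h1 : ∀ a, BF D (Phi1 PhiQ) (gw D w r (cc2 cc (.inl a))) (TT (phi2 phi) c (.inl a)) =
      BF D (Phi1 PhiQ) (gw D w r (cc a)) (TT phi (fun i => c (.inl i)) a) := fun a => by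
    rw [(TT_two c a).1]
    rfl
  have h2 : ∀ a, BF D (Phi1 PhiQ) (gw D w r (cc2 cc (.inr a))) (TT (phi2 phi) c (.inr a)) =
      BF D (Phi1 PhiQ) (gw D w r (cc a)) (TT phi (fun i => c (.inr i)) a) := fun a => by
    rw [(TT_two c a).2]
    rfl
  rw [prod_congr rfl fun a _ => h1 a, prod_congr rfl fun a _ => h2 a]
  simp only [Sum.elim_inl, Sum.elim_inr]
  ring

private theorem Y10_e2 (x : ZMod 2) : (starRingEnd ℂ) (e2 x) = e2 x := by
  unfold e2
  exact Complex.conj_ofReal _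

private theorem Y10_two : (starRingEnd ℂ) (2 : ℂ) = 2 := map_ofNat _ 2

omit [DecidableEq κ] in
private theorem Y10_BF {m : ℕ} (D : Dat2 ι κ) (w : κ → ZMod 2) (r : ι → ZMod 2) (cc : Lab2 m → κ → ZMod 2)
    (T : Finset ι) : (starRingEnd ℂ) (BF D (Phi1 PhiQ) (gw D w r cc) T) = BF D (Phi1 PhiQ) (gw D w r cc) T := by
  have h1 : ∀ (l : Lab2 m) (q : ι), (starRingEnd ℂ) (gw D w r cc l q) = gw D w r cc l q := fun l q => by
    unfold gw gW
    rw [map_mul, map_one]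
    congr 1
    split_ifs
    · rw [map_mul, map_inv₀, map_pow, Y10_two, Y10_e2]
    · exact Y10_e2 _
    · exact map_zero _
  unfold BF
  rw [map_sum]
  refine sum_congr rfl fun f _ => ?_
  rw [map_mul, map_prod, Y10_e2]
  congr 1
  exact prod_congr rfl fun j _ => h1 _ _

omit [DecidableEq κ] in
private theorem Y10_FY (D : Dat2 ι κ) (w : κ → ZMod 2) (r : ι → ZMod 2) (cc : ∀ a, Lab2 (k a) → κ → ZMod 2)
    (b : I → κ → ZMod 2) (c : I → Finset ι) : (starRingEnd ℂ) (FY D w r phi k cc b c) = FY D w r phi k cc b c := by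
  unfold FY chI
  rw [map_mul, map_prod, map_prod]
  refine congrArg₂ (fun x y => x * y) (prod_congr rfl fun i _ => Y10_e2 _) (prod_congr rfl fun a _ => Y10_BF D w r _ _)

omit [DecidableEq κ] in
private theorem Y10_avI (D : Dat2 ι κ) (w : κ → ZMod 2) (r : ι → ZMod 2) (cc : ∀ a, Lab2 (k a) → κ → ZMod 2)
    (b : I → κ → ZMod 2) (S : Finset ι) :
    (starRingEnd ℂ) (avI (FY D w r phi k cc b) S) = avI (FY D w r phi k cc b) S := by
  unfold avI
  rw [map_div₀, map_sum, map_pow, Y10_two]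
  congr 1
  exact sum_congr rfl fun c _ => Y10_FY D w r cc b c

omit [DecidableEq κ] in
private theorem Y10_vY (w : κ → ZMod 2) (cc : ∀ a, Lab2 (k a) → κ → ZMod 2) (b : I → κ → ZMod 2) :
    (starRingEnd ℂ) (vY phi k w cc b) = vY phi k w cc b := by
  unfold vY mY
  rw [map_sum]
  refine sum_congr rfl fun U _ => ?_
  split_ifs
  · exact map_one _
  · exact map_zero _

variable [PS ι]

/-- **Y10b** (medium-). THE MEAN SQUARE. Proof: as `AVI_FB` (A7.lean, PROVED, copy it with its private helpers) with `FY_two`,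
`MVI_FY (Sp.two hs) hD r`, `vY_two hs`, `MVI_FY hs hD r`; `vY` is a sum of numbers `0` and `1`, the weights `gw` are real. -/
theorem AVI_FY (hs : Sp phi) {D : Dat2 ι κ} {w : κ → ZMod 2} (hD : OKw D w) (r : ι → ZMod 2)
    (cc : ∀ a, Lab2 (k a) → κ → ZMod 2) (b : I → κ → ZMod 2) :
    AVI (FY D w r phi k cc b) (vY phi k w cc b) := by
  intro ε hε
  set v : ℂ := vY phi k w cc b with hv
  have hp : 0 < 1 + 2 * ‖v‖ := by positivity
  set ε' : ℝ := ε / (1 + 2 * ‖v‖) with hε'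
  have hε0 : 0 < ε' := by positivity
  obtain ⟨X1, h1⟩ := MVI_FY (Sp.two hs) hD r (cc2 cc) (Sum.elim b b) ε' hε0
  obtain ⟨X2, h2⟩ := MVI_FY hs hD r cc b ε' hε0
  refine ⟨X1 + X2, fun X hX => ?_⟩
  have g1 := h1 X (by omega)
  have g2 := h2 X (by omega)
  set A : Finset ι → ℂ := fun S => avI (FY D w r phi k cc b) S with hA
  have hsq : ∀ S, avI (FY D w r (phi2 phi) (k2 k) (cc2 cc) (Sum.elim b b)) S = A S * A S := fun S => by
    rw [hA]
    show _ = avI (FY D w r phi k cc b) S * avI (FY D w r phi k cc b) S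
    rw [avI_mul]
    congr 1
    funext c
    exact (FY_two D w r cc b c).symm
  rw [sum_congr rfl fun S _ => hsq S, vY_two hs] at g1
  have hc : ∀ S, (starRingEnd ℂ) (A S - v) = A S - v := fun S => by
    rw [map_sub, hv, Y10_vY, hA]
    show (starRingEnd ℂ) (avI (FY D w r phi k cc b) S) - _ = _
    rw [Y10_avI]
  have e1 : ((∑ S ∈ Sx ι X, ‖A S - v‖ ^ 2 : ℝ) : ℂ) =
      (∑ S ∈ Sx ι X, A S * A S - v * v * ((Sx ι X).card : ℂ)) -
        2 * v * (∑ S ∈ Sx ι X, A S - v * ((Sx ι X).card : ℂ)) := by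
    have e2 : ∀ S, ((‖A S - v‖ ^ 2 : ℝ) : ℂ) = A S * A S - 2 * v * A S + v * v := fun S => by
      have e3 := Complex.mul_conj' (A S - v)
      rw [hc S] at e3
      rw [Complex.ofReal_pow, ← e3]
      ring
    rw [Complex.ofReal_sum, sum_congr rfl fun S _ => e2 S, sum_add_distrib, sum_sub_distrib,
      ← mul_sum, sum_const, nsmul_eq_mul]
    ring
  have hnn : 0 ≤ ∑ S ∈ Sx ι X, ‖A S - v‖ ^ 2 := sum_nonneg fun S _ => by positivity
  have e4 : ∑ S ∈ Sx ι X, ‖A S - v‖ ^ 2 = ‖((∑ S ∈ Sx ι X, ‖A S - v‖ ^ 2 : ℝ) : ℂ)‖ := by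
    rw [Complex.norm_real, Real.norm_eq_abs, abs_of_nonneg hnn]
  have e5 : ∑ S ∈ Sx ι X, ‖A S - v‖ ^ 2 ≤ ε' * X + 2 * ‖v‖ * (ε' * X) := by
    rw [e4, e1]
    refine (norm_sub_le _ _).trans (add_le_add g1 ?_)
    rw [norm_mul, norm_mul]
    have h3 : ‖(2 : ℂ)‖ = 2 := by norm_num
    rw [h3]
    exact mul_le_mul_of_nonneg_left g2 (by positivity)
  have e6 : ε' * X + 2 * ‖v‖ * (ε' * X) = ε * X := by
    rw [hε']
    field_simp
  rw [e6] at e5
  refine e5.trans (mul_le_mul_of_nonneg_left ?_ hε.le)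
  have : (0 : ℝ) ≤ (Sx ι X).card := Nat.cast_nonneg _
  linarith

end

end Pool.Agent.Lib.MP_1a91b9_ntMQ
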