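import Pool.Agent.Lib.MP_1a91b9_ntMQ.P1
import Pool.Agent.Lib.MP_1a91b9_ntMQ.Y10
import Pool.Agent.Lib.MP_1a91b9_ntW.DJ.Mom

/-!
Y11: the joint moments of the sizes of the kernels, in a class
-/

set_option autoImplicit false
set_option linter.unusedSectionVars false

namespace Pool.Agent.Lib.MP_1a91b9_ntMQ

open Finset Pool.Agent.Lib.MP_1a91b9_ntH Pool.Agent.Lib.MP_1a91b9_ntQ
open Pool.Agent.Lib.MP_1a91b9_ntQ.Da Pool.Agent.Lib.MP_1a91b9_ntV Pool.Agent.Lib.MP_1a91b9_ntM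
open Pool.Agent.Lib.MP_1a91b9_ntDV
open Pool.Agent.Lib.MP_1a91b9_ntW (OKw gW kW DifW)

noncomputable section

variable {I A : Type} [Fintype I] [DecidableEq I] [Fintype A] [DecidableEq A]
  {phi : A → I → ZMod 2} {ι : Type} [DecidableEq ι] {κ : Type} [Fintype κ] [DecidableEq κ]
  {Bt : A → Type} [∀ a, Fintype (Bt a)] [∀ a, DecidableEq (Bt a)] {E : ∀ a, Bt a → Type}
  [∀ a x, Fintype (E a x)] [∀ a x, DecidableEq (E a x)] [PS ι]

/-- **Y11a** (medium-). The mean square with class characters. Proof: for every `a` and every set `S` (`kJ_mul D hD.tw r (c a) (P a) (R a) (k a)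
(fun _ => 1) S`, MP_1a91b9_ntW/DJ/Mom.lean; `LW D w (fun _ => 1) r cc` has `Phi = Phi1 PhiQ`, `g = gw D w r cc`):
`kJ .. S * ∏ x, (2 ^ k a x) ^ card (E a x) = ∑ m, (∏ x, e2 (RF (R a x) (m x))) * BF D (Phi1 PhiQ) (gw D w r (ccJ (c a) (P a) m)) S`.
Multiply over `a` for `S = TT phi cf a` (`Finset.prod_univ_sum`, `Fintype.piFinset_univ`): the function times the product of the
denominators is `∑ m, (∏ a, ∏ x, e2 ..) * FY D w r phi (fun a => ∑ x, k a x) (fun a => ccJ (c a) (P a) (m a)) b cf`. Then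
`AVI_FY hs hD r`, `AVI.smul`, `AVI.sum`, `AVI.congr` (R1.lean), as in `AV_kJ8` (MP_1a91b9_ntDV/W6.lean, PROVED). -/
theorem AVI_kJ8 (hs : Sp phi) {D : Dat2 ι κ} {w : κ → ZMod 2} (hD : OKw D w) (r : ι → ZMod 2)
    (c : ∀ a, Bt a → κ → ZMod 2) (P : ∀ a x, κ → E a x → ZMod 2)
    (R : ∀ a x, Matrix (E a x) (E a x) (ZMod 2)) (k : ∀ a, Bt a → ℕ) (b : I → κ → ZMod 2) :
    AVI (fun cf => chI D b cf * ∏ a, (Pool.Agent.Lib.MP_1a91b9_ntW.kJ D w r (c a) (P a) (R a) (k a)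
        (TT phi cf a) : ℂ))
      ((∑ m : ∀ a x, E a x → Lab2 (k a x), (∏ a, ∏ x, e2 (RF (R a x) (m a x))) *
        vY phi (fun a => ∑ x, k a x) w
          (fun a => Pool.Agent.Lib.MP_1a91b9_ntW.ccJ (c a) (P a) (m a)) b) /
        ∏ a, ∏ x, ((2 : ℂ) ^ k a x) ^ Fintype.card (E a x)) := by
  classical
  have hWp : (∏ a, ∏ x, ((2 : ℂ) ^ k a x) ^ Fintype.card (E a x)) ≠ 0 :=
    prod_ne_zero_iff.2 fun a _ => prod_ne_zero_iff.2 fun x _ => pow_ne_zero _ (pow_ne_zero _ two_ne_zero)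
  have h1 := AVI.sum (univ : Finset (∀ a x, E a x → Lab2 (k a x)))
    (F := fun m cf => (∏ a, ∏ x, e2 (RF (R a x) (m a x))) *
      FY D w r phi (fun a => ∑ x, k a x)
        (fun a => Pool.Agent.Lib.MP_1a91b9_ntW.ccJ (c a) (P a) (m a)) b cf)
    (v := fun m => (∏ a, ∏ x, e2 (RF (R a x) (m a x))) *
      vY phi (fun a => ∑ x, k a x) w
        (fun a => Pool.Agent.Lib.MP_1a91b9_ntW.ccJ (c a) (P a) (m a)) b)
    (fun m _ => (AVI_FY hs hD r (fun a => Pool.Agent.Lib.MP_1a91b9_ntW.ccJ (c a) (P a) (m a)) b).smul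
      (∏ a, ∏ x, e2 (RF (R a x) (m a x))))
  refine (h1.smul (∏ a, ∏ x, ((2 : ℂ) ^ k a x) ^ Fintype.card (E a x))⁻¹).congr (fun cf => ?_) ?_
  · have h2 : ∀ a, (Pool.Agent.Lib.MP_1a91b9_ntW.kJ D w r (c a) (P a) (R a) (k a) (TT phi cf a) : ℂ) *
        (∏ x, ((2 : ℂ) ^ k a x) ^ Fintype.card (E a x)) =
        ∑ m : (∀ x, E a x → Lab2 (k a x)), (∏ x, e2 (RF (R a x) (m x))) *
          BF D (Phi1 PhiQ) (gw D w r (Pool.Agent.Lib.MP_1a91b9_ntW.ccJ (c a) (P a) m)) (TT phi cf a) := by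
      intro a
      have h3 := Pool.Agent.Lib.MP_1a91b9_ntW.kJ_mul D hD.tw r (c a) (P a) (R a) (k a) (fun _ => 1) (TT phi cf a)
      rw [prod_const_one, one_mul] at h3
      exact h3
    have h5 : (∏ a, (Pool.Agent.Lib.MP_1a91b9_ntW.kJ D w r (c a) (P a) (R a) (k a) (TT phi cf a) : ℂ)) *
        (∏ a, ∏ x, ((2 : ℂ) ^ k a x) ^ Fintype.card (E a x)) =
        ∑ m : (∀ a x, E a x → Lab2 (k a x)), ∏ a, ((∏ x, e2 (RF (R a x) (m a x))) *
          BF D (Phi1 PhiQ) (gw D w r (Pool.Agent.Lib.MP_1a91b9_ntW.ccJ (c a) (P a) (m a))) (TT phi cf a)) := by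
      rw [← prod_mul_distrib, prod_congr rfl fun a _ => h2 a, Finset.prod_univ_sum, Fintype.piFinset_univ]
    have h6 : ∑ m : (∀ a x, E a x → Lab2 (k a x)), (∏ a, ∏ x, e2 (RF (R a x) (m a x))) *
        FY D w r phi (fun a => ∑ x, k a x)
          (fun a => Pool.Agent.Lib.MP_1a91b9_ntW.ccJ (c a) (P a) (m a)) b cf =
        chI D b cf * ((∏ a, (Pool.Agent.Lib.MP_1a91b9_ntW.kJ D w r (c a) (P a) (R a) (k a) (TT phi cf a) : ℂ)) *
          ∏ a, ∏ x, ((2 : ℂ) ^ k a x) ^ Fintype.card (E a x)) := by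
      rw [h5, mul_sum]
      refine sum_congr rfl fun m _ => ?_
      unfold FY
      rw [prod_mul_distrib (f := fun a => ∏ x, e2 (RF (R a x) (m a x)))]
      ring
    rw [h6]
    field_simp
  · rw [div_eq_inv_mul]

/-- **Y11b** (medium-). The joint moments in a class. Proof: as `AVI_cls` (A8.lean, PROVED): the function is
`(2 ^ (#κ * #I))⁻¹ * ∑ b, e2 (∑ i, b i ⬝ᵥ γ i) * chI D b cf * ..`; `AVI_kJ8`, `AVI.smul`, `AVI.sum`; exchange the sums over `b` and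
`m`, `sum_vY hs`; `ccJ_zero`: `ccJ (c a) (P a) (m a) 0 = 0`, so `e2 (0 ⬝ᵥ ..) = 1` and `mw w (fun l => ccJ .. l + 0)` is
`∑ U ∈ Lgs2, if (∀ l ∈ U, ccJ .. l = 0 ∨ ccJ .. l = w) then 1 else 0`; by `Finset.prod_univ_sum` (backwards) the sum over `m` is
`∏ a, TJ (k a) w (c a) (P a) (R a) 0`, and `TJ_zero (hR a) (hc a) (hP a)` (MP_1a91b9_ntW/DJ/Mom.lean) cancels the denominators.
Then `PclI` is `AVrI`, `AVrI_iff`, `kJ` is the product of the statement (`push_cast`), as in `Pcl_kJ8` (W6.lean, PROVED). -/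
theorem PclI_kJ8 (hs : Sp phi) {D : Dat2 ι κ} {w : κ → ZMod 2} (hD : OKw D w) (r : ι → ZMod 2)
    {c : ∀ a, Bt a → κ → ZMod 2} (hc : ∀ a, DifW (c a) w) {P : ∀ a x, κ → E a x → ZMod 2}
    {R : ∀ a x, Matrix (E a x) (E a x) (ZMod 2)} (hR : ∀ a x e f, R a x e f = R a x f e)
    (hP : ∀ a x, ∀ y : E a x → ZMod 2,
      ((∀ j, ∑ e, P a x j e * y e = 0) ∨ ∀ j, ∑ e, P a x j e * y e = w j) → y = 0)
    (γ : I → κ → ZMod 2) (k : ∀ a, Bt a → ℕ) :
    PclI D γ (fun cf => ∏ a, ∏ x,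
        (kW D w (fun q => r q + D.dg (c a x) q) (P a x) (R a x) (TT phi cf a) : ℝ) ^ k a x)
      (∏ a, ∏ x, (Nk2 (k a x) : ℝ)) := by
  classical
  have hk : (2 : ℂ) ^ (Fintype.card κ * Fintype.card I) ≠ 0 := pow_ne_zero _ two_ne_zero
  have hWp : (∏ a, ∏ x, ((2 : ℂ) ^ k a x) ^ Fintype.card (E a x)) ≠ 0 :=
    prod_ne_zero_iff.2 fun a _ => prod_ne_zero_iff.2 fun x _ => pow_ne_zero _ (pow_ne_zero _ two_ne_zero)
  have h1 := AVI.sum (univ : Finset (I → κ → ZMod 2))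
    (F := fun b cf => e2 (∑ i, b i ⬝ᵥ γ i) * (chI D b cf *
      ∏ a, (Pool.Agent.Lib.MP_1a91b9_ntW.kJ D w r (c a) (P a) (R a) (k a) (TT phi cf a) : ℂ)))
    (v := fun b => e2 (∑ i, b i ⬝ᵥ γ i) *
      ((∑ m : ∀ a x, E a x → Lab2 (k a x), (∏ a, ∏ x, e2 (RF (R a x) (m a x))) *
        vY phi (fun a => ∑ x, k a x) w
          (fun a => Pool.Agent.Lib.MP_1a91b9_ntW.ccJ (c a) (P a) (m a)) b) /
        ∏ a, ∏ x, ((2 : ℂ) ^ k a x) ^ Fintype.card (E a x)))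
    (fun b _ => (AVI_kJ8 hs hD r c P R k b).smul (e2 (∑ i, b i ⬝ᵥ γ i)))
  refine AVrI_iff.2 ((h1.smul ((2 : ℂ) ^ (Fintype.card κ * Fintype.card I))⁻¹).congr (fun cf => ?_) ?_)
  · have h2 : ∀ b : I → κ → ZMod 2, e2 (∑ i, b i ⬝ᵥ γ i) * (chI D b cf *
        ∏ a, (Pool.Agent.Lib.MP_1a91b9_ntW.kJ D w r (c a) (P a) (R a) (k a) (TT phi cf a) : ℂ)) =
        (∏ i, e2 (b i ⬝ᵥ (γ i + clN D (cf i)))) *
        ∏ a, (Pool.Agent.Lib.MP_1a91b9_ntW.kJ D w r (c a) (P a) (R a) (k a) (TT phi cf a) : ℂ) := by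
      intro b
      unfold chI
      rw [e2_sum, ← mul_assoc, ← prod_mul_distrib]
      congr 1
      refine prod_congr rfl fun i _ => ?_
      rw [sum_dg, dotProduct_add, e2_add]
    have h3 : ∑ b : I → κ → ZMod 2, ∏ i, e2 (b i ⬝ᵥ (γ i + clN D (cf i))) =
        ∏ i, if γ i + clN D (cf i) = 0 then (2 ^ Fintype.card κ : ℂ) else 0 := by
      rw [← prod_congr rfl fun i _ => sum_dotE (γ i + clN D (cf i)), Finset.prod_univ_sum,
        Fintype.piFinset_univ]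
    rw [sum_congr rfl fun b _ => h2 b, ← sum_mul, h3]
    have h5 : ∀ x y : ZMod 2, x + y = 0 → y = x := by decide
    by_cases h : ∀ i, clN D (cf i) = γ i
    · have h4 : ∀ i, (if γ i + clN D (cf i) = 0 then (2 ^ Fintype.card κ : ℂ) else 0) =
          2 ^ Fintype.card κ := fun i => by
        rw [if_pos]
        rw [h i]
        funext j
        exact z2_add_self _
      rw [if_pos h, prod_congr rfl fun i _ => h4 i, prod_const, card_univ, ← pow_mul, ← mul_assoc,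
        inv_mul_cancel₀ hk, one_mul]
      unfold Pool.Agent.Lib.MP_1a91b9_ntW.kJ
      push_cast
      rfl
    · rw [if_neg h]
      push Not at h
      obtain ⟨i, hi⟩ := h
      rw [prod_eq_zero (mem_univ i), zero_mul, mul_zero, Complex.ofReal_zero]
      rw [if_neg]
      intro h3
      apply hi
      funext j
      exact h5 _ _ (congrFun h3 j)
  · have h2 : ∀ (a : A) (m : ∀ x, E a x → Lab2 (k a x)),
        e2 (Pool.Agent.Lib.MP_1a91b9_ntW.ccJ (c a) (P a) m 0 ⬝ᵥ ga phi γ a) *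
          mw w (fun l => Pool.Agent.Lib.MP_1a91b9_ntW.ccJ (c a) (P a) m l +
            Pool.Agent.Lib.MP_1a91b9_ntW.ccJ (c a) (P a) m 0) =
        ∑ U ∈ Lgs2 (∑ x, k a x), if (0 : κ → ZMod 2) = 0 ∧
          ∀ l ∈ U, Pool.Agent.Lib.MP_1a91b9_ntW.ccJ (c a) (P a) m l = 0 ∨
            Pool.Agent.Lib.MP_1a91b9_ntW.ccJ (c a) (P a) m l = w then 1 else 0 := by
      intro a m
      rw [Pool.Agent.Lib.MP_1a91b9_ntW.ccJ_zero, zero_dotProduct, e2_zero, one_mul]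
      unfold mw
      refine sum_congr rfl fun U _ => ?_
      refine if_congr ?_ rfl rfl
      simp only [Pool.Agent.Lib.MP_1a91b9_ntW.ccJ_zero, add_zero]
    have h3 : ∀ a, ∑ m : (∀ x, E a x → Lab2 (k a x)), (∏ x, e2 (RF (R a x) (m x))) *
        (e2 (Pool.Agent.Lib.MP_1a91b9_ntW.ccJ (c a) (P a) m 0 ⬝ᵥ ga phi γ a) *
          mw w (fun l => Pool.Agent.Lib.MP_1a91b9_ntW.ccJ (c a) (P a) m l +
            Pool.Agent.Lib.MP_1a91b9_ntW.ccJ (c a) (P a) m 0)) =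
        (∏ x, ((2 : ℂ) ^ k a x) ^ Fintype.card (E a x)) * ∏ x, (Nk2 (k a x) : ℂ) := by
      intro a
      rw [← prod_mul_distrib, ← Pool.Agent.Lib.MP_1a91b9_ntW.TJ_zero (hR a) (hc a) (hP a)]
      unfold Pool.Agent.Lib.MP_1a91b9_ntW.TJ
      exact sum_congr rfl fun m _ => by rw [h2 a m]
    have h4 : ∑ b : I → κ → ZMod 2, e2 (∑ i, b i ⬝ᵥ γ i) *
        (∑ m : ∀ a x, E a x → Lab2 (k a x), (∏ a, ∏ x, e2 (RF (R a x) (m a x))) *
          vY phi (fun a => ∑ x, k a x) w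
            (fun a => Pool.Agent.Lib.MP_1a91b9_ntW.ccJ (c a) (P a) (m a)) b) =
        (∏ a, ∏ x, ((2 : ℂ) ^ k a x) ^ Fintype.card (E a x)) * ∏ a, ∏ x, (Nk2 (k a x) : ℂ) := by
      rw [← prod_mul_distrib, ← prod_congr rfl fun a _ => h3 a, Finset.prod_univ_sum, Fintype.piFinset_univ]
      simp only [mul_sum]
      rw [sum_comm]
      refine sum_congr rfl fun m _ => ?_
      refine Eq.trans ?_ (prod_mul_distrib (f := fun a => ∏ x, e2 (RF (R a x) (m a x)))).symm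
      rw [← sum_vY hs w (fun a => Pool.Agent.Lib.MP_1a91b9_ntW.ccJ (c a) (P a) (m a)) γ, mul_sum]
      refine sum_congr rfl fun b _ => ?_
      ring
    have h5 : ∑ b : I → κ → ZMod 2, e2 (∑ i, b i ⬝ᵥ γ i) *
        ((∑ m : ∀ a x, E a x → Lab2 (k a x), (∏ a, ∏ x, e2 (RF (R a x) (m a x))) *
          vY phi (fun a => ∑ x, k a x) w
            (fun a => Pool.Agent.Lib.MP_1a91b9_ntW.ccJ (c a) (P a) (m a)) b) /
          ∏ a, ∏ x, ((2 : ℂ) ^ k a x) ^ Fintype.card (E a x)) = ∏ a, ∏ x, (Nk2 (k a x) : ℂ) := by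
      rw [← mul_div_cancel_left₀ (∏ a, ∏ x, (Nk2 (k a x) : ℂ)) hWp, ← h4, sum_div]
      refine sum_congr rfl fun b _ => ?_
      ring
    rw [h5, ← div_eq_inv_mul]
    push_cast
    rfl

end

end Pool.Agent.Lib.MP_1a91b9_ntMQ
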