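import Pool.Agent.Lib.MP_1a91b9_ntMQ.P2
import Pool.Agent.Lib.MP_1a91b9_ntMQ.P11
import Pool.Agent.Lib.MP_1a91b9_ntMQ.Y11
import Pool.Agent.Lib.MP_1a91b9_ntDV.W8

/-!
Y12: the mean values of the products of the three indicators
-/

set_option autoImplicit false
set_option linter.unusedSectionVars false

namespace Pool.Agent.Lib.MP_1a91b9_ntMQ

open Finset Pool.Agent.Lib.MP_1a91b9_ntH Pool.Agent.Lib.MP_1a91b9_ntQ
open Pool.Agent.Lib.MP_1a91b9_ntQ.Da Pool.Agent.Lib.MP_1a91b9_ntV Pool.Agent.Lib.MP_1a91b9_ntM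
open Pool.Agent.Lib.MP_1a91b9_ntDV
open Pool.Agent.Lib.MP_1a91b9_ntW

noncomputable section

variable {I A : Type} [Fintype I] [DecidableEq I] [Fintype A] [DecidableEq A]
  {phi : A → I → ZMod 2} {ι : Type} [DecidableEq ι] {κ : Type} [Fintype κ] [DecidableEq κ] [PS ι]
  {X : A → Type} [∀ a, Fintype (X a)] [∀ a, DecidableEq (X a)]

/-- **Y12** (medium). Proof: this is `Pcl_jd` (MP_1a91b9_ntDV/W8.lean, PROVED, copy it) with a product over `a`:
`(limP_PclI (D.off B) γ).ind_sum` (MP_1a91b9_ntDV/W7.lean) for the index type `Σ a, X a`, the functions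
`x p i cf = kW .. (TT phi cf p.1)` and the three indices `i`; the moments are `PclI_kJ8 hs (OKw_off hD hB)` with
`E a x = mo D w (T a x) ⊕ Fin (nb (i ⟨a, x⟩))` and the exponents `k ⟨a, x⟩` (`Fintype.prod_sigma` twice). For every `a` the class
of `TT phi cf a` is `ga phi γ a` (`clN_TT`, P2.lean), so `αB` (now for every `a`) is given by `ga phi γ a (Sum.inr t)`, and
`det_glue`, `kW_eq_one` as there. There is no exceptional set: change the function with
`(limP_PclI ..)`-free `AVrI.congr` (inside the class the functions are equal, outside both are `0`). At the end the value: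
`cinf2 ^ card (Σ a, X a) * ∏ p, .. = ∏ a, (cinf2 ^ card (X a) * ∏ x, ..)` (`Fintype.card_sigma`, `prod_pow_eq_pow_sum`,
`prod_mul_distrib`). -/
theorem PclI_jd (hs : Sp phi) {D : Dat2 ι κ} {w l : κ → ZMod 2} (hD : OKw D w) (hl0 : l ≠ 0)
    (hlw : l ≠ w) {B : Finset ι} (hB : ∀ (T : Finset ι) (c : κ → ZMod 2), T ⊆ B →
      (T ≠ ∅ ∨ c ≠ 0) → Mz B (fun q => e2 (D.ex1 T c q))) (r : ι → ZMod 2)
    (j : ∀ a, X a → ZMod 2) {T : ∀ a, X a → Finset ι} (hT : ∀ a x, T a x ⊆ B)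
    (hinj : ∀ a x y, j a x = j a y → T a x = T a y → x = y) (z : ∀ a, X a → ZMod 2)
    (γ : I → κ ⊕ B → ZMod 2) (u : ∀ a, X a → Fin 3 → ℝ) :
    PclI (D.off B) γ (fun cf => ∏ a, ∏ x, ∑ i, u a x i *
      if dt D w l r (j a x) (z a x) (up (TT phi cf a) ∪ T a x) i ≠ 0 then (1 : ℝ) else 0)
      (∏ a, (cinf2 ^ Fintype.card (X a) * ∏ x, ∑ i, u a x i)) := by
  classical
  obtain ⟨αB, hαB⟩ : ∃ αB : A → ι → ZMod 2, ∀ (a : A) (b : B), αB a b = ga phi γ a (Sum.inr b) :=
    ⟨fun a b => if h : b ∈ B then ga phi γ a (Sum.inr ⟨b, h⟩) else 0, fun a b => dif_pos b.2⟩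
  have hz : ∀ (a : A) (x y : X a), x ≠ y → T a x = T a y →
      j a x • l + j a y • l ≠ 0 ∧ j a x • l + j a y • l ≠ w := by
    intro a x y hxy hTxy
    have h1 : j a x ≠ j a y := fun h => hxy (hinj a x y h hTxy)
    have h2 : ∀ x y : ZMod 2, x ≠ y → x + y = 1 := by decide
    rw [← add_smul, h2 _ _ h1, one_smul]
    exact ⟨hl0, hlw⟩
  have hmom : ∀ (i : (Σ a, X a) → Fin 3) (k : (Σ a, X a) → ℕ),
      PclI (D.off B) γ (fun cf => ∏ p : Σ a, X a, (kW (D.off B) (wO B w)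
        (fun q => r q.1 + (D.off B).dg (coB B (T p.1 p.2) (j p.1 p.2 • l)) q)
        (PoW D w B (T p.1 p.2) (fun k (_ : Fin (nb (i p))) => l k))
        (RoW D w (T p.1 p.2) (fun t => r t + D.dg (j p.1 p.2 • l) t + αB p.1 t)
          (fun k (_ : Fin (nb (i p))) => l k) (fun _ _ => z p.1 p.2 + zi (i p))) (TT phi cf p.1) : ℝ) ^ k p)
        (∏ p, (Nk2 (k p) : ℝ)) := by
    intro i k
    have h1 := PclI_kJ8 hs (OKw_off hD hB) (fun q => r q.1)
      (c := fun a x => coB B (T a x) (j a x • l))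
      (fun a => difW_off (hT a) (hz a))
      (E := fun a x => mo D w (T a x) ⊕ Fin (nb (i ⟨a, x⟩)))
      (P := fun a x => PoW D w B (T a x) (fun k (_ : Fin (nb (i ⟨a, x⟩))) => l k))
      (R := fun a x => RoW D w (T a x) (fun t => r t + D.dg (j a x • l) t + αB a t)
        (fun k (_ : Fin (nb (i ⟨a, x⟩))) => l k) (fun _ _ => z a x + zi (i ⟨a, x⟩)))
      (fun a x e f => RoW_symm hD.tw (T a x) _ _ (fun _ _ => rfl) e f)
      (fun a x => hP_off (hT a x) (hP_sub hl0 hlw)) γ (fun a x => k ⟨a, x⟩)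
    refine AVrI.congr h1 (fun cf => ?_) ?_
    · by_cases hc : ∀ i, clN (D.off B) (cf i) = γ i
      · rw [if_pos hc, if_pos hc]
        exact Fintype.prod_sigma _
      · rw [if_neg hc, if_neg hc]
    · rw [Fintype.prod_sigma]
  have hm := (limP_PclI (D.off B) γ).ind_sum
    (x := fun (p : Σ a, X a) (i : Fin 3) cf => kW (D.off B) (wO B w)
      (fun q => r q.1 + (D.off B).dg (coB B (T p.1 p.2) (j p.1 p.2 • l)) q)
      (PoW D w B (T p.1 p.2) (fun k (_ : Fin (nb i)) => l k))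
      (RoW D w (T p.1 p.2) (fun t => r t + D.dg (j p.1 p.2 • l) t + αB p.1 t)
        (fun k (_ : Fin (nb i)) => l k) (fun _ _ => z p.1 p.2 + zi i)) (TT phi cf p.1))
    (fun p i cf => kW_pow _ _ _ _ _ _) hmom (fun p i => u p.1 p.2 i)
  refine AVrI.congr hm (fun cf => ?_) ?_
  · by_cases hc : ∀ i, clN (D.off B) (cf i) = γ i
    · rw [if_pos hc, if_pos hc]
      refine Eq.trans ?_ (Fintype.prod_sigma _).symm
      refine prod_congr rfl fun a _ => prod_congr rfl fun x _ => sum_congr rfl fun i _ => ?_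
      have hS : clN (D.off B) (TT phi cf a) = ga phi γ a := clN_TT (D.off B) phi γ cf hc a
      have hα : ∀ t ∈ T a x, αB a t = ∑ q ∈ up (TT phi cf a), D.s q t := by
        intro t ht
        rw [hαB a ⟨t, hT a x ht⟩, ← hS, sum_up]
        rfl
      have h1 := det_glue (F := Fin (nb i)) hD.tw (hT a x) r (j a x • l) (fun k _ => l k)
        (fun _ _ => z a x + zi i) hα
      have h2 : dt D w l r (j a x) (z a x) (up (TT phi cf a) ∪ T a x) i ≠ 0 ↔ kW (D.off B) (wO B w)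
          (fun q => r q.1 + (D.off B).dg (coB B (T a x) (j a x • l)) q)
          (PoW D w B (T a x) (fun k (_ : Fin (nb i)) => l k))
          (RoW D w (T a x) (fun t => r t + D.dg (j a x • l) t + αB a t) (fun k (_ : Fin (nb i)) => l k)
          (fun _ _ => z a x + zi i)) (TT phi cf a) = 1 := by
        rw [kW_eq_one, ← h1]
        rfl
      rw [if_congr h2 rfl rfl]
    · rw [if_neg hc, if_neg hc]
  · congr 1
    rw [Fintype.card_sigma, Fintype.prod_sigma, prod_mul_distrib, prod_pow_eq_pow_sum]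

end

end Pool.Agent.Lib.MP_1a91b9_ntMQ
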