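import Pool.Agent.Lib.MP_1a91b9_ntMQ.B0
import Pool.Agent.Lib.MP_1a91b9_ntMQ.Y12
import Pool.Agent.Lib.MP_1a91b9_ntMQ.Y13

/-!
Y14: the mean values of the products of the indicators of the good blocks
-/

set_option autoImplicit false
set_option linter.unusedSectionVars false

namespace Pool.Agent.Lib.MP_1a91b9_ntMQ

open Finset Pool.Agent.Lib.MP_1a91b9_ntH
open Pool.Agent.Lib.MP_1a91b9_ntQ
open Pool.Agent.Lib.MP_1a91b9_ntQ.Da Pool.Agent.Lib.MP_1a91b9_ntV Pool.Agent.Lib.MP_1a91b9_ntM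
open Pool.Agent.Lib.MP_1a91b9_ntDV
open Pool.Agent.Lib.MP_1a91b9_ntW

noncomputable section

variable {I A : Type} [Fintype I] [DecidableEq I] [Fintype A] [DecidableEq A]
  {phi : A → I → ZMod 2}

open Classical in
/-- **Y14a** (medium-). Proof: for every `a`: `GW_comb h (fun b => k b a) (fun b => j b a) (fun b => T b a) .. (ga phi γ a)` (`choose`),
`v b a` is its `v`. For `J`: `PclI_jd hs hD h.l0 h.lw hB (fun q => rr q.1)` with `X a = {x // x ∈ X_a}` (the finite set of `GW_comb`),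
`j a x = x.1.1`, `T a x = x.1.2`, `z a x = z_a x.1`, `u a x = u_a x.1`; change the function with `AVrI.congr`: in the class
`clN (D.off B) (TT phi cf a) = ga phi γ a` (`clN_TT`), so the identity of `GW_comb` holds for `S = TT phi cf a` (`prod_coe_sort`), and the
products over `b` and `a` are exchanged (`prod_comm`); the value by `Fintype.card_coe`, `prod_coe_sort`, `prod_comm`. -/
theorem PclI_GWJ (hs : Sp phi) {κ : Type} [Fintype κ] [DecidableEq κ] {D : Dat2 Pg κ}
    {w l : κ → ZMod 2} (h : Id8 D w l) (hD : OKw D w) {B : Finset Pg}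
    (hB : ∀ (T : Finset Pg) (c : κ → ZMod 2), T ⊆ B → (T ≠ ∅ ∨ c ≠ 0) →
      Mz B (fun q => e2 (D.ex1 T c q))) {n N : ℕ} (k j : Fin n → A → Fin N → ZMod 2)
    (T : Fin n → A → Fin N → Finset Pg) (hT : ∀ b a i, T b a i ⊆ B)
    (hinj : ∀ b a, Function.Injective fun i => (k b a i, j b a i, T b a i))
    (hdis : ∀ b b', b ≠ b' → ∀ a i i', (j b a i, T b a i) ≠ (j b' a i', T b' a i'))
    (γ : I → κ ⊕ B → ZMod 2) :
    ∃ v : Fin n → A → ℝ, (∀ b a, cinf2 ^ N ≤ v b a ∧ v b a ≤ 1) ∧ ∀ J : Finset (Fin n),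
      PclI (D.off B) γ (fun cf => ∏ b ∈ J, ∏ a,
        if ∀ i, GW (k b a i) (j b a i) (up (TT phi cf a) ∪ T b a i) ≠ 0 then (1 : ℝ) else 0)
        (∏ b ∈ J, ∏ a, v b a) := by
  choose v hv hJ using fun a => GW_comb h (fun b i => k b a i) (fun b i => j b a i) (fun b i => T b a i)
    (fun b i => hT b a i) (fun b => hinj b a) (fun b b' hbb i i' => hdis b b' hbb a i i') (ga phi γ a)
  refine ⟨fun b a => v a b, fun b a => hv a b, fun J => ?_⟩
  choose X u z hXB hval hid using fun a => hJ a J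
  have h1 := PclI_jd hs hD h.l0 h.lw hB (fun q => rr q.1) (X := fun a => {x // x ∈ X a})
    (fun a x => x.1.1) (T := fun a x => x.1.2) (fun a x => hXB a x.1 x.2)
    (fun a x y e1 e2 => Subtype.ext (Prod.ext e1 e2)) (fun a x => z a x.1) γ (fun a x => u a x.1)
  unfold PclI at h1 ⊢
  refine AVrI.congr h1 (fun cf => ?_) ?_
  · by_cases hc : ∀ i, clN (D.off B) (cf i) = γ i
    · rw [if_pos hc, if_pos hc]
      refine prod_comm.trans (prod_congr rfl fun a _ => ?_)
      refine (hid a (TT phi cf a) (clN_TT (D.off B) phi γ cf hc a)).trans ?_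
      exact (prod_coe_sort (X a) (fun x => ∑ i, u a x i *
        if dt D w l (fun q => rr q.1) x.1 (z a x) (up (TT phi cf a) ∪ x.2) i ≠ 0
          then (1 : ℝ) else 0)).symm
    · rw [if_neg hc, if_neg hc]
  · have h2 : ∏ b ∈ J, ∏ a, v a b =
        ∏ a, (cinf2 ^ Fintype.card {x // x ∈ X a} * ∏ x : {x // x ∈ X a}, ∑ i, u a x.1 i) := by
      rw [prod_comm]
      refine prod_congr rfl fun a _ => ?_
      rw [← hval a, Fintype.card_coe]
      exact congrArg (cinf2 ^ (X a).card * ·) (prod_coe_sort (X a) (fun x => ∑ i, u a x i)).symm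
    rw [h2]

/-- **Y14b** (easy+). The sum over the classes, with values which depend on the class. Proof: as `AVrI_of_PclI` (P1.lean, PROVED) and
`AVr_of_Pcl'` (MP_1a91b9_ntDV/W7.lean, PROVED). -/
theorem AVrI_of_PclI' {ι : Type} [DecidableEq ι] {κ : Type} [Fintype κ] [DecidableEq κ] [PS ι]
    {D : Dat2 ι κ} {f : (I → Finset ι) → ℝ} {v : (I → κ → ZMod 2) → ℝ}
    (h : ∀ γ, PclI D γ f (v γ)) : AVrI f ((∑ γ, v γ) / 2 ^ (Fintype.card κ * Fintype.card I)) := by
  classical
  have h1 := AVrI.sum univ fun γ _ => h γ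
  refine AVrI.congr h1 (fun T => ?_) (sum_div _ _ _)
  rw [Finset.sum_eq_single (fun i => clN D (T i))]
  · rw [if_pos fun i => rfl]
  · intro γ _ hγ
    rw [if_neg fun h0 => hγ (funext fun i => (h0 i).symm)]
  · intro h0
    exact absurd (mem_univ _) h0

end

end Pool.Agent.Lib.MP_1a91b9_ntMQ
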